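import Mathlib
import Pool.Agent.Lib.MP_b197b4_ntK.Ord

/-!
# MP_1e3e9c_ag, project U (unsplit families): definitions

`ord V x`, `res V x` (for `V : ValuationSubring F`) and their API are in `MP_b197b4_ntK/Ord.lean`.
-/

set_option autoImplicit false

namespace Pool.Agent.Lib.MP_1e3e9c_agU

open IsLocalRing Pool.Agent.Lib.MP_b197b4_ntK

/-! ## Binary forms -/

section Forms

variable {L : Type} [Field L]

/-- The value at `x` of the binary form `∑ c_j s^(D-j) t^j` of degree `D`. -/
def ev {D : ℕ} (c : Fin (D + 1) → L) (x : Fin 2 → L) : L :=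
  ∑ j : Fin (D + 1), c j * x 0 ^ (D - (j : ℕ)) * x 1 ^ (j : ℕ)

/-- The determinant of two vectors. -/
def wd (p x : Fin 2 → L) : L := p 0 * x 1 - p 1 * x 0

open Polynomial in
/-- The coefficients of the form `f(g x)`. -/
noncomputable def act {D : ℕ} (g : Matrix (Fin 2) (Fin 2) L) (c : Fin (D + 1) → L) :
    Fin (D + 1) → L := fun j =>
  (∑ i : Fin (D + 1), C (c i) * (C (g 0 0) + C (g 0 1) * X) ^ (D - (i : ℕ)) *
    (C (g 1 0) + C (g 1 1) * X) ^ (i : ℕ)).coeff (j : ℕ)

/-- The tuple has no common zero on the projective line, over any extension field. -/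
def BPF {n D : ℕ} (c : Fin (n + 1) → Fin (D + 1) → L) : Prop :=
  ∀ (M : Type) [Field M] (ψ : L →+* M) (x : Fin 2 → M), x ≠ 0 →
    ∃ i, ev (fun j => ψ (c i j)) x ≠ 0

/-- The tuple is `v (a s + b t)^D`. -/
def Cst {n D : ℕ} (c : Fin (n + 1) → Fin (D + 1) → L) : Prop :=
  ∃ (v : Fin (n + 1) → L) (a b : L), ∀ i (j : Fin (D + 1)),
    c i j = v i * (Nat.choose D j : L) * a ^ (D - (j : ℕ)) * b ^ (j : ℕ)

/-- The tuple is a zero of the ideal `I`. -/
def Mem {k : Type} [Field k] {n D : ℕ} (φ : k →+* L)
    (I : Ideal (MvPolynomial (Fin (n + 1) × Fin (D + 1)) k)) (c : Fin (n + 1) → Fin (D + 1) → L) :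
    Prop :=
  ∀ P ∈ I, MvPolynomial.eval₂ φ (fun q => c q.1 q.2) P = 0

/-- The action of the field homomorphism `k → L` on the residue field. -/
noncomputable def resk {k : Type} [Field k] (φ : k →+* L) (V : ValuationSubring L)
    (h : ∀ a, φ a ∈ V) : k →+* ResidueField V :=
  (residue V).comp (φ.codRestrict V.toSubring h)

end Forms

/-- The properties of the family `I` which are used, over all fields `L ⊇ k`. (In the proof by
contradiction: no base point free member has `f_0 = 0`.) -/
structure Fam {k : Type} [Field k] {n D : ℕ} (r : ℕ)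
    (I : Ideal (MvPolynomial (Fin (n + 1) × Fin (D + 1)) k)) : Prop where
  alt : ∀ (L : Type) [Field L] (φ : k →+* L) (c : Fin (n + 1) → Fin (D + 1) → L), Mem φ I c →
    c ≠ 0 → BPF c ∨ Cst c
  act : ∀ (L : Type) [Field L] (φ : k →+* L) (c : Fin (n + 1) → Fin (D + 1) → L)
    (g : Matrix (Fin 2) (Fin 2) L), Mem φ I c → Mem φ I (fun i => act g (c i))
  smul : ∀ (L : Type) [Field L] (φ : k →+* L) (c : Fin (n + 1) → Fin (D + 1) → L) (a : L),
    Mem φ I c → Mem φ I (fun i j => a * c i j)
  zer : ∀ (L : Type) [Field L] (φ : k →+* L) (c : Fin (n + 1) → Fin (D + 1) → L), Mem φ I c →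
    BPF c → c 0 ≠ 0
  rts : ∀ (L : Type) [Field L] (φ : k →+* L) (c : Fin (n + 1) → Fin (D + 1) → L), Mem φ I c →
    BPF c → ∀ p : Fin (r + 1) → Fin 2 → L, (∀ l, p l ≠ 0) → (∀ l, ev (c 0) (p l) = 0) →
      ∃ l l', l ≠ l' ∧ wd (p l) (p l') = 0

/-! ## Valuations -/

section Val

variable {F : Type} [Field F]

/-- `V` is a discrete valuation ring of `F` which contains the subfield `K`. -/
def Dv (K : Subfield F) (V : ValuationSubring F) : Prop :=
  IsDiscreteValuationRing V ∧ ∀ a ∈ K, a ∈ V

open Classical in
/-- The minimum of the orders of the nonzero `z j`. -/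
noncomputable def al {ι : Type} [Fintype ι] (V : ValuationSubring F) (z : ι → F) : ℤ :=
  if h : (Finset.univ.filter fun j => z j ≠ 0).Nonempty then
    (Finset.univ.filter fun j => z j ≠ 0).inf' h (fun j => ord V (z j)) else 0

open Classical in
/-- The reduction of the point `z` of projective space: divide by a coordinate of minimal order. -/
noncomputable def rd {ι : Type} [Fintype ι] (V : ValuationSubring F) (z : ι → F) :
    ι → ResidueField V :=
  if h : ∃ j, z j ≠ 0 ∧ ord V (z j) = al V z then fun i => res V (z i / z h.choose) else 0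

/-- The image of the subfield `K` in the residue field of `V`. -/
noncomputable def resS (K : Subfield F) (V : ValuationSubring F) : Subfield (ResidueField V) :=
  Subfield.closure (res V '' (K : Set F))

/-- The degree of `V` over `K` (`0` if the residue field is not finite over `K`). -/
noncomputable def deg (K : Subfield F) (V : ValuationSubring F) : ℕ :=
  Module.finrank (resS K V) (ResidueField V)

/-- The height of the point `z` of projective space, `F` a function field of one variable over
`K`. -/
noncomputable def ht {ι : Type} [Fintype ι] (K : Subfield F) (z : ι → F) : ℤ :=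
  -∑ᶠ (V : ValuationSubring F) (_ : Dv K V), (deg K V : ℤ) * al V z

/-- `F` is a field of algebraic functions of `m` variables over `K`. -/
def FF (K : Subfield F) (m : ℕ) : Prop :=
  (⊤ : IntermediateField K F).FG ∧ Algebra.trdeg K F = m

/-- The points `z`, `z'` of projective space are equal. -/
def Pr {ι : Type} (z z' : ι → F) : Prop := ∃ a : F, a ≠ 0 ∧ ∀ j, z' j = a * z j

/-- The ratios of the coordinates of `z` are algebraic over `K`. -/
def Con {ι : Type} (K : Subfield F) (z : ι → F) : Prop :=
  ∀ i j, z j ≠ 0 → IsAlgebraic K (z i / z j)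

end Val

/-! ## Generic functions -/

section Gen

/-- `Ω = F(C)` with `C` algebraically independent over `F`. -/
def Gn (F : Type) {Ω σ : Type} [Field F] [Field Ω] [Algebra F Ω] (C : σ → Ω) : Prop :=
  AlgebraicIndependent F C ∧ IntermediateField.adjoin F (Set.range C) = ⊤

/-- The generic functions `(∑ C_(i,0,j) β_i(j)) / (∑ C_(i,1,j) β_i(j))`. -/
noncomputable def gu {F Ω μ ι : Type} [Field F] [Field Ω] [Algebra F Ω] [Fintype ι]
    (C : μ × Bool × ι → Ω) (β : μ → ι → F) (i : μ) : Ω :=
  (∑ j, C (i, false, j) * algebraMap F Ω (β i j)) / (∑ j, C (i, true, j) * algebraMap F Ω (β i j))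

/-- The field generated by `K`, the coefficients `C` and the generic functions with index in
`S`. -/
def cb {F Ω μ ι : Type} [Field F] [Field Ω] [Algebra F Ω] [Fintype ι] (K : Subfield F)
    (C : μ × Bool × ι → Ω) (β : μ → ι → F) (S : Set μ) : Subfield Ω :=
  Subfield.closure ((algebraMap F Ω '' (K : Set F)) ∪ Set.range C ∪ gu C β '' S)

/-- The standard generic extension of `F`. -/
abbrev GF (F σ : Type) [Field F] : Type := FractionRing (MvPolynomial σ F)

/-- The standard generic coefficients. -/
noncomputable def gc (F σ : Type) [Field F] : σ → GF F σ := fun q =>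
  algebraMap (MvPolynomial σ F) (GF F σ) (MvPolynomial.X q)

/-- The mixed degree of the points in the list `l` (`0` if the degree is infinite). -/
noncomputable def XX {F ι : Type} [Field F] [Fintype ι] (K : Subfield F) (l : List (ι → F)) : ℕ :=
  Module.finrank (cb K (gc F (Fin l.length × Bool × ι)) l.get Set.univ)
    (GF F (Fin l.length × Bool × ι))

open Classical in
/-- The mixed degree of the reductions, over the residue field of `V` (`0` if this is not a field of
algebraic functions of the right number of variables). -/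
noncomputable def XR {F ι : Type} [Field F] [Fintype ι] (K : Subfield F) (V : ValuationSubring F)
    (l : List (ι → F)) : ℕ :=
  if FF (resS K V) l.length then XX (resS K V) (l.map (rd V)) else 0

/-- The point `z`, over the extension field `Ω`. -/
def up {F : Type} (Ω : Type) [Field F] [Field Ω] [Algebra F Ω] {ι : Type} (z : ι → F) : ι → Ω :=
  fun j => algebraMap F Ω (z j)

/-- The subfield `K` of `F` in the extension field `Ω`. -/
def upK {F : Type} (Ω : Type) [Field F] [Field Ω] [Algebra F Ω] (K : Subfield F) : Subfield Ω :=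
  K.map (algebraMap F Ω)

end Gen

/-! ## Data -/

/-- A member `c` of the family over the field `F`, with the zeros `p l` of `f_0`. -/
structure Dat {k F : Type} [Field k] [Field F] {n d : ℕ}
    (I : Ideal (MvPolynomial (Fin (n + 1) × Fin (d + 1 + 1)) k)) (φ : k →+* F) where
  c : Fin (n + 1) → Fin (d + 1 + 1) → F
  p : Fin (d + 1) → Fin 2 → F
  e : F
  mem : Mem φ I c
  bpf : BPF c
  pne : ∀ l, p l ≠ 0
  ene : e ≠ 0
  fac : ∀ (M : Type) [Field M] (ψ : F →+* M) (x : Fin 2 → M),
    ev (fun j => ψ (c 0 j)) x = ψ e * ∏ l, wd (fun a => ψ (p l a)) x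

namespace Dat

variable {k F : Type} [Field k] [Field F] {n d : ℕ}
  {I : Ideal (MvPolynomial (Fin (n + 1) × Fin (d + 1 + 1)) k)} {φ : k →+* F}

/-- The point of the curve with parameter `q`. -/
def pt (D : Dat I φ) (q : Fin 2 → F) : Fin (n + 1) → F := fun i => ev (D.c i) q

/-- The same point with repeated coordinates. -/
def zz (D : Dat I φ) (q : Fin 2 → F) : (Fin (d + 1) → Fin (n + 1)) → F := fun σ => D.pt q (σ 0)

/-- The Segre point of the zeros of `f_0`. -/
def sg (D : Dat I φ) : (Fin (d + 1) → Fin (n + 1)) → F := fun σ => ∏ l, D.pt (D.p l) (σ l)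

/-- `(d+1)^2` times the local degree of the rank two bundle. -/
noncomputable def nu (D : Dat I φ) (V : ValuationSubring F) : ℤ :=
  ((d : ℤ) + 1) * ord V D.e + ∑ l, al V (D.pt (D.p l))

/-- `(d+1)^2` times the local contact of the points with parameters `q`, `q'`. -/
noncomputable def dd (D : Dat I φ) (V : ValuationSubring F) (q q' : Fin 2 → F) : ℤ :=
  ((d : ℤ) + 1) ^ 2 * ord V (wd q q') - ((d : ℤ) + 1) * (al V (D.pt q) + al V (D.pt q')) + D.nu V

/-- The datum over the extension field `Ω`. -/
def up (D : Dat I φ) (Ω : Type) [Field Ω] [Algebra F Ω] : Dat I ((algebraMap F Ω).comp φ) where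
  c := fun i j => algebraMap F Ω (D.c i j)
  p := fun l a => algebraMap F Ω (D.p l a)
  e := algebraMap F Ω D.e
  mem := by
    intro P hP
    have h := congrArg (algebraMap F Ω) (D.mem P hP)
    rw [map_zero, MvPolynomial.hom_eval₂] at h
    exact h
  bpf := by
    intro M _ ψ x hx
    exact D.bpf M (ψ.comp (algebraMap F Ω)) x hx
  pne := by
    intro l h
    apply D.pne l
    funext a
    have h1 := congrFun h a
    exact (map_eq_zero (algebraMap F Ω)).1 h1
  ene := fun h => D.ene ((map_eq_zero (algebraMap F Ω)).1 h)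
  fac := by
    intro M _ ψ x
    exact D.fac M (ψ.comp (algebraMap F Ω)) x

/-- `f_0` has at most `s` distinct zeros. -/
def few (D : Dat I φ) (s : ℕ) : Prop :=
  ∃ S : Finset (Fin (d + 1)), S.card ≤ s ∧ ∀ l, ∃ m ∈ S, wd (D.p l) (D.p m) = 0

/-- The number `c_2` of the surface cut out by the list `l`, computed with the point `q`. -/
noncomputable def kap (D : Dat I φ) (K : Subfield F) (l : List ((Fin (d + 1) → Fin (n + 1)) → F))
    (q : Fin 2 → F) : ℤ :=
  (∑ m, (XX K (D.zz q :: D.zz (D.p m) :: l) : ℤ)) -
    ((d : ℤ) + 1) * (XX K (D.zz q :: D.zz q :: l) : ℤ)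

end Dat

end Pool.Agent.Lib.MP_1e3e9c_agU
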