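import Mathlib
import Pool.Agent.Lib.MP_1e3e9c_agU.Defs

/-!
# MP_1e3e9c_ag, project U: hypotheses over `k`, generic translates, marked points
-/

set_option autoImplicit false

namespace Pool.Agent.Lib.MP_1e3e9c_agU

open IsLocalRing Pool.Agent.Lib.MP_b197b4_ntK

/-- The hypotheses on the family, over `k` (`zer`: no base point free member has `f_0 = 0`). -/
structure Hyp {k : Type} [Field k] {n D : ℕ} (r : ℕ)
    (I : Ideal (MvPolynomial (Fin (n + 1) × Fin (D + 1)) k)) : Prop where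
  alt : ∀ c : Fin (n + 1) → Fin (D + 1) → k, Mem (RingHom.id k) I c → c ≠ 0 →
    (∀ x : Fin 2 → k, x ≠ 0 → ∃ i, ev (c i) x ≠ 0) ∨ Cst c
  act : ∀ (c c' : Fin (n + 1) → Fin (D + 1) → k) (g : Matrix (Fin 2) (Fin 2) k),
    Mem (RingHom.id k) I c → g.det ≠ 0 → (∀ i x, ev (c' i) x = ev (c i) (g.mulVec x)) →
    Mem (RingHom.id k) I c'
  zer : ∀ c : Fin (n + 1) → Fin (D + 1) → k, Mem (RingHom.id k) I c →
    (∀ x : Fin 2 → k, x ≠ 0 → ∃ i, ev (c i) x ≠ 0) → c 0 ≠ 0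
  rts : ∀ c : Fin (n + 1) → Fin (D + 1) → k, Mem (RingHom.id k) I c →
    (∀ x : Fin 2 → k, x ≠ 0 → ∃ i, ev (c i) x ≠ 0) →
    ∀ p : Fin (r + 1) → Fin 2 → k, (∀ l, p l ≠ 0) → (∀ l, ev (c 0) (p l) = 0) →
      ∃ l l', l ≠ l' ∧ wd (p l) (p l') = 0

/-- The generic matrix. -/
noncomputable def gmat (F : Type) [Field F] : Matrix (Fin 2) (Fin 2) (GF F (Fin 2 × Fin 2)) :=
  fun a b => gc F (Fin 2 × Fin 2) (a, b)

/-- The coefficients of the generic translate of `c`. -/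
noncomputable def gt {F : Type} [Field F] {n D : ℕ} (c : Fin (n + 1) → Fin (D + 1) → F) :
    Fin (n + 1) × Fin (D + 1) → GF F (Fin 2 × Fin 2) := fun q =>
  act (gmat F) (fun j => algebraMap F (GF F (Fin 2 × Fin 2)) (c q.1 j)) q.2

/-- The generic translate of `c` is a generic point of `V(I)`. -/
def Gen {k F : Type} [Field k] [Field F] {n D : ℕ}
    (I : Ideal (MvPolynomial (Fin (n + 1) × Fin (D + 1)) k)) (φ : k →+* F)
    (c : Fin (n + 1) → Fin (D + 1) → F) : Prop :=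
  ∀ P : MvPolynomial (Fin (n + 1) × Fin (D + 1)) k,
    MvPolynomial.eval₂ ((algebraMap F (GF F (Fin 2 × Fin 2))).comp φ) (gt c) P = 0 → P ∈ I

/-- The coefficients of the generic translate generate `F(G)` up to algebraic elements. -/
def Eff {k F : Type} [Field k] [Field F] {n D : ℕ} (φ : k →+* F)
    (c : Fin (n + 1) → Fin (D + 1) → F) : Prop :=
  ∀ x : GF F (Fin 2 × Fin 2), IsAlgebraic (Subfield.closure
    (Set.range ((algebraMap F (GF F (Fin 2 × Fin 2))).comp φ) ∪ Set.range (gt c))) x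

/-- Three marked points `(1,0)`, `(0,1)`, `(1,1)`: zeros of `f_0`, of `f_j`, of `∑ a_i f_i`; and
`f_j(1,0) = 1`. -/
def Nrm {k L : Type} [Field k] [Field L] {n D : ℕ} (φ : k →+* L)
    (c : Fin (n + 1) → Fin (D + 1) → L) : Prop :=
  ∃ (j : Fin (n + 1)) (a : Fin (n + 1) → k), ev (c 0) ![1, 0] = 0 ∧ ev (c j) ![0, 1] = 0 ∧
    ev (c j) ![1, 0] = 1 ∧ ∑ i, φ (a i) * ev (c i) ![1, 1] = 0 ∧
    ∑ i, φ (a i) * ev (c i) ![1, 0] ≠ 0

/-- The point of the curve with parameter `q`, over an extension field. -/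
def ptA {F : Type} (A : Type) [Field F] [Field A] [Algebra F A] {n D : ℕ}
    (c : Fin (n + 1) → Fin (D + 1) → F) (q : Fin 2 → A) : Fin (n + 1) → A :=
  fun i => ev (fun j => algebraMap F A (c i j)) q

end Pool.Agent.Lib.MP_1e3e9c_agU
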