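import Mathlib
import Pool.Agent.Lib.MP_1e3e9c_agU.Defs

/-!
# MP_1e3e9c_ag, project U: hypersurface sections
-/

set_option autoImplicit false

namespace Pool.Agent.Lib.MP_1e3e9c_agU

open Polynomial in
/-- The polynomials `∑_j c_ij T^j`. -/
noncomputable def dh {A : Type} [CommRing A] {n D : ℕ} (c : Fin (n + 1) → Fin (D + 1) → A) :
    Fin (n + 1) → Polynomial A := fun i => ∑ j : Fin (D + 1), C (c i j) * X ^ (j : ℕ)

/-- The forms `G` and `x_i x_j^e`, `i, j ≤ n`, of degree `e + 1`. -/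
noncomputable def hs {k : Type} [Field k] {n : ℕ} (G : MvPolynomial (Fin (n + 1)) k) (e : ℕ) :
    Fin ((n + 1) * (n + 1) + 1) → MvPolynomial (Fin (n + 1)) k :=
  Fin.cons G fun t => MvPolynomial.X (finProdFinEquiv.symm t).1 *
    MvPolynomial.X (finProdFinEquiv.symm t).2 ^ e

/-- The coefficients of the forms `H(f)`, `H` in the list `hs G e`. -/
noncomputable def vt {k A : Type} [Field k] [CommRing A] [Algebra k A] {n d : ℕ}
    (G : MvPolynomial (Fin (n + 1)) k) (e : ℕ) (c : Fin (n + 1) → Fin (d + 1 + 1) → A) :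
    Fin ((n + 1) * (n + 1) + 1) → Fin ((d + 1) * e + d + 1 + 1) → A :=
  fun t j => (MvPolynomial.aeval (dh c) (hs G e t)).coeff (j : ℕ)

/-- The homomorphism of coordinate rings. -/
noncomputable def vh {k : Type} [Field k] {n d : ℕ} (G : MvPolynomial (Fin (n + 1)) k) (e : ℕ) :
    MvPolynomial (Fin ((n + 1) * (n + 1) + 1) × Fin ((d + 1) * e + d + 1 + 1)) k →ₐ[k]
      MvPolynomial (Fin (n + 1) × Fin (d + 1 + 1)) k :=
  MvPolynomial.aeval fun q => vt G e
    (fun (i : Fin (n + 1)) (j : Fin (d + 1 + 1)) =>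
      (MvPolynomial.X (i, j) : MvPolynomial (Fin (n + 1) × Fin (d + 1 + 1)) k)) q.1 q.2

end Pool.Agent.Lib.MP_1e3e9c_agU
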