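import Mathlib
import Pool.Agent.Lib.MP_1e3e9c_agU.Defs

/-!
# MP_1e3e9c_ag, project U: good models
-/

set_option autoImplicit false

namespace Pool.Agent.Lib.MP_1e3e9c_agU

open IsLocalRing Pool.Agent.Lib.MP_b197b4_ntK

/-- `W` is a discrete valuation ring of the finite extension `E` of `F` above `V`, of ramification
index `a`. -/
structure Abv (F E : Type) [Field F] [Field E] [Algebra F E] (V : ValuationSubring F)
    (W : ValuationSubring E) (a : ℕ) (rh : ResidueField V →+* ResidueField W) : Prop where
  dvr : IsDiscreteValuationRing W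
  com : W.comap (algebraMap F E) = V
  apos : 0 < a
  ram : ∀ x : F, x ≠ 0 → ord W (algebraMap F E x) = a * ord V x
  hom : ∀ x ∈ V, rh (res V x) = res W (algebraMap F E x)
  fin : rh.Finite

/-- A good model of the tuple `c` at `V`: over a finite extension `E`, after a substitution `g` and
multiplication by `m`, the tuple is integral with base point free reduction. -/
structure GM {F : Type} [Field F] {n D : ℕ} (c : Fin (n + 1) → Fin (D + 1) → F)
    (V : ValuationSubring F) where
  E : Type
  [fE : Field E]
  [aE : Algebra F E]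
  [dE : FiniteDimensional F E]
  W : ValuationSubring E
  a : ℕ
  rh : ResidueField V →+* ResidueField W
  g : Matrix (Fin 2) (Fin 2) E
  m : E
  abv : Abv F E V W a rh
  gne : g.det ≠ 0
  mne : m ≠ 0
  int : ∀ i j, m * act g (fun j => algebraMap F E (c i j)) j ∈ W
  red : BPF (fun i j => res W (m * act g (fun j => algebraMap F E (c i j)) j))

attribute [instance] GM.fE GM.aE GM.dE

section Comap

variable {F Ω : Type} [Field F] [Field Ω] [Algebra F Ω]

/-- `V ∩ F → V`. -/
def cmap (F : Type) [Field F] [Algebra F Ω] (V : ValuationSubring Ω) :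
    V.comap (algebraMap F Ω) →+* V where
  toFun x := ⟨algebraMap F Ω x, x.2⟩
  map_one' := Subtype.ext (map_one _)
  map_mul' x y := Subtype.ext (map_mul (algebraMap F Ω) (x : F) (y : F))
  map_zero' := Subtype.ext (map_zero _)
  map_add' x y := Subtype.ext (map_add (algebraMap F Ω) (x : F) (y : F))

instance (V : ValuationSubring Ω) : IsLocalHom (cmap F V) where
  map_nonunit x hx := by
    obtain ⟨y, hy⟩ := hx.exists_right_inv
    have h1 : algebraMap F Ω (x : F) * (y : Ω) = 1 := congrArg Subtype.val hy
    have hx0 : (x : F) ≠ 0 := by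
      intro h
      rw [h, map_zero, zero_mul] at h1
      exact zero_ne_one h1
    have h2 : algebraMap F Ω ((x : F)⁻¹) = (y : Ω) := by
      rw [map_inv₀]
      exact inv_eq_of_mul_eq_one_right h1
    have h3 : (x : F)⁻¹ ∈ V.comap (algebraMap F Ω) := by
      change algebraMap F Ω ((x : F)⁻¹) ∈ V
      rw [h2]
      exact y.2
    exact IsUnit.of_mul_eq_one ⟨(x : F)⁻¹, h3⟩ (Subtype.ext (mul_inv_cancel₀ hx0))

/-- The homomorphism of residue fields. -/
noncomputable def rhom (F : Type) [Field F] [Algebra F Ω] (V : ValuationSubring Ω) :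
    ResidueField (V.comap (algebraMap F Ω)) →+* ResidueField V :=
  ResidueField.map (cmap F V)

theorem rhom_res (V : ValuationSubring Ω) {x : F} (hx : algebraMap F Ω x ∈ V) :
    rhom F V (res (V.comap (algebraMap F Ω)) x) = res V (algebraMap F Ω x) := by
  have hx' : x ∈ V.comap (algebraMap F Ω) := hx
  rw [res_of_mem hx', res_of_mem hx]
  rfl

end Comap

end Pool.Agent.Lib.MP_1e3e9c_agU
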