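import Mathlib
import Pool.Agent.Lib.MP_1e3e9c_agU.Defs

/-!
# MP_1e3e9c_ag, project U, leaf FmA: binary forms and the action of matrices

For a polynomial `P` of degree `≤ D` let `h D P x = ∑_(j ≤ D) (P.coeff j) x_0^(D-j) x_1^j`. Then
`h (D+E) (P * Q) x = h D P x * h E Q x`, `h 1 (C a + C b * X) x = a x_0 + b x_1`, and `h` is additive
in `P`; the polynomial in the definition of `act` has degree `≤ D`. This gives `ev_act`. The other
identities follow from `ev_act` and the fact that a form over an infinite field is determined by its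
values (for a finite field pass to `RatFunc L` or to `AlgebraicClosure L`), or directly.
-/

set_option autoImplicit false

namespace Pool.Agent.Lib.MP_1e3e9c_agU

open IsLocalRing Pool.Agent.Lib.MP_b197b4_ntK

variable {L : Type} [Field L] {D : ℕ}

/-- The polynomial of the form `f(g x)`, over a commutative ring. -/
private noncomputable def FmA_Q {R : Type} [CommRing R] {D : ℕ} (g : Matrix (Fin 2) (Fin 2) R)
    (c : Fin (D + 1) → R) : Polynomial R :=
  ∑ i : Fin (D + 1), Polynomial.C (c i) *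
    (Polynomial.C (g 0 0) + Polynomial.C (g 0 1) * Polynomial.X) ^ (D - (i : ℕ)) *
    (Polynomial.C (g 1 0) + Polynomial.C (g 1 1) * Polynomial.X) ^ (i : ℕ)

private theorem FmA_act (g : Matrix (Fin 2) (Fin 2) L) (c : Fin (D + 1) → L) (j : Fin (D + 1)) :
    act g c j = (FmA_Q g c).coeff j := rfl

private theorem FmA_Q_map {R S : Type} [CommRing R] [CommRing S] (ψ : R →+* S)
    (g : Matrix (Fin 2) (Fin 2) R) (c : Fin (D + 1) → R) :
    (FmA_Q g c).map ψ = FmA_Q (g.map ψ) (fun j => ψ (c j)) := by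
  unfold FmA_Q
  rw [Polynomial.map_sum]
  refine Finset.sum_congr rfl fun i _ => ?_
  simp only [Polynomial.map_mul, Polynomial.map_pow, Polynomial.map_add, Polynomial.map_C,
    Polynomial.map_X, Matrix.map_apply]

private theorem FmA_lin_deg {R : Type} [CommRing R] (a b : R) :
    (Polynomial.C a + Polynomial.C b * Polynomial.X : Polynomial R).natDegree ≤ 1 := by
  refine (Polynomial.natDegree_add_le _ _).trans (max_le ?_ ?_)
  · rw [Polynomial.natDegree_C]
    exact Nat.zero_le 1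
  · exact (Polynomial.natDegree_C_mul_le _ _).trans Polynomial.natDegree_X_le

private theorem FmA_term_deg {R : Type} [CommRing R] {D : ℕ} (g : Matrix (Fin 2) (Fin 2) R)
    (c : Fin (D + 1) → R) (i : Fin (D + 1)) : (Polynomial.C (c i) *
    (Polynomial.C (g 0 0) + Polynomial.C (g 0 1) * Polynomial.X) ^ (D - (i : ℕ)) *
    (Polynomial.C (g 1 0) + Polynomial.C (g 1 1) * Polynomial.X) ^ (i : ℕ)).natDegree ≤ D := by
  have hi : (i : ℕ) ≤ D := Nat.lt_succ_iff.1 i.2
  have h1 := Polynomial.natDegree_pow_le_of_le (D - (i : ℕ)) (FmA_lin_deg (g 0 0) (g 0 1))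
  have h2 := Polynomial.natDegree_pow_le_of_le (i : ℕ) (FmA_lin_deg (g 1 0) (g 1 1))
  refine Polynomial.natDegree_mul_le.trans ?_
  have h3 := Polynomial.natDegree_C_mul_le (c i)
    ((Polynomial.C (g 0 0) + Polynomial.C (g 0 1) * Polynomial.X) ^ (D - (i : ℕ)))
  omega

private theorem FmA_deg {R : Type} [CommRing R] {D : ℕ} (g : Matrix (Fin 2) (Fin 2) R)
    (c : Fin (D + 1) → R) : (FmA_Q g c).natDegree ≤ D :=
  Polynomial.natDegree_sum_le_of_forall_le _ _ fun i _ => FmA_term_deg g c i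

private theorem FmA_top {R : Type} [CommRing R] {D : ℕ} (g : Matrix (Fin 2) (Fin 2) R)
    (c : Fin (D + 1) → R) : (FmA_Q g c).coeff D =
      ∑ i : Fin (D + 1), c i * g 0 1 ^ (D - (i : ℕ)) * g 1 1 ^ (i : ℕ) := by
  unfold FmA_Q
  rw [Polynomial.finsetSum_coeff]
  refine Finset.sum_congr rfl fun i _ => ?_
  have hi : (i : ℕ) ≤ D := Nat.lt_succ_iff.1 i.2
  have h1 := Polynomial.natDegree_pow_le_of_le (D - (i : ℕ)) (FmA_lin_deg (g 0 0) (g 0 1))
  have h2 := Polynomial.natDegree_pow_le_of_le (i : ℕ) (FmA_lin_deg (g 1 0) (g 1 1))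
  have h3 := Polynomial.coeff_pow_of_natDegree_le (m := D - (i : ℕ)) (FmA_lin_deg (g 0 0) (g 0 1))
  have h4 := Polynomial.coeff_pow_of_natDegree_le (m := (i : ℕ)) (FmA_lin_deg (g 1 0) (g 1 1))
  have h5 := Polynomial.coeff_mul_add_eq_of_natDegree_le h1 h2
  have hl : ∀ a b : R, (Polynomial.C a + Polynomial.C b * Polynomial.X : Polynomial R).coeff 1 = b := by
    intro a b
    simp [Polynomial.coeff_C]
  rw [h3, h4, hl, hl] at h5
  rw [mul_assoc (Polynomial.C (c i)), Polynomial.coeff_C_mul, mul_assoc, ← h5]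
  congr 2
  omega

private theorem FmA_coeff_lin (c : Fin (D + 1) → L) (t : L) :
    (∑ j : Fin (D + 1), Polynomial.C (c j) * Polynomial.X ^ (j : ℕ)).eval t = ev c ![1, t] := by
  unfold ev
  rw [Polynomial.eval_finsetSum]
  refine Finset.sum_congr rfl fun j _ => ?_
  simp

theorem ev_act (g : Matrix (Fin 2) (Fin 2) L) (c : Fin (D + 1) → L) (x : Fin 2 → L) :
    ev (act g c) x = ev c (g.mulVec x) := by
  have hg0 : g.mulVec x 0 = g 0 0 * x 0 + g 0 1 * x 1 := by
    simp [Matrix.mulVec, dotProduct, Fin.sum_univ_two]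
  have hg1 : g.mulVec x 1 = g 1 0 * x 0 + g 1 1 * x 1 := by
    simp [Matrix.mulVec, dotProduct, Fin.sum_univ_two]
  unfold ev
  rw [hg0, hg1]
  by_cases h0 : x 0 = 0
  · rw [Finset.sum_eq_single (Fin.last D)]
    · rw [FmA_act, Fin.val_last, FmA_top, Nat.sub_self, pow_zero, mul_one, Finset.sum_mul]
      refine Finset.sum_congr rfl fun i _ => ?_
      have hi : (i : ℕ) ≤ D := Nat.lt_succ_iff.1 i.2
      rw [h0, mul_zero, zero_add, mul_zero, zero_add, mul_pow, mul_pow]
      have h1 : x 1 ^ D = x 1 ^ (D - (i : ℕ)) * x 1 ^ (i : ℕ) := by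
        rw [← pow_add, Nat.sub_add_cancel hi]
      rw [h1]
      ring
    · intro j _ hj
      have hj1 : (j : ℕ) ≠ D := fun h => hj (Fin.ext h)
      have hj2 : (j : ℕ) < D + 1 := j.2
      rw [h0, zero_pow (by omega), mul_zero, zero_mul]
    · intro h
      exact absurd (Finset.mem_univ _) h
  · have h1 := Polynomial.eval_eq_sum_range' (Nat.lt_succ_of_le (FmA_deg g c)) (x 1 / x 0)
    rw [Finset.sum_range] at h1
    have h2 : ∑ j : Fin (D + 1), act g c j * x 0 ^ (D - (j : ℕ)) * x 1 ^ (j : ℕ) =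
        x 0 ^ D * (FmA_Q g c).eval (x 1 / x 0) := by
      rw [h1, Finset.mul_sum]
      refine Finset.sum_congr rfl fun j _ => ?_
      have hj : (j : ℕ) ≤ D := Nat.lt_succ_iff.1 j.2
      have h3 : x 0 ^ D = x 0 ^ (D - (j : ℕ)) * x 0 ^ (j : ℕ) := by
        rw [← pow_add, Nat.sub_add_cancel hj]
      have h4 : x 0 ^ (j : ℕ) * (x 1 / x 0) ^ (j : ℕ) = x 1 ^ (j : ℕ) := by
        rw [← mul_pow, mul_div_cancel₀ _ h0]
      rw [FmA_act, h3, ← h4]
      ring
    rw [h2]
    unfold FmA_Q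
    rw [Polynomial.eval_finsetSum, Finset.mul_sum]
    refine Finset.sum_congr rfl fun i _ => ?_
    have hi : (i : ℕ) ≤ D := Nat.lt_succ_iff.1 i.2
    simp only [Polynomial.eval_mul, Polynomial.eval_pow, Polynomial.eval_add, Polynomial.eval_C,
      Polynomial.eval_X]
    have h3 : x 0 ^ D = x 0 ^ (D - (i : ℕ)) * x 0 ^ (i : ℕ) := by
      rw [← pow_add, Nat.sub_add_cancel hi]
    have h4 : ∀ a b : L, a * x 0 + b * x 1 = x 0 * (a + b * (x 1 / x 0)) := by
      intro a b
      field_simp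
    rw [h4, h4, mul_pow, mul_pow, h3]
    ring

theorem ev_map {M : Type} [Field M] (ψ : L →+* M) (c : Fin (D + 1) → L) (x : Fin 2 → L) :
    ψ (ev c x) = ev (fun j => ψ (c j)) (fun a => ψ (x a)) := by
  unfold ev
  rw [map_sum]
  refine Finset.sum_congr rfl fun j _ => ?_
  rw [map_mul, map_mul, map_pow, map_pow]

theorem act_map {M : Type} [Field M] (ψ : L →+* M) (g : Matrix (Fin 2) (Fin 2) L)
    (c : Fin (D + 1) → L) (j : Fin (D + 1)) :
    ψ (act g c j) = act (g.map ψ) (fun j => ψ (c j)) j := by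
  rw [FmA_act, FmA_act, ← FmA_Q_map, Polynomial.coeff_map]

theorem ev_smul (a : L) (c : Fin (D + 1) → L) (x : Fin 2 → L) :
    ev (fun j => a * c j) x = a * ev c x := by
  unfold ev
  rw [Finset.mul_sum]
  refine Finset.sum_congr rfl fun j _ => ?_
  ring

theorem ev_scale (a : L) (c : Fin (D + 1) → L) (x : Fin 2 → L) :
    ev c (fun i => a * x i) = a ^ D * ev c x := by
  unfold ev
  rw [Finset.mul_sum]
  refine Finset.sum_congr rfl fun j _ => ?_
  have hj : (j : ℕ) ≤ D := Nat.lt_succ_iff.1 j.2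
  have h3 : a ^ D = a ^ (D - (j : ℕ)) * a ^ (j : ℕ) := by
    rw [← pow_add, Nat.sub_add_cancel hj]
  rw [mul_pow, mul_pow, h3]
  ring

theorem ev_ext [Infinite L] {c c' : Fin (D + 1) → L} (h : ∀ x, ev c x = ev c' x) : c = c' := by
  have h1 : (∑ j : Fin (D + 1), Polynomial.C (c j) * Polynomial.X ^ (j : ℕ)) =
      ∑ j : Fin (D + 1), Polynomial.C (c' j) * Polynomial.X ^ (j : ℕ) := by
    refine Polynomial.funext fun t => ?_
    rw [FmA_coeff_lin, FmA_coeff_lin, h]
  have h2 : ∀ (c : Fin (D + 1) → L) (i : Fin (D + 1)),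
      (∑ j : Fin (D + 1), Polynomial.C (c j) * Polynomial.X ^ (j : ℕ)).coeff i = c i := by
    intro c i
    rw [Polynomial.finsetSum_coeff, Finset.sum_eq_single i]
    · rw [Polynomial.coeff_C_mul_X_pow, if_pos rfl]
    · intro j _ hj
      rw [Polynomial.coeff_C_mul_X_pow, if_neg fun h => hj (Fin.ext h.symm)]
    · intro h
      exact absurd (Finset.mem_univ _) h
  funext i
  rw [← h2 c i, h1, h2]

theorem act_act (g h : Matrix (Fin 2) (Fin 2) L) (c : Fin (D + 1) → L) :
    act h (act g c) = act (g * h) c := by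
  have key : ∀ {M : Type} [Field M] [Infinite M] (g h : Matrix (Fin 2) (Fin 2) M)
      (c : Fin (D + 1) → M), act h (act g c) = act (g * h) c := by
    intro M _ _ g h c
    refine ev_ext fun x => ?_
    rw [ev_act, ev_act, ev_act, Matrix.mulVec_mulVec]
  funext j
  have hinf : Infinite (RatFunc L) :=
    Infinite.of_injective _ (RatFunc.algebraMap_injective L)
  have hinj := FaithfulSMul.algebraMap_injective L (RatFunc L)
  apply hinj
  rw [act_map, act_map]
  have h1 : (fun j => algebraMap L (RatFunc L) (act g c j)) =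
      act (g.map (algebraMap L (RatFunc L))) (fun j => algebraMap L (RatFunc L) (c j)) := by
    funext j
    rw [act_map]
  rw [h1, Matrix.map_mul]
  exact congrFun (key _ _ _) j

theorem act_one (c : Fin (D + 1) → L) : act 1 c = c := by
  funext j
  have h1 : FmA_Q (1 : Matrix (Fin 2) (Fin 2) L) c =
      ∑ j : Fin (D + 1), Polynomial.C (c j) * Polynomial.X ^ (j : ℕ) := by
    unfold FmA_Q
    refine Finset.sum_congr rfl fun i _ => ?_
    rw [Matrix.one_apply_eq, Matrix.one_apply_eq, Matrix.one_apply_ne (by decide),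
      Matrix.one_apply_ne (by decide)]
    simp
  rw [FmA_act, h1, Polynomial.finsetSum_coeff, Finset.sum_eq_single j]
  · rw [Polynomial.coeff_C_mul_X_pow, if_pos rfl]
  · intro i _ hj
    rw [Polynomial.coeff_C_mul_X_pow, if_neg fun h => hj (Fin.ext h.symm)]
  · intro h
    exact absurd (Finset.mem_univ _) h

theorem act_smul (a : L) (g : Matrix (Fin 2) (Fin 2) L) (c : Fin (D + 1) → L) :
    act g (fun j => a * c j) = fun j => a * act g c j := by
  funext j
  rw [FmA_act, FmA_act, ← Polynomial.coeff_C_mul]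
  congr 1
  unfold FmA_Q
  rw [Finset.mul_sum]
  refine Finset.sum_congr rfl fun i _ => ?_
  rw [map_mul]
  ring

theorem wd_mulVec (g : Matrix (Fin 2) (Fin 2) L) (p x : Fin 2 → L) :
    wd (g.mulVec p) (g.mulVec x) = g.det * wd p x := by
  unfold wd
  simp only [Matrix.mulVec, dotProduct, Fin.sum_univ_two, Matrix.det_fin_two]
  ring

theorem wd_eq_zero_iff {p : Fin 2 → L} (hp : p ≠ 0) (x : Fin 2 → L) :
    wd p x = 0 ↔ ∃ a : L, ∀ i, x i = a * p i := by
  unfold wd
  constructor
  · intro h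
    by_cases h0 : p 0 = 0
    · have h1 : p 1 ≠ 0 := by
        intro h1
        apply hp
        funext i
        fin_cases i
        · exact h0
        · exact h1
      rw [h0, zero_mul, zero_sub, neg_eq_zero] at h
      have h2 : x 0 = 0 := (mul_eq_zero.1 h).resolve_left h1
      refine ⟨x 1 / p 1, fun i => ?_⟩
      fin_cases i
      · show x 0 = x 1 / p 1 * p 0
        rw [h2, h0, mul_zero]
      · show x 1 = x 1 / p 1 * p 1
        rw [div_mul_cancel₀ _ h1]
    · refine ⟨x 0 / p 0, fun i => ?_⟩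
      fin_cases i
      · show x 0 = x 0 / p 0 * p 0
        rw [div_mul_cancel₀ _ h0]
      · show x 1 = x 0 / p 0 * p 1
        rw [div_mul_eq_mul_div, eq_div_iff h0]
        linear_combination h
  · rintro ⟨a, ha⟩
    rw [ha 0, ha 1]
    ring

theorem act_mem {V : ValuationSubring L} {g : Matrix (Fin 2) (Fin 2) L} {c : Fin (D + 1) → L}
    (hg : ∀ a b, g a b ∈ V) (hc : ∀ j, c j ∈ V) (j : Fin (D + 1)) : act g c j ∈ V := by
  have h1 := FmA_Q_map V.subtype (Matrix.of fun a b => (⟨g a b, hg a b⟩ : V))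
    (fun j => (⟨c j, hc j⟩ : V))
  have h2 : (Matrix.of fun a b => (⟨g a b, hg a b⟩ : V)).map V.subtype = g := rfl
  have h3 : (fun j => V.subtype (⟨c j, hc j⟩ : V)) = c := rfl
  rw [h2, h3] at h1
  rw [FmA_act, ← h1, Polynomial.coeff_map]
  exact Subtype.property _

theorem res_act {V : ValuationSubring L} {g : Matrix (Fin 2) (Fin 2) L} {c : Fin (D + 1) → L}
    (hg : ∀ a b, g a b ∈ V) (hc : ∀ j, c j ∈ V) (j : Fin (D + 1)) :
    res V (act g c j) = act (g.map (res V)) (fun j => res V (c j)) j := by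
  have h1 := FmA_Q_map V.subtype (Matrix.of fun a b => (⟨g a b, hg a b⟩ : V))
    (fun j => (⟨c j, hc j⟩ : V))
  have h2 : (Matrix.of fun a b => (⟨g a b, hg a b⟩ : V)).map V.subtype = g := rfl
  have h3 : (fun j => V.subtype (⟨c j, hc j⟩ : V)) = c := rfl
  rw [h2, h3] at h1
  have h4 := FmA_Q_map (residue V) (Matrix.of fun a b => (⟨g a b, hg a b⟩ : V))
    (fun j => (⟨c j, hc j⟩ : V))
  have h5 : (Matrix.of fun a b => (⟨g a b, hg a b⟩ : V)).map (residue V) = g.map (res V) := by
    ext a b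
    rw [Matrix.map_apply, Matrix.map_apply, Matrix.of_apply, res_of_mem (hg a b)]
  have h6 : (fun j => residue V (⟨c j, hc j⟩ : V)) = fun j => res V (c j) := by
    funext j
    rw [res_of_mem (hc j)]
  rw [h5, h6] at h4
  rw [FmA_act, FmA_act, ← h4, ← h1, Polynomial.coeff_map, Polynomial.coeff_map]
  exact res_coe _

theorem ev_mem {V : ValuationSubring L} {c : Fin (D + 1) → L} {x : Fin 2 → L}
    (hc : ∀ j, c j ∈ V) (hx : ∀ a, x a ∈ V) : ev c x ∈ V :=
  sum_mem fun j _ => mul_mem (mul_mem (hc j) (pow_mem (hx 0) _)) (pow_mem (hx 1) _)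

theorem res_ev {V : ValuationSubring L} {c : Fin (D + 1) → L} {x : Fin 2 → L}
    (hc : ∀ j, c j ∈ V) (hx : ∀ a, x a ∈ V) :
    res V (ev c x) = ev (fun j => res V (c j)) (fun a => res V (x a)) := by
  have h1 : ev c x = ((∑ j : Fin (D + 1), (⟨c j, hc j⟩ : V) * ⟨x 0, hx 0⟩ ^ (D - (j : ℕ)) *
      ⟨x 1, hx 1⟩ ^ (j : ℕ) : V) : L) := by
    unfold ev
    push_cast
    rfl
  rw [h1, res_coe, map_sum]
  unfold ev
  refine Finset.sum_congr rfl fun j _ => ?_
  rw [map_mul, map_mul, map_pow, map_pow]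
  beta_reduce
  rw [res_of_mem (hc j), res_of_mem (hx 0), res_of_mem (hx 1)]

end Pool.Agent.Lib.MP_1e3e9c_agU
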