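import Mathlib
import Pool.Agent.Lib.MP_1e3e9c_agU.FmA

/-!
# MP_1e3e9c_ag, project U, leaf FmB: base point free tuples

`bezout`: the dehomogenised polynomials `f_i(1, T)` have no common root in an algebraic closure, so
their gcd is `1` and `∑ a_i(T) f_i(1,T) = 1`; homogenise: `∑ a_i f_i = x_0^N` for all large `N`;
the same with `f_i(T, 1)` for `x_1^N`; take `N` large and the same for both.
`not_cst`: a root of `a s + b t` is a common zero (`D ≥ 1`).
-/

set_option autoImplicit false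

namespace Pool.Agent.Lib.MP_1e3e9c_agU

open IsLocalRing Pool.Agent.Lib.MP_b197b4_ntK

variable {L : Type} [Field L] {n D : ℕ} {c : Fin (n + 1) → Fin (D + 1) → L}

/-! ### Dehomogenisation -/

/-- The dehomogenised form. -/
private noncomputable def FmB_pp (c : Fin (D + 1) → L) : Polynomial L :=
  ∑ j : Fin (D + 1), Polynomial.C (c j) * Polynomial.X ^ (j : ℕ)

private theorem FmB_ev {M : Type} [Field M] (ψ : L →+* M) (c : Fin (D + 1) → L) (x : Fin 2 → M)
    (hx : x 0 ≠ 0) : ev (fun j => ψ (c j)) x = x 0 ^ D * (FmB_pp c).eval₂ ψ (x 1 / x 0) := by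
  rw [FmB_pp, Polynomial.eval₂_finsetSum, Finset.mul_sum, ev]
  refine Finset.sum_congr rfl fun j _ => ?_
  rw [Polynomial.eval₂_mul, Polynomial.eval₂_C, Polynomial.eval₂_pow, Polynomial.eval₂_X, div_pow]
  have h1 : x 0 ^ D = x 0 ^ (D - (j : ℕ)) * x 0 ^ (j : ℕ) := by
    rw [← pow_add, Nat.sub_add_cancel (Nat.lt_succ_iff.1 j.2)]
  rw [h1]
  have h2 : x 0 ^ (j : ℕ) ≠ 0 := pow_ne_zero _ hx
  field_simp

private theorem FmB_ev' (c : Fin (D + 1) → L) (x : Fin 2 → L) (hx : x 0 ≠ 0) :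
    ev c x = x 0 ^ D * (FmB_pp c).eval (x 1 / x 0) := FmB_ev (RingHom.id L) c x hx

private theorem FmB_ev0 (c : Fin (D + 1) → L) (x : Fin 2 → L) (hx : x 0 = 0) :
    ev c x = c (Fin.last D) * x 1 ^ D := by
  rw [ev, Finset.sum_eq_single (Fin.last D)]
  · rw [Fin.val_last, Nat.sub_self, pow_zero, mul_one]
  · intro j _ hj
    have h1 : D - (j : ℕ) ≠ 0 := by
      have h2 : (j : ℕ) < D := Fin.val_lt_last hj
      omega
    rw [hx, zero_pow h1, mul_zero, zero_mul]
  · intro h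
    exact absurd (Finset.mem_univ _) h

private theorem FmB_one {M : Type} [Field M] [IsAlgClosed M] [Algebra L M]
    (h : ∀ t : M, ∃ i, Polynomial.aeval t (FmB_pp (c i)) ≠ 0) :
    ∃ a : Fin (n + 1) → Polynomial L, ∑ i, a i * FmB_pp (c i) = 1 := by
  have h1 : (1 : Polynomial L) ∈ Ideal.span (Set.range fun i => FmB_pp (c i)) := by
    obtain ⟨G, hG⟩ := (IsPrincipalIdealRing.principal (Ideal.span (Set.range fun i => FmB_pp (c i)))).principal
    rw [Ideal.submodule_span_eq] at hG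
    by_cases hu : IsUnit G
    · rw [hG, Ideal.span_singleton_eq_top.2 hu]
      exact Submodule.mem_top
    · have h2 : G.degree ≠ 0 := fun h3 => hu (Polynomial.isUnit_iff_degree_eq_zero.2 h3)
      obtain ⟨t, ht⟩ := IsAlgClosed.exists_aeval_eq_zero M G h2
      obtain ⟨i, hi⟩ := h t
      refine absurd ?_ hi
      have h3 : FmB_pp (c i) ∈ Ideal.span {G} := by
        rw [← hG]
        exact Ideal.subset_span ⟨i, rfl⟩
      obtain ⟨q, hq⟩ := Ideal.mem_span_singleton.1 h3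
      rw [hq, map_mul, ht, zero_mul]
  exact (Ideal.mem_span_range_iff_exists_fun).1 h1

/-! ### The leaf -/

theorem BPF.ev_ne (h : BPF c) {x : Fin 2 → L} (hx : x ≠ 0) : ∃ i, ev (c i) x ≠ 0 :=
  h L (RingHom.id L) x hx

theorem BPF.map {M : Type} [Field M] (ψ : L →+* M) (h : BPF c) : BPF (fun i j => ψ (c i j)) :=
  fun M' _ χ x hx => h M' (χ.comp ψ) x hx

private theorem FmB_img {M M' : Type} [Field M] [Field M'] (χ : M →+* M') {x : Fin 2 → M}
    (hx : x ≠ 0) : (fun a => χ (x a)) ≠ 0 := by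
  intro h
  refine hx (funext fun a => ?_)
  have h1 : χ (x a) = 0 := congrFun h a
  exact (map_eq_zero χ).1 h1

open TensorProduct in
private theorem FmB_common {M M' : Type} [Field M] [Field M'] (ψ : L →+* M) (χ : L →+* M') :
    ∃ (Q : Type) (_ : Field Q) (α : M →+* Q) (β : M' →+* Q), ∀ a, α (ψ a) = β (χ a) := by
  let := ψ.toAlgebra
  let := χ.toAlgebra
  have hn : Nontrivial (M ⊗[L] M') := inferInstance
  obtain ⟨m, hm⟩ := Ideal.exists_maximal (M ⊗[L] M')
  refine ⟨(M ⊗[L] M') ⧸ m, Ideal.Quotient.field m,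
    (Ideal.Quotient.mk m).comp (Algebra.TensorProduct.includeLeftRingHom),
    (Ideal.Quotient.mk m).comp
      ((Algebra.TensorProduct.includeRight : M' →ₐ[L] M ⊗[L] M') : M' →+* M ⊗[L] M'), fun a => ?_⟩
  show Ideal.Quotient.mk m ((algebraMap L M a) ⊗ₜ[L] (1 : M')) =
    Ideal.Quotient.mk m ((1 : M) ⊗ₜ[L] (algebraMap L M' a))
  congr 1
  rw [Algebra.algebraMap_eq_smul_one, Algebra.algebraMap_eq_smul_one, TensorProduct.smul_tmul]

theorem bpf_of_map {M : Type} [Field M] (ψ : L →+* M) (h : BPF (fun i j => ψ (c i j))) :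
    BPF c := by
  intro M' _ χ x hx
  obtain ⟨Q, _, α, β, hαβ⟩ := FmB_common ψ χ
  obtain ⟨i, hi⟩ := h Q α (fun a => β (x a)) (FmB_img β hx)
  refine ⟨i, fun h0 => hi ?_⟩
  have h1 : (fun j => α (ψ (c i j))) = fun j => β (χ (c i j)) := funext fun j => hαβ _
  rw [h1, ← ev_map β (fun j => χ (c i j)) x, h0, map_zero]

theorem BPF.act (h : BPF c) {g : Matrix (Fin 2) (Fin 2) L} (hg : g.det ≠ 0) :
    BPF (fun i => act g (c i)) := by
  intro M _ ψ x hx
  have hx' : (g.map ψ).mulVec x ≠ 0 := by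
    intro h0
    have h1 : (g.map ψ).det ≠ 0 := by
      have h2 : (g.map ψ).det = ψ g.det := (RingHom.map_det ψ g).symm
      rw [h2]
      exact fun h3 => hg ((map_eq_zero ψ).1 h3)
    exact hx (Matrix.eq_zero_of_mulVec_eq_zero h1 h0)
  obtain ⟨i, hi⟩ := h M ψ _ hx'
  refine ⟨i, ?_⟩
  have h1 : (fun j => ψ (Pool.Agent.Lib.MP_1e3e9c_agU.act g (c i) j)) =
      Pool.Agent.Lib.MP_1e3e9c_agU.act (g.map ψ) (fun j => ψ (c i j)) :=
    funext fun j => act_map ψ g (c i) j
  rw [h1, ev_act]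
  exact hi

theorem BPF.smul (h : BPF c) {a : L} (ha : a ≠ 0) : BPF (fun i j => a * c i j) := by
  intro M _ ψ x hx
  obtain ⟨i, hi⟩ := h M ψ x hx
  refine ⟨i, ?_⟩
  have h1 : (fun j => ψ (a * c i j)) = fun j => ψ a * ψ (c i j) := funext fun j => map_mul ψ _ _
  rw [h1, ev_smul (ψ a) (fun j => ψ (c i j)) x]
  exact mul_ne_zero (fun h2 => ha ((map_eq_zero ψ).1 h2)) hi

private theorem FmB_e0 : (![1, 0] : Fin 2 → L) ≠ 0 := by
  intro h
  have h1 := congrFun h 0
  simp at h1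

private theorem FmB_e1 : (![0, 1] : Fin 2 → L) ≠ 0 := by
  intro h
  have h1 := congrFun h 1
  simp at h1

theorem BPF.ne_zero (h : BPF c) : c ≠ 0 := by
  intro h0
  obtain ⟨i, hi⟩ := h.ev_ne (FmB_e0 (L := L))
  refine hi ?_
  rw [h0, ev]
  exact Finset.sum_eq_zero fun j _ => by rw [Pi.zero_apply, Pi.zero_apply, zero_mul, zero_mul]

theorem bpf_of_algClosed [IsAlgClosed L] (h : ∀ x : Fin 2 → L, x ≠ 0 → ∃ i, ev (c i) x ≠ 0) :
    BPF c := by
  intro M _ ψ x hx
  by_contra hcon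
  push Not at hcon
  by_cases hx0 : x 0 = 0
  · have hx1 : x 1 ≠ 0 := by
      intro h1
      refine hx (funext fun a => ?_)
      fin_cases a
      · exact hx0
      · exact h1
    obtain ⟨i, hi⟩ := h _ (FmB_e1 (L := L))
    refine hi ?_
    rw [FmB_ev0 (c i) _ rfl]
    have h1 := hcon i
    rw [FmB_ev0 (fun j => ψ (c i j)) x hx0] at h1
    have h2 : ψ (c i (Fin.last D)) = 0 := (mul_eq_zero.1 h1).resolve_right (pow_ne_zero _ hx1)
    rw [(map_eq_zero ψ).1 h2, zero_mul]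
  · obtain ⟨a, ha⟩ := FmB_one (c := c) (M := L) fun t => by
      obtain ⟨i, hi⟩ := h ![1, t] (fun h0 => by
        have h1 := congrFun h0 0
        simp at h1)
      refine ⟨i, fun h0 => hi ?_⟩
      rw [FmB_ev' (c i) _ (by simp)]
      have h1 : (![1, t] : Fin 2 → L) 1 / (![1, t] : Fin 2 → L) 0 = t := by simp
      rw [h1]
      rw [Polynomial.coe_aeval_eq_eval] at h0
      rw [h0, mul_zero]
    have h1 := congrArg (Polynomial.eval₂ ψ (x 1 / x 0)) ha
    rw [Polynomial.eval₂_finsetSum, Polynomial.eval₂_one, Finset.sum_eq_zero] at h1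
    · exact zero_ne_one h1
    · intro i _
      have h2 := hcon i
      rw [FmB_ev ψ (c i) x hx0] at h2
      rw [Polynomial.eval₂_mul, (mul_eq_zero.1 h2).resolve_left (pow_ne_zero _ hx0), mul_zero]

theorem not_cst (hD : 1 ≤ D) (h : BPF c) : ¬ Cst c := by
  rintro ⟨v, a, b, hc⟩
  have key : ∀ i (x : Fin 2 → L), ev (c i) x = v i * (b * x 1 + a * x 0) ^ D := by
    intro i x
    rw [add_pow, Finset.sum_range, ev, Finset.mul_sum]
    refine Finset.sum_congr rfl fun j _ => ?_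
    rw [hc, mul_pow, mul_pow]
    ring
  by_cases hab : a = 0 ∧ b = 0
  · obtain ⟨i, hi⟩ := h.ev_ne (FmB_e0 (L := L))
    refine hi ?_
    rw [key, hab.1, hab.2, zero_mul, zero_mul, add_zero, zero_pow (by omega), mul_zero]
  · have hx : (![b, -a] : Fin 2 → L) ≠ 0 := by
      intro h0
      have h1 := congrFun h0 0
      have h2 := congrFun h0 1
      simp at h1 h2
      exact hab ⟨h2, h1⟩
    obtain ⟨i, hi⟩ := h.ev_ne hx
    refine hi ?_
    rw [key]
    have h1 : b * (![b, -a] : Fin 2 → L) 1 + a * (![b, -a] : Fin 2 → L) 0 = 0 := by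
      simp
      ring
    rw [h1, zero_pow (by omega), mul_zero]

/-- The identity for the first coordinate, for all large degrees. -/
private theorem FmB_bez (h : BPF c) : ∃ N₀ : ℕ, ∀ N, N₀ ≤ N →
    ∃ a : Fin (n + 1) → Fin (N + 1) → L,
      ∀ x : Fin 2 → L, ∑ i, ev (a i) x * ev (c i) x = x 0 ^ (N + D) := by
  obtain ⟨a, ha⟩ := FmB_one (c := c) (M := AlgebraicClosure L) fun t => by
    obtain ⟨i, hi⟩ := h (AlgebraicClosure L) (algebraMap L _) ![1, t] (fun h0 => by
      have h1 := congrFun h0 0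
      simp at h1)
    refine ⟨i, fun h0 => hi ?_⟩
    rw [FmB_ev (algebraMap L _) (c i) _ (by simp)]
    have h1 : (![1, t] : Fin 2 → AlgebraicClosure L) 1 / (![1, t] : Fin 2 → AlgebraicClosure L) 0 =
        t := by simp
    rw [h1]
    rw [Polynomial.aeval_def] at h0
    rw [h0, mul_zero]
  refine ⟨1 + ∑ i, (a i).natDegree, fun N hN => ⟨fun i j => (a i).coeff j, fun x => ?_⟩⟩
  have hdeg : ∀ i, (a i).natDegree < N := by
    intro i
    have h1 : (a i).natDegree ≤ ∑ i, (a i).natDegree :=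
      Finset.single_le_sum (f := fun i => (a i).natDegree) (fun _ _ => Nat.zero_le _)
        (Finset.mem_univ i)
    omega
  have hpp : ∀ i, FmB_pp (fun j : Fin (N + 1) => (a i).coeff j) = a i := by
    intro i
    rw [FmB_pp, ← Finset.sum_range (fun j => Polynomial.C ((a i).coeff j) * Polynomial.X ^ j)]
    exact (Polynomial.as_sum_range_C_mul_X_pow' (a i) (by
      have := hdeg i
      omega)).symm
  by_cases hx0 : x 0 = 0
  · rw [hx0, zero_pow (by omega)]
    refine Finset.sum_eq_zero fun i _ => ?_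
    rw [FmB_ev0 (fun j : Fin (N + 1) => (a i).coeff j) x hx0, Fin.val_last,
      Polynomial.coeff_eq_zero_of_natDegree_lt (hdeg i), zero_mul, zero_mul]
  · have h1 : ∀ i, ev (fun j : Fin (N + 1) => (a i).coeff j) x * ev (c i) x =
        x 0 ^ (N + D) * ((a i).eval (x 1 / x 0) * (FmB_pp (c i)).eval (x 1 / x 0)) := by
      intro i
      rw [FmB_ev' (fun j : Fin (N + 1) => (a i).coeff j) x hx0, FmB_ev' (c i) x hx0, hpp, pow_add]
      ring
    rw [Finset.sum_congr rfl fun i _ => h1 i, ← Finset.mul_sum]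
    have h2 := congrArg (Polynomial.eval (x 1 / x 0)) ha
    rw [Polynomial.eval_finsetSum, Polynomial.eval_one] at h2
    have h3 : ∑ i, (a i).eval (x 1 / x 0) * (FmB_pp (c i)).eval (x 1 / x 0) = 1 := by
      rw [← h2]
      exact Finset.sum_congr rfl fun i _ => (Polynomial.eval_mul).symm
    rw [h3, mul_one]

/-- The form with the variables exchanged. -/
private theorem FmB_rev {M : Type} [Field M] (c : Fin (D + 1) → M) (x : Fin 2 → M) :
    ev (fun j => c (Fin.rev j)) x = ev c ![x 1, x 0] := by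
  rw [ev, ev, ← Equiv.sum_comp Fin.revPerm]
  refine Finset.sum_congr rfl fun j _ => ?_
  have h1 : (j : ℕ) ≤ D := Nat.lt_succ_iff.1 j.2
  rw [Fin.revPerm_apply, Fin.rev_rev, Fin.val_rev]
  have h2 : D - (D + 1 - ((j : ℕ) + 1)) = j := by omega
  have h3 : D + 1 - ((j : ℕ) + 1) = D - j := by omega
  rw [h2, h3]
  simp only [Matrix.cons_val_zero, Matrix.cons_val_one]
  ring

theorem bezout (h : BPF c) : ∃ (N : ℕ) (a b : Fin (n + 1) → Fin (N + 1) → L),
    (∀ x : Fin 2 → L, ∑ i, ev (a i) x * ev (c i) x = x 0 ^ (N + D)) ∧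
    (∀ x : Fin 2 → L, ∑ i, ev (b i) x * ev (c i) x = x 1 ^ (N + D)) := by
  obtain ⟨N₁, h1⟩ := FmB_bez h
  have hr : BPF (fun i j => c i (Fin.rev j)) := by
    intro M _ ψ x hx
    obtain ⟨i, hi⟩ := h M ψ ![x 1, x 0] (fun h0 => hx (by
      have e0 := congrFun h0 0
      have e1 := congrFun h0 1
      simp only [Matrix.cons_val_zero, Matrix.cons_val_one, Pi.zero_apply] at e0 e1
      funext a
      fin_cases a
      · exact e1
      · exact e0))
    refine ⟨i, ?_⟩
    rw [FmB_rev (fun j => ψ (c i j)) x]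
    exact hi
  obtain ⟨N₂, h2⟩ := FmB_bez hr
  obtain ⟨a, ha⟩ := h1 (N₁ + N₂) (Nat.le_add_right _ _)
  obtain ⟨b, hb⟩ := h2 (N₁ + N₂) (Nat.le_add_left _ _)
  refine ⟨N₁ + N₂, a, fun i j => b i (Fin.rev j), ha, fun x => ?_⟩
  have h3 := hb ![x 1, x 0]
  have e : ![(![x 1, x 0] : Fin 2 → L) 1, (![x 1, x 0] : Fin 2 → L) 0] = x := by
    funext a
    fin_cases a
    · rfl
    · rfl
  have h4 : (![x 1, x 0] : Fin 2 → L) 0 = x 1 := rfl
  rw [h4] at h3
  rw [← h3]
  refine Finset.sum_congr rfl fun i _ => ?_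
  rw [FmB_rev (b i) x, FmB_rev (c i) ![x 1, x 0], e]

end Pool.Agent.Lib.MP_1e3e9c_agU
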