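import Mathlib
import Pool.Agent.Lib.MP_1e3e9c_agU.FmB

/-!
# MP_1e3e9c_ag, project U, leaf FmC: factorisations, compositions, reductions

`fac_of`: the product `e ∏ wd (p l) x` is the value of a form over `L` (multiply out, or build the
coefficients with polynomials), so by `ev_ext` this form is `c`, and the identity is preserved by
ring homomorphisms. `exists_fac`: dehomogenise, split the polynomial in a splitting field (roots
`T = τ_l` give `p l`, with one coordinate `1`; the missing degree gives the root at infinity).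
`comp_form`: multiply out `G(f(x))`. `mem_res`: reduce `eval₂ φ c P = 0` modulo the maximal ideal.
-/

set_option autoImplicit false

namespace Pool.Agent.Lib.MP_1e3e9c_agU

open IsLocalRing Pool.Agent.Lib.MP_b197b4_ntK

variable {L : Type} [Field L] {n D : ℕ}

/-- The binary form as a polynomial in two variables. -/
private noncomputable def FmC_pl (c : Fin (D + 1) → L) : MvPolynomial (Fin 2) L :=
  ∑ j : Fin (D + 1), MvPolynomial.C (c j) * MvPolynomial.X 0 ^ (D - (j : ℕ)) *
    MvPolynomial.X 1 ^ (j : ℕ)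

private theorem FmC_eval₂ (c : Fin (D + 1) → L) {M : Type} [Field M] (ψ : L →+* M)
    (x : Fin 2 → M) : MvPolynomial.eval₂ ψ x (FmC_pl c) = ev (fun j => ψ (c j)) x := by
  unfold FmC_pl ev
  rw [← MvPolynomial.coe_eval₂Hom, map_sum]
  refine Finset.sum_congr rfl fun j _ => ?_
  rw [map_mul, map_mul, map_pow, map_pow, MvPolynomial.coe_eval₂Hom, MvPolynomial.eval₂_C,
    MvPolynomial.eval₂_X, MvPolynomial.eval₂_X]

private theorem FmC_eval (c : Fin (D + 1) → L) (x : Fin 2 → L) :
    MvPolynomial.eval x (FmC_pl c) = ev c x := by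
  have h := FmC_eval₂ c (RingHom.id L) x
  exact h

/-- The product of linear forms as a polynomial. -/
private noncomputable def FmC_pr (e : L) (p : Fin D → Fin 2 → L) : MvPolynomial (Fin 2) L :=
  MvPolynomial.C e * ∏ l, (MvPolynomial.C (p l 0) * MvPolynomial.X 1 -
    MvPolynomial.C (p l 1) * MvPolynomial.X 0)

private theorem FmC_pr_eval₂ (e : L) (p : Fin D → Fin 2 → L) {M : Type} [Field M] (ψ : L →+* M)
    (x : Fin 2 → M) :
    MvPolynomial.eval₂ ψ x (FmC_pr e p) = ψ e * ∏ l, wd (fun a => ψ (p l a)) x := by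
  unfold FmC_pr wd
  rw [← MvPolynomial.coe_eval₂Hom, map_mul, map_prod]
  congr 1
  · rw [MvPolynomial.coe_eval₂Hom, MvPolynomial.eval₂_C]
  · refine Finset.prod_congr rfl fun l _ => ?_
    rw [map_sub, map_mul, map_mul, MvPolynomial.coe_eval₂Hom, MvPolynomial.eval₂_C,
      MvPolynomial.eval₂_C, MvPolynomial.eval₂_X, MvPolynomial.eval₂_X]

private theorem FmC_pr_eval (e : L) (p : Fin D → Fin 2 → L) (x : Fin 2 → L) :
    MvPolynomial.eval x (FmC_pr e p) = e * ∏ l, wd (p l) x := by
  have h := FmC_pr_eval₂ e p (RingHom.id L) x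
  exact h

theorem fac_of [Infinite L] (c : Fin (D + 1) → L) (e : L) (p : Fin D → Fin 2 → L)
    (h : ∀ x : Fin 2 → L, ev c x = e * ∏ l, wd (p l) x)
    (M : Type) [Field M] (ψ : L →+* M) (x : Fin 2 → M) :
    ev (fun j => ψ (c j)) x = ψ e * ∏ l, wd (fun a => ψ (p l a)) x := by
  have h1 : FmC_pl c = FmC_pr e p := by
    refine MvPolynomial.funext fun x => ?_
    rw [FmC_eval, FmC_pr_eval, h]
  rw [← FmC_eval₂, ← FmC_pr_eval₂, h1]

/-- It is enough to know the identity for `x 0 ≠ 0`. -/
private theorem FmC_fac_of [Infinite L] (c : Fin (D + 1) → L) (e : L) (p : Fin D → Fin 2 → L)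
    (h : ∀ x : Fin 2 → L, x 0 ≠ 0 → ev c x = e * ∏ l, wd (p l) x)
    (M : Type) [Field M] (ψ : L →+* M) (x : Fin 2 → M) :
    ev (fun j => ψ (c j)) x = ψ e * ∏ l, wd (fun a => ψ (p l a)) x := by
  have h1 : MvPolynomial.X 0 * FmC_pl c = MvPolynomial.X 0 * FmC_pr e p := by
    refine MvPolynomial.funext fun x => ?_
    rw [map_mul, map_mul, FmC_eval, FmC_pr_eval, MvPolynomial.eval_X]
    by_cases h0 : x 0 = 0
    · rw [h0, zero_mul, zero_mul]
    · rw [h x h0]
  have h2 : FmC_pl c = FmC_pr e p := mul_left_cancel₀ (MvPolynomial.X_ne_zero 0) h1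
  rw [← FmC_eval₂, ← FmC_pr_eval₂, h2]

theorem exists_fac [CharZero L] (c : Fin (D + 1) → L) (hc : c ≠ 0) :
    ∃ (E : Type) (_ : Field E) (_ : Algebra L E) (_ : FiniteDimensional L E) (e : E)
      (p : Fin D → Fin 2 → E), e ≠ 0 ∧ (∀ l, p l ≠ 0) ∧
      ∀ (M : Type) [Field M] (ψ : E →+* M) (x : Fin 2 → M),
        ev (fun j => ψ (algebraMap L E (c j))) x = ψ e * ∏ l, wd (fun a => ψ (p l a)) x := by
  classical
  -- the dehomogenised polynomial
  obtain ⟨f, hf⟩ : ∃ f : Polynomial L, f = ∑ j : Fin (D + 1), Polynomial.monomial (j : ℕ) (c j) :=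
    ⟨_, rfl⟩
  have hcoef : ∀ j : Fin (D + 1), f.coeff j = c j := by
    intro j
    rw [hf, Polynomial.finsetSum_coeff]
    rw [Finset.sum_eq_single j]
    · rw [Polynomial.coeff_monomial, if_pos rfl]
    · intro i _ hi
      rw [Polynomial.coeff_monomial, if_neg]
      exact fun h => hi (Fin.ext h)
    · intro h
      exact absurd (Finset.mem_univ j) h
  have hf0 : f ≠ 0 := by
    intro h
    apply hc
    funext j
    rw [← hcoef j, h, Polynomial.coeff_zero, Pi.zero_apply]
  have hdeg : f.natDegree ≤ D := by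
    rw [hf]
    refine Polynomial.natDegree_sum_le_of_forall_le _ _ fun j _ => ?_
    refine (Polynomial.natDegree_monomial_le _).trans ?_
    exact Nat.lt_succ_iff.1 j.2
  obtain ⟨E, _, _, _, hsp⟩ : ∃ (E : Type) (_ : Field E) (_ : Algebra L E)
      (_ : FiniteDimensional L E), (f.map (algebraMap L E)).Splits :=
    ⟨f.SplittingField, inferInstance, inferInstance, inferInstance,
      Polynomial.SplittingField.splits f⟩
  have hchar : CharZero E := charZero_of_injective_algebraMap (algebraMap L E).injective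
  have hf1 : f.map (algebraMap L E) ≠ 0 :=
    (Polynomial.map_ne_zero_iff (algebraMap L E).injective).2 hf0
  obtain ⟨R, hR⟩ : ∃ R : List E, (R : Multiset E) = (f.map (algebraMap L E)).roots :=
    ⟨(f.map (algebraMap L E)).roots.toList, Multiset.coe_toList _⟩
  have hRl : R.length = f.natDegree := by
    have h1 := hsp.natDegree_eq_card_roots
    rw [Polynomial.natDegree_map, ← hR, Multiset.coe_card] at h1
    exact h1.symm
  have hprod : f.map (algebraMap L E) = Polynomial.C (algebraMap L E f.leadingCoeff) *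
      (R.map fun a => Polynomial.X - Polynomial.C a).prod := by
    have h1 := hsp.eq_prod_roots
    rw [Polynomial.leadingCoeff_map, ← hR, Multiset.map_coe, Multiset.prod_coe] at h1
    exact h1
  refine ⟨E, inferInstance, inferInstance, inferInstance, algebraMap L E f.leadingCoeff,
    fun l => if h : (l : ℕ) < R.length then ![1, R.get ⟨l, h⟩] else ![0, -1], ?_, ?_, ?_⟩
  · exact fun h => hf0 (Polynomial.leadingCoeff_eq_zero.1
      ((map_eq_zero_iff _ (algebraMap L E).injective).1 h))
  · intro l h
    beta_reduce at h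
    split_ifs at h with h1
    · have h2 := congrFun h 0
      simp at h2
    · have h2 := congrFun h 1
      simp at h2
  · refine FmC_fac_of (fun j => algebraMap L E (c j)) _ _ fun x hx => ?_
    -- evaluate
    have h1 : ev (fun j => algebraMap L E (c j)) x =
        x 0 ^ D * (f.map (algebraMap L E)).eval (x 1 / x 0) := by
      have hfE := congrArg (Polynomial.map (algebraMap L E)) hf
      rw [Polynomial.map_sum] at hfE
      unfold ev
      rw [hfE, Polynomial.eval_finsetSum, Finset.mul_sum]
      refine Finset.sum_congr rfl fun j _ => ?_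
      rw [Polynomial.map_monomial, Polynomial.eval_monomial]
      have h2 : x 0 ^ D = x 0 ^ (D - (j : ℕ)) * x 0 ^ (j : ℕ) := by
        rw [← pow_add]
        congr 1
        have := j.2
        omega
      rw [h2, div_pow]
      field_simp
    have h2 : ∏ l : Fin D, wd (if h : (l : ℕ) < R.length then ![1, R.get ⟨l, h⟩] else ![0, -1]) x =
        x 0 ^ D * (R.map fun a => x 1 / x 0 - a).prod := by
      have hRD : R.length ≤ D := by rw [hRl]; exact hdeg
      have h3 : ∀ l : Fin D,
          wd (if h : (l : ℕ) < R.length then ![1, R.get ⟨l, h⟩] else ![0, -1]) x =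
          x 0 * (if h : (l : ℕ) < R.length then x 1 / x 0 - R.get ⟨l, h⟩ else 1) := by
        intro l
        unfold wd
        split_ifs with h4
        · simp only [Matrix.cons_val_zero, Matrix.cons_val_one]
          rw [mul_sub, mul_div_cancel₀ _ hx]
          ring
        · simp
      rw [Finset.prod_congr rfl fun l _ => h3 l, Finset.prod_mul_distrib, Finset.prod_const,
        Finset.card_univ, Fintype.card_fin]
      congr 1
      obtain ⟨k, hk⟩ := Nat.exists_eq_add_of_le hRD
      have h5 : ∀ (N : ℕ) (hN : N = R.length + k),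
          ∏ l : Fin N, (if h : (l : ℕ) < R.length then x 1 / x 0 - R.get ⟨l, h⟩ else (1 : E)) =
          (R.map fun a => x 1 / x 0 - a).prod := by
        intro N hN
        subst hN
        rw [Fin.prod_univ_add]
        have h6 : ∏ i : Fin k, (if h : ((Fin.natAdd R.length i : Fin (R.length + k)) : ℕ) < R.length
            then x 1 / x 0 - R.get ⟨_, h⟩ else (1 : E)) = 1 := by
          refine Finset.prod_eq_one fun i _ => ?_
          rw [dif_neg]
          rw [Fin.val_natAdd]
          omega
        rw [h6, mul_one]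
        have h7 : ∀ i : Fin R.length,
            (if h : ((Fin.castAdd k i : Fin (R.length + k)) : ℕ) < R.length
            then x 1 / x 0 - R.get ⟨_, h⟩ else (1 : E)) = x 1 / x 0 - R.get i := by
          intro i
          rw [dif_pos (by rw [Fin.val_castAdd]; exact i.2)]
          rfl
        rw [Finset.prod_congr rfl fun i _ => h7 i]
        rw [← List.prod_ofFn]
        congr 1
        apply List.ext_get
        · simp
        · intro i h8 h9
          simp
      exact h5 D hk
    rw [h1, h2, hprod, Polynomial.eval_mul, Polynomial.eval_C, Polynomial.eval_list_prod,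
      List.map_map]
    have h3 : ((Polynomial.eval (x 1 / x 0)) ∘ fun a : E => Polynomial.X - Polynomial.C a) =
        fun a => x 1 / x 0 - a := by
      funext a
      simp
    rw [h3]
    ring

/-- A homogeneous polynomial in two variables is a binary form. -/
private theorem FmC_of_hom {N : ℕ} (H : MvPolynomial (Fin 2) L) (hH : H.IsHomogeneous N) :
    ∃ c : Fin (N + 1) → L, FmC_pl c = H := by
  refine ⟨fun j => H.coeff (Finsupp.single 0 (N - (j : ℕ)) + Finsupp.single 1 (j : ℕ)), ?_⟩
  have h0 : ∀ (j : Fin (N + 1)) (a : L), MvPolynomial.C a * MvPolynomial.X 0 ^ (N - (j : ℕ)) *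
      MvPolynomial.X 1 ^ (j : ℕ) = MvPolynomial.monomial
        (Finsupp.single (0 : Fin 2) (N - (j : ℕ)) + Finsupp.single (1 : Fin 2) (j : ℕ)) a := by
    intro j a
    rw [MvPolynomial.monomial_add_single, MvPolynomial.C_mul_X_pow_eq_monomial]
  ext d
  unfold FmC_pl
  rw [MvPolynomial.coeff_sum]
  simp only [h0, MvPolynomial.coeff_monomial]
  by_cases hd : d 0 + d 1 = N
  · have hj : d 1 < N + 1 := by omega
    have hd' : Finsupp.single 0 (N - d 1) + Finsupp.single 1 (d 1) = d := by
      ext i
      fin_cases i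
      · simp
        omega
      · simp
    rw [Finset.sum_eq_single (⟨d 1, hj⟩ : Fin (N + 1))]
    · simp only
      rw [hd', if_pos rfl]
    · intro i _ hi
      rw [if_neg]
      intro h1
      apply hi
      apply Fin.ext
      have h2 := DFunLike.congr_fun h1 1
      simpa using h2
    · intro h
      exact absurd (Finset.mem_univ _) h
  · have h1 : H.coeff d = 0 := by
      by_contra h2
      apply hd
      have h3 := hH h2
      rw [← h3]
      rw [Finsupp.weight_apply, Finsupp.sum_fintype _ _ (fun i => by simp), Fin.sum_univ_two]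
      simp
    rw [h1]
    refine Finset.sum_eq_zero fun i _ => ?_
    rw [if_neg]
    intro h2
    apply hd
    rw [← h2]
    have := i.2
    simp
    omega

private theorem FmC_hom (c : Fin (D + 1) → L) : (FmC_pl c).IsHomogeneous D := by
  unfold FmC_pl
  refine MvPolynomial.IsHomogeneous.sum _ _ _ fun j _ => ?_
  have h1 := ((MvPolynomial.isHomogeneous_C (Fin 2) (c j)).mul
    ((MvPolynomial.isHomogeneous_X L (0 : Fin 2)).pow (D - (j : ℕ)))).mul
    ((MvPolynomial.isHomogeneous_X L (1 : Fin 2)).pow (j : ℕ))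
  have h2 : 0 + 1 * (D - (j : ℕ)) + 1 * (j : ℕ) = D := by
    have := j.2
    omega
  rw [h2] at h1
  exact h1

theorem comp_form (c : Fin (n + 1) → Fin (D + 1) → L) (m : ℕ) (G : MvPolynomial (Fin (n + 1)) L)
    (hG : G.IsHomogeneous m) : ∃ c' : Fin (D * m + 1) → L,
      ∀ (M : Type) [Field M] (ψ : L →+* M) (x : Fin 2 → M),
        ev (fun j => ψ (c' j)) x = MvPolynomial.eval₂ ψ (fun i => ev (fun j => ψ (c i j)) x) G := by
  have h1 : (MvPolynomial.bind₁ (fun i => FmC_pl (c i)) G).IsHomogeneous (D * m) :=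
    hG.eval₂ _ _ (fun r => MvPolynomial.isHomogeneous_C _ r) (fun i => FmC_hom (c i))
  obtain ⟨c', hc'⟩ := FmC_of_hom _ h1
  refine ⟨c', fun M _ ψ x => ?_⟩
  rw [← FmC_eval₂, hc', ← MvPolynomial.coe_eval₂Hom, MvPolynomial.eval₂Hom_bind₁,
    MvPolynomial.coe_eval₂Hom]
  congr 1
  funext i
  rw [MvPolynomial.coe_eval₂Hom, FmC_eval₂]

theorem mem_res {k : Type} [Field k] (φ : k →+* L)
    (I : Ideal (MvPolynomial (Fin (n + 1) × Fin (D + 1)) k)) (V : ValuationSubring L)
    (hφ : ∀ a, φ a ∈ V) (c : Fin (n + 1) → Fin (D + 1) → L) (hc : Mem φ I c)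
    (hi : ∀ i j, c i j ∈ V) : Mem (resk φ V hφ) I (fun i j => res V (c i j)) := by
  intro P hP
  have h1 := hc P hP
  have h2 : MvPolynomial.eval₂ (φ.codRestrict V.toSubring hφ)
      (fun q : Fin (n + 1) × Fin (D + 1) => (⟨c q.1 q.2, hi q.1 q.2⟩ : V.toSubring)) P = 0 := by
    apply Subtype.ext
    have h3 := MvPolynomial.hom_eval₂ P (φ.codRestrict V.toSubring hφ) V.toSubring.subtype
      (fun q : Fin (n + 1) × Fin (D + 1) => (⟨c q.1 q.2, hi q.1 q.2⟩ : V.toSubring))
    refine h3.trans ?_
    exact h1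
  have h3 := congrArg (residue V) h2
  have h4 := MvPolynomial.hom_eval₂ P (φ.codRestrict V.toSubring hφ) (residue V)
      (fun q : Fin (n + 1) × Fin (D + 1) => (⟨c q.1 q.2, hi q.1 q.2⟩ : V.toSubring))
  have h5 : (fun q : Fin (n + 1) × Fin (D + 1) => res V (c q.1 q.2)) =
      (residue V) ∘ (fun q : Fin (n + 1) × Fin (D + 1) => (⟨c q.1 q.2, hi q.1 q.2⟩ : V.toSubring)) := by
    funext q
    rw [res_of_mem (hi q.1 q.2)]
    rfl
  rw [h5]
  refine Eq.trans ?_ (h3.trans (map_zero _))
  exact h4.symm

theorem mem_map {k M : Type} [Field k] [Field M] (φ : k →+* L) (ψ : L →+* M)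
    (I : Ideal (MvPolynomial (Fin (n + 1) × Fin (D + 1)) k)) (c : Fin (n + 1) → Fin (D + 1) → L)
    (hc : Mem φ I c) : Mem (ψ.comp φ) I (fun i j => ψ (c i j)) := by
  intro P hP
  have h := congrArg ψ (hc P hP)
  rw [map_zero, MvPolynomial.hom_eval₂] at h
  exact h

end Pool.Agent.Lib.MP_1e3e9c_agU
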