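import Mathlib
import Pool.Agent.Lib.MP_1e3e9c_agU.Defs3

/-!
# MP_1e3e9c_ag, project U, leaf G0a: specialisation to `k`

Nullstellensatz (`MvPolynomial.vanishingIdeal_zeroLocus_eq_radical`): if `Q` vanishes at all common
zeros of `S` in `k`, a power of `Q` is in the ideal generated by `S`, so it vanishes at `x`.
-/

set_option autoImplicit false

namespace Pool.Agent.Lib.MP_1e3e9c_agU

theorem exists_point {k : Type} [Field k] [IsAlgClosed k] {L : Type} [Field L] (φ : k →+* L)
    {σ : Type} [Finite σ] (S : Set (MvPolynomial σ k)) (Q : MvPolynomial σ k) (x : σ → L)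
    (hS : ∀ P ∈ S, MvPolynomial.eval₂ φ x P = 0) (hQ : MvPolynomial.eval₂ φ x Q ≠ 0) :
    ∃ y : σ → k, (∀ P ∈ S, MvPolynomial.eval y P = 0) ∧ MvPolynomial.eval y Q ≠ 0 := by
  classical
  by_contra hne
  push Not at hne
  have h1 : Q ∈ MvPolynomial.vanishingIdeal k (MvPolynomial.zeroLocus k (Ideal.span S)) := by
    rw [MvPolynomial.mem_vanishingIdeal_iff]
    intro y hy
    rw [MvPolynomial.mem_zeroLocus_iff] at hy
    rw [MvPolynomial.aeval_eq_eval]
    refine hne y fun P hP => ?_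
    have h2 := hy P (Ideal.subset_span hP)
    rwa [MvPolynomial.aeval_eq_eval] at h2
  rw [MvPolynomial.vanishingIdeal_zeroLocus_eq_radical] at h1
  obtain ⟨m, hm⟩ := h1
  have h3 : Ideal.span S ≤ RingHom.ker (MvPolynomial.eval₂Hom φ x) := by
    rw [Ideal.span_le]
    intro P hP
    exact hS P hP
  have h4 : MvPolynomial.eval₂Hom φ x (Q ^ m) = 0 := h3 hm
  rw [map_pow] at h4
  exact hQ (eq_zero_of_pow_eq_zero h4)

end Pool.Agent.Lib.MP_1e3e9c_agU
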