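import Mathlib
import Pool.Agent.Lib.MP_1e3e9c_agU.FmB

/-!
# MP_1e3e9c_ag, project U, leaf G0b: base point freeness is an open condition

Let `N`, `a`, `b` be as in `bezout` for the tuple over `L` and `m = N + D`. Every monomial of degree
`2 m` (so `x_0^i x_1^j` with `i ≥ m` or `j ≥ m`) is `∑ g_i h_i` with forms `g_i` over `L` of degree
`2 m - D`. So the matrix with rows `(i, l)`, `i : Fin (n+1)`, `l : Fin (2m - D + 1)` and columns
`j : Fin (2m + 1)`, whose row `(i, l)` consists of the coefficients of `x_0^(2m-D-l) x_1^l h_i`, has rank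
`2m + 1` over `L`: some square submatrix of size `2m + 1` (choose rows) has nonzero determinant over `L`
(linearly independent rows which span). `Δ` = this determinant over the ring `A`. If `χ Δ ≠ 0` the rows
span over `M`, so `x_0^(2m)` and `x_1^(2m)` are combinations of the `h_i` over `M`, and there is no
common zero in any extension field. (Another way: Nakayama, the cokernel of the matrix.)
-/

set_option autoImplicit false

namespace Pool.Agent.Lib.MP_1e3e9c_agU

/-- The coefficients of `T^l h_i(T)`. -/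
private def G0bR {A : Type} [CommRing A] {n D : ℕ} (h : Fin (n + 1) → Fin (D + 1) → A) (a : ℕ)
    (p : Fin (n + 1) × Fin (a + 1)) (j : Fin (a + D + 1)) : A :=
  ∑ k : Fin (D + 1), if (p.2 : ℕ) + (k : ℕ) = (j : ℕ) then h p.1 k else 0

private theorem G0bR_map {A M : Type} [CommRing A] [CommRing M] {n D : ℕ}
    (h : Fin (n + 1) → Fin (D + 1) → A) (a : ℕ) (χ : A →+* M) (p : Fin (n + 1) × Fin (a + 1))
    (j : Fin (a + D + 1)) : χ (G0bR h a p j) = G0bR (fun i j => χ (h i j)) a p j := by
  unfold G0bR
  rw [map_sum]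
  refine Finset.sum_congr rfl fun k _ => ?_
  split_ifs
  · rfl
  · exact map_zero χ

private theorem G0bR_sum {A : Type} [CommRing A] {n D : ℕ} (h : Fin (n + 1) → Fin (D + 1) → A)
    (a : ℕ) (p : Fin (n + 1) × Fin (a + 1)) (w : ℕ → A) :
    ∑ j, G0bR h a p j * w j = ∑ k : Fin (D + 1), h p.1 k * w ((p.2 : ℕ) + k) := by
  unfold G0bR
  simp_rw [Finset.sum_mul]
  rw [Finset.sum_comm]
  refine Finset.sum_congr rfl fun k _ => ?_
  have h1 : (p.2 : ℕ) + (k : ℕ) < a + D + 1 := by
    have := p.2.2
    have := k.2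
    omega
  rw [Finset.sum_eq_single (⟨(p.2 : ℕ) + (k : ℕ), h1⟩ : Fin (a + D + 1))]
  · simp
  · intro j _ hj
    rw [if_neg (fun h2 => hj (Fin.ext h2.symm)), zero_mul]
  · intro h2
    exact absurd (Finset.mem_univ _) h2

/-- The dehomogenised form. -/
private noncomputable def G0bP {L : Type} [Field L] {D : ℕ} (c : Fin (D + 1) → L) :
    Polynomial L := ∑ k : Fin (D + 1), Polynomial.monomial (k : ℕ) (c k)

private theorem G0bP_eval {L : Type} [Field L] {D : ℕ} (c : Fin (D + 1) → L) (t : L) :
    (G0bP c).eval t = ev c ![1, t] := by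
  unfold G0bP ev
  rw [Polynomial.eval_finsetSum]
  refine Finset.sum_congr rfl fun k _ => ?_
  rw [Polynomial.eval_monomial]
  simp

private theorem G0bP_mul {L : Type} [Field L] {N D : ℕ} (a : Fin (N + 1) → L)
    (c : Fin (D + 1) → L) (w : ℕ → L) (j : ℕ)
    (hw : ∀ l : Fin (N + 1), ∑ k : Fin (D + 1), c k * w (j + l + k) = 0) :
    (Polynomial.basisMonomials L).constr L (fun e => w (j + e)) (G0bP a * G0bP c) = 0 := by
  unfold G0bP
  rw [Finset.sum_mul_sum, map_sum]
  refine Finset.sum_eq_zero fun l _ => ?_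
  rw [map_sum]
  have h1 : ∀ k : Fin (D + 1), (Polynomial.basisMonomials L).constr L (fun e => w (j + e))
      (Polynomial.monomial (l : ℕ) (a l) * Polynomial.monomial (k : ℕ) (c k)) =
      a l * (c k * w (j + l + k)) := by
    intro k
    rw [Polynomial.monomial_mul_monomial]
    have h2 : Polynomial.monomial ((l : ℕ) + (k : ℕ)) (a l * c k) =
        (a l * c k) • (Polynomial.basisMonomials L) ((l : ℕ) + (k : ℕ)) := by
      rw [Polynomial.coe_basisMonomials, Polynomial.smul_monomial, smul_eq_mul, mul_one]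
    rw [h2, map_smul, Module.Basis.constr_basis, smul_eq_mul, ← add_assoc]
    ring
  simp_rw [h1]
  rw [← Finset.mul_sum, hw l, mul_zero]

private theorem G0b_span {L : Type} [Field L] [Infinite L] {n D : ℕ}
    {c : Fin (n + 1) → Fin (D + 1) → L} (hb : BPF c) :
    ∃ a : ℕ, Submodule.span L (Set.range (G0bR c a)) = ⊤ := by
  obtain ⟨N, A, B, hA, hB⟩ := bezout hb
  refine ⟨N + D + N, ?_⟩
  by_contra hne
  obtain ⟨f, hf0, hf⟩ := Submodule.exists_le_ker_of_lt_top _ (lt_top_iff_ne_top.2 hne)
  apply hf0
  let w : ℕ → L := fun j => if h : j < N + D + N + D + 1 then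
    f (fun i => if (⟨j, h⟩ : Fin (N + D + N + D + 1)) = i then 1 else 0) else 0
  have hfw : ∀ v, f v = ∑ j, v j * w j := by
    intro v
    rw [LinearMap.pi_apply_eq_sum_univ f v]
    refine Finset.sum_congr rfl fun j _ => ?_
    have : w j = f (fun i => if j = i then 1 else 0) := dif_pos j.2
    rw [this, smul_eq_mul]
  have hrow : ∀ (i : Fin (n + 1)) (l : ℕ), l ≤ N + D + N →
      ∑ k : Fin (D + 1), c i k * w (l + k) = 0 := by
    intro i l hl
    have h1 : f (G0bR c (N + D + N) (i, ⟨l, by omega⟩)) = 0 :=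
      hf (Submodule.subset_span ⟨_, rfl⟩)
    rw [hfw, G0bR_sum] at h1
    exact h1
  have hA' : ∑ i, G0bP (A i) * G0bP (c i) = 1 := by
    apply Polynomial.funext
    intro t
    rw [Polynomial.eval_finsetSum, Polynomial.eval_one]
    have h1 := hA ![1, t]
    simp only [Matrix.cons_val_zero, one_pow] at h1
    rw [← h1]
    refine Finset.sum_congr rfl fun i _ => ?_
    rw [Polynomial.eval_mul, G0bP_eval, G0bP_eval]
  have hB' : ∑ i, G0bP (B i) * G0bP (c i) = Polynomial.X ^ (N + D) := by
    apply Polynomial.funext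
    intro t
    rw [Polynomial.eval_finsetSum, Polynomial.eval_pow, Polynomial.eval_X]
    have h1 := hB ![1, t]
    simp only [Matrix.cons_val_one, Matrix.cons_val_zero] at h1
    rw [← h1]
    refine Finset.sum_congr rfl fun i _ => ?_
    rw [Polynomial.eval_mul, G0bP_eval, G0bP_eval]
  have hw1 : ∀ j, j ≤ N + D → w j = 0 := by
    intro j hj
    have h1 := congrArg ((Polynomial.basisMonomials L).constr L (fun e => w (j + e))) hA'
    rw [map_sum, Finset.sum_eq_zero] at h1
    · have h2 : (1 : Polynomial L) = (Polynomial.basisMonomials L) 0 := by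
        rw [Polynomial.coe_basisMonomials]; rfl
      rw [h2, Module.Basis.constr_basis, add_zero] at h1
      exact h1.symm
    · intro i _
      apply G0bP_mul
      intro l
      have := l.2
      exact hrow i (j + l) (by omega)
  have hw2 : ∀ j, j ≤ N + D → w (j + (N + D)) = 0 := by
    intro j hj
    have h1 := congrArg ((Polynomial.basisMonomials L).constr L (fun e => w (j + e))) hB'
    rw [map_sum, Finset.sum_eq_zero] at h1
    · have h2 : (Polynomial.X ^ (N + D) : Polynomial L) =
          (Polynomial.basisMonomials L) (N + D) := by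
        rw [Polynomial.coe_basisMonomials, Polynomial.X_pow_eq_monomial]
      rw [h2, Module.Basis.constr_basis] at h1
      exact h1.symm
    · intro i _
      apply G0bP_mul
      intro l
      have := l.2
      exact hrow i (j + l) (by omega)
  apply LinearMap.ext
  intro v
  rw [hfw, LinearMap.zero_apply]
  refine Finset.sum_eq_zero fun j _ => ?_
  have h3 : w j = 0 := by
    by_cases hj : (j : ℕ) ≤ N + D
    · exact hw1 _ hj
    · have h4 := hw2 ((j : ℕ) - (N + D)) (by have := j.2; omega)
      rw [Nat.sub_add_cancel (by omega)] at h4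
      exact h4
  rw [h3, mul_zero]

theorem bpf_open {A : Type} [CommRing A] {n D : ℕ} (h : Fin (n + 1) → Fin (D + 1) → A) {L : Type}
    [Field L] (ψ : A →+* L) (hb : BPF (fun i j => ψ (h i j))) :
    ∃ Δ : A, ψ Δ ≠ 0 ∧ ∀ (M : Type) [Field M] (χ : A →+* M), χ Δ ≠ 0 →
      BPF (fun i j => χ (h i j)) := by
  classical
  have : Infinite (AlgebraicClosure L) := IsAlgClosed.instInfinite
  obtain ⟨a, ha⟩ := G0b_span (BPF.map (algebraMap L (AlgebraicClosure L)) hb)
  obtain ⟨κ, g, hg, hspan, hli⟩ := exists_linearIndependent' (AlgebraicClosure L)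
    (G0bR (fun i j => algebraMap L (AlgebraicClosure L) (ψ (h i j))) a)
  let bb := Module.Basis.mk hli (by rw [hspan, ha])
  let e : Fin (a + D + 1) ≃ κ := (Pi.basisFun (AlgebraicClosure L) (Fin (a + D + 1))).indexEquiv bb
  refine ⟨(Matrix.of fun r j => G0bR h a (g (e r)) j).det, ?_, ?_⟩
  · intro h0
    have h1 : (algebraMap L (AlgebraicClosure L)).comp ψ
        (Matrix.of fun r j => G0bR h a (g (e r)) j).det = 0 := by
      rw [RingHom.comp_apply, h0, map_zero]
    rw [RingHom.map_det] at h1
    have h2 : LinearIndependent (AlgebraicClosure L)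
        (fun r => G0bR (fun i j => algebraMap L (AlgebraicClosure L) (ψ (h i j))) a (g (e r))) :=
      hli.comp e e.injective
    have h3 : IsUnit (((algebraMap L (AlgebraicClosure L)).comp ψ).mapMatrix
        (Matrix.of fun r j => G0bR h a (g (e r)) j)) := by
      rw [← Matrix.linearIndependent_rows_iff_isUnit]
      have h4 : (((algebraMap L (AlgebraicClosure L)).comp ψ).mapMatrix
        (Matrix.of fun r j => G0bR h a (g (e r)) j)).row =
        (fun r => G0bR (fun i j => algebraMap L (AlgebraicClosure L) (ψ (h i j))) a (g (e r))) := by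
        funext r j
        exact G0bR_map h a ((algebraMap L (AlgebraicClosure L)).comp ψ) _ _
      rw [h4]
      exact h2
    rw [Matrix.isUnit_iff_isUnit_det, h1] at h3
    exact not_isUnit_zero h3
  · intro M _ χ hΔ M' _ φ x hx
    by_contra hall
    push Not at hall
    have h1 : (φ.comp χ) (Matrix.of fun r j => G0bR h a (g (e r)) j).det ≠ 0 := by
      rw [RingHom.comp_apply]
      exact fun h2 => hΔ ((map_eq_zero φ).1 h2)
    rw [RingHom.map_det] at h1
    let w : ℕ → M' := fun j => x 0 ^ (a + D - j) * x 1 ^ j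
    have h2 : Matrix.mulVec ((φ.comp χ).mapMatrix (Matrix.of fun r j => G0bR h a (g (e r)) j))
        (fun j => w j) = 0 := by
      funext r
      have h3 : Matrix.mulVec ((φ.comp χ).mapMatrix
          (Matrix.of fun r j => G0bR h a (g (e r)) j)) (fun j => w j) r =
          ∑ j, G0bR (fun i j => φ (χ (h i j))) a (g (e r)) j * w j := by
        rw [Matrix.mulVec, dotProduct]
        refine Finset.sum_congr rfl fun j _ => ?_
        have h12 := G0bR_map h a (φ.comp χ) (g (e r)) j
        exact congrArg (· * w j) h12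
      rw [h3, G0bR_sum]
      have h4 := hall (g (e r)).1
      have h5 : ∑ k : Fin (D + 1), φ (χ (h (g (e r)).1 k)) * w (((g (e r)).2 : ℕ) + k) =
          x 0 ^ (a - ((g (e r)).2 : ℕ)) * x 1 ^ ((g (e r)).2 : ℕ) *
            ev (fun j => φ (χ (h (g (e r)).1 j))) x := by
        unfold ev
        rw [Finset.mul_sum]
        refine Finset.sum_congr rfl fun k _ => ?_
        have h6 := (g (e r)).2.2
        have h7 := k.2
        have h8 : a + D - (((g (e r)).2 : ℕ) + k) = (a - ((g (e r)).2 : ℕ)) + (D - k) := by omega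
        simp only [w]
        rw [h8, pow_add, pow_add]
        ring
      rw [h5, h4, mul_zero]
      rfl
    have h9 := Matrix.eq_zero_of_mulVec_eq_zero h1 h2
    apply hx
    have h10 := congrFun h9 ⟨0, by omega⟩
    have h11 := congrFun h9 ⟨a + D, by omega⟩
    simp only [w, Pi.zero_apply, pow_zero, mul_one, Nat.sub_self, one_mul] at h10 h11
    funext i
    fin_cases i
    · exact eq_zero_of_pow_eq_zero h10
    · exact eq_zero_of_pow_eq_zero h11

end Pool.Agent.Lib.MP_1e3e9c_agU
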