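import Mathlib
import Pool.Agent.Lib.MP_1e3e9c_agU.FmA

/-!
# MP_1e3e9c_ag, project U, leaf G0c: equations of the constant tuples; the action is polynomial

`cst_iff`: put `b_ij = c_ij / binom(D,j)`: the equations say `b_ij b_i'j' = b_il b_i'l'` for
`j + j' = l + l'`. Clear for constant tuples (`b_ij = v_i a^(D-j) b^j`). Conversely: if some
`b_(i₀)0 ≠ 0` put `t = b_(i₀)1 / b_(i₀)0` (`D ≥ 1`; for `D = 0` there is nothing to prove):
`b_ij b_(i₀)0 = b_i(j-1) b_(i₀)1` gives `b_ij = t^j b_i0`: constant with `v_i = b_i0`, `a = 1`, `b = t`. If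
all `b_i0 = 0`: then `b_ij = 0` for all `j < D` (minimal `j` with some `b_ij ≠ 0`, `1 ≤ j < D`:
`b_ij b_ij = b_i(j-1) b_i(j+1) = 0`), so `v_i = b_iD`, `a = 0`, `b = 1`.
`act_univ`: the coefficients of `f(gx)` are universal polynomials in those of `f` and `g` (the same
formula as in the definition of `act` over the polynomial ring over `ℤ`, `Polynomial.map`).
-/

set_option autoImplicit false

namespace Pool.Agent.Lib.MP_1e3e9c_agU

/-- From the equations to a constant tuple. -/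
private theorem G0c_cst {L : Type} [Field L] {n D : ℕ} (b : Fin (n + 1) → Fin (D + 1) → L)
    (h : ∀ (i i' : Fin (n + 1)) (j j' l l' : Fin (D + 1)), (j : ℕ) + (j' : ℕ) = (l : ℕ) + (l' : ℕ) →
      b i j * b i' j' = b i l * b i' l') :
    ∃ (v : Fin (n + 1) → L) (x y : L), ∀ i (j : Fin (D + 1)),
      b i j = v i * x ^ (D - (j : ℕ)) * y ^ (j : ℕ) := by
  by_cases h0 : ∃ i₀, b i₀ 0 ≠ 0
  · obtain ⟨i₀, hi₀⟩ := h0
    obtain ⟨t, ht⟩ : ∃ t : L, ∀ hD : 1 < D + 1, b i₀ ⟨1, hD⟩ = t * b i₀ 0 := by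
      by_cases hD : 1 < D + 1
      · exact ⟨b i₀ ⟨1, hD⟩ / b i₀ 0, fun _ => (div_mul_cancel₀ _ hi₀).symm⟩
      · exact ⟨0, fun h1 => absurd h1 hD⟩
    have key : ∀ (j : ℕ) (hj : j < D + 1) (i : Fin (n + 1)), b i ⟨j, hj⟩ = b i 0 * t ^ j := by
      intro j
      induction j with
      | zero =>
        intro _ i
        rw [pow_zero, mul_one]
        rfl
      | succ j ih =>
        intro hj i
        have h1 := h i i₀ ⟨j + 1, hj⟩ 0 ⟨j, by omega⟩ ⟨1, by omega⟩ (by simp)
        rw [ht (by omega), ih (by omega) i] at h1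
        have h2 : (b i ⟨j + 1, hj⟩ - b i 0 * t ^ (j + 1)) * b i₀ 0 = 0 := by
          rw [pow_succ]
          linear_combination h1
        exact sub_eq_zero.1 ((mul_eq_zero.1 h2).resolve_right hi₀)
    refine ⟨fun i => b i 0, 1, t, fun i j => ?_⟩
    rw [one_pow, mul_one]
    exact key j j.2 i
  · push Not at h0
    have key : ∀ (j : ℕ) (hj : j < D) (i : Fin (n + 1)), b i ⟨j, by omega⟩ = 0 := by
      intro j
      induction j with
      | zero => exact fun _ i => h0 i
      | succ j ih =>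
        intro hj i
        have h1 := h i i ⟨j + 1, by omega⟩ ⟨j + 1, by omega⟩ ⟨j, by omega⟩ ⟨j + 1 + 1, by omega⟩
          (by simp only; omega)
        rw [ih (by omega) i, zero_mul] at h1
        exact mul_self_eq_zero.1 h1
    refine ⟨fun i => b i (Fin.last D), 0, 1, fun i j => ?_⟩
    rw [one_pow, mul_one]
    by_cases hj : (j : ℕ) < D
    · rw [zero_pow (by omega), mul_zero]
      exact key j hj i
    · have h1 : j = Fin.last D := Fin.ext (by
        have := j.2
        simp only [Fin.val_last]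
        omega)
      rw [h1, Fin.val_last, Nat.sub_self, pow_zero, mul_one]

theorem cst_iff {L : Type} [Field L] [CharZero L] {n D : ℕ} (c : Fin (n + 1) → Fin (D + 1) → L) :
    Cst c ↔ ∀ (i i' : Fin (n + 1)) (j j' l l' : Fin (D + 1)),
      (j : ℕ) + (j' : ℕ) = (l : ℕ) + (l' : ℕ) →
      (Nat.choose D l : L) * (Nat.choose D l' : L) * (c i j * c i' j') =
        (Nat.choose D j : L) * (Nat.choose D j' : L) * (c i l * c i' l') := by
  have hch : ∀ j : Fin (D + 1), (Nat.choose D (j : ℕ) : L) ≠ 0 := fun j =>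
    Nat.cast_ne_zero.2 (Nat.choose_pos (Nat.lt_succ_iff.1 j.2)).ne'
  constructor
  · rintro ⟨v, a, b, hv⟩ i i' j j' l l' hjl
    rw [hv i j, hv i' j', hv i l, hv i' l']
    have h1 : a ^ (D - (j : ℕ)) * a ^ (D - (j' : ℕ)) = a ^ (D - (l : ℕ)) * a ^ (D - (l' : ℕ)) := by
      rw [← pow_add, ← pow_add]
      congr 1
      have := j.2
      have := j'.2
      have := l.2
      have := l'.2
      omega
    have h2 : b ^ (j : ℕ) * b ^ (j' : ℕ) = b ^ (l : ℕ) * b ^ (l' : ℕ) := by
      rw [← pow_add, ← pow_add, hjl]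
    linear_combination ((Nat.choose D l : L) * (Nat.choose D l' : L) * (Nat.choose D j : L) *
      (Nat.choose D j' : L) * v i * v i') * (b ^ (j : ℕ) * b ^ (j' : ℕ) * h1 +
        a ^ (D - (l : ℕ)) * a ^ (D - (l' : ℕ)) * h2)
  · intro h
    obtain ⟨v, x, y, hv⟩ := G0c_cst (fun i (j : Fin (D + 1)) => c i j / (Nat.choose D (j : ℕ) : L)) (by
      intro i i' j j' l l' hjl
      have h1 := h i i' j j' l l' hjl
      have := hch j
      have := hch j'
      have := hch l
      have := hch l'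
      field_simp
      linear_combination h1)
    refine ⟨v, x, y, fun i j => ?_⟩
    have h1 : c i j / (Nat.choose D (j : ℕ) : L) = v i * x ^ (D - (j : ℕ)) * y ^ (j : ℕ) := hv i j
    rw [div_eq_iff (hch j)] at h1
    rw [h1]
    ring

theorem act_univ (D : ℕ) : ∃ A : Fin (D + 1) → MvPolynomial (Fin (D + 1) ⊕ (Fin 2 × Fin 2)) ℤ,
    ∀ (M : Type) [Field M] (g : Matrix (Fin 2) (Fin 2) M) (c : Fin (D + 1) → M) (j : Fin (D + 1)),
      act g c j = MvPolynomial.eval₂ (Int.castRingHom M)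
        (Sum.elim c (fun q : Fin 2 × Fin 2 => g q.1 q.2)) (A j) := by
  let P : Polynomial (MvPolynomial (Fin (D + 1) ⊕ (Fin 2 × Fin 2)) ℤ) :=
    ∑ i : Fin (D + 1), Polynomial.C (MvPolynomial.X (Sum.inl i)) *
      (Polynomial.C (MvPolynomial.X (Sum.inr (0, 0))) +
        Polynomial.C (MvPolynomial.X (Sum.inr (0, 1))) * Polynomial.X) ^ (D - (i : ℕ)) *
      (Polynomial.C (MvPolynomial.X (Sum.inr (1, 0))) +
        Polynomial.C (MvPolynomial.X (Sum.inr (1, 1))) * Polynomial.X) ^ (i : ℕ)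
  refine ⟨fun j => P.coeff (j : ℕ), fun M _ g c j => ?_⟩
  have h1 : P.map (MvPolynomial.eval₂Hom (Int.castRingHom M)
      (Sum.elim c (fun q : Fin 2 × Fin 2 => g q.1 q.2))) =
      ∑ i : Fin (D + 1), Polynomial.C (c i) *
        (Polynomial.C (g 0 0) + Polynomial.C (g 0 1) * Polynomial.X) ^ (D - (i : ℕ)) *
        (Polynomial.C (g 1 0) + Polynomial.C (g 1 1) * Polynomial.X) ^ (i : ℕ) := by
    simp only [P, Polynomial.map_sum, Polynomial.map_mul, Polynomial.map_pow, Polynomial.map_add,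
      Polynomial.map_C, Polynomial.map_X, MvPolynomial.coe_eval₂Hom, MvPolynomial.eval₂_X,
      Sum.elim_inl, Sum.elim_inr]
  have h2 := congrArg (fun Q : Polynomial M => Q.coeff (j : ℕ)) h1
  simp only [Polynomial.coeff_map, MvPolynomial.coe_eval₂Hom] at h2
  exact h2.symm

end Pool.Agent.Lib.MP_1e3e9c_agU
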