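import Mathlib
import Pool.Agent.Lib.MP_1e3e9c_agU.G0b
import Pool.Agent.Lib.MP_1e3e9c_agU.Defs3

/-!
# MP_1e3e9c_ag, project U, leaf G8: all members pass through the point

Suppose the conclusion fails for `c'`. Then the tuple `t_(ab) = y_a c'_b - y_b c'_a`
(`(a,b) : Fin (n+1) × Fin (n+1)`, numbered by some `Fin (N+1)`) has no zero in `k²`
(`y_a f_b(x) = y_b f_a(x)` for all `a, b` and `y ≠ 0` give `f(x) = b y`), so it is `BPF`
(`bpf_of_algClosed`). `bpf_open` for the polynomial ring in the `X (i,j)`, the tuple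
`y_a X (b,j) - y_b X (a,j)` and `ψ` = evaluation at `c'`: `Δ(c') ≠ 0`, so `Δ ∉ I` (`c'` is a member), so
`Δ(gt c) ≠ 0` (`Gen`), so `t(gt c)` is `BPF` over `GF F (Fin 2 × Fin 2)`. But let
`M = GF A (Fin 2 × Fin 2)`, which contains `A` and `GF F (Fin 2 × Fin 2)` (a homomorphism
`GF F σ → GF A σ` with `gc ↦ gc`, over `F → A`), and `x = adj(G) q`, `G` = the generic matrix, `x ≠ 0`
(`det G ≠ 0`): `f_(act G c)(x) = f_c(G x) = (det G)^D f_c(q) = (det G)^D a y` (`ev_act`, `ev_scale`), so all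
`t_(ab)(gt c)` vanish at `x`: contradiction.
-/

set_option autoImplicit false

namespace Pool.Agent.Lib.MP_1e3e9c_agU

/-- A linear combination of two forms. -/
private theorem G8_lin {L : Type} [Field L] {D : ℕ} (u v : L) (f g : Fin (D + 1) → L)
    (x : Fin 2 → L) : ev (fun j => u * f j - v * g j) x = u * ev f x - v * ev g x := by
  unfold ev
  rw [Finset.mul_sum, Finset.mul_sum, ← Finset.sum_sub_distrib]
  exact Finset.sum_congr rfl fun j _ => by ring

/-- The generic functions over `F` and over the extension `A`. -/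
private theorem G8_hom (F A : Type) [Field F] [Field A] [Algebra F A] (σ : Type) :
    ∃ ρ : GF F σ →+* GF A σ, (∀ q, ρ (gc F σ q) = gc A σ q) ∧
      ∀ a : F, ρ (algebraMap F (GF F σ) a) = algebraMap A (GF A σ) (algebraMap F A a) := by
  let g : MvPolynomial σ F →+* GF A σ :=
    (algebraMap (MvPolynomial σ A) (GF A σ)).comp (MvPolynomial.map (algebraMap F A))
  have hg : Function.Injective g :=
    (IsFractionRing.injective (MvPolynomial σ A) (GF A σ)).comp
      (MvPolynomial.map_injective _ (algebraMap F A).injective)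
  refine ⟨IsFractionRing.lift hg, fun q => ?_, fun a => ?_⟩
  · unfold gc
    rw [IsFractionRing.lift_algebraMap]
    show algebraMap (MvPolynomial σ A) (GF A σ) (MvPolynomial.map (algebraMap F A)
      (MvPolynomial.X q)) = _
    rw [MvPolynomial.map_X]
  · rw [IsScalarTower.algebraMap_apply F (MvPolynomial σ F) (GF F σ), IsFractionRing.lift_algebraMap,
      IsScalarTower.algebraMap_apply A (MvPolynomial σ A) (GF A σ)]
    show algebraMap (MvPolynomial σ A) (GF A σ) (MvPolynomial.map (algebraMap F A)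
      (algebraMap F (MvPolynomial σ F) a)) = _
    rw [MvPolynomial.algebraMap_eq, MvPolynomial.map_C, MvPolynomial.algebraMap_eq]

private theorem G8_det (A : Type) [Field A] : (gmat A).det ≠ 0 := by
  have h1 : gmat A = (algebraMap (MvPolynomial (Fin 2 × Fin 2) A) (GF A (Fin 2 × Fin 2))).mapMatrix
      (Matrix.mvPolynomialX (Fin 2) (Fin 2) A) := by
    ext a b
    rfl
  rw [h1, ← RingHom.map_det]
  intro h2
  exact Matrix.det_mvPolynomialX_ne_zero (Fin 2) A
    ((map_eq_zero_iff _ (IsFractionRing.injective (MvPolynomial (Fin 2 × Fin 2) A)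
      (GF A (Fin 2 × Fin 2)))).1 h2)

theorem all_through {k F : Type} [Field k] [IsAlgClosed k] [Field F] {n D : ℕ}
    {I : Ideal (MvPolynomial (Fin (n + 1) × Fin (D + 1)) k)} (φ : k →+* F)
    (c : Fin (n + 1) → Fin (D + 1) → F) (hG : Gen I φ c) (A : Type) [Field A] [Algebra F A]
    (q : Fin 2 → A) (hq : q ≠ 0) (y : Fin (n + 1) → k) (hy : y ≠ 0) (a : A)
    (h : ∀ i, ptA A c q i = a * algebraMap F A (φ (y i)))
    (c' : Fin (n + 1) → Fin (D + 1) → k) (hc' : Mem (RingHom.id k) I c') :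
    ∃ x : Fin 2 → k, x ≠ 0 ∧ ∃ b : k, ∀ i, ev (c' i) x = b * y i := by
  by_contra hcon
  obtain ⟨N, hN⟩ : ∃ N, Fintype.card (Fin (n + 1) × Fin (n + 1)) = N + 1 :=
    Nat.exists_eq_succ_of_ne_zero Fintype.card_ne_zero
  let e : Fin (N + 1) ≃ Fin (n + 1) × Fin (n + 1) := (Fintype.equivFinOfCardEq hN).symm
  let t : Fin (N + 1) → Fin (D + 1) → MvPolynomial (Fin (n + 1) × Fin (D + 1)) k := fun m j =>
    MvPolynomial.C (y (e m).1) * MvPolynomial.X ((e m).2, j) -
      MvPolynomial.C (y (e m).2) * MvPolynomial.X ((e m).1, j)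
  let ψ : MvPolynomial (Fin (n + 1) × Fin (D + 1)) k →+* k :=
    MvPolynomial.eval₂Hom (RingHom.id k) fun q => c' q.1 q.2
  have hψ : ∀ m j, ψ (t m j) = y (e m).1 * c' (e m).2 j - y (e m).2 * c' (e m).1 j := by
    intro m j
    show ψ (MvPolynomial.C (y (e m).1) * MvPolynomial.X ((e m).2, j) -
      MvPolynomial.C (y (e m).2) * MvPolynomial.X ((e m).1, j)) = _
    rw [map_sub, map_mul, map_mul, MvPolynomial.coe_eval₂Hom, MvPolynomial.eval₂_C,
      MvPolynomial.eval₂_C, MvPolynomial.eval₂_X, MvPolynomial.eval₂_X]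
    rfl
  have hb : BPF (fun i j => ψ (t i j)) := by
    refine bpf_of_algClosed fun x hx => ?_
    by_contra h1
    have h2 : ∀ a b, y a * ev (c' b) x - y b * ev (c' a) x = 0 := by
      intro a b
      by_contra h3
      refine h1 ⟨e.symm (a, b), ?_⟩
      have h4 : (fun j => ψ (t (e.symm (a, b)) j)) = fun j => y a * c' b j - y b * c' a j := by
        funext j
        rw [hψ, Equiv.apply_symm_apply]
      rw [h4, G8_lin]
      exact h3
    obtain ⟨a₀, ha₀⟩ : ∃ a₀, y a₀ ≠ 0 := by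
      by_contra h3
      apply hy
      funext i
      by_contra h4
      exact h3 ⟨i, h4⟩
    refine hcon ⟨x, hx, ev (c' a₀) x / y a₀, fun i => ?_⟩
    have h3 := h2 a₀ i
    field_simp
    linear_combination h3
  obtain ⟨Δ, hΔ, hM⟩ := bpf_open t ψ hb
  have hI : Δ ∉ I := fun h1 => hΔ (hc' Δ h1)
  let φ' : k →+* GF F (Fin 2 × Fin 2) := (algebraMap F (GF F (Fin 2 × Fin 2))).comp φ
  let χ : MvPolynomial (Fin (n + 1) × Fin (D + 1)) k →+* GF F (Fin 2 × Fin 2) :=
    MvPolynomial.eval₂Hom φ' (gt c)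
  have hχ : χ Δ ≠ 0 := fun h1 => hI (hG Δ h1)
  have hχt : ∀ m j, χ (t m j) = φ' (y (e m).1) * gt c ((e m).2, j) -
      φ' (y (e m).2) * gt c ((e m).1, j) := by
    intro m j
    show χ (MvPolynomial.C (y (e m).1) * MvPolynomial.X ((e m).2, j) -
      MvPolynomial.C (y (e m).2) * MvPolynomial.X ((e m).1, j)) = _
    rw [map_sub, map_mul, map_mul, MvPolynomial.coe_eval₂Hom, MvPolynomial.eval₂_C,
      MvPolynomial.eval₂_C, MvPolynomial.eval₂_X, MvPolynomial.eval₂_X]
  have hB := hM (GF F (Fin 2 × Fin 2)) χ hχ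
  obtain ⟨ρ, hρ1, hρ2⟩ := G8_hom F A (Fin 2 × Fin 2)
  let iA : A →+* GF A (Fin 2 × Fin 2) := algebraMap A (GF A (Fin 2 × Fin 2))
  let x : Fin 2 → GF A (Fin 2 × Fin 2) := (gmat A).adjugate.mulVec fun i => iA (q i)
  have hgx : (gmat A).mulVec x = fun i => (gmat A).det * iA (q i) := by
    show (gmat A).mulVec ((gmat A).adjugate.mulVec fun i => iA (q i)) = _
    rw [Matrix.mulVec_mulVec, Matrix.mul_adjugate, Matrix.smul_mulVec, Matrix.one_mulVec]
    rfl
  have hx : x ≠ 0 := by
    intro h1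
    rw [h1, Matrix.mulVec_zero] at hgx
    apply hq
    funext i
    have h2 : (0 : GF A (Fin 2 × Fin 2)) = (gmat A).det * iA (q i) := congrFun hgx i
    exact (map_eq_zero iA).1 ((mul_eq_zero.1 h2.symm).resolve_left (G8_det A))
  have hgρ : (gmat F).map ρ = gmat A := by
    ext i j
    exact hρ1 (i, j)
  have hact : ∀ i, ev (fun j => ρ (gt c (i, j))) x =
      (gmat A).det ^ D * (iA a * iA (algebraMap F A (φ (y i)))) := by
    intro i
    have h1 : (fun j => ρ (gt c (i, j))) =
        act (gmat A) fun j => iA (algebraMap F A (c i j)) := by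
      funext j
      show ρ (act (gmat F) (fun j => algebraMap F (GF F (Fin 2 × Fin 2)) (c i j)) j) = _
      rw [act_map, hgρ]
      have h2 : (fun j => ρ (algebraMap F (GF F (Fin 2 × Fin 2)) (c i j))) =
          fun j => iA (algebraMap F A (c i j)) := by
        funext j
        exact hρ2 _
      rw [h2]
    rw [h1, ev_act, hgx, ev_scale, ← map_mul, ← h i]
    congr 1
    show ev (fun j => iA (algebraMap F A (c i j))) (fun i => iA (q i)) =
      iA (ev (fun j => algebraMap F A (c i j)) q)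
    rw [ev_map iA]
  obtain ⟨m, hm⟩ := hB (GF A (Fin 2 × Fin 2)) ρ x hx
  apply hm
  have h1 : (fun j => ρ (χ (t m j))) = fun j =>
      iA (algebraMap F A (φ (y (e m).1))) * ρ (gt c ((e m).2, j)) -
        iA (algebraMap F A (φ (y (e m).2))) * ρ (gt c ((e m).1, j)) := by
    funext j
    rw [hχt, map_sub, map_mul, map_mul]
    show ρ (algebraMap F (GF F (Fin 2 × Fin 2)) (φ (y (e m).1))) * _ -
      ρ (algebraMap F (GF F (Fin 2 × Fin 2)) (φ (y (e m).2))) * _ = _
    rw [hρ2, hρ2]
  rw [h1, G8_lin, hact, hact]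
  ring

end Pool.Agent.Lib.MP_1e3e9c_agU
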