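import Mathlib
import Pool.Agent.Lib.MP_1e3e9c_agU.Defs

/-!
# MP_1e3e9c_ag, project U, leaf C1: the mixed degree in any model

`XX_eq`: `GF F σ ≃ₐ[F] Ω` by `gc q ↦ C (e q)` (both are `F` of an algebraically independent
generating family, `Gn`; e.g. `AlgebraicIndependent.aevalEquivField` or
`IsFractionRing.ringEquivOfRingEquiv`), it maps the base fields onto each other
(`Subfield.map_closure`), and `finrank` is invariant.
`XX_perm`: `XX_eq` with `Ω = GF F _` and a permutation of the index set.
`XX_pr`: `gu` does not change if the points are multiplied by nonzero scalars.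
-/

set_option autoImplicit false

namespace Pool.Agent.Lib.MP_1e3e9c_agU

open IsLocalRing Pool.Agent.Lib.MP_b197b4_ntK

variable {F ι : Type} [Field F] [Fintype ι]

private theorem C1_fin {E E' : Type} [Field E] [Field E'] (Φ : E ≃+* E') (A : Subfield E)
    (A' : Subfield E') (h : A.map (Φ : E →+* E') = A') :
    Module.finrank A E = Module.finrank A' E' := by
  have h1 : ∀ x, x ∈ A ↔ Φ x ∈ A' := by
    intro x
    rw [← h, Subfield.mem_map]
    constructor
    · intro hx
      exact ⟨x, hx, rfl⟩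
    · rintro ⟨y, hy, hyx⟩
      have h2 : y = x := Φ.injective hyx
      rwa [← h2]
  let i : A ≃+* A' :=
    { toFun := fun x => ⟨Φ x, (h1 x).1 x.2⟩
      invFun := fun y => ⟨Φ.symm y, (h1 _).2 (by rw [Φ.apply_symm_apply]; exact y.2)⟩
      left_inv := fun x => Subtype.ext (Φ.symm_apply_apply x)
      right_inv := fun y => Subtype.ext (Φ.apply_symm_apply y)
      map_mul' := fun x y => Subtype.ext (map_mul Φ (x : E) y)
      map_add' := fun x y => Subtype.ext (map_add Φ (x : E) y) }
  exact Algebra.finrank_eq_of_equiv_equiv i Φ rfl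

private theorem C1_ai (F σ : Type) [Field F] : AlgebraicIndependent F (gc F σ) := by
  have h := MvPolynomial.algebraicIndependent_X σ F
  exact h.map' (f := IsScalarTower.toAlgHom F (MvPolynomial σ F) (GF F σ))
    (IsFractionRing.injective (MvPolynomial σ F) (GF F σ))

theorem gn_gc (F σ : Type) [Field F] : Gn F (gc F σ) := by
  refine ⟨C1_ai F σ, ?_⟩
  have hp : ∀ p : MvPolynomial σ F, algebraMap (MvPolynomial σ F) (GF F σ) p ∈
      IntermediateField.adjoin F (Set.range (gc F σ)) := by
    intro p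
    have h1 : algebraMap (MvPolynomial σ F) (GF F σ) p = MvPolynomial.aeval (gc F σ) p := by
      have h2 : MvPolynomial.aeval (gc F σ) =
          IsScalarTower.toAlgHom F (MvPolynomial σ F) (GF F σ) := by
        apply MvPolynomial.algHom_ext
        intro i
        rw [MvPolynomial.aeval_X]
        rfl
      rw [h2]
      rfl
    rw [h1]
    have h3 : MvPolynomial.aeval (gc F σ) p ∈ Algebra.adjoin F (Set.range (gc F σ)) := by
      rw [Algebra.adjoin_range_eq_range_aeval]
      exact ⟨p, rfl⟩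
    exact IntermediateField.algebra_adjoin_le_adjoin F _ h3
  rw [eq_top_iff]
  intro x _
  obtain ⟨a, b, hb, rfl⟩ := IsFractionRing.div_surjective (A := MvPolynomial σ F) x
  exact div_mem (hp a) (hp b)

/-- The isomorphism of the standard model with any other model. -/
private theorem C1_equiv {Ω σ : Type} [Field Ω] [Algebra F Ω] {C : σ → Ω} (hC : Gn F C) :
    ∃ Φ : GF F σ ≃ₐ[F] Ω, ∀ q, Φ (gc F σ q) = C q := by
  refine ⟨(hC.1.aevalEquivField.trans (IntermediateField.equivOfEq hC.2)).trans
    IntermediateField.topEquiv, fun q => ?_⟩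
  have h1 : ((hC.1.aevalEquivField (gc F σ q) : IntermediateField.adjoin F (Set.range C)) : Ω) =
      C q := by
    have h2 := hC.1.aevalEquivField_algebraMap_apply_coe (MvPolynomial.X q)
    rw [MvPolynomial.aeval_X] at h2
    exact h2
  exact h1

theorem XX_eq {Ω μ : Type} [Field Ω] [Algebra F Ω] (K : Subfield F) {C : μ × Bool × ι → Ω}
    (hC : Gn F C) (β : μ → ι → F) (l : List (ι → F)) (e : Fin l.length ≃ μ)
    (he : ∀ i, β (e i) = l.get i) : Module.finrank (cb K C β Set.univ) Ω = XX K l := by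
  obtain ⟨E, hE⟩ : ∃ E : (Fin l.length × Bool × ι) ≃ (μ × Bool × ι),
      ∀ i b j, E (i, b, j) = (e i, b, j) :=
    ⟨Equiv.prodCongr e (Equiv.refl _), fun _ _ _ => rfl⟩
  have hC' : Gn F (C ∘ E) := by
    refine ⟨hC.1.comp E E.injective, ?_⟩
    rw [E.surjective.range_comp]
    exact hC.2
  obtain ⟨Φ, hΦ⟩ := C1_equiv hC'
  have hΦF : ∀ a, Φ (algebraMap F _ a) = algebraMap F Ω a := Φ.commutes
  have hgu : ∀ i, Φ (gu (gc F (Fin l.length × Bool × ι)) l.get i) = gu C β (e i) := by
    intro i
    unfold gu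
    rw [map_div₀, map_sum, map_sum]
    simp only [map_mul, hΦ, hΦF, Function.comp_apply, hE, he]
  unfold XX
  refine (C1_fin Φ.toRingEquiv _ _ ?_).symm
  unfold cb
  rw [RingHom.map_field_closure]
  congr 1
  rw [Set.image_union, Set.image_union]
  congr 1
  · congr 1
    · ext y
      constructor
      · rintro ⟨_, ⟨a, ha, rfl⟩, rfl⟩
        exact ⟨a, ha, (hΦF a).symm⟩
      · rintro ⟨a, ha, rfl⟩
        exact ⟨_, ⟨a, ha, rfl⟩, hΦF a⟩
    · ext y
      constructor
      · rintro ⟨_, ⟨q, rfl⟩, rfl⟩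
        exact ⟨E q, (hΦ q).symm⟩
      · rintro ⟨q, rfl⟩
        refine ⟨_, ⟨E.symm q, rfl⟩, (hΦ _).trans ?_⟩
        rw [Function.comp_apply, E.apply_symm_apply]
  · ext y
    constructor
    · rintro ⟨_, ⟨i, -, rfl⟩, rfl⟩
      exact ⟨e i, trivial, (hgu i).symm⟩
    · rintro ⟨i, -, rfl⟩
      refine ⟨_, ⟨e.symm i, trivial, rfl⟩, (hgu _).trans ?_⟩
      rw [e.apply_symm_apply]

private theorem C1_perm {α : Type} {l l' : List α} (h : l.Perm l') :
    ∃ e : Fin l.length ≃ Fin l'.length, ∀ i, l'.get (e i) = l.get i := by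
  induction h with
  | nil => exact ⟨Equiv.refl _, fun _ => rfl⟩
  | cons x _ ih =>
    obtain ⟨e, he⟩ := ih
    refine ⟨(finSuccEquiv _).trans ((Equiv.optionCongr e).trans (finSuccEquiv _).symm), ?_⟩
    intro i
    refine Fin.cases ?_ (fun j => ?_) i
    · simp
    · simpa using he j
  | swap x y l =>
    refine ⟨Equiv.swap 0 1, ?_⟩
    intro i
    by_cases h0 : i = 0
    · subst h0
      rw [Equiv.swap_apply_left]
      rfl
    · by_cases h1 : i = 1
      · subst h1
        rw [Equiv.swap_apply_right]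
        rfl
      · rw [Equiv.swap_apply_of_ne_of_ne h0 h1]
        revert h0 h1
        refine Fin.cases (fun h _ => absurd rfl h) (fun j => ?_) i
        refine Fin.cases (fun _ h => absurd rfl h) (fun j _ _ => rfl) j
  | trans _ _ ih1 ih2 =>
    obtain ⟨e1, h1⟩ := ih1
    obtain ⟨e2, h2⟩ := ih2
    exact ⟨e1.trans e2, fun i => (h2 _).trans (h1 i)⟩

theorem XX_perm (K : Subfield F) {l l' : List (ι → F)} (h : l.Perm l') : XX K l = XX K l' := by
  obtain ⟨e, he⟩ := C1_perm h
  exact (XX_eq K (gn_gc F (Fin l'.length × Bool × ι)) l'.get l e he).symm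

theorem XX_pr (K : Subfield F) {l l' : List (ι → F)} (h : List.Forall₂ Pr l l') :
    XX K l = XX K l' := by
  have hlen : l.length = l'.length := h.length_eq
  obtain ⟨β, hβ⟩ : ∃ β : Fin l'.length → ι → F, ∀ i, β i = l.get (Fin.cast hlen.symm i) :=
    ⟨_, fun _ => rfl⟩
  have hpr : ∀ i, Pr (β i) (l'.get i) := by
    intro i
    rw [hβ]
    exact h.get (by rw [hlen]; exact i.2) i.2
  rw [← XX_eq K (gn_gc F (Fin l'.length × Bool × ι)) β l (finCongr hlen) (fun i => by
    rw [hβ]
    rfl)]
  unfold XX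
  have hgu : gu (gc F (Fin l'.length × Bool × ι)) β = gu (gc F (Fin l'.length × Bool × ι)) l'.get := by
    funext i
    obtain ⟨a, ha, hz⟩ := hpr i
    have hs : ∀ b, ∑ j, gc F (Fin l'.length × Bool × ι) (i, b, j) *
        algebraMap F (GF F (Fin l'.length × Bool × ι)) (l'.get i j) =
        algebraMap F (GF F (Fin l'.length × Bool × ι)) a *
        ∑ j, gc F (Fin l'.length × Bool × ι) (i, b, j) *
        algebraMap F (GF F (Fin l'.length × Bool × ι)) (β i j) := by
      intro b
      rw [Finset.mul_sum]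
      refine Finset.sum_congr rfl fun j _ => ?_
      rw [hz j, map_mul]
      ring
    unfold gu
    rw [hs, hs, mul_div_mul_left]
    exact (map_ne_zero _).2 ha
  have hcb : cb K (gc F (Fin l'.length × Bool × ι)) β Set.univ =
      cb K (gc F (Fin l'.length × Bool × ι)) l'.get Set.univ := by
    unfold cb
    rw [hgu]
  rw [hcb]

end Pool.Agent.Lib.MP_1e3e9c_agU
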