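import Mathlib
import Pool.Agent.Lib.MP_1e3e9c_agU.Defs

/-!
# MP_1e3e9c_ag, project U, leaf Vl: the functions `al` and `rd` of a discrete valuation ring

Elementary, with the API of `ord` and `res` in `MP_b197b4_ntK/Ord.lean`.
`al_prodform`: a product of linear forms with coefficients in `V` and nonzero reductions has nonzero
reduction (evaluate the reduction at a point of an infinite extension field, or use that forms over
the residue field have no zero divisors), scaled.
-/

set_option autoImplicit false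

namespace Pool.Agent.Lib.MP_1e3e9c_agU

open IsLocalRing Pool.Agent.Lib.MP_b197b4_ntK

variable {F : Type} [Field F] {ι : Type} [Fintype ι] {V : ValuationSubring F}

private theorem Vl_add_aux (hV : IsDiscreteValuationRing V) {x y : F} (hx : x ≠ 0) (hy : y ≠ 0)
    (h : x + y ≠ 0) (hle : ord V x ≤ ord V y) : ord V x ≤ ord V (x + y) := by
  have h1 : y / x ∈ V := by
    rw [← ord_nonneg_iff hV (div_ne_zero hy hx), ord_div hV hy hx]
    omega
  have h2 : x + y = x * (1 + y / x) := by
    field_simp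
  have h3 : 1 + y / x ≠ 0 := by
    intro h3
    rw [h2, h3, mul_zero] at h
    exact h rfl
  have h4 : 0 ≤ ord V (1 + y / x) := (ord_nonneg_iff hV h3).2 (add_mem (one_mem V) h1)
  rw [h2, ord_mul hV hx h3]
  omega

/-- `ord` of a sum. -/
theorem le_ord_add (hV : IsDiscreteValuationRing V) {x y : F} {a : ℤ} (hx : x ≠ 0 → a ≤ ord V x)
    (hy : y ≠ 0 → a ≤ ord V y) (h : x + y ≠ 0) : a ≤ ord V (x + y) := by
  rcases eq_or_ne x 0 with rfl | hx0
  · rw [zero_add] at h ⊢
    exact hy h
  rcases eq_or_ne y 0 with rfl | hy0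
  · rw [add_zero] at h ⊢
    exact hx h
  rcases le_total (ord V x) (ord V y) with hle | hle
  · exact (hx hx0).trans (Vl_add_aux hV hx0 hy0 h hle)
  · rw [add_comm] at h ⊢
    exact (hy hy0).trans (Vl_add_aux hV hy0 hx0 h hle)

theorem le_ord_sum (hV : IsDiscreteValuationRing V) {σ : Type} (s : Finset σ) (f : σ → F) {a : ℤ}
    (hf : ∀ i ∈ s, f i ≠ 0 → a ≤ ord V (f i)) (h : ∑ i ∈ s, f i ≠ 0) : a ≤ ord V (∑ i ∈ s, f i) := by
  classical
  induction s using Finset.induction_on with
  | empty => exact absurd Finset.sum_empty h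
  | insert i s hi ih =>
    rw [Finset.sum_insert hi] at h ⊢
    exact le_ord_add hV (hf i (Finset.mem_insert_self i s))
      (ih fun j hj => hf j (Finset.mem_insert_of_mem hj)) h

theorem al_le {z : ι → F} {j : ι} (h : z j ≠ 0) : al V z ≤ ord V (z j) := by
  classical
  unfold al
  have hj : j ∈ Finset.univ.filter fun j => z j ≠ 0 := Finset.mem_filter.2 ⟨Finset.mem_univ j, h⟩
  rw [dif_pos ⟨j, hj⟩]
  exact Finset.inf'_le _ hj

theorem exists_al {z : ι → F} (h : z ≠ 0) : ∃ j, z j ≠ 0 ∧ ord V (z j) = al V z := by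
  classical
  obtain ⟨i, hi⟩ : ∃ i, z i ≠ 0 := by
    by_contra hcon
    push Not at hcon
    exact h (funext hcon)
  have hne : (Finset.univ.filter fun j => z j ≠ 0).Nonempty :=
    ⟨i, Finset.mem_filter.2 ⟨Finset.mem_univ i, hi⟩⟩
  obtain ⟨j, hj, e⟩ := Finset.exists_mem_eq_inf' hne (fun j => ord V (z j))
  refine ⟨j, (Finset.mem_filter.1 hj).2, ?_⟩
  unfold al
  rw [dif_pos hne]
  exact e.symm

theorem le_al {z : ι → F} (h : z ≠ 0) {a : ℤ} (ha : ∀ j, z j ≠ 0 → a ≤ ord V (z j)) :
    a ≤ al V z := by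
  obtain ⟨j, hj, e⟩ := exists_al (V := V) h
  rw [← e]
  exact ha j hj

theorem al_smul (hV : IsDiscreteValuationRing V) {z : ι → F} (h : z ≠ 0) {a : F} (ha : a ≠ 0) :
    al V (fun j => a * z j) = ord V a + al V z := by
  obtain ⟨i, hi⟩ : ∃ i, z i ≠ 0 := by
    by_contra hcon
    push Not at hcon
    exact h (funext hcon)
  have haz : (fun j => a * z j) ≠ 0 := by
    intro h1
    exact mul_ne_zero ha hi (congrFun h1 i)
  apply le_antisymm
  · obtain ⟨j, hj, e⟩ := exists_al (V := V) h
    have h1 := al_le (V := V) (z := fun j => a * z j) (j := j) (mul_ne_zero ha hj)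
    rw [ord_mul hV ha hj, e] at h1
    exact h1
  · refine le_al haz fun j hj => ?_
    have hj' : z j ≠ 0 := right_ne_zero_of_mul hj
    rw [ord_mul hV ha hj']
    have h1 := al_le (V := V) hj'
    omega

theorem al_zero : al V (0 : ι → F) = 0 := by
  classical
  unfold al
  rw [dif_neg]
  rintro ⟨j, hj⟩
  exact (Finset.mem_filter.1 hj).2 rfl

/-- All `z j` in `V`, one of them with nonzero residue. -/
theorem al_eq_zero (hV : IsDiscreteValuationRing V) {z : ι → F} (h : ∀ j, z j ∈ V)
    (h' : ∃ j, res V (z j) ≠ 0) : al V z = 0 := by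
  obtain ⟨j, hj⟩ := h'
  have h1 : V.valuation (z j) = 1 := (res_ne_zero_iff (h j)).1 hj
  have h2 : z j ≠ 0 := by
    intro h3
    rw [h3, map_zero] at h1
    exact zero_ne_one h1
  have h3 : ord V (z j) = 0 := (ord_eq_zero_iff hV h2).2 h1
  have hz : z ≠ 0 := fun h4 => h2 (congrFun h4 j)
  apply le_antisymm
  · rw [← h3]
    exact al_le h2
  · exact le_al hz fun i hi => (ord_nonneg_iff hV hi).2 (h i)

/-- Scale a vector so that its reduction exists and is not zero. -/
theorem exists_prim (hV : IsDiscreteValuationRing V) {z : ι → F} (h : z ≠ 0) :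
    ∃ (a : F) (w : ι → F), a ≠ 0 ∧ (∀ j, z j = a * w j) ∧ (∀ j, w j ∈ V) ∧ (∃ j, res V (w j) ≠ 0) ∧
      al V z = ord V a := by
  obtain ⟨j, hj, e⟩ := exists_al (V := V) h
  refine ⟨z j, fun i => z i / z j, hj, fun i => ?_, fun i => ?_, ⟨j, ?_⟩, e.symm⟩
  · show z i = z j * (z i / z j)
    field_simp
  · show z i / z j ∈ V
    rcases eq_or_ne (z i) 0 with hi | hi
    · rw [hi, zero_div]
      exact zero_mem V
    · rw [← ord_nonneg_iff hV (div_ne_zero hi hj), ord_div hV hi hj, e]
      have := al_le (V := V) hi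
      omega
  · show res V (z j / z j) ≠ 0
    rw [div_self hj, res_one]
    exact one_ne_zero

/-- `rd V z` is the reduction of a multiple of `z`. -/
theorem rd_spec (hV : IsDiscreteValuationRing V) {z : ι → F} (h : z ≠ 0) :
    rd V z ≠ 0 ∧ ∃ a : F, a ≠ 0 ∧ ord V a = -al V z ∧ (∀ j, a * z j ∈ V) ∧
      ∀ j, rd V z j = res V (a * z j) := by
  classical
  have hex : ∃ j, z j ≠ 0 ∧ ord V (z j) = al V z := exists_al h
  have hrd : ∀ i, rd V z i = res V (z i / z hex.choose) := by
    intro i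
    unfold rd
    rw [dif_pos hex]
  obtain ⟨hj, e⟩ := hex.choose_spec
  obtain ⟨j, hjd⟩ : ∃ j, j = hex.choose := ⟨_, rfl⟩
  rw [← hjd] at hj e
  rw [← hjd] at hrd
  have hm : ∀ i, z i / z j ∈ V := by
    intro i
    rcases eq_or_ne (z i) 0 with hi | hi
    · rw [hi, zero_div]
      exact zero_mem V
    · rw [← ord_nonneg_iff hV (div_ne_zero hi hj), ord_div hV hi hj, e]
      have := al_le (V := V) hi
      omega
  have hdiv : ∀ i, (z j)⁻¹ * z i = z i / z j := fun i => by rw [mul_comm, div_eq_mul_inv]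
  refine ⟨?_, (z j)⁻¹, inv_ne_zero hj, ?_, fun i => ?_, fun i => ?_⟩
  · intro h0
    have h1 := congrFun h0 j
    rw [hrd, div_self hj, res_one] at h1
    exact one_ne_zero h1
  · rw [ord_inv hV hj, e]
  · rw [hdiv]
    exact hm i
  · rw [hdiv, hrd]

/-- Any reduction of a multiple of `z` is proportional to `rd V z`. -/
theorem rd_unique (hV : IsDiscreteValuationRing V) {z w : ι → F} {a : F} (ha : a ≠ 0)
    (hz : ∀ j, w j = a * z j) (hw : ∀ j, w j ∈ V) (hw' : ∃ j, res V (w j) ≠ 0) :
    Pr (rd V z) (fun j => res V (w j)) := by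
  obtain ⟨i, hi⟩ := hw'
  have hwi : w i ≠ 0 := by
    intro h0
    rw [h0, res_zero] at hi
    exact hi rfl
  have hz0 : z ≠ 0 := by
    intro h0
    apply hwi
    rw [hz, h0, Pi.zero_apply, mul_zero]
  obtain ⟨-, a', ha', hoa, hm, hr⟩ := rd_spec hV hz0
  have hal : al V w = 0 := al_eq_zero hV hw ⟨i, hi⟩
  have hw2 : w = fun j => a * z j := funext hz
  rw [hw2, al_smul hV hz0 ha] at hal
  have hc0 : a / a' ≠ 0 := div_ne_zero ha ha'
  have hc : ord V (a / a') = 0 := by
    rw [ord_div hV ha ha']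
    omega
  have hcv : V.valuation (a / a') = 1 := (ord_eq_zero_iff hV hc0).1 hc
  refine ⟨res V (a / a'), (res_ne_zero_iff (mem_of_val_one hcv)).2 hcv, fun j => ?_⟩
  show res V (w j) = res V (a / a') * rd V z j
  rw [hr, ← res_mul (mem_of_val_one hcv) (hm j), hz]
  congr 1
  field_simp

/-- The reduction of a product of primitive linear forms is not zero. -/
theorem prod_wd_ne {κ : Type} [Field κ] {D : ℕ} (c : Fin (D + 1) → κ) (p : Fin D → Fin 2 → κ)
    (e : κ) (he : e ≠ 0) (hp : ∀ l, p l ≠ 0)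
    (h : ∀ (M : Type) [Field M] (ψ : κ →+* M) (x : Fin 2 → M),
      ev (fun j => ψ (c j)) x = ψ e * ∏ l, wd (fun a => ψ (p l a)) x) : c ≠ 0 := by
  intro hc
  obtain ⟨x, hx⟩ : ∃ x : Fin 2 → FractionRing (Polynomial κ), x = ![1, algebraMap (Polynomial κ) _ Polynomial.X] :=
    ⟨_, rfl⟩
  have h1 := h (FractionRing (Polynomial κ))
    ((algebraMap (Polynomial κ) (FractionRing (Polynomial κ))).comp Polynomial.C) x
  have h2 : ev (fun j => ((algebraMap (Polynomial κ) (FractionRing (Polynomial κ))).comp Polynomial.C) (c j)) x = 0 := by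
    unfold ev
    refine Finset.sum_eq_zero fun j _ => ?_
    simp only [hc, Pi.zero_apply, map_zero, zero_mul]
  rw [h2] at h1
  have hinj : Function.Injective (algebraMap (Polynomial κ) (FractionRing (Polynomial κ))) :=
    IsFractionRing.injective _ _
  rcases mul_eq_zero.1 h1.symm with h3 | h3
  · exact he ((map_eq_zero _).1 h3)
  · obtain ⟨l, -, h4⟩ := Finset.prod_eq_zero_iff.1 h3
    apply hp l
    have h5 : algebraMap (Polynomial κ) (FractionRing (Polynomial κ))
        (Polynomial.C (p l 0) * Polynomial.X - Polynomial.C (p l 1)) = 0 := by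
      rw [← h4]
      unfold wd
      rw [hx]
      simp
    have h6 : Polynomial.C (p l 0) * Polynomial.X - Polynomial.C (p l 1) = 0 :=
      hinj (by rw [h5, map_zero])
    have h7 := congrArg (fun q => Polynomial.coeff q 1) h6
    have h8 := congrArg (fun q => Polynomial.coeff q 0) h6
    simp only [Polynomial.coeff_sub, Polynomial.coeff_C_mul, Polynomial.coeff_X_one, mul_one,
      Polynomial.coeff_zero, Polynomial.coeff_C, one_ne_zero, if_false, sub_zero] at h7
    simp only [Polynomial.coeff_sub, Polynomial.coeff_C_mul, Polynomial.coeff_X_zero, mul_zero,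
      Polynomial.coeff_zero, Polynomial.coeff_C, if_true, zero_sub, neg_eq_zero] at h8
    funext i
    fin_cases i
    · exact h7
    · exact h8

theorem Pr.symm {F : Type} [Field F] {ι : Type} {z z' : ι → F} (h : Pr z z') : Pr z' z := by
  obtain ⟨a, ha, e⟩ := h
  refine ⟨a⁻¹, inv_ne_zero ha, fun j => ?_⟩
  rw [e, inv_mul_cancel_left₀ ha]

theorem Pr.trans {F : Type} [Field F] {ι : Type} {z z' z'' : ι → F} (h : Pr z z')
    (h' : Pr z' z'') : Pr z z'' := by
  obtain ⟨a, ha, e⟩ := h
  obtain ⟨b, hb, e'⟩ := h'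
  refine ⟨b * a, mul_ne_zero hb ha, fun j => ?_⟩
  rw [e', e, mul_assoc]

theorem Pr.refl {F : Type} [Field F] {ι : Type} (z : ι → F) : Pr z z := by
  exact ⟨1, one_ne_zero, fun j => (one_mul _).symm⟩

end Pool.Agent.Lib.MP_1e3e9c_agU
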