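import Mathlib
import Pool.Agent.Lib.MP_1e3e9c_agU.Vl

/-!
# MP_1e3e9c_ag, project U, leaf B1: the degree of the divisor of zeros of a function

`F` is a function field of one variable over `K` (characteristic `0`), `x` not algebraic over `K`.
Then `F` is finite over `K(x)`. Let `R` be the localisation of `K[x]` at `(x)` (a discrete valuation
ring with field of fractions `K(x)`, for example as valuation subring or subring of `F`, or
`Localization.AtPrime` of `K[X]`), `S` its integral closure in `F`: a Dedekind domain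
(`integralClosure.isDedekindDomain`), finite over `R`. By `Ideal.sum_ramification_inertia`
`∑_P e_P f_P = [F : K(x)]`, over the maximal ideals `P` of `S`. The localisations `S_P` are exactly the
`V` with `Dv K V` and `ord V x > 0` (`V` contains `K[x]` and so `R`, and so `S`; `V ∩ S` is a
maximal ideal `P` and `S_P ⊆ V` are both discrete valuation rings of `F`), `ord V x = e_P`, and the
residue field of `V` is `S/P`, `f_P = [S/P : K]`, the image of `K` being `R/(x)`.
-/

set_option autoImplicit false
set_option linter.unusedSectionVars false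

namespace Pool.Agent.Lib.MP_1e3e9c_agU

open IsLocalRing Pool.Agent.Lib.MP_b197b4_ntK IsDedekindDomain

section Gen

variable {S F : Type} [CommRing S] [IsDedekindDomain S] [Field F] [Algebra S F] [IsFractionRing S F]

private theorem B1_dvr (P : HeightOneSpectrum S) :
    IsDiscreteValuationRing (P.valuationSubringAtPrime F) :=
  IsLocalization.AtPrime.isDiscreteValuationRing_of_dedekind_domain S P.ne_bot _

private theorem B1_mem (P : HeightOneSpectrum S) (y : F) :
    y ∈ P.valuationSubringAtPrime F ↔ P.valuation F y ≤ 1 := by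
  rw [HeightOneSpectrum.valuationSubringAtPrime_eq_valuationSubring]
  exact Valuation.mem_valuationSubring_iff _ _

private theorem B1_memS (P : HeightOneSpectrum S) (s : S) :
    algebraMap S F s ∈ P.valuationSubringAtPrime F := by
  rw [B1_mem]
  exact P.valuation_le_one s

/-- The valuation of `P` in terms of the order. -/
private theorem B1_val (P : HeightOneSpectrum S) {y : F} (hy : y ≠ 0) :
    P.valuation F y = WithZero.exp (-(ord (P.valuationSubringAtPrime F) y)) := by
  have hV := B1_dvr (F := F) P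
  obtain ⟨π, hπ⟩ := IsDiscreteValuationRing.exists_irreducible (P.valuationSubringAtPrime F)
  have hu : ∀ u : (P.valuationSubringAtPrime F)ˣ,
      P.valuation F ((u : P.valuationSubringAtPrime F) : F) = 1 := by
    intro u
    have h1 := (B1_mem P _).1 (u : P.valuationSubringAtPrime F).2
    have h2 := (B1_mem P _).1 ((u⁻¹ : (P.valuationSubringAtPrime F)ˣ) : P.valuationSubringAtPrime F).2
    have h3 := unit_coe_mul_inv u
    have h4 := congrArg (P.valuation F) h3
    rw [map_mul, map_one] at h4
    refine le_antisymm h1 ?_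
    rw [← h4]
    exact mul_le_of_le_one_right' h2
  have key : ∀ z : F, z ≠ 0 → P.valuation F z =
      P.valuation F (π : F) ^ (ord (P.valuationSubringAtPrime F) z) := by
    intro z hz
    obtain ⟨u, h⟩ := exists_unit_of_ord hV hπ hz
    conv_lhs => rw [h]
    rw [map_mul, map_zpow₀, hu, mul_one]
  have hπ0 : (π : F) ≠ 0 := fun h => hπ.ne_zero (Subtype.ext h)
  have hg0 : P.valuation F (π : F) ≠ 0 := (Valuation.ne_zero_iff _).2 hπ0
  obtain ⟨c, hc⟩ : ∃ c : ℤ, P.valuation F (π : F) = WithZero.exp c :=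
    ⟨WithZero.log (P.valuation F (π : F)), (WithZero.exp_log hg0).symm⟩
  have hc0 : c ≤ 0 := by
    have h1 := (B1_mem P _).1 π.2
    rw [hc, ← WithZero.exp_zero, WithZero.exp_le_exp] at h1
    exact h1
  obtain ⟨w, hw⟩ := P.valuation_exists_uniformizer F
  have hw0 : w ≠ 0 := by
    rintro rfl
    rw [map_zero] at hw
    exact WithZero.exp_ne_zero hw.symm
  have h1 := key w hw0
  rw [hw, hc, ← WithZero.exp_zsmul, WithZero.exp_inj, smul_eq_mul] at h1
  have hc1 : c = -1 := by
    have h2 : IsUnit c := IsUnit.of_mul_eq_one (-(ord (P.valuationSubringAtPrime F) w)) (by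
      linarith [mul_comm c (ord (P.valuationSubringAtPrime F) w)])
    rcases Int.isUnit_iff.1 h2 with h | h
    · omega
    · exact h
  rw [key y hy, hc, hc1, ← WithZero.exp_zsmul, smul_eq_mul]
  congr 1
  ring

private theorem B1_ord_pos (P : HeightOneSpectrum S) {s : S} (hs : s ≠ 0) :
    0 < ord (P.valuationSubringAtPrime F) (algebraMap S F s) ↔ s ∈ P.asIdeal := by
  have h0 : algebraMap S F s ≠ 0 := (map_ne_zero_iff _ (IsFractionRing.injective S F)).2 hs
  rw [← HeightOneSpectrum.valuation_lt_one_iff_mem (K := F), B1_val P h0, ← WithZero.exp_zero,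
    WithZero.exp_lt_exp]
  omega

/-- A discrete valuation ring which contains `S` and is centred at `P` is the local ring at `P`. -/
private theorem B1_eq (P : HeightOneSpectrum S) {V : ValuationSubring F}
    (hV : IsDiscreteValuationRing V) (hS : ∀ s : S, algebraMap S F s ∈ V)
    (hP : ∀ s : S, s ∉ P.asIdeal → V.valuation (algebraMap S F s) = 1) :
    P.valuationSubringAtPrime F = V := by
  refine ValuationSubring.eq_of_le_of_ne_top (A := P.valuationSubringAtPrime F) ?_ ?_
  · rintro y ⟨a, s, hs, rfl⟩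
    have h1 : V.valuation (algebraMap S F s) = 1 := hP s hs
    refine V.mul_mem _ _ (hS a) ?_
    rw [← ValuationSubring.valuation_le_one_iff, map_inv₀, h1, inv_one]
  · rintro rfl
    obtain ⟨π, hπ⟩ := IsDiscreteValuationRing.exists_irreducible (⊤ : ValuationSubring F)
    apply hπ.not_isUnit
    have h0 : (π : F) ≠ 0 := fun h => hπ.ne_zero (Subtype.ext h)
    exact IsUnit.of_mul_eq_one ⟨(π : F)⁻¹, ValuationSubring.mem_top _⟩ (Subtype.ext (mul_inv_cancel₀ h0))

/-- The ring homomorphism to a valuation ring. -/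
private def B1_hom {A : Type} [CommRing A] [Algebra A F] (V : ValuationSubring F)
    (h : ∀ a : A, algebraMap A F a ∈ V) : A →+* V :=
  (algebraMap A F).codRestrict V.toSubring h

private theorem B1_hom_coe {A : Type} [CommRing A] [Algebra A F] (V : ValuationSubring F)
    (h : ∀ a : A, algebraMap A F a ∈ V) (a : A) : ((B1_hom V h a : V) : F) = algebraMap A F a := rfl

private theorem B1_res {A : Type} [CommRing A] [Algebra A F] (V : ValuationSubring F)
    (h : ∀ a : A, algebraMap A F a ∈ V) (a : A) :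
    residue V (B1_hom V h a) = res V (algebraMap A F a) := by
  rw [res_of_mem (h a)]
  rfl

/-- The residue field of the local ring at `P`. -/
private theorem B1_equiv (P : HeightOneSpectrum S) :
    ∃ j : S ⧸ P.asIdeal ≃+* ResidueField (P.valuationSubringAtPrime F),
      ∀ s : S, j (Ideal.Quotient.mk _ s) = res (P.valuationSubringAtPrime F) (algebraMap S F s) := by
  have : P.asIdeal.IsMaximal := P.isMaximal
  refine ⟨IsLocalization.AtPrime.equivQuotMaximalIdeal P.asIdeal (P.valuationSubringAtPrime F), ?_⟩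
  intro s
  rw [res_of_mem (B1_memS P s)]
  rfl

variable {R : Type} [CommRing R] [Algebra R S] [Algebra R F] [IsScalarTower R S F]
  {K : Subfield F}

/-- The degree of the local ring at `P` is the inertia degree. -/
private theorem B1_deg {x : R} (hp : (Ideal.span {x}).IsMaximal)
    (hK : ∀ a ∈ K, ∃ r : R, algebraMap R F r = a)
    (hR : ∀ r : R, ∃ ra r' : R, algebraMap R F ra ∈ K ∧ r = ra + x * r')
    (P : HeightOneSpectrum S) [hl : P.asIdeal.LiesOver (Ideal.span {x})] :
    deg K (P.valuationSubringAtPrime F) = Ideal.inertiaDeg' (Ideal.span {x}) P.asIdeal := by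
  obtain ⟨V, hVe⟩ : ∃ V, V = P.valuationSubringAtPrime F := ⟨_, rfl⟩
  have hmS : ∀ s : S, algebraMap S F s ∈ V := by
    rw [hVe]
    exact B1_memS P
  have hmR : ∀ r : R, algebraMap R F r ∈ V := by
    intro r
    rw [IsScalarTower.algebraMap_apply R S F]
    exact hmS _
  obtain ⟨j, hj⟩ : ∃ j : S ⧸ P.asIdeal ≃+* ResidueField V,
      ∀ s : S, j (Ideal.Quotient.mk _ s) = res V (algebraMap S F s) := by
    rw [hVe]
    exact B1_equiv P
  rw [← hVe]
  -- the residue of the field of constants
  obtain ⟨f, hf⟩ : ∃ f : R →+* ResidueField V, ∀ r, f r = res V (algebraMap R F r) :=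
    ⟨(residue V).comp (B1_hom V hmR), fun r => B1_res V hmR r⟩
  have hx : algebraMap R S x ∈ P.asIdeal := by
    have h1 : x ∈ Ideal.span {x} := Ideal.mem_span_singleton_self x
    rw [hl.over] at h1
    exact h1
  have hfx : f x = 0 := by
    rw [hf, IsScalarTower.algebraMap_apply R S F, ← hj, Ideal.Quotient.eq_zero_iff_mem.2 hx, map_zero]
  have hres : ∀ c ∈ resS K V, ∃ a ∈ K, c = res V a := by
    intro c hc
    obtain ⟨g, hg⟩ : ∃ g : K →+* ResidueField V, ∀ a : K, g a = res V (a : F) := by
      have h1 : ∀ a : K, algebraMap K F a ∈ V := by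
        intro a
        obtain ⟨r, hr⟩ := hK a a.2
        show (a : F) ∈ V
        rw [← hr]
        exact hmR r
      exact ⟨(residue V).comp (B1_hom V h1), fun a => B1_res V h1 a⟩
    have h2 : resS K V ≤ g.fieldRange := by
      unfold resS
      rw [Subfield.closure_le]
      rintro _ ⟨a, ha, rfl⟩
      exact ⟨⟨a, ha⟩, hg ⟨a, ha⟩⟩
    obtain ⟨a, ha⟩ := h2 hc
    exact ⟨a, a.2, by rw [← hg, ha]⟩
  have hfm : ∀ r, f r ∈ resS K V := by
    intro r
    obtain ⟨ra, r', h1, h2⟩ := hR r
    rw [h2, map_add, map_mul, hfx, zero_mul, add_zero, hf]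
    exact Subfield.subset_closure ⟨_, h1, rfl⟩
  obtain ⟨f', hf'⟩ : ∃ f' : R →+* resS K V, ∀ r, ((f' r : resS K V) : ResidueField V) = f r :=
    ⟨f.codRestrict (resS K V).toSubring hfm, fun r => rfl⟩
  have hker : ∀ r ∈ Ideal.span {x}, f' r = 0 := by
    intro r hr
    obtain ⟨r', rfl⟩ := Ideal.mem_span_singleton'.1 hr
    apply Subtype.ext
    rw [hf', map_mul, hfx, mul_zero]
    rfl
  have hbij : Function.Bijective (Ideal.Quotient.lift (Ideal.span {x}) f' hker) := by
    constructor
    · let _ := Ideal.Quotient.field (Ideal.span {x})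
      exact RingHom.injective _
    · intro c
      obtain ⟨a, ha, hc⟩ := hres c c.2
      obtain ⟨r, hr⟩ := hK a ha
      refine ⟨Ideal.Quotient.mk _ r, Subtype.ext ?_⟩
      rw [Ideal.Quotient.lift_mk, hf', hf, hr, hc]
  rw [Ideal.inertiaDeg'_algebraMap]
  unfold deg
  refine (Algebra.finrank_eq_of_equiv_equiv (RingEquiv.ofBijective _ hbij) j ?_).symm
  refine Ideal.Quotient.ringHom_ext (RingHom.ext fun r => ?_)
  show ((f' r : resS K V) : ResidueField V) = j (Ideal.Quotient.mk _ (algebraMap R S r))
  rw [hf', hf, hj, ← IsScalarTower.algebraMap_apply R S F]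

private theorem B1_ram {x : R} (hx0 : algebraMap R S x ≠ 0) (P : HeightOneSpectrum S)
    [hl : P.asIdeal.LiesOver (Ideal.span {x})] :
    (Ideal.ramificationIdx' (Ideal.span {x}) P.asIdeal : ℤ) =
      ord (P.valuationSubringAtPrime F) (algebraMap R F x) := by
  have hx : algebraMap R S x ∈ P.asIdeal := by
    have h1 : x ∈ Ideal.span {x} := Ideal.mem_span_singleton_self x
    rw [hl.over] at h1
    exact h1
  have h0 := (B1_ord_pos (F := F) P hx0).2 hx
  rw [IsScalarTower.algebraMap_apply R S F]
  obtain ⟨n, hn⟩ : ∃ n : ℕ, ord (P.valuationSubringAtPrime F) (algebraMap S F (algebraMap R S x)) = n :=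
    ⟨_, (Int.toNat_of_nonneg h0.le).symm⟩
  have h1 : P.intValuation (algebraMap R S x) = WithZero.exp (-(n : ℤ)) := by
    rw [← HeightOneSpectrum.valuation_of_algebraMap (K := F), B1_val P
      ((map_ne_zero_iff _ (IsFractionRing.injective S F)).2 hx0), hn]
  rw [hn, Ideal.ramificationIdx'_spec (n := n)]
  · rw [Ideal.map_span, Set.image_singleton, Ideal.span_singleton_le_iff_mem,
      ← HeightOneSpectrum.intValuation_le_pow_iff_mem, h1]
  · rw [Ideal.map_span, Set.image_singleton, Ideal.span_singleton_le_iff_mem,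
      ← HeightOneSpectrum.intValuation_le_pow_iff_mem, h1, WithZero.exp_le_exp]
    push_cast
    omega

set_option linter.deprecated false in
private theorem B1_sum (K' : Type) [Field K'] [Algebra R K'] [IsFractionRing R K'] [Algebra K' F]
    [IsScalarTower R K' F] [IsDedekindDomain R] [Module.Finite R S] {x : R} (hx0 : x ≠ 0)
    (hp : (Ideal.span {x}).IsMaximal) (hK : ∀ a ∈ K, ∃ r : R, algebraMap R F r = a)
    (hR : ∀ r : R, ∃ ra r' : R, algebraMap R F ra ∈ K ∧ r = ra + x * r')
    (hcl : ∀ V : ValuationSubring F, (∀ r : R, algebraMap R F r ∈ V) → ∀ s : S, algebraMap S F s ∈ V)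
    (hRV : ∀ V : ValuationSubring F, (∀ a ∈ K, a ∈ V) → algebraMap R F x ∈ V →
      ∀ r : R, algebraMap R F r ∈ V) :
    ({V : ValuationSubring F | Dv K V ∧ 0 < ord V (algebraMap R F x)}.Finite ∧
      ∑ᶠ (V : ValuationSubring F) (_ : Dv K V ∧ 0 < ord V (algebraMap R F x)),
        (deg K V : ℤ) * ord V (algebraMap R F x) = Module.finrank K' F) ∧
      ∀ V : ValuationSubring F, Dv K V → 0 < ord V (algebraMap R F x) → 0 < deg K V := by
  classical
  have hfs : FaithfulSMul R S := FaithfulSMul.of_field_isFractionRing R S K' F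
  have hp0 : (Ideal.span {x} : Ideal R) ≠ ⊥ := by
    rwa [Ne, Ideal.span_singleton_eq_bot]
  have hxS : algebraMap R S x ≠ 0 :=
    (map_ne_zero_iff _ (FaithfulSMul.algebraMap_injective R S)).2 hx0
  have hxF : algebraMap R F x ≠ 0 := by
    rw [IsScalarTower.algebraMap_apply R S F]
    exact (map_ne_zero_iff _ (IsFractionRing.injective S F)).2 hxS
  have hT : ∀ P : Ideal S, P ∈ IsDedekindDomain.primesOverFinset (Ideal.span {x}) S ↔
      P.IsPrime ∧ P.LiesOver (Ideal.span {x}) := fun P => IsDedekindDomain.mem_primesOverFinset_iff hp0 _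
  obtain ⟨Q, hQ⟩ : ∃ Q : IsDedekindDomain.primesOverFinset (Ideal.span {x}) S → HeightOneSpectrum S,
      ∀ P, (Q P).asIdeal = P.1 := by
    refine ⟨fun P => ⟨P.1, ((hT P.1).1 P.2).1, ?_⟩, fun P => rfl⟩
    intro h
    have h1 := ((hT P.1).1 P.2).2.over
    have h2 : algebraMap R S x ∈ P.1 := by
      have h3 : x ∈ Ideal.span {x} := Ideal.mem_span_singleton_self x
      rw [h1] at h3
      exact h3
    rw [h] at h2
    exact hxS h2
  have hQl : ∀ P, (Q P).asIdeal.LiesOver (Ideal.span {x}) := by
    intro P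
    rw [hQ]
    exact ((hT P.1).1 P.2).2
  obtain ⟨Φ, hΦ⟩ : ∃ Φ : IsDedekindDomain.primesOverFinset (Ideal.span {x}) S → ValuationSubring F,
      ∀ P, Φ P = (Q P).valuationSubringAtPrime F := ⟨_, fun P => rfl⟩
  have hinj : Function.Injective Φ := by
    intro P P' h
    apply Subtype.ext
    rw [hΦ, hΦ] at h
    ext s
    by_cases hs : s = 0
    · rw [hs]
      exact iff_of_true (zero_mem _) (zero_mem _)
    · rw [← hQ, ← hQ, ← B1_ord_pos (F := F) (Q P) hs, ← B1_ord_pos (F := F) (Q P') hs, h]
  have hrange : ∀ V : ValuationSubring F,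
      (Dv K V ∧ 0 < ord V (algebraMap R F x)) ↔ V ∈ Set.range Φ := by
    intro V
    constructor
    · rintro ⟨⟨hV, hKV⟩, h0⟩
      have hmR := hRV V hKV ((ord_nonneg_iff hV hxF).1 h0.le)
      have hmS := hcl V hmR
      obtain ⟨P, hP⟩ : ∃ P, P = (maximalIdeal V).comap (B1_hom V hmS) := ⟨_, rfl⟩
      have hPm : ∀ s : S, s ∈ P ↔ V.valuation (algebraMap S F s) < 1 := by
        intro s
        rw [hP, Ideal.mem_comap]
        exact ValuationSubring.valuation_lt_one_iff V (B1_hom V hmS s)
      have hPp : P.IsPrime := by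
        rw [hP]
        exact Ideal.comap_isPrime _ _
      have hxP : algebraMap R S x ∈ P := by
        rw [hPm, ← IsScalarTower.algebraMap_apply R S F]
        exact (ord_pos_iff hV hxF).1 h0
      have hover : Ideal.span {x} = P.comap (algebraMap R S) := by
        refine hp.eq_of_le (Ideal.comap_isPrime _ _).ne_top ?_
        rw [Ideal.span_singleton_le_iff_mem, Ideal.mem_comap]
        exact hxP
      have hmem : P ∈ IsDedekindDomain.primesOverFinset (Ideal.span {x}) S := (hT P).2 ⟨hPp, ⟨hover⟩⟩
      refine ⟨⟨P, hmem⟩, ?_⟩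
      rw [hΦ]
      refine B1_eq _ hV hmS fun s hs => ?_
      rw [hQ] at hs
      have h1 := (ValuationSubring.valuation_le_one_iff V _).2 (hmS s)
      exact le_antisymm h1 (not_lt.1 fun h => hs ((hPm s).2 h))
    · rintro ⟨P, rfl⟩
      rw [hΦ]
      refine ⟨⟨B1_dvr _, fun a ha => ?_⟩, ?_⟩
      · obtain ⟨r, rfl⟩ := hK a ha
        rw [IsScalarTower.algebraMap_apply R S F]
        exact B1_memS _ _
      · have h1 := (hQl P).over
        have h2 : algebraMap R S x ∈ (Q P).asIdeal := by
          have h3 : x ∈ Ideal.span {x} := Ideal.mem_span_singleton_self x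
          rw [h1] at h3
          exact h3
        rw [IsScalarTower.algebraMap_apply R S F]
        exact (B1_ord_pos (F := F) (Q P) hxS).2 h2
  have hset : {V : ValuationSubring F | Dv K V ∧ 0 < ord V (algebraMap R F x)} = Set.range Φ :=
    Set.ext hrange
  have hdeg : ∀ P, deg K (Φ P) = Ideal.inertiaDeg' (Ideal.span {x}) P.1 := by
    intro P
    have := hQl P
    rw [hΦ, B1_deg hp hK hR (Q P), hQ]
  have hram : ∀ P, ord (Φ P) (algebraMap R F x) = (Ideal.ramificationIdx' (Ideal.span {x}) P.1 : ℤ) := by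
    intro P
    have := hQl P
    rw [hΦ, ← B1_ram hxS (Q P), hQ]
  refine ⟨⟨?_, ?_⟩, ?_⟩
  · rw [hset]
    exact Set.finite_range Φ
  · simp only [hrange]
    rw [finsum_mem_range hinj, finsum_eq_sum_of_fintype, ← Ideal.sum_ramification_inertia S K' F hp0,
      ← Finset.sum_coe_sort (IsDedekindDomain.primesOverFinset (Ideal.span {x}) S), Nat.cast_sum]
    refine Finset.sum_congr rfl fun P _ => ?_
    rw [hdeg, hram, Nat.cast_mul, mul_comm]
  · intro V hV h0
    obtain ⟨P, rfl⟩ := (hrange V).1 ⟨hV, h0⟩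
    have := ((hT P.1).1 P.2).2
    rw [hdeg]
    exact Ideal.inertiaDeg'_pos _ _

end Gen

section Main

variable {F : Type} [Field F] {K : Subfield F}

private theorem B1_closed {R : Type} [CommRing R] [Algebra R F] {S : Subalgebra R F}
    (hS : ∀ s ∈ S, IsIntegral R s) (V : ValuationSubring F) (hR : ∀ r : R, algebraMap R F r ∈ V)
    (s : S) : algebraMap S F s ∈ V := by
  have h1 : IsIntegral R (s : F) := hS s s.2
  have h2 : ((algebraMap V F).comp (B1_hom V hR)).IsIntegralElem (s : F) := h1
  have h3 : IsIntegral V (s : F) := h2.of_comp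
  obtain ⟨y, hy⟩ := IsIntegrallyClosed.isIntegral_iff.1 h3
  show (s : F) ∈ V
  rw [← hy]
  exact y.2

private theorem B1_adjoin {x : F} (r : F) (hr : r ∈ Algebra.adjoin K {x}) :
    ∃ a ∈ K, ∃ r' ∈ Algebra.adjoin K {x}, r = a + x * r' := by
  have hx : x ∈ Algebra.adjoin K {x} := Algebra.subset_adjoin (Set.mem_singleton x)
  have hKm : ∀ a ∈ K, a ∈ Algebra.adjoin K {x} := fun a ha =>
    (Algebra.adjoin K {x}).algebraMap_mem ⟨a, ha⟩
  induction hr using Algebra.adjoin_induction with
  | mem y hy =>
    rw [Set.mem_singleton_iff] at hy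
    exact ⟨0, K.zero_mem, 1, Subalgebra.one_mem _, by rw [hy]; ring⟩
  | algebraMap a => exact ⟨a, a.2, 0, Subalgebra.zero_mem _, by rw [mul_zero, add_zero]; rfl⟩
  | add u v _ _ hu hv =>
    obtain ⟨a, ha, r, hr, hu⟩ := hu
    obtain ⟨b, hb, t, ht, hv⟩ := hv
    exact ⟨a + b, K.add_mem ha hb, r + t, Subalgebra.add_mem _ hr ht, by rw [hu, hv]; ring⟩
  | mul u v hum hvm hu hv =>
    obtain ⟨a, ha, r, hr, hu⟩ := hu
    obtain ⟨b, hb, t, ht, hv⟩ := hv
    refine ⟨a * b, K.mul_mem ha hb, a * t + r * v, ?_, by rw [hu]; rw [hv]; ring⟩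
    exact Subalgebra.add_mem _ (Subalgebra.mul_mem _ (hKm a ha) ht) (Subalgebra.mul_mem _ hr hvm)

private theorem B1_maximal {x : F} (hx : ¬ IsAlgebraic K x) :
    (Ideal.span {(⟨x, Algebra.subset_adjoin (Set.mem_singleton x)⟩ : Algebra.adjoin K {x})}).IsMaximal := by
  obtain ⟨X, hX⟩ : ∃ X : Algebra.adjoin K {x}, X = ⟨x, Algebra.subset_adjoin (Set.mem_singleton x)⟩ :=
    ⟨_, rfl⟩
  have hXx : (X : F) = x := by rw [hX]
  rw [← hX, Ideal.isMaximal_iff]
  constructor
  · intro h
    obtain ⟨r, hr⟩ := Ideal.mem_span_singleton'.1 h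
    obtain ⟨r0, hr0⟩ : ∃ r0 : F, r0 = r := ⟨_, rfl⟩
    have h1 : r0 * x = 1 := by
      have h2 := congrArg Subtype.val hr
      rw [hX] at h2
      rw [hr0]
      exact h2
    have h2 : r0 ∈ Algebra.adjoin K {x} := by
      rw [hr0]
      exact r.2
    rw [Algebra.adjoin_singleton_eq_range_aeval] at h2
    obtain ⟨q, hq⟩ := h2
    apply hx
    refine ⟨q * Polynomial.X - 1, ?_, ?_⟩
    · intro h3
      have h4 := congrArg (Polynomial.eval 0) h3
      simp at h4
    · rw [map_sub, map_mul, Polynomial.aeval_X, map_one]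
      have h3 : Polynomial.aeval x q = r0 := hq
      rw [h3, h1, sub_self]
  · intro J r hJ hr hrJ
    obtain ⟨a, ha, r', hr', h⟩ := B1_adjoin (r : F) r.2
    have hXJ : X ∈ J := hJ (Ideal.mem_span_singleton_self X)
    obtain ⟨A, hA⟩ : ∃ A : Algebra.adjoin K {x}, (A : F) = a :=
      ⟨⟨a, (Algebra.adjoin K {x}).algebraMap_mem ⟨a, ha⟩⟩, rfl⟩
    obtain ⟨B, hB⟩ : ∃ B : Algebra.adjoin K {x}, (B : F) = a⁻¹ :=
      ⟨⟨a⁻¹, (Algebra.adjoin K {x}).algebraMap_mem ⟨a⁻¹, K.inv_mem ha⟩⟩, rfl⟩
    have h1 : r = A + ⟨r', hr'⟩ * X := by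
      apply Subtype.ext
      show (r : F) = (A : F) + r' * (X : F)
      rw [h, hA, hXx, mul_comm x]
    have ha0 : a ≠ 0 := by
      rintro rfl
      apply hr
      rw [h1]
      have h2 : A = 0 := Subtype.ext hA
      rw [h2, zero_add]
      exact Ideal.mul_mem_left _ _ (Ideal.mem_span_singleton_self X)
    have h2 : (1 : Algebra.adjoin K {x}) = B * r - B * ⟨r', hr'⟩ * X := by
      have h3 : (1 : Algebra.adjoin K {x}) = B * A := by
        apply Subtype.ext
        show (1 : F) = (B : F) * (A : F)
        rw [hA, hB, inv_mul_cancel₀ ha0]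
      rw [h1, h3]
      ring
    rw [h2]
    exact J.sub_mem (J.mul_mem_left _ hrJ) (J.mul_mem_left _ hXJ)

end Main

variable {F : Type} [Field F] [CharZero F] {K : Subfield F}

theorem finite_adjoin (hF : FF K 1) {x : F} (hx : ¬ IsAlgebraic K x) :
    FiniteDimensional (IntermediateField.adjoin K {x}) F := by
  obtain ⟨⟨s, hs⟩, htr⟩ := hF
  have hind : AlgebraicIndependent K (fun _ : Unit => x) := by
    rw [algebraicIndependent_unique_type_iff]
    exact hx
  have hbas : IsTranscendenceBasis K (fun _ : Unit => x) := by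
    refine hind.isTranscendenceBasis_of_trdeg_le_of_finite ?_
    rw [htr]
    simp
  have halg := hbas.isAlgebraic_field
  rw [Set.range_const] at halg
  have h3 : IntermediateField.adjoin (IntermediateField.adjoin K {x}) (s : Set F) = ⊤ := by
    rw [eq_top_iff]
    intro y _
    have h1 : y ∈ IntermediateField.adjoin K (s : Set F) := by
      rw [hs]
      exact IntermediateField.mem_top
    have h2 : IntermediateField.adjoin K (s : Set F) ≤
        (IntermediateField.adjoin (IntermediateField.adjoin K {x}) (s : Set F)).restrictScalars K := by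
      rw [IntermediateField.adjoin_le_iff]
      exact IntermediateField.subset_adjoin _ _
    exact h2 h1
  have h4 : FiniteDimensional (IntermediateField.adjoin K {x})
      (IntermediateField.adjoin (IntermediateField.adjoin K {x}) (s : Set F)) :=
    IntermediateField.finiteDimensional_adjoin fun y _ => (halg.isAlgebraic y).isIntegral
  rw [h3] at h4
  exact IntermediateField.topEquiv.toLinearEquiv.finiteDimensional

open IntermediateField.algebraAdjoinAdjoin in
private theorem B1_all (hF : FF K 1) {x : F} (hx : ¬ IsAlgebraic K x) :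
    ({V : ValuationSubring F | Dv K V ∧ 0 < ord V x}.Finite ∧
      ∑ᶠ (V : ValuationSubring F) (_ : Dv K V ∧ 0 < ord V x), (deg K V : ℤ) * ord V x =
        Module.finrank (IntermediateField.adjoin K {x}) F) ∧
      ∀ V : ValuationSubring F, Dv K V → 0 < ord V x → 0 < deg K V := by
  have hfin := finite_adjoin hF hx
  have hmax := B1_maximal hx
  have hmax0 : (⟨x, Algebra.subset_adjoin (Set.mem_singleton x)⟩ : Algebra.adjoin K {x}) ≠ 0 := by
    intro h
    have h1 : x = 0 := congrArg Subtype.val h
    apply hx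
    rw [h1]
    exact isAlgebraic_zero
  have hpir : IsPrincipalIdealRing (Algebra.adjoin K {x}) :=
    IsPrincipalIdealRing.of_surjective
      ((Polynomial.algEquivOfTranscendental K x hx : Polynomial K →+* Algebra.adjoin K {x}))
      (Polynomial.algEquivOfTranscendental K x hx).surjective
  have hded : IsDedekindDomain (Algebra.adjoin K {x}) := inferInstance
  have hsep : Algebra.IsSeparable (IntermediateField.adjoin K {x}) F := inferInstance
  have hdedS : IsDedekindDomain (integralClosure (Algebra.adjoin K {x}) F) :=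
    integralClosure.isDedekindDomain (Algebra.adjoin K {x}) (IntermediateField.adjoin K {x}) F
  have hfr : IsFractionRing (integralClosure (Algebra.adjoin K {x}) F) F :=
    integralClosure.isFractionRing_of_finite_extension (IntermediateField.adjoin K {x}) F
  have hfi : Module.Finite (Algebra.adjoin K {x}) (integralClosure (Algebra.adjoin K {x}) F) :=
    IsIntegralClosure.finite (Algebra.adjoin K {x}) (IntermediateField.adjoin K {x}) F
      (integralClosure (Algebra.adjoin K {x}) F)
  exact B1_sum (R := Algebra.adjoin K {x}) (S := integralClosure (Algebra.adjoin K {x}) F)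
    (IntermediateField.adjoin K {x}) hmax0 hmax
    (fun a ha => ⟨⟨a, (Algebra.adjoin K {x}).algebraMap_mem ⟨a, ha⟩⟩, rfl⟩)
    (fun r => by
      obtain ⟨a, ha, r', hr', h⟩ := B1_adjoin (r : F) r.2
      exact ⟨⟨a, (Algebra.adjoin K {x}).algebraMap_mem ⟨a, ha⟩⟩, ⟨r', hr'⟩, ha, Subtype.ext h⟩)
    (fun V hV s => B1_closed (fun s hs => hs) V hV s)
    (fun V hKV hxV r => by
      have h1 : (r : F) ∈ V := by
        obtain ⟨r, hr⟩ := r
        show r ∈ V
        induction hr using Algebra.adjoin_induction with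
        | mem y hy =>
          rw [Set.mem_singleton_iff] at hy
          rw [hy]
          exact hxV
        | algebraMap a => exact hKV a a.2
        | add u v _ _ hu hv => exact V.add_mem _ _ hu hv
        | mul u v _ _ hu hv => exact V.mul_mem _ _ hu hv
      exact h1)

theorem zeros_sum (hF : FF K 1) {x : F} (hx : ¬ IsAlgebraic K x) :
    {V : ValuationSubring F | Dv K V ∧ 0 < ord V x}.Finite ∧
      ∑ᶠ (V : ValuationSubring F) (_ : Dv K V ∧ 0 < ord V x), (deg K V : ℤ) * ord V x =
        Module.finrank (IntermediateField.adjoin K {x}) F :=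
  (B1_all hF hx).1

/-- The residue field of a place which is a zero of `x` is finite over `K`. -/
theorem deg_pos_of_zero (hF : FF K 1) {x : F} (hx : ¬ IsAlgebraic K x) {V : ValuationSubring F}
    (hV : Dv K V) (h : 0 < ord V x) : 0 < deg K V :=
  (B1_all hF hx).2 V hV h

end Pool.Agent.Lib.MP_1e3e9c_agU
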