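import Mathlib
import Pool.Agent.Lib.MP_1e3e9c_agU.B1

/-!
# MP_1e3e9c_ag, project U, leaf B2: product formula

`ord_alg`: if `x ≠ 0` is algebraic over `K`, `K ⊆ V`, then `x`, `x⁻¹` are in `V` (integrally closed).
`deg_pos`: `V` is a discrete valuation ring, so `ord V x > 0` for some `x`, not algebraic over `K`.
`ord_fin`, `prod_formula`: for `x` not algebraic over `K`: zeros of `x` and zeros of `x⁻¹`, both of
degree `[F : K(x)]`, `K(x⁻¹) = K(x)` (`zeros_sum`).
`const_of_nonneg`: if `x` is not algebraic over `K` then `x⁻¹` has a zero (its divisor of zeros has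
degree `[F : K(x)] > 0`).
-/

set_option autoImplicit false

namespace Pool.Agent.Lib.MP_1e3e9c_agU

open IsLocalRing Pool.Agent.Lib.MP_b197b4_ntK

variable {F : Type} [Field F] [CharZero F] {K : Subfield F}

omit [CharZero F] in
private theorem B2_mem {V : ValuationSubring F} (hV : Dv K V) {x : F} (hx : IsAlgebraic K x) :
    x ∈ V := by
  have h1 : IsIntegral K x := hx.isIntegral
  obtain ⟨p, hp, hr⟩ := h1
  let ι : K →+* V := K.subtype.codRestrict V.toSubring fun a => hV.2 a a.2
  have h2 : IsIntegral V x := by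
    refine ⟨p.map ι, hp.map ι, ?_⟩
    rw [Polynomial.eval₂_map]
    exact hr
  obtain ⟨y, hy⟩ := IsIntegrallyClosed.isIntegral_iff.1 h2
  rw [← hy]
  exact y.2

omit [CharZero F] in
private theorem B2_inv {x : F} (hx : ¬ IsAlgebraic K x) : ¬ IsAlgebraic K x⁻¹ := by
  intro h
  apply hx
  have h1 := h.inv
  rwa [inv_inv] at h1

omit [CharZero F] in
private theorem B2_ne {x : F} (hx : ¬ IsAlgebraic K x) : x ≠ 0 := by
  rintro rfl
  exact hx isAlgebraic_zero

omit [CharZero F] in
private theorem B2_adj (x : F) : IntermediateField.adjoin K {x⁻¹} =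
    IntermediateField.adjoin K {x} := by
  apply le_antisymm
  · rw [IntermediateField.adjoin_simple_le_iff]
    exact inv_mem (IntermediateField.mem_adjoin_simple_self K x)
  · rw [IntermediateField.adjoin_simple_le_iff]
    have h := inv_mem (IntermediateField.mem_adjoin_simple_self K x⁻¹)
    rwa [inv_inv] at h

theorem ord_alg {V : ValuationSubring F} (hV : Dv K V) {x : F} (hx : IsAlgebraic K x) :
    ord V x = 0 := by
  by_cases h0 : x = 0
  · subst h0
    unfold ord
    rw [dif_neg]
    rintro ⟨n, p, u, hp, h⟩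
    have h1 : ((u : V) : F) ≠ 0 := left_ne_zero_of_mul_eq_one (unit_coe_mul_inv u)
    have h2 : (p : F) ≠ 0 := fun h => hp.ne_zero (Subtype.ext h)
    rcases mul_eq_zero.1 h.symm with h3 | h3
    · exact zpow_ne_zero n h2 h3
    · exact h1 h3
  · have h1 := (ord_nonneg_iff hV.1 h0).2 (B2_mem hV hx)
    have h2 := (ord_nonneg_iff hV.1 (inv_ne_zero h0)).2 (B2_mem hV hx.inv)
    rw [ord_inv hV.1 h0] at h2
    omega

theorem deg_pos (hF : FF K 1) {V : ValuationSubring F} (hV : Dv K V) : 0 < deg K V := by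
  have hd := hV.1
  obtain ⟨p, hp⟩ := IsDiscreteValuationRing.exists_irreducible V
  have hp0 : (p : F) ≠ 0 := fun h => hp.ne_zero (Subtype.ext h)
  have h1 : 0 < ord V (p : F) := (ord_pos_iff hV.1 hp0).2 (val_irr_lt hp)
  have h2 : ¬ IsAlgebraic K (p : F) := by
    intro h
    rw [ord_alg hV h] at h1
    exact lt_irrefl _ h1
  exact deg_pos_of_zero hF h2 hV h1

theorem ord_fin (hF : FF K 1) {x : F} (hx : x ≠ 0) :
    {V : ValuationSubring F | Dv K V ∧ ord V x ≠ 0}.Finite := by
  by_cases ha : IsAlgebraic K x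
  · have h1 : {V : ValuationSubring F | Dv K V ∧ ord V x ≠ 0} = ∅ := by
      ext V
      simp only [Set.mem_ofPred_eq, Set.mem_empty_iff_false, iff_false, not_and, not_not]
      exact fun hV => ord_alg hV ha
    rw [h1]
    exact Set.finite_empty
  · refine ((zeros_sum hF ha).1.union (zeros_sum hF (B2_inv ha)).1).subset ?_
    rintro V ⟨hV, h⟩
    rcases lt_or_gt_of_ne h with h1 | h1
    · right
      refine ⟨hV, ?_⟩
      rw [ord_inv hV.1 hx]
      omega
    · left
      exact ⟨hV, h1⟩

theorem prod_formula (hF : FF K 1) {x : F} (hx : x ≠ 0) :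
    ∑ᶠ (V : ValuationSubring F) (_ : Dv K V), (deg K V : ℤ) * ord V x = 0 := by
  by_cases ha : IsAlgebraic K x
  · have h1 : ∀ V : ValuationSubring F, ∑ᶠ (_ : Dv K V), (deg K V : ℤ) * ord V x = 0 := by
      intro V
      classical
      by_cases hV : Dv K V
      · rw [finsum_eq_if, if_pos hV, ord_alg hV ha, mul_zero]
      · rw [finsum_eq_if, if_neg hV]
    rw [finsum_congr h1, finsum_zero]
  · obtain ⟨A1, A2⟩ := zeros_sum hF ha
    obtain ⟨B1, B2⟩ := zeros_sum hF (B2_inv ha)
    rw [B2_adj] at B2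
    have e1 : ∑ᶠ (V : ValuationSubring F) (_ : V ∈ {V : ValuationSubring F | Dv K V}),
        (deg K V : ℤ) * ord V x =
      ∑ᶠ (V : ValuationSubring F) (_ : V ∈ {V : ValuationSubring F | Dv K V ∧ 0 < ord V x} ∪
        {V : ValuationSubring F | Dv K V ∧ 0 < ord V x⁻¹}), (deg K V : ℤ) * ord V x := by
      apply finsum_mem_inter_support_eq'
      intro V hV
      have h0 : ord V x ≠ 0 := right_ne_zero_of_mul hV
      constructor
      · intro h
        have hD : Dv K V := h
        rcases lt_or_gt_of_ne h0 with h1 | h1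
        · right
          refine ⟨hD, ?_⟩
          rw [ord_inv hD.1 hx]
          omega
        · left
          exact ⟨hD, h1⟩
      · rintro (h | h)
        · exact h.1
        · exact h.1
    have e2 : ∑ᶠ (V : ValuationSubring F) (_ : V ∈ {V : ValuationSubring F | Dv K V ∧ 0 < ord V x} ∪
        {V : ValuationSubring F | Dv K V ∧ 0 < ord V x⁻¹}), (deg K V : ℤ) * ord V x =
      ∑ᶠ (V : ValuationSubring F) (_ : V ∈ {V : ValuationSubring F | Dv K V ∧ 0 < ord V x}),
        (deg K V : ℤ) * ord V x +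
      ∑ᶠ (V : ValuationSubring F) (_ : V ∈ {V : ValuationSubring F | Dv K V ∧ 0 < ord V x⁻¹}),
        (deg K V : ℤ) * ord V x := by
      refine finsum_mem_union ?_ A1 B1
      rw [Set.disjoint_left]
      rintro V ⟨hV, h1⟩ ⟨_, h2⟩
      rw [ord_inv hV.1 hx] at h2
      omega
    have e3 : ∑ᶠ (V : ValuationSubring F) (_ : V ∈ {V : ValuationSubring F | Dv K V ∧
        0 < ord V x⁻¹}), (deg K V : ℤ) * ord V x =
      ∑ᶠ (V : ValuationSubring F) (_ : V ∈ {V : ValuationSubring F | Dv K V ∧
        0 < ord V x⁻¹}), -((deg K V : ℤ) * ord V x⁻¹) := by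
      apply finsum_mem_congr rfl
      rintro V ⟨hV, _⟩
      rw [ord_inv hV.1 hx]
      ring
    rw [finsum_mem_neg_distrib _ B1] at e3
    have e4 : ∑ᶠ (V : ValuationSubring F) (_ : V ∈ {V : ValuationSubring F | Dv K V ∧ 0 < ord V x}),
        (deg K V : ℤ) * ord V x = Module.finrank (IntermediateField.adjoin K {x}) F := A2
    have e5 : ∑ᶠ (V : ValuationSubring F) (_ : V ∈ {V : ValuationSubring F | Dv K V ∧
        0 < ord V x⁻¹}), (deg K V : ℤ) * ord V x⁻¹ =
        Module.finrank (IntermediateField.adjoin K {x}) F := B2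
    have e6 : ∑ᶠ (V : ValuationSubring F) (_ : Dv K V), (deg K V : ℤ) * ord V x =
        ∑ᶠ (V : ValuationSubring F) (_ : V ∈ {V : ValuationSubring F | Dv K V}),
          (deg K V : ℤ) * ord V x := rfl
    rw [e6, e1, e2, e3, e4, e5, add_neg_cancel]

private theorem B2_place (hF : FF K 1) {x : F} (hx : ¬ IsAlgebraic K x) :
    ∃ V, Dv K V ∧ 0 < ord V x := by
  by_contra hcon
  push Not at hcon
  obtain ⟨_, A2⟩ := zeros_sum hF hx
  have h1 : ∀ V : ValuationSubring F,
      ∑ᶠ (_ : Dv K V ∧ 0 < ord V x), (deg K V : ℤ) * ord V x = 0 := by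
    intro V
    classical
    rw [finsum_eq_if, if_neg]
    rintro ⟨hV, h⟩
    exact absurd h (not_lt.2 (hcon V hV))
  rw [finsum_congr h1, finsum_zero] at A2
  have := finite_adjoin hF hx
  have h2 : 0 < Module.finrank (IntermediateField.adjoin K {x}) F := Module.finrank_pos
  omega

theorem const_of_nonneg (hF : FF K 1) {x : F} (hx : x ≠ 0) (h : ∀ V, Dv K V → 0 ≤ ord V x) :
    IsAlgebraic K x := by
  by_contra ha
  obtain ⟨V, hV, h1⟩ := B2_place hF (B2_inv ha)
  rw [ord_inv hV.1 hx] at h1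
  have h2 := h V hV
  omega

theorem exists_place (hF : FF K 1) {x : F} (hx : ¬ IsAlgebraic K x) :
    ∃ V, Dv K V ∧ 0 < ord V x :=
  B2_place hF hx

end Pool.Agent.Lib.MP_1e3e9c_agU
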