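import Mathlib
import Pool.Agent.Lib.MP_1e3e9c_agU.B2

/-!
# MP_1e3e9c_ag, project U, leaf B3: heights

Finite support: `al V z ≠ 0` only if some `ord V (z j) ≠ 0` (`z j ≠ 0`). `ht_smul`: product formula
and `al_smul`. `ht_nonneg`: after division by a coordinate `z j ≠ 0` all `al V z ≤ 0`.
`ht_eq_zero_iff`: `ht = 0` with `z j = 1`: all `al V z = 0` (`deg_pos`), so `ord V (z i) ≥ 0`
everywhere, `const_of_nonneg`; conversely `ord_alg`. `ht_add`: `al V (z ⊗ w) = al V z + al V w`.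
-/

set_option autoImplicit false

namespace Pool.Agent.Lib.MP_1e3e9c_agU

open IsLocalRing Pool.Agent.Lib.MP_b197b4_ntK

variable {F : Type} [Field F] [CharZero F] {K : Subfield F} {ι : Type} [Fintype ι]

/-- The sum over a finite set of places. -/
private theorem B3_sum (K : Subfield F) (f : ValuationSubring F → ℤ)
    (T : Finset (ValuationSubring F)) (h1 : ∀ V, Dv K V → f V ≠ 0 → V ∈ T)
    (h2 : ∀ V ∈ T, Dv K V) :
    ∑ᶠ (V : ValuationSubring F) (_ : Dv K V), (deg K V : ℤ) * f V =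
      ∑ V ∈ T, (deg K V : ℤ) * f V := by
  have h := finsum_mem_eq_sum_of_inter_support_eq (s := {V : ValuationSubring F | Dv K V})
    (t := T) (fun V => (deg K V : ℤ) * f V) (by
      ext V
      constructor
      · rintro ⟨hV, hs⟩
        exact ⟨h1 V hV (right_ne_zero_of_mul hs), hs⟩
      · rintro ⟨hV, hs⟩
        exact ⟨h2 V hV, hs⟩)
  exact h

private theorem B3_add (K : Subfield F) (f g : ValuationSubring F → ℤ)
    (hf : {V : ValuationSubring F | Dv K V ∧ f V ≠ 0}.Finite)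
    (hg : {V : ValuationSubring F | Dv K V ∧ g V ≠ 0}.Finite) :
    ∑ᶠ (V : ValuationSubring F) (_ : Dv K V), (deg K V : ℤ) * (f V + g V) =
      ∑ᶠ (V : ValuationSubring F) (_ : Dv K V), (deg K V : ℤ) * f V +
        ∑ᶠ (V : ValuationSubring F) (_ : Dv K V), (deg K V : ℤ) * g V := by
  classical
  have hT2 : ∀ V ∈ hf.toFinset ∪ hg.toFinset, Dv K V := by
    intro V hV
    rcases Finset.mem_union.1 hV with h | h
    · exact ((Set.Finite.mem_toFinset hf).1 h).1
    · exact ((Set.Finite.mem_toFinset hg).1 h).1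
  rw [B3_sum K (fun V => f V + g V) (hf.toFinset ∪ hg.toFinset) ?_ hT2,
    B3_sum K f (hf.toFinset ∪ hg.toFinset) ?_ hT2, B3_sum K g (hf.toFinset ∪ hg.toFinset) ?_ hT2,
    ← Finset.sum_add_distrib]
  · exact Finset.sum_congr rfl fun V _ => mul_add _ _ _
  · intro V hV h
    exact Finset.mem_union_right _ ((Set.Finite.mem_toFinset hg).2 ⟨hV, h⟩)
  · intro V hV h
    exact Finset.mem_union_left _ ((Set.Finite.mem_toFinset hf).2 ⟨hV, h⟩)
  · intro V hV h
    by_cases h0 : f V = 0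
    · have h1 : g V ≠ 0 := by
        intro h2
        apply h
        change f V + g V = 0
        rw [h0, h2, add_zero]
      exact Finset.mem_union_right _ ((Set.Finite.mem_toFinset hg).2 ⟨hV, h1⟩)
    · exact Finset.mem_union_left _ ((Set.Finite.mem_toFinset hf).2 ⟨hV, h0⟩)

private theorem B3_neg (K : Subfield F) (f : ValuationSubring F → ℤ) :
    ∑ᶠ (V : ValuationSubring F) (_ : Dv K V), (deg K V : ℤ) * (-f V) =
      -∑ᶠ (V : ValuationSubring F) (_ : Dv K V), (deg K V : ℤ) * f V := by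
  rw [← finsum_neg_distrib]
  refine finsum_congr fun V => ?_
  rw [← finsum_neg_distrib]
  exact finsum_congr fun _ => mul_neg _ _

theorem al_fin (hF : FF K 1) (z : ι → F) :
    {V : ValuationSubring F | Dv K V ∧ al V z ≠ 0}.Finite := by
  by_cases hz : z = 0
  · refine Set.Finite.subset Set.finite_empty ?_
    rintro V ⟨_, h⟩
    rw [hz] at h
    exact absurd al_zero h
  · have h1 : (⋃ j : ι, {V : ValuationSubring F | (Dv K V ∧ ord V (z j) ≠ 0) ∧ z j ≠ 0}).Finite := by
      refine Set.finite_iUnion fun j => ?_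
      by_cases hj : z j = 0
      · refine Set.Finite.subset Set.finite_empty ?_
        rintro V ⟨_, h⟩
        exact absurd hj h
      · refine Set.Finite.subset (ord_fin hF hj) ?_
        rintro V ⟨h, _⟩
        exact h
    refine Set.Finite.subset h1 ?_
    rintro V ⟨hV, h⟩
    obtain ⟨j, hj, hj'⟩ := exists_al (V := V) hz
    refine Set.mem_iUnion.2 ⟨j, ⟨hV, ?_⟩, hj⟩
    rw [hj']
    exact h

theorem ht_smul (hF : FF K 1) {z : ι → F} (hz : z ≠ 0) {a : F} (ha : a ≠ 0) :
    ht K (fun j => a * z j) = ht K z := by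
  unfold ht
  have h1 : ∑ᶠ (V : ValuationSubring F) (_ : Dv K V), (deg K V : ℤ) * al V (fun j => a * z j) =
      ∑ᶠ (V : ValuationSubring F) (_ : Dv K V), (deg K V : ℤ) * (ord V a + al V z) :=
    finsum_congr fun V => finsum_congr fun hV => by rw [al_smul hV.1 hz ha]
  rw [h1, B3_add K (fun V => ord V a) (fun V => al V z) (ord_fin hF ha) (al_fin hF z),
    prod_formula hF ha, zero_add]

/-- Normalise one coordinate. -/
private theorem B3_norm (hF : FF K 1) {z : ι → F} {j : ι} (hj : z j ≠ 0) :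
    (fun i => (z j)⁻¹ * z i) ≠ 0 ∧ ht K (fun i => (z j)⁻¹ * z i) = ht K z ∧
      ∀ V, Dv K V → al V (fun i => (z j)⁻¹ * z i) ≤ 0 := by
  have hz : z ≠ 0 := fun h => hj (congrFun h j)
  have h1 : (z j)⁻¹ * z j = 1 := inv_mul_cancel₀ hj
  refine ⟨?_, ht_smul hF hz (inv_ne_zero hj), ?_⟩
  · intro h
    have h2 := congrFun h j
    have h3 : (z j)⁻¹ * z j = 0 := h2
    rw [h1] at h3
    exact one_ne_zero h3
  · intro V hV
    have h2 : al V (fun i => (z j)⁻¹ * z i) ≤ ord V ((z j)⁻¹ * z j) :=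
      al_le (z := fun i => (z j)⁻¹ * z i) (j := j) (by
        change (z j)⁻¹ * z j ≠ 0
        rw [h1]
        exact one_ne_zero)
    rw [h1, ord_one V hV.1] at h2
    exact h2

/-- The height as a sum over a finite set. -/
private theorem B3_ht (hF : FF K 1) (z : ι → F) :
    ht K z = ∑ V ∈ (al_fin hF z).toFinset, (deg K V : ℤ) * (-al V z) := by
  unfold ht
  rw [B3_sum K (fun V => al V z) (al_fin hF z).toFinset
    (fun V hV h => (Set.Finite.mem_toFinset _).2 ⟨hV, h⟩)
    (fun V hV => ((Set.Finite.mem_toFinset _).1 hV).1), ← Finset.sum_neg_distrib]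
  exact Finset.sum_congr rfl fun V _ => (mul_neg _ _).symm

theorem ht_nonneg (hF : FF K 1) {z : ι → F} (hz : z ≠ 0) : 0 ≤ ht K z := by
  obtain ⟨j, hj⟩ := Function.ne_iff.1 hz
  obtain ⟨_, h1, h2⟩ := B3_norm hF (z := z) (j := j) hj
  rw [← h1, B3_ht hF]
  refine Finset.sum_nonneg fun V hV => ?_
  have hV' := ((Set.Finite.mem_toFinset _).1 hV).1
  exact mul_nonneg (Int.natCast_nonneg _) (neg_nonneg.2 (h2 V hV'))

theorem ht_eq_zero_iff (hF : FF K 1) {z : ι → F} (hz : z ≠ 0) : ht K z = 0 ↔ Con K z := by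
  constructor
  · intro h i j hj
    by_cases hi : z i = 0
    · rw [hi, zero_div]
      exact isAlgebraic_zero
    obtain ⟨_, h1, h2⟩ := B3_norm hF (z := z) (j := j) hj
    have hw : (z j)⁻¹ * z i ≠ 0 := mul_ne_zero (inv_ne_zero hj) hi
    rw [div_eq_inv_mul]
    refine const_of_nonneg hF hw fun V hV => ?_
    have h3 : al V (fun i => (z j)⁻¹ * z i) ≤ ord V ((z j)⁻¹ * z i) :=
      al_le (z := fun i => (z j)⁻¹ * z i) (j := i) hw
    refine le_trans (le_of_eq ?_) h3
    by_contra h4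
    have h5 : al V (fun i => (z j)⁻¹ * z i) ≠ 0 := fun h => h4 h.symm
    have h6 : V ∈ (al_fin hF (fun i => (z j)⁻¹ * z i)).toFinset :=
      (Set.Finite.mem_toFinset _).2 ⟨hV, h5⟩
    have h7 : ∑ V ∈ (al_fin hF (fun i => (z j)⁻¹ * z i)).toFinset,
        (deg K V : ℤ) * (-al V (fun i => (z j)⁻¹ * z i)) = 0 := by
      rw [← B3_ht hF, h1, h]
    have h8 := (Finset.sum_eq_zero_iff_of_nonneg (fun V hV => by
      have hV' := ((Set.Finite.mem_toFinset _).1 hV).1
      exact mul_nonneg (Int.natCast_nonneg _) (neg_nonneg.2 (h2 V hV')))).1 h7 V h6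
    rcases mul_eq_zero.1 h8 with h9 | h9
    · exact (deg_pos hF hV).ne' (Int.natCast_eq_zero.1 h9)
    · exact h5 (neg_eq_zero.1 h9)
  · intro h
    obtain ⟨j, hj⟩ := Function.ne_iff.1 hz
    have hj' : z j ≠ 0 := hj
    obtain ⟨h0, h1, _⟩ := B3_norm hF (z := z) (j := j) hj'
    rw [← h1, B3_ht hF]
    refine Finset.sum_eq_zero fun V hV => ?_
    have hV' := ((Set.Finite.mem_toFinset _).1 hV).1
    obtain ⟨i, _, hi⟩ := exists_al (V := V) h0
    have h2 : ord V ((z j)⁻¹ * z i) = 0 := by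
      refine ord_alg hV' ?_
      rw [← div_eq_inv_mul]
      exact h i j hj'
    rw [← hi]
    have h3 : ord V ((fun i => (z j)⁻¹ * z i) i) = 0 := h2
    rw [h3, neg_zero, mul_zero]

/-- The height as the degree of a divisor (product formula for `y`). -/
theorem ht_eq_excess (hF : FF K 1) {z : ι → F} (hz : z ≠ 0) {y : F} (hy : y ≠ 0) :
    ∑ᶠ (V : ValuationSubring F) (_ : Dv K V), (deg K V : ℤ) * (ord V y - al V z) = ht K z := by
  have h1 : {V : ValuationSubring F | Dv K V ∧ -al V z ≠ 0}.Finite := by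
    refine Set.Finite.subset (al_fin hF z) ?_
    rintro V ⟨hV, h⟩
    exact ⟨hV, fun h0 => h (by rw [h0, neg_zero])⟩
  have h2 := B3_add K (fun V => ord V y) (fun V => -al V z) (ord_fin hF hy) h1
  rw [prod_formula hF hy, zero_add, B3_neg K (fun V => al V z)] at h2
  unfold ht
  rw [← h2]
  exact finsum_congr fun V => finsum_congr fun _ => by rw [sub_eq_add_neg]

private theorem B3_ord_prod {V : ValuationSubring F} (hV : IsDiscreteValuationRing V) {σ : Type}
    (s : Finset σ) (f : σ → F) (hf : ∀ l ∈ s, f l ≠ 0) :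
    ord V (∏ l ∈ s, f l) = ∑ l ∈ s, ord V (f l) := by
  classical
  induction s using Finset.induction_on with
  | empty => rw [Finset.prod_empty, Finset.sum_empty, ord_one V hV]
  | insert a s ha ih =>
    have h1 : ∀ l ∈ s, f l ≠ 0 := fun l hl => hf l (Finset.mem_insert_of_mem hl)
    rw [Finset.prod_insert ha, Finset.sum_insert ha,
      ord_mul hV (hf a (Finset.mem_insert_self a s)) (Finset.prod_ne_zero_iff.2 h1), ih h1]

theorem al_segre {V : ValuationSubring F} (hV : IsDiscreteValuationRing V) {σ : Type} [Fintype σ]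
    [DecidableEq σ] {κ : Type} [Fintype κ] (z : σ → κ → F) (hz : ∀ l, z l ≠ 0) :
    al V (fun s : σ → κ => ∏ l, z l (s l)) = ∑ l, al V (z l) := by
  choose t ht ht' using fun l => exists_al (V := V) (hz l)
  have h1 : ∏ l, z l (t l) ≠ 0 := Finset.prod_ne_zero_iff.2 fun l _ => ht l
  have h0 : (fun s : σ → κ => ∏ l, z l (s l)) ≠ 0 := by
    intro h
    exact h1 (congrFun h t)
  refine le_antisymm ?_ ?_
  · have h2 : al V (fun s : σ → κ => ∏ l, z l (s l)) ≤ ord V (∏ l, z l (t l)) :=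
      al_le (z := fun s : σ → κ => ∏ l, z l (s l)) (j := t) h1
    rw [B3_ord_prod hV Finset.univ (fun l => z l (t l)) (fun l _ => ht l)] at h2
    refine h2.trans (le_of_eq ?_)
    exact Finset.sum_congr rfl fun l _ => ht' l
  · refine le_al h0 fun s hs => ?_
    have hs' : ∏ l, z l (s l) ≠ 0 := hs
    have h3 : ∀ l ∈ Finset.univ, z l (s l) ≠ 0 := Finset.prod_ne_zero_iff.1 hs'
    change ∑ l, al V (z l) ≤ ord V (∏ l, z l (s l))
    rw [B3_ord_prod hV Finset.univ (fun l => z l (s l)) h3]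
    exact Finset.sum_le_sum fun l hl => al_le (h3 l hl)

theorem ht_segre (hF : FF K 1) {σ : Type} [Fintype σ] [DecidableEq σ] {κ : Type} [Fintype κ]
    (z : σ → κ → F) (hz : ∀ l, z l ≠ 0) : ht K (fun s : σ → κ => ∏ l, z l (s l)) = ∑ l, ht K (z l) := by
  classical
  set T : Finset (ValuationSubring F) :=
    Finset.univ.biUnion fun l : σ => (al_fin hF (z l)).toFinset with hT
  have hT2 : ∀ V ∈ T, Dv K V := by
    intro V hV
    obtain ⟨l, _, hl⟩ := Finset.mem_biUnion.1 hV
    exact ((Set.Finite.mem_toFinset _).1 hl).1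
  have hT1 : ∀ l, ∀ V, Dv K V → al V (z l) ≠ 0 → V ∈ T := fun l V hV h =>
    Finset.mem_biUnion.2 ⟨l, Finset.mem_univ l, (Set.Finite.mem_toFinset _).2 ⟨hV, h⟩⟩
  have hT3 : ∀ V, Dv K V → al V (fun s : σ → κ => ∏ l, z l (s l)) ≠ 0 → V ∈ T := by
    intro V hV h
    rw [al_segre hV.1 z hz] at h
    obtain ⟨l, _, hl⟩ := Finset.exists_ne_zero_of_sum_ne_zero h
    exact hT1 l V hV hl
  have h1 : ∀ l, ht K (z l) = -∑ V ∈ T, (deg K V : ℤ) * al V (z l) := by
    intro l
    unfold ht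
    rw [B3_sum K (fun V => al V (z l)) T (hT1 l) hT2]
  have h2 : ht K (fun s : σ → κ => ∏ l, z l (s l)) =
      -∑ V ∈ T, (deg K V : ℤ) * al V (fun s : σ → κ => ∏ l, z l (s l)) := by
    unfold ht
    rw [B3_sum K (fun V => al V (fun s : σ → κ => ∏ l, z l (s l))) T hT3 hT2]
  rw [h2, Finset.sum_congr rfl fun l _ => h1 l, Finset.sum_neg_distrib, Finset.sum_comm]
  refine congrArg Neg.neg (Finset.sum_congr rfl fun V hV => ?_)
  rw [al_segre (hT2 V hV).1 z hz, Finset.mul_sum]

end Pool.Agent.Lib.MP_1e3e9c_agU
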