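import Mathlib
import Pool.Agent.Lib.MP_1e3e9c_agU.Defs

/-!
# MP_1e3e9c_ag, project U, leaf C0: purely transcendental base change

`T` is algebraically independent over `N`, `Ω = N(T)`, `M ⊆ N`. A family in `N` which is linearly
independent over `M` is linearly independent over `M(T)` (clear denominators: a relation with
coefficients in `M[T]`; compare coefficients of the monomials in `T`, which are linearly independent
over `N`). If `N` is finite over `M` with basis `b`, the `M(T)`-span of `b` is a ring, finite over the
field `M(T)`, so a field, and it contains `N` and `T`: it is `Ω`.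
-/

set_option autoImplicit false

namespace Pool.Agent.Lib.MP_1e3e9c_agU

open IsLocalRing Pool.Agent.Lib.MP_b197b4_ntK

private theorem C0_closure {N Ω σ : Type} [Field N] [Field Ω] [Algebra N Ω] (M : Subfield N) (T : σ → Ω) :
    Subfield.closure ((algebraMap N Ω '' (M : Set N)) ∪ Set.range T) =
      (IntermediateField.adjoin M (Set.range T)).toSubfield := by
  have h : algebraMap N Ω '' (M : Set N) = Set.range (algebraMap M Ω) := by
    ext x
    constructor
    · rintro ⟨a, ha, rfl⟩
      exact ⟨⟨a, ha⟩, rfl⟩
    · rintro ⟨a, rfl⟩
      exact ⟨a, a.2, rfl⟩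
  rw [h]
  rfl

private theorem C0_ring {N Ω σ τ : Type} [Field N] [Field Ω] [Algebra N Ω] {T : σ → Ω}
    (hT : AlgebraicIndependent N T) (M : Subfield N) {b : τ → N} (hb : LinearIndependent M b) :
    LinearIndependent (Algebra.adjoin M (Set.range T)) (fun i => algebraMap N Ω (b i)) := by
  classical
  rw [linearIndependent_iff']
  intro s g hg
  have hP : ∀ i, ∃ P : MvPolynomial σ M, MvPolynomial.aeval T P = (g i : Ω) := by
    intro i
    have h : ∀ x ∈ Algebra.adjoin M (Set.range T), ∃ P : MvPolynomial σ M, MvPolynomial.aeval T P = x := by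
      intro x hx
      rw [Algebra.adjoin_range_eq_range_aeval] at hx
      exact hx
    exact h _ (g i).2
  choose P hP using hP
  have h1 : MvPolynomial.aeval T (∑ i ∈ s, MvPolynomial.C (b i) * MvPolynomial.map (algebraMap M N) (P i)) =
      (0 : Ω) := by
    rw [map_sum, ← hg]
    refine Finset.sum_congr rfl fun i _ => ?_
    rw [map_mul, MvPolynomial.aeval_C, MvPolynomial.aeval_map_algebraMap, hP, Subalgebra.smul_def,
      smul_eq_mul, mul_comm]
  have h2 : ∑ i ∈ s, MvPolynomial.C (b i) * MvPolynomial.map (algebraMap M N) (P i) = 0 :=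
    (injective_iff_map_eq_zero _).1 hT _ h1
  have h3 : ∀ m : σ →₀ ℕ, ∀ i ∈ s, (P i).coeff m = 0 := by
    intro m
    refine linearIndependent_iff'.1 hb s (fun i => (P i).coeff m) ?_
    have h4 := congrArg (MvPolynomial.coeff m) h2
    rw [MvPolynomial.coeff_sum, MvPolynomial.coeff_zero] at h4
    rw [← h4]
    refine Finset.sum_congr rfl fun i _ => ?_
    rw [MvPolynomial.coeff_C_mul, MvPolynomial.coeff_map, Algebra.smul_def, mul_comm]
  intro i hi
  have h5 : P i = 0 := by
    ext m
    rw [h3 m i hi, MvPolynomial.coeff_zero]
  apply Subtype.ext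
  rw [← hP i, h5, map_zero]
  rfl

open scoped IntermediateField.algebraAdjoinAdjoin in
private theorem C0_field {N Ω σ τ : Type} [Field N] [Field Ω] [Algebra N Ω] {T : σ → Ω}
    (hT : AlgebraicIndependent N T) (M : Subfield N) {b : τ → N} (hb : LinearIndependent M b) :
    LinearIndependent (IntermediateField.adjoin M (Set.range T)) (fun i => algebraMap N Ω (b i)) := by
  have : IsScalarTower (Algebra.adjoin M (Set.range T)) (IntermediateField.adjoin M (Set.range T)) Ω :=
    ⟨fun x y z => by
      rw [Algebra.smul_def x y]
      exact mul_assoc (x : Ω) (y : Ω) z⟩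
  exact (LinearIndependent.iff_fractionRing (Algebra.adjoin M (Set.range T))
    (IntermediateField.adjoin M (Set.range T))).1 (C0_ring hT M hb)

private theorem C0_fin {N Ω σ : Type} [Field N] [Field Ω] [Algebra N Ω] {T : σ → Ω} (hT : Gn N T)
    (M : Subfield N) :
    Module.finrank (IntermediateField.adjoin M (Set.range T)) Ω = Module.finrank M N := by
  by_cases hfin : FiniteDimensional M N
  · let b := Module.finBasis M N
    let B : IntermediateField M Ω := (IsScalarTower.toAlgHom M N Ω).fieldRange
    let e : N ≃ₐ[M] B := AlgEquiv.ofInjectiveField (IsScalarTower.toAlgHom M N Ω)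
    have hfB : FiniteDimensional M B := Module.Finite.equiv e.toLinearEquiv
    have hld : (IntermediateField.adjoin M (Set.range T)).LinearDisjoint B := by
      refine IntermediateField.LinearDisjoint.of_basis_right (b.map e.toLinearEquiv) ?_
      exact C0_field hT.1 M b.linearIndependent
    have hsup : IntermediateField.adjoin M (Set.range T) ⊔ B = ⊤ := by
      rw [eq_top_iff]
      intro x _
      have hx : x ∈ IntermediateField.adjoin N (Set.range T) := by
        rw [hT.2]
        exact IntermediateField.mem_top
      have hle : Subfield.closure (Set.range (algebraMap N Ω) ∪ Set.range T) ≤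
          (IntermediateField.adjoin M (Set.range T) ⊔ B).toSubfield := by
        rw [Subfield.closure_le]
        rintro y (⟨a, rfl⟩ | hy)
        · exact (le_sup_right : B ≤ IntermediateField.adjoin M (Set.range T) ⊔ B) ⟨a, rfl⟩
        · exact (le_sup_left : IntermediateField.adjoin M (Set.range T) ≤
            IntermediateField.adjoin M (Set.range T) ⊔ B) (IntermediateField.subset_adjoin _ _ hy)
      exact hle hx
    have hsup2 : (IntermediateField.adjoin M (Set.range T)).toSubalgebra ⊔ B.toSubalgebra = ⊤ := by
      rw [← IntermediateField.sup_toSubalgebra_of_isAlgebraic_right, hsup]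
      rfl
    rw [Module.finrank_eq_card_basis (hld.basisOfBasisRight hsup2 (b.map e.toLinearEquiv)), Fintype.card_fin]
  · rw [Module.finrank_of_infinite_dimensional hfin]
    apply Module.finrank_of_infinite_dimensional
    intro h
    apply hfin
    let b := Module.Basis.ofVectorSpace M N
    have h1 := C0_field hT.1 M b.linearIndependent
    have h2 := h1.finite
    exact Module.Finite.of_basis b

theorem finrank_pure {N Ω σ : Type} [Field N] [Field Ω] [Algebra N Ω] {T : σ → Ω} (hT : Gn N T)
    (M : Subfield N) :
    Module.finrank (Subfield.closure ((algebraMap N Ω '' (M : Set N)) ∪ Set.range T)) Ω =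
      Module.finrank M N := by
  rw [C0_closure]
  exact C0_fin hT M

/-- Linear independence is preserved. -/
theorem linInd_pure {N Ω σ τ : Type} [Field N] [Field Ω] [Algebra N Ω] {T : σ → Ω} (hT : Gn N T)
    (M : Subfield N) {b : τ → N} (hb : LinearIndependent M b) :
    LinearIndependent (Subfield.closure ((algebraMap N Ω '' (M : Set N)) ∪ Set.range T))
      (fun i => algebraMap N Ω (b i)) := by
  rw [C0_closure]
  exact C0_field hT.1 M hb

end Pool.Agent.Lib.MP_1e3e9c_agU
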