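import Mathlib
import Pool.Agent.Lib.MP_1e3e9c_agU.C0
import Pool.Agent.Lib.MP_1e3e9c_agU.C1

/-!
# MP_1e3e9c_ag, project U, leaf C4: tower of cuts

Left side: `Ω' = GF Ω _ = Ω(C') = F(C, C')`, base field `K(C, C')(u_s, u'_l)`.
Let `N = F(C_s, C')` (the `C_(i,·,·)` with `i ∈ s`), `M = K(C_s, C')(u_s, u'_l)`. The other `C` are
algebraically independent over `N`, so by `finrank_pure` the left side is `[N : M]`, and this is
`XX K (l ++ s.map β)` by `XX_eq` (index set: `Fin l.length ⊕ s`). `AlgebraicIndependent` splits: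
`algebraicIndependent_sumElim_iff` or similar.
`XX_nil`: `XX K [] = [F : K]`. `XX_base`: the case `s = []`.
-/

set_option autoImplicit false

namespace Pool.Agent.Lib.MP_1e3e9c_agU

open IsLocalRing Pool.Agent.Lib.MP_b197b4_ntK

/-- The image of a generated subfield. -/
private theorem C4_cl {A B : Type} [Field A] [Field B] (f : A →+* B) (X : Set A) (R : Set B) :
    Subfield.closure (f '' ((Subfield.closure X : Subfield A) : Set A) ∪ R) =
      Subfield.closure (f '' X ∪ R) := by
  rw [Subfield.closure_union, Subfield.closure_union, ← Subfield.coe_map, Subfield.closure_eq,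
    RingHom.map_field_closure]

/-- The image of a generic function. -/
private theorem C4_gu {F N E ι μ : Type} [Field F] [Field N] [Field E] [Algebra F N] [Algebra N E]
    [Algebra F E] [IsScalarTower F N E] [Fintype ι] (C : μ × Bool × ι → N) (β : μ → ι → F) (i : μ) :
    algebraMap N E (gu C β i) = gu (fun q => algebraMap N E (C q)) β i := by
  unfold gu
  rw [map_div₀, map_sum, map_sum]
  congr 1
  · refine Finset.sum_congr rfl fun j _ => ?_
    rw [map_mul, ← IsScalarTower.algebraMap_apply F N E]
  · refine Finset.sum_congr rfl fun j _ => ?_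
    rw [map_mul, ← IsScalarTower.algebraMap_apply F N E]

open scoped IntermediateField.algebraAdjoinAdjoin in
/-- The coefficients which are not used do not change the degree. -/
private theorem C4_core {F E τ ι μ : Type} [Field F] [Field E] [Algebra F E] [Fintype ι]
    (K : Subfield F) {A : μ × Bool × ι → E} {T : τ → E} (β : μ → ι → F)
    (hi : AlgebraicIndependent F (Sum.elim T A))
    (htop : IntermediateField.adjoin F (Set.range A ∪ Set.range T) = ⊤) (l : List (ι → F))
    (e : Fin l.length ≃ μ) (he : ∀ i, β (e i) = l.get i) :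
    Module.finrank (Subfield.closure ((algebraMap F E '' (K : Set F)) ∪ Set.range A ∪
      gu A β '' Set.univ ∪ Set.range T)) E = XX K l := by
  obtain ⟨h1, h2⟩ := AlgebraicIndependent.sumElim_iff.1 hi
  let N : IntermediateField F E := IntermediateField.adjoin F (Set.range A)
  have hAN : ∀ q, A q ∈ N := fun q => IntermediateField.subset_adjoin F _ ⟨q, rfl⟩
  let A' : μ × Bool × ι → N := fun q => ⟨A q, hAN q⟩
  have hT : Gn N T := by
    refine ⟨h2.extendScalars N, ?_⟩
    rw [← IntermediateField.restrictScalars_eq_top_iff (K := F),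
      IntermediateField.adjoin_adjoin_left, htop]
  have hA' : Gn F A' := by
    refine ⟨AlgebraicIndependent.of_comp N.val h1, ?_⟩
    apply IntermediateField.map_injective N.val
    rw [IntermediateField.adjoin_map, ← AlgHom.fieldRange_eq_map, IntermediateField.fieldRange_val,
      ← Set.range_comp]
    rfl
  have h3 := finrank_pure hT (cb K A' β Set.univ)
  rw [XX_eq K hA' β l e he] at h3
  rw [← h3]
  have h4 : Subfield.closure ((algebraMap N E '' ((cb K A' β Set.univ : Subfield N) : Set N)) ∪
      Set.range T) = Subfield.closure ((algebraMap F E '' (K : Set F)) ∪ Set.range A ∪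
      gu A β '' Set.univ ∪ Set.range T) := by
    unfold cb
    have h5 : (algebraMap N E) ∘ gu A' β = gu A β := funext fun i => C4_gu A' β i
    rw [C4_cl, Set.image_union, Set.image_union, ← Set.range_comp, ← Set.image_comp,
      ← Set.image_comp, h5]
    rfl
  rw [h4]

variable {F ι Ω μ : Type} [Field F] [Fintype ι] [Field Ω] [Algebra F Ω]

theorem XX_tower (K : Subfield F) {C : μ × Bool × ι → Ω} (hC : Gn F C) (β : μ → ι → F)
    (s : List μ) (hs : s.Nodup) (l : List (ι → F)) :
    XX (cb K C β {i | i ∈ s}) (l.map (up Ω)) = XX K (l ++ s.map β) := by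
  classical
  obtain ⟨hC1, hC2⟩ := hC
  obtain ⟨g1, g2⟩ := gn_gc Ω (Fin (l.map (up Ω)).length × Bool × ι)
  have hlen : (l.map (up Ω)).length = l.length := List.length_map _
  let E : Type := GF Ω (Fin (l.map (up Ω)).length × Bool × ι)
  let C' : Fin (l.map (up Ω)).length × Bool × ι → E := gc Ω _
  let A : (Fin (l.map (up Ω)).length ⊕ {i // i ∈ s}) × Bool × ι → E := fun q =>
    Sum.elim (fun i => C' (i, q.2)) (fun i => algebraMap Ω E (C (i.1, q.2))) q.1
  let T : {i // i ∉ s} × Bool × ι → E := fun q => algebraMap Ω E (C (q.1.1, q.2))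
  let β' : (Fin (l.map (up Ω)).length ⊕ {i // i ∈ s}) → ι → F :=
    Sum.elim (fun i => l.get (Fin.cast hlen i)) (fun i => β i.1)
  have hwhole : AlgebraicIndependent F (Sum.elim C' (algebraMap Ω E ∘ C)) := hC1.sumElim_comp g1
  let g : ({i // i ∉ s} × Bool × ι) ⊕ ((Fin (l.map (up Ω)).length ⊕ {i // i ∈ s}) × Bool × ι) →
      (Fin (l.map (up Ω)).length × Bool × ι) ⊕ (μ × Bool × ι) :=
    Sum.elim (fun q => Sum.inr (q.1.1, q.2))
      (fun q => Sum.elim (fun i => Sum.inl (i, q.2)) (fun i => Sum.inr (i.1, q.2)) q.1)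
  have hg : Function.Injective g := by
    rintro (⟨⟨i, hi⟩, q⟩ | ⟨i | ⟨i, hi⟩, q⟩) (⟨⟨i', hi'⟩, q'⟩ | ⟨i' | ⟨i', hi'⟩, q'⟩) h
    all_goals simp only [g, Sum.elim_inl, Sum.elim_inr, Sum.inr.injEq, Sum.inl.injEq,
      Prod.mk.injEq, reduceCtorEq] at h
    · obtain ⟨rfl, rfl⟩ := h
      rfl
    · exact absurd (h.1 ▸ hi') hi
    · obtain ⟨rfl, rfl⟩ := h
      rfl
    · exact absurd (h.1 ▸ hi) hi'
    · obtain ⟨rfl, rfl⟩ := h
      rfl
  have hi : AlgebraicIndependent F (Sum.elim T A) := by
    have h1 := hwhole.comp g hg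
    have h2 : Sum.elim C' (algebraMap Ω E ∘ C) ∘ g = Sum.elim T A := by
      funext x
      rcases x with ⟨⟨i, hi⟩, q⟩ | ⟨i | ⟨i, hi⟩, q⟩
      · rfl
      · rfl
      · rfl
    rwa [h2] at h1
  have hT1 : ∀ (i : μ) (q : Bool × ι), algebraMap Ω E (C (i, q)) ∈ Set.range A ∪ Set.range T := by
    intro i q
    by_cases hi : i ∈ s
    · exact Or.inl ⟨(Sum.inr ⟨i, hi⟩, q), rfl⟩
    · exact Or.inr ⟨(⟨i, hi⟩, q), rfl⟩
  have hT2 : ∀ q, C' q ∈ Set.range A ∪ Set.range T := fun q => Or.inl ⟨(Sum.inl q.1, q.2), rfl⟩
  have htop : IntermediateField.adjoin F (Set.range A ∪ Set.range T) = ⊤ := by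
    have h1 : ∀ z : Ω, algebraMap Ω E z ∈ IntermediateField.adjoin F (Set.range A ∪ Set.range T) := by
      intro z
      have h2 : z ∈ IntermediateField.adjoin F (Set.range C) := by
        rw [hC2]
        exact IntermediateField.mem_top
      have h3 : (IntermediateField.adjoin F (Set.range C)).map (IsScalarTower.toAlgHom F Ω E) ≤
          IntermediateField.adjoin F (Set.range A ∪ Set.range T) := by
        rw [IntermediateField.adjoin_map, IntermediateField.adjoin_le_iff]
        rintro _ ⟨_, ⟨⟨i, q⟩, rfl⟩, rfl⟩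
        exact IntermediateField.subset_adjoin F _ (hT1 i q)
      exact h3 ⟨z, h2, rfl⟩
    let P : IntermediateField Ω E :=
      { (IntermediateField.adjoin F (Set.range A ∪ Set.range T)).toSubfield with
        algebraMap_mem' := h1 }
    have h2 : IntermediateField.adjoin Ω (Set.range C') ≤ P := by
      rw [IntermediateField.adjoin_le_iff]
      rintro _ ⟨q, rfl⟩
      exact IntermediateField.subset_adjoin F _ (hT2 q)
    rw [eq_top_iff]
    intro x _
    exact h2 (g2 ▸ IntermediateField.mem_top)
  let e0 : Fin (l ++ s.map β).length ≃ Fin (l.map (up Ω)).length ⊕ {i // i ∈ s} :=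
    ((finCongr (List.length_append)).trans finSumFinEquiv.symm).trans
      (Equiv.sumCongr (finCongr hlen.symm)
        ((finCongr (List.length_map _)).trans (List.Nodup.getEquiv s hs)))
  have he : ∀ j, (l ++ s.map β).get (e0.symm j) = β' j := by
    rintro (i | i)
    · have h3 : (l ++ s.map β).get (e0.symm (Sum.inl i)) =
          (l ++ s.map β)[(i : ℕ)]'(by
            rw [List.length_append]
            have h4 := i.2
            omega) := rfl
      rw [h3, List.getElem_append_left (by
        have h4 := i.2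
        omega)]
      rfl
    · have h4 := (((finCongr (List.length_map β)).trans (List.Nodup.getEquiv s hs)).symm i).2
      have h3 : (l ++ s.map β).get (e0.symm (Sum.inr i)) =
          (l ++ s.map β)[l.length +
            (((finCongr (List.length_map β)).trans (List.Nodup.getEquiv s hs)).symm i : ℕ)]'(by
            rw [List.length_append]
            omega) := rfl
      rw [h3, List.getElem_append_right (Nat.le_add_right _ _)]
      have h5 := congrArg Subtype.val
        (((finCongr (List.length_map β)).trans (List.Nodup.getEquiv s hs)).apply_symm_apply i)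
      simp only [Nat.add_sub_cancel_left, List.getElem_map]
      have h6 : β' (Sum.inr i) = β i.1 := rfl
      rw [h6, ← h5]
      rfl
  have h1 := C4_core K β' hi htop (l ++ s.map β) e0 fun i => by
    rw [← he, e0.symm_apply_apply]
  rw [← h1]
  unfold XX
  have h2 : cb (cb K C β {i | i ∈ s}) C' (l.map (up Ω)).get Set.univ =
      Subfield.closure ((algebraMap F E '' (K : Set F)) ∪ Set.range A ∪
      gu A β' '' Set.univ ∪ Set.range T) := by
    have hinl : ∀ i, gu A β' (Sum.inl i) = gu C' (l.map (up Ω)).get i := by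
      intro i
      have h3 : ∀ j, algebraMap F E (β' (Sum.inl i) j) =
          algebraMap Ω E ((l.map (up Ω)).get i j) := by
        intro j
        have h4 : (l.map (up Ω)).get i = up Ω (l.get (Fin.cast hlen i)) := by
          rw [List.get_eq_getElem, List.getElem_map]
          rfl
        rw [h4, IsScalarTower.algebraMap_apply F Ω E]
        rfl
      unfold gu
      congr 1
      · refine Finset.sum_congr rfl fun j _ => ?_
        rw [h3]
        rfl
      · refine Finset.sum_congr rfl fun j _ => ?_
        rw [h3]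
        rfl
    have hinr : ∀ i : {i // i ∈ s}, gu A β' (Sum.inr i) = algebraMap Ω E (gu C β i.1) := by
      intro i
      rw [C4_gu C β i.1]
      rfl
    have h3 : cb (cb K C β {i | i ∈ s}) C' (l.map (up Ω)).get Set.univ =
        Subfield.closure (algebraMap Ω E '' (algebraMap F Ω '' (K : Set F) ∪ Set.range C ∪
          gu C β '' {i | i ∈ s}) ∪ (Set.range C' ∪ gu C' (l.map (up Ω)).get '' Set.univ)) := by
      unfold cb
      rw [Set.union_assoc, C4_cl]
    rw [h3]
    congr 1
    apply Set.Subset.antisymm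
    · rintro x (⟨y, (⟨z, hz, rfl⟩ | ⟨⟨i, q⟩, rfl⟩) | ⟨i, hi, rfl⟩, rfl⟩ | ⟨q, rfl⟩ | ⟨i, -, rfl⟩)
      · left; left; left
        exact ⟨z, hz, (IsScalarTower.algebraMap_apply F Ω E z)⟩
      · rcases hT1 i q with h4 | h4
        · left; left; right
          exact h4
        · right
          exact h4
      · left; right
        exact ⟨Sum.inr ⟨i, hi⟩, Set.mem_univ _, hinr ⟨i, hi⟩⟩
      · rcases hT2 q with h4 | h4
        · left; left; right
          exact h4
        · right
          exact h4
      · left; right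
        exact ⟨Sum.inl i, Set.mem_univ _, hinl i⟩
    · rintro x (((⟨z, hz, rfl⟩ | ⟨⟨i | i, q⟩, rfl⟩) | ⟨i | i, -, rfl⟩) | ⟨q, rfl⟩)
      · left
        exact ⟨algebraMap F Ω z, Or.inl (Or.inl ⟨z, hz, rfl⟩),
          (IsScalarTower.algebraMap_apply F Ω E z).symm⟩
      · right; left
        exact ⟨(i, q), rfl⟩
      · left
        exact ⟨C (i.1, q), Or.inl (Or.inr ⟨(i.1, q), rfl⟩), rfl⟩
      · right; right
        exact ⟨i, Set.mem_univ _, (hinl i).symm⟩
      · left
        exact ⟨gu C β i.1, Or.inr ⟨i.1, i.2, rfl⟩, (hinr i).symm⟩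
      · left
        exact ⟨C (q.1.1, q.2), Or.inl (Or.inr ⟨(q.1.1, q.2), rfl⟩), rfl⟩
  rw [← h2]

theorem XX_base (K : Subfield F) {C : μ × Bool × ι → Ω} (hC : Gn F C) (β : μ → ι → F)
    (l : List (ι → F)) : XX (cb K C β ∅) (l.map (up Ω)) = XX K l := by
  have h1 := XX_tower K hC β [] List.nodup_nil l
  have h2 : {i : μ | i ∈ ([] : List μ)} = ∅ := by
    ext i
    simp
  rwa [h2, List.map_nil, List.append_nil] at h1

theorem XX_nil (K : Subfield F) : XX K ([] : List (ι → F)) = Module.finrank K F := by
  let C : Fin 0 × Bool × ι → F := fun q => q.1.elim0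
  let β : Fin 0 → ι → F := fun q => q.elim0
  have hC : Gn F C := by
    refine ⟨algebraicIndependent_empty_type, ?_⟩
    rw [eq_top_iff]
    intro x _
    exact (IntermediateField.adjoin F (Set.range C)).algebraMap_mem x
  have h1 := XX_eq K hC β ([] : List (ι → F)) (Equiv.refl _) fun i => i.elim0
  have h2 : cb K C β Set.univ = K := by
    unfold cb
    have h3 : Set.range C = ∅ := Set.range_eq_empty C
    have h4 : gu C β '' Set.univ = ∅ := by
      rw [Set.image_univ]
      exact Set.range_eq_empty _
    rw [h3, h4, Set.union_empty, Set.union_empty, Algebra.algebraMap_self, RingHom.coe_id,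
      Set.image_id, Subfield.closure_eq]
  rw [← h1, h2]

end Pool.Agent.Lib.MP_1e3e9c_agU
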