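import Mathlib
import Pool.Agent.Lib.MP_1e3e9c_agU.C4

/-!
# MP_1e3e9c_ag, project U, leaf C5: the transcendence degree of cuts

`FF_base`: `Ω = F(C)` is finitely generated over `K(C)`, and a transcendence basis of `F/K` is one
of `F(C)/K(C)`.
`ind_of_pos`: if `[Ω : K(C)(u)]` is finite and `trdeg = number of the u_i`, the `u_i` are a
transcendence basis of `Ω / K(C)`, so algebraically independent over `K(C)`.
`FF_cb`: so the `u_i`, `i ∈ s`, are algebraically independent over `K(C)`, and the transcendence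
degree drops by `s.length`. (Work in the model `Ω₂ = Ω(C')` where the additional points `l` have
their own coefficients: `XX K (l ++ s.map β) > 0`, `XX_tower`.)
`pos_of_FF`: a finitely generated extension of transcendence degree `0` is finite.
-/

set_option autoImplicit false

namespace Pool.Agent.Lib.MP_1e3e9c_agU

open IsLocalRing Pool.Agent.Lib.MP_b197b4_ntK

/-- A field generated by a set is algebraic over the ring generated by the set. -/
private lemma C5_alg {A B : Type} [Field A] [Field B] [Algebra A B] {S : Set B}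
    (h : IntermediateField.adjoin A S = ⊤) : Algebra.IsAlgebraic (Algebra.adjoin A S) B := by
  refine ⟨fun b => ?_⟩
  have hb : b ∈ IntermediateField.adjoin A S := by
    rw [h]
    exact IntermediateField.mem_top
  induction hb using IntermediateField.adjoin_induction with
  | mem x hx =>
    exact isAlgebraic_algebraMap (⟨x, Algebra.subset_adjoin hx⟩ : Algebra.adjoin A S)
  | algebraMap x =>
    exact isAlgebraic_algebraMap (algebraMap A (Algebra.adjoin A S) x)
  | add x y _ _ hx hy => exact hx.add hy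
  | inv x _ hx => exact hx.inv
  | mul x y _ _ hx hy => exact hx.mul hy

/-- The transcendence degrees in a tower `A ⊆ B = A(x) ⊆ Ω`. -/
private lemma C5_gen {A Ω I : Type} [Field A] [Field Ω] [Algebra A Ω] [Finite I] (x : I → Ω)
    (B : Subfield Ω) (hB : B = Subfield.closure (Set.range (algebraMap A Ω) ∪ Set.range x)) :
    (Algebra.trdeg A Ω ≤ Cardinal.mk I + Algebra.trdeg B Ω) ∧
    (AlgebraicIndependent A x → Algebra.trdeg A Ω = Cardinal.mk I + Algebra.trdeg B Ω) ∧
    (Algebra.trdeg B Ω < Cardinal.aleph0 →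
      Cardinal.mk I + Algebra.trdeg B Ω ≤ Algebra.trdeg A Ω → AlgebraicIndependent A x) := by
  have hA : ∀ a : A, algebraMap A Ω a ∈ B := fun a => by
    rw [hB]
    exact Subfield.subset_closure (Or.inl ⟨a, rfl⟩)
  have hx : ∀ i, x i ∈ B := fun i => by
    rw [hB]
    exact Subfield.subset_closure (Or.inr ⟨i, rfl⟩)
  let _ : Algebra A B := ((algebraMap A Ω).codRestrict B.toSubring hA).toAlgebra
  have _ : IsScalarTower A B Ω := IsScalarTower.of_algebraMap_eq fun a => rfl
  have _ : FaithfulSMul A B :=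
    (faithfulSMul_iff_algebraMap_injective A B).2 (algebraMap A B).injective
  let x' : I → B := fun i => ⟨x i, hx i⟩
  have htop : IntermediateField.adjoin A (Set.range x') = ⊤ := by
    rw [eq_top_iff]
    intro b _
    have key : ∀ (z : Ω) (hz : z ∈ B), (⟨z, hz⟩ : B) ∈ IntermediateField.adjoin A (Set.range x') := by
      have h1 : B ≤ ((IntermediateField.adjoin A (Set.range x')).toSubfield).map B.subtype := by
        intro z hz
        rw [hB] at hz
        refine Subfield.closure_le.2 ?_ hz
        rintro w (⟨a, rfl⟩ | ⟨i, rfl⟩)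
        · exact ⟨algebraMap A B a, IntermediateField.algebraMap_mem _ a, rfl⟩
        · exact ⟨x' i, IntermediateField.subset_adjoin A _ ⟨i, rfl⟩, rfl⟩
      intro z hz
      obtain ⟨y, hy, hyz⟩ := h1 hz
      have h2 : y = ⟨z, hz⟩ := Subtype.ext hyz
      rw [← h2]
      exact hy
    exact key b.1 b.2
  have halg : Algebra.IsAlgebraic (Algebra.adjoin A (Set.range x')) B := C5_alg htop
  have htow : Algebra.trdeg A B + Algebra.trdeg B Ω = Algebra.trdeg A Ω := trdeg_add_eq A B
  have hcomp : (IsScalarTower.toAlgHom A B Ω) ∘ x' = x := rfl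
  refine ⟨?_, fun hi => ?_, fun hfin hle => ?_⟩
  · rw [← htow]
    gcongr
    exact (Algebra.IsAlgebraic.trdeg_le_cardinalMk A (Set.range x')).trans Cardinal.mk_range_le
  · have h1 : AlgebraicIndependent A x' := by
      refine AlgebraicIndependent.of_comp (IsScalarTower.toAlgHom A B Ω) ?_
      rw [hcomp]
      exact hi
    have h2 : IsTranscendenceBasis A x' := h1.isTranscendenceBasis_iff_isAlgebraic.2 halg
    rw [← htow, h2.cardinalMk_eq_trdeg]
  · have h1 : Cardinal.mk I ≤ Algebra.trdeg A B := by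
      rw [← htow] at hle
      exact (Cardinal.add_le_add_iff_of_lt_aleph0 hfin).1 hle
    have h2 : IsTranscendenceBasis A x' :=
      Algebra.IsAlgebraic.isTranscendenceBasis_of_le_trdeg_of_finite A x' h1
    have h3 := h2.1.map' (f := IsScalarTower.toAlgHom A B Ω) (algebraMap B Ω).injective
    rw [hcomp] at h3
    exact h3

variable {F ι Ω μ : Type} [Field F] [Fintype ι] [Field Ω] [Algebra F Ω] [Finite μ]
  {K : Subfield F}

private lemma C5_fg (hF : (⊤ : IntermediateField K F).FG) {C : μ × Bool × ι → Ω} (hC : Gn F C)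
    (β : μ → ι → F) (S : Set μ) : (⊤ : IntermediateField (cb K C β S) Ω).FG := by
  classical
  obtain ⟨t, ht⟩ := hF
  refine ⟨t.image (algebraMap F Ω), ?_⟩
  set L := IntermediateField.adjoin (cb K C β S) ((t.image (algebraMap F Ω) : Finset Ω) : Set Ω) with hL
  have hcb : ∀ z ∈ cb K C β S, z ∈ L := fun z hz => L.algebraMap_mem (⟨z, hz⟩ : cb K C β S)
  have h1 : ∀ a : F, algebraMap F Ω a ∈ L := by
    have h2 : (⊤ : IntermediateField K F).toSubfield ≤ L.toSubfield.comap (algebraMap F Ω) := by
      rw [← ht]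
      intro a ha
      induction ha using IntermediateField.adjoin_induction with
      | mem x hx =>
        exact IntermediateField.subset_adjoin _ _ (Finset.mem_coe.2 (Finset.mem_image_of_mem _ hx))
      | algebraMap x =>
        refine hcb _ (Subfield.subset_closure (Or.inl (Or.inl ⟨x.1, x.2, rfl⟩)))
      | add x y _ _ hx hy => exact Subfield.add_mem _ hx hy
      | inv x _ hx => exact Subfield.inv_mem _ hx
      | mul x y _ _ hx hy => exact Subfield.mul_mem _ hx hy
    intro a
    have h3 : a ∈ (⊤ : IntermediateField K F) := IntermediateField.mem_top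
    exact h2 h3
  rw [eq_top_iff]
  intro z _
  have hz : z ∈ IntermediateField.adjoin F (Set.range C) := by
    rw [hC.2]
    exact IntermediateField.mem_top
  induction hz using IntermediateField.adjoin_induction with
  | mem x hx =>
    exact hcb _ (Subfield.subset_closure (Or.inl (Or.inr hx)))
  | algebraMap x => exact h1 x
  | add x y _ _ hx hy => exact L.add_mem (hx trivial) (hy trivial)
  | inv x _ hx => exact L.inv_mem (hx trivial)
  | mul x y _ _ hx hy => exact L.mul_mem (hx trivial) (hy trivial)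

private lemma C5_base {C : μ × Bool × ι → Ω} (hC : Gn F C) (β : μ → ι → F) :
    Algebra.trdeg (cb K C β ∅) Ω = Algebra.trdeg K F := by
  have _ : Algebra.IsAlgebraic (Algebra.adjoin F (Set.range C)) Ω := C5_alg hC.2
  have h1 : IsTranscendenceBasis F C := hC.1.isTranscendenceBasis_iff_isAlgebraic.2 inferInstance
  have h2 : Algebra.trdeg K F + Algebra.trdeg F Ω = Algebra.trdeg K Ω := trdeg_add_eq K F
  have hB : cb K C β ∅ = Subfield.closure (Set.range (algebraMap K Ω) ∪ Set.range C) := by
    unfold cb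
    rw [Set.image_empty, Set.union_empty]
    congr 2
    ext z
    constructor
    · rintro ⟨a, ha, rfl⟩
      exact ⟨⟨a, ha⟩, rfl⟩
    · rintro ⟨a, rfl⟩
      exact ⟨a.1, a.2, rfl⟩
  have hi : AlgebraicIndependent K C :=
    hC.1.restrictScalars (algebraMap K F).injective
  have h3 := (C5_gen C (cb K C β ∅) hB).2.1 hi
  rw [← h2, ← h1.cardinalMk_eq_trdeg, add_comm] at h3
  exact (Cardinal.eq_of_add_eq_add_left h3 (Cardinal.lt_aleph0_of_finite _)).symm

private lemma C5_cb (C : μ × Bool × ι → Ω) (β : μ → ι → F) (S : Set μ) :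
    cb K C β S = Subfield.closure (Set.range (algebraMap (cb K C β ∅) Ω) ∪
      Set.range (fun i : {i // i ∈ S} => gu C β i)) := by
  apply le_antisymm
  · unfold cb
    rw [Subfield.closure_le]
    rintro z (hz | ⟨i, hi, rfl⟩)
    · refine Subfield.subset_closure (Or.inl ⟨⟨z, Subfield.subset_closure (Or.inl hz)⟩, rfl⟩)
    · exact Subfield.subset_closure (Or.inr ⟨⟨i, hi⟩, rfl⟩)
  · rw [Subfield.closure_le]
    rintro z (⟨a, rfl⟩ | ⟨i, rfl⟩)
    · have h1 : cb K C β ∅ ≤ cb K C β S := by
        unfold cb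
        apply Subfield.closure_mono
        rw [Set.image_empty, Set.union_empty]
        exact Set.subset_union_left
      exact h1 a.2
    · exact Subfield.subset_closure (Or.inr ⟨i.1, i.2, rfl⟩)

private lemma C5_bound {F ι : Type} [Field F] [Fintype ι] {K : Subfield F} (l : List (ι → F))
    (h : 0 < XX K l) : Algebra.trdeg K F ≤ (l.length : Cardinal) := by
  have hC := gn_gc F (Fin l.length × Bool × ι)
  have h1 : Algebra.trdeg (cb K (gc F (Fin l.length × Bool × ι)) l.get ∅)
      (GF F (Fin l.length × Bool × ι)) = Algebra.trdeg K F := C5_base hC l.get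
  have h2 := (C5_gen (fun i : {i // i ∈ (Set.univ : Set (Fin l.length))} =>
    gu (gc F (Fin l.length × Bool × ι)) l.get i) _
    (C5_cb (K := K) (gc F (Fin l.length × Bool × ι)) l.get Set.univ)).1
  have h3 : Module.Finite (cb K (gc F (Fin l.length × Bool × ι)) l.get Set.univ)
      (GF F (Fin l.length × Bool × ι)) := Module.finite_of_finrank_pos h
  have h4 : Algebra.IsAlgebraic (cb K (gc F (Fin l.length × Bool × ι)) l.get Set.univ)
      (GF F (Fin l.length × Bool × ι)) := Algebra.IsAlgebraic.of_finite _ _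
  rw [h1, trdeg_eq_zero_iff.2 h4, add_zero] at h2
  refine h2.trans (le_of_eq ?_)
  rw [Cardinal.mk_congr (Equiv.subtypeUnivEquiv fun i => Set.mem_univ i), Cardinal.mk_fin]

private lemma C5_card (s : List μ) (hs : s.Nodup) :
    Cardinal.mk {i // i ∈ {i : μ | i ∈ s}} = (s.length : Cardinal) := by
  classical
  have h1 : Cardinal.mk {i // i ∈ s.toFinset} = (s.toFinset.card : Cardinal) := Cardinal.mk_coe_finset
  rw [List.toFinset_card_of_nodup hs] at h1
  rw [← h1]
  exact Cardinal.mk_congr (Equiv.subtypeEquivRight fun i => (List.mem_toFinset).symm)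

theorem FF_base {m : ℕ} (hF : FF K m) {C : μ × Bool × ι → Ω} (hC : Gn F C) (β : μ → ι → F) :
    FF (cb K C β ∅) m :=
  ⟨C5_fg hF.1 hC β ∅, (C5_base hC β).trans hF.2⟩

theorem ind_of_pos {m : ℕ} (hF : FF K m) {C : μ × Bool × ι → Ω} (hC : Gn F C) (β : μ → ι → F)
    (s : List μ) (hs : s.Nodup) (l : List (ι → F)) (hm : l.length + s.length = m)
    (hpos : 0 < XX K (l ++ s.map β)) :
    AlgebraicIndependent (cb K C β ∅) (fun i : {i // i ∈ s} => gu C β i) := by
  rw [← XX_tower K hC β s hs l] at hpos
  have h1 := C5_bound _ hpos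
  rw [List.length_map] at h1
  refine (C5_gen (fun i : {i // i ∈ {i : μ | i ∈ s}} => gu C β i) _
    (C5_cb (K := K) C β {i | i ∈ s})).2.2 (h1.trans_lt (Cardinal.natCast_lt_aleph0)) ?_
  rw [C5_base hC β, hF.2, C5_card s hs, ← hm, Nat.cast_add, add_comm]
  gcongr

theorem FF_cb_of_ind {e : ℕ} {C : μ × Bool × ι → Ω} (hC : Gn F C) (β : μ → ι → F)
    (s : List μ) (hs : s.Nodup) (hF : FF K (e + s.length))
    (hi : AlgebraicIndependent (cb K C β ∅) (fun i : {i // i ∈ s} => gu C β i)) :
    FF (cb K C β {i | i ∈ s}) e := by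
  refine ⟨C5_fg hF.1 hC β _, ?_⟩
  have h1 := (C5_gen (fun i : {i // i ∈ {i : μ | i ∈ s}} => gu C β i) _
    (C5_cb (K := K) C β {i | i ∈ s})).2.1 hi
  rw [C5_base hC β, hF.2, C5_card s hs, Nat.cast_add, add_comm] at h1
  exact (Cardinal.eq_of_add_eq_add_left h1 (Cardinal.natCast_lt_aleph0)).symm

theorem FF_cb {e : ℕ} {C : μ × Bool × ι → Ω} (hC : Gn F C) (β : μ → ι → F)
    (s : List μ) (hs : s.Nodup) (hF : FF K (e + s.length)) (l : List (ι → F)) (hl : l.length = e)
    (hpos : 0 < XX K (l ++ s.map β)) : FF (cb K C β {i | i ∈ s}) e :=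
  FF_cb_of_ind hC β s hs hF (ind_of_pos hF hC β s hs l (by rw [hl]) hpos)

theorem FF_zero_pos (h : FF K 0) : 0 < Module.finrank K F := by
  obtain ⟨⟨t, ht⟩, h2⟩ := h
  rw [Nat.cast_zero] at h2
  have h3 : Algebra.IsAlgebraic K F := trdeg_eq_zero_iff.1 h2
  have h4 : FiniteDimensional K (IntermediateField.adjoin K (t : Set F)) :=
    IntermediateField.finiteDimensional_adjoin fun x _ => (h3.isAlgebraic x).isIntegral
  rw [ht] at h4
  have h5 : FiniteDimensional K F :=
    LinearEquiv.finiteDimensional (IntermediateField.topEquiv (F := K) (E := F)).toLinearEquiv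
  exact Module.finrank_pos

/-- If `XX ≠ 0` fails for the cut, all the mixed degrees vanish. -/
theorem pos_of_FF_zero {C : μ × Bool × ι → Ω} (hC : Gn F C) (β : μ → ι → F)
    (s : List μ) (hs : s.Nodup) (h : FF (cb K C β {i | i ∈ s}) 0) : 0 < XX K (s.map β) := by
  have h1 := XX_tower K hC β s hs []
  rw [List.map_nil, XX_nil, List.nil_append] at h1
  rw [← h1]
  exact FF_zero_pos h

end Pool.Agent.Lib.MP_1e3e9c_agU
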