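import Mathlib
import Pool.Agent.Lib.MP_1e3e9c_agU.C5

/-!
# MP_1e3e9c_ag, project U, leaf C5d: constant points

`cut_dich`: `u = Y / Y'`, `Y = ∑ C_j z_j`, `Y' = ∑ C'_j z_j`. Suppose `u` is algebraic over `K(C)`
(all of `C`, `C'`). Let `z_i ≠ 0`. Put `F₁ = F`, and let `K' = ` the algebraic closure of `K` in `F`;
the algebraic closure of `K(C)` in `F(C)` is `K'(C)` (`F(C) ∩ algebraic closure`: an element of
`F(C)` which is algebraic over `K(C)` has, normalised as a quotient of polynomials with one
coefficient 1, all coefficients algebraic over `K`). The quotient `Y / Y'` divided numerator and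
denominator by `z_i`: coefficients `z_j / z_i` (numerator: coefficient of `C_j`, with the coefficient
`1` of `C_i`; the numerator and denominator are coprime polynomials, they are linear forms in different
variables): so all `z_j / z_i` are algebraic over `K`: `Con K z`. Otherwise `u` is transcendental over
`K(C)` and the transcendence degree drops by one (`FF_cb_of_ind`).
(Alternative for the first part: specialise the `C` to elements of `K`, `K` infinite.)
`XX_con`: if `z` is constant, `u` is algebraic over `K(C)`, so `[F(C) : K(C)(u, u_l)]` is infinite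
when `trdeg = length + 1`.
-/

set_option autoImplicit false

namespace Pool.Agent.Lib.MP_1e3e9c_agU

open IsLocalRing Pool.Agent.Lib.MP_b197b4_ntK

variable {F ι Ω : Type} [Field F] [CharZero F] [Fintype ι] [Field Ω] [Algebra F Ω]
  {K : Subfield F}

private theorem C5d_pow {A B : Type} [Field A] [Field B] [Algebra A B] {x : B}
    (hx : Transcendental A x) : LinearIndependent A (fun n : ℕ => x ^ n) := by
  rw [linearIndependent_iff']
  intro s g hg i hi
  have h1 : (∑ n ∈ s, Polynomial.monomial n (g n)) = 0 := by
    refine (transcendental_iff.1 hx) _ ?_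
    rw [map_sum]
    simpa only [Polynomial.aeval_monomial, ← Algebra.smul_def] using hg
  have h2 := congrArg (fun p => Polynomial.coeff p i) h1
  simp only [Polynomial.finsetSum_coeff, Polynomial.coeff_monomial, Polynomial.coeff_zero] at h2
  rwa [Finset.sum_ite_eq' s i g, if_pos hi] at h2

/-- An element of `F` which is algebraic over `K(C)` is algebraic over `K`. -/
private theorem C5d_low {F Ω σ : Type} [Field F] [Field Ω] [Algebra F Ω] {K : Subfield F}
    {C : σ → Ω} (hC : Gn F C) {x : F}
    (h : IsAlgebraic (Subfield.closure ((algebraMap F Ω '' (K : Set F)) ∪ Set.range C))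
      (algebraMap F Ω x)) : IsAlgebraic K x := by
  by_contra hx
  have h2 := linInd_pure hC K (C5d_pow hx)
  obtain ⟨p, hp0, hp⟩ := h
  apply hp0
  ext n
  rw [Polynomial.aeval_eq_sum_range] at hp
  by_cases hn : n ∈ Finset.range (p.natDegree + 1)
  · have h3 := linearIndependent_iff'.1 h2 (Finset.range (p.natDegree + 1)) p.coeff (by
      simp only [map_pow]
      exact hp) n hn
    rw [h3, Polynomial.coeff_zero]
  · rw [Finset.mem_range, not_lt] at hn
    rw [Polynomial.coeff_eq_zero_of_natDegree_lt (by omega), Polynomial.coeff_zero]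

private theorem C5d_cb {F ι Ω μ : Type} [Field F] [Fintype ι] [Field Ω] [Algebra F Ω]
    (K : Subfield F) (C : μ × Bool × ι → Ω) (β : μ → ι → F) :
    cb K C β ∅ = Subfield.closure ((algebraMap F Ω '' (K : Set F)) ∪ Set.range C) := by
  unfold cb
  rw [Set.image_empty, Set.union_empty]

/-- The translation of one coefficient. -/
private theorem C5d_shift {F Ω σ : Type} [Field F] [Field Ω] [Algebra F Ω] {C : σ → Ω}
    (hC : Gn F C) (q : σ) : ∃ Φ : Ω →ₐ[F] Ω, Φ (C q) = C q + 1 ∧ ∀ r, r ≠ q → Φ (C r) = C r := by
  classical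
  let C2 : σ → Ω := Function.update C q (C q + 1)
  have hC2 : AlgebraicIndependent F C2 := by
    have e1 : ((MvPolynomial.aeval (Function.update (MvPolynomial.X (R := F)) q
        (MvPolynomial.X q - 1)) : MvPolynomial σ F →ₐ[F] MvPolynomial σ F)).comp
        (MvPolynomial.aeval (Function.update (MvPolynomial.X (R := F)) q
        (MvPolynomial.X q + 1))) = AlgHom.id F _ := by
      apply MvPolynomial.algHom_ext
      intro i
      rw [AlgHom.comp_apply, MvPolynomial.aeval_X, AlgHom.id_apply]
      by_cases hi : i = q
      · subst hi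
        rw [Function.update_self, map_add, MvPolynomial.aeval_X, Function.update_self, map_one]
        ring
      · rw [Function.update_of_ne hi, MvPolynomial.aeval_X, Function.update_of_ne hi]
    have e2 : (MvPolynomial.aeval C2 : MvPolynomial σ F →ₐ[F] Ω) =
        (MvPolynomial.aeval C : MvPolynomial σ F →ₐ[F] Ω).comp
        (MvPolynomial.aeval (Function.update (MvPolynomial.X (R := F)) q
        (MvPolynomial.X q + 1))) := by
      apply MvPolynomial.algHom_ext
      intro i
      rw [AlgHom.comp_apply, MvPolynomial.aeval_X, MvPolynomial.aeval_X]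
      by_cases hi : i = q
      · subst hi
        rw [Function.update_self, map_add, MvPolynomial.aeval_X, map_one]
        exact Function.update_self _ _ _
      · rw [Function.update_of_ne hi, MvPolynomial.aeval_X]
        exact Function.update_of_ne hi _ _
    rw [algebraicIndependent_iff_injective_aeval, e2]
    have h3 : Function.Injective (MvPolynomial.aeval (Function.update (MvPolynomial.X (R := F)) q
        (MvPolynomial.X q + 1)) : MvPolynomial σ F →ₐ[F] MvPolynomial σ F) := by
      intro a b hab
      have h4 := congrArg (MvPolynomial.aeval (Function.update (MvPolynomial.X (R := F)) q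
        (MvPolynomial.X q - 1)) : MvPolynomial σ F →ₐ[F] MvPolynomial σ F) hab
      rw [← AlgHom.comp_apply, ← AlgHom.comp_apply, e1] at h4
      exact h4
    exact (algebraicIndependent_iff_injective_aeval.1 hC.1).comp h3
  let Φ1 : FractionRing (MvPolynomial σ F) ≃ₐ[F] Ω :=
    (hC.1.aevalEquivField.trans (IntermediateField.equivOfEq hC.2)).trans
      IntermediateField.topEquiv
  let Φ2 : FractionRing (MvPolynomial σ F) →ₐ[F] Ω :=
    (IntermediateField.val _).comp hC2.aevalEquivField.toAlgHom
  have h1 : ∀ r, Φ1 (algebraMap (MvPolynomial σ F) (FractionRing (MvPolynomial σ F))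
      (MvPolynomial.X r)) = C r := by
    intro r
    have h2 := hC.1.aevalEquivField_algebraMap_apply_coe (MvPolynomial.X r)
    rw [MvPolynomial.aeval_X] at h2
    exact h2
  have h2 : ∀ r, Φ2 (algebraMap (MvPolynomial σ F) (FractionRing (MvPolynomial σ F))
      (MvPolynomial.X r)) = C2 r := by
    intro r
    have h2 := hC2.aevalEquivField_algebraMap_apply_coe (MvPolynomial.X r)
    rw [MvPolynomial.aeval_X] at h2
    exact h2
  have h3 : ∀ r, (Φ2.comp Φ1.symm.toAlgHom) (C r) = C2 r := by
    intro r
    rw [AlgHom.comp_apply, ← h2 r, ← h1 r]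
    congr 1
    exact Φ1.symm_apply_apply _
  refine ⟨Φ2.comp Φ1.symm.toAlgHom, ?_, fun r hr => ?_⟩
  · rw [h3]
    exact Function.update_self _ _ _
  · rw [h3]
    exact Function.update_of_ne hr _ _

/-- The denominator is not zero. -/
private theorem C5d_den {F Ω μ ι : Type} [Field F] [Field Ω] [Algebra F Ω] [Fintype ι]
    {C : μ × Bool × ι → Ω} (hC : Gn F C) (i : μ) (b : Bool) {z : ι → F} (hz : z ≠ 0) :
    ∑ j, C (i, b, j) * algebraMap F Ω (z j) ≠ 0 := by
  intro h
  apply hz
  have h1 : LinearIndependent F (fun j => C (i, b, j)) :=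
    (hC.1.comp (fun j : ι => (i, b, j)) (fun a b h => by simpa using h)).linearIndependent
  funext j
  refine Fintype.linearIndependent_iff.1 h1 z ?_ j
  rw [← h]
  refine Finset.sum_congr rfl fun j _ => ?_
  rw [Algebra.smul_def, mul_comm]

theorem cut_dich {m : ℕ} (hF : FF K (m + 1)) {C : Unit × Bool × ι → Ω} (hC : Gn F C) {z : ι → F}
    (hz : z ≠ 0) : Con K z ∨ FF (cb K C (fun _ => z) Set.univ) m := by
  by_cases hal : IsAlgebraic (cb K C (fun _ => z) ∅) (gu C (fun _ => z) ())
  · left
    have key : ∀ i, IsAlgebraic (cb K C (fun _ => z) ∅)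
        (algebraMap F Ω (z i) / ∑ j, C ((), true, j) * algebraMap F Ω (z j)) := by
      intro i
      obtain ⟨Φ, h1, h2⟩ := C5d_shift hC ((), false, i)
      have hΦ : ∀ a ∈ cb K C (fun _ => z) ∅, Φ a ∈ cb K C (fun _ => z) ∅ := by
        intro a ha
        have h3 : cb K C (fun _ => z) ∅ ≤ (cb K C (fun _ => z) ∅).comap (Φ : Ω →+* Ω) := by
          conv_lhs => rw [C5d_cb]
          rw [Subfield.closure_le]
          rintro y (⟨x, hx, rfl⟩ | ⟨r, rfl⟩)
          · change Φ (algebraMap F Ω x) ∈ cb K C (fun _ => z) ∅
            rw [Φ.commutes, C5d_cb]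
            exact Subfield.subset_closure (Or.inl ⟨x, hx, rfl⟩)
          · change Φ (C r) ∈ cb K C (fun _ => z) ∅
            have h4 : ∀ r, C r ∈ cb K C (fun _ => z) ∅ := fun r => by
              rw [C5d_cb]
              exact Subfield.subset_closure (Or.inr ⟨r, rfl⟩)
            by_cases hr : r = ((), false, i)
            · rw [hr, h1]
              exact add_mem (h4 _) (one_mem _)
            · rw [h2 r hr]
              exact h4 r
        exact h3 ha
      let f : cb K C (fun _ => z) ∅ →+* cb K C (fun _ => z) ∅ :=
        ((Φ : Ω →+* Ω).comp (cb K C (fun _ => z) ∅).subtype).codRestrict _ (fun a => hΦ a a.2)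
      have h5 := hal.ringHom_of_comp_eq f (Φ : Ω →+* Ω) f.injective rfl
      have h6 := h5.sub hal
      have h7 : (Φ : Ω →+* Ω) (gu C (fun _ => z) ()) - gu C (fun _ => z) () =
          algebraMap F Ω (z i) / ∑ j, C ((), true, j) * algebraMap F Ω (z j) := by
        change Φ (gu C (fun _ => z) ()) - gu C (fun _ => z) () = _
        unfold gu
        rw [map_div₀, map_sum, map_sum]
        have h8 : ∑ j, Φ (C ((), true, j) * algebraMap F Ω (z j)) =
            ∑ j, C ((), true, j) * algebraMap F Ω (z j) := by
          refine Finset.sum_congr rfl fun j _ => ?_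
          rw [map_mul, Φ.commutes, h2 _ (by simp)]
        have h9 : ∑ j, Φ (C ((), false, j) * algebraMap F Ω (z j)) =
            ∑ j, C ((), false, j) * algebraMap F Ω (z j) + algebraMap F Ω (z i) := by
          classical
          have h10 : ∀ j, Φ (C ((), false, j) * algebraMap F Ω (z j)) =
              C ((), false, j) * algebraMap F Ω (z j) +
                (if j = i then algebraMap F Ω (z j) else 0) := by
            intro j
            rw [map_mul, Φ.commutes]
            by_cases hj : j = i
            · rw [if_pos hj, hj, h1]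
              ring
            · rw [if_neg hj, h2 _ (by simp [hj]), add_zero]
          simp only [h10]
          rw [Finset.sum_add_distrib, Finset.sum_ite_eq' Finset.univ i, if_pos (Finset.mem_univ i)]
        rw [h8, h9, ← sub_div, add_sub_cancel_left]
      rwa [h7] at h6
    intro i j hj
    have h1 := (key i).mul (key j).inv
    have h2 : algebraMap F Ω (z i) / (∑ j, C ((), true, j) * algebraMap F Ω (z j)) *
        (algebraMap F Ω (z j) / ∑ j, C ((), true, j) * algebraMap F Ω (z j))⁻¹ =
        algebraMap F Ω (z i / z j) := by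
      have h3 := C5d_den hC () true hz
      have h4 : algebraMap F Ω (z j) ≠ 0 := (map_ne_zero _).2 hj
      rw [map_div₀]
      field_simp
    rw [h2, C5d_cb] at h1
    exact C5d_low hC h1
  · right
    have h1 : {i : Unit | i ∈ [()]} = Set.univ := by
      ext i
      simp
    rw [← h1]
    refine FF_cb_of_ind hC (fun _ => z) [()] (List.nodup_singleton _) hF ?_
    have : Unique {i : Unit // i ∈ [()]} := ⟨⟨⟨(), by simp⟩⟩, fun a => Subtype.ext rfl⟩
    rw [algebraicIndependent_unique_type_iff]
    exact hal

theorem XX_con (l : List (ι → F)) (hF : FF K (l.length + 1)) {z : ι → F} (hz : Con K z) :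
    XX K (z :: l) = 0 := by
  by_contra hne
  have hpos : 0 < XX K (z :: l) := Nat.pos_of_ne_zero hne
  have hC := gn_gc F (Unit × Bool × ι)
  have hp : (z :: l).Perm (l ++ [()].map (fun _ => z)) := by
    rw [List.map_singleton]
    exact (List.perm_append_singleton z l).symm
  rw [XX_perm K hp] at hpos
  have h1 := ind_of_pos hF hC (fun _ => z) [()] (List.nodup_singleton _) l rfl hpos
  have h2 := h1.transcendental ⟨(), by simp⟩
  apply h2
  change IsAlgebraic _ (gu (gc F (Unit × Bool × ι)) (fun _ => z) ())
  by_cases hz0 : z = 0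
  · have h3 : gu (gc F (Unit × Bool × ι)) (fun _ => z) () = 0 := by
      unfold gu
      rw [hz0]
      simp
    rw [h3]
    exact isAlgebraic_zero
  · obtain ⟨j, hj⟩ : ∃ j, z j ≠ 0 := Function.ne_iff.1 hz0
    have hc : ∀ i, IsAlgebraic (cb K (gc F (Unit × Bool × ι)) (fun _ => z) ∅)
        (algebraMap F (GF F (Unit × Bool × ι)) (z i / z j)) := by
      intro i
      let f : K →+* cb K (gc F (Unit × Bool × ι)) (fun _ => z) ∅ :=
        ((algebraMap F (GF F (Unit × Bool × ι))).comp K.subtype).codRestrict _ (fun a => by
          rw [C5d_cb]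
          exact Subfield.subset_closure (Or.inl ⟨a, a.2, rfl⟩))
      exact (hz i j hj).ringHom_of_comp_eq f (algebraMap F (GF F (Unit × Bool × ι))) f.injective rfl
    have hs : ∀ b, IsAlgebraic (cb K (gc F (Unit × Bool × ι)) (fun _ => z) ∅)
        (∑ i, gc F (Unit × Bool × ι) ((), b, i) *
          algebraMap F (GF F (Unit × Bool × ι)) (z i / z j)) := by
      intro b
      refine Finset.sum_induction _ (fun y => IsAlgebraic (cb K (gc F (Unit × Bool × ι)) (fun _ => z) ∅) y)
        (fun _ _ ha hb => ha.add hb) isAlgebraic_zero fun i _ => ?_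
      refine IsAlgebraic.mul ?_ (hc i)
      have h4 : gc F (Unit × Bool × ι) ((), b, i) ∈
          cb K (gc F (Unit × Bool × ι)) (fun _ => z) ∅ := by
        rw [C5d_cb]
        exact Subfield.subset_closure (Or.inr ⟨_, rfl⟩)
      exact isAlgebraic_algebraMap
        (⟨_, h4⟩ : cb K (gc F (Unit × Bool × ι)) (fun _ => z) ∅)
    have h5 : ∀ b, ∑ i, gc F (Unit × Bool × ι) ((), b, i) *
        algebraMap F (GF F (Unit × Bool × ι)) (z i) =
        algebraMap F (GF F (Unit × Bool × ι)) (z j) * ∑ i, gc F (Unit × Bool × ι) ((), b, i) *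
          algebraMap F (GF F (Unit × Bool × ι)) (z i / z j) := by
      intro b
      rw [Finset.mul_sum]
      refine Finset.sum_congr rfl fun i _ => ?_
      have h4 : algebraMap F (GF F (Unit × Bool × ι)) (z j) ≠ 0 := (map_ne_zero _).2 hj
      rw [map_div₀]
      field_simp
    have h6 := (hs false).mul (hs true).inv
    have h7 : gu (gc F (Unit × Bool × ι)) (fun _ => z) () =
        (∑ i, gc F (Unit × Bool × ι) ((), false, i) *
          algebraMap F (GF F (Unit × Bool × ι)) (z i / z j)) *
        (∑ i, gc F (Unit × Bool × ι) ((), true, i) *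
          algebraMap F (GF F (Unit × Bool × ι)) (z i / z j))⁻¹ := by
      unfold gu
      rw [h5, h5, mul_div_mul_left _ _ ((map_ne_zero _).2 hj), div_eq_mul_inv]
    rw [h7]
    exact h6

/-- A point with coordinates in `F` which is constant over `K(C)` is constant over `K`. -/
theorem con_base {μ : Type} {C : μ × Bool × ι → Ω} (hC : Gn F C) (β : μ → ι → F) {κ : Type}
    {z : κ → F} (hz : Con (cb K C β ∅) (up Ω z)) : Con K z := by
  intro i j hj
  have h1 := hz i j (by
    change algebraMap F Ω (z j) ≠ 0
    exact (map_ne_zero _).2 hj)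
  have h2 : up Ω z i / up Ω z j = algebraMap F Ω (z i / z j) := (map_div₀ _ _ _).symm
  rw [h2, C5d_cb] at h1
  exact C5d_low hC h1

end Pool.Agent.Lib.MP_1e3e9c_agU
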