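import Mathlib
import Pool.Agent.Lib.MP_1e3e9c_agU.C5

/-!
# MP_1e3e9c_ag, project U, leaf C5e: descent of finite generation

`Ω = F(C)` is finitely generated over `K(C)`. The generators are quotients of polynomials in `C` with
coefficients in `F`; let `F₁ ⊆ F` be the field generated over `K` by these finitely many coefficients:
`F₁(C) = F(C)`. An element `a ∈ F` is `P/Q`, `P, Q ∈ F₁[C]`, `Q ≠ 0`: `a Q = P`; compare a nonzero
coefficient of `Q`: `a ∈ F₁`. So `F = F₁`. The transcendence degree of `F(C)/K(C)` is that of `F/K`.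
-/

set_option autoImplicit false

namespace Pool.Agent.Lib.MP_1e3e9c_agU

open IsLocalRing Pool.Agent.Lib.MP_b197b4_ntK

variable {F ι Ω μ : Type} [Field F] [Fintype ι] [Field Ω] [Algebra F Ω] [Finite μ]
  {K : Subfield F}

/-- A polynomial expression with coefficients in `E1` is in a field which contains `E1` and the variables. -/
private theorem C5e_mem {σ : Type} (E1 : IntermediateField K F) (C : σ → Ω) (P : MvPolynomial σ F)
    (hP : ∀ d, P.coeff d ∈ E1) (M : Subfield Ω) (hM : ∀ a ∈ E1, algebraMap F Ω a ∈ M)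
    (hC : ∀ i, C i ∈ M) : MvPolynomial.aeval C P ∈ M := by
  rw [MvPolynomial.aeval_def, MvPolynomial.eval₂_eq]
  refine sum_mem fun d _ => mul_mem (hM _ (hP d)) (prod_mem fun i _ => pow_mem (hC i) _)

/-- The comparison of coefficients. -/
private theorem C5e_cmp {σ : Type} (E1 : IntermediateField K F) {C : σ → Ω} (hC : AlgebraicIndependent F C)
    (P Q : MvPolynomial σ E1) {a : F}
    (h : algebraMap F Ω a = MvPolynomial.aeval C P / MvPolynomial.aeval C Q) : a ∈ E1 := by
  by_cases hQ : MvPolynomial.aeval C Q = 0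
  · rw [hQ, div_zero] at h
    have h1 : a = 0 := (map_eq_zero (algebraMap F Ω)).1 h
    rw [h1]
    exact E1.zero_mem
  set P' := MvPolynomial.map (algebraMap E1 F) P with hP'
  set Q' := MvPolynomial.map (algebraMap E1 F) Q with hQ'
  have e1 : MvPolynomial.aeval C P' = MvPolynomial.aeval C P := MvPolynomial.aeval_map_algebraMap F C P
  have e2 : MvPolynomial.aeval C Q' = MvPolynomial.aeval C Q := MvPolynomial.aeval_map_algebraMap F C Q
  have h2 : MvPolynomial.aeval C (MvPolynomial.C a * Q' - P') = 0 := by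
    rw [map_sub, map_mul, MvPolynomial.algHom_C, e1, e2, h, div_mul_cancel₀ _ hQ, sub_self]
  have h3 : MvPolynomial.C a * Q' - P' = 0 := hC (h2.trans (map_zero _).symm)
  have h4 : Q' ≠ 0 := by
    intro h4
    rw [← e2, h4, map_zero] at hQ
    exact hQ rfl
  obtain ⟨d, hd⟩ := MvPolynomial.ne_zero_iff.1 h4
  have h5 : a * Q'.coeff d = P'.coeff d := by
    have h6 := congrArg (MvPolynomial.coeff d) (sub_eq_zero.1 h3)
    rwa [MvPolynomial.coeff_C_mul] at h6
  have h7 : Q'.coeff d ∈ E1 := by
    rw [hQ', MvPolynomial.coeff_map]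
    exact (Q.coeff d).2
  have h8 : P'.coeff d ∈ E1 := by
    rw [hP', MvPolynomial.coeff_map]
    exact (P.coeff d).2
  rw [eq_div_of_mul_eq hd h5]
  exact E1.div_mem h8 h7

omit [Finite μ] in
private theorem C5e_fg {C : μ × Bool × ι → Ω} (hC : Gn F C) (β : μ → ι → F)
    (h : (⊤ : IntermediateField (cb K C β ∅) Ω).FG) : (⊤ : IntermediateField K F).FG := by
  classical
  obtain ⟨S, hS⟩ := h
  have h1 : ∀ s : Ω, ∃ P Q : MvPolynomial (μ × Bool × ι) F,
      s = MvPolynomial.aeval C P / MvPolynomial.aeval C Q := fun s =>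
    (IntermediateField.mem_adjoin_range_iff F C s).1 (by
      rw [hC.2]
      trivial)
  choose P Q hPQ using h1
  let T : Set F := ⋃ s ∈ S, ((P s).coeff '' ((P s).support : Set _) ∪ (Q s).coeff '' ((Q s).support : Set _))
  have hT : T.Finite := S.finite_toSet.biUnion fun s _ =>
    ((P s).support.finite_toSet.image _).union ((Q s).support.finite_toSet.image _)
  let E1 : IntermediateField K F := IntermediateField.adjoin K T
  have hp : ∀ s ∈ S, ∀ d, (P s).coeff d ∈ E1 := by
    intro s hs d
    by_cases hd : d ∈ (P s).support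
    · exact IntermediateField.subset_adjoin K T (Set.mem_biUnion hs (Or.inl ⟨d, hd, rfl⟩))
    · rw [MvPolynomial.notMem_support_iff.1 hd]
      exact E1.zero_mem
  have hq : ∀ s ∈ S, ∀ d, (Q s).coeff d ∈ E1 := by
    intro s hs d
    by_cases hd : d ∈ (Q s).support
    · exact IntermediateField.subset_adjoin K T (Set.mem_biUnion hs (Or.inr ⟨d, hd, rfl⟩))
    · rw [MvPolynomial.notMem_support_iff.1 hd]
      exact E1.zero_mem
  let M : IntermediateField E1 Ω := IntermediateField.adjoin E1 (Set.range C)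
  have hM : ∀ a ∈ E1, algebraMap F Ω a ∈ M.toSubfield := fun a ha => M.algebraMap_mem ⟨a, ha⟩
  have hMC : ∀ i, C i ∈ M.toSubfield := fun i =>
    IntermediateField.subset_adjoin E1 (Set.range C) (Set.mem_range_self i)
  have h2 : (IntermediateField.adjoin (cb K C β ∅) (S : Set Ω)).toSubfield ≤ M.toSubfield := by
    rw [IntermediateField.adjoin_toSubfield, Subfield.closure_le]
    rintro x (⟨l, rfl⟩ | hx)
    · have h3 : cb K C β ∅ ≤ M.toSubfield := by
        rw [cb, Subfield.closure_le]
        rintro y ((⟨k, hk, rfl⟩ | ⟨i, rfl⟩) | ⟨i, hi, rfl⟩)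
        · exact hM k (E1.algebraMap_mem ⟨k, hk⟩)
        · exact hMC i
        · exact absurd hi (Set.notMem_empty i)
      exact h3 l.2
    · have h3 := hPQ x
      change x ∈ M.toSubfield
      rw [h3]
      exact M.toSubfield.div_mem (C5e_mem E1 C (P x) (hp x hx) M.toSubfield hM hMC)
        (C5e_mem E1 C (Q x) (hq x hx) M.toSubfield hM hMC)
  have h4 : ∀ x : Ω, x ∈ M := by
    intro x
    refine h2 ?_
    rw [hS]
    trivial
  have h5 : E1 = ⊤ := by
    refine top_unique fun a _ => ?_
    obtain ⟨r, s, hrs⟩ := (IntermediateField.mem_adjoin_range_iff E1 C (algebraMap F Ω a)).1 (h4 _)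
    exact C5e_cmp E1 hC.1 r s hrs
  rw [← h5]
  exact IntermediateField.fg_adjoin_of_finite hT

theorem FF_of_base {m : ℕ} {C : μ × Bool × ι → Ω} (hC : Gn F C) (β : μ → ι → F)
    (h : FF (cb K C β ∅) m) : FF K m := by
  have h1 : (⊤ : IntermediateField K F).FG := C5e_fg hC β h.1
  have h2 : Algebra.EssFiniteType K F := IntermediateField.fg_top_iff.1 h1
  obtain ⟨m', hm'⟩ := Cardinal.lt_aleph0.1 (trdeg_lt_aleph0 K F)
  have h3 : FF K m' := ⟨h1, hm'⟩
  have h4 := FF_base h3 hC β
  have h5 : (m' : Cardinal) = m := h4.2.symm.trans h.2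
  have h6 : m' = m := by exact_mod_cast h5
  rw [h6] at h3
  exact h3

end Pool.Agent.Lib.MP_1e3e9c_agU
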