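import Mathlib
import Pool.Agent.Lib.MP_1e3e9c_agU.C5
import Pool.Agent.Lib.MP_1e3e9c_agU.Vl
import Pool.Agent.Lib.MP_1e3e9c_agU.Defs2

/-!
# MP_1e3e9c_ag, project U, leaf C7a: the residues of the generic coefficients

`comap_dvr`: the value group of `V ∩ F` is a nontrivial subgroup of `ℤ`.

`res_indep`: `m = s.length + 1 = trdeg F/K`, `κ = K(C)(u_i, i ∈ s)`, `Ω = F(C)`, `trdeg Ω/κ = 1`, `V` a
discrete valuation ring of `Ω` with `κ ⊆ V`, `v = V ∩ F ≠ F`; `R₀`, `R` the residue fields of `v`, `V`,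
`R₀ → R` by `rhom`.
(1) The residues `c̄_q` of the `C_q` and `ū_i` of the `u_i` (`i ∈ s`) are algebraically independent over
the image of `K` in `R` (`κ ⊆ V` is a field, so `κ → R` is injective, and the `C_q`, `u_i` are
algebraically independent over `K`: trdeg count for `h1`).
(2) `trdeg_K R₀ ≤ m - 1 = s.length`: lift a family in `R₀` which is algebraically independent over
the image of `K`, and add an element of positive order: this family in `F` is algebraically
independent over `K` (look at the terms of a relation of lowest order in the additional element).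
(3) Let `β_i` (`i ∈ s`) be divided by a coordinate of minimal order, `b̄_i ∈ R₀^ι` the reductions
(`≠ 0`), `Ȳ_i = ∑ c̄_(i,0,j) b̄_ij`, `Ȳ'_i` the same with `c̄_(i,1,j)`. As `u_i` is a unit of `V` both
`Ȳ_i`, `Ȳ'_i` are nonzero (then `ū_i = Ȳ_i / Ȳ'_i ∈ R₀(c̄)`) or both are zero; let `Z` be the set of the
`i ∈ s` of the second kind. `trdeg_K R₀(c̄) ≤ s.length + |C| - 2 |Z|` (for `i ∈ Z` two of the `c̄` are in
the field generated by `R₀` and the other `c̄`), and `R₀(c̄)` contains the `c̄` and `ū_i`, `i ∈ s \ Z`, so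
`trdeg_K R₀(c̄) ≥ |C| + s.length - |Z|`. So `Z = ∅`, `trdeg_K R₀ = s.length` and the `c̄` are algebraically
independent over `R₀`.
-/

set_option autoImplicit false
set_option linter.unusedSectionVars false

namespace Pool.Agent.Lib.MP_1e3e9c_agU

open IsLocalRing Pool.Agent.Lib.MP_b197b4_ntK
open scoped IntermediateField.algebraAdjoinAdjoin

/-- `k → V` -/
private def C7a_j {E : Type} [Field E] {k : Subfield E} {V : ValuationSubring E}
    (hk : ∀ a ∈ k, a ∈ V) : k →+* V where
  toFun a := ⟨a, hk a a.2⟩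
  map_one' := rfl
  map_mul' _ _ := rfl
  map_zero' := rfl
  map_add' _ _ := rfl

/-- `k → resS k V` -/
private noncomputable def C7a_f {E : Type} [Field E] {k : Subfield E} {V : ValuationSubring E}
    (hk : ∀ a ∈ k, a ∈ V) : k →+* resS k V :=
  RingHom.codRestrict ((residue V).comp (C7a_j hk)) (resS k V) fun a =>
    Subfield.subset_closure ⟨a, a.2, res_of_mem (hk a a.2)⟩

private lemma C7a_f_coe {E : Type} [Field E] {k : Subfield E} {V : ValuationSubring E}
    (hk : ∀ a ∈ k, a ∈ V) (a : k) : ((C7a_f hk a : resS k V) : ResidueField V) = res V (a : E) :=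
  (res_of_mem (hk a a.2)).symm

private lemma C7a_f_surj {E : Type} [Field E] {k : Subfield E} {V : ValuationSubring E}
    (hk : ∀ a ∈ k, a ∈ V) : Function.Surjective (C7a_f hk) := by
  rintro ⟨y, hy⟩
  have h1 : resS k V ≤ ((residue V).comp (C7a_j hk)).fieldRange := by
    refine (Subfield.closure_le).2 ?_
    rintro _ ⟨a, ha, rfl⟩
    exact ⟨⟨a, ha⟩, (res_of_mem (hk a ha)).symm⟩
  obtain ⟨a, ha⟩ := h1 hy
  exact ⟨a, Subtype.ext ha⟩

private lemma C7a_poly {E : Type} [Field E] {k : Subfield E} {V : ValuationSubring E}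
    (hk : ∀ a ∈ k, a ∈ V) {ι : Type} {x : ι → E} (hx : ∀ i, x i ∈ V)
    (hr : AlgebraicIndependent (resS k V) fun i => res V (x i)) (P : MvPolynomial ι k)
    (hP : P ≠ 0) : V.valuation (MvPolynomial.aeval x P) = 1 := by
  obtain ⟨y, hy⟩ : ∃ y : V, y = MvPolynomial.eval₂ (C7a_j hk) (fun i => ⟨x i, hx i⟩) P := ⟨_, rfl⟩
  have h1 : (y : E) = MvPolynomial.aeval x P := by
    rw [hy, MvPolynomial.aeval_def]
    exact MvPolynomial.hom_eval₂ P (C7a_j hk) V.subtype _
  have h2 : residue V y = MvPolynomial.aeval (fun i => res V (x i)) (P.map (C7a_f hk)) := by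
    rw [hy, MvPolynomial.aeval_def, MvPolynomial.eval₂_map]
    refine (MvPolynomial.hom_eval₂ P (C7a_j hk) (residue V) _).trans ?_
    congr 1
    funext i
    exact (res_of_mem (hx i)).symm
  have h3 : residue V y ≠ 0 := by
    intro h
    rw [h2] at h
    have h4 := hr.eq_zero_of_aeval_eq_zero _ h
    exact hP (MvPolynomial.map_injective _ (C7a_f hk).injective (by rw [h4, map_zero]))
  rw [← h1, ← res_ne_zero_iff y.2, res_coe]
  exact h3

private lemma C7a_int {F : Type} [Field F] {v : ValuationSubring F} {k : Type} [Field k]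
    [Algebra k F] {E : IntermediateField k F} (hE : ∀ a ∈ E, a ∈ v) {y : F} (hy : IsAlgebraic E y) :
    y ∈ v := by
  obtain ⟨p, hp, hpy⟩ := hy.isIntegral
  have h1 : IsIntegral v y := by
    let e : E →+* v :=
      { toFun := fun a => ⟨a, hE a a.2⟩
        map_one' := rfl
        map_mul' := fun _ _ => rfl
        map_zero' := rfl
        map_add' := fun _ _ => rfl }
    refine ⟨p.map e, hp.map e, ?_⟩
    rw [Polynomial.eval₂_map]
    exact hpy
  obtain ⟨z, hz⟩ := IsIntegrallyClosed.algebraMap_eq_of_integral (R := v) (K := F) h1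
  rw [← hz]
  exact z.2

private lemma C7a_M1 {k R : Type} [Field k] [Field R] [Algebra k R] {ι κ : Type} [Fintype ι]
    [Fintype κ] {x : ι → R} (hx : AlgebraicIndependent k x) {y : κ → R}
    (h : ∀ i, IsAlgebraic (Algebra.adjoin k (Set.range y)) (x i)) :
    Fintype.card ι ≤ Fintype.card κ ∧
      (Fintype.card κ ≤ Fintype.card ι → AlgebraicIndependent k y) := by
  classical
  obtain ⟨M, hM⟩ : ∃ M, M = AlgebraicIndependent.matroid k R := ⟨_, rfl⟩
  have hX : M.Indep (Set.range x) := by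
    rw [hM, AlgebraicIndependent.matroid_indep_iff]
    exact hx.to_subtype_range
  have hcl : Set.range x ⊆ M.closure (Set.range y) := by
    rw [hM, AlgebraicIndependent.matroid_closure_eq]
    rintro _ ⟨i, rfl⟩
    exact h i
  have h1 : (Set.range x).encard ≤ M.eRk (Set.range y) := by
    rw [← hX.eRk_eq_encard, ← M.eRk_closure_eq (Set.range y)]
    exact M.eRk_mono hcl
  have h2 : M.eRk (Set.range y) ≤ (Set.range y).encard := M.eRk_le_encard _
  have h3 : (Set.range x).encard = Fintype.card ι := by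
    rw [← Set.image_univ, hx.injective.encard_image, Set.encard_univ, ENat.card_eq_coe_fintype_card]
  have h4 : (Set.range y).encard ≤ Fintype.card κ := by
    rw [← Set.image_univ, ← ENat.card_eq_coe_fintype_card, ← Set.encard_univ]
    exact Set.encard_image_le _ _
  have h5 : (Fintype.card ι : ℕ∞) ≤ Fintype.card κ := h3 ▸ (h1.trans (h2.trans h4))
  refine ⟨by exact_mod_cast h5, fun h6 => ?_⟩
  have h7 : (Fintype.card κ : ℕ∞) ≤ (Set.range x).encard := by
    rw [h3]
    exact_mod_cast h6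
  have h8 : M.eRk (Set.range y) = (Set.range y).encard :=
    le_antisymm h2 (h4.trans (h7.trans h1))
  have h9 : M.Indep (Set.range y) :=
    (Matroid.indep_iff_eRk_eq_encard_of_finite (Set.finite_range y)).2 h8
  have h10 : Function.Injective y := by
    have h11 : (Set.range y).encard = Fintype.card κ :=
      le_antisymm h4 (h7.trans (h1.trans h2))
    have h12 : Fintype.card (Set.range y) = Fintype.card κ := by
      have h13 : (Set.range y).encard = Fintype.card (Set.range y) := by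
        rw [← ENat.card_eq_coe_fintype_card]
        rfl
      rw [h13] at h11
      exact_mod_cast h11
    have h13 := (Fintype.bijective_iff_surjective_and_card (Set.rangeFactorization y)).2
      ⟨Set.rangeFactorization_surjective, h12.symm⟩
    exact fun a b hab => h13.1 (Subtype.ext hab)
  rw [hM, AlgebraicIndependent.matroid_indep_iff] at h9
  exact (algebraicIndependent_subtype_range h10).1 h9

private lemma C7a_sub {A B Ω : Type} [CommRing A] [CommRing B] [Field Ω] [Algebra A Ω] [Algebra B Ω]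
    (hA : Function.Injective (algebraMap A Ω)) (hB : Function.Injective (algebraMap B Ω))
    (h : ∀ a : A, ∃ b : B, algebraMap B Ω b = algebraMap A Ω a) {y : Ω} (hy : IsAlgebraic A y) :
    IsAlgebraic B y := by
  choose g hg using h
  let G : A →+* B :=
    { toFun := g
      map_one' := hB (by rw [hg, map_one, map_one])
      map_mul' := fun a b => hB (by rw [hg, map_mul, map_mul, hg, hg])
      map_zero' := hB (by rw [hg, map_zero, map_zero])
      map_add' := fun a b => hB (by rw [hg, map_add, map_add, hg, hg]) }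
  have hG : (algebraMap B Ω).comp G = algebraMap A Ω := RingHom.ext hg
  have hGi : Function.Injective G := by
    intro a b hab
    apply hA
    rw [← hg, ← hg]
    exact congrArg _ hab
  obtain ⟨p, hp, hpy⟩ := hy
  refine ⟨p.map G, (Polynomial.map_ne_zero_iff hGi).2 hp, ?_⟩
  rw [Polynomial.aeval_def, Polynomial.eval₂_map, hG]
  exact hpy

/-- an element algebraic over the field generated by `S` is algebraic over the algebra -/
private lemma C7a_alg {k Ω : Type} [Field k] [Field Ω] [Algebra k Ω] {S : Set Ω} {y : Ω}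
    (hy : IsAlgebraic (IntermediateField.adjoin k S) y) : IsAlgebraic (Algebra.adjoin k S) y :=
  (IsFractionRing.isAlgebraic_iff (Algebra.adjoin k S) (IntermediateField.adjoin k S) Ω).2 hy

private lemma C7a_core {k R₀ R μ ι I : Type} [Field k] [Field R₀] [Field R] [Algebra k R₀]
    [Algebra R₀ R] [Algebra k R] [IsScalarTower k R₀ R] [Finite μ] [Fintype ι] [Fintype I]
    {c : μ × Bool × ι → R} {u : I → R} (hcu : AlgebraicIndependent k (Sum.elim c u))
    {p : I → μ} (hp : Function.Injective p) {w : I → ι → R₀} {j₀ : I → ι}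
    (hj : ∀ i, w i (j₀ i) ≠ 0)
    (hrel : ∀ i, u i * ∑ j, c (p i, true, j) * algebraMap R₀ R (w i j) =
      ∑ j, c (p i, false, j) * algebraMap R₀ R (w i j))
    (htr : Algebra.trdeg k R₀ ≤ (Fintype.card I : Cardinal)) :
    AlgebraicIndependent R₀ c ∧ Algebra.trdeg k R₀ = (Fintype.card I : Cardinal) := by
  classical
  have := Fintype.ofFinite μ
  obtain ⟨b, hb⟩ := exists_isTranscendenceBasis k R₀
  have hb1 : Cardinal.mk b ≤ (Fintype.card I : Cardinal) := by
    rw [hb.cardinalMk_eq_trdeg]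
    exact htr
  have hbf : Finite b := by
    rw [← Cardinal.lt_aleph0_iff_finite]
    exact hb1.trans_lt (Cardinal.natCast_lt_aleph0)
  have := Fintype.ofFinite b
  have hb2 : Fintype.card b ≤ Fintype.card I := by
    rw [Cardinal.mk_fintype] at hb1
    exact_mod_cast hb1
  obtain ⟨Z, hZ⟩ : ∃ Z : Set I, ∀ i, i ∈ Z ↔ ∑ j, c (p i, true, j) * algebraMap R₀ R (w i j) = 0 :=
    ⟨{i | ∑ j, c (p i, true, j) * algebraMap R₀ R (w i j) = 0}, fun _ => Iff.rfl⟩
  have hZ0 : ∀ i ∈ Z, ∀ e, ∑ j, c (p i, e, j) * algebraMap R₀ R (w i j) = 0 := by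
    intro i hi e
    cases e with
    | true => exact (hZ i).1 hi
    | false => rw [← hrel i, (hZ i).1 hi, mul_zero]
  obtain ⟨Q, hQ⟩ : ∃ Q : Set (μ × Bool × ι), ∀ q, q ∈ Q ↔ ∃ i ∈ Z, q.1 = p i ∧ q.2.2 = j₀ i :=
    ⟨{q | ∃ i ∈ Z, q.1 = p i ∧ q.2.2 = j₀ i}, fun _ => Iff.rfl⟩
  obtain ⟨y, hy⟩ : ∃ y : b ⊕ {q // q ∉ Q} → R,
      y = Sum.elim (fun a : b => algebraMap R₀ R a) (fun q : {q // q ∉ Q} => c q) := ⟨_, rfl⟩
  -- the elements algebraic over `k (y)`
  obtain ⟨Lf, hLf⟩ : ∃ Lf : Subfield R, ∀ z, z ∈ Lf ↔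
      IsAlgebraic (Algebra.adjoin k (Set.range y)) z :=
    ⟨{ carrier := {z | IsAlgebraic (Algebra.adjoin k (Set.range y)) z}
       mul_mem' := fun h h' => IsAlgebraic.mul h h'
       one_mem' := isAlgebraic_one
       add_mem' := fun h h' => IsAlgebraic.add h h'
       zero_mem' := isAlgebraic_zero
       neg_mem' := fun h => IsAlgebraic.neg h
       inv_mem' := fun _ h => IsAlgebraic.inv h }, fun _ => Iff.rfl⟩
  have hmapA : ∀ (T : Set R), (∀ a : b, algebraMap R₀ R a ∈ T) →
      ∀ a ∈ Algebra.adjoin k (Set.range ((↑) : b → R₀)), algebraMap R₀ R a ∈ Algebra.adjoin k T := by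
    intro T hT a ha
    have h1 : IsScalarTower.toAlgHom k R₀ R a ∈
        (Algebra.adjoin k (Set.range ((↑) : b → R₀))).map (IsScalarTower.toAlgHom k R₀ R) :=
      ⟨a, ha, rfl⟩
    rw [AlgHom.map_adjoin] at h1
    refine Algebra.adjoin_mono ?_ h1
    rintro _ ⟨_, ⟨a, rfl⟩, rfl⟩
    exact hT a
  have hR₀ : ∀ r : R₀, algebraMap R₀ R r ∈ Lf := by
    intro r
    rw [hLf]
    have h1 := (hb.isAlgebraic.isAlgebraic r).algebraMap (A := R)
    refine C7a_sub ?_ (FaithfulSMul.algebraMap_injective _ _) (fun a => ?_) h1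
    · rw [IsScalarTower.algebraMap_eq (Algebra.adjoin k (Set.range ((↑) : b → R₀))) R₀ R]
      exact (algebraMap R₀ R).injective.comp Subtype.val_injective
    · refine ⟨⟨algebraMap R₀ R a, hmapA (Set.range y) (fun a => ⟨Sum.inl a, ?_⟩) a a.2⟩, rfl⟩
      rw [hy]
      rfl
  have hc1 : ∀ q, q ∉ Q → c q ∈ Lf := by
    intro q hq
    rw [hLf]
    have h1 : c q ∈ Algebra.adjoin k (Set.range y) := by
      refine Algebra.subset_adjoin ⟨Sum.inr ⟨q, hq⟩, ?_⟩
      rw [hy]
      rfl
    exact isAlgebraic_algebraMap (⟨c q, h1⟩ : Algebra.adjoin k (Set.range y))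
  have hc : ∀ q, c q ∈ Lf := by
    intro q
    by_cases hq : q ∈ Q
    · obtain ⟨i, hi, h1, h2⟩ := (hQ q).1 hq
      obtain ⟨m, e, j⟩ := q
      simp only at h1 h2
      subst h1 h2
      have h3 := hZ0 i hi e
      rw [← Finset.add_sum_erase _ _ (Finset.mem_univ (j₀ i))] at h3
      have h4 : algebraMap R₀ R (w i (j₀ i)) ≠ 0 := (map_ne_zero _).2 (hj i)
      have h5 : c (p i, e, j₀ i) = (-∑ j ∈ Finset.univ.erase (j₀ i),
          c (p i, e, j) * algebraMap R₀ R (w i j)) / algebraMap R₀ R (w i (j₀ i)) := by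
        rw [eq_div_iff h4]
        exact eq_neg_of_add_eq_zero_left h3
      rw [h5]
      refine Lf.div_mem (Lf.neg_mem (Lf.sum_mem fun j hj' => Lf.mul_mem (hc1 _ ?_) (hR₀ _))) (hR₀ _)
      intro h6
      obtain ⟨i', -, h7, h8⟩ := (hQ _).1 h6
      have h9 : i' = i := (hp h7).symm
      rw [h9] at h8
      exact Finset.ne_of_mem_erase hj' h8
    · exact hc1 q hq
  have hu : ∀ i, i ∉ Z → u i ∈ Lf := by
    intro i hi
    have h1 : ∑ j, c (p i, true, j) * algebraMap R₀ R (w i j) ≠ 0 := fun h => hi ((hZ i).2 h)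
    rw [eq_div_of_mul_eq h1 (hrel i)]
    exact Lf.div_mem (Lf.sum_mem fun j _ => Lf.mul_mem (hc _) (hR₀ _))
      (Lf.sum_mem fun j _ => Lf.mul_mem (hc _) (hR₀ _))
  have hx : AlgebraicIndependent k (Sum.elim c fun i : {i // i ∉ Z} => u i) := by
    have h1 := hcu.comp (Sum.map id ((↑) : {i // i ∉ Z} → I))
      (Sum.map_injective.2 ⟨Function.injective_id, Subtype.val_injective⟩)
    have h2 : Sum.elim c u ∘ Sum.map id ((↑) : {i // i ∉ Z} → I) =
        Sum.elim c fun i : {i // i ∉ Z} => u i := by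
      rw [Sum.elim_comp_map]
      rfl
    rwa [h2] at h1
  have hM := C7a_M1 hx (y := y) (by
    rintro (q | i)
    · exact (hLf _).1 (hc q)
    · exact (hLf _).1 (hu i i.2))
  rw [Fintype.card_sum, Fintype.card_sum] at hM
  have hcQ := Fintype.card_subtype_compl (fun q : μ × Bool × ι => q ∈ Q)
  have hcZ := Fintype.card_subtype_compl (fun i : I => i ∈ Z)
  have hQle : Fintype.card {q : μ × Bool × ι // q ∈ Q} ≤ Fintype.card (μ × Bool × ι) :=
    Fintype.card_subtype_le _
  have hZle : Fintype.card {i : I // i ∈ Z} ≤ Fintype.card I := Fintype.card_subtype_le _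
  have h2Z : Fintype.card {i : I // i ∈ Z} * 2 ≤ Fintype.card {q : μ × Bool × ι // q ∈ Q} := by
    have h1 : Fintype.card ({i : I // i ∈ Z} × Bool) ≤ Fintype.card {q : μ × Bool × ι // q ∈ Q} := by
      refine Fintype.card_le_of_injective
        (fun a => ⟨(p a.1, a.2, j₀ a.1), (hQ _).2 ⟨a.1, a.1.2, rfl, rfl⟩⟩) ?_
      rintro ⟨a, e⟩ ⟨a', e'⟩ h
      have h2 := congrArg Subtype.val h
      simp only [Prod.mk.injEq] at h2
      exact Prod.ext (Subtype.ext (hp h2.1)) h2.2.1
    rwa [Fintype.card_prod, Fintype.card_bool] at h1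
  obtain ⟨hM1, hM2⟩ := hM
  have hq0 : Fintype.card {q : μ × Bool × ι // q ∈ Q} = 0 := by omega
  have hbI : Fintype.card b = Fintype.card I := by omega
  have hyi := hM2 (by omega)
  have hQe : ∀ q, q ∉ Q := by
    intro q hq
    have := Fintype.card_eq_zero_iff.1 hq0
    exact this.false ⟨q, hq⟩
  refine ⟨?_, ?_⟩
  · have h1 := hyi.comp (Sum.elim (fun q => Sum.inr ⟨q, hQe q⟩) Sum.inl :
      (μ × Bool × ι) ⊕ b → b ⊕ {q // q ∉ Q}) (by
        rintro (q | a) (q' | a') h
        · have h2 := Sum.inr.inj h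
          exact congrArg Sum.inl (congrArg Subtype.val h2)
        · exact absurd h (by simp)
        · exact absurd h (by simp)
        · exact congrArg Sum.inr (Sum.inl.inj h))
    have h2 : y ∘ (Sum.elim (fun q => Sum.inr ⟨q, hQe q⟩) Sum.inl :
        (μ × Bool × ι) ⊕ b → b ⊕ {q // q ∉ Q}) = Sum.elim c (fun a : b => algebraMap R₀ R a) := by
      rw [hy]
      funext z
      rcases z with q | a <;> rfl
    rw [h2, AlgebraicIndependent.sumElim_iff] at h1
    let f : Algebra.adjoin k (Set.range ((↑) : b → R₀)) →+*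
        Algebra.adjoin k (Set.range fun a : b => algebraMap R₀ R a) :=
      RingHom.codRestrict ((algebraMap R₀ R).comp
        (Algebra.adjoin k (Set.range ((↑) : b → R₀))).toSubring.subtype) _
        (fun a => hmapA (Set.range fun a : b => algebraMap R₀ R a) (fun a => ⟨a, rfl⟩) a a.2)
    have hf : Function.Injective f := by
      intro a a' h
      exact Subtype.ext ((algebraMap R₀ R).injective (congrArg Subtype.val h))
    have h3 : AlgebraicIndependent (Algebra.adjoin k (Set.range ((↑) : b → R₀))) c :=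
      AlgebraicIndependent.of_ringHom_of_comp_eq f (RingHom.id R) h1.2 hf rfl
    have := hb.isAlgebraic
    exact h3.extendScalars R₀
  · rw [← hb.cardinalMk_eq_trdeg, Cardinal.mk_fintype, hbI]

variable {F ι Ω μ : Type} [Field F] [CharZero F] [Fintype ι] [Field Ω] [Algebra F Ω] [Finite μ]
  {K : Subfield F}

theorem comap_dvr {V : ValuationSubring Ω} (hV : IsDiscreteValuationRing V)
    (hn : V.comap (algebraMap F Ω) ≠ ⊤) : IsDiscreteValuationRing (V.comap (algebraMap F Ω)) := by
  have hinj : ∀ x : F, x ≠ 0 → algebraMap F Ω x ≠ 0 := fun x hx => (map_ne_zero _).2 hx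
  have hmem : ∀ x : F, x ≠ 0 → (x ∈ V.comap (algebraMap F Ω) ↔ 0 ≤ ord V (algebraMap F Ω x)) :=
    fun x hx => (ord_nonneg_iff hV (hinj x hx)).symm
  have h1 : ∃ n : ℕ, 0 < n ∧ ∃ x : F, x ≠ 0 ∧ ord V (algebraMap F Ω x) = n := by
    obtain ⟨x, hx⟩ : ∃ x, x ∉ V.comap (algebraMap F Ω) := by
      by_contra h
      push Not at h
      exact hn (eq_top_iff.2 fun x _ => h x)
    have hx0 : x ≠ 0 := by
      rintro rfl
      exact hx (V.comap (algebraMap F Ω)).zero_mem
    have h2 : ¬ 0 ≤ ord V (algebraMap F Ω x) := fun h => hx ((hmem x hx0).2 h)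
    refine ⟨(-ord V (algebraMap F Ω x)).toNat, by omega, x⁻¹, inv_ne_zero hx0, ?_⟩
    rw [map_inv₀, ord_inv hV (hinj x hx0)]
    omega
  classical
  obtain ⟨e, he⟩ : ∃ e, e = Nat.find h1 := ⟨_, rfl⟩
  obtain ⟨he0, p, hp0, hp⟩ := Nat.find_spec h1
  rw [← he] at he0 hp
  have hmin : ∀ y : F, y ≠ 0 → 0 < ord V (algebraMap F Ω y) → (e : ℤ) ≤ ord V (algebraMap F Ω y) := by
    intro y hy h
    have h2 := Nat.find_min' h1 (m := (ord V (algebraMap F Ω y)).toNat)
      ⟨by omega, y, hy, by omega⟩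
    omega
  have hunit : ∀ x : V.comap (algebraMap F Ω), (x : F) ≠ 0 → ord V (algebraMap F Ω (x : F)) = 0 →
      IsUnit x := by
    intro x hx h
    have h2 : (x : F)⁻¹ ∈ V.comap (algebraMap F Ω) := by
      rw [hmem _ (inv_ne_zero hx), map_inv₀, ord_inv hV (hinj _ hx), h]
      exact le_of_eq neg_zero.symm
    exact IsUnit.of_mul_eq_one ⟨(x : F)⁻¹, h2⟩ (Subtype.ext (mul_inv_cancel₀ hx))
  have hpv : p ∈ V.comap (algebraMap F Ω) := by
    rw [hmem p hp0, hp]
    exact Int.natCast_nonneg e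
  refine IsDiscreteValuationRing.ofHasUnitMulPowIrreducibleFactorization
    ⟨⟨p, hpv⟩, ⟨?_, ?_⟩, ?_⟩
  · intro h
    obtain ⟨y, hy⟩ := h.exists_right_inv
    have h3 : p * (y : F) = 1 := congrArg Subtype.val hy
    have hy0 : (y : F) ≠ 0 := right_ne_zero_of_mul_eq_one h3
    have h4 := ord_mul hV (hinj p hp0) (hinj _ hy0)
    rw [← map_mul, h3, map_one, ord_one V hV, hp] at h4
    have h5 := (hmem _ hy0).1 y.2
    omega
  · intro a b hab
    have h3 : p = (a : F) * (b : F) := congrArg Subtype.val hab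
    have ha0 : (a : F) ≠ 0 := left_ne_zero_of_mul (h3 ▸ hp0)
    have hb0 : (b : F) ≠ 0 := right_ne_zero_of_mul (h3 ▸ hp0)
    have h4 := ord_mul hV (hinj _ ha0) (hinj _ hb0)
    rw [← map_mul, ← h3, hp] at h4
    have h5 := (hmem _ ha0).1 a.2
    have h6 := (hmem _ hb0).1 b.2
    by_cases h7 : ord V (algebraMap F Ω (a : F)) = 0
    · exact Or.inl (hunit a ha0 h7)
    · have h8 := hmin _ ha0 (by omega)
      exact Or.inr (hunit b hb0 (by omega))
  · intro x hx
    have hx0 : (x : F) ≠ 0 := fun h => hx (Subtype.ext h)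
    have h3 := (hmem _ hx0).1 x.2
    obtain ⟨N, hN⟩ : ∃ N : ℕ, ord V (algebraMap F Ω (x : F)) = N := ⟨_, (Int.toNat_of_nonneg h3).symm⟩
    have hpn : p ^ (N / e) ≠ 0 := pow_ne_zero _ hp0
    have h4 : ord V (algebraMap F Ω ((x : F) / p ^ (N / e))) = ((N % e : ℕ) : ℤ) := by
      rw [map_div₀, map_pow, ord_div hV (hinj _ hx0) (pow_ne_zero _ (hinj _ hp0)),
        ord_pow hV (hinj _ hp0), hp, hN]
      have h5 := Nat.div_add_mod N e
      have h6 : ((N / e : ℕ) : ℤ) * (e : ℤ) = ((e * (N / e) : ℕ) : ℤ) := by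
        push_cast
        ring
      rw [h6]
      omega
    have h5 : N % e = 0 := by
      by_contra h6
      have h7 := hmin _ (div_ne_zero hx0 hpn) (by rw [h4]; exact_mod_cast Nat.pos_of_ne_zero h6)
      rw [h4] at h7
      have h8 := Nat.mod_lt N he0
      omega
    rw [h5] at h4
    have h6 : (x : F) / p ^ (N / e) ∈ V.comap (algebraMap F Ω) := by
      rw [hmem _ (div_ne_zero hx0 hpn), h4]
      exact le_rfl
    obtain ⟨u, hu⟩ := hunit ⟨_, h6⟩ (div_ne_zero hx0 hpn) h4
    refine ⟨N / e, u, ?_⟩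
    rw [hu]
    apply Subtype.ext
    show p ^ (N / e) * ((x : F) / p ^ (N / e)) = x
    exact mul_div_cancel₀ _ hpn

theorem trdeg_res_le {m : ℕ} (hF : FF K (m + 1)) {v : ValuationSubring F} (hv : Dv K v) :
    Algebra.trdeg (resS K v) (ResidueField v) ≤ m := by
  by_contra hlt
  rw [not_le] at hlt
  obtain ⟨b, hb⟩ := exists_isTranscendenceBasis (resS K v) (ResidueField v)
  have h2 : Cardinal.mk (Fin (m + 1)) ≤ Cardinal.mk b := by
    rw [hb.cardinalMk_eq_trdeg, Cardinal.mk_fin, Nat.cast_succ, ← Cardinal.succ_natCast]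
    exact Order.succ_le_of_lt hlt
  obtain ⟨f⟩ := h2
  have hr : AlgebraicIndependent (resS K v) fun i => (f i : ResidueField v) :=
    hb.1.comp f f.injective
  choose x hx hxr using fun i => res_surj v (f i : ResidueField v)
  have hr' : AlgebraicIndependent (resS K v) fun i => res v (x i) := by
    simp only [hxr]
    exact hr
  have hP := C7a_poly hv.2 hx hr'
  have hind : AlgebraicIndependent K x := by
    rw [algebraicIndependent_iff]
    intro P h0
    by_contra h1
    have h3 := hP P h1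
    rw [h0, map_zero] at h3
    exact zero_ne_one h3
  have hbas : IsTranscendenceBasis K x := by
    refine hind.isTranscendenceBasis_of_trdeg_le_of_finite ?_
    rw [hF.2, Cardinal.mk_fin]
  have halg := hbas.isAlgebraic_field
  have hE : ∀ a ∈ IntermediateField.adjoin K (Set.range x), a ∈ v := by
    intro a ha
    obtain ⟨r, s, rfl⟩ := (IntermediateField.mem_adjoin_range_iff K x a).1 ha
    by_cases hr0 : r = 0
    · rw [hr0, map_zero, zero_div]
      exact v.zero_mem
    by_cases hs0 : s = 0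
    · rw [hs0, map_zero, div_zero]
      exact v.zero_mem
    rw [← ValuationSubring.valuation_le_one_iff, map_div₀, hP r hr0, hP s hs0, div_one]
  have hall : ∀ y : F, y ∈ v := fun y => C7a_int hE (halg.isAlgebraic y)
  have := hv.1
  obtain ⟨p, hp⟩ := IsDiscreteValuationRing.exists_irreducible v
  have hp0 : (p : F) ≠ 0 := fun h => hp.ne_zero (Subtype.ext h)
  exact hp.not_isUnit (IsUnit.of_mul_eq_one ⟨(p : F)⁻¹, hall _⟩ (Subtype.ext (mul_inv_cancel₀ hp0)))

omit [CharZero F] in
private lemma C7a_P1 {C : μ × Bool × ι → Ω} (hC : Gn F C) (β : μ → ι → F)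
    (s : List μ) (hs : s.Nodup) (hF : FF K (s.length + 1))
    (h1 : FF (cb K C β {i | i ∈ s}) 1) :
    AlgebraicIndependent K (Sum.elim C fun i : {i // i ∈ s} => gu C β i) := by
  classical
  obtain ⟨κ, hκ⟩ : ∃ κ, κ = cb K C β {i | i ∈ s} := ⟨_, rfl⟩
  rw [← hκ] at h1
  -- transcendence degree of `Ω` over `K`
  have hCt : IsTranscendenceBasis F C := by
    rw [hC.1.isTranscendenceBasis_iff_isAlgebraic]
    refine ⟨fun y => C7a_alg ?_⟩
    have h2 : y ∈ IntermediateField.adjoin F (Set.range C) := by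
      rw [hC.2]
      trivial
    exact isAlgebraic_algebraMap (⟨y, h2⟩ : IntermediateField.adjoin F (Set.range C))
  have htr : Algebra.trdeg K Ω = ((s.length + 1 : ℕ) : Cardinal) + Cardinal.mk (μ × Bool × ι) := by
    rw [← trdeg_add_eq K F, hF.2, hCt.cardinalMk_eq_trdeg]
  obtain ⟨b, hb⟩ := exists_isTranscendenceBasis κ Ω
  have hb1 : Cardinal.mk b = 1 := by
    rw [hb.cardinalMk_eq_trdeg, h1.2, Nat.cast_one]
  have hbf : Finite b := by
    rw [← Cardinal.lt_aleph0_iff_finite, hb1]
    exact Cardinal.one_lt_aleph0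
  obtain ⟨W, hW⟩ : ∃ W, W = Sum.elim C fun i : {i // i ∈ s} => gu C β i := ⟨_, rfl⟩
  obtain ⟨W', hW'⟩ : ∃ W', W' = Sum.elim W ((↑) : b → Ω) := ⟨_, rfl⟩
  have hs' : Finite {i // i ∈ s} := inferInstance
  have hle : Cardinal.mk (((μ × Bool × ι) ⊕ {i // i ∈ s}) ⊕ b) ≤ Algebra.trdeg K Ω := by
    rw [Cardinal.mk_sum, Cardinal.mk_sum, Cardinal.lift_id, Cardinal.lift_id, Cardinal.lift_id,
      Cardinal.lift_id, hb1, htr]
    have h3 : Cardinal.mk {i // i ∈ s} = (s.length : Cardinal) := by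
      have h4 : Fintype.card {i // i ∈ s} = s.length := by
        rw [Fintype.card_of_subtype s.toFinset (by simp), List.toFinset_card_of_nodup hs]
      rw [Cardinal.mk_fintype, h4]
    rw [h3, Nat.cast_add, Nat.cast_one, add_comm (Cardinal.mk (μ × Bool × ι)), add_right_comm]
  -- `Ω` is algebraic over the field generated by `W'`
  have hκE : ∀ a ∈ κ, a ∈ IntermediateField.adjoin K (Set.range W') := by
    have h3 : κ ≤ (IntermediateField.adjoin K (Set.range W')).toSubfield := by
      rw [hκ, cb, Subfield.closure_le]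
      rintro a ((⟨c, hc, rfl⟩ | ⟨q, rfl⟩) | ⟨i, hi, rfl⟩)
      · exact (IntermediateField.adjoin K (Set.range W')).algebraMap_mem ⟨c, hc⟩
      · refine IntermediateField.subset_adjoin K _ ⟨Sum.inl (Sum.inl q), ?_⟩
        rw [hW', hW]
        rfl
      · refine IntermediateField.subset_adjoin K _ ⟨Sum.inl (Sum.inr ⟨i, hi⟩), ?_⟩
        rw [hW', hW]
        rfl
    exact fun a ha => h3 ha
  have halg : Algebra.IsAlgebraic (Algebra.adjoin K (Set.range W')) Ω := by
    refine ⟨fun y => C7a_alg ?_⟩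
    have h3 := hb.isAlgebraic_field.isAlgebraic y
    refine C7a_sub (FaithfulSMul.algebraMap_injective _ _) (FaithfulSMul.algebraMap_injective _ _)
      (fun a => ?_) h3
    have h4 : (IntermediateField.adjoin κ (Set.range ((↑) : b → Ω))).toSubfield ≤
        (IntermediateField.adjoin K (Set.range W')).toSubfield := by
      rw [IntermediateField.adjoin_toSubfield, Subfield.closure_le]
      rintro z (⟨c, rfl⟩ | ⟨c, rfl⟩)
      · exact hκE _ c.2
      · refine IntermediateField.subset_adjoin K _ ⟨Sum.inr c, ?_⟩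
        rw [hW']
        rfl
    exact ⟨⟨a, h4 a.2⟩, rfl⟩
  have hT : IsTranscendenceBasis K W' :=
    Algebra.IsAlgebraic.isTranscendenceBasis_of_le_trdeg_of_finite K W' hle
  have h5 := hT.1.comp Sum.inl Sum.inl_injective
  rw [hW'] at h5
  rw [← hW]
  exact h5

private lemma C7a_res_sum {E : Type} [Field E] {V : ValuationSubring E} {ι : Type} (s : Finset ι)
    {f : ι → E} (hf : ∀ j, f j ∈ V) : res V (∑ j ∈ s, f j) = ∑ j ∈ s, res V (f j) := by
  classical
  induction s using Finset.induction_on with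
  | empty => rw [Finset.sum_empty, Finset.sum_empty, res_zero]
  | insert a s ha ih =>
    rw [Finset.sum_insert ha, Finset.sum_insert ha, res_add (hf a) (V.toSubring.sum_mem fun j _ => hf j),
      ih]

theorem res_indep {C : μ × Bool × ι → Ω} (hC : Gn F C) (β : μ → ι → F)
    (s : List μ) (hβ : ∀ i ∈ s, β i ≠ 0) (hs : s.Nodup) (hF : FF K (s.length + 1))
    (h1 : FF (cb K C β {i | i ∈ s}) 1)
    (V : ValuationSubring Ω) (hV : Dv (cb K C β {i | i ∈ s}) V)
    (hn : V.comap (algebraMap F Ω) ≠ ⊤) :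
    (∀ q, C q ∈ V) ∧
    (∀ P : MvPolynomial (μ × Bool × ι) (ResidueField (V.comap (algebraMap F Ω))), P ≠ 0 →
      MvPolynomial.eval₂ (rhom F V) (fun q => res V (C q)) P ≠ 0) ∧
    Algebra.trdeg (resS K (V.comap (algebraMap F Ω))) (ResidueField (V.comap (algebraMap F Ω))) =
      s.length := by
  classical
  have hKκ : ∀ a ∈ K, algebraMap F Ω a ∈ cb K C β {i | i ∈ s} := fun a ha =>
    Subfield.subset_closure (Or.inl (Or.inl ⟨a, ha, rfl⟩))
  have hCκ : ∀ q, C q ∈ cb K C β {i | i ∈ s} := fun q =>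
    Subfield.subset_closure (Or.inl (Or.inr ⟨q, rfl⟩))
  have huκ : ∀ i ∈ s, gu C β i ∈ cb K C β {i | i ∈ s} := fun i hi =>
    Subfield.subset_closure (Or.inr ⟨i, hi, rfl⟩)
  have hv : Dv K (V.comap (algebraMap F Ω)) :=
    ⟨comap_dvr hV.1 hn, fun a ha => hV.2 _ (hKκ a ha)⟩
  have hCV : ∀ q, C q ∈ V := fun q => hV.2 _ (hCκ q)
  have hcard : Fintype.card {i // i ∈ s} = s.length := by
    rw [Fintype.card_of_subtype s.toFinset (by simp), List.toFinset_card_of_nodup hs]
  let _ : Algebra (ResidueField (V.comap (algebraMap F Ω))) (ResidueField V) :=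
    (rhom F V).toAlgebra
  have hW := C7a_P1 hC β s hs hF h1
  let _ : Algebra K (cb K C β {i | i ∈ s}) :=
    RingHom.toAlgebra (RingHom.codRestrict (algebraMap K Ω) (cb K C β {i | i ∈ s})
      (fun a => hKκ a a.2))
  obtain ⟨Wκ, hWκ⟩ : ∃ Wκ : (μ × Bool × ι) ⊕ {i // i ∈ s} → cb K C β {i | i ∈ s},
      Wκ = Sum.elim (fun q => ⟨C q, hCκ q⟩) (fun i => ⟨gu C β i, huκ i i.2⟩) := ⟨_, rfl⟩
  have h2 : AlgebraicIndependent K Wκ := by
    refine AlgebraicIndependent.of_ringHom_of_comp_eq (RingHom.id K)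
      (cb K C β {i | i ∈ s}).subtype ?_ Function.injective_id rfl
    have h3 : (cb K C β {i | i ∈ s}).subtype ∘ Wκ =
        Sum.elim C fun i : {i // i ∈ s} => gu C β i := by
      rw [hWκ]
      funext z
      rcases z with q | i <;> rfl
    rw [h3]
    exact hW
  have h3 := h2.ringHom_of_comp_eq (C7a_f hv.2) ((residue V).comp (C7a_j hV.2)) (C7a_f_surj hv.2)
    (RingHom.injective _) (by
      refine RingHom.ext fun a => ?_
      have e1 : res V (algebraMap F Ω (a : F)) = rhom F V (res (V.comap (algebraMap F Ω)) (a : F)) :=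
        (rhom_res V (hv.2 a a.2)).symm
      have e2 : res V (algebraMap F Ω (a : F)) =
          residue V ⟨algebraMap F Ω (a : F), hv.2 a a.2⟩ := res_of_mem _
      show rhom F V ((C7a_f hv.2 a : resS K (V.comap (algebraMap F Ω))) :
        ResidueField (V.comap (algebraMap F Ω))) = residue V ⟨algebraMap F Ω (a : F), _⟩
      rw [C7a_f_coe, ← e1, e2])
  have h4 : ((residue V).comp (C7a_j hV.2)) ∘ Wκ =
      Sum.elim (fun q => res V (C q)) (fun i : {i // i ∈ s} => res V (gu C β i)) := by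
    rw [hWκ]
    funext z
    rcases z with q | i
    · exact (res_of_mem (hCV q)).symm
    · exact (res_of_mem (hV.2 _ (huκ i i.2))).symm
  rw [h4] at h3
  choose a w ha hw hwv hj _ using fun i : {i // i ∈ s} => exists_prim hv.1 (hβ i i.2)
  choose j₀ hj₀ using hj
  have hwV : ∀ i j, algebraMap F Ω (w i j) ∈ V := fun i j => hwv i j
  have hsum : ∀ i : {i // i ∈ s}, ∀ e, ∑ j, res V (C ((i : μ), e, j)) *
      rhom F V (res (V.comap (algebraMap F Ω)) (w i j)) =
      res V (∑ j, C ((i : μ), e, j) * algebraMap F Ω (w i j)) := by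
    intro i e
    rw [C7a_res_sum _ fun j => V.mul_mem _ _ (hCV _) (hwV i j)]
    refine Finset.sum_congr rfl fun j _ => ?_
    rw [res_mul (hCV _) (hwV i j), rhom_res V (hwV i j)]
  have hrel : ∀ i : {i // i ∈ s}, res V (gu C β i) * ∑ j, res V (C ((i : μ), true, j)) *
      rhom F V (res (V.comap (algebraMap F Ω)) (w i j)) =
      ∑ j, res V (C ((i : μ), false, j)) * rhom F V (res (V.comap (algebraMap F Ω)) (w i j)) := by
    intro i
    rw [hsum, hsum, ← res_mul (hV.2 _ (huκ i i.2))
      (V.toSubring.sum_mem fun j _ => V.mul_mem _ _ (hCV _) (hwV i j))]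
    congr 1
    have e1 : ∀ e, ∑ j, C ((i : μ), e, j) * algebraMap F Ω (β i j) =
        algebraMap F Ω (a i) * ∑ j, C ((i : μ), e, j) * algebraMap F Ω (w i j) := by
      intro e
      rw [Finset.mul_sum]
      refine Finset.sum_congr rfl fun j _ => ?_
      rw [hw i j, map_mul]
      ring
    have e2 : algebraMap F Ω (a i) ≠ 0 := (map_ne_zero _).2 (ha i)
    have e3 : ∑ j, C ((i : μ), true, j) * algebraMap F Ω (w i j) ≠ 0 := by
      intro h
      have h5 := (hC.1.linearIndependent).comp (fun j : ι => ((i : μ), true, j)) (by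
        intro j j' hjj
        exact (Prod.mk.inj (Prod.mk.inj hjj).2).2)
      have h6 := (Fintype.linearIndependent_iff.1 h5) (w i) (by
        rw [← h]
        refine Finset.sum_congr rfl fun j _ => ?_
        rw [Algebra.smul_def, mul_comm]
        rfl) (j₀ i)
      apply hj₀ i
      rw [h6, res_zero]
    rw [gu, e1, e1, mul_div_mul_left _ _ e2, div_mul_cancel₀ _ e3]
  have htr := trdeg_res_le hF hv
  rw [← hcard] at htr
  obtain ⟨h5, h6⟩ := C7a_core (k := resS K (V.comap (algebraMap F Ω)))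
    (R₀ := ResidueField (V.comap (algebraMap F Ω))) (R := ResidueField V) h3
    (p := fun i : {i // i ∈ s} => (i : μ)) Subtype.val_injective
    (w := fun i j => res (V.comap (algebraMap F Ω)) (w i j)) (j₀ := j₀) hj₀ hrel htr
  refine ⟨hCV, fun P hP h0 => hP (h5.eq_zero_of_aeval_eq_zero P h0), ?_⟩
  rw [h6, hcard]

end Pool.Agent.Lib.MP_1e3e9c_agU
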