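import Mathlib
import Pool.Agent.Lib.MP_1e3e9c_agU.C5e
import Pool.Agent.Lib.MP_1e3e9c_agU.C7a
import Pool.Agent.Lib.MP_1e3e9c_agU.B2
import Pool.Agent.Lib.MP_1e3e9c_agU.Vl

/-!
# MP_1e3e9c_ag, project U, leaf C7: places of a generic curve which are not trivial on `F`

`m = s.length + 1 = trdeg F/K`, `κ = K(C)(u_i, i ∈ s)`, `Ω = F(C)`, `trdeg Ω/κ = 1`, `V` a discrete
valuation ring of `Ω` with `κ ⊆ V`, `v = V ∩ F ≠ F`, `R₀ → R` the residue fields of `v`, `V`.
`gauss_ord`: by `res_indep` (leaf C7a) the residues `c̄` of the `C` are algebraically independent over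
`R₀`; divide `P ∈ F[C]` by a coefficient of minimal order for `V`: the result has coefficients in `V`,
and nonzero residue. So `ord V P` = the minimum of `ord V` of the coefficients. So every value is the
value of an element of `F`: `ord V x = ord v x` for `x ∈ F` (`v` is a discrete valuation ring,
`comap_dvr`). `Gau.lin` is a special case.
The residue field of `V` is `R₀(c̄)`: every element of `V` is `P/Q`, `P, Q ∈ F[C]` with coefficients in
`v`, `Q` with a coefficient `1`.
`deg κ V = [R₀(c̄) : K(c̄)(ū)]`, `ū_i = gu c̄ (rd v ∘ β) i` (`β_i` scaled). It is finite and not `0`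
(`deg_pos` of leaf B2), so `R₀(c̄)` is finitely generated over `K(c̄)` and `R₀` is finitely generated
over `K` (`FF_of_base`, leaf C5e), `trdeg = s.length` (`res_indep`): the condition in the definition of
`XR` holds. By `XX_tower` (with `l = []`, `XX_nil`) over `R₀` the degree is
`XX (resS K v) ((s.map β).map (rd v)) = XR K v (s.map β)`.
-/

set_option autoImplicit false

namespace Pool.Agent.Lib.MP_1e3e9c_agU

open IsLocalRing Pool.Agent.Lib.MP_b197b4_ntK

section C7aux

variable {F Ω σ : Type} [Field F] [Field Ω] [Algebra F Ω]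

private theorem C7_sum {V : ValuationSubring Ω} {τ : Type*} (s : Finset τ) (f : τ → Ω)
    (h : ∀ i ∈ s, f i ∈ V) :
    ∑ i ∈ s, f i ∈ V ∧ res V (∑ i ∈ s, f i) = ∑ i ∈ s, res V (f i) := by
  classical
  induction s using Finset.induction_on with
  | empty =>
    rw [Finset.sum_empty, Finset.sum_empty]
    exact ⟨zero_mem V, res_zero V⟩
  | insert a s ha ih =>
    obtain ⟨h1, h2⟩ := ih (fun i hi => h i (Finset.mem_insert_of_mem hi))
    have h3 := h a (Finset.mem_insert_self a s)
    rw [Finset.sum_insert ha, Finset.sum_insert ha]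
    exact ⟨add_mem h3 h1, by rw [res_add h3 h1, h2]⟩

private theorem C7_prod {V : ValuationSubring Ω} {τ : Type*} (s : Finset τ) (f : τ → Ω)
    (h : ∀ i ∈ s, f i ∈ V) :
    ∏ i ∈ s, f i ∈ V ∧ res V (∏ i ∈ s, f i) = ∏ i ∈ s, res V (f i) := by
  classical
  induction s using Finset.induction_on with
  | empty =>
    rw [Finset.prod_empty, Finset.prod_empty]
    exact ⟨one_mem V, res_one V⟩
  | insert a s ha ih =>
    obtain ⟨h1, h2⟩ := ih (fun i hi => h i (Finset.mem_insert_of_mem hi))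
    have h3 := h a (Finset.mem_insert_self a s)
    rw [Finset.prod_insert ha, Finset.prod_insert ha]
    exact ⟨mul_mem h3 h1, by rw [res_mul h3 h1, h2]⟩

/-- The reduction of a polynomial. -/
private noncomputable def C7_rp (v : ValuationSubring F) (P : MvPolynomial σ F) :
    MvPolynomial σ (ResidueField v) :=
  ∑ t ∈ P.support, MvPolynomial.monomial t (res v (P.coeff t))

private theorem C7_rp_coeff (v : ValuationSubring F) (P : MvPolynomial σ F) (t : σ →₀ ℕ) :
    (C7_rp v P).coeff t = res v (P.coeff t) := by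
  classical
  unfold C7_rp
  rw [MvPolynomial.coeff_sum]
  simp only [MvPolynomial.coeff_monomial]
  rw [Finset.sum_ite_eq']
  split_ifs with h
  · rfl
  · rw [MvPolynomial.notMem_support_iff.1 h, res_zero]

private theorem C7_red {V : ValuationSubring Ω} {C : σ → Ω} (hC : ∀ q, C q ∈ V)
    (P : MvPolynomial σ F) (hP : ∀ t, P.coeff t ∈ V.comap (algebraMap F Ω)) :
    MvPolynomial.aeval C P ∈ V ∧ res V (MvPolynomial.aeval C P) =
      MvPolynomial.eval₂ (rhom F V) (fun q => res V (C q))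
        (C7_rp (V.comap (algebraMap F Ω)) P) := by
  classical
  have hmon : ∀ t : σ →₀ ℕ, ∏ i ∈ t.support, C i ^ t i ∈ V ∧
      res V (∏ i ∈ t.support, C i ^ t i) = ∏ i ∈ t.support, res V (C i) ^ t i := by
    intro t
    obtain ⟨h1, h2⟩ := C7_prod (V := V) t.support (fun i => C i ^ t i) fun i _ => pow_mem (hC i) _
    refine ⟨h1, h2.trans (Finset.prod_congr rfl fun i _ => res_pow (hC i) _)⟩
  have hcf : ∀ t, algebraMap F Ω (P.coeff t) ∈ V := fun t => hP t
  obtain ⟨h3, h4⟩ := C7_sum (V := V) P.support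
    (fun t => algebraMap F Ω (P.coeff t) * ∏ i ∈ t.support, C i ^ t i)
    fun t _ => mul_mem (hcf t) (hmon t).1
  have h5 : MvPolynomial.aeval C P =
      ∑ t ∈ P.support, algebraMap F Ω (P.coeff t) * ∏ i ∈ t.support, C i ^ t i := by
    rw [MvPolynomial.aeval_def, MvPolynomial.eval₂_eq]
  rw [h5]
  refine ⟨h3, ?_⟩
  rw [h4]
  unfold C7_rp
  rw [MvPolynomial.eval₂_sum]
  refine Finset.sum_congr rfl fun t _ => ?_
  rw [res_mul (hcf t) (hmon t).1, (hmon t).2, MvPolynomial.eval₂_monomial,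
    rhom_res V (hcf t)]
  rfl

/-- Divide a polynomial by a coefficient of minimal order. -/
private theorem C7_norm {V : ValuationSubring Ω} {C : σ → Ω}
    (hv : IsDiscreteValuationRing (V.comap (algebraMap F Ω))) (hC : ∀ q, C q ∈ V)
    (hi : ∀ P : MvPolynomial σ (ResidueField (V.comap (algebraMap F Ω))), P ≠ 0 →
      MvPolynomial.eval₂ (rhom F V) (fun q => res V (C q)) P ≠ 0)
    (P : MvPolynomial σ F) (hP : P ≠ 0) :
    ∃ t₀ ∈ P.support, (∀ t ∈ P.support, ord (V.comap (algebraMap F Ω)) (P.coeff t₀) ≤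
      ord (V.comap (algebraMap F Ω)) (P.coeff t)) ∧
      V.valuation (MvPolynomial.aeval C (MvPolynomial.C (P.coeff t₀)⁻¹ * P)) = 1 ∧
      ∀ t, (MvPolynomial.C (P.coeff t₀)⁻¹ * P).coeff t ∈ V.comap (algebraMap F Ω) := by
  classical
  obtain ⟨t₀, ht₀, hmin⟩ := Finset.exists_min_image P.support
    (fun t => ord (V.comap (algebraMap F Ω)) (P.coeff t))
    (MvPolynomial.support_nonempty.2 hP)
  have hc0 : P.coeff t₀ ≠ 0 := MvPolynomial.mem_support_iff.1 ht₀
  have hmem : ∀ t, (MvPolynomial.C (P.coeff t₀)⁻¹ * P).coeff t ∈ V.comap (algebraMap F Ω) := by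
    intro t
    rw [MvPolynomial.coeff_C_mul]
    by_cases ht : P.coeff t = 0
    · rw [ht, mul_zero]
      exact zero_mem _
    · have h1 := ord_mul hv (inv_ne_zero hc0) ht
      rw [ord_inv hv hc0] at h1
      have h2 := hmin t (MvPolynomial.mem_support_iff.2 ht)
      exact (ord_nonneg_iff hv (mul_ne_zero (inv_ne_zero hc0) ht)).1 (by rw [h1]; linarith)
  refine ⟨t₀, ht₀, hmin, ?_, hmem⟩
  obtain ⟨h3, h4⟩ := C7_red hC _ hmem
  rw [← res_ne_zero_iff h3, h4]
  apply hi
  intro h0
  have h5 := C7_rp_coeff (V.comap (algebraMap F Ω)) (MvPolynomial.C (P.coeff t₀)⁻¹ * P) t₀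
  rw [h0, MvPolynomial.coeff_zero, MvPolynomial.coeff_C_mul, inv_mul_cancel₀ hc0, res_one] at h5
  exact zero_ne_one h5

private theorem C7_norm_ord {V : ValuationSubring Ω} {C : σ → Ω} (hV : IsDiscreteValuationRing V)
    (hv : IsDiscreteValuationRing (V.comap (algebraMap F Ω))) (hC : ∀ q, C q ∈ V)
    (hi : ∀ P : MvPolynomial σ (ResidueField (V.comap (algebraMap F Ω))), P ≠ 0 →
      MvPolynomial.eval₂ (rhom F V) (fun q => res V (C q)) P ≠ 0)
    (P : MvPolynomial σ F) (hP : P ≠ 0) :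
    ∃ t₀ ∈ P.support, (∀ t ∈ P.support, ord (V.comap (algebraMap F Ω)) (P.coeff t₀) ≤
      ord (V.comap (algebraMap F Ω)) (P.coeff t)) ∧
      ord V (MvPolynomial.aeval C P) = ord V (algebraMap F Ω (P.coeff t₀)) ∧
      MvPolynomial.aeval C P ≠ 0 := by
  obtain ⟨t₀, ht₀, hmin, h1, -⟩ := C7_norm hv hC hi P hP
  have hc0 : P.coeff t₀ ≠ 0 := MvPolynomial.mem_support_iff.1 ht₀
  have hc0' : algebraMap F Ω (P.coeff t₀) ≠ 0 := (map_ne_zero _).2 hc0
  have h2 : MvPolynomial.aeval C (MvPolynomial.C (P.coeff t₀)⁻¹ * P) ≠ 0 := by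
    intro h
    rw [h, map_zero] at h1
    exact zero_ne_one h1
  have h3 : MvPolynomial.aeval C P = algebraMap F Ω (P.coeff t₀) *
      MvPolynomial.aeval C (MvPolynomial.C (P.coeff t₀)⁻¹ * P) := by
    rw [map_mul, MvPolynomial.aeval_C, ← mul_assoc, ← map_mul, mul_inv_cancel₀ hc0, map_one, one_mul]
  refine ⟨t₀, ht₀, hmin, ?_, ?_⟩
  · rw [h3, ord_mul hV hc0' h2, (ord_eq_zero_iff hV h2).2 h1, add_zero]
  · rw [h3]
    exact mul_ne_zero hc0' h2

private theorem C7_ram {V : ValuationSubring Ω} {C : σ → Ω} (hV : IsDiscreteValuationRing V)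
    (hv : IsDiscreteValuationRing (V.comap (algebraMap F Ω))) (hC : ∀ q, C q ∈ V)
    (hi : ∀ P : MvPolynomial σ (ResidueField (V.comap (algebraMap F Ω))), P ≠ 0 →
      MvPolynomial.eval₂ (rhom F V) (fun q => res V (C q)) P ≠ 0)
    (hg : IntermediateField.adjoin F (Set.range C) = ⊤) (x : F) (hx : x ≠ 0) :
    ord V (algebraMap F Ω x) = ord (V.comap (algebraMap F Ω)) x := by
  obtain ⟨p, hp⟩ := IsDiscreteValuationRing.exists_irreducible (V.comap (algebraMap F Ω))
  have hp0 : (p : F) ≠ 0 := fun h => hp.ne_zero (Subtype.ext h)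
  have hp0' : algebraMap F Ω (p : F) ≠ 0 := (map_ne_zero _).2 hp0
  set e : ℤ := ord V (algebraMap F Ω (p : F)) with he
  have hL : ∀ x : F, x ≠ 0 → ord V (algebraMap F Ω x) = ord (V.comap (algebraMap F Ω)) x * e := by
    intro x hx
    obtain ⟨u, hu⟩ := exists_unit_of_ord hv hp hx
    have hu0 : ((u : V.comap (algebraMap F Ω)) : F) ≠ 0 := by
      intro h
      rw [h, mul_zero] at hu
      exact hx hu
    have hu0' : algebraMap F Ω ((u : V.comap (algebraMap F Ω)) : F) ≠ 0 := (map_ne_zero _).2 hu0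
    have h1 : 0 ≤ ord V (algebraMap F Ω ((u : V.comap (algebraMap F Ω)) : F)) :=
      (ord_nonneg_iff hV hu0').2 (u : V.comap (algebraMap F Ω)).2
    have h2 : 0 ≤ ord V (algebraMap F Ω ((u : V.comap (algebraMap F Ω)) : F))⁻¹ := by
      refine (ord_nonneg_iff hV (inv_ne_zero hu0')).2 ?_
      rw [← map_inv₀]
      have h3 := unit_coe_mul_inv u
      have h4 : ((u : V.comap (algebraMap F Ω)) : F)⁻¹ = (((u⁻¹ : (V.comap (algebraMap F Ω))ˣ) :
        V.comap (algebraMap F Ω)) : F) := inv_eq_of_mul_eq_one_right h3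
      rw [h4]
      exact ((u⁻¹ : (V.comap (algebraMap F Ω))ˣ) : V.comap (algebraMap F Ω)).2
    rw [ord_inv hV hu0'] at h2
    have h5 : ord V (algebraMap F Ω ((u : V.comap (algebraMap F Ω)) : F)) = 0 := by omega
    conv_lhs => rw [hu]
    rw [map_mul, map_zpow₀, ord_mul hV (zpow_ne_zero _ hp0') hu0', ord_zpow hV hp0', h5, add_zero]
  obtain ⟨π, hπ⟩ := IsDiscreteValuationRing.exists_irreducible V
  have hπ0 : (π : Ω) ≠ 0 := fun h => hπ.ne_zero (Subtype.ext h)
  have hπ1 : ord V (π : Ω) = 1 := ord_eq ⟨π, 1, hπ, by simp⟩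
  have hmem : (π : Ω) ∈ IntermediateField.adjoin F (Set.range C) := by
    rw [hg]
    exact IntermediateField.mem_top
  obtain ⟨r, s, hrs⟩ := (IntermediateField.mem_adjoin_range_iff F C _).1 hmem
  have hs0 : MvPolynomial.aeval C s ≠ 0 := by
    intro h
    rw [h, div_zero] at hrs
    exact hπ0 hrs
  have hr0 : MvPolynomial.aeval C r ≠ 0 := by
    intro h
    rw [h, zero_div] at hrs
    exact hπ0 hrs
  have hs1 : s ≠ 0 := fun h => hs0 (by rw [h, map_zero])
  have hr1 : r ≠ 0 := fun h => hr0 (by rw [h, map_zero])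
  obtain ⟨a, ha, -, ha1, -⟩ := C7_norm_ord hV hv hC hi s hs1
  obtain ⟨b, hb, -, hb1, -⟩ := C7_norm_ord hV hv hC hi r hr1
  have ha0 : s.coeff a ≠ 0 := MvPolynomial.mem_support_iff.1 ha
  have hb0 : r.coeff b ≠ 0 := MvPolynomial.mem_support_iff.1 hb
  have h6 : (ord (V.comap (algebraMap F Ω)) (r.coeff b) -
      ord (V.comap (algebraMap F Ω)) (s.coeff a)) * e = 1 := by
    rw [← hπ1, hrs, ord_div hV hr0 hs0, ha1, hb1, hL _ ha0, hL _ hb0]
    ring
  have h7 : 0 ≤ e := (ord_nonneg_iff hV hp0').2 p.2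
  have h8 : e = 1 := by
    have h9 : IsUnit e := IsUnit.of_mul_eq_one_right _ h6
    rcases Int.isUnit_iff.1 h9 with h | h
    · exact h
    · omega
  rw [hL x hx, h8, mul_one]

end C7aux

variable {F ι Ω μ : Type} [Field F] [CharZero F] [Fintype ι] [Field Ω] [Algebra F Ω] [Finite μ]
  {K : Subfield F}

/-- The facts about a place `V` of the generic curve which lies over `v`. -/
structure Gau (K : Subfield F) (C : μ × Bool × ι → Ω) (v : ValuationSubring F)
    (V : ValuationSubring Ω) : Prop where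
  dv : Dv K v
  ram : ∀ x : F, x ≠ 0 → ord V (algebraMap F Ω x) = ord v x
  lin : ∀ (q : μ × Bool) (z : ι → F), z ≠ 0 →
    ord V (∑ j, C (q.1, q.2, j) * algebraMap F Ω (z j)) = al v z

/-- The order of a polynomial in the `C` is the minimum of the orders of its coefficients. -/
private theorem C7_gauss {C : μ × Bool × ι → Ω} (hC : Gn F C) (β : μ → ι → F)
    (s : List μ) (hβ : ∀ i ∈ s, β i ≠ 0) (hs : s.Nodup) (hF : FF K (s.length + 1)) (h1 : FF (cb K C β {i | i ∈ s}) 1)
    (V : ValuationSubring Ω) (hV : Dv (cb K C β {i | i ∈ s}) V)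
    (hn : V.comap (algebraMap F Ω) ≠ ⊤) (P : MvPolynomial (μ × Bool × ι) F) (hP : P ≠ 0) :
    (∀ t ∈ P.support, ord V (MvPolynomial.aeval C P) ≤
      ord (V.comap (algebraMap F Ω)) (P.coeff t)) ∧
    ∃ t ∈ P.support, ord V (MvPolynomial.aeval C P) =
      ord (V.comap (algebraMap F Ω)) (P.coeff t) := by
  obtain ⟨hCV, hi, -⟩ := res_indep hC β s hβ hs hF h1 V hV hn
  have hv := comap_dvr hV.1 hn
  obtain ⟨t₀, ht₀, hmin, h2, -⟩ := C7_norm_ord hV.1 hv hCV hi P hP
  rw [C7_ram hV.1 hv hCV hi hC.2 _ (MvPolynomial.mem_support_iff.1 ht₀)] at h2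
  exact ⟨fun t ht => by rw [h2]; exact hmin t ht, t₀, ht₀, h2⟩

/-- The value of a generic linear form. -/
private theorem C7_lin {C : μ × Bool × ι → Ω} (hC : Gn F C) (β : μ → ι → F)
    (s : List μ) (hβ : ∀ i ∈ s, β i ≠ 0) (hs : s.Nodup) (hF : FF K (s.length + 1)) (h1 : FF (cb K C β {i | i ∈ s}) 1)
    (V : ValuationSubring Ω) (hV : Dv (cb K C β {i | i ∈ s}) V)
    (hn : V.comap (algebraMap F Ω) ≠ ⊤) (q : μ × Bool) (z : ι → F) (hz : z ≠ 0) :
    ord V (∑ j, C (q.1, q.2, j) * algebraMap F Ω (z j)) = al (V.comap (algebraMap F Ω)) z ∧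
    (∑ j, C (q.1, q.2, j) * algebraMap F Ω (z j)) ≠ 0 := by
  classical
  set P : MvPolynomial (μ × Bool × ι) F :=
    ∑ j, MvPolynomial.monomial (Finsupp.single (q.1, q.2, j) 1) (z j) with hP
  have hev : MvPolynomial.aeval C P = ∑ j, C (q.1, q.2, j) * algebraMap F Ω (z j) := by
    rw [hP, map_sum]
    refine Finset.sum_congr rfl fun j _ => ?_
    rw [MvPolynomial.aeval_monomial, Finsupp.prod_single_index (by rw [pow_zero]), pow_one, mul_comm]
  have hcf : ∀ t, P.coeff t = ∑ j, if Finsupp.single (q.1, q.2, j) 1 = t then z j else 0 := by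
    intro t
    rw [hP, MvPolynomial.coeff_sum]
    exact Finset.sum_congr rfl fun j _ => MvPolynomial.coeff_monomial _ _ _
  have hinj : ∀ j j' : ι, (Finsupp.single (q.1, q.2, j) 1 : μ × Bool × ι →₀ ℕ) =
      Finsupp.single (q.1, q.2, j') 1 → j = j' := by
    intro j j' h
    have h2 := (Finsupp.single_left_injective (M := ℕ) one_ne_zero) h
    exact (Prod.mk.inj (Prod.mk.inj h2).2).2
  have hcj : ∀ j, P.coeff (Finsupp.single (q.1, q.2, j) 1) = z j := by
    intro j
    rw [hcf, Finset.sum_eq_single j]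
    · rw [if_pos rfl]
    · intro j' _ hj'
      rw [if_neg]
      intro h
      exact hj' (hinj _ _ h)
    · intro h
      exact absurd (Finset.mem_univ j) h
  have hP0 : P ≠ 0 := by
    intro h
    apply hz
    funext j
    rw [← hcj j, h, MvPolynomial.coeff_zero, Pi.zero_apply]
  have hne : MvPolynomial.aeval C P ≠ 0 := fun h => hP0 (by
    have h2 := (algebraicIndependent_iff.1 hC.1) P h
    exact h2)
  obtain ⟨hmin, t, ht, hord⟩ := C7_gauss hC β s hβ hs hF h1 V hV hn P hP0
  rw [hev] at hmin hord hne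
  refine ⟨?_, hne⟩
  have hv := comap_dvr hV.1 hn
  apply le_antisymm
  · obtain ⟨j, hj0, hj⟩ := exists_al (V := V.comap (algebraMap F Ω)) hz
    rw [← hj, ← hcj j]
    exact hmin _ (MvPolynomial.mem_support_iff.2 (by rw [hcj j]; exact hj0))
  · have h3 : ∃ j, Finsupp.single (q.1, q.2, j) 1 = t := by
      by_contra h
      push Not at h
      apply MvPolynomial.mem_support_iff.1 ht
      rw [hcf]
      exact Finset.sum_eq_zero fun j _ => if_neg (h j)
    obtain ⟨j, rfl⟩ := h3
    rw [hord, hcj j]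
    refine al_le ?_
    rw [← hcj j]
    exact MvPolynomial.mem_support_iff.1 ht

private theorem C7_gn {C : μ × Bool × ι → Ω} (hC : Gn F C) (β : μ → ι → F)
    (s : List μ) (hβ : ∀ i ∈ s, β i ≠ 0) (hs : s.Nodup) (hF : FF K (s.length + 1)) (h1 : FF (cb K C β {i | i ∈ s}) 1)
    (V : ValuationSubring Ω) (hV : Dv (cb K C β {i | i ∈ s}) V)
    (hn : V.comap (algebraMap F Ω) ≠ ⊤) :
    letI : Algebra (ResidueField (V.comap (algebraMap F Ω))) (ResidueField V) := (rhom F V).toAlgebra
    Gn (ResidueField (V.comap (algebraMap F Ω))) (fun q => res V (C q)) := by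
  let _ : Algebra (ResidueField (V.comap (algebraMap F Ω))) (ResidueField V) := (rhom F V).toAlgebra
  obtain ⟨hCV, hi, -⟩ := res_indep hC β s hβ hs hF h1 V hV hn
  have hv := comap_dvr hV.1 hn
  refine ⟨?_, ?_⟩
  · rw [algebraicIndependent_iff]
    intro p hp
    by_contra h
    exact hi p h hp
  · rw [eq_top_iff]
    intro y _
    obtain ⟨x, hx, rfl⟩ := res_surj V y
    by_cases hx0 : x = 0
    · rw [hx0, res_zero]
      exact zero_mem _
    have hmem : x ∈ IntermediateField.adjoin F (Set.range C) := by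
      rw [hC.2]
      exact IntermediateField.mem_top
    obtain ⟨r, t, hrt⟩ := (IntermediateField.mem_adjoin_range_iff F C _).1 hmem
    have ht0 : MvPolynomial.aeval C t ≠ 0 := by
      intro h
      rw [h, div_zero] at hrt
      exact hx0 hrt
    have ht1 : t ≠ 0 := fun h => ht0 (by rw [h, map_zero])
    obtain ⟨a, ha, -, hval, hmt⟩ := C7_norm hv hCV hi t ht1
    have ha0 : t.coeff a ≠ 0 := MvPolynomial.mem_support_iff.1 ha
    set t' := MvPolynomial.C (t.coeff a)⁻¹ * t with ht'
    set r' := MvPolynomial.C (t.coeff a)⁻¹ * r with hr'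
    have hxe : x = MvPolynomial.aeval C r' / MvPolynomial.aeval C t' := by
      have h2 : algebraMap F Ω (t.coeff a)⁻¹ ≠ 0 := (map_ne_zero _).2 (inv_ne_zero ha0)
      rw [hr', ht', map_mul, map_mul, MvPolynomial.aeval_C, mul_div_mul_left _ _ h2]
      exact hrt
    have ht'0 : MvPolynomial.aeval C t' ≠ 0 := by
      intro h
      rw [h, map_zero] at hval
      exact zero_ne_one hval
    have hr'e : MvPolynomial.aeval C r' = x * MvPolynomial.aeval C t' := by
      rw [hxe, div_mul_cancel₀ _ ht'0]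
    have hr'0 : MvPolynomial.aeval C r' ≠ 0 := by
      rw [hr'e]
      exact mul_ne_zero hx0 ht'0
    have hr'1 : r' ≠ 0 := fun h => hr'0 (by rw [h, map_zero])
    have hr'V : MvPolynomial.aeval C r' ∈ V := by
      rw [hr'e]
      exact mul_mem hx (mem_of_val_one hval)
    have hmr : ∀ b, r'.coeff b ∈ V.comap (algebraMap F Ω) := by
      intro b
      by_cases hb : r'.coeff b = 0
      · rw [hb]
        exact zero_mem _
      · have h3 := (C7_gauss hC β s hβ hs hF h1 V hV hn r' hr'1).1 b (MvPolynomial.mem_support_iff.2 hb)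
        have h4 := (ord_nonneg_iff hV.1 hr'0).2 hr'V
        exact (ord_nonneg_iff hv hb).1 (h4.trans h3)
    obtain ⟨-, h5⟩ := C7_red hCV r' hmr
    obtain ⟨-, h6⟩ := C7_red hCV t' hmt
    rw [hxe, res_div hr'V hval, h5, h6]
    exact (IntermediateField.mem_adjoin_range_iff _ _ _).2 ⟨_, _, rfl⟩

private theorem C7_gu {C : μ × Bool × ι → Ω} (hC : Gn F C) (β : μ → ι → F)
    (s : List μ) (hβ : ∀ i ∈ s, β i ≠ 0) (hs : s.Nodup) (hF : FF K (s.length + 1)) (h1 : FF (cb K C β {i | i ∈ s}) 1)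
    (V : ValuationSubring Ω) (hV : Dv (cb K C β {i | i ∈ s}) V)
    (hn : V.comap (algebraMap F Ω) ≠ ⊤) (i : μ) (hi : i ∈ s) :
    letI : Algebra (ResidueField (V.comap (algebraMap F Ω))) (ResidueField V) := (rhom F V).toAlgebra
    res V (gu C β i) = gu (fun q => res V (C q)) (fun i => rd (V.comap (algebraMap F Ω)) (β i)) i := by
  let _ : Algebra (ResidueField (V.comap (algebraMap F Ω))) (ResidueField V) := (rhom F V).toAlgebra
  obtain ⟨hCV, -, -⟩ := res_indep hC β s hβ hs hF h1 V hV hn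
  have hv := comap_dvr hV.1 hn
  obtain ⟨-, a, ha, horda, hmem, hrd⟩ := rd_spec hv (hβ i hi)
  have ha' : algebraMap F Ω a ≠ 0 := (map_ne_zero _).2 ha
  have hmem' : ∀ j, algebraMap F Ω (a * β i j) ∈ V := fun j => hmem j
  have key : ∀ b : Bool, (∑ j, C (i, b, j) * algebraMap F Ω (a * β i j)) ∈ V ∧
      res V (∑ j, C (i, b, j) * algebraMap F Ω (a * β i j)) =
        ∑ j, res V (C (i, b, j)) * algebraMap (ResidueField (V.comap (algebraMap F Ω))) (ResidueField V)
          (rd (V.comap (algebraMap F Ω)) (β i) j) := by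
    intro b
    obtain ⟨h2, h3⟩ := C7_sum (V := V) Finset.univ (fun j => C (i, b, j) * algebraMap F Ω (a * β i j))
      fun j _ => mul_mem (hCV _) (hmem' j)
    refine ⟨h2, h3.trans (Finset.sum_congr rfl fun j _ => ?_)⟩
    rw [res_mul (hCV _) (hmem' j), hrd j, ← rhom_res V (hmem' j)]
    rfl
  have hsc : ∀ b : Bool, (∑ j, C (i, b, j) * algebraMap F Ω (a * β i j)) =
      algebraMap F Ω a * ∑ j, C (i, b, j) * algebraMap F Ω (β i j) := by
    intro b
    rw [Finset.mul_sum]
    refine Finset.sum_congr rfl fun j _ => ?_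
    rw [map_mul]
    ring
  obtain ⟨hl1, hl2⟩ := C7_lin hC β s hβ hs hF h1 V hV hn (i, true) (β i) (hβ i hi)
  have hval : V.valuation (∑ j, C (i, true, j) * algebraMap F Ω (a * β i j)) = 1 := by
    have h4 : (∑ j, C (i, true, j) * algebraMap F Ω (a * β i j)) ≠ 0 := by
      rw [hsc true]
      exact mul_ne_zero ha' hl2
    rw [← ord_eq_zero_iff hV.1 h4, hsc true, ord_mul hV.1 ha' hl2, hl1]
    obtain ⟨hCV, hi', -⟩ := res_indep hC β s hβ hs hF h1 V hV hn
    rw [C7_ram hV.1 hv hCV hi' hC.2 a ha, horda]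
    ring
  have hgu : gu C β i = (∑ j, C (i, false, j) * algebraMap F Ω (a * β i j)) /
      (∑ j, C (i, true, j) * algebraMap F Ω (a * β i j)) := by
    rw [hsc true, hsc false, mul_div_mul_left _ _ ha']
    rfl
  rw [hgu, res_div (key false).1 hval, (key false).2, (key true).2]
  rfl

private theorem C7_base {C : μ × Bool × ι → Ω} (hC : Gn F C) (β : μ → ι → F)
    (s : List μ) (hβ : ∀ i ∈ s, β i ≠ 0) (hs : s.Nodup) (hF : FF K (s.length + 1)) (h1 : FF (cb K C β {i | i ∈ s}) 1)
    (V : ValuationSubring Ω) (hV : Dv (cb K C β {i | i ∈ s}) V)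
    (hn : V.comap (algebraMap F Ω) ≠ ⊤) :
    letI : Algebra (ResidueField (V.comap (algebraMap F Ω))) (ResidueField V) := (rhom F V).toAlgebra
    resS (cb K C β {i | i ∈ s}) V = cb (resS K (V.comap (algebraMap F Ω))) (fun q => res V (C q))
      (fun i => rd (V.comap (algebraMap F Ω)) (β i)) {i | i ∈ s} := by
  let _ : Algebra (ResidueField (V.comap (algebraMap F Ω))) (ResidueField V) := (rhom F V).toAlgebra
  have hgu := fun i hi => C7_gu hC β s hβ hs hF h1 V hV hn i hi
  have hKκ : ∀ a ∈ K, algebraMap F Ω a ∈ cb K C β {i | i ∈ s} := fun a ha =>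
    Subfield.subset_closure (Or.inl (Or.inl ⟨a, ha, rfl⟩))
  have hCκ : ∀ q, C q ∈ cb K C β {i | i ∈ s} := fun q =>
    Subfield.subset_closure (Or.inl (Or.inr ⟨q, rfl⟩))
  have hgκ : ∀ i ∈ s, gu C β i ∈ cb K C β {i | i ∈ s} := fun i hi =>
    Subfield.subset_closure (Or.inr ⟨i, hi, rfl⟩)
  have hval : ∀ x ∈ cb K C β {i | i ∈ s}, x ≠ 0 → V.valuation x = 1 := by
    intro x hx hx0
    have h2 := (ord_nonneg_iff hV.1 hx0).2 (hV.2 x hx)
    have h3 := (ord_nonneg_iff hV.1 (inv_ne_zero hx0)).2 (hV.2 _ (inv_mem hx))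
    rw [ord_inv hV.1 hx0] at h3
    exact (ord_eq_zero_iff hV.1 hx0).1 (by omega)
  apply le_antisymm
  · unfold resS
    rw [Subfield.closure_le]
    rintro _ ⟨y, hy, rfl⟩
    have hy' : y ∈ Subfield.closure ((algebraMap F Ω '' (K : Set F)) ∪ Set.range C ∪
      gu C β '' {i | i ∈ s}) := hy
    clear hy
    rw [SetLike.mem_coe]
    induction hy' using Subfield.closure_induction with
    | mem x hx =>
      rcases hx with (⟨a, ha, rfl⟩ | ⟨q, rfl⟩) | ⟨i, hi, rfl⟩
      · rw [← rhom_res V (hV.2 _ (hKκ a ha))]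
        exact Subfield.subset_closure (Or.inl (Or.inl ⟨_, Subfield.subset_closure ⟨a, ha, rfl⟩, rfl⟩))
      · exact Subfield.subset_closure (Or.inl (Or.inr ⟨q, rfl⟩))
      · rw [hgu i hi]
        exact Subfield.subset_closure (Or.inr ⟨i, hi, rfl⟩)
    | one =>
      rw [res_one]
      exact one_mem _
    | add x y hx hy ihx ihy =>
      rw [res_add (hV.2 x hx) (hV.2 y hy)]
      exact add_mem ihx ihy
    | neg x hx ihx =>
      rw [res_neg (hV.2 x hx)]
      exact neg_mem ihx
    | inv x hx ihx =>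
      by_cases hx0 : x = 0
      · rw [hx0, inv_zero, res_zero]
        exact zero_mem _
      · rw [res_inv (hval x hx hx0)]
        exact inv_mem ihx
    | mul x y hx hy ihx ihy =>
      rw [res_mul (hV.2 x hx) (hV.2 y hy)]
      exact mul_mem ihx ihy
  · unfold cb
    rw [Subfield.closure_le]
    rintro _ ((⟨a, ha, rfl⟩ | ⟨q, rfl⟩) | ⟨i, hi, rfl⟩)
    · rw [SetLike.mem_coe] at ha ⊢
      have ha' : a ∈ Subfield.closure (res (V.comap (algebraMap F Ω)) '' (K : Set F)) := ha
      clear ha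
      induction ha' using Subfield.closure_induction with
      | mem x hx =>
        obtain ⟨b, hb, rfl⟩ := hx
        have h4 : algebraMap (ResidueField (V.comap (algebraMap F Ω))) (ResidueField V)
            (res (V.comap (algebraMap F Ω)) b) = res V (algebraMap F Ω b) :=
          rhom_res V (hV.2 _ (hKκ b hb))
        rw [h4]
        exact Subfield.subset_closure ⟨_, hKκ b hb, rfl⟩
      | one =>
        rw [map_one]
        exact one_mem _
      | add x y _ _ ihx ihy =>
        rw [map_add]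
        exact add_mem ihx ihy
      | neg x _ ihx =>
        rw [map_neg]
        exact neg_mem ihx
      | inv x _ ihx =>
        rw [map_inv₀]
        exact inv_mem ihx
      | mul x y _ _ ihx ihy =>
        rw [map_mul]
        exact mul_mem ihx ihy
    · exact Subfield.subset_closure ⟨_, hCκ q, rfl⟩
    · rw [← hgu i hi]
      exact Subfield.subset_closure ⟨_, hgκ i hi, rfl⟩

/-- A field which is finite over `K(C)(u_i)` is a field of algebraic functions over `K(C)`. -/
private theorem C7_ff {F ι Ω μ : Type} [Field F] [Fintype ι] [Field Ω] [Algebra F Ω]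
    (K : Subfield F) (C : μ × Bool × ι → Ω) (β : μ → ι → F) (s : List μ)
    (h : 0 < Module.finrank (cb K C β {i | i ∈ s}) Ω) : ∃ n : ℕ, FF (cb K C β ∅) n := by
  classical
  have hfin : Module.Finite (cb K C β {i | i ∈ s}) Ω := Module.finite_of_finrank_pos h
  obtain ⟨T, hT⟩ := hfin.fg_top
  have hs : ({i | i ∈ s} : Set μ).Finite := List.finite_toSet s
  set T0 : Finset Ω := (hs.image (gu C β)).toFinset with hT0
  have hadj : IntermediateField.adjoin (cb K C β ∅) (((T0 ∪ T : Finset Ω)) : Set Ω) = ⊤ := by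
    rw [eq_top_iff]
    intro x _
    have hx : x ∈ Submodule.span (cb K C β {i | i ∈ s}) (T : Set Ω) := by
      rw [hT]
      exact Submodule.mem_top
    have hA : ∀ y ∈ cb K C β {i | i ∈ s},
        y ∈ IntermediateField.adjoin (cb K C β ∅) (((T0 ∪ T : Finset Ω)) : Set Ω) := by
      have h0 : ∀ y ∈ cb K C β ∅,
          y ∈ IntermediateField.adjoin (cb K C β ∅) (((T0 ∪ T : Finset Ω)) : Set Ω) := fun y hy =>
        IntermediateField.algebraMap_mem _ (⟨y, hy⟩ : cb K C β ∅)
      have h2 : cb K C β {i | i ∈ s} ≤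
          (IntermediateField.adjoin (cb K C β ∅) (((T0 ∪ T : Finset Ω)) : Set Ω)).toSubfield := by
        unfold cb
        rw [Subfield.closure_le]
        rintro y (hy | ⟨i, hi, rfl⟩)
        · exact h0 y (Subfield.subset_closure (Or.inl hy))
        · refine IntermediateField.subset_adjoin _ _ ?_
          rw [Finset.mem_coe, Finset.mem_union]
          left
          rw [hT0, Set.Finite.mem_toFinset]
          exact ⟨i, hi, rfl⟩
      exact fun y hy => h2 hy
    induction hx using Submodule.span_induction with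
    | mem y hy =>
      refine IntermediateField.subset_adjoin _ _ ?_
      rw [Finset.mem_coe, Finset.mem_union]
      right
      exact hy
    | zero => exact zero_mem _
    | add y z _ _ ihy ihz => exact add_mem (ihy IntermediateField.mem_top) (ihz IntermediateField.mem_top)
    | smul a y _ ihy => exact mul_mem (hA a a.2) (ihy IntermediateField.mem_top)
  have hfg : (⊤ : IntermediateField (cb K C β ∅) Ω).FG := ⟨T0 ∪ T, hadj⟩
  have hes : Algebra.EssFiniteType (cb K C β ∅) Ω := IntermediateField.fg_top_iff.1 hfg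
  have htr : Algebra.trdeg (cb K C β ∅) Ω < Cardinal.aleph0 := trdeg_lt_aleph0 _ _
  obtain ⟨n, hn⟩ := Cardinal.lt_aleph0.1 htr
  exact ⟨n, hfg, hn⟩

theorem place_nontriv {C : μ × Bool × ι → Ω} (hC : Gn F C) (β : μ → ι → F)
    (s : List μ) (hβ : ∀ i ∈ s, β i ≠ 0) (hs : s.Nodup) (hF : FF K (s.length + 1)) (h1 : FF (cb K C β {i | i ∈ s}) 1)
    (V : ValuationSubring Ω) (hV : Dv (cb K C β {i | i ∈ s}) V)
    (hn : V.comap (algebraMap F Ω) ≠ ⊤) :
    Gau K C (V.comap (algebraMap F Ω)) V ∧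
      deg (cb K C β {i | i ∈ s}) V = XR K (V.comap (algebraMap F Ω)) (s.map β) := by
  have hv := comap_dvr hV.1 hn
  obtain ⟨hCV, hi, htr⟩ := res_indep hC β s hβ hs hF h1 V hV hn
  refine ⟨⟨⟨hv, fun a ha => hV.2 _ (Subfield.subset_closure (Or.inl (Or.inl ⟨a, ha, rfl⟩)))⟩,
    C7_ram hV.1 hv hCV hi hC.2, fun q z hz => (C7_lin hC β s hβ hs hF h1 V hV hn q z hz).1⟩, ?_⟩
  let _ : Algebra (ResidueField (V.comap (algebraMap F Ω))) (ResidueField V) := (rhom F V).toAlgebra
  have hGn := C7_gn hC β s hβ hs hF h1 V hV hn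
  have hbase := C7_base hC β s hβ hs hF h1 V hV hn
  have : CharZero Ω := charZero_of_injective_algebraMap (algebraMap F Ω).injective
  have hpos : 0 < deg (cb K C β {i | i ∈ s}) V := deg_pos h1 hV
  unfold deg at hpos ⊢
  rw [hbase] at hpos ⊢
  obtain ⟨n, hn'⟩ := C7_ff _ _ _ s hpos
  have hFF := FF_of_base hGn _ hn'
  have hns : n = s.length := by
    have h2 := hFF.2
    rw [htr] at h2
    exact_mod_cast h2.symm
  rw [hns] at hFF
  have htow := XX_tower (resS K (V.comap (algebraMap F Ω))) hGn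
    (fun i => rd (V.comap (algebraMap F Ω)) (β i)) s hs []
  rw [List.map_nil, List.nil_append, XX_nil] at htow
  unfold XR
  rw [if_pos (by rw [List.length_map]; exact hFF), htow, List.map_map]
  rfl

/-- The order of a polynomial in the `C` is the minimum of the orders of its coefficients. -/
theorem gauss_ord {C : μ × Bool × ι → Ω} (hC : Gn F C) (β : μ → ι → F)
    (s : List μ) (hβ : ∀ i ∈ s, β i ≠ 0) (hs : s.Nodup) (hF : FF K (s.length + 1)) (h1 : FF (cb K C β {i | i ∈ s}) 1)
    (V : ValuationSubring Ω) (hV : Dv (cb K C β {i | i ∈ s}) V)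
    (hn : V.comap (algebraMap F Ω) ≠ ⊤) (P : MvPolynomial (μ × Bool × ι) F) (hP : P ≠ 0) :
    (∀ t ∈ P.support, ord V (MvPolynomial.aeval C P) ≤
      ord (V.comap (algebraMap F Ω)) (P.coeff t)) ∧
    ∃ t ∈ P.support, ord V (MvPolynomial.aeval C P) =
      ord (V.comap (algebraMap F Ω)) (P.coeff t) :=
  C7_gauss hC β s hβ hs hF h1 V hV hn P hP

/-- Trivial on `F`. -/
theorem ord_of_triv {V : ValuationSubring Ω} (h : V.comap (algebraMap F Ω) = ⊤) (x : F) :
    ord V (algebraMap F Ω x) = 0 := by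
  have hmem : ∀ y : F, algebraMap F Ω y ∈ V := by
    intro y
    have h2 : y ∈ V.comap (algebraMap F Ω) := by
      rw [h]
      trivial
    exact h2
  by_cases hex : ∃ n, HasOrd V (algebraMap F Ω x) n
  · obtain ⟨n, hn⟩ := hex
    have hord := ord_eq hn
    rw [hord]
    obtain ⟨π, u, hπ, hx⟩ := hn
    have hπ0 : (π : Ω) ≠ 0 := fun h => hπ.ne_zero (Subtype.ext h)
    have hu : V.valuation ((u : V) : Ω) = 1 := (ValuationSubring.valuation_eq_one_iff V _).1 u.isUnit
    have hvp : V.valuation (π : Ω) < 1 := val_irr_lt hπ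
    have hv0 : 0 < V.valuation (π : Ω) := by
      rw [Valuation.pos_iff]
      exact hπ0
    have hu0 : ((u : V) : Ω) ≠ 0 := by
      intro h0
      rw [h0, map_zero] at hu
      exact zero_ne_one hu
    have hx0 : algebraMap F Ω x ≠ 0 := by
      rw [hx]
      exact mul_ne_zero (zpow_ne_zero _ hπ0) hu0
    have h3 : V.valuation (algebraMap F Ω x) ≤ 1 := (ValuationSubring.valuation_le_one_iff V _).2 (hmem x)
    have h4 : V.valuation (algebraMap F Ω x)⁻¹ ≤ 1 := by
      rw [← map_inv₀]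
      exact (ValuationSubring.valuation_le_one_iff V _).2 (hmem _)
    have h5 : V.valuation (algebraMap F Ω x) = 1 := by
      refine le_antisymm h3 ?_
      rw [map_inv₀] at h4
      have h6 : V.valuation (algebraMap F Ω x) ≠ 0 := (Valuation.ne_zero_iff _).2 hx0
      exact (inv_le_one₀ (zero_lt_iff.2 h6)).1 h4
    rw [hx, map_mul, map_zpow₀, hu, mul_one] at h5
    exact (zpow_right_strictAnti₀ hv0 hvp).injective (h5.trans (zpow_zero _).symm)
  · unfold ord
    rw [dif_neg hex]

end Pool.Agent.Lib.MP_1e3e9c_agU
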