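import Mathlib
import Pool.Agent.Lib.MP_1e3e9c_agU.C7

/-!
# MP_1e3e9c_ag, project U, leaf C7b: the Gauss extension

`v` a discrete valuation ring of `F` over `K` with `XR K v (s.map β) > 0`; `m = s.length + 1`.
Existence: the Gauss extension `V` of `v` to `Ω = F(C)`: for `P ∈ F[C]` the minimum of the orders of
the coefficients (Gauss lemma), extended to quotients; or the localisation of `O_v[C]` at the prime
ideal generated by a uniformiser `π` (`π` is a prime element of the unique factorisation domain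
`O_v[C]`). It is a discrete valuation ring with `V ∩ F = v`, `C_q ∈ V`, and the residues `c̄` are
algebraically independent over the residue field `R₀` of `v`, `R = R₀(c̄)`. The reductions `Ȳ_i`, `Ȳ'_i` of
`∑ C_(i,b,j) β_ij` (`β_i` scaled) are not zero, so `ū_i` exists and is `gu c̄ (rd v ∘ β) i` (up to
scaling `β_i`). As `XR K v (s.map β) > 0`, `R₀` is a function field of `s.length` variables over `K`
and `XX` is positive, so the `ū_i` are algebraically independent over `K(c̄)` (`ind_of_pos` with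
`l = []`), so every nonzero polynomial over `K` in the `C_q`, `u_i` is a unit of `V`: `κ ⊆ V`.
Uniqueness: by `place_nontriv` (its proof) the order of a polynomial in `F[C]` is the minimum of the
orders of its coefficients. (With `Gau.lin` only: two discrete valuation rings which agree on `F`,
contain the `C_q` with residues algebraically independent over `R₀`.) If you prefer, prove the
uniqueness from `gauss_ord` of leaf C7.
-/

set_option autoImplicit false

namespace Pool.Agent.Lib.MP_1e3e9c_agU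

open IsLocalRing Pool.Agent.Lib.MP_b197b4_ntK

section Gauss

variable {F σ Ω : Type} [Field F] [Field Ω] [Algebra F Ω]

/-- The value of a polynomial over `v` at `C`. -/
private noncomputable def C7b_ev (v : ValuationSubring F) (C : σ → Ω) : MvPolynomial σ v →+* Ω :=
  MvPolynomial.eval₂Hom ((algebraMap F Ω).comp v.subtype) C

/-- The reduction of a polynomial over `v`. -/
private noncomputable def C7b_rv (σ : Type) (v : ValuationSubring F) :
    MvPolynomial σ v →+* MvPolynomial σ (ResidueField v) :=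
  MvPolynomial.map (residue v)

private theorem C7b_ev_eq (v : ValuationSubring F) (C : σ → Ω) (P : MvPolynomial σ v) :
    C7b_ev v C P = MvPolynomial.aeval C (MvPolynomial.map v.subtype P) := by
  rw [MvPolynomial.aeval_def, MvPolynomial.eval₂_map]
  rfl

private theorem C7b_ev_inj {v : ValuationSubring F} {C : σ → Ω} (hC : AlgebraicIndependent F C) :
    Function.Injective (C7b_ev v C) := by
  intro P Q h
  rw [C7b_ev_eq, C7b_ev_eq] at h
  exact MvPolynomial.map_injective _ (Subtype.val_injective) (hC h)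

private theorem C7b_ne {v : ValuationSubring F} {Q : MvPolynomial σ v} (h : C7b_rv σ v Q ≠ 0) :
    Q ≠ 0 := by
  rintro rfl
  exact h (map_zero _)

private theorem C7b_ev_ne {v : ValuationSubring F} {C : σ → Ω} (hC : AlgebraicIndependent F C)
    {Q : MvPolynomial σ v} (h : C7b_rv σ v Q ≠ 0) : C7b_ev v C Q ≠ 0 := by
  intro h1
  exact C7b_ne h (C7b_ev_inj hC (by rw [h1, map_zero]))

private theorem C7b_ev_C (v : ValuationSubring F) (C : σ → Ω) (a : v) :
    C7b_ev v C (MvPolynomial.C a) = algebraMap F Ω a := by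
  simp [C7b_ev]

private theorem C7b_ev_X (v : ValuationSubring F) (C : σ → Ω) (q : σ) :
    C7b_ev v C (MvPolynomial.X q) = C q := by
  simp [C7b_ev]

/-- Every polynomial is a multiple of a primitive one. -/
private theorem C7b_prim (v : ValuationSubring F) (P : MvPolynomial σ F) (hP : P ≠ 0) :
    ∃ (a : F) (P₀ : MvPolynomial σ v), a ≠ 0 ∧ C7b_rv σ v P₀ ≠ 0 ∧
      P = MvPolynomial.C a * MvPolynomial.map v.subtype P₀ := by
  classical
  obtain ⟨t₀, ht₀, hmax⟩ := Finset.exists_max_image P.support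
    (fun t => v.valuation (P.coeff t)) (MvPolynomial.support_nonempty.2 hP)
  have ha : P.coeff t₀ ≠ 0 := MvPolynomial.mem_support_iff.1 ht₀
  have hval : 0 < v.valuation (P.coeff t₀) := by
    rw [Valuation.pos_iff]
    exact ha
  have h1 : (MvPolynomial.C (P.coeff t₀)⁻¹ * P) ∈
      Set.range (MvPolynomial.map (σ := σ) v.subtype) := by
    rw [MvPolynomial.mem_range_map_iff_coeffs_subset]
    intro c hc
    rw [Finset.mem_coe, MvPolynomial.mem_coeffs_iff] at hc
    obtain ⟨t, ht, rfl⟩ := hc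
    rw [MvPolynomial.coeff_C_mul]
    have hm : (P.coeff t₀)⁻¹ * P.coeff t ∈ v := by
      rw [← ValuationSubring.valuation_le_one_iff, map_mul, map_inv₀, inv_mul_le_one₀ hval]
      by_cases h0 : P.coeff t = 0
      · rw [h0, map_zero]
        exact zero_le
      · exact hmax t (MvPolynomial.mem_support_iff.2 h0)
    exact ⟨⟨_, hm⟩, rfl⟩
  obtain ⟨P₀, hP₀⟩ := h1
  refine ⟨P.coeff t₀, P₀, ha, ?_, ?_⟩
  · intro h2
    have h3 := congrArg (MvPolynomial.coeff t₀) h2
    rw [C7b_rv, MvPolynomial.coeff_map, MvPolynomial.coeff_zero] at h3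
    have h4 := congrArg (MvPolynomial.coeff t₀) hP₀
    rw [MvPolynomial.coeff_map, MvPolynomial.coeff_C_mul, inv_mul_cancel₀ ha] at h4
    have h5 : P₀.coeff t₀ = 1 := Subtype.ext h4
    rw [h5, map_one] at h3
    exact one_ne_zero h3
  · rw [hP₀, ← mul_assoc, ← map_mul, mul_inv_cancel₀ ha, map_one, one_mul]

/-- Every element of `F(C)` is a scalar times a quotient of primitive polynomials. -/
private theorem C7b_frac {C : σ → Ω} (hC : Gn F C) (v : ValuationSubring F) {x : Ω} (hx : x ≠ 0) :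
    ∃ (a : F) (P Q : MvPolynomial σ v), a ≠ 0 ∧ C7b_rv σ v P ≠ 0 ∧ C7b_rv σ v Q ≠ 0 ∧
      x * C7b_ev v C Q = algebraMap F Ω a * C7b_ev v C P := by
  have h1 : x ∈ IntermediateField.adjoin F (Set.range C) := by
    rw [hC.2]
    exact IntermediateField.mem_top
  obtain ⟨r, s, hrs⟩ := (IntermediateField.mem_adjoin_range_iff F C x).1 h1
  have hs : MvPolynomial.aeval C s ≠ 0 := by
    intro h
    rw [h, div_zero] at hrs
    exact hx hrs
  have hr : MvPolynomial.aeval C r ≠ 0 := by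
    intro h
    rw [h, zero_div] at hrs
    exact hx hrs
  obtain ⟨a, P, ha, hP, hP'⟩ := C7b_prim v r (by
    rintro rfl
    exact hr (map_zero _))
  obtain ⟨b, Q, hb, hQ, hQ'⟩ := C7b_prim v s (by
    rintro rfl
    exact hs (map_zero _))
  refine ⟨a / b, P, Q, div_ne_zero ha hb, hP, hQ, ?_⟩
  have e1 : MvPolynomial.aeval C r = algebraMap F Ω a * C7b_ev v C P := by
    rw [C7b_ev_eq]
    conv_lhs => rw [hP']
    rw [map_mul, MvPolynomial.aeval_C]
  have e2 : MvPolynomial.aeval C s = algebraMap F Ω b * C7b_ev v C Q := by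
    rw [C7b_ev_eq]
    conv_lhs => rw [hQ']
    rw [map_mul, MvPolynomial.aeval_C]
  have hb' : algebraMap F Ω b ≠ 0 := fun h => hb ((map_eq_zero _).1 h)
  have hQe : C7b_ev v C Q ≠ 0 := C7b_ev_ne hC.1 hQ
  rw [hrs, e1, e2, map_div₀]
  field_simp

/-- The Gauss extension. -/
private noncomputable def C7b_V {C : σ → Ω} (hC : Gn F C) (v : ValuationSubring F) :
    ValuationSubring Ω where
  carrier := {x | ∃ P Q : MvPolynomial σ v, C7b_rv σ v Q ≠ 0 ∧ x * C7b_ev v C Q = C7b_ev v C P}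
  mul_mem' := by
    rintro x y ⟨P, Q, hQ, h⟩ ⟨P', Q', hQ', h'⟩
    refine ⟨P * P', Q * Q', ?_, ?_⟩
    · rw [map_mul]
      exact mul_ne_zero hQ hQ'
    · rw [map_mul, map_mul, ← h, ← h']
      ring
  one_mem' := ⟨1, 1, by rw [map_one]; exact one_ne_zero, by rw [one_mul]⟩
  add_mem' := by
    rintro x y ⟨P, Q, hQ, h⟩ ⟨P', Q', hQ', h'⟩
    refine ⟨P * Q' + P' * Q, Q * Q', ?_, ?_⟩
    · rw [map_mul]
      exact mul_ne_zero hQ hQ'
    · rw [map_mul, map_add, map_mul, map_mul, ← h, ← h']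
      ring
  zero_mem' := ⟨0, 1, by rw [map_one]; exact one_ne_zero, by rw [zero_mul, map_zero]⟩
  neg_mem' := by
    rintro x ⟨P, Q, hQ, h⟩
    exact ⟨-P, Q, hQ, by rw [map_neg, ← h, neg_mul]⟩
  mem_or_inv_mem' := by
    intro x
    by_cases hx : x = 0
    · left
      rw [hx]
      exact ⟨0, 1, by rw [map_one]; exact one_ne_zero, by rw [zero_mul, map_zero]⟩
    obtain ⟨a, P, Q, ha, hP, hQ, h⟩ := C7b_frac hC v hx
    have ha' : algebraMap F Ω a ≠ 0 := fun h => ha ((map_eq_zero _).1 h)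
    rcases v.mem_or_inv_mem a with h1 | h1
    · left
      exact ⟨MvPolynomial.C ⟨a, h1⟩ * P, Q, hQ, by rw [map_mul, C7b_ev_C, h]⟩
    · right
      refine ⟨MvPolynomial.C ⟨a⁻¹, h1⟩ * Q, P, hP, ?_⟩
      rw [map_mul, C7b_ev_C, map_inv₀]
      have hPe : C7b_ev v C P ≠ 0 := C7b_ev_ne hC.1 hP
      field_simp
      rw [h]
      ring

private theorem C7b_mem {C : σ → Ω} (hC : Gn F C) (v : ValuationSubring F) {x : Ω} :
    x ∈ C7b_V hC v ↔
      ∃ P Q : MvPolynomial σ v, C7b_rv σ v Q ≠ 0 ∧ x * C7b_ev v C Q = C7b_ev v C P := Iff.rfl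

private theorem C7b_comap {C : σ → Ω} (hC : Gn F C) (v : ValuationSubring F) :
    (C7b_V hC v).comap (algebraMap F Ω) = v := by
  ext a
  rw [ValuationSubring.mem_comap, C7b_mem]
  constructor
  · rintro ⟨P, Q, hQ, h⟩
    by_contra ha
    have ha0 : a ≠ 0 := by
      rintro rfl
      exact ha (zero_mem v)
    have hval : 1 < v.valuation a := by
      rw [← not_le, ValuationSubring.valuation_le_one_iff]
      exact ha
    have hinv : v.valuation a⁻¹ < 1 := by
      rw [map_inv₀]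
      exact inv_lt_one_of_one_lt₀ hval
    have hav : a⁻¹ ∈ v := (ValuationSubring.valuation_le_one_iff v _).1 hinv.le
    have h1 : Q = MvPolynomial.C ⟨a⁻¹, hav⟩ * P := by
      apply C7b_ev_inj hC.1
      rw [map_mul, C7b_ev_C, ← h, map_inv₀, ← mul_assoc, inv_mul_cancel₀, one_mul]
      exact fun h => ha0 ((map_eq_zero _).1 h)
    apply hQ
    have h2 : residue v ⟨a⁻¹, hav⟩ = 0 := by
      rw [residue_eq_zero_iff, ValuationSubring.valuation_lt_one_iff]
      exact hinv
    rw [h1, map_mul]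
    have h3 : C7b_rv σ v (MvPolynomial.C ⟨a⁻¹, hav⟩) = 0 := by
      rw [C7b_rv, MvPolynomial.map_C, h2, map_zero]
    rw [h3, zero_mul]
  · intro ha
    exact ⟨MvPolynomial.C ⟨a, ha⟩, 1, by rw [map_one]; exact one_ne_zero, by
      rw [map_one, mul_one, C7b_ev_C]⟩

/-- A valuation ring of `Ω` whose values are the values of the elements of `F`. -/
private theorem C7b_dvr (V : ValuationSubring Ω) (v : ValuationSubring F)
    (hv : IsDiscreteValuationRing v) (hc : V.comap (algebraMap F Ω) = v)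
    (hw : ∀ x : Ω, x ≠ 0 → ∃ (a : F) (w : Vˣ), x = algebraMap F Ω a * ((w : V) : Ω)) :
    IsDiscreteValuationRing V := by
  have hmem : ∀ a : F, a ∈ v ↔ algebraMap F Ω a ∈ V := by
    intro a
    rw [← hc]
    rfl
  let j : v →+* V := ((algebraMap F Ω).comp v.subtype).codRestrict V.toSubring
    fun a => (hmem a).1 a.2
  obtain ⟨ϖ, hϖ⟩ := IsDiscreteValuationRing.exists_irreducible v
  have key : ∀ x : V, x ≠ 0 → ∃ n : ℕ, Associated (j ϖ ^ n) x := by
    intro x hx
    have hx0 : (x : Ω) ≠ 0 := fun h => hx (Subtype.ext h)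
    obtain ⟨a, w, haw⟩ := hw x hx0
    have hwi : ((w : V) : Ω) * (((w⁻¹ : Vˣ) : V) : Ω) = 1 := unit_coe_mul_inv w
    have ha : a ∈ v := by
      rw [hmem]
      have h1 : algebraMap F Ω a = (x : Ω) * (((w⁻¹ : Vˣ) : V) : Ω) := by
        rw [haw, mul_assoc, hwi, mul_one]
      rw [h1]
      exact mul_mem x.2 (SetLike.coe_mem _)
    have ha0 : (⟨a, ha⟩ : v) ≠ 0 := by
      intro h
      have h1 : a = 0 := congrArg Subtype.val h
      rw [h1, map_zero, zero_mul] at haw
      exact hx0 haw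
    obtain ⟨n, u, hu⟩ := IsDiscreteValuationRing.eq_unit_mul_pow_irreducible ha0 hϖ
    refine ⟨n, Units.map (j : v →* V) u * w, ?_⟩
    apply Subtype.ext
    have h2 : algebraMap F Ω a = ((j (u : v) : V) : Ω) * ((j ϖ : V) : Ω) ^ n := by
      have h3 := congrArg (fun z : v => ((j z : V) : Ω)) hu
      simp only [map_mul, map_pow] at h3
      exact h3
    rw [haw, h2]
    push_cast
    have h4 : (((Units.map (j : v →* V) u : Vˣ) : V) : Ω) = ((j (u : v) : V) : Ω) := rfl
    rw [h4]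
    ring
  have hnu : ¬ IsUnit (j ϖ) := by
    intro h
    obtain ⟨y, hy⟩ := h.exists_right_inv
    have h1 : algebraMap F Ω (ϖ : F) * (y : Ω) = 1 := congrArg Subtype.val hy
    have h2 : algebraMap F Ω ((ϖ : F)⁻¹) = (y : Ω) := by
      rw [map_inv₀]
      exact inv_eq_of_mul_eq_one_right h1
    have h3 : (ϖ : F)⁻¹ ∈ v := by
      rw [hmem, h2]
      exact y.2
    have h0 : (ϖ : F) ≠ 0 := fun h => hϖ.ne_zero (Subtype.ext h)
    exact hϖ.not_isUnit (IsUnit.of_mul_eq_one ⟨(ϖ : F)⁻¹, h3⟩ (Subtype.ext (mul_inv_cancel₀ h0)))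
  have hp0 : j ϖ ≠ 0 := by
    intro h
    have h1 : algebraMap F Ω (ϖ : F) = 0 := congrArg Subtype.val h
    exact hϖ.ne_zero (Subtype.ext ((map_eq_zero _).1 h1))
  refine IsDiscreteValuationRing.ofHasUnitMulPowIrreducibleFactorization
    ⟨j ϖ, ⟨hnu, fun x y hxy => ?_⟩, fun {x} hx => key x hx⟩
  have hx : x ≠ 0 := by
    rintro rfl
    rw [zero_mul] at hxy
    exact hp0 hxy
  have hy : y ≠ 0 := by
    rintro rfl
    rw [mul_zero] at hxy
    exact hp0 hxy
  obtain ⟨n, hn⟩ := key x hx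
  obtain ⟨m, hm⟩ := key y hy
  rcases Nat.eq_zero_or_pos n with h0 | hn0
  · left
    rw [h0, pow_zero] at hn
    exact hn.symm.isUnit_iff.2 isUnit_one
  rcases Nat.eq_zero_or_pos m with h0 | hm0
  · right
    rw [h0, pow_zero] at hm
    exact hm.symm.isUnit_iff.2 isUnit_one
  exfalso
  have h1 : Associated (j ϖ ^ (n + m)) (j ϖ) := by
    rw [pow_add]
    have h2 := hn.mul_mul hm
    rwa [← hxy] at h2
  have h2 : j ϖ ^ 2 ∣ j ϖ := (pow_dvd_pow _ (by omega)).trans h1.dvd
  rw [pow_two] at h2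
  obtain ⟨c, hc'⟩ := h2
  apply hnu
  apply IsUnit.of_mul_eq_one c
  have h3 : j ϖ * (j ϖ * c) = j ϖ * 1 := by
    rw [mul_one, ← mul_assoc, ← hc']
  exact mul_left_cancel₀ hp0 h3

/-- The inverse of an element with nonzero reduction. -/
private theorem C7b_unit {C : σ → Ω} (hC : Gn F C) (v : ValuationSubring F) {x : Ω}
    {P Q : MvPolynomial σ v} (hP : C7b_rv σ v P ≠ 0) (hQ : C7b_rv σ v Q ≠ 0)
    (h : x * C7b_ev v C Q = C7b_ev v C P) : x ∈ C7b_V hC v ∧ x⁻¹ ∈ C7b_V hC v := by
  refine ⟨⟨P, Q, hQ, h⟩, ⟨Q, P, hP, ?_⟩⟩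
  have hPe : C7b_ev v C P ≠ 0 := C7b_ev_ne hC.1 hP
  have hx : x ≠ 0 := by
    rintro rfl
    rw [zero_mul] at h
    exact hPe h.symm
  rw [← h, ← mul_assoc, inv_mul_cancel₀ hx, one_mul]

private theorem C7b_isDvr {C : σ → Ω} (hC : Gn F C) (v : ValuationSubring F)
    (hv : IsDiscreteValuationRing v) : IsDiscreteValuationRing (C7b_V hC v) := by
  refine C7b_dvr _ v hv (C7b_comap hC v) fun x hx => ?_
  obtain ⟨a, P, Q, ha, hP, hQ, h⟩ := C7b_frac hC v hx
  have hQe : C7b_ev v C Q ≠ 0 := C7b_ev_ne hC.1 hQ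
  have hPe : C7b_ev v C P ≠ 0 := C7b_ev_ne hC.1 hP
  obtain ⟨h1, h2⟩ := C7b_unit hC v (x := C7b_ev v C P / C7b_ev v C Q) hP hQ
    (div_mul_cancel₀ _ hQe)
  refine ⟨a, ⟨⟨_, h1⟩, ⟨_, h2⟩, ?_, ?_⟩, ?_⟩
  · apply Subtype.ext
    exact mul_inv_cancel₀ (div_ne_zero hPe hQe)
  · apply Subtype.ext
    exact inv_mul_cancel₀ (div_ne_zero hPe hQe)
  · change x = algebraMap F Ω a * (C7b_ev v C P / C7b_ev v C Q)
    rw [mul_div_assoc', ← h, mul_div_assoc, div_self hQe, mul_one]

/-- The reduction in the field `R₀(c)`. -/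
private noncomputable def C7b_rG (σ : Type) (v : ValuationSubring F) :
    MvPolynomial σ v →+* GF (ResidueField v) σ :=
  (algebraMap (MvPolynomial σ (ResidueField v)) (GF (ResidueField v) σ)).comp (C7b_rv σ v)

private theorem C7b_rG_ne {v : ValuationSubring F} {P : MvPolynomial σ v} :
    C7b_rG σ v P ≠ 0 ↔ C7b_rv σ v P ≠ 0 := by
  rw [C7b_rG, RingHom.comp_apply, ne_eq, ne_eq,
    map_eq_zero_iff _ (IsFractionRing.injective (MvPolynomial σ (ResidueField v))
      (GF (ResidueField v) σ))]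

private theorem C7b_rG_C (v : ValuationSubring F) (a : v) :
    C7b_rG σ v (MvPolynomial.C a) = algebraMap (ResidueField v) _ (residue v a) := by
  rw [C7b_rG, RingHom.comp_apply, C7b_rv, MvPolynomial.map_C, ← MvPolynomial.algebraMap_eq,
    ← IsScalarTower.algebraMap_apply]

private theorem C7b_rG_X (v : ValuationSubring F) (q : σ) :
    C7b_rG σ v (MvPolynomial.X q) = gc (ResidueField v) σ q := by
  rw [C7b_rG, RingHom.comp_apply, C7b_rv, MvPolynomial.map_X]
  rfl

/-- `y` is a reduction of `x`. -/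
private def C7b_R (C : σ → Ω) (v : ValuationSubring F) (x : Ω) (y : GF (ResidueField v) σ) :
    Prop :=
  ∃ P Q : MvPolynomial σ v, C7b_rv σ v Q ≠ 0 ∧ x * C7b_ev v C Q = C7b_ev v C P ∧
    y * C7b_rG σ v Q = C7b_rG σ v P

private theorem C7b_R_add {C : σ → Ω} {v : ValuationSubring F} {x x' : Ω}
    {y y' : GF (ResidueField v) σ} (h : C7b_R C v x y) (h' : C7b_R C v x' y') :
    C7b_R C v (x + x') (y + y') := by
  obtain ⟨P, Q, hQ, h1, h2⟩ := h
  obtain ⟨P', Q', hQ', h1', h2'⟩ := h'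
  refine ⟨P * Q' + P' * Q, Q * Q', ?_, ?_, ?_⟩
  · rw [map_mul]
    exact mul_ne_zero hQ hQ'
  · rw [map_mul, map_add, map_mul, map_mul, ← h1, ← h1']
    ring
  · rw [map_mul, map_add, map_mul, map_mul, ← h2, ← h2']
    ring

private theorem C7b_R_mul {C : σ → Ω} {v : ValuationSubring F} {x x' : Ω}
    {y y' : GF (ResidueField v) σ} (h : C7b_R C v x y) (h' : C7b_R C v x' y') :
    C7b_R C v (x * x') (y * y') := by
  obtain ⟨P, Q, hQ, h1, h2⟩ := h
  obtain ⟨P', Q', hQ', h1', h2'⟩ := h'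
  refine ⟨P * P', Q * Q', ?_, ?_, ?_⟩
  · rw [map_mul]
    exact mul_ne_zero hQ hQ'
  · rw [map_mul, map_mul, ← h1, ← h1']
    ring
  · rw [map_mul, map_mul, ← h2, ← h2']
    ring

private theorem C7b_R_C (C : σ → Ω) (v : ValuationSubring F) (a : v) :
    C7b_R C v (algebraMap F Ω a) (algebraMap (ResidueField v) _ (residue v a)) :=
  ⟨MvPolynomial.C a, 1, by rw [map_one]; exact one_ne_zero, by rw [map_one, mul_one, C7b_ev_C],
    by rw [map_one, mul_one, C7b_rG_C]⟩

private theorem C7b_R_X (C : σ → Ω) (v : ValuationSubring F) (q : σ) :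
    C7b_R C v (C q) (gc (ResidueField v) σ q) :=
  ⟨MvPolynomial.X q, 1, by rw [map_one]; exact one_ne_zero, by rw [map_one, mul_one, C7b_ev_X],
    by rw [map_one, mul_one, C7b_rG_X]⟩

end Gauss

section Cut

variable {F ι Ω μ : Type} [Field F] [Fintype ι] [Field Ω] [Algebra F Ω] {K : Subfield F}

/-- The reduction of the generic function `u_i`. -/
private theorem C7b_R_gu {C : μ × Bool × ι → Ω} (hC : AlgebraicIndependent F C) (β : μ → ι → F)
    (i : μ) (hβ : β i ≠ 0) (v : ValuationSubring F) (hv : IsDiscreteValuationRing v) :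
    C7b_R C v (gu C β i) (gu (gc (ResidueField v) (μ × Bool × ι)) (fun i => rd v (β i)) i) := by
  classical
  obtain ⟨hr, a, ha, -, hint, hres⟩ := rd_spec hv hβ
  have ha' : algebraMap F Ω a ≠ 0 := fun h => ha ((map_eq_zero _).1 h)
  obtain ⟨j₀, hj₀⟩ := Function.ne_iff.1 hr
  obtain ⟨S, hS⟩ : ∃ S : Bool → MvPolynomial (μ × Bool × ι) v,
      S = fun b => ∑ j, MvPolynomial.C ⟨a * β i j, hint j⟩ * MvPolynomial.X (i, b, j) := ⟨_, rfl⟩
  have h1 : ∀ b, C7b_ev v C (S b) =
      algebraMap F Ω a * ∑ j, C (i, b, j) * algebraMap F Ω (β i j) := by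
    intro b
    rw [hS, map_sum, Finset.mul_sum]
    refine Finset.sum_congr rfl fun j _ => ?_
    rw [map_mul, C7b_ev_C, C7b_ev_X, map_mul]
    ring
  have h2 : ∀ b, C7b_rG (μ × Bool × ι) v (S b) = ∑ j, gc (ResidueField v) (μ × Bool × ι) (i, b, j) *
      algebraMap (ResidueField v) _ (rd v (β i) j) := by
    intro b
    rw [hS, map_sum]
    refine Finset.sum_congr rfl fun j _ => ?_
    rw [map_mul, C7b_rG_C, C7b_rG_X, hres j, res_of_mem (hint j)]
    ring
  have h3 : ∀ b, C7b_rv (μ × Bool × ι) v (S b) ≠ 0 := by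
    intro b h
    have h4 := congrArg (MvPolynomial.eval
      (fun q : μ × Bool × ι => if q = (i, b, j₀) then (1 : ResidueField v) else 0)) h
    rw [hS, map_sum, map_sum, map_zero, Finset.sum_eq_single j₀] at h4
    · rw [map_mul, map_mul, C7b_rv, MvPolynomial.map_C, MvPolynomial.map_X, MvPolynomial.eval_C,
        MvPolynomial.eval_X, if_pos rfl, mul_one, ← res_of_mem (hint j₀), ← hres j₀] at h4
      exact hj₀ h4
    · intro j _ hj
      rw [map_mul, map_mul, C7b_rv, MvPolynomial.map_X, MvPolynomial.eval_X, if_neg, mul_zero]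
      intro h5
      exact hj (Prod.mk.inj (Prod.mk.inj h5).2).2
    · intro h5
      exact absurd (Finset.mem_univ _) h5
  refine ⟨S false, S true, h3 true, ?_, ?_⟩
  · have h4 : C7b_ev v C (S true) ≠ 0 := C7b_ev_ne hC (h3 true)
    rw [h1] at h4
    have h5 : (∑ j, C (i, true, j) * algebraMap F Ω (β i j)) ≠ 0 := right_ne_zero_of_mul h4
    rw [h1, h1, gu]
    field_simp
  · have h4 : C7b_rG (μ × Bool × ι) v (S true) ≠ 0 := C7b_rG_ne.2 (h3 true)
    rw [h2] at h4
    rw [h2, h2, gu]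
    exact div_mul_cancel₀ _ h4

/-- The residues `c`, `ū_i` are algebraically independent over the image of `K`. -/
private theorem C7b_ind (C : μ × Bool × ι → Ω) (β : μ → ι → F) (s : List μ)
    (hC : AlgebraicIndependent F C)
    (hi : AlgebraicIndependent (cb K C β ∅) (fun i : {i // i ∈ s} => gu C β i)) :
    AlgebraicIndependent K (Sum.elim (fun i : {i // i ∈ s} => gu C β i) C) := by
  have hmem : ∀ a : K, algebraMap K Ω a ∈ cb K C β ∅ := by
    intro a
    apply Subfield.subset_closure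
    left
    left
    exact ⟨a, a.2, rfl⟩
  let e : K →+* cb K C β ∅ := (algebraMap K Ω).codRestrict (cb K C β ∅) hmem
  let _ : Algebra K (cb K C β ∅) := e.toAlgebra
  have : IsScalarTower K (cb K C β ∅) Ω := IsScalarTower.of_algebraMap_eq fun _ => rfl
  have hK : AlgebraicIndependent K C :=
    AlgebraicIndependent.restrictScalars (algebraMap K F).injective hC
  refine hK.sumElim_of_tower ?_ hi
  rintro _ ⟨q, rfl⟩
  exact ⟨⟨C q, Subfield.subset_closure (Or.inl (Or.inr ⟨q, rfl⟩))⟩, rfl⟩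

/-- The base field of the generic curve is contained in the Gauss extension. -/
private theorem C7b_sub {C : μ × Bool × ι → Ω} (hC : Gn F C) (β : μ → ι → F) (s : List μ)
    (hβ : ∀ i ∈ s, β i ≠ 0) (v : ValuationSubring F) (hv : Dv K v)
    (hi : AlgebraicIndependent (resS K v) (Sum.elim
      (fun i : {i // i ∈ s} => gu (gc (ResidueField v) (μ × Bool × ι)) (fun i => rd v (β i)) i)
      (gc (ResidueField v) (μ × Bool × ι)))) :
    ∀ x ∈ cb K C β {i | i ∈ s}, x ∈ C7b_V hC v := by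
  intro x hx
  let κ₀ : K →+* ResidueField v :=
    (residue v).comp (K.subtype.codRestrict v.toSubring fun a => hv.2 a a.2)
  let κ : K →+* resS K v := κ₀.codRestrict (resS K v) fun a =>
    Subfield.subset_closure ⟨a, a.2, res_of_mem (hv.2 a a.2)⟩
  let g₁ : {i // i ∈ s} ⊕ (μ × Bool × ι) → Ω := Sum.elim (fun i => gu C β i) C
  let g₂ : {i // i ∈ s} ⊕ (μ × Bool × ι) → GF (ResidueField v) (μ × Bool × ι) := Sum.elim
    (fun i => gu (gc (ResidueField v) (μ × Bool × ι)) (fun i => rd v (β i)) i)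
    (gc (ResidueField v) (μ × Bool × ι))
  let Θ : MvPolynomial ({i // i ∈ s} ⊕ (μ × Bool × ι)) K →+* Ω :=
    MvPolynomial.eval₂Hom ((algebraMap F Ω).comp K.subtype) g₁
  have hgen : ∀ q, C7b_R C v (g₁ q) (g₂ q) := by
    rintro (i | q)
    · exact C7b_R_gu hC.1 β i (hβ i i.2) v hv.1
    · exact C7b_R_X C v q
  have hΘ : ∀ N, C7b_R C v (Θ N) (MvPolynomial.aeval g₂ (MvPolynomial.map κ N)) := by
    intro N
    induction N using MvPolynomial.induction_on with
    | C a =>
      have h1 : Θ (MvPolynomial.C a) = algebraMap F Ω a := by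
        simp [Θ]
      rw [h1, MvPolynomial.map_C, MvPolynomial.aeval_C]
      exact C7b_R_C C v ⟨a, hv.2 a a.2⟩
    | add p q hp hq =>
      rw [map_add, map_add, map_add]
      exact C7b_R_add hp hq
    | mul_X p q hp =>
      rw [map_mul, map_mul, map_mul, MvPolynomial.map_X, MvPolynomial.aeval_X]
      have h1 : Θ (MvPolynomial.X q) = g₁ q := by
        simp [Θ]
      rw [h1]
      exact C7b_R_mul hp (hgen q)
  have hcl : ∀ y ∈ Subring.closure ((algebraMap F Ω '' (K : Set F)) ∪ Set.range C ∪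
      gu C β '' {i | i ∈ s}), ∃ N, Θ N = y := by
    intro y hy
    have hle : Subring.closure ((algebraMap F Ω '' (K : Set F)) ∪ Set.range C ∪
        gu C β '' {i | i ∈ s}) ≤ Θ.range := by
      rw [Subring.closure_le]
      rintro z ((⟨a, ha, rfl⟩ | ⟨q, rfl⟩) | ⟨i, hi, rfl⟩)
      · exact ⟨MvPolynomial.C ⟨a, ha⟩, by simp [Θ]⟩
      · exact ⟨MvPolynomial.X (Sum.inr q), by simp [Θ, g₁]⟩
      · exact ⟨MvPolynomial.X (Sum.inl ⟨i, hi⟩), by simp [Θ, g₁]⟩
    exact hle hy
  obtain ⟨y, hy, z, hz, rfl⟩ := Subfield.mem_closure_iff.1 hx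
  obtain ⟨N, rfl⟩ := hcl y hy
  obtain ⟨M, rfl⟩ := hcl z hz
  by_cases hM : M = 0
  · rw [hM, map_zero, div_zero]
    exact zero_mem _
  have h1 : MvPolynomial.map κ M ≠ 0 := by
    intro h
    apply hM
    exact MvPolynomial.map_injective κ κ.injective (by rw [h, map_zero])
  have h2 : MvPolynomial.aeval g₂ (MvPolynomial.map κ M) ≠ 0 := by
    intro h
    exact h1 (hi (by rw [map_zero]; exact h))
  obtain ⟨P, Q, hQ, h3, h4⟩ := hΘ M
  have hP : C7b_rv (μ × Bool × ι) v P ≠ 0 := by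
    rw [← C7b_rG_ne, ← h4]
    exact mul_ne_zero h2 (C7b_rG_ne.2 hQ)
  obtain ⟨P', Q', hQ', h5, h6⟩ := hΘ N
  rw [div_eq_mul_inv]
  exact mul_mem ⟨P', Q', hQ', h5⟩ (C7b_unit hC v hP hQ h3).2

end Cut

variable {F ι Ω μ : Type} [Field F] [CharZero F] [Fintype ι] [Field Ω] [Algebra F Ω] [Finite μ]
  {K : Subfield F}

theorem exists_gauss {C : μ × Bool × ι → Ω} (hC : Gn F C) (β : μ → ι → F)
    (s : List μ) (hβ : ∀ i ∈ s, β i ≠ 0) (hs : s.Nodup) (v : ValuationSubring F) (hv : Dv K v)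
    (hx : 0 < XR K v (s.map β)) :
    ∃ V : ValuationSubring Ω, Dv (cb K C β {i | i ∈ s}) V ∧ V.comap (algebraMap F Ω) = v := by
  classical
  have hFF : FF (resS K v) s.length := by
    by_contra h
    have h1 : ¬ FF (resS K v) (s.map β).length := by
      rw [List.length_map]
      exact h
    rw [XR, if_neg h1] at hx
    exact lt_irrefl _ hx
  have hXX : 0 < XX (resS K v) ([] ++ s.map fun i => rd v (β i)) := by
    have h1 : FF (resS K v) (s.map β).length := by
      rw [List.length_map]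
      exact hFF
    rw [XR, if_pos h1, List.map_map] at hx
    exact hx
  have hg : Gn (ResidueField v) (gc (ResidueField v) (μ × Bool × ι)) := gn_gc _ _
  have hi := C7b_ind (K := resS K v) (gc (ResidueField v) (μ × Bool × ι))
    (fun i => rd v (β i)) s hg.1
    (ind_of_pos hFF hg (fun i => rd v (β i)) s hs [] (by simp) hXX)
  exact ⟨C7b_V hC v, ⟨C7b_isDvr hC v hv.1, C7b_sub hC β s hβ v hv hi⟩, C7b_comap hC v⟩

theorem gauss_unique {C : μ × Bool × ι → Ω} (hC : Gn F C) (β : μ → ι → F)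
    (s : List μ) (hβ : ∀ i ∈ s, β i ≠ 0) (hs : s.Nodup) (hF : FF K (s.length + 1)) (h1 : FF (cb K C β {i | i ∈ s}) 1)
    (V V' : ValuationSubring Ω) (hV : Dv (cb K C β {i | i ∈ s}) V)
    (hV' : Dv (cb K C β {i | i ∈ s}) V') (hn : V.comap (algebraMap F Ω) ≠ ⊤)
    (h : V.comap (algebraMap F Ω) = V'.comap (algebraMap F Ω)) : V = V' := by
  have hn' : V'.comap (algebraMap F Ω) ≠ ⊤ := by
    rw [← h]
    exact hn
  have key : ∀ P : MvPolynomial (μ × Bool × ι) F, P ≠ 0 →
      ord V (MvPolynomial.aeval C P) = ord V' (MvPolynomial.aeval C P) := by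
    intro P hP
    obtain ⟨a1, t, ht, a2⟩ := gauss_ord hC β s hβ hs hF h1 V hV hn P hP
    obtain ⟨b1, t', ht', b2⟩ := gauss_ord hC β s hβ hs hF h1 V' hV' hn' P hP
    rw [← h] at b1 b2
    refine le_antisymm ?_ ?_
    · rw [b2]
      exact a1 t' ht'
    · rw [a2]
      exact b1 t ht
  have hord : ∀ x : Ω, x ≠ 0 → ord V x = ord V' x := by
    intro x hx
    have hx1 : x ∈ IntermediateField.adjoin F (Set.range C) := by
      rw [hC.2]
      exact IntermediateField.mem_top
    obtain ⟨r, q, hrq⟩ := (IntermediateField.mem_adjoin_range_iff F C x).1 hx1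
    have hq : MvPolynomial.aeval C q ≠ 0 := by
      intro h
      rw [h, div_zero] at hrq
      exact hx hrq
    have hr : MvPolynomial.aeval C r ≠ 0 := by
      intro h
      rw [h, zero_div] at hrq
      exact hx hrq
    have hq0 : q ≠ 0 := by
      rintro rfl
      exact hq (map_zero _)
    have hr0 : r ≠ 0 := by
      rintro rfl
      exact hr (map_zero _)
    rw [hrq, ord_div hV.1 hr hq, ord_div hV'.1 hr hq, key r hr0, key q hq0]
  ext x
  by_cases hx : x = 0
  · rw [hx]
    exact ⟨fun _ => zero_mem _, fun _ => zero_mem _⟩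
  · rw [← ord_nonneg_iff hV.1 hx, ← ord_nonneg_iff hV'.1 hx, hord x hx]

end Pool.Agent.Lib.MP_1e3e9c_agU
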