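import Mathlib
import Pool.Agent.Lib.MP_1e3e9c_agU.C7b

/-!
# MP_1e3e9c_ag, project U, leaf C8: sums over the places of a generic curve

`V ↦ V ∩ F` is a bijection from the places `V` of `Ω/κ` which are not trivial on `F` onto the
`v` with `Dv K v`, `0 < XR K v (s.map β)`, and `deg κ V = XR K (V ∩ F) (s.map β)`
(`place_nontriv`, `deg_pos` of leaf B2, `exists_gauss`, `gauss_unique`). The terms with `XR = 0`
vanish. `finsum_mem_eq_of_bijOn` or similar.
`FF_of_XR`: `V ⊇ κ` and the residues of the `u_i` are algebraically independent over those of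
`K(C)` (proof of `exists_gauss`), so the `u_i` are algebraically independent over `K(C)`:
`FF_cb_of_ind`.
-/

set_option autoImplicit false

namespace Pool.Agent.Lib.MP_1e3e9c_agU

open IsLocalRing Pool.Agent.Lib.MP_b197b4_ntK

section C8

/-- A nonzero linear form in algebraically independent elements is not zero. -/
private theorem C8_lin {F Ω σ ι : Type} [Field F] [Field Ω] [Algebra F Ω] [Fintype ι] {C : σ → Ω}
    (hC : AlgebraicIndependent F C) (q : ι → σ) (hq : Function.Injective q) {z : ι → F} (hz : z ≠ 0) :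
    ∑ j, C (q j) * algebraMap F Ω (z j) ≠ 0 := by
  intro h
  have h1 := (hC.linearIndependent.comp q hq)
  rw [Fintype.linearIndependent_iff] at h1
  apply hz
  funext j
  refine h1 z ?_ j
  rw [← h]
  refine Finset.sum_congr rfl fun j _ => ?_
  rw [Algebra.smul_def, mul_comm]
  rfl

/-- From the ring generated by `C` to the field generated by `C`. -/
private theorem C8_ext {F Ω σ τ : Type} [Field F] [Field Ω] [Algebra F Ω] (K : Subfield F)
    (S : Subfield Ω) {C : σ → Ω} {u : τ → Ω}
    (hS : S = Subfield.closure ((algebraMap F Ω '' (K : Set F)) ∪ Set.range C))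
    (h : AlgebraicIndependent K (Sum.elim u C)) : AlgebraicIndependent S u := by
  have h1 : AlgebraicIndependent (Algebra.adjoin K (Set.range C)) u :=
    (AlgebraicIndependent.sumElim_iff.1 h).2
  set R := Algebra.adjoin K (Set.range C) with hR
  have hRS : ∀ x ∈ R, x ∈ S := by
    intro x hx
    induction hx using Algebra.adjoin_induction with
    | mem x hx =>
      rw [hS]
      exact Subfield.subset_closure (Or.inr hx)
    | algebraMap a =>
      rw [hS]
      exact Subfield.subset_closure (Or.inl ⟨a, a.2, rfl⟩)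
    | add x y _ _ hx hy => exact add_mem hx hy
    | mul x y _ _ hx hy => exact mul_mem hx hy
  have hcl : ∀ x ∈ Subring.closure ((algebraMap F Ω '' (K : Set F)) ∪ Set.range C), x ∈ R := by
    intro x hx
    induction hx using Subring.closure_induction with
    | mem x hx =>
      rcases hx with ⟨a, ha, rfl⟩ | hx
      · exact R.algebraMap_mem ⟨a, ha⟩
      · exact Algebra.subset_adjoin hx
    | zero => exact zero_mem R
    | one => exact one_mem R
    | add x y _ _ hx hy => exact add_mem hx hy
    | neg x _ hx => exact neg_mem hx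
    | mul x y _ _ hx hy => exact mul_mem hx hy
  let : Algebra R S := (RingHom.codRestrict (algebraMap R Ω) S.toSubring (fun x => hRS x x.2)).toAlgebra
  have : IsScalarTower R S Ω := IsScalarTower.of_algebraMap_eq (fun x => rfl)
  have : Algebra.IsAlgebraic R S := by
    refine ⟨fun x => ?_⟩
    have hx : (x : Ω) ∈ Subfield.closure ((algebraMap F Ω '' (K : Set F)) ∪ Set.range C) := by
      rw [← hS]
      exact x.2
    obtain ⟨y, hy, z, hz, hyz⟩ := Subfield.mem_closure_iff.1 hx
    by_cases hz0 : z = 0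
    · have : x = 0 := by
        apply Subtype.ext
        rw [← hyz, hz0, div_zero]
        rfl
      rw [this]
      exact isAlgebraic_zero
    · have h2 : algebraMap R S ⟨z, hcl z hz⟩ * x = algebraMap R S ⟨y, hcl y hy⟩ := by
        apply Subtype.ext
        show z * (x : Ω) = y
        rw [← hyz]
        field_simp
      refine ⟨Polynomial.C ⟨z, hcl z hz⟩ * Polynomial.X - Polynomial.C ⟨y, hcl y hy⟩, ?_, ?_⟩
      · intro h0
        have h3 := congrArg (fun p => Polynomial.coeff p 1) h0
        simp only [Polynomial.coeff_sub, Polynomial.coeff_C_mul, Polynomial.coeff_X_one, mul_one,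
          Polynomial.coeff_C_succ, sub_zero, Polynomial.coeff_zero] at h3
        exact hz0 (congrArg Subtype.val h3)
      · rw [map_sub, map_mul, Polynomial.aeval_C, Polynomial.aeval_X, Polynomial.aeval_C, h2, sub_self]
  exact h1.extendScalars S

/-- From the field generated by `C` to the union of the families. -/
private theorem C8_sum {F Ω σ τ : Type} [Field F] [Field Ω] [Algebra F Ω] (K : Subfield F)
    (S : Subfield Ω) {C : σ → Ω} {u : τ → Ω}
    (hS : S = Subfield.closure ((algebraMap F Ω '' (K : Set F)) ∪ Set.range C))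
    (hC : AlgebraicIndependent F C) (h : AlgebraicIndependent S u) :
    AlgebraicIndependent K (Sum.elim u C) := by
  have hKS : ∀ a : K, algebraMap K Ω a ∈ S := by
    intro a
    rw [hS]
    exact Subfield.subset_closure (Or.inl ⟨a, a.2, rfl⟩)
  let : Algebra K S := (RingHom.codRestrict (algebraMap K Ω) S.toSubring hKS).toAlgebra
  have : IsScalarTower K S Ω := IsScalarTower.of_algebraMap_eq (fun x => rfl)
  have h1 : AlgebraicIndependent K C := hC.restrictScalars (algebraMap K F).injective
  refine h1.sumElim_of_tower ?_ h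
  rintro _ ⟨q, rfl⟩
  refine ⟨⟨C q, ?_⟩, rfl⟩
  rw [hS]
  exact Subfield.subset_closure (Or.inr ⟨q, rfl⟩)

variable {F ι Ω μ : Type} [Field F] [Fintype ι] [Field Ω] [Algebra F Ω]
  {K : Subfield F}

/-- Specialisation, abstract form. -/
private theorem C8_abs {A0 M M' N N' σ τ : Type} [CommRing A0] [Field M] [Field M'] [Field N] [Field N']
    [Algebra M N] [Algebra M' N'] (ψ : A0 →+* N) (hψi : Function.Injective ψ) (π : A0 →+* N')
    (θ : M →+* A0) (f : M →+* M') (hψθ : ψ.comp θ = algebraMap M N)
    (hπθ : π.comp θ = (algebraMap M' N').comp f) (n d : τ → A0) (hd : ∀ i, π (d i) ≠ 0) (x : σ → A0)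
    (h : AlgebraicIndependent M' (Sum.elim (fun i => π (n i) / π (d i)) (fun q => π (x q)))) :
    AlgebraicIndependent M (Sum.elim (fun i => ψ (n i) / ψ (d i)) (fun q => ψ (x q))) := by
  classical
  have hP : (RingHom.ker π).IsPrime := RingHom.ker_isPrime π
  set P := RingHom.ker π with hPdef
  have hψu : ∀ y : P.primeCompl, IsUnit (ψ y) := by
    intro y
    rw [isUnit_iff_ne_zero]
    intro h0
    apply y.2
    have : (y : A0) = 0 := hψi (by rw [h0, map_zero])
    rw [this]
    exact zero_mem _
  have hπu : ∀ y : P.primeCompl, IsUnit (π y) := by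
    intro y
    rw [isUnit_iff_ne_zero]
    intro h0
    exact y.2 ((RingHom.mem_ker).2 h0)
  set ψ' : Localization.AtPrime P →+* N := IsLocalization.lift (M := P.primeCompl) (g := ψ) hψu with hψ'
  set π' : Localization.AtPrime P →+* N' := IsLocalization.lift (M := P.primeCompl) (g := π) hπu with hπ'
  have hψ'a : ∀ x, ψ' (algebraMap _ (Localization.AtPrime P) x) = ψ x := fun x => IsLocalization.lift_eq hψu x
  have hπ'a : ∀ x, π' (algebraMap _ (Localization.AtPrime P) x) = π x := fun x => IsLocalization.lift_eq hπu x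
  have hψ'i : ∀ x : Localization.AtPrime P, ψ' x = 0 → x = 0 := by
    intro x hx
    obtain ⟨⟨n, d⟩, hnd⟩ := IsLocalization.surj P.primeCompl x
    have h1 := congrArg ψ' hnd
    rw [map_mul, hx, zero_mul, hψ'a] at h1
    have h2 : n = 0 := hψi (by rw [← h1, map_zero])
    simp only [h2, map_zero] at hnd
    have h3 : IsUnit (algebraMap A0 (Localization.AtPrime P) (d : A0)) :=
      IsLocalization.map_units _ d
    exact (h3.mul_left_eq_zero).1 hnd
  have hmem : ∀ i, d i ∈ P.primeCompl := fun i hb => hd i (RingHom.mem_ker.1 hb)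
  set U : τ → Localization.AtPrime P := fun i => IsLocalization.mk' _ (n i) ⟨d i, hmem i⟩ with hU
  have hψU : ∀ i, ψ' (U i) = ψ (n i) / ψ (d i) := by
    intro i
    have h1 := congrArg ψ' (IsLocalization.mk'_spec (Localization.AtPrime P) (n i) ⟨d i, hmem i⟩)
    rw [map_mul, hψ'a, hψ'a] at h1
    have h2 : ψ (d i) ≠ 0 := isUnit_iff_ne_zero.1 (hψu ⟨d i, hmem i⟩)
    rw [eq_div_iff h2]
    exact h1
  have hπU : ∀ i, π' (U i) = π (n i) / π (d i) := by
    intro i
    have h1 := congrArg π' (IsLocalization.mk'_spec (Localization.AtPrime P) (n i) ⟨d i, hmem i⟩)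
    rw [map_mul, hπ'a, hπ'a] at h1
    rw [eq_div_iff (hd i)]
    exact h1
  set θ' : M →+* Localization.AtPrime P := (algebraMap A0 (Localization.AtPrime P)).comp θ with hθ
  have hψθ' : ψ'.comp θ' = algebraMap M N := by
    rw [← hψθ]
    ext x
    exact hψ'a (θ x)
  have hπθ' : π'.comp θ' = (algebraMap M' N').comp f := by
    rw [← hπθ]
    ext x
    exact hπ'a (θ x)
  rw [algebraicIndependent_iff] at h ⊢
  intro p hp
  set y : τ ⊕ σ → Localization.AtPrime P := Sum.elim U (fun q => algebraMap _ _ (x q)) with hy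
  have hψy : (fun i => ψ' (y i)) = Sum.elim (fun i => ψ (n i) / ψ (d i)) (fun q => ψ (x q)) := by
    funext i
    rcases i with i | q
    · exact hψU i
    · exact hψ'a (x q)
  have hπy : (fun i => π' (y i)) = Sum.elim (fun i => π (n i) / π (d i)) (fun q => π (x q)) := by
    funext i
    rcases i with i | q
    · exact hπU i
    · exact hπ'a (x q)
  have h1 : MvPolynomial.eval₂ θ' y p = 0 := by
    apply hψ'i
    rw [MvPolynomial.hom_eval₂, hψθ']
    rw [MvPolynomial.aeval_def, ← hψy] at hp
    exact hp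
  have h2 : MvPolynomial.aeval (Sum.elim (fun i => π (n i) / π (d i)) (fun q => π (x q)))
      (MvPolynomial.map f p) = 0 := by
    rw [MvPolynomial.aeval_def, MvPolynomial.eval₂_map, ← hπθ', ← hπy]
    have h3 := congrArg π' h1
    rw [MvPolynomial.hom_eval₂, map_zero] at h3
    exact h3
  have h3 := h _ h2
  exact MvPolynomial.map_injective f f.injective (by rw [h3, map_zero])

/-- Specialisation: independence of the residues implies independence. -/
private theorem C8_spec {τ : Type} {C : μ × Bool × ι → Ω} (hC : AlgebraicIndependent F C)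
    (v : ValuationSubring F) (hv : ∀ a ∈ K, a ∈ v) {Ω' : Type} [Field Ω'] [Algebra (ResidueField v) Ω']
    {C' : μ × Bool × ι → Ω'} (hC' : AlgebraicIndependent (ResidueField v) C')
    (t : τ → μ) (z : τ → ι → F) (z' : τ → ι → ResidueField v) (a : τ → F) (ha : ∀ i, a i ≠ 0)
    (hz : ∀ i j, a i * z i j ∈ v) (hz' : ∀ i j, z' i j = res v (a i * z i j)) (hz0 : ∀ i, z' i ≠ 0)
    (h : AlgebraicIndependent (resS K v) (Sum.elim (fun i : τ =>
      (∑ j, C' (t i, false, j) * algebraMap (ResidueField v) Ω' (z' i j)) /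
        (∑ j, C' (t i, true, j) * algebraMap (ResidueField v) Ω' (z' i j))) C')) :
    AlgebraicIndependent K (Sum.elim (fun i : τ =>
      (∑ j, C (t i, false, j) * algebraMap F Ω (z i j)) /
        (∑ j, C (t i, true, j) * algebraMap F Ω (z i j))) C) := by
  classical
  -- the two homomorphisms
  set ψ : MvPolynomial (μ × Bool × ι) v →+* Ω :=
    MvPolynomial.eval₂Hom ((algebraMap F Ω).comp v.subtype) C with hψ
  set π : MvPolynomial (μ × Bool × ι) v →+* Ω' :=
    MvPolynomial.eval₂Hom ((algebraMap (ResidueField v) Ω').comp (residue v)) C' with hπ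
  have hψX : ∀ q, ψ (MvPolynomial.X q) = C q := fun q => by
    rw [hψ, MvPolynomial.coe_eval₂Hom, MvPolynomial.eval₂_X]
  have hπX : ∀ q, π (MvPolynomial.X q) = C' q := fun q => by
    rw [hπ, MvPolynomial.coe_eval₂Hom, MvPolynomial.eval₂_X]
  have hψC : ∀ x : v, ψ (MvPolynomial.C x) = algebraMap F Ω x := fun q => by
    rw [hψ, MvPolynomial.coe_eval₂Hom, MvPolynomial.eval₂_C]
    rfl
  have hπC : ∀ x : v, π (MvPolynomial.C x) = algebraMap (ResidueField v) Ω' (residue v x) := fun q => by
    rw [hπ, MvPolynomial.coe_eval₂Hom, MvPolynomial.eval₂_C]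
    rfl
  have hψi : Function.Injective ψ := by
    have hC1 : Function.Injective (MvPolynomial.aeval (R := F) C) := hC
    have hi : Function.Injective (MvPolynomial.map (σ := μ × Bool × ι) v.subtype) :=
      MvPolynomial.map_injective _ Subtype.val_injective
    have h1 : ∀ x, ψ x = MvPolynomial.aeval (R := F) C (MvPolynomial.map v.subtype x) := by
      intro x
      rw [hψ, MvPolynomial.coe_eval₂Hom, MvPolynomial.aeval_def, MvPolynomial.eval₂_map]
    intro x y hxy
    rw [h1, h1] at hxy
    exact hi (hC1 hxy)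
  -- the forms
  set A : Bool → τ → MvPolynomial (μ × Bool × ι) v := fun b i =>
    ∑ j, MvPolynomial.X (t i, b, j) * MvPolynomial.C ⟨a i * z i j, hz i j⟩ with hA
  have hψA : ∀ b i, ψ (A b i) = algebraMap F Ω (a i) * ∑ j, C (t i, b, j) * algebraMap F Ω (z i j) := by
    intro b i
    rw [hA, map_sum, Finset.mul_sum]
    refine Finset.sum_congr rfl fun j _ => ?_
    rw [map_mul, hψX, hψC]
    show C (t i, b, j) * algebraMap F Ω (a i * z i j) = _
    rw [map_mul]
    ring
  have hπA : ∀ b i, π (A b i) = ∑ j, C' (t i, b, j) * algebraMap (ResidueField v) Ω' (z' i j) := by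
    intro b i
    rw [hA, map_sum]
    refine Finset.sum_congr rfl fun j _ => ?_
    rw [map_mul, hπX, hπC, hz' i j, res_of_mem (hz i j)]
  have hπA0 : ∀ b i, π (A b i) ≠ 0 := by
    intro b i
    rw [hπA]
    exact C8_lin hC' (fun j => (t i, b, j)) (fun j j' hj => by
      simpa using hj) (hz0 i)
  have hq : ∀ i, ψ (A false i) / ψ (A true i) = (∑ j, C (t i, false, j) * algebraMap F Ω (z i j)) /
      (∑ j, C (t i, true, j) * algebraMap F Ω (z i j)) := by
    intro i
    have h3 : algebraMap F Ω (a i) ≠ 0 := (map_ne_zero (algebraMap F Ω)).2 (ha i)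
    rw [hψA, hψA, mul_div_mul_left _ _ h3]
  -- the constants
  set θ₀ : K →+* v := RingHom.codRestrict K.subtype v.toSubring (fun a => hv a a.2) with hθ₀
  have hθ₀v : ∀ x : K, ((θ₀ x : v) : F) = x := fun x => rfl
  have hfm : ∀ x : K, (residue v).comp θ₀ x ∈ (resS K v).toSubring := by
    intro a
    apply Subfield.subset_closure
    refine ⟨a, a.2, ?_⟩
    rw [res_of_mem (hv a a.2)]
    rfl
  set f : K →+* resS K v := RingHom.codRestrict ((residue v).comp θ₀) (resS K v).toSubring hfm with hf
  have hfv : ∀ x : K, ((f x : resS K v) : ResidueField v) = residue v (θ₀ x) := fun x => rfl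
  have hψθ : ψ.comp ((MvPolynomial.C (σ := μ × Bool × ι)).comp θ₀) = algebraMap K Ω := by
    ext x
    rw [RingHom.comp_apply, RingHom.comp_apply, hψC, hθ₀v]
    rfl
  have hπθ : π.comp ((MvPolynomial.C (σ := μ × Bool × ι)).comp θ₀) = (algebraMap (resS K v) Ω').comp f := by
    ext x
    rw [RingHom.comp_apply, RingHom.comp_apply, hπC, RingHom.comp_apply, ← hfv]
    rfl
  have h1 := C8_abs ψ hψi π ((MvPolynomial.C (σ := μ × Bool × ι)).comp θ₀) f hψθ hπθ (A false) (A true)
    (hπA0 true) (fun q => MvPolynomial.X q) (by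
      simp only [hπA, hπX]
      exact h)
  simp only [hq, hψX] at h1
  exact h1

end C8

variable {F ι Ω μ : Type} [Field F] [CharZero F] [Fintype ι] [Field Ω] [Algebra F Ω] [Finite μ]
  {K : Subfield F}

theorem FF_of_XR {C : μ × Bool × ι → Ω} (hC : Gn F C) (β : μ → ι → F)
    (s : List μ) (hβ : ∀ i ∈ s, β i ≠ 0) (hs : s.Nodup) (hF : FF K (s.length + 1)) (v : ValuationSubring F) (hv : Dv K v)
    (hx : 0 < XR K v (s.map β)) : FF (cb K C β {i | i ∈ s}) 1 := by
  classical
  have h0 : FF (resS K v) (s.map β).length ∧ 0 < XX (resS K v) ((s.map β).map (rd v)) := by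
    unfold XR at hx
    by_cases h : FF (resS K v) (s.map β).length
    · rw [if_pos h] at hx
      exact ⟨h, hx⟩
    · rw [if_neg h] at hx
      exact absurd hx (lt_irrefl _)
  obtain ⟨h1, h2⟩ := h0
  rw [List.length_map] at h1
  rw [List.map_map] at h2
  have hC' := gn_gc (ResidueField v) (μ × Bool × ι)
  have h3 := ind_of_pos h1 hC' (fun i => rd v (β i)) s hs [] (by simp) h2
  have h4 := C8_sum (resS K v) _ (by simp [cb]) hC'.1 h3
  rw [add_comm] at hF
  refine FF_cb_of_ind hC β s hs hF ?_
  refine C8_ext (C := C) K _ (by simp [cb]) ?_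
  choose a ha1 ha2 ha3 ha4 using fun i : {i // i ∈ s} => (rd_spec hv.1 (hβ i.1 i.2)).2
  exact C8_spec hC.1 v hv.2 hC'.1 (fun i : {i // i ∈ s} => i.1) (fun i => β i.1) (fun i => rd v (β i.1)) a ha1 ha3
    ha4 (fun i => (rd_spec hv.1 (hβ i.1 i.2)).1) h4

open Classical in
theorem sum_places {C : μ × Bool × ι → Ω} (hC : Gn F C) (β : μ → ι → F)
    (s : List μ) (hβ : ∀ i ∈ s, β i ≠ 0) (hs : s.Nodup) (hF : FF K (s.length + 1)) (h1 : FF (cb K C β {i | i ∈ s}) 1)
    (f : ValuationSubring F → ℤ) :
    ∑ᶠ (V : ValuationSubring Ω) (_ : Dv (cb K C β {i | i ∈ s}) V),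
        (deg (cb K C β {i | i ∈ s}) V : ℤ) *
          (if V.comap (algebraMap F Ω) = ⊤ then 0 else f (V.comap (algebraMap F Ω))) =
      ∑ᶠ (v : ValuationSubring F) (_ : Dv K v), (XR K v (s.map β) : ℤ) * f v := by
  have : CharZero Ω := charZero_of_injective_algebraMap (algebraMap F Ω).injective
  set κ := cb K C β {i | i ∈ s} with hκ
  set A : Set (ValuationSubring Ω) := {V | Dv κ V ∧ V.comap (algebraMap F Ω) ≠ ⊤} with hA
  set B : Set (ValuationSubring F) := {v | Dv K v ∧ 0 < XR K v (s.map β)} with hB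
  have hl := finsum_mem_inter_support_eq' (fun V : ValuationSubring Ω => (deg κ V : ℤ) *
    (if V.comap (algebraMap F Ω) = ⊤ then 0 else f (V.comap (algebraMap F Ω)))) {V | Dv κ V} A (by
      intro V hV
      rw [Function.mem_support] at hV
      refine ⟨fun h => ⟨h, fun h0 => hV ?_⟩, fun h => h.1⟩
      rw [if_pos h0, mul_zero])
  have hr := finsum_mem_inter_support_eq' (fun v : ValuationSubring F => (XR K v (s.map β) : ℤ) * f v)
    {v | Dv K v} B (by
      intro v hv
      rw [Function.mem_support] at hv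
      refine ⟨fun h => ⟨h, Nat.pos_of_ne_zero fun h0 => hv ?_⟩, fun h => h.1⟩
      rw [h0, Nat.cast_zero, zero_mul])
  refine hl.trans (Eq.trans ?_ hr.symm)
  refine finsum_mem_eq_of_bijOn (fun V => V.comap (algebraMap F Ω)) ⟨?_, ?_, ?_⟩ ?_
  · intro V hV
    obtain ⟨hg, hd⟩ := place_nontriv hC β s hβ hs hF h1 V hV.1 hV.2
    refine ⟨hg.dv, ?_⟩
    rw [← hd]
    exact deg_pos h1 hV.1
  · intro V hV V' hV' h
    exact gauss_unique hC β s hβ hs hF h1 V V' hV.1 hV'.1 hV.2 h
  · intro v hv
    obtain ⟨V, hV, hVv⟩ := exists_gauss hC β s hβ hs v hv.1 hv.2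
    refine ⟨V, ⟨hV, ?_⟩, hVv⟩
    rw [hVv]
    intro h
    have h2 : IsDiscreteValuationRing v := hv.1.1
    apply h2.not_isField
    refine ⟨⟨0, 1, zero_ne_one⟩, mul_comm, ?_⟩
    intro x hx
    have hx0 : (x : F) ≠ 0 := fun h0 => hx (Subtype.ext h0)
    have hall : ∀ y : F, y ∈ v := by
      rw [h]
      exact fun y => ValuationSubring.mem_top y
    have hm : (x : F)⁻¹ ∈ v := hall _
    exact ⟨⟨(x : F)⁻¹, hm⟩, Subtype.ext (mul_inv_cancel₀ hx0)⟩
  · intro V hV
    obtain ⟨hg, hd⟩ := place_nontriv hC β s hβ hs hF h1 V hV.1 hV.2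
    rw [if_neg hV.2, ← hd]

end Pool.Agent.Lib.MP_1e3e9c_agU
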