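import Mathlib
import Pool.Agent.Lib.MP_1e3e9c_agU.C8
import Pool.Agent.Lib.MP_1e3e9c_agU.B3
import Pool.Agent.Lib.MP_1e3e9c_agU.C5d

/-!
# MP_1e3e9c_ag, project U, leaf C6: mixed degree of one point = height

`F/K` is a function field of one variable, `κ = K(C)`, `Ω = F(C)` (leaf C8 with `s = []`: the
places of `Ω/κ` not trivial on `F` are the Gauss extensions of the places of `F/K`, with the same
degree: `XR K v [] = deg K v` by `XX_nil`).
`ht_pure`: `al V (up z) = al (V ∩ F) z` for these, `0` for the places trivial on `F`; `sum_places`.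
`no_common`: `V` trivial on `F`, `Y = ∑ C_(p,j) z_j`, `Y' = ∑ C_(p',j) z_j` (`p ≠ p'`), both of
positive order. The residue field `R ⊇ F` of `V`; the residues `c̄` satisfy two independent linear
relations with coefficients in `F`, each in its own variables, so `trdeg_F F(c̄) ≤ |C| - 2` and
`trdeg_K F(c̄) ≤ |C| - 1`; but the `c̄` are algebraically independent over `K` (`κ ⊆ V`).
`XX_one`: `u = Y/Y'`. If `u` is algebraic over `κ` then `Con K z` (`cut_dich`) and both sides are `0`
(`XX_con`, `ht_eq_zero_iff`). Otherwise `[Ω : κ(u)] = [Ω : κ(u⁻¹)] = ∑_(ord V u < 0) deg V (-ord V u)`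
(`zeros_sum` for `u⁻¹`). At Gauss places `ord V Y = ord V Y' = al v z` (`Gau.lin`), `ord V u = 0`. At
places trivial on `F`: `ord V Y, ord V Y' ≥ 0`, not both positive: so `max(-ord V u, 0) = ord V Y'`.
Product formula for `Y'`: `0 = ∑_(trivial) deg V ord V Y' + ∑_v deg v al v z`; so the sum is
`ht K z`.
`gen_degree`: the same with `Y / y`, `y ∈ F`: at places trivial on `F` `ord V y = 0`: no pole; at
Gauss places `ord V (Y/y) = al v z - ord v y ≤ 0`: the degree of the poles is
`∑ deg v (ord v y - al v z) = ht K z` (`ht_eq_excess`).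
-/

set_option autoImplicit false

namespace Pool.Agent.Lib.MP_1e3e9c_agU

open IsLocalRing Pool.Agent.Lib.MP_b197b4_ntK

/-- Counting: `F` has transcendence degree one, two of the `c` are in the ring generated by `F` and
the others. -/
private theorem C6_count {K F R σ : Type} [Field K] [Field F] [Field R] [Algebra K F] [Algebra F R]
    [Algebra K R] [IsScalarTower K F R] [Finite σ] (htr : Algebra.trdeg K F = 1) (c : σ → R)
    (hc : AlgebraicIndependent K c) (q1 q2 : σ) (hq : q1 ≠ q2)
    (h1 : c q1 ∈ Algebra.adjoin K (Set.range (algebraMap F R) ∪ c '' {q1, q2}ᶜ))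
    (h2 : c q2 ∈ Algebra.adjoin K (Set.range (algebraMap F R) ∪ c '' {q1, q2}ᶜ)) : False := by
  classical
  let M := AlgebraicIndependent.matroid K R
  set X : Set R := Set.range (algebraMap F R) ∪ c '' {q1, q2}ᶜ with hX
  have hcl : ∀ x ∈ Algebra.adjoin K X, x ∈ M.closure X := by
    intro x hx
    rw [AlgebraicIndependent.matroid_closure_eq, SetLike.mem_coe,
      Subalgebra.mem_algebraicClosure]
    exact isAlgebraic_algebraMap (⟨x, hx⟩ : Algebra.adjoin K X)
  have hsub : Set.range c ⊆ M.closure X := by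
    rintro _ ⟨q, rfl⟩
    by_cases hq1 : q = q1
    · rw [hq1]; exact hcl _ h1
    by_cases hq2 : q = q2
    · rw [hq2]; exact hcl _ h2
    · refine hcl _ (Algebra.subset_adjoin (Or.inr ⟨q, ?_, rfl⟩))
      simp [hq1, hq2]
  have hF : M.eRk (Set.range (algebraMap F R)) ≤ 1 := by
    rw [Matroid.eRk_le_iff]
    intro I hI hind
    choose g hg using fun i : I => hI i.2
    have hind' : AlgebraicIndependent K (fun i : I => (i : R)) := hind
    have hg' : AlgebraicIndependent K g := by
      have e : (fun i : I => (i : R)) = (IsScalarTower.toAlgHom K F R) ∘ g := by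
        funext i
        exact (hg i).symm
      rw [e] at hind'
      exact hind'.of_comp _
    have h3 := hg'.cardinalMk_le_trdeg
    rw [htr] at h3
    have h4 : I.encard ≤ 1 := by
      rw [Set.encard_le_one_iff_subsingleton]
      intro a ha b hb
      have h5 := Cardinal.le_one_iff_subsingleton.1 h3
      exact congrArg Subtype.val (h5.elim (⟨a, ha⟩ : I) ⟨b, hb⟩)
    exact h4
  have hrk : M.eRk (Set.range c) ≤ 1 + (c '' {q1, q2}ᶜ).encard :=
    calc M.eRk (Set.range c) ≤ M.eRk (M.closure X) := M.eRk_mono hsub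
      _ = M.eRk X := M.eRk_closure_eq X
      _ ≤ M.eRk (Set.range (algebraMap F R)) + (c '' {q1, q2}ᶜ).encard :=
          M.eRk_union_le_eRk_add_encard _ _
      _ ≤ _ := by gcongr
  have hind : M.Indep (Set.range c) := hc.to_subtype_range
  rw [hind.eRk_eq_encard, ← Set.image_univ, hc.injective.encard_image, hc.injective.encard_image]
    at hrk
  have h6 : (({q1, q2} : Set σ)).encard + ({q1, q2}ᶜ : Set σ).encard = (Set.univ : Set σ).encard :=
    Set.encard_add_encard_compl _
  rw [Set.encard_pair hq] at h6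
  rw [← h6] at hrk
  have hfin : ({q1, q2}ᶜ : Set σ).encard ≠ ⊤ := by
    rw [Set.encard_ne_top_iff]
    exact Set.toFinite _
  have h7 : (2 : ℕ∞) ≤ 1 := (ENat.add_le_add_iff_right hfin).1 hrk
  exact absurd h7 (by norm_num)

variable {F ι Ω μ : Type} [Field F] [CharZero F] [Fintype ι] [Field Ω] [Algebra F Ω] [Finite μ]
  {K : Subfield F}


private theorem C6_nil (μ : Type) : {i : μ | i ∈ ([] : List μ)} = (∅ : Set μ) := by
  ext i
  simp

/-- The linear form `∑ C_(q,j) z_j`. -/
private noncomputable def Yl (C : μ × Bool × ι → Ω) (q : μ × Bool) (z : ι → F) : Ω :=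
  ∑ j, C (q.1, q.2, j) * algebraMap F Ω (z j)

private theorem Yl_ne {C : μ × Bool × ι → Ω} (hC : Gn F C) (q : μ × Bool) {z : ι → F}
    (hz : z ≠ 0) : Yl C q z ≠ 0 := by
  intro h
  have h1 := (hC.1.linearIndependent).comp (fun j : ι => (q.1, q.2, j))
    (fun i j hij => (Prod.ext_iff.1 (Prod.ext_iff.1 hij).2).2)
  rw [Fintype.linearIndependent_iff] at h1
  apply hz
  funext j
  refine h1 z ?_ j
  rw [← h]
  refine Finset.sum_congr rfl fun j _ => ?_
  rw [Algebra.smul_def, mul_comm]
  rfl

private theorem C6_mem {C : μ × Bool × ι → Ω} (β : μ → ι → F) (q : μ × Bool × ι) :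
    C q ∈ cb K C β ∅ := Subfield.subset_closure (Or.inl (Or.inr ⟨q, rfl⟩))

private theorem C6_memK {C : μ × Bool × ι → Ω} (β : μ → ι → F) (a : K) :
    algebraMap F Ω (a : F) ∈ cb K C β ∅ :=
  Subfield.subset_closure (Or.inl (Or.inl ⟨a, a.2, rfl⟩))

private theorem C6_nontriv (hF : FF K 1) {C : μ × Bool × ι → Ω} (hC : Gn F C) (β : μ → ι → F)
    {V : ValuationSubring Ω} (hV : Dv (cb K C β ∅) V) (hn : V.comap (algebraMap F Ω) ≠ ⊤) :
    Gau K C (V.comap (algebraMap F Ω)) V := by
  have key : ∀ S : Set μ, {i : μ | i ∈ ([] : List μ)} = S → FF (cb K C β S) 1 →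
      Dv (cb K C β S) V → Gau K C (V.comap (algebraMap F Ω)) V := by
    intro S hS h1 hV'
    subst hS
    exact (place_nontriv hC β [] (by simp) List.nodup_nil hF h1 V hV' hn).1
  exact key ∅ (C6_nil μ) (FF_base hF hC β) hV

private theorem C6_XR (hF : FF K 1) {v : ValuationSubring F} (hv : Dv K v) :
    XR K v ([] : List (ι → F)) = deg K v := by
  have hd := deg_pos hF hv
  have hfd : FiniteDimensional (resS K v) (ResidueField v) :=
    FiniteDimensional.of_finrank_pos hd
  have hFF : FF (resS K v) ([] : List (ι → F)).length := by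
    refine ⟨?_, ?_⟩
    · exact IntermediateField.fg_of_noetherian _
    · rw [trdeg_eq_zero]
      simp
  unfold XR
  rw [if_pos hFF]
  exact XX_nil _

private theorem C6_sum (hF : FF K 1) {C : μ × Bool × ι → Ω} (hC : Gn F C) (β : μ → ι → F)
    (f : ValuationSubring F → ℤ) :
    ∑ᶠ (V : ValuationSubring Ω) (_ : Dv (cb K C β ∅) V), (deg (cb K C β ∅) V : ℤ) *
        (open Classical in if V.comap (algebraMap F Ω) = ⊤ then 0 else f (V.comap (algebraMap F Ω))) =
      ∑ᶠ (v : ValuationSubring F) (_ : Dv K v), (deg K v : ℤ) * f v := by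
  classical
  have key : ∀ S : Set μ, {i : μ | i ∈ ([] : List μ)} = S → FF (cb K C β S) 1 →
      ∑ᶠ (V : ValuationSubring Ω) (_ : Dv (cb K C β S) V), (deg (cb K C β S) V : ℤ) *
        (if V.comap (algebraMap F Ω) = ⊤ then 0 else f (V.comap (algebraMap F Ω))) =
      ∑ᶠ (v : ValuationSubring F) (_ : Dv K v), (deg K v : ℤ) * f v := by
    intro S hS h1
    subst hS
    refine (sum_places hC β [] (by simp) List.nodup_nil hF h1 f).trans ?_
    refine finsum_congr fun v => finsum_congr fun hv => ?_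
    rw [List.map_nil, C6_XR hF hv]
  exact key ∅ (C6_nil μ) (FF_base hF hC β)

private theorem C6_al_triv {V : ValuationSubring Ω} (h : V.comap (algebraMap F Ω) = ⊤)
    {κ : Type} [Fintype κ] {z : κ → F} (hz : z ≠ 0) : al V (up Ω z) = 0 := by
  have hz' : up Ω z ≠ 0 := by
    intro h0
    apply hz
    funext j
    exact (map_eq_zero (algebraMap F Ω)).1 (congrFun h0 j)
  obtain ⟨j, hj, hal⟩ := exists_al (V := V) hz'
  rw [← hal]
  exact ord_of_triv h (z j)

private theorem C6_al_gau {C : μ × Bool × ι → Ω} {v : ValuationSubring F}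
    {V : ValuationSubring Ω} (hg : Gau K C v V)
    {κ : Type} [Fintype κ] {z : κ → F} (hz : z ≠ 0) : al V (up Ω z) = al v z := by
  have hne : ∀ j, up Ω z j ≠ 0 ↔ z j ≠ 0 := fun j => by
    change algebraMap F Ω (z j) ≠ 0 ↔ z j ≠ 0
    rw [Ne, map_eq_zero]
  have hz' : up Ω z ≠ 0 := by
    intro h0
    apply hz
    funext j
    exact (map_eq_zero (algebraMap F Ω)).1 (congrFun h0 j)
  refine le_antisymm ?_ ?_
  · obtain ⟨j, hj, hal⟩ := exists_al (V := v) hz
    rw [← hal, ← hg.ram (z j) hj]
    exact al_le ((hne j).2 hj)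
  · obtain ⟨j, hj, hal⟩ := exists_al (V := V) hz'
    rw [← hal]
    have h1 : ord V (up Ω z j) = ord v (z j) := hg.ram (z j) ((hne j).1 hj)
    rw [h1]
    exact al_le ((hne j).1 hj)

theorem ht_pure (hF : FF K 1) {C : μ × Bool × ι → Ω} (hC : Gn F C) (β : μ → ι → F) {κ : Type}
    [Fintype κ] {z : κ → F} (hz : z ≠ 0) : ht (cb K C β ∅) (up Ω z) = ht K z := by
  classical
  unfold ht
  congr 1
  refine Eq.trans ?_ (C6_sum hF hC β (fun v => al v z))
  refine finsum_congr fun V => finsum_congr fun hV => ?_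
  by_cases hn : V.comap (algebraMap F Ω) = ⊤
  · rw [if_pos hn, C6_al_triv hn hz]
  · rw [if_neg hn, C6_al_gau (C6_nontriv hF hC β hV hn) hz]

/-- The linear form is in `V` if `V` is trivial on `F`. -/
private theorem Yl_mem {C : μ × Bool × ι → Ω} (β : μ → ι → F) {V : ValuationSubring Ω}
    (hV : Dv (cb K C β ∅) V) (ht : V.comap (algebraMap F Ω) = ⊤) (q : μ × Bool) (z : ι → F) :
    Yl C q z ∈ V := by
  refine sum_mem fun j _ => V.mul_mem _ _ (hV.2 _ (C6_mem β _)) ?_
  have h1 : z j ∈ V.comap (algebraMap F Ω) := by rw [ht]; exact trivial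
  exact h1

theorem no_common (hF : FF K 1) {C : μ × Bool × ι → Ω} (hC : Gn F C) (β : μ → ι → F)
    {V : ValuationSubring Ω} (hV : Dv (cb K C β ∅) V) (ht : V.comap (algebraMap F Ω) = ⊤)
    (p p' : μ × Bool) (hp : p ≠ p') {z : ι → F} (hz : z ≠ 0) :
    ¬ (0 < ord V (∑ j, C (p.1, p.2, j) * algebraMap F Ω (z j)) ∧
      0 < ord V (∑ j, C (p'.1, p'.2, j) * algebraMap F Ω (z j))) := by
  classical
  rintro ⟨hY, hY'⟩
  have hmem : ∀ x : F, algebraMap F Ω x ∈ V := fun x => by
    have h1 : x ∈ V.comap (algebraMap F Ω) := by rw [ht]; exact trivial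
    exact h1
  have hdv := hV.1
  set φ : F →+* ResidueField V := resk (algebraMap F Ω) V hmem with hφ
  have hφr : ∀ x : F, φ x = res V (algebraMap F Ω x) := fun x => by
    rw [res_of_mem (hmem x)]
    rfl
  letI : Algebra F (ResidueField V) := φ.toAlgebra
  letI : Algebra K (ResidueField V) := (φ.comp K.subtype).toAlgebra
  haveI : @IsScalarTower K F (ResidueField V) Algebra.toSMul Algebra.toSMul Algebra.toSMul :=
    IsScalarTower.of_algebraMap_eq fun _ => rfl
  have hCV : ∀ q, C q ∈ V := fun q => hV.2 _ (C6_mem β q)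
  set c : μ × Bool × ι → ResidueField V := fun q => res V (C q) with hc
  -- the residues are algebraically independent over `K`
  have hind : AlgebraicIndependent K c := by
    rw [algebraicIndependent_iff]
    intro P hP
    by_contra hP0
    -- the value in `Ω`
    set ψ : K →+* V := ((algebraMap F Ω).codRestrict V.toSubring hmem).comp K.subtype with hψ
    set y : V := MvPolynomial.eval₂ ψ (fun q => (⟨C q, hCV q⟩ : V)) P with hy
    have hyr : residue V y = MvPolynomial.aeval c P := by
      rw [hy, MvPolynomial.hom_eval₂, MvPolynomial.aeval_def]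
      congr 1
      funext q
      rw [hc]
      change residue V ⟨C q, hCV q⟩ = res V (C q)
      rw [res_of_mem (hCV q)]
    have hyΩ : (y : Ω) = MvPolynomial.eval₂ ((algebraMap F Ω).comp K.subtype) C P := by
      have h1 := MvPolynomial.hom_eval₂ P ψ V.subtype (fun q => (⟨C q, hCV q⟩ : V))
      exact h1
    have hne : (y : Ω) ≠ 0 := by
      rw [hyΩ, ← MvPolynomial.eval₂_map]
      intro h0
      have h1 := (algebraicIndependent_iff.1 hC.1) (MvPolynomial.map K.subtype P) h0
      rw [← map_zero (MvPolynomial.map K.subtype)] at h1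
      exact hP0 (MvPolynomial.map_injective _ Subtype.val_injective h1)
    have hcb : (y : Ω) ∈ cb K C β ∅ := by
      rw [hyΩ]
      refine MvPolynomial.eval₂_mem (fun m _ => ?_) (fun q => C6_mem β q)
      exact C6_memK β _
    have hinv : ((y : Ω)⁻¹) ∈ V := hV.2 _ (inv_mem hcb)
    have hunit : IsUnit y := IsUnit.of_mul_eq_one ⟨(y : Ω)⁻¹, hinv⟩
      (Subtype.ext (mul_inv_cancel₀ hne))
    have h0 : residue V y = 0 := hyr.trans hP
    rw [residue_eq_zero_iff] at h0
    exact (mem_maximalIdeal _).1 h0 hunit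
  -- the relations
  obtain ⟨i0, hi0⟩ : ∃ i, z i ≠ 0 := by
    by_contra h
    push Not at h
    exact hz (funext h)
  have hrel : ∀ q : μ × Bool, 0 < ord V (Yl C q z) → ∑ j, c (q.1, q.2, j) * φ (z j) = 0 := by
    intro q hq
    have hm := Yl_mem β hV ht q z
    have h1 : res V (Yl C q z) = 0 := by
      rw [res_eq_zero_iff hm]
      exact (ord_pos_iff hdv (Yl_ne hC q hz)).1 hq
    have h2 : ∑ j, c (q.1, q.2, j) * φ (z j) = res V (Yl C q z) := by
      rw [res_of_mem hm]
      have h3 : (⟨Yl C q z, hm⟩ : V) = ∑ j, (⟨C (q.1, q.2, j), hCV _⟩ : V) *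
          ⟨algebraMap F Ω (z j), hmem _⟩ := by
        apply Subtype.ext
        push_cast
        rfl
      rw [h3, map_sum]
      refine Finset.sum_congr rfl fun j _ => ?_
      rw [map_mul, hφr, res_of_mem (hmem _)]
      change res V (C _) * _ = _
      rw [res_of_mem (hCV _)]
    rw [h2, h1]
  have hin : ∀ q q' : μ × Bool, q ≠ q' → 0 < ord V (Yl C q z) →
      c (q.1, q.2, i0) ∈ Algebra.adjoin K (Set.range (algebraMap F (ResidueField V)) ∪
        c '' {(q.1, q.2, i0), (q'.1, q'.2, i0)}ᶜ) := by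
    intro q q' hqq hq
    have h1 := hrel q hq
    rw [← Finset.add_sum_erase _ _ (Finset.mem_univ i0)] at h1
    have hφ0 : φ (z i0) ≠ 0 := fun h => hi0 ((map_eq_zero φ).1 h)
    have h2 : c (q.1, q.2, i0) = ∑ j ∈ Finset.univ.erase i0,
        φ (-(z j / z i0)) * c (q.1, q.2, j) := by
      have h3 : c (q.1, q.2, i0) * φ (z i0) = (∑ j ∈ Finset.univ.erase i0,
        φ (-(z j / z i0)) * c (q.1, q.2, j)) * φ (z i0) := by
        rw [Finset.sum_mul, eq_neg_of_add_eq_zero_left h1, ← Finset.sum_neg_distrib]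
        refine Finset.sum_congr rfl fun j _ => ?_
        have h4 : φ (-(z j / z i0)) * φ (z i0) = - φ (z j) := by
          rw [← map_mul, ← map_neg]
          congr 1
          field_simp
        linear_combination (-c (q.1, q.2, j)) * h4
      exact mul_right_cancel₀ hφ0 h3
    rw [h2]
    refine sum_mem fun j hj => mul_mem ?_ ?_
    · exact Algebra.subset_adjoin (Or.inl ⟨_, rfl⟩)
    · refine Algebra.subset_adjoin (Or.inr ⟨_, ?_, rfl⟩)
      have hj' : j ≠ i0 := Finset.ne_of_mem_erase hj
      rw [Set.mem_compl_iff, Set.mem_insert_iff, Set.mem_singleton_iff]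
      rintro (h | h)
      · exact hj' (Prod.ext_iff.1 (Prod.ext_iff.1 h).2).2
      · exact hj' (Prod.ext_iff.1 (Prod.ext_iff.1 h).2).2
  have hq12 : ((p.1, p.2, i0) : μ × Bool × ι) ≠ (p'.1, p'.2, i0) := by
    intro h
    apply hp
    exact Prod.ext (Prod.ext_iff.1 h).1 (Prod.ext_iff.1 (Prod.ext_iff.1 h).2).1
  have hin' := hin p' p hp.symm hY'
  rw [Set.pair_comm] at hin'
  refine C6_count (K := K) (F := F) (R := ResidueField V) ?_ c hind _ _ hq12 (hin p p' hp hY) hin'
  rw [hF.2]
  norm_num

/-- The degree of the divisor of the linear form at the places which are trivial on `F`. -/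
private theorem C6_triv (hF : FF K 1) {C : μ × Bool × ι → Ω} (hC : Gn F C) (β : μ → ι → F)
    (q : μ × Bool) {z : ι → F} (hz : z ≠ 0) :
    ∑ᶠ (V : ValuationSubring Ω) (_ : Dv (cb K C β ∅) V), (deg (cb K C β ∅) V : ℤ) *
        (open Classical in if V.comap (algebraMap F Ω) = ⊤ then ord V (Yl C q z) else 0) = ht K z := by
  classical
  have hκ : FF (cb K C β ∅) 1 := FF_base hF hC β
  have hchar : CharZero Ω := charZero_of_injective_algebraMap (algebraMap F Ω).injective
  have hY := Yl_ne hC q hz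
  set S : Set (ValuationSubring Ω) := {V | Dv (cb K C β ∅) V} with hS
  set f : ValuationSubring Ω → ℤ := fun V => (deg (cb K C β ∅) V : ℤ) *
    (if V.comap (algebraMap F Ω) = ⊤ then ord V (Yl C q z) else 0) with hf
  set g : ValuationSubring Ω → ℤ := fun V => (deg (cb K C β ∅) V : ℤ) *
    (if V.comap (algebraMap F Ω) = ⊤ then 0 else al (V.comap (algebraMap F Ω)) z) with hg
  have hord : ∀ V ∈ S, V.comap (algebraMap F Ω) ≠ ⊤ →
      ord V (Yl C q z) = al (V.comap (algebraMap F Ω)) z := fun V hV hn =>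
    (C6_nontriv hF hC β hV hn).lin q z hz
  have hfin := ord_fin hκ hY
  have hf1 : (S ∩ Function.support f).Finite := by
    refine hfin.subset ?_
    rintro V ⟨hV, hV2⟩
    refine ⟨hV, fun h0 => hV2 ?_⟩
    simp only [hf]
    rw [h0]
    simp
  have hg1 : (S ∩ Function.support g).Finite := by
    refine hfin.subset ?_
    rintro V ⟨hV, hV2⟩
    refine ⟨hV, fun h0 => hV2 ?_⟩
    simp only [hg]
    by_cases hn : V.comap (algebraMap F Ω) = ⊤
    · rw [if_pos hn, mul_zero]
    · rw [if_neg hn, ← hord V hV hn, h0, mul_zero]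
  have h1 := finsum_mem_add_distrib' hf1 hg1
  have h2 : ∑ᶠ V ∈ S, (f V + g V) = 0 := by
    refine Eq.trans ?_ (prod_formula hκ hY)
    refine finsum_congr fun V => finsum_congr fun hV => ?_
    simp only [hf, hg]
    by_cases hn : V.comap (algebraMap F Ω) = ⊤
    · rw [if_pos hn, if_pos hn, mul_zero, add_zero]
    · rw [if_neg hn, if_neg hn, mul_zero, zero_add, hord V hV hn]
  have h3 : ∑ᶠ V ∈ S, g V = - ht K z := by
    unfold ht
    rw [neg_neg]
    exact C6_sum hF hC β (fun v => al v z)
  rw [h2, h3] at h1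
  have h4 : ∑ᶠ V ∈ S, f V = ht K z := by linarith
  exact h4

/-- The degree of a function whose divisor of zeros is the trivial part of a linear form. -/
private theorem C6_deg (hF : FF K 1) {C : μ × Bool × ι → Ω} (hC : Gn F C) (β : μ → ι → F)
    (q : μ × Bool) {z : ι → F} (hz : z ≠ 0) (x : Ω)
    (hx : ∀ V, Dv (cb K C β ∅) V → max (ord V x) 0 =
      (open Classical in if V.comap (algebraMap F Ω) = ⊤ then ord V (Yl C q z) else 0)) :
    (Module.finrank (IntermediateField.adjoin (cb K C β ∅) {x}) Ω : ℤ) = ht K z := by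
  classical
  have hκ : FF (cb K C β ∅) 1 := FF_base hF hC β
  have hchar : CharZero Ω := charZero_of_injective_algebraMap (algebraMap F Ω).injective
  rw [← C6_triv hF hC β q hz]
  by_cases halg : IsAlgebraic (cb K C β ∅) x
  · -- both sides are zero
    have h0 : ∀ V, Dv (cb K C β ∅) V → ord V x = 0 := fun V hV => ord_alg hV halg
    have h1 : ∑ᶠ (V : ValuationSubring Ω) (_ : Dv (cb K C β ∅) V), (deg (cb K C β ∅) V : ℤ) *
        (if V.comap (algebraMap F Ω) = ⊤ then ord V (Yl C q z) else 0) = 0 := by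
      rw [finsum_congr fun V => finsum_congr fun hV => ?_, finsum_congr fun V => finsum_zero,
        finsum_zero]
      rw [← hx V hV, h0 V hV, max_self, mul_zero]
    rw [h1]
    by_contra hne
    have hpos : 0 < Module.finrank (IntermediateField.adjoin (cb K C β ∅) {x}) Ω :=
      Nat.pos_of_ne_zero fun h => hne (by rw [h]; rfl)
    haveI : FiniteDimensional (IntermediateField.adjoin (cb K C β ∅) {x}) Ω :=
      FiniteDimensional.of_finrank_pos hpos
    haveI : Algebra.IsAlgebraic (cb K C β ∅) (IntermediateField.adjoin (cb K C β ∅) {x}) :=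
      IntermediateField.isAlgebraic_adjoin (by
        intro y hy
        rw [Set.mem_singleton_iff.1 hy]
        exact halg.isIntegral)
    haveI : Algebra.IsAlgebraic (cb K C β ∅) Ω :=
      Algebra.IsAlgebraic.trans _ (IntermediateField.adjoin (cb K C β ∅) {x}) _
    have h2 := hκ.2
    rw [trdeg_eq_zero] at h2
    simp at h2
  · rw [← (zeros_sum hκ halg).2]
    refine finsum_congr fun V => ?_
    by_cases hV : Dv (cb K C β ∅) V
    · by_cases hp : 0 < ord V x
      · have e1 : ∑ᶠ (_ : Dv (cb K C β ∅) V ∧ 0 < ord V x), (deg (cb K C β ∅) V : ℤ) * ord V x =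
            (deg (cb K C β ∅) V : ℤ) * ord V x := finsum_eq_if.trans (if_pos ⟨hV, hp⟩)
        have e2 : ∑ᶠ (_ : Dv (cb K C β ∅) V), (deg (cb K C β ∅) V : ℤ) *
            (if V.comap (algebraMap F Ω) = ⊤ then ord V (Yl C q z) else 0) = _ :=
          finsum_eq_if.trans (if_pos hV)
        rw [e1, e2, ← hx V hV, max_eq_left hp.le]
      · have e1 : ∑ᶠ (_ : Dv (cb K C β ∅) V ∧ 0 < ord V x), (deg (cb K C β ∅) V : ℤ) * ord V x =
            0 := finsum_eq_if.trans (if_neg fun h => hp h.2)
        have e2 : ∑ᶠ (_ : Dv (cb K C β ∅) V), (deg (cb K C β ∅) V : ℤ) *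
            (if V.comap (algebraMap F Ω) = ⊤ then ord V (Yl C q z) else 0) = _ :=
          finsum_eq_if.trans (if_pos hV)
        rw [e1, e2, ← hx V hV, max_eq_right (not_lt.1 hp), mul_zero]
    · have e1 : ∑ᶠ (_ : Dv (cb K C β ∅) V ∧ 0 < ord V x), (deg (cb K C β ∅) V : ℤ) * ord V x =
          0 := finsum_eq_if.trans (if_neg fun h => hV h.1)
      have e2 : ∑ᶠ (_ : Dv (cb K C β ∅) V), (deg (cb K C β ∅) V : ℤ) *
          (if V.comap (algebraMap F Ω) = ⊤ then ord V (Yl C q z) else 0) = 0 :=
        finsum_eq_if.trans (if_neg hV)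
      rw [e1, e2]

theorem gen_degree (hF : FF K 1) {C : μ × Bool × ι → Ω} (hC : Gn F C) (β : μ → ι → F)
    {z : ι → F} (hz : z ≠ 0) {y : F} (hy : y ≠ 0) (hal : ∀ V, Dv K V → al V z ≤ ord V y)
    (p : μ × Bool) :
    (Module.finrank (IntermediateField.adjoin (cb K C β ∅)
      {(∑ j, C (p.1, p.2, j) * algebraMap F Ω (z j)) / algebraMap F Ω y}) Ω : ℤ) = ht K z := by
  refine C6_deg hF hC β p hz _ fun V hV => ?_
  have hY := Yl_ne hC p hz
  have hy' : algebraMap F Ω y ≠ 0 := (map_ne_zero _).2 hy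
  have e : ord V ((∑ j, C (p.1, p.2, j) * algebraMap F Ω (z j)) / algebraMap F Ω y) =
      ord V (Yl C p z) - ord V (algebraMap F Ω y) := ord_div hV.1 hY hy'
  rw [e]
  by_cases hn : V.comap (algebraMap F Ω) = ⊤
  · rw [if_pos hn, ord_of_triv hn y, sub_zero]
    exact max_eq_left ((ord_nonneg_iff hV.1 hY).2 (Yl_mem β hV hn p z))
  · rw [if_neg hn]
    have hg := C6_nontriv hF hC β hV hn
    have h1 : ord V (Yl C p z) = al (V.comap (algebraMap F Ω)) z := hg.lin p z hz
    rw [h1, hg.ram y hy]
    exact max_eq_right (by have := hal _ hg.dv; linarith)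

theorem XX_one (hF : FF K 1) {z : ι → F} (hz : z ≠ 0) : (XX K [z] : ℤ) = ht K z := by
  classical
  set C := gc F (Fin [z].length × Bool × ι) with hCdef
  have hC : Gn F C := gn_gc F _
  set β : Fin [z].length → ι → F := [z].get with hβ
  have hβz : ∀ i, β i = z := fun i => by
    have : i = ⟨0, by simp⟩ := Fin.ext (by have := i.2; simp at this; simpa using this)
    rw [this]
    rfl
  set i0 : Fin [z].length := ⟨0, by simp⟩ with hi0
  set x : GF F (Fin [z].length × Bool × ι) := gu C β i0 with hxdef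
  have hfr : XX K [z] = Module.finrank (IntermediateField.adjoin (cb K C β ∅) {x})
      (GF F (Fin [z].length × Bool × ι)) := by
    have h1 : cb K C β Set.univ = (IntermediateField.adjoin (cb K C β ∅) {x}).toSubfield := by
      rw [IntermediateField.adjoin_toSubfield]
      unfold cb
      apply le_antisymm
      · rw [Subfield.closure_le]
        rintro w ((hw | hw) | ⟨i, _, rfl⟩)
        · exact Subfield.subset_closure (Or.inl ⟨⟨w, Subfield.subset_closure (Or.inl (Or.inl hw))⟩, rfl⟩)
        · exact Subfield.subset_closure (Or.inl ⟨⟨w, Subfield.subset_closure (Or.inl (Or.inr hw))⟩, rfl⟩)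
        · refine Subfield.subset_closure (Or.inr ?_)
          rw [Set.mem_singleton_iff, hxdef]
          have : i = i0 := Fin.ext (by have := i.2; simp at this; simp [hi0, this])
          rw [this]
      · rw [Subfield.closure_le]
        rintro w (⟨w', rfl⟩ | hw)
        · refine Subfield.closure_mono ?_ w'.2
          rintro v (hv | ⟨i, hi, _⟩)
          · exact Or.inl hv
          · exact absurd hi (by simp)
        · rw [Set.mem_singleton_iff.1 hw]
          exact Subfield.subset_closure (Or.inr ⟨i0, Set.mem_univ _, rfl⟩)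
    have h2 : XX K [z] = Module.finrank (cb K C β Set.univ) (GF F (Fin [z].length × Bool × ι)) := rfl
    rw [h2, h1]
    rfl
  rw [hfr]
  refine C6_deg hF hC β (i0, false) hz x fun V hV => ?_
  have hY := Yl_ne hC (i0, false) hz
  have hY' := Yl_ne hC (i0, true) hz
  have hx0 : x = Yl C (i0, false) z / Yl C (i0, true) z := by
    rw [hxdef]
    unfold gu Yl
    simp only [hβz]
  rw [hx0, ord_div hV.1 hY hY']
  by_cases hn : V.comap (algebraMap F (GF F (Fin [z].length × Bool × ι))) = ⊤
  · rw [if_pos hn]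
    have h1 := (ord_nonneg_iff hV.1 hY).2 (Yl_mem β hV hn (i0, false) z)
    have h2 := (ord_nonneg_iff hV.1 hY').2 (Yl_mem β hV hn (i0, true) z)
    have h3 := no_common hF hC β hV hn (i0, false) (i0, true) (by simp) hz
    by_cases h4 : 0 < ord V (Yl C (i0, false) z)
    · have h5 : ord V (Yl C (i0, true) z) = 0 := by
        by_contra h6
        exact h3 ⟨h4, lt_of_le_of_ne h2 (Ne.symm h6)⟩
      rw [h5, sub_zero]
      exact max_eq_left h1
    · have h5 : ord V (Yl C (i0, false) z) = 0 := le_antisymm (not_lt.1 h4) h1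
      rw [h5, zero_sub]
      exact max_eq_right (by linarith)
  · rw [if_neg hn]
    have hg := C6_nontriv hF hC β hV hn
    have h1 : ord V (Yl C (i0, false) z) = al (V.comap (algebraMap F _)) z := hg.lin (i0, false) z hz
    have h2 : ord V (Yl C (i0, true) z) = al (V.comap (algebraMap F _)) z := hg.lin (i0, true) z hz
    rw [h1, h2, sub_self, max_self]

end Pool.Agent.Lib.MP_1e3e9c_agU
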