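import Mathlib
import Pool.Agent.Lib.MP_1e3e9c_agU.C6

/-!
# MP_1e3e9c_ag, project U, leaf C10: mixed degrees as heights

`XX_ht`: `XX_tower` with `l = [z]` and `XX_one` over `Ω/κ`.
`XX_ht_sum`: `sum_places`: `al V (up z) = al (V ∩ F) z` if `V` is not trivial on `F`, `0` otherwise.
`XX_segre`: if all the `XX K (z m :: l)` and `XX K (segre :: l)` vanish there is nothing to prove;
otherwise the points of `l` are cut down to a curve (`FF_cb`): `Ω/κ` with `FF κ 1`, `XX = ht κ`
(`XX_ht`, `XX_perm`), and `ht_segre`.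
`zero_of_not`: if `¬ FF κ 1` then `XX K (z :: l) = 0` for all `z` (`FF_cb`) and `XR K v l = 0` for all
`v` (`FF_of_XR`).
-/

set_option autoImplicit false

namespace Pool.Agent.Lib.MP_1e3e9c_agU

open IsLocalRing Pool.Agent.Lib.MP_b197b4_ntK

variable {F ι : Type} [Field F] [CharZero F] [Fintype ι] {K : Subfield F}

omit [CharZero F] [Fintype ι] in
private theorem C10_up {Ω : Type} [Field Ω] [Algebra F Ω] {z : ι → F} (hz : z ≠ 0) :
    up Ω z ≠ 0 := by
  intro h
  apply hz
  funext j
  exact (map_eq_zero (algebraMap F Ω)).1 (congrFun h j)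

theorem XX_ht {Ω μ : Type} [Field Ω] [Algebra F Ω] {C : μ × Bool × ι → Ω} (hC : Gn F C)
    (β : μ → ι → F) (s : List μ) (hs : s.Nodup) (h1 : FF (cb K C β {i | i ∈ s}) 1) {z : ι → F}
    (hz : z ≠ 0) : (XX K (z :: s.map β) : ℤ) = ht (cb K C β {i | i ∈ s}) (up Ω z) := by
  have : CharZero Ω := charZero_of_injective_algebraMap (algebraMap F Ω).injective
  have h2 := XX_tower K hC β s hs [z]
  rw [← XX_one h1 (C10_up hz)]
  exact congrArg Nat.cast h2.symm

omit [CharZero F] in
private theorem C10_al {Ω : Type} [Field Ω] [Algebra F Ω] {V : ValuationSubring Ω}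
    {v : ValuationSubring F} (h : ∀ x : F, x ≠ 0 → ord V (algebraMap F Ω x) = ord v x)
    {z : ι → F} (hz : z ≠ 0) : al V (up Ω z) = al v z := by
  apply le_antisymm
  · obtain ⟨j, hj, e⟩ := exists_al (V := v) hz
    rw [← e, ← h _ hj]
    exact al_le (V := V) (z := up Ω z) (j := j) ((map_ne_zero (algebraMap F Ω)).2 hj)
  · obtain ⟨j, hj, e⟩ := exists_al (V := V) (C10_up (Ω := Ω) hz)
    have hj' : z j ≠ 0 := (map_ne_zero (algebraMap F Ω)).1 hj
    rw [← e]
    change _ ≤ ord V (algebraMap F Ω (z j))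
    rw [h _ hj']
    exact al_le hj'

omit [CharZero F] in
private theorem C10_al0 {Ω : Type} [Field Ω] [Algebra F Ω] {V : ValuationSubring Ω}
    (h : ∀ x : F, ord V (algebraMap F Ω x) = 0) {z : ι → F} (hz : z ≠ 0) :
    al V (up Ω z) = 0 := by
  obtain ⟨j, hj, e⟩ := exists_al (V := V) (C10_up (Ω := Ω) hz)
  rw [← e]
  exact h _

open Classical in
/-- Either everything vanishes or there is a curve. -/
private theorem C10_key (l : List (ι → F)) (hl : ∀ w ∈ l, w ≠ 0) (hF : FF K (l.length + 1)) :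
    ((∀ z : ι → F, XX K (z :: l) = 0) ∧ ∀ v, Dv K v → XR K v l = 0) ∨
    ∃ (Ω : Type) (_ : Field Ω) (_ : Algebra F Ω) (κ : Subfield Ω), FF κ 1 ∧
      (∀ V : ValuationSubring Ω, Dv κ V → V.comap (algebraMap F Ω) ≠ ⊤ → ∀ x : F, x ≠ 0 →
        ord V (algebraMap F Ω x) = ord (V.comap (algebraMap F Ω)) x) ∧
      (∀ f : ValuationSubring F → ℤ, ∑ᶠ (V : ValuationSubring Ω) (_ : Dv κ V), (deg κ V : ℤ) *
          (if V.comap (algebraMap F Ω) = ⊤ then 0 else f (V.comap (algebraMap F Ω))) =
        ∑ᶠ (v : ValuationSubring F) (_ : Dv K v), (XR K v l : ℤ) * f v) ∧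
      (∀ z : ι → F, z ≠ 0 → (XX K (z :: l) : ℤ) = ht κ (up Ω z)) ∧
      ∀ v : ValuationSubring F, Dv K v → 0 < XR K v l →
        ∃ V, Dv κ V ∧ V.comap (algebraMap F Ω) = v := by
  have hC := gn_gc F (Fin l.length × Bool × ι)
  have hs : (List.finRange l.length).Nodup := List.nodup_finRange _
  have hm : (List.finRange l.length).map l.get = l := by
    rw [← List.ofFn_eq_map, List.ofFn_get]
  have hlen : (List.finRange l.length).length = l.length := List.length_finRange
  have hβ : ∀ i ∈ List.finRange l.length, l.get i ≠ 0 := fun i _ => hl _ (l.get_mem i)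
  have hF' : FF K ((List.finRange l.length).length + 1) := by rw [hlen]; exact hF
  by_cases h1 : FF (cb K (gc F (Fin l.length × Bool × ι)) l.get
      {i | i ∈ List.finRange l.length}) 1
  · right
    refine ⟨GF F (Fin l.length × Bool × ι), inferInstance, inferInstance, _, h1, ?_, ?_, ?_, ?_⟩
    · intro V hV hn x hx
      exact (place_nontriv hC l.get _ hβ hs hF' h1 V hV hn).1.ram x hx
    · intro f
      have h2 := sum_places hC l.get _ hβ hs hF' h1 f
      rw [hm] at h2
      exact h2
    · intro z hz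
      have h2 := XX_ht hC l.get _ hs h1 hz
      rw [hm] at h2
      exact h2
    · intro v hv hx
      refine exists_gauss hC l.get _ hβ hs v hv ?_
      rw [hm]
      exact hx
  · left
    constructor
    · intro z
      by_contra h2
      refine h1 (FF_cb hC l.get _ hs (e := 1) ?_ [z] rfl ?_)
      · rw [add_comm]
        exact hF'
      · rw [hm]
        exact Nat.pos_of_ne_zero h2
    · intro v hv
      by_contra h2
      refine h1 (FF_of_XR hC l.get _ hβ hs hF' v hv ?_)
      rw [hm]
      exact Nat.pos_of_ne_zero h2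

theorem XX_ht_sum (l : List (ι → F)) (hl : ∀ w ∈ l, w ≠ 0) (hF : FF K (l.length + 1)) {z : ι → F}
    (hz : z ≠ 0) : (XX K (z :: l) : ℤ) =
      -∑ᶠ (v : ValuationSubring F) (_ : Dv K v), (XR K v l : ℤ) * al v z := by
  classical
  rcases C10_key l hl hF with ⟨h1, h2⟩ | ⟨Ω, _, _, κ, h1, hram, hsum, hht, hex⟩
  · rw [h1]
    have h3 : ∀ v : ValuationSubring F, ∑ᶠ (_ : Dv K v), (XR K v l : ℤ) * al v z = 0 := by
      intro v
      by_cases hv : Dv K v
      · rw [h2 v hv, Nat.cast_zero, zero_mul]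
        exact finsum_zero
      · rw [finsum_eq_if, if_neg hv]
    rw [finsum_congr h3, finsum_zero, neg_zero, Nat.cast_zero]
  · rw [hht z hz, ← hsum fun v => al v z]
    unfold ht
    congr 1
    refine finsum_congr fun V => finsum_congr fun hV => ?_
    congr 1
    by_cases hn : V.comap (algebraMap F Ω) = ⊤
    · rw [if_pos hn]
      exact C10_al0 (fun x => ord_of_triv hn x) hz
    · rw [if_neg hn]
      exact C10_al (fun x hx => hram V hV hn x hx) hz

/-- The product formula in many variables. -/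
theorem XR_prod (l : List (ι → F)) (hl : ∀ w ∈ l, w ≠ 0) (hF : FF K (l.length + 1)) {x : F}
    (hx : x ≠ 0) : ∑ᶠ (v : ValuationSubring F) (_ : Dv K v), (XR K v l : ℤ) * ord v x = 0 := by
  classical
  rcases C10_key l hl hF with ⟨h1, h2⟩ | ⟨Ω, _, _, κ, h1, hram, hsum, hht, hex⟩
  · have h3 : ∀ v : ValuationSubring F, ∑ᶠ (_ : Dv K v), (XR K v l : ℤ) * ord v x = 0 := by
      intro v
      by_cases hv : Dv K v
      · rw [h2 v hv, Nat.cast_zero, zero_mul]
        exact finsum_zero
      · rw [finsum_eq_if, if_neg hv]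
    rw [finsum_congr h3, finsum_zero]
  · have : CharZero Ω := charZero_of_injective_algebraMap (algebraMap F Ω).injective
    rw [← hsum fun v => ord v x]
    refine Eq.trans ?_ (prod_formula h1 ((map_ne_zero (algebraMap F Ω)).2 hx))
    refine finsum_congr fun V => finsum_congr fun hV => ?_
    congr 1
    by_cases hn : V.comap (algebraMap F Ω) = ⊤
    · rw [if_pos hn]
      exact (ord_of_triv hn x).symm
    · rw [if_neg hn]
      exact (hram V hV hn x hx).symm

omit [CharZero F] in
private theorem C10_top {v : ValuationSubring F} (hv : Dv K v) : v ≠ ⊤ := by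
  intro h
  have := hv.1
  obtain ⟨p, hp⟩ := IsDiscreteValuationRing.exists_irreducible v
  apply hp.not_isUnit
  have hp0 : (p : F) ≠ 0 := fun h0 => hp.ne_zero (Subtype.ext h0)
  have h2 : ∀ y : F, y ∈ v := by
    intro y
    rw [h]
    exact ValuationSubring.mem_top _
  exact IsUnit.of_mul_eq_one ⟨(p : F)⁻¹, h2 _⟩ (Subtype.ext (mul_inv_cancel₀ hp0))

theorem XR_fin (l : List (ι → F)) (hl : ∀ w ∈ l, w ≠ 0) (hF : FF K (l.length + 1)) {x : F}
    (hx : x ≠ 0) : {v : ValuationSubring F | Dv K v ∧ (XR K v l : ℤ) * ord v x ≠ 0}.Finite := by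
  classical
  rcases C10_key l hl hF with ⟨h1, h2⟩ | ⟨Ω, _, _, κ, h1, hram, hsum, hht, hex⟩
  · refine Set.Finite.subset Set.finite_empty ?_
    rintro v ⟨hv, hne⟩
    rw [h2 v hv, Nat.cast_zero, zero_mul] at hne
    exact absurd rfl hne
  · have : CharZero Ω := charZero_of_injective_algebraMap (algebraMap F Ω).injective
    have h3 := ord_fin h1 ((map_ne_zero (algebraMap F Ω)).2 hx)
    refine Set.Finite.subset (h3.image fun V => V.comap (algebraMap F Ω)) ?_
    rintro v ⟨hv, hne⟩
    have hx0 : XR K v l ≠ 0 := by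
      intro h0
      rw [h0, Nat.cast_zero, zero_mul] at hne
      exact hne rfl
    obtain ⟨V, hV, rfl⟩ := hex v hv (Nat.pos_of_ne_zero hx0)
    refine ⟨V, ⟨hV, ?_⟩, rfl⟩
    rw [hram V hV (C10_top hv) x hx]
    exact right_ne_zero_of_mul hne

private theorem C10_fin (l : List (ι → F)) (hl : ∀ w ∈ l, w ≠ 0) (hF : FF K (l.length + 1))
    {z : ι → F} (hz : z ≠ 0) :
    {v : ValuationSubring F | Dv K v ∧ (XR K v l : ℤ) * al v z ≠ 0}.Finite := by
  classical
  have h1 : (⋃ j : {j : ι // z j ≠ 0},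
      {v : ValuationSubring F | Dv K v ∧ (XR K v l : ℤ) * ord v (z j) ≠ 0}).Finite :=
    Set.finite_iUnion fun j => XR_fin l hl hF j.2
  refine h1.subset ?_
  rintro v ⟨hv, hne⟩
  obtain ⟨j, hj, e⟩ := exists_al (V := v) hz
  refine Set.mem_iUnion.2 ⟨⟨j, hj⟩, hv, ?_⟩
  rw [e]
  exact hne

theorem XX_segre {σ κ : Type} [Fintype σ] [DecidableEq σ] [Fintype κ] (z : σ → κ → F)
    (hz : ∀ m, z m ≠ 0) (z' : σ → (σ → κ) → F) (hz' : ∀ m V, al V (z' m) = al V (z m))
    (hz0 : ∀ m, z' m ≠ 0) (l : List ((σ → κ) → F)) (hF : FF K (l.length + 1)) :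
    XX K ((fun s : σ → κ => ∏ m, z m (s m)) :: l) = ∑ m, XX K (z' m :: l) := by
  classical
  by_cases hl : ∀ w ∈ l, w ≠ 0
  · have hsg : (fun s : σ → κ => ∏ m, z m (s m)) ≠ 0 := by
      have h1 : ∀ m, ∃ i, z m i ≠ 0 := fun m => Function.ne_iff.1 (hz m)
      choose s hs using h1
      intro h
      exact Finset.prod_ne_zero_iff.2 (fun m _ => hs m) (congrFun h s)
    have h2 : (XX K ((fun s : σ → κ => ∏ m, z m (s m)) :: l) : ℤ) =
        ∑ m, (XX K (z' m :: l) : ℤ) := by
      rw [XX_ht_sum l hl hF hsg, Finset.sum_congr rfl fun m _ => XX_ht_sum l hl hF (hz0 m),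
        Finset.sum_neg_distrib]
      congr 1
      rw [← finsum_sum_comm]
      · refine finsum_congr fun v => ?_
        by_cases hv : Dv K v
        · simp only [finsum_eq_if, if_pos hv]
          rw [← Finset.mul_sum, al_segre hv.1 z hz]
          congr 1
          exact Finset.sum_congr rfl fun m _ => (hz' m v).symm
        · simp only [finsum_eq_if, if_neg hv]
          exact Finset.sum_const_zero.symm
      · intro m _
        refine (C10_fin l hl hF (hz0 m)).subset ?_
        intro v hv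
        rw [Function.mem_support] at hv
        by_cases hd : Dv K v
        · rw [finsum_eq_if, if_pos hd] at hv
          exact ⟨hd, hv⟩
        · rw [finsum_eq_if, if_neg hd] at hv
          exact absurd rfl hv
    exact_mod_cast h2
  · push Not at hl
    obtain ⟨w, hw, hw0⟩ := hl
    have hcon : ∀ y : (σ → κ) → F, XX K (y :: l) = 0 := by
      intro y
      have hp : (y :: l).Perm (w :: y :: l.erase w) :=
        (List.Perm.cons y (List.perm_cons_erase hw)).trans (List.Perm.swap w y _)
      rw [XX_perm K hp]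
      refine XX_con (y :: l.erase w) ?_ ?_
      · have hlen : (y :: l.erase w).length = l.length := by
          rw [List.length_cons, List.length_erase_of_mem hw]
          have := List.length_pos_of_mem hw
          omega
        rw [hlen]
        exact hF
      · intro i j hj
        rw [hw0] at hj
        exact absurd rfl hj
    rw [hcon, Finset.sum_congr rfl fun m _ => hcon (z' m), Finset.sum_const_zero]

end Pool.Agent.Lib.MP_1e3e9c_agU
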