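import Mathlib
import Pool.Agent.Lib.MP_1e3e9c_agU.C5d
import Pool.Agent.Lib.MP_1e3e9c_agU.C6

/-!
# MP_1e3e9c_ag, project U, leaf C9: finite extensions

`E/F` finite. `XX_up`: `Ω' = GF E σ` is finite over `Ω = GF F σ` of degree `[E : F]` (`finrank_pure`
for `F ⊆ E`: the base field `F(c)` of `E(c)`); tower law for the base field
`K(c, u) ⊆ F(c) ⊆ E(c)` (also if the degree is infinite: then both sides are `0`).
`FF_up`: `E` is finitely generated over `K`, of the same transcendence degree. `ht_up`: from `XX_one`,
`XX_up` (or from `∑ e f = [E : F]`). `con_up`: algebraic over `K` in `F` or in `E` is the same.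
-/

set_option autoImplicit false

namespace Pool.Agent.Lib.MP_1e3e9c_agU

open IsLocalRing Pool.Agent.Lib.MP_b197b4_ntK

/-! ## Ranks -/

private theorem C9_fr {R R' M M' : Type} [Field R] [Field R'] [AddCommGroup M] [AddCommGroup M']
    [Module R M] [Module R' M'] (i : R → R') (hi : Function.Bijective i) (j : M ≃+ M')
    (hc : ∀ (r : R) (m : M), j (r • m) = i r • j m) : Module.finrank R M = Module.finrank R' M' := by
  unfold Module.finrank
  rw [rank_eq_of_equiv_equiv i j hi hc]

private theorem C9_tower {A B : Type} [Field A] [Field B] (θ : A →+* B) (M : Subfield A) :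
    Module.finrank (M.map θ) B = Module.finrank θ.fieldRange B * Module.finrank M A := by
  let _ : Algebra A B := θ.toAlgebra
  have h1 : Module.finrank M A * Module.finrank A B = Module.finrank M B :=
    Module.finrank_mul_finrank M A B
  have h2 : Module.finrank A B = Module.finrank θ.fieldRange B :=
    C9_fr (fun a => θ.rangeRestrictField a) θ.rangeRestrictField_bijective (AddEquiv.refl B)
      (fun r m => rfl)
  have h3 : Module.finrank M B = Module.finrank (M.map θ) B := by
    refine C9_fr (fun a => ⟨θ a, ⟨a, a.2, rfl⟩⟩) ⟨?_, ?_⟩ (AddEquiv.refl B) (fun r m => rfl)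
    · intro a b h
      exact Subtype.ext (θ.injective (congrArg Subtype.val h))
    · rintro ⟨y, x, hx, rfl⟩
      exact ⟨⟨x, hx⟩, rfl⟩
  rw [← h3, ← h1, h2, mul_comm]

/-! ## The homomorphism of the generic extensions -/

section Hom

variable (F E σ : Type) [Field F] [Field E] [Algebra F E]

private theorem C9_inj : Function.Injective
    ((algebraMap (MvPolynomial σ E) (GF E σ)).comp (MvPolynomial.map (algebraMap F E))) :=
  (IsFractionRing.injective (MvPolynomial σ E) (GF E σ)).comp
    (MvPolynomial.map_injective _ (algebraMap F E).injective)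

private noncomputable def C9_th : GF F σ →+* GF E σ :=
  IsFractionRing.lift (A := MvPolynomial σ F) (C9_inj F E σ)

private theorem C9_th_gc (q : σ) : C9_th F E σ (gc F σ q) = gc E σ q := by
  unfold C9_th gc
  rw [IsFractionRing.lift_algebraMap, RingHom.comp_apply, MvPolynomial.map_X]

private theorem C9_th_alg (a : F) :
    C9_th F E σ (algebraMap F (GF F σ) a) = algebraMap E (GF E σ) (algebraMap F E a) := by
  unfold C9_th
  rw [IsScalarTower.algebraMap_apply F (MvPolynomial σ F) (GF F σ), IsFractionRing.lift_algebraMap,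
    RingHom.comp_apply, MvPolynomial.algebraMap_eq, MvPolynomial.map_C,
    IsScalarTower.algebraMap_apply E (MvPolynomial σ E) (GF E σ), MvPolynomial.algebraMap_eq]

private theorem C9_range : (C9_th F E σ).fieldRange =
    Subfield.closure ((algebraMap E (GF E σ) '' ((algebraMap F E).fieldRange : Set E)) ∪
      Set.range (gc E σ)) := by
  have h1 : (⊤ : Subfield (GF F σ)) =
      Subfield.closure (Set.range (algebraMap F (GF F σ)) ∪ Set.range (gc F σ)) := by
    have h2 := congrArg IntermediateField.toSubfield (gn_gc F σ).2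
    exact h2.symm
  rw [RingHom.fieldRange_eq_map, h1, RingHom.map_field_closure, Set.image_union, ← Set.range_comp,
    ← Set.range_comp]
  congr 2
  · ext y
    constructor
    · rintro ⟨a, rfl⟩
      exact ⟨algebraMap F E a, ⟨a, rfl⟩, (C9_th_alg F E σ a).symm⟩
    · rintro ⟨_, ⟨a, rfl⟩, rfl⟩
      exact ⟨a, C9_th_alg F E σ a⟩
  · exact congrArg Set.range (funext fun q => C9_th_gc F E σ q)

private theorem C9_deg : Module.finrank (C9_th F E σ).fieldRange (GF E σ) = Module.finrank F E := by
  rw [C9_range, finrank_pure (gn_gc E σ) (algebraMap F E).fieldRange]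
  exact (C9_fr (fun a => (algebraMap F E).rangeRestrictField a)
    (algebraMap F E).rangeRestrictField_bijective (AddEquiv.refl E)
    (fun r m => by
      change r • m = algebraMap F E r * m
      exact Algebra.smul_def r m)).symm

end Hom

variable {F E ι : Type} [Field F] [Fintype ι] [Field E] [Algebra F E] [FiniteDimensional F E]
  {K : Subfield F}

omit [FiniteDimensional F E] in
private theorem C9_gu {μ : Type} (β : μ → ι → F) (i : μ) :
    C9_th F E (μ × Bool × ι) (gu (gc F (μ × Bool × ι)) β i) =
      gu (gc E (μ × Bool × ι)) (fun i => up E (β i)) i := by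
  unfold gu up
  rw [map_div₀, map_sum, map_sum]
  simp only [map_mul, C9_th_gc, C9_th_alg]

omit [FiniteDimensional F E] in
private theorem C9_cb {μ : Type} (K : Subfield F) (β : μ → ι → F) (S : Set μ) :
    (cb K (gc F (μ × Bool × ι)) β S).map (C9_th F E (μ × Bool × ι)) =
      cb (upK E K) (gc E (μ × Bool × ι)) (fun i => up E (β i)) S := by
  unfold cb
  rw [RingHom.map_field_closure, Set.image_union, Set.image_union, ← Set.range_comp]
  congr 2
  · congr 1
    · ext y
      constructor
      · rintro ⟨_, ⟨a, ha, rfl⟩, rfl⟩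
        exact ⟨algebraMap F E a, ⟨a, ha, rfl⟩, (C9_th_alg F E _ a).symm⟩
      · rintro ⟨_, ⟨a, ha, rfl⟩, rfl⟩
        exact ⟨_, ⟨a, ha, rfl⟩, C9_th_alg F E _ a⟩
    · exact congrArg Set.range (funext fun q => C9_th_gc F E _ q)
  · ext y
    constructor
    · rintro ⟨_, ⟨i, hi, rfl⟩, rfl⟩
      exact ⟨i, hi, (C9_gu β i).symm⟩
    · rintro ⟨i, hi, rfl⟩
      exact ⟨_, ⟨i, hi, rfl⟩, C9_gu β i⟩

theorem XX_up (K : Subfield F) (l : List (ι → F)) :
    XX (upK E K) (l.map (up E)) = Module.finrank F E * XX K l := by
  have h1 := XX_eq (upK E K) (gn_gc E (Fin l.length × Bool × ι)) (fun i => up E (l.get i))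
    (l.map (up E)) (finCongr (List.length_map (up E))) (fun i => by
      rw [List.get_eq_getElem, List.get_eq_getElem, List.getElem_map]
      rfl)
  rw [← h1, ← C9_cb K l.get Set.univ, C9_tower, C9_deg]
  rfl

/-! ## The base field -/

/-- The homomorphism `K → upK E K`. -/
private def C9_hom (E : Type) [Field E] [Algebra F E] (K : Subfield F) : K →+* upK E K :=
  ((algebraMap F E).comp K.subtype).codRestrict (upK E K) fun a => ⟨a, a.2, rfl⟩

omit [FiniteDimensional F E] in
private theorem C9_hom_surj : Function.Surjective (C9_hom E K) := by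
  rintro ⟨y, x, hx, rfl⟩
  exact ⟨⟨x, hx⟩, rfl⟩

theorem FF_up {m : ℕ} (hF : FF K m) : FF (upK E K) m := by
  obtain ⟨h1, h2⟩ := hF
  let a1 : Algebra K E := ((algebraMap F E).comp K.subtype).toAlgebra
  have t1 := IsScalarTower.of_algebraMap_eq (R := K) (S := F) (A := E) fun a => rfl
  let a2 : Algebra K (upK E K) := (C9_hom E K).toAlgebra
  have t2 := IsScalarTower.of_algebraMap_eq (R := K) (S := upK E K) (A := E) fun a => rfl
  have e1 : Algebra.EssFiniteType K F := IntermediateField.fg_top_iff.1 h1
  have e2 : Algebra.EssFiniteType K E := Algebra.EssFiniteType.comp K F E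
  refine ⟨IntermediateField.fg_top_iff.2 (Algebra.EssFiniteType.of_comp K (upK E K) E), ?_⟩
  have i1 : Algebra.IsAlgebraic K (upK E K) :=
    ⟨fun y => by
      obtain ⟨x, rfl⟩ := C9_hom_surj (E := E) (K := K) y
      exact isAlgebraic_algebraMap x⟩
  have d1 := trdeg_add_eq K F (A := E)
  have d2 := trdeg_add_eq K (upK E K) (A := E)
  rw [trdeg_eq_zero (R := F) (A := E), add_zero] at d1
  rw [trdeg_eq_zero (R := K) (A := upK E K), zero_add] at d2
  rw [d2, ← d1, h2]

theorem ht_up [CharZero F] (hF : FF K 1) {z : ι → F} (hz : z ≠ 0) :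
    ht (upK E K) (up E z) = Module.finrank F E * ht K z := by
  have : CharZero E := charZero_of_injective_algebraMap (algebraMap F E).injective
  have hz' : up E z ≠ 0 := by
    intro h
    apply hz
    funext j
    exact (map_eq_zero (algebraMap F E)).1 (congrFun h j)
  rw [← XX_one (FF_up hF) hz', ← XX_one hF hz]
  have h1 := XX_up (E := E) K [z]
  have h2 : XX (upK E K) [up E z] = Module.finrank F E * XX K [z] := h1
  rw [h2]
  push_cast
  rfl

omit [Fintype ι] in
theorem con_up {z : ι → F} : Con (upK E K) (up E z) ↔ Con K z := by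
  let a1 : Algebra K E := ((algebraMap F E).comp K.subtype).toAlgebra
  have t1 := IsScalarTower.of_algebraMap_eq (R := K) (S := F) (A := E) fun a => rfl
  let a2 : Algebra K (upK E K) := (C9_hom E K).toAlgebra
  have t2 := IsScalarTower.of_algebraMap_eq (R := K) (S := upK E K) (A := E) fun a => rfl
  have i1 : Algebra.IsAlgebraic K (upK E K) :=
    ⟨fun y => by
      obtain ⟨x, rfl⟩ := C9_hom_surj (E := E) (K := K) y
      exact isAlgebraic_algebraMap x⟩
  have key : ∀ x : F, IsAlgebraic (upK E K) (algebraMap F E x) ↔ IsAlgebraic K x := by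
    intro x
    constructor
    · intro h
      exact (isAlgebraic_algebraMap_iff (algebraMap F E).injective).1 (h.restrictScalars K)
    · intro h
      exact (isAlgebraic_algebraMap_iff (algebraMap F E).injective).2 h |>.tower_top (upK E K)
  unfold Con up
  refine forall_congr' fun i => forall_congr' fun j => ?_
  rw [← map_div₀, key, ne_eq, ne_eq, map_eq_zero]

end Pool.Agent.Lib.MP_1e3e9c_agU
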