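import Mathlib
import Pool.Agent.Lib.MP_1e3e9c_agU.Defs2
import Pool.Agent.Lib.MP_1e3e9c_agU.Vl

/-!
# MP_1e3e9c_ag, project U, leaf A3: extensions of discrete valuation rings

`exists_over`: the integral closure `B` of `V` in `E` is a Dedekind domain, finite over `V`
(`E/F` separable): `IsIntegralClosure.isDedekindDomain`, `integralClosure.isDedekindDomain`,
`IsIntegralClosure.finite`; a maximal ideal `P` of `B` over the maximal ideal of `V`; `W` = the
localisation `B_P` in `E` as valuation subring (a discrete valuation ring of `E` dominating `V`);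
`a` = ramification index = `ord W π`; the residue field of `W` is `B/P`, finite over that of `V`.
(There may be a shorter way: any valuation subring `W` of `E` with `W.comap = V`, which exists by
`LocalSubring` domination, satisfies all this.)
`exists_ram`: `E = F(τ)`, `τ^e = π` (a splitting field of `X^e - π` or `AdjoinRoot` of a factor),
then `exists_over`: `e ord W τ = ord W π = a`.
-/

set_option autoImplicit false

namespace Pool.Agent.Lib.MP_1e3e9c_agU

open IsLocalRing Pool.Agent.Lib.MP_b197b4_ntK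

section A3

variable {F E : Type} [Field F] [Field E] [Algebra F E]

private theorem A3_ext (V : ValuationSubring F) :
    ∃ W : ValuationSubring E, W.comap (algebraMap F E) = V := by
  obtain ⟨W, h, hloc⟩ := IsLocalRing.exists_factor_valuationRing ((algebraMap F E).comp V.subtype)
  refine ⟨W, ?_⟩
  ext x
  constructor
  · intro hx
    by_contra hxV
    have hx' : algebraMap F E x ∈ W := hx
    have hx0 : x ≠ 0 := fun h0 => hxV (by rw [h0]; exact V.zero_mem)
    have h1 : x⁻¹ ∈ V := (V.mem_or_inv_mem x).resolve_left hxV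
    have h2 : IsUnit (⟨x⁻¹, h1⟩ : V) := by
      apply hloc.map_nonunit
      refine IsUnit.of_mul_eq_one (⟨algebraMap F E x, hx'⟩ : W.toSubring) ?_
      apply Subtype.ext
      show algebraMap F E x⁻¹ * algebraMap F E x = 1
      rw [← map_mul, inv_mul_cancel₀ hx0, map_one]
    obtain ⟨y, hy⟩ := h2.exists_right_inv
    have h3 : x⁻¹ * (y : F) = 1 := congrArg Subtype.val hy
    have h4 : (y : F) = x := by
      rw [← inv_inv x]
      exact eq_inv_of_mul_eq_one_right h3
    exact hxV (h4 ▸ y.2)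
  · intro hx
    exact h ⟨x, hx⟩

private theorem A3_unit (W : ValuationSubring E) (u : (W.comap (algebraMap F E))ˣ) :
    W.valuation (algebraMap F E ((u : W.comap (algebraMap F E)) : F)) = 1 :=
  (ValuationSubring.valuation_eq_one_iff W _).1 (u.isUnit.map (cmap F W))

private theorem A3_pi (W : ValuationSubring E) {p : W.comap (algebraMap F E)} (hp : Irreducible p) :
    W.valuation (algebraMap F E (p : F)) < 1 := by
  have h1 : ¬ IsUnit (cmap F W p) := fun h => hp.not_isUnit (isUnit_of_map_unit (cmap F W) p h)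
  exact (ValuationSubring.valuation_lt_one_iff W (cmap F W p)).1 ((mem_maximalIdeal _).2 h1)

private theorem A3_val (W : ValuationSubring E) (hV : IsDiscreteValuationRing (W.comap (algebraMap F E)))
    {p : W.comap (algebraMap F E)} (hp : Irreducible p) {y : F} (hy : y ≠ 0) :
    W.valuation (algebraMap F E y) =
      W.valuation (algebraMap F E (p : F)) ^ ord (W.comap (algebraMap F E)) y := by
  obtain ⟨u, hu⟩ := exists_unit_of_ord hV hp hy
  conv_lhs => rw [hu]
  rw [map_mul, map_mul, map_zpow₀, map_zpow₀, A3_unit, mul_one]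

/-- Some power of `v x` is a power of the value of the uniformiser. -/
private theorem A3_rel [FiniteDimensional F E] (W : ValuationSubring E)
    (hV : IsDiscreteValuationRing (W.comap (algebraMap F E)))
    {p : W.comap (algebraMap F E)} (hp : Irreducible p) {x : E} (hx : x ≠ 0) :
    ∃ n : ℕ, 0 < n ∧ n ≤ Module.finrank F E ∧ ∃ k : ℤ,
      W.valuation x ^ n = W.valuation (algebraMap F E (p : F)) ^ k := by
  classical
  obtain ⟨v, hv⟩ : ∃ v : Valuation E W.ValueGroup, v = W.valuation := ⟨_, rfl⟩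
  have hp0 : (p : F) ≠ 0 := fun h => hp.ne_zero (Subtype.ext h)
  have hP0 : v (algebraMap F E (p : F)) ≠ 0 := by
    rw [Valuation.ne_zero_iff]
    exact (map_ne_zero _).2 hp0
  have hx0 : v x ≠ 0 := by
    rw [Valuation.ne_zero_iff]
    exact hx
  have h1 : ¬ LinearIndependent F fun i : Fin (Module.finrank F E + 1) => x ^ (i : ℕ) := by
    intro h
    have h2 := h.fintype_card_le_finrank
    rw [Fintype.card_fin] at h2
    omega
  obtain ⟨g, hg, i1, hi1⟩ := Fintype.not_linearIndependent_iff.1 h1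
  obtain ⟨i0, hi0⟩ := Finite.exists_max fun i : Fin (Module.finrank F E + 1) => v (g i • x ^ (i : ℕ))
  have ht : ∀ i, v (g i • x ^ (i : ℕ)) = v (algebraMap F E (g i)) * v x ^ (i : ℕ) := by
    intro i
    rw [Algebra.smul_def, map_mul, map_pow]
  have hne : ∀ i, g i ≠ 0 → v (g i • x ^ (i : ℕ)) ≠ 0 := by
    intro i hi
    rw [ht]
    refine mul_ne_zero ?_ (pow_ne_zero _ hx0)
    rw [Valuation.ne_zero_iff]
    exact (map_ne_zero _).2 hi
  have h0 : v (g i0 • x ^ (i0 : ℕ)) ≠ 0 := by
    intro h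
    exact hne i1 hi1 (le_antisymm (h ▸ hi0 i1) zero_le)
  obtain ⟨j, hj, hj'⟩ : ∃ j, j ≠ i0 ∧ v (g j • x ^ (j : ℕ)) = v (g i0 • x ^ (i0 : ℕ)) := by
    by_contra hcon
    push Not at hcon
    have h2 : v (∑ j ∈ Finset.univ.erase i0, g j • x ^ (j : ℕ)) < v (g i0 • x ^ (i0 : ℕ)) :=
      v.map_sum_lt h0 fun j hj => lt_of_le_of_ne (hi0 j) (hcon j (Finset.ne_of_mem_erase hj))
    have h3 : ∑ j ∈ Finset.univ.erase i0, g j • x ^ (j : ℕ) = -(g i0 • x ^ (i0 : ℕ)) := by
      rw [← Finset.add_sum_erase _ _ (Finset.mem_univ i0)] at hg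
      exact eq_neg_of_add_eq_zero_right hg
    rw [h3, Valuation.map_neg] at h2
    exact lt_irrefl _ h2
  have hgi : g i0 ≠ 0 := by
    intro h
    apply h0
    rw [h, zero_smul, map_zero]
  have hgj : g j ≠ 0 := by
    intro h
    apply h0
    rw [← hj', h, zero_smul, map_zero]
  rw [ht, ht, hv, A3_val W hV hp hgi, A3_val W hV hp hgj, ← hv] at hj'
  -- divide
  have hlt : ∀ (a b : ℕ) (k l : ℤ), a < b →
      v (algebraMap F E (p : F)) ^ k * v x ^ a = v (algebraMap F E (p : F)) ^ l * v x ^ b →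
      v x ^ (b - a) = v (algebraMap F E (p : F)) ^ (k - l) := by
    intro a b k l hab h
    have h4 : v x ^ b = v x ^ a * v x ^ (b - a) := by
      rw [← pow_add]
      congr 1
      omega
    rw [h4, ← mul_assoc, mul_comm _ (v x ^ a), mul_comm _ (v x ^ a), mul_assoc] at h
    have h5 := mul_left_cancel₀ (pow_ne_zero a hx0) h
    rw [zpow_sub₀ hP0, h5, mul_comm, mul_div_assoc, div_self (zpow_ne_zero _ hP0), mul_one]
  have hne' : (j : ℕ) ≠ (i0 : ℕ) := fun h => hj (Fin.ext h)
  rw [← hv]
  rcases lt_or_gt_of_ne hne' with hlt' | hlt'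
  · refine ⟨(i0 : ℕ) - j, by omega, by have := i0.2; omega, _, hlt _ _ _ _ hlt' hj'⟩
  · refine ⟨(j : ℕ) - i0, by omega, by have := j.2; omega, _, hlt _ _ _ _ hlt' hj'.symm⟩

private theorem A3_dvr [FiniteDimensional F E] (W : ValuationSubring E)
    (hV : IsDiscreteValuationRing (W.comap (algebraMap F E))) : IsDiscreteValuationRing W := by
  classical
  obtain ⟨p, hp⟩ := IsDiscreteValuationRing.exists_irreducible (W.comap (algebraMap F E))
  obtain ⟨v, hv⟩ : ∃ v : Valuation E W.ValueGroup, v = W.valuation := ⟨_, rfl⟩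
  obtain ⟨P, hP⟩ : ∃ P, P = v (algebraMap F E (p : F)) := ⟨_, rfl⟩
  obtain ⟨M, hM⟩ : ∃ M : ℕ, M = (Module.finrank F E).factorial := ⟨_, rfl⟩
  have hM0 : 0 < M := by
    rw [hM]
    exact Nat.factorial_pos _
  have hp0 : (p : F) ≠ 0 := fun h => hp.ne_zero (Subtype.ext h)
  have hpE : algebraMap F E (p : F) ≠ 0 := (map_ne_zero _).2 hp0
  have hP0 : 0 < P := by
    rw [hP, Valuation.pos_iff]
    exact hpE
  have hP1 : P < 1 := by
    rw [hP, hv]
    exact A3_pi W hp
  have key : ∀ x : E, x ≠ 0 → ∃ k : ℤ, v x ^ M = P ^ k := by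
    intro x hx
    obtain ⟨n, hn0, hnN, k, hk⟩ := A3_rel W hV hp hx
    obtain ⟨q, hq⟩ : n ∣ M := by
      rw [hM]
      exact Nat.dvd_factorial hn0 hnN
    refine ⟨k * q, ?_⟩
    rw [hq, pow_mul, hv, hk, ← hv, ← hP, zpow_mul, zpow_natCast]
  have hex : ∃ c : ℕ, 0 < c ∧ ∃ x : E, x ≠ 0 ∧ v x ^ M = P ^ (c : ℤ) :=
    ⟨M, hM0, algebraMap F E (p : F), hpE, by rw [← hP, zpow_natCast]⟩
  obtain ⟨c, hc⟩ : ∃ c, c = Nat.find hex := ⟨_, rfl⟩
  obtain ⟨hc0, w, hw0, hw⟩ := Nat.find_spec hex
  rw [← hc] at hc0 hw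
  have hmin : ∀ r : ℕ, r < c → ∀ x : E, x ≠ 0 → v x ^ M = P ^ (r : ℤ) → r = 0 := by
    intro r hr x hx hxr
    by_contra h0
    rw [hc] at hr
    exact Nat.find_min hex hr ⟨Nat.pos_of_ne_zero h0, x, hx, hxr⟩
  have hvw0 : 0 < v w := by
    rw [Valuation.pos_iff]
    exact hw0
  have hall : ∀ x : E, x ≠ 0 → ∃ q : ℤ, v x = v w ^ q := by
    intro x hx
    obtain ⟨k, hk⟩ := key x hx
    have hcz : (0 : ℤ) < c := by exact_mod_cast hc0
    have hr0 : 0 ≤ k % c := Int.emod_nonneg _ hcz.ne'
    have hr1 : k % c < c := Int.emod_lt_of_pos _ hcz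
    have hx' : x * w ^ (-(k / c)) ≠ 0 := mul_ne_zero hx (zpow_ne_zero _ hw0)
    have h1 : v (x * w ^ (-(k / c))) ^ M = P ^ (k % c) := by
      rw [map_mul, map_zpow₀, mul_pow, hk, ← zpow_natCast (v w ^ _), ← zpow_mul, mul_comm _ (M : ℤ), zpow_mul,
        zpow_natCast, hw, ← zpow_mul, ← zpow_add₀ hP0.ne']
      congr 1
      have := Int.emod_add_mul_ediv k c
      linarith
    have h2 : ((k % c).toNat : ℤ) = k % c := Int.toNat_of_nonneg hr0
    have h3 := hmin (k % c).toNat (by omega) _ hx' (by rw [h2]; exact h1)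
    have h4 : k % c = 0 := by omega
    rw [h4, zpow_zero] at h1
    have h5 : v (x * w ^ (-(k / c))) = 1 := (pow_eq_one_iff.1 h1).resolve_right hM0.ne'
    refine ⟨k / c, ?_⟩
    rw [map_mul, map_zpow₀, zpow_neg] at h5
    exact (mul_inv_eq_one₀ (zpow_ne_zero _ hvw0.ne')).1 h5
  have hvw1 : v w < 1 := by
    by_contra h
    have h1 : 1 ≤ v w ^ M := one_le_pow₀ (not_lt.1 h)
    rw [hw, zpow_natCast] at h1
    exact absurd h1 (not_le.2 (pow_lt_one₀ hP0.le hP1 hc0.ne'))
  have hwW : w ∈ W := by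
    rw [← ValuationSubring.valuation_le_one_iff, ← hv]
    exact hvw1.le
  have hanti := zpow_right_strictAnti₀ hvw0 hvw1
  have hnn : ∀ (x : E) (q : ℤ), x ∈ W → v x = v w ^ q → 0 ≤ q := by
    intro x q hxW hq
    have h1 : v x ≤ 1 := by
      rw [hv]
      exact (ValuationSubring.valuation_le_one_iff W x).2 hxW
    rw [hq, ← zpow_zero (v w)] at h1
    exact hanti.le_iff_ge.1 h1
  apply IsDiscreteValuationRing.ofHasUnitMulPowIrreducibleFactorization
  refine ⟨⟨w, hwW⟩, ⟨?_, ?_⟩, ?_⟩
  · intro hu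
    have h1 := (ValuationSubring.valuation_eq_one_iff W _).1 hu
    rw [← hv] at h1
    exact hvw1.ne h1
  · intro a b hab
    have hab' : w = (a : E) * (b : E) := congrArg Subtype.val hab
    have ha0 : (a : E) ≠ 0 := fun h => hw0 (by rw [hab', h, zero_mul])
    have hb0 : (b : E) ≠ 0 := fun h => hw0 (by rw [hab', h, mul_zero])
    obtain ⟨q1, h1⟩ := hall _ ha0
    obtain ⟨q2, h2⟩ := hall _ hb0
    have h3 : v w ^ (1 : ℤ) = v w ^ (q1 + q2) := by
      rw [zpow_add₀ hvw0.ne', ← h1, ← h2, ← map_mul, ← hab', zpow_one]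
    have h4 := hanti.injective h3
    have h5 := hnn _ _ a.2 h1
    have h6 := hnn _ _ b.2 h2
    rcases (by omega : q1 = 0 ∨ q2 = 0) with h | h
    · left
      rw [ValuationSubring.valuation_eq_one_iff, ← hv, h1, h, zpow_zero]
    · right
      rw [ValuationSubring.valuation_eq_one_iff, ← hv, h2, h, zpow_zero]
  · intro x hx
    have hx0 : (x : E) ≠ 0 := fun h => hx (Subtype.ext h)
    obtain ⟨q, hq⟩ := hall _ hx0
    have h1 := hnn _ _ x.2 hq
    obtain ⟨n, rfl⟩ := Int.eq_ofNat_of_zero_le h1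
    refine ⟨n, ?_⟩
    have h2 : W.valuation (x : E) = W.valuation (w ^ n) := by
      rw [← hv, hq, map_pow, zpow_natCast]
    obtain ⟨u, hu⟩ := (ValuationSubring.valuation_eq_iff W _ _).1 h2
    refine ⟨u, Subtype.ext ?_⟩
    rw [← hu]
    push_cast
    ring

private theorem A3_fin [FiniteDimensional F E] (W : ValuationSubring E) : (rhom F W).Finite := by
  classical
  letI : Algebra (ResidueField (W.comap (algebraMap F E))) (ResidueField W) := (rhom F W).toAlgebra
  show Module.Finite (ResidueField (W.comap (algebraMap F E))) (ResidueField W)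
  rw [← Module.rank_lt_aleph0_iff]
  refine lt_of_le_of_lt (rank_le (n := Module.finrank F E) fun s hs => ?_) Cardinal.natCast_lt_aleph0
  choose y hyW hy using res_surj W
  have hlin : LinearIndependent F fun i : s => y (i : ResidueField W) := by
    rw [Fintype.linearIndependent_iff]
    intro g hg
    by_contra hne
    push Not at hne
    obtain ⟨i1, hi1⟩ := hne
    obtain ⟨V, hV⟩ : ∃ V : ValuationSubring F, V = W.comap (algebraMap F E) := ⟨_, rfl⟩
    haveI : Nonempty s := ⟨i1⟩
    obtain ⟨i0, hi0⟩ := Finite.exists_max fun i : s => V.valuation (g i)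
    have hg0 : g i0 ≠ 0 := by
      intro h
      have h1 := hi0 i1
      rw [h, map_zero] at h1
      exact hi1 ((Valuation.zero_iff _).1 (le_antisymm h1 zero_le))
    have hmem : ∀ i, g i / g i0 ∈ W.comap (algebraMap F E) := by
      intro i
      rw [← hV, ← ValuationSubring.valuation_le_one_iff, map_div₀]
      exact div_le_one_of_le₀ (hi0 i) zero_le
    have hsum : ∑ i : s, algebraMap F E (g i / g i0) * y (i : ResidueField W) = 0 := by
      have h1 : ∑ i : s, algebraMap F E (g i / g i0) * y (i : ResidueField W) =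
          algebraMap F E (g i0)⁻¹ * ∑ i : s, g i • y (i : ResidueField W) := by
        rw [Finset.mul_sum]
        refine Finset.sum_congr rfl fun i _ => ?_
        rw [Algebra.smul_def, ← mul_assoc, ← map_mul, div_eq_inv_mul]
      rw [h1, hg, mul_zero]
    have hres : ∑ i : s, rhom F W (res (W.comap (algebraMap F E)) (g i / g i0)) * (i : ResidueField W) = 0 := by
      have h2 : ∀ i : s, rhom F W (res (W.comap (algebraMap F E)) (g i / g i0)) * (i : ResidueField W) =
          residue W (⟨algebraMap F E (g i / g i0), hmem i⟩ * ⟨y (i : ResidueField W), hyW _⟩) := by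
        intro i
        rw [map_mul, rhom_res W (hmem i), ← res_of_mem, ← res_of_mem, hy]
      rw [Finset.sum_congr rfl fun i _ => h2 i, ← map_sum]
      have h3 : (∑ i : s, ((⟨algebraMap F E (g i / g i0), hmem i⟩ : W) * ⟨y (i : ResidueField W), hyW _⟩)) = 0 := by
        refine Subtype.ext ?_
        rw [AddSubmonoidClass.coe_finsetSum]
        exact hsum
      rw [h3, map_zero]
    have h4 := (Fintype.linearIndependent_iff.1 hs) (fun i => res (W.comap (algebraMap F E)) (g i / g i0))
      (by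
        refine Eq.trans (Finset.sum_congr rfl fun i _ => ?_) hres
        rw [Algebra.smul_def]
        rfl) i0
    rw [div_self hg0, res_one] at h4
    exact one_ne_zero h4
  have h5 := hlin.fintype_card_le_finrank
  rwa [Fintype.card_coe] at h5

end A3

theorem exists_over {F E : Type} [Field F] [Field E] [CharZero F] [Algebra F E]
    [FiniteDimensional F E] (V : ValuationSubring F) (hV : IsDiscreteValuationRing V) :
    ∃ (W : ValuationSubring E) (a : ℕ) (rh : ResidueField V →+* ResidueField W),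
      Abv F E V W a rh := by
  obtain ⟨W, rfl⟩ := A3_ext (E := E) V
  have hW := A3_dvr W hV
  obtain ⟨p, hp⟩ := IsDiscreteValuationRing.exists_irreducible (W.comap (algebraMap F E))
  have hp0 : (p : F) ≠ 0 := fun h => hp.ne_zero (Subtype.ext h)
  have hpE : algebraMap F E (p : F) ≠ 0 := (map_ne_zero _).2 hp0
  have hpos : 0 < ord W (algebraMap F E (p : F)) := (ord_pos_iff hW hpE).2 (A3_pi W hp)
  refine ⟨W, (ord W (algebraMap F E (p : F))).toNat, rhom F W, hW, rfl, by omega, ?_, ?_, A3_fin W⟩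
  · intro x hx
    obtain ⟨u, hu⟩ := exists_unit_of_ord hV hp hx
    have hu1 := A3_unit W u
    have hu0 : algebraMap F E ((u : W.comap (algebraMap F E)) : F) ≠ 0 := by
      intro h
      rw [h, map_zero] at hu1
      exact zero_ne_one hu1
    rw [Int.toNat_of_nonneg hpos.le]
    conv_lhs => rw [hu, map_mul, map_zpow₀]
    rw [ord_mul hW (zpow_ne_zero _ hpE) hu0, ord_zpow hW hpE, (ord_eq_zero_iff hW hu0).2 hu1, add_zero, mul_comm]
  · intro x hx
    exact rhom_res W hx

theorem exists_ram {F : Type} [Field F] [CharZero F] (V : ValuationSubring F)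
    (hV : IsDiscreteValuationRing V) (e : ℕ) (he : 0 < e) :
    ∃ (E : Type) (_ : Field E) (_ : Algebra F E) (_ : FiniteDimensional F E)
      (W : ValuationSubring E) (a : ℕ) (rh : ResidueField V →+* ResidueField W) (τ : E),
      Abv F E V W a rh ∧ τ ≠ 0 ∧ (e : ℤ) * ord W τ = a := by
  obtain ⟨p, hp⟩ := IsDiscreteValuationRing.exists_irreducible V
  have hp0 : (p : F) ≠ 0 := fun h => hp.ne_zero (Subtype.ext h)
  obtain ⟨z, hz⟩ := IsAlgClosed.exists_pow_nat_eq (algebraMap F (AlgebraicClosure F) (p : F)) he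
  have hint : IsIntegral F z := Algebra.IsIntegral.isIntegral z
  haveI : FiniteDimensional F (IntermediateField.adjoin F {z}) :=
    IntermediateField.adjoin.finiteDimensional hint
  obtain ⟨W, a, rh, h⟩ := exists_over (E := IntermediateField.adjoin F {z}) V hV
  obtain ⟨τ, hτ⟩ : ∃ τ : IntermediateField.adjoin F {z}, τ = ⟨z, IntermediateField.mem_adjoin_simple_self F z⟩ :=
    ⟨_, rfl⟩
  have hτe : τ ^ e = algebraMap F (IntermediateField.adjoin F {z}) (p : F) := by
    apply Subtype.ext
    rw [hτ]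
    exact hz
  have hτ0 : τ ≠ 0 := by
    intro h0
    rw [h0, zero_pow he.ne'] at hτe
    exact hp0 ((map_eq_zero _).1 hτe.symm)
  refine ⟨IntermediateField.adjoin F {z}, inferInstance, inferInstance, inferInstance, W, a, rh, τ, h, hτ0, ?_⟩
  have h1 : ord V (p : F) = 1 := ord_eq ⟨p, 1, hp, by simp⟩
  have h2 := h.ram _ hp0
  rw [h1, mul_one, ← hτe, ord_pow h.dvr hτ0] at h2
  exact h2

end Pool.Agent.Lib.MP_1e3e9c_agU
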