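import Mathlib
import Pool.Agent.Lib.MP_1e3e9c_agU.Defs2
import Pool.Agent.Lib.MP_1e3e9c_agU.FmC
import Pool.Agent.Lib.MP_1e3e9c_agU.Vl

/-!
# MP_1e3e9c_ag, project U, leaf A5: primitive parameters of a good model

`prim`: `g⁻¹ q = λ q'` with `q'` primitive (`exists_prim`).
`al_pt`: `f(q) = f(λ g q') = λ^D f(g q')`, `m f(g q')` is integral with nonzero reduction (the value
of the reduced tuple at `res q' ≠ 0`), so `al W (f(q)) = D ord λ - ord m`; and `al W` of a point with
coordinates in `F` is `a` times `al V`.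
`wd_prim`: `wd q r = λ_q λ_r det g wd q' r'`.
-/

set_option autoImplicit false

namespace Pool.Agent.Lib.MP_1e3e9c_agU

open IsLocalRing Pool.Agent.Lib.MP_b197b4_ntK

/-- `q = l g q'` with `q'` primitive. -/
structure Prim {E : Type} [Field E] (W : ValuationSubring E) (g : Matrix (Fin 2) (Fin 2) E)
    (q : Fin 2 → E) (l : E) (q' : Fin 2 → E) : Prop where
  lne : l ≠ 0
  eq : ∀ i, q i = l * g.mulVec q' i
  int : ∀ i, q' i ∈ W
  red : (fun i => res W (q' i)) ≠ 0

variable {F : Type} [Field F] {n D : ℕ} {c : Fin (n + 1) → Fin (D + 1) → F}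
  {V : ValuationSubring F}

theorem exists_prim2 {E : Type} [Field E] {W : ValuationSubring E}
    (hW : IsDiscreteValuationRing W) {g : Matrix (Fin 2) (Fin 2) E} (hg : g.det ≠ 0)
    {q : Fin 2 → E} (hq : q ≠ 0) : ∃ l q', Prim W g q l q' := by
  have hdet : IsUnit g.det := isUnit_iff_ne_zero.2 hg
  have hgz : g.mulVec (g⁻¹.mulVec q) = q := by
    rw [Matrix.mulVec_mulVec, Matrix.mul_nonsing_inv g hdet, Matrix.one_mulVec]
  have hz : g⁻¹.mulVec q ≠ 0 := by
    intro h0
    rw [h0, Matrix.mulVec_zero] at hgz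
    exact hq hgz.symm
  obtain ⟨a, w, ha, hzw, hw, ⟨j, hj⟩, -⟩ := exists_prim hW hz
  refine ⟨a, w, ha, fun i => ?_, hw, fun h0 => hj (congrFun h0 j)⟩
  have e : g⁻¹.mulVec q = a • w := funext fun j => hzw j
  conv_lhs => rw [← hgz, e, Matrix.mulVec_smul]
  rfl

theorem al_abv {E : Type} [Field E] [Algebra F E] {W : ValuationSubring E} {a : ℕ}
    {rh : ResidueField V →+* ResidueField W} (h : Abv F E V W a rh) {ι : Type} [Fintype ι]
    (z : ι → F) : al W (fun j => algebraMap F E (z j)) = a * al V z := by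
  by_cases hz : z = 0
  · subst hz
    have e : (fun j : ι => algebraMap F E ((0 : ι → F) j)) = 0 := by
      funext j
      exact map_zero _
    rw [e, al_zero, al_zero, mul_zero]
  · have hz' : (fun j => algebraMap F E (z j)) ≠ 0 := by
      intro h0
      apply hz
      funext j
      exact (map_eq_zero (algebraMap F E)).1 (congrFun h0 j)
    obtain ⟨j, hj, hj'⟩ := exists_al (V := V) hz
    apply le_antisymm
    · have h1 := al_le (V := W) (z := fun j => algebraMap F E (z j)) (j := j)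
        (fun h0 => hj ((map_eq_zero (algebraMap F E)).1 h0))
      refine h1.trans (le_of_eq ?_)
      rw [h.ram _ hj, hj']
    · refine le_al hz' fun i hi => ?_
      have hi' : z i ≠ 0 := fun h0 => hi (by rw [h0, map_zero])
      rw [h.ram _ hi']
      exact mul_le_mul_of_nonneg_left (al_le hi') (Int.natCast_nonneg a)

/-- The value of the scaled reduced tuple. -/
private theorem A5_val (M : GM c V) {q : Fin 2 → M.E} {l : M.E} {q' : Fin 2 → M.E}
    (h : Prim M.W M.g q l q') (i : Fin (n + 1)) :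
    ev (fun j => algebraMap F M.E (c i j)) q = (l ^ D * M.m⁻¹) *
      ev (fun j => M.m * act M.g (fun j => algebraMap F M.E (c i j)) j) q' := by
  have e : q = fun a => l * M.g.mulVec q' a := funext h.eq
  have hm := M.mne
  rw [ev_smul, ev_act]
  conv_lhs => rw [e, ev_scale]
  field_simp

private theorem A5_mem (M : GM c V) {q : Fin 2 → M.E} {l : M.E} {q' : Fin 2 → M.E}
    (h : Prim M.W M.g q l q') (i : Fin (n + 1)) :
    ev (fun j => M.m * act M.g (fun j => algebraMap F M.E (c i j)) j) q' ∈ M.W :=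
  ev_mem (M.int i) h.int

private theorem A5_res (M : GM c V) {q : Fin 2 → M.E} {l : M.E} {q' : Fin 2 → M.E}
    (h : Prim M.W M.g q l q') (i : Fin (n + 1)) :
    res M.W (ev (fun j => M.m * act M.g (fun j => algebraMap F M.E (c i j)) j) q') =
      ev (fun j => res M.W (M.m * act M.g (fun j => algebraMap F M.E (c i j)) j))
        (fun a => res M.W (q' a)) :=
  res_ev (M.int i) h.int

private theorem A5_ex (M : GM c V) {q : Fin 2 → M.E} {l : M.E} {q' : Fin 2 → M.E}
    (h : Prim M.W M.g q l q') :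
    ∃ i, res M.W (ev (fun j => M.m * act M.g (fun j => algebraMap F M.E (c i j)) j) q') ≠ 0 := by
  obtain ⟨i, hi⟩ := BPF.ev_ne M.red h.red
  refine ⟨i, ?_⟩
  rw [A5_res M h i]
  exact hi

/-- The order of the value of the tuple, over `E`. -/
theorem al_pt (M : GM c V) {q : Fin 2 → M.E} {l : M.E} {q' : Fin 2 → M.E}
    (h : Prim M.W M.g q l q') :
    al M.W (fun i => ev (fun j => algebraMap F M.E (c i j)) q) = D * ord M.W l - ord M.W M.m := by
  have hW := M.abv.dvr
  obtain ⟨i₁, hi₁⟩ := A5_ex M h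
  have hw1 : ev (fun j => M.m * act M.g (fun j => algebraMap F M.E (c i₁ j)) j) q' ≠ 0 := by
    intro h0
    rw [h0, res_zero] at hi₁
    exact hi₁ rfl
  have hs : l ^ D * M.m⁻¹ ≠ 0 := mul_ne_zero (pow_ne_zero _ h.lne) (inv_ne_zero M.mne)
  have e : (fun i => ev (fun j => algebraMap F M.E (c i j)) q) = fun i => (l ^ D * M.m⁻¹) *
      (fun i => ev (fun j => M.m * act M.g (fun j => algebraMap F M.E (c i j)) j) q') i :=
    funext (A5_val M h)
  rw [e, al_smul hW (fun h0 => hw1 (congrFun h0 i₁)) hs, al_eq_zero hW (A5_mem M h) ⟨i₁, hi₁⟩,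
    ord_mul hW (pow_ne_zero _ h.lne) (inv_ne_zero M.mne), ord_pow hW h.lne, ord_inv hW M.mne]
  ring

/-- The value of the reduced tuple at the reduced parameter is the reduction of the point. -/
theorem rd_pt (M : GM c V) {q : Fin 2 → F} {l : M.E} {q' : Fin 2 → M.E} (hq : q ≠ 0)
    (hb : BPF c) (h : Prim M.W M.g (fun a => algebraMap F M.E (q a)) l q') :
    Pr (fun i => M.rh (rd V (fun i => ev (c i) q) i))
      (fun i => ev (fun j => res M.W (M.m * act M.g (fun j => algebraMap F M.E (c i j)) j))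
        (fun a => res M.W (q' a))) := by
  have hW := M.abv.dvr
  have hz : (fun i => ev (c i) q) ≠ 0 := by
    obtain ⟨i, hi⟩ := hb.ev_ne hq
    exact fun h0 => hi (congrFun h0 i)
  have hex := exists_al (V := V) hz
  obtain ⟨j₀, hj₀, hj₀'⟩ : ∃ j₀, j₀ = hex.choose ∧ (ev (c j₀) q ≠ 0 ∧
      ord V (ev (c j₀) q) = al V (fun i => ev (c i) q)) := ⟨_, rfl, hex.choose_spec⟩
  have hrd : ∀ i, rd V (fun i => ev (c i) q) i = res V (ev (c i) q / ev (c j₀) q) := by
    intro i
    unfold rd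
    rw [dif_pos hex, ← hj₀]
  obtain ⟨i₁, hi₁⟩ := A5_ex M h
  -- the values in `E`
  have hval : ∀ i, algebraMap F M.E (ev (c i) q) = (l ^ D * M.m⁻¹) *
      ev (fun j => M.m * act M.g (fun j => algebraMap F M.E (c i j)) j) q' := by
    intro i
    rw [← A5_val M h i]
    exact ev_map (algebraMap F M.E) (c i) q
  have hs : l ^ D * M.m⁻¹ ≠ 0 := mul_ne_zero (pow_ne_zero _ h.lne) (inv_ne_zero M.mne)
  obtain ⟨w, hw⟩ : ∃ w : Fin (n + 1) → M.E, ∀ i, w i =
      ev (fun j => M.m * act M.g (fun j => algebraMap F M.E (c i j)) j) q' := ⟨_, fun _ => rfl⟩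
  have hval' : ∀ i, algebraMap F M.E (ev (c i) q) = (l ^ D * M.m⁻¹) * w i := fun i => by
    rw [hval, hw]
  have hwm : ∀ i, w i ∈ M.W := fun i => by
    rw [hw]
    exact A5_mem M h i
  have hwr : ∀ i, res M.W (w i) =
      ev (fun j => res M.W (M.m * act M.g (fun j => algebraMap F M.E (c i j)) j))
        (fun a => res M.W (q' a)) := fun i => by
    rw [hw]
    exact A5_res M h i
  rw [← hw] at hi₁
  have hw1 : w i₁ ≠ 0 := by
    intro h0
    rw [h0, res_zero] at hi₁
    exact hi₁ rfl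
  have hz1 : ev (c i₁) q ≠ 0 := by
    intro h0
    have h1 := hval' i₁
    rw [h0, map_zero] at h1
    exact mul_ne_zero hs hw1 h1.symm
  have ho1 : ord M.W (w i₁) = 0 :=
    (ord_eq_zero_iff hW hw1).2 ((res_ne_zero_iff (hwm i₁)).1 hi₁)
  have hw0 : w j₀ ≠ 0 := by
    intro h0
    have h1 := hval' j₀
    rw [h0, mul_zero] at h1
    exact hj₀'.1 ((map_eq_zero (algebraMap F M.E)).1 h1)
  have hord : ∀ i, ev (c i) q ≠ 0 → w i ≠ 0 →
      (M.a : ℤ) * ord V (ev (c i) q) = ord M.W (l ^ D * M.m⁻¹) + ord M.W (w i) := by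
    intro i hi hi'
    rw [← M.abv.ram _ hi, hval', ord_mul hW hs hi']
  have ha0 : (0 : ℤ) ≤ M.a := Int.natCast_nonneg _
  have ho0 : ord M.W (w j₀) = 0 := by
    apply le_antisymm
    · have h1 : ord V (ev (c j₀) q) ≤ ord V (ev (c i₁) q) := by
        rw [hj₀'.2]
        exact al_le (V := V) (z := fun i => ev (c i) q) hz1
      have h2 := mul_le_mul_of_nonneg_left h1 ha0
      rw [hord j₀ hj₀'.1 hw0, hord i₁ hz1 hw1, ho1] at h2
      linarith
    · exact (ord_nonneg_iff hW hw0).2 (hwm j₀)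
  have hu0 : M.W.valuation (w j₀) = 1 := (ord_eq_zero_iff hW hw0).1 ho0
  have hdiv : ∀ i, algebraMap F M.E (ev (c i) q / ev (c j₀) q) = w i / w j₀ := by
    intro i
    rw [map_div₀, hval', hval', mul_div_mul_left _ _ hs]
  have hmemW : ∀ i, w i / w j₀ ∈ M.W := by
    intro i
    rw [div_eq_mul_inv]
    exact mul_mem (hwm i) (mem_of_val_one (by rw [map_inv₀, hu0, inv_one]))
  have hmemV : ∀ i, ev (c i) q / ev (c j₀) q ∈ V := by
    intro i
    rw [← M.abv.com]
    change algebraMap F M.E (ev (c i) q / ev (c j₀) q) ∈ M.W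
    rw [hdiv]
    exact hmemW i
  refine ⟨res M.W (w j₀), (res_ne_zero_iff (hwm j₀)).2 hu0, fun i => ?_⟩
  dsimp only
  rw [← hwr i, hrd i, M.abv.hom _ (hmemV i), hdiv, res_div (hwm i) hu0]
  have h0 : res M.W (w j₀) ≠ 0 := (res_ne_zero_iff (hwm j₀)).2 hu0
  field_simp

theorem wd_prim {E : Type} [Field E] {W : ValuationSubring E} {g : Matrix (Fin 2) (Fin 2) E}
    {q r : Fin 2 → E} {l m : E} {q' r' : Fin 2 → E} (hq : Prim W g q l q') (hr : Prim W g r m r') :
    wd q r = l * m * g.det * wd q' r' := by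
  have e1 : q = fun a => l * g.mulVec q' a := funext hq.eq
  have e2 : r = fun a => m * g.mulVec r' a := funext hr.eq
  have e3 := wd_mulVec g q' r'
  unfold wd at e3 ⊢
  rw [e1, e2]
  dsimp only
  linear_combination (l * m) * e3

end Pool.Agent.Lib.MP_1e3e9c_agU
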