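import Mathlib
import Pool.Agent.Lib.MP_1e3e9c_agU.C10

/-!
# MP_1e3e9c_ag, project U, leaf F7: height zero on a generic curve

`Ω = GF F (Unit × Bool × ι)`, `C = gc F _`, `β = fun _ => y`, `κ = cb K C β {i | i ∈ [()]}`
(`= K(C)(u)`), `FF κ 1` (`FF_cb`, from `XX K [y, y] > 0`). `0 = XX K [z, y] = ht κ (up z)` (`XX_perm`,
`XX_ht`), so `Con κ (up z)` (`ht_eq_zero_iff`): every quotient `x = z_i / z_j ∈ F` is algebraic over
`κ = K(C)(u)`. Suppose such an `x` is not algebraic over `K`. Let `K₂ = K(x)`: `FF K₂ 1`. `cut_dich`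
for `K₂`, the point `y`: either `FF (cb K₂ C β univ) 0`: but `cb K₂ C β univ = κ(x)` is algebraic over
`κ`, so `trdeg Ω / κ(x)` is `1`, not `0`. Or `Con K₂ y`: all quotients `y_i / y_j` are algebraic over
`K(x)`, so over `κ`: `Con κ (up y)`, so `XX κ [up y] = 0` (`XX_con`); but this is `XX K [y, y] > 0`
(`XX_tower`).
-/

set_option autoImplicit false

namespace Pool.Agent.Lib.MP_1e3e9c_agU

open IsLocalRing Pool.Agent.Lib.MP_b197b4_ntK

/-- A field generated by a set is algebraic over the ring generated by the set. -/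
private lemma F7_alg {A B : Type} [Field A] [Field B] [Algebra A B] {S : Set B}
    (h : IntermediateField.adjoin A S = ⊤) : Algebra.IsAlgebraic (Algebra.adjoin A S) B := by
  refine ⟨fun b => ?_⟩
  have hb : b ∈ IntermediateField.adjoin A S := by
    rw [h]
    exact IntermediateField.mem_top
  induction hb using IntermediateField.adjoin_induction with
  | mem x hx =>
    exact isAlgebraic_algebraMap (⟨x, Algebra.subset_adjoin hx⟩ : Algebra.adjoin A S)
  | algebraMap x =>
    exact isAlgebraic_algebraMap (algebraMap A (Algebra.adjoin A S) x)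
  | add x y _ _ hx hy => exact hx.add hy
  | inv x _ hx => exact hx.inv
  | mul x y _ _ hx hy => exact hx.mul hy

/-- The transcendence degrees in a tower `A ⊆ B = A(x) ⊆ Ω`. -/
private lemma F7_gen {A Ω I : Type} [Field A] [Field Ω] [Algebra A Ω] [Finite I] (x : I → Ω)
    (B : Subfield Ω) (hB : B = Subfield.closure (Set.range (algebraMap A Ω) ∪ Set.range x))
    (hi : AlgebraicIndependent A x) : Algebra.trdeg A Ω = Cardinal.mk I + Algebra.trdeg B Ω := by
  have hA : ∀ a : A, algebraMap A Ω a ∈ B := fun a => by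
    rw [hB]
    exact Subfield.subset_closure (Or.inl ⟨a, rfl⟩)
  have hx : ∀ i, x i ∈ B := fun i => by
    rw [hB]
    exact Subfield.subset_closure (Or.inr ⟨i, rfl⟩)
  let _ : Algebra A B := ((algebraMap A Ω).codRestrict B.toSubring hA).toAlgebra
  have _ : IsScalarTower A B Ω := IsScalarTower.of_algebraMap_eq fun a => rfl
  have _ : FaithfulSMul A B :=
    (faithfulSMul_iff_algebraMap_injective A B).2 (algebraMap A B).injective
  let x' : I → B := fun i => ⟨x i, hx i⟩
  have htop : IntermediateField.adjoin A (Set.range x') = ⊤ := by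
    rw [eq_top_iff]
    intro b _
    have key : ∀ (z : Ω) (hz : z ∈ B), (⟨z, hz⟩ : B) ∈ IntermediateField.adjoin A (Set.range x') := by
      have h1 : B ≤ ((IntermediateField.adjoin A (Set.range x')).toSubfield).map B.subtype := by
        intro z hz
        rw [hB] at hz
        refine Subfield.closure_le.2 ?_ hz
        rintro w (⟨a, rfl⟩ | ⟨i, rfl⟩)
        · exact ⟨algebraMap A B a, IntermediateField.algebraMap_mem _ a, rfl⟩
        · exact ⟨x' i, IntermediateField.subset_adjoin A _ ⟨i, rfl⟩, rfl⟩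
      intro z hz
      obtain ⟨y, hy, hyz⟩ := h1 hz
      have h2 : y = ⟨z, hz⟩ := Subtype.ext hyz
      rw [← h2]
      exact hy
    exact key b.1 b.2
  have halg : Algebra.IsAlgebraic (Algebra.adjoin A (Set.range x')) B := F7_alg htop
  have htow : Algebra.trdeg A B + Algebra.trdeg B Ω = Algebra.trdeg A Ω := trdeg_add_eq A B
  have hcomp : (IsScalarTower.toAlgHom A B Ω) ∘ x' = x := rfl
  have h1 : AlgebraicIndependent A x' := by
    refine AlgebraicIndependent.of_comp (IsScalarTower.toAlgHom A B Ω) ?_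
    rw [hcomp]
    exact hi
  have h2 : IsTranscendenceBasis A x' := h1.isTranscendenceBasis_iff_isAlgebraic.2 halg
  rw [← htow, h2.cardinalMk_eq_trdeg]

/-- A larger base field. -/
private lemma F7_mono {Ω : Type} [Field Ω] {S T : Subfield Ω} (h : S ≤ T) {a : Ω}
    (ha : IsAlgebraic S a) : IsAlgebraic T a := by
  obtain ⟨p, hp0, hp⟩ := ha
  refine ⟨p.map (Subfield.inclusion h), (Polynomial.map_ne_zero_iff
    (Subfield.inclusion h).injective).2 hp0, ?_⟩
  rw [Polynomial.aeval_def, Polynomial.eval₂_map]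
  exact hp

/-- Transitivity: `a` is algebraic over `T`, which is generated by elements algebraic over `S`. -/
private lemma F7_trans {Ω : Type} [Field Ω] {S : Subfield Ω} {G : Set Ω}
    (hG : ∀ g ∈ G, IsAlgebraic S g) {a : Ω} (ha : IsAlgebraic (Subfield.closure G) a) :
    IsAlgebraic S a := by
  have h1 : Subfield.closure G ≤ (algebraicClosure S Ω).toSubfield := by
    rw [Subfield.closure_le]
    intro g hg
    exact mem_algebraicClosure_iff.2 (hG g hg)
  have h2 : IsAlgebraic (algebraicClosure S Ω).toSubfield a := F7_mono h1 ha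
  have h3 : IsAlgebraic (algebraicClosure S Ω) a := h2
  exact h3.restrictScalars S

/-- The image under the embedding `F → Ω`. -/
private lemma F7_up {F Ω : Type} [Field F] [Field Ω] [Algebra F Ω] {K : Subfield F} {M : Subfield Ω}
    (h : ∀ a ∈ K, algebraMap F Ω a ∈ M) {x : F} (hx : IsAlgebraic K x) :
    IsAlgebraic M (algebraMap F Ω x) := by
  obtain ⟨p, hp0, hp⟩ := hx
  let φ : K →+* M := ((algebraMap F Ω).comp K.subtype).codRestrict M.toSubring (fun a => h a.1 a.2)
  refine ⟨p.map φ, (Polynomial.map_ne_zero_iff φ.injective).2 hp0, ?_⟩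
  have h1 : Polynomial.aeval (algebraMap F Ω x) (p.map φ) = algebraMap F Ω (Polynomial.aeval x p) := by
    rw [Polynomial.aeval_def, Polynomial.eval₂_map, Polynomial.aeval_def, Polynomial.hom_eval₂]
    rfl
  rw [h1, hp, map_zero]

variable {F ι : Type} [Field F] [CharZero F] [Fintype ι] {K : Subfield F}

theorem con_of_XX_zero (hF : FF K 2) {y z : ι → F} (hy : y ≠ 0) (hz : z ≠ 0)
    (hpos : 0 < XX K [y, y]) (h0 : XX K [y, z] = 0) : Con K z := by
  have hC := gn_gc F (Unit × Bool × ι)
  set C := gc F (Unit × Bool × ι) with hCdef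
  set β : Unit → ι → F := fun _ => y with hβ
  set κ := cb K C β {i | i ∈ [()]} with hκ
  have hnd : [()].Nodup := List.nodup_singleton ()
  have h1 : FF κ 1 := FF_cb hC β [()] hnd hF [y] rfl hpos
  have h2 : ht κ (up (GF F (Unit × Bool × ι)) z) = 0 := by
    rw [← XX_ht hC β [()] hnd h1 hz]
    have : XX K (z :: [()].map β) = XX K [y, z] := XX_perm K (List.Perm.swap y z [])
    rw [this, h0]
    rfl
  have hup : ∀ {w : ι → F}, w ≠ 0 → up (GF F (Unit × Bool × ι)) w ≠ 0 := by
    intro w hw h
    apply hw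
    funext j
    have h3 := congrFun h j
    exact (map_eq_zero (algebraMap F (GF F (Unit × Bool × ι)))).1 h3
  have h3 : Con κ (up (GF F (Unit × Bool × ι)) z) := (ht_eq_zero_iff h1 (hup hz)).1 h2
  intro i j hj
  by_contra hx
  set x : F := z i / z j with hxd
  have hxa : IsAlgebraic κ (algebraMap F (GF F (Unit × Bool × ι)) x) := by
    have h4 := h3 i j (fun h => hj ((map_eq_zero (algebraMap F (GF F (Unit × Bool × ι)))).1 h))
    have h5 : algebraMap F (GF F (Unit × Bool × ι)) x =
        up (GF F (Unit × Bool × ι)) z i / up (GF F (Unit × Bool × ι)) z j := map_div₀ _ _ _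
    rw [h5]
    exact h4
  -- the field `K(x)`
  set K₂ : Subfield F := Subfield.closure (Set.range (algebraMap K F) ∪ Set.range (fun _ : Unit => x))
    with hK₂
  have hK : K ≤ K₂ := fun a ha => Subfield.subset_closure (Or.inl ⟨⟨a, ha⟩, rfl⟩)
  have hF₂ : FF K₂ 1 := by
    constructor
    · obtain ⟨t, ht⟩ := hF.1
      refine ⟨t, ?_⟩
      rw [eq_top_iff]
      intro a _
      have ha : a ∈ IntermediateField.adjoin K (t : Set F) := by
        rw [ht]
        exact IntermediateField.mem_top
      induction ha using IntermediateField.adjoin_induction with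
      | mem b hb => exact IntermediateField.subset_adjoin _ _ hb
      | algebraMap b =>
        exact (IntermediateField.adjoin K₂ (t : Set F)).algebraMap_mem (⟨b.1, hK b.2⟩ : K₂)
      | add b c _ _ hb hc => exact IntermediateField.add_mem _ (hb trivial) (hc trivial)
      | inv b _ hb => exact IntermediateField.inv_mem _ (hb trivial)
      | mul b c _ _ hb hc => exact IntermediateField.mul_mem _ (hb trivial) (hc trivial)
    · have hi : AlgebraicIndependent K (fun _ : Unit => x) :=
        algebraicIndependent_unique_type_iff.2 hx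
      have h4 := F7_gen (fun _ : Unit => x) K₂ rfl hi
      rw [hF.2, Cardinal.mk_fintype, Fintype.card_unit] at h4
      have h5 : ((1 : ℕ) : Cardinal) + Algebra.trdeg K₂ F = ((1 : ℕ) : Cardinal) + ((1 : ℕ) : Cardinal) := by
        rw [← h4]
        norm_num
      exact Cardinal.eq_of_add_eq_add_left h5 Cardinal.natCast_lt_aleph0
  -- elements of `K(x)` are algebraic over `κ`
  have hKκ : ∀ a ∈ K, algebraMap F (GF F (Unit × Bool × ι)) a ∈ κ := fun a ha =>
    Subfield.subset_closure (Or.inl (Or.inl ⟨a, ha, rfl⟩))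
  have hK₂κ : ∀ a ∈ K₂, IsAlgebraic κ (algebraMap F (GF F (Unit × Bool × ι)) a) := by
    intro a ha
    have h4 : K₂ ≤ ((algebraicClosure κ (GF F (Unit × Bool × ι))).toSubfield).comap
        (algebraMap F (GF F (Unit × Bool × ι))) := by
      rw [hK₂, Subfield.closure_le]
      rintro b (⟨c, rfl⟩ | ⟨c, rfl⟩)
      · exact mem_algebraicClosure_iff.2 (isAlgebraic_algebraMap (⟨_, hKκ c.1 c.2⟩ : κ))
      · exact mem_algebraicClosure_iff.2 hxa
    exact mem_algebraicClosure_iff.1 (h4 ha)
  rcases cut_dich hF₂ hC hy with h4 | h4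
  · -- `y` is constant over `K(x)`, so over `κ`
    have h5 : Con κ (up (GF F (Unit × Bool × ι)) y) := by
      intro a b hb
      have hb' : y b ≠ 0 := fun h => hb (by
        show algebraMap F (GF F (Unit × Bool × ι)) (y b) = 0
        rw [h, map_zero])
      have h6 := h4 a b hb'
      have h7 : up (GF F (Unit × Bool × ι)) y a / up (GF F (Unit × Bool × ι)) y b =
          algebraMap F (GF F (Unit × Bool × ι)) (y a / y b) := (map_div₀ _ _ _).symm
      rw [h7]
      have h8 : ∀ c ∈ K₂, algebraMap F (GF F (Unit × Bool × ι)) c ∈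
          Subfield.closure (algebraMap F (GF F (Unit × Bool × ι)) '' (K₂ : Set F)) :=
        fun c hc => Subfield.subset_closure (Set.mem_image_of_mem _ hc)
      refine F7_trans (G := algebraMap F (GF F (Unit × Bool × ι)) '' (K₂ : Set F)) ?_ (F7_up h8 h6)
      rintro g ⟨c, hc, rfl⟩
      exact hK₂κ c hc
    have h6 := XX_con (K := κ) [] h1 h5
    have h7 := XX_tower K hC β [()] hnd [y]
    have h8 : XX K ([y] ++ [()].map β) = 0 := by
      rw [← h7]
      exact h6
    exact hpos.ne' h8
  · -- `κ(x)` is algebraic over `κ`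
    have h5 : Algebra.IsAlgebraic (cb K₂ C (fun _ : Unit => y) Set.univ) (GF F (Unit × Bool × ι)) := by
      have h6 := h4.2
      rw [Nat.cast_zero] at h6
      exact trdeg_eq_zero_iff.1 h6
    have h6 : Algebra.IsAlgebraic κ (GF F (Unit × Bool × ι)) := by
      refine ⟨fun a => ?_⟩
      refine F7_trans ?_ (h5.isAlgebraic a)
      rintro g ((⟨c, hc, rfl⟩ | ⟨q, rfl⟩) | ⟨q, _, rfl⟩)
      · exact hK₂κ c hc
      · have hm : C q ∈ κ := Subfield.subset_closure (Or.inl (Or.inr ⟨q, rfl⟩))
        exact isAlgebraic_algebraMap (⟨C q, hm⟩ : κ)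
      · have hq : q ∈ {i : Unit | i ∈ [()]} := List.mem_singleton.2 rfl
        have hm : gu C β q ∈ κ := Subfield.subset_closure (Or.inr ⟨q, hq, rfl⟩)
        exact isAlgebraic_algebraMap (⟨gu C β q, hm⟩ : κ)
    have h7 := h1.2
    rw [trdeg_eq_zero_iff.2 h6] at h7
    norm_num at h7

end Pool.Agent.Lib.MP_1e3e9c_agU
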