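import Mathlib
import Pool.Agent.Lib.MP_1e3e9c_agU.C6

/-!
# MP_1e3e9c_ag, project U, leaf D1: many functions with small poles (lower bound)

`F/K` is a function field of two variables, `z` a point. `Ω = F(C)`, `C : Bool × Bool × ι → Ω`
generic, `K₁ = K(C)` (`cb K C _ ∅`); `Y_p = ∑ C_(p,j) z_j` for `p : Bool × Bool`,
`Y₀ = Y_(0,1)`, `Y₁ = Y_(0,0)`, `Y₂ = Y_(1,0)`. `w = up z / Y₀`, `s₁ = Y₁/Y₀`, `s₂ = Y₂/Y₀`.
(1) `[Ω : K₁(s₁, s₂)] = XX K [z, z]`: assume `XX K [z,z] > 0` (otherwise take `L = 0`).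
`XX K [z, z] = XX κ₁ [up z]` with `κ₁ = cb K C β {0} = K₁(s₁)` on `Ω` (`XX_tower`, `FF_cb`), `= ht κ₁ (up z)`
(`XX_one`). Let `Ω₁ = F(C_(0,·,·)) ⊆ Ω` and `κ₁' = K(C_(0,·,·))(s₁)`: `Ω = Ω₁(C_(1,·,·))`;
`gen_degree` for `Ω₁/κ₁'`, `y = Y₀ ∈ Ω₁` (`al V z ≤ ord V Y₀`: the `C` are units or `0`):
`[Ω : κ₁(Y₂/Y₀)] = ht κ₁' (up z)`, and this is `ht κ₁ (up z)` by `ht_pure`.
(2) Let `X = XX K [z,z]` and `e_1..e_X` a basis of `Ω` over `K₁(s₁,s₂)`, after multiplication by
elements of `K₁[s₁,s₂]` integral over `K₁[s₁, s₂]`: `e^N + ∑ a_l(s₁,s₂) e^(N-l) = 0`. Let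
`q₀ ≥ deg a_l / l` for all of them. Let `V` be a discrete valuation ring over `K₁` and
`r = -al V w ≥ 0` (some linear combination of the `w_j` over `K₁` is `1`): `ord V s_i ≥ -r`, so
`ord V (a_l(s)) ≥ -r q₀ l`, so `ord V e ≥ -r q₀` (if `ord V e < -r q₀` the term `e^N` has strictly
smaller order than the others).
(3) `L` = the `K₁`-span of the `e_j s₁^a s₂^b`, `a + b ≤ q - q₀`: `X (q-q₀+1)(q-q₀+2)/2` linearly
independent elements of order `≥ -r (q₀ + a + b) ≥ -r q`.
-/

set_option autoImplicit false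

namespace Pool.Agent.Lib.MP_1e3e9c_agU

open IsLocalRing Pool.Agent.Lib.MP_b197b4_ntK

variable {F ι Ω : Type} [Field F] [CharZero F] [Fintype ι] [Field Ω] [Algebra F Ω]
  {K : Subfield F}

/-- Elements whose poles are at most `d` times those of `s₁`, `s₂`. -/
private def D1Bd (K₁ : Subfield Ω) (s₁ s₂ : Ω) (d : ℕ) (x : Ω) : Prop :=
  x ≠ 0 → ∀ V, Dv K₁ V → ∀ r : ℤ, 0 ≤ r → (s₁ ≠ 0 → -r ≤ ord V s₁) →
    (s₂ ≠ 0 → -r ≤ ord V s₂) → -(r * d) ≤ ord V x

private theorem D1Bd_zero (K₁ : Subfield Ω) (s₁ s₂ : Ω) (d : ℕ) : D1Bd K₁ s₁ s₂ d 0 :=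
  fun h => absurd rfl h

private theorem D1Bd_mono {K₁ : Subfield Ω} {s₁ s₂ : Ω} {d d' : ℕ} (h : d ≤ d') {x : Ω}
    (hx : D1Bd K₁ s₁ s₂ d x) : D1Bd K₁ s₁ s₂ d' x := by
  intro h0 V hV r hr h1 h2
  have h3 := hx h0 V hV r hr h1 h2
  have h4 : (r * d : ℤ) ≤ r * d' := mul_le_mul_of_nonneg_left (by exact_mod_cast h) hr
  linarith

private theorem D1Bd_add {K₁ : Subfield Ω} {s₁ s₂ : Ω} {d : ℕ} {x y : Ω}
    (hx : D1Bd K₁ s₁ s₂ d x) (hy : D1Bd K₁ s₁ s₂ d y) : D1Bd K₁ s₁ s₂ d (x + y) := by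
  intro h0 V hV r hr h1 h2
  exact le_ord_add hV.1 (fun h => hx h V hV r hr h1 h2) (fun h => hy h V hV r hr h1 h2) h0

private theorem D1Bd_mul {K₁ : Subfield Ω} {s₁ s₂ : Ω} {d d' : ℕ} {x y : Ω}
    (hx : D1Bd K₁ s₁ s₂ d x) (hy : D1Bd K₁ s₁ s₂ d' y) : D1Bd K₁ s₁ s₂ (d + d') (x * y) := by
  intro h0 V hV r hr h1 h2
  have hx0 : x ≠ 0 := left_ne_zero_of_mul h0
  have hy0 : y ≠ 0 := right_ne_zero_of_mul h0
  have h3 := hx hx0 V hV r hr h1 h2
  have h4 := hy hy0 V hV r hr h1 h2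
  rw [ord_mul hV.1 hx0 hy0]
  push_cast
  linarith

private theorem D1Bd_const {K₁ : Subfield Ω} (s₁ s₂ : Ω) {x : Ω} (hx : x ∈ K₁) :
    D1Bd K₁ s₁ s₂ 0 x := by
  intro h0 V hV r hr h1 h2
  have h3 := (ord_nonneg_iff hV.1 h0).2 (hV.2 x hx)
  push_cast
  linarith

private theorem D1Bd_fst (K₁ : Subfield Ω) (s₁ s₂ : Ω) : D1Bd K₁ s₁ s₂ 1 s₁ := by
  intro h0 V hV r hr h1 h2
  have h3 := h1 h0
  push_cast
  linarith

private theorem D1Bd_snd (K₁ : Subfield Ω) (s₁ s₂ : Ω) : D1Bd K₁ s₁ s₂ 1 s₂ := by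
  intro h0 V hV r hr h1 h2
  have h3 := h2 h0
  push_cast
  linarith

private theorem D1Bd_pow {K₁ : Subfield Ω} {s₁ s₂ : Ω} {x : Ω}
    (hx : D1Bd K₁ s₁ s₂ 1 x) (n : ℕ) : D1Bd K₁ s₁ s₂ n (x ^ n) := by
  induction n with
  | zero => rw [pow_zero]; exact D1Bd_const s₁ s₂ K₁.one_mem
  | succ n ih => rw [pow_succ]; exact D1Bd_mul ih hx

private theorem D1Bd_adjoin {K₁ : Subfield Ω} {s₁ s₂ : Ω} {x : Ω}
    (hx : x ∈ Algebra.adjoin K₁ {s₁, s₂}) : ∃ d, D1Bd K₁ s₁ s₂ d x := by
  induction hx using Algebra.adjoin_induction with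
  | mem x hx =>
    rcases hx with rfl | hx
    · exact ⟨1, D1Bd_fst _ _ _⟩
    · rw [Set.mem_singleton_iff] at hx
      subst hx
      exact ⟨1, D1Bd_snd _ _ _⟩
  | algebraMap c => exact ⟨0, D1Bd_const s₁ s₂ c.2⟩
  | add x y _ _ hx hy =>
    obtain ⟨d, hd⟩ := hx
    obtain ⟨e, he⟩ := hy
    exact ⟨max d e, D1Bd_add (D1Bd_mono (le_max_left _ _) hd) (D1Bd_mono (le_max_right _ _) he)⟩
  | mul x y _ _ hx hy =>
    obtain ⟨d, hd⟩ := hx
    obtain ⟨e, he⟩ := hy
    exact ⟨d + e, D1Bd_mul hd he⟩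

private theorem D1Bd_int {K₁ : Subfield Ω} {s₁ s₂ : Ω} {q₀ : ℕ} {A : Subalgebra K₁ Ω}
    {p : Polynomial A} (hp : p.Monic) (hc : ∀ i, D1Bd K₁ s₁ s₂ q₀ (p.coeff i : Ω)) {e : Ω}
    (he : Polynomial.aeval e p = 0) : D1Bd K₁ s₁ s₂ q₀ e := by
  intro h0 V hV r hr h1 h2
  by_contra hlt
  push Not at hlt
  have hq : (0 : ℤ) ≤ r * q₀ := mul_nonneg hr (by positivity)
  have hsum : e ^ p.natDegree = ∑ i ∈ Finset.range p.natDegree, (-(p.coeff i : Ω)) * e ^ i := by
    have h3 := he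
    rw [Polynomial.aeval_eq_sum_range, Finset.sum_range_succ, hp.coeff_natDegree, one_smul] at h3
    have h4 : ∑ i ∈ Finset.range p.natDegree, (-(p.coeff i : Ω)) * e ^ i =
        -∑ i ∈ Finset.range p.natDegree, p.coeff i • e ^ i := by
      rw [← Finset.sum_neg_distrib]
      refine Finset.sum_congr rfl fun i _ => ?_
      rw [neg_mul]
      rfl
    rw [h4]
    exact eq_neg_of_add_eq_zero_right h3
  have hne : e ^ p.natDegree ≠ 0 := pow_ne_zero _ h0
  have hord : ord V (e ^ p.natDegree) = p.natDegree * ord V e := ord_pow hV.1 h0 _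
  have hle : (p.natDegree : ℤ) * ord V e + 1 ≤ ord V (e ^ p.natDegree) := by
    rw [hsum] at hne ⊢
    refine le_ord_sum hV.1 _ _ ?_ hne
    intro i hi hi0
    have hi' : i + 1 ≤ p.natDegree := Finset.mem_range.1 hi
    have hc0 : -(p.coeff i : Ω) ≠ 0 := left_ne_zero_of_mul hi0
    have hb : D1Bd K₁ s₁ s₂ (0 + q₀) (-(p.coeff i : Ω)) := by
      have h5 := D1Bd_mul (D1Bd_const s₁ s₂ (K₁.neg_mem K₁.one_mem)) (hc i)
      rwa [neg_one_mul] at h5
    rw [zero_add] at hb
    have h6 := hb hc0 V hV r hr h1 h2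
    rw [ord_mul hV.1 hc0 (pow_ne_zero _ h0), ord_pow hV.1 h0]
    have h7 : (p.natDegree : ℤ) * ord V e ≤ ((i : ℤ) + 1) * ord V e := by
      apply mul_le_mul_of_nonpos_right
      · exact_mod_cast hi'
      · linarith
    linarith
  rw [hord] at hle
  linarith

private theorem D1_sum (m : ℕ) : 2 * ∑ i ∈ Finset.range (m + 1), (i + 1) = (m + 1) * (m + 2) := by
  induction m with
  | zero => rfl
  | succ m ih => rw [Finset.sum_range_succ, mul_add, ih]; ring


private theorem D1_mon {K₁ : Subfield Ω} {s₁ s₂ : Ω} (hs : AlgebraicIndependent K₁ ![s₁, s₂])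
    (m : ℕ) : LinearIndependent K₁ (fun p : (Σ n : Fin (m + 1), Fin ((n : ℕ) + 1)) =>
      s₁ ^ (p.2 : ℕ) * s₂ ^ ((p.1 : ℕ) - (p.2 : ℕ))) := by
  have h3 : LinearIndependent K₁ (fun m : Fin 2 →₀ ℕ =>
      MvPolynomial.aeval ![s₁, s₂] (MvPolynomial.monomial m (1 : K₁))) := by
    have h4 := (MvPolynomial.basisMonomials (Fin 2) K₁).linearIndependent
    have h5 := h4.map' (MvPolynomial.aeval (R := K₁) ![s₁, s₂]).toLinearMap
      (LinearMap.ker_eq_bot.2 hs)
    rw [MvPolynomial.coe_basisMonomials] at h5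
    exact h5
  let f : (Σ n : Fin (m + 1), Fin ((n : ℕ) + 1)) → (Fin 2 →₀ ℕ) := fun p =>
    Finsupp.equivFunOnFinite.symm ![(p.2 : ℕ), (p.1 : ℕ) - (p.2 : ℕ)]
  have hf : Function.Injective f := by
    rintro ⟨n, i⟩ ⟨n', i'⟩ h
    have h6 : (i : ℕ) = i' := DFunLike.congr_fun h 0
    have h7 : (n : ℕ) - (i : ℕ) = (n' : ℕ) - (i' : ℕ) := DFunLike.congr_fun h 1
    have h8 : n = n' := by
      apply Fin.ext
      have := i.2
      have := i'.2
      omega
    subst h8
    have h9 : i = i' := Fin.ext h6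
    rw [h9]
  have h10 := h3.comp f hf
  have h11 : (fun p : (Σ n : Fin (m + 1), Fin ((n : ℕ) + 1)) =>
      s₁ ^ (p.2 : ℕ) * s₂ ^ ((p.1 : ℕ) - (p.2 : ℕ))) =
      (fun m : Fin 2 →₀ ℕ =>
        MvPolynomial.aeval ![s₁, s₂] (MvPolynomial.monomial m (1 : K₁))) ∘ f := by
    funext p
    simp only [Function.comp_apply, MvPolynomial.aeval_monomial, map_one, one_mul]
    rw [Finsupp.prod_fintype _ _ (fun i => pow_zero _), Fin.prod_univ_two]
    rfl
  rw [h11]
  exact h10


private theorem D1_prod {K₁ : Subfield Ω} {E : IntermediateField K₁ Ω} {τ S : Type} {m : τ → Ω}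
    (hmE : ∀ i, m i ∈ E) (hm : LinearIndependent K₁ m) {b : S → Ω} (hb : LinearIndependent E b) :
    LinearIndependent K₁ (fun p : τ × S => m p.1 * b p.2) := by
  have h1 : LinearIndependent K₁ (fun i => (⟨m i, hmE i⟩ : E)) :=
    LinearIndependent.of_comp E.val.toLinearMap hm
  exact linearIndependent_smul h1 hb

open scoped IntermediateField.algebraAdjoinAdjoin in
private theorem D1_basis {K₁ : Subfield Ω} {s₁ s₂ : Ω}
    (hf : FiniteDimensional (IntermediateField.adjoin K₁ {s₁, s₂}) Ω) :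
    ∃ (S : Finset Ω) (b : Module.Basis S (IntermediateField.adjoin K₁ {s₁, s₂}) Ω),
      ∀ x, IsIntegral (Algebra.adjoin K₁ {s₁, s₂}) (b x) :=
  FiniteDimensional.exists_is_basis_integral
    (Algebra.adjoin K₁ {s₁, s₂}) (IntermediateField.adjoin K₁ {s₁, s₂}) Ω

private theorem D1_basis' {K₁ : Subfield Ω} {s₁ s₂ : Ω}
    (hf : FiniteDimensional (IntermediateField.adjoin K₁ {s₁, s₂}) Ω) :
    ∃ (S : Finset Ω) (b : Module.Basis S (IntermediateField.adjoin K₁ {s₁, s₂}) Ω) (q₀ : ℕ),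
      ∀ x, D1Bd K₁ s₁ s₂ q₀ (b x) := by
  classical
  obtain ⟨S, b, hb⟩ := D1_basis hf
  have h1 : ∀ x : S, ∃ d, D1Bd K₁ s₁ s₂ d (b x) := by
    intro x
    obtain ⟨p, hp, he⟩ := hb x
    have h2 : ∀ i, ∃ d, D1Bd K₁ s₁ s₂ d (p.coeff i : Ω) := fun i => D1Bd_adjoin (p.coeff i).2
    choose d hd using h2
    refine ⟨(Finset.range (p.natDegree + 1)).sup d, D1Bd_int hp (fun i => ?_) he⟩
    by_cases hi : i ≤ p.natDegree
    · exact D1Bd_mono (Finset.le_sup (f := d) (Finset.mem_range.2 (by omega))) (hd i)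
    · rw [Polynomial.coeff_eq_zero_of_natDegree_lt (by omega)]
      exact D1Bd_zero _ _ _ _
  choose d hd using h1
  exact ⟨S, b, Finset.univ.sup d, fun x =>
    D1Bd_mono (Finset.le_sup (f := d) (Finset.mem_univ x)) (hd x)⟩


private theorem D1_fin {K₁ : Subfield Ω} {s₁ s₂ : Ω} {S : Finset Ω} {q₀ m X : ℕ}
    (hs : AlgebraicIndependent K₁ ![s₁, s₂]) (hS : Fintype.card S = X)
    {E : IntermediateField K₁ Ω} (h1 : s₁ ∈ E) (h2 : s₂ ∈ E)
    {b : S → Ω} (hbi : LinearIndependent E b)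
    (hb : ∀ x, D1Bd K₁ s₁ s₂ q₀ (b x)) : ∃ L : Submodule K₁ Ω, Module.Finite K₁ L ∧
      2 * Module.finrank K₁ L = X * ((m + 1) * (m + 2)) ∧
      ∀ x ∈ L, D1Bd K₁ s₁ s₂ (m + q₀) x := by
  classical
  have hall := D1_prod (E := E) (fun p => mul_mem (pow_mem h1 _) (pow_mem h2 _))
        (D1_mon hs m) hbi
  refine ⟨Submodule.span K₁ (Set.range
    (fun p : (Σ n : Fin (m + 1), Fin ((n : ℕ) + 1)) × S =>
      s₁ ^ (p.1.2 : ℕ) * s₂ ^ ((p.1.1 : ℕ) - (p.1.2 : ℕ)) * b p.2)), ?_, ?_, ?_⟩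
  · exact Module.Finite.span_of_finite K₁ (Set.finite_range _)
  · rw [finrank_span_eq_card hall, Fintype.card_prod, Fintype.card_sigma]
    simp only [Fintype.card_fin]
    rw [Fin.sum_univ_eq_sum_range (fun i => i + 1) (m + 1), hS, ← mul_assoc, D1_sum]
    ring
  · intro x hx
    induction hx using Submodule.span_induction with
    | mem x hx =>
      obtain ⟨⟨⟨n, i⟩, j⟩, rfl⟩ := hx
      have h14 : D1Bd K₁ s₁ s₂ ((i : ℕ) + ((n : ℕ) - (i : ℕ)) + q₀)
          (s₁ ^ (i : ℕ) * s₂ ^ ((n : ℕ) - (i : ℕ)) * b j) :=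
        D1Bd_mul (D1Bd_mul (D1Bd_pow (D1Bd_fst _ _ _) _) (D1Bd_pow (D1Bd_snd _ _ _) _)) (hb j)
      refine D1Bd_mono ?_ h14
      have := n.2
      have := i.2
      omega
    | zero => exact D1Bd_zero _ _ _ _
    | add x y _ _ hx hy => exact D1Bd_add hx hy
    | smul c x _ hx =>
      have h15 := D1Bd_mul (D1Bd_const s₁ s₂ c.2) hx
      rw [zero_add] at h15
      exact h15


/-- Abstract form of (2), (3). -/
theorem lower_abs {K₁ : Subfield Ω} {s₁ s₂ : Ω} {X : ℕ}
    (hX : Module.finrank (IntermediateField.adjoin K₁ {s₁, s₂}) Ω = X) (hX0 : 0 < X)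
    (hs : AlgebraicIndependent K₁ ![s₁, s₂]) :
    ∃ q₀ : ℕ, ∀ q : ℕ, q₀ ≤ q → ∃ L : Submodule K₁ Ω, Module.Finite K₁ L ∧
      2 * Module.finrank K₁ L = X * ((q - q₀ + 1) * (q - q₀ + 2)) ∧
      ∀ x ∈ L, x ≠ 0 → ∀ V, Dv K₁ V → ∀ r : ℤ, 0 ≤ r → (s₁ ≠ 0 → -r ≤ ord V s₁) →
        (s₂ ≠ 0 → -r ≤ ord V s₂) → -(r * q) ≤ ord V x := by
  have hfin : FiniteDimensional (IntermediateField.adjoin K₁ {s₁, s₂}) Ω :=
    Module.finite_of_finrank_pos (by rw [hX]; exact hX0)
  obtain ⟨S, b, q₀, hb⟩ := D1_basis' hfin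
  have h12 : Fintype.card S = X := by
    rw [← hX]
    exact (Module.finrank_eq_card_basis b).symm
  refine ⟨q₀, fun q hq => ?_⟩
  obtain ⟨L, h1, h2, h3⟩ := D1_fin (m := q - q₀) hs h12
    (E := IntermediateField.adjoin K₁ {s₁, s₂})
    (IntermediateField.subset_adjoin _ _ (Set.mem_insert _ _))
    (IntermediateField.subset_adjoin _ _ (Set.mem_insert_of_mem _ rfl)) b.linearIndependent hb
  rw [Nat.sub_add_cancel hq] at h3
  exact ⟨L, h1, h2, h3⟩

open scoped IntermediateField.algebraAdjoinAdjoin in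
private theorem D1_ext {ρ : Type} {S : Set Ω} {y : ρ → Ω}
    (hy : AlgebraicIndependent (Algebra.adjoin F S) y) :
    AlgebraicIndependent (IntermediateField.adjoin F S) y :=
  hy.extendScalars _

/-- The coefficients with first index `false`, in the field generated by them. -/
private def D1C0 (C : Bool × Bool × ι → Ω) : Unit × Bool × ι →
    IntermediateField.adjoin F (Set.range fun p : Unit × Bool × ι => C (false, p.2)) :=
  fun p => ⟨C (false, p.2), IntermediateField.subset_adjoin F _ ⟨p, rfl⟩⟩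

private theorem D1_gn0 {C : Bool × Bool × ι → Ω} (hC : Gn F C) :
    Gn F (D1C0 (F := F) C) := by
  constructor
  · have h1 : AlgebraicIndependent F (fun p : Unit × Bool × ι => C (false, p.2)) :=
      hC.1.comp (fun p : Unit × Bool × ι => ((false, p.2) : Bool × Bool × ι)) (by
        rintro ⟨u, p⟩ ⟨v, q⟩ h
        have h2 : p = q := (Prod.mk.inj h).2
        rw [h2])
    exact (AlgHom.algebraicIndependent_iff (IntermediateField.val
      (IntermediateField.adjoin F (Set.range fun p : Unit × Bool × ι => C (false, p.2))))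
      (RingHom.injective _)).1 h1
  · have h1 := IntermediateField.lift_adjoin F (IntermediateField.adjoin F
      (Set.range fun p : Unit × Bool × ι => C (false, p.2))) (Set.range (D1C0 (F := F) C))
    have h2 : Subtype.val '' (Set.range (D1C0 (F := F) C)) =
        Set.range fun p : Unit × Bool × ι => C (false, p.2) := by
      rw [← Set.range_comp]
      rfl
    rw [h2] at h1
    have h3 : IntermediateField.lift (⊤ : IntermediateField F (IntermediateField.adjoin F
      (Set.range fun p : Unit × Bool × ι => C (false, p.2)))) = IntermediateField.adjoin F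
      (Set.range fun p : Unit × Bool × ι => C (false, p.2)) := IntermediateField.lift_top _ _
    exact IntermediateField.lift_injective _ (h1.trans h3.symm)

private theorem D1_gn1 {C : Bool × Bool × ι → Ω} (hC : Gn F C) :
    Gn (IntermediateField.adjoin F (Set.range fun p : Unit × Bool × ι => C (false, p.2)))
      (fun p : Unit × Bool × ι => C (true, p.2)) := by
  constructor
  · apply D1_ext
    let e : (Unit × Bool × ι) ⊕ (Unit × Bool × ι) → Bool × Bool × ι :=
      Sum.elim (fun p => (true, p.2)) (fun p => (false, p.2))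
    have he : Function.Injective e := by
      rintro (⟨u, p⟩ | ⟨u, p⟩) (⟨v, q⟩ | ⟨v, q⟩) h
      · have h2 : p = q := (Prod.mk.inj h).2
        rw [h2]
      · exact absurd (Prod.mk.inj h).1 (by decide)
      · exact absurd (Prod.mk.inj h).1 (by decide)
      · have h2 : p = q := (Prod.mk.inj h).2
        rw [h2]
    have h1 := hC.1.comp e he
    have h2 : C ∘ e = Sum.elim (fun p : Unit × Bool × ι => C (true, p.2))
        (fun p : Unit × Bool × ι => C (false, p.2)) := by
      funext p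
      rcases p with p | p <;> rfl
    rw [h2] at h1
    exact (AlgebraicIndependent.sumElim_iff.1 h1).2
  · apply IntermediateField.restrictScalars_injective F
    rw [IntermediateField.restrictScalars_top, IntermediateField.adjoin_adjoin_left, ← hC.2]
    congr 1
    ext x
    constructor
    · rintro (⟨p, rfl⟩ | ⟨p, rfl⟩)
      · exact ⟨_, rfl⟩
      · exact ⟨_, rfl⟩
    · rintro ⟨⟨b, p⟩, rfl⟩
      cases b
      · exact Or.inl ⟨((), p), rfl⟩
      · exact Or.inr ⟨((), p), rfl⟩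

private theorem D1_gu0 {C : Bool × Bool × ι → Ω} (z : ι → F) :
    ((gu (D1C0 (F := F) C) (fun _ => z) () :
      IntermediateField.adjoin F (Set.range fun p : Unit × Bool × ι => C (false, p.2))) : Ω) =
    gu C (fun _ => z) false := by
  unfold gu
  push_cast
  rfl

private theorem D1_cb (K : Subfield F) {C : Bool × Bool × ι → Ω} (z : ι → F)
    (β' : Unit → ι → IntermediateField.adjoin F
      (Set.range fun p : Unit × Bool × ι => C (false, p.2))) :
    cb (cb K (D1C0 (F := F) C) (fun _ => z) {i | i ∈ [()]})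
      (fun p : Unit × Bool × ι => C (true, p.2)) β' ∅ =
      cb K C (fun _ => z) {i | i ∈ [false]} := by
  have hval : (algebraMap (IntermediateField.adjoin F
      (Set.range fun p : Unit × Bool × ι => C (false, p.2))) Ω) =
    (IntermediateField.adjoin F
      (Set.range fun p : Unit × Bool × ι => C (false, p.2))).subtype := rfl
  apply le_antisymm
  · refine Subfield.closure_le.2 ?_
    rintro x ((⟨y, hy, rfl⟩ | ⟨p, rfl⟩) | ⟨i, hi, rfl⟩)
    · have h1 : cb K (D1C0 (F := F) C) (fun _ => z) {i | i ∈ [()]} ≤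
          (cb K C (fun _ => z) {i | i ∈ [false]}).comap (algebraMap (IntermediateField.adjoin F
            (Set.range fun p : Unit × Bool × ι => C (false, p.2))) Ω) := by
        refine Subfield.closure_le.2 ?_
        rintro x ((⟨y, hy, rfl⟩ | ⟨p, rfl⟩) | ⟨i, hi, rfl⟩)
        · exact Subfield.subset_closure (Or.inl (Or.inl ⟨y, hy, rfl⟩))
        · exact Subfield.subset_closure (Or.inl (Or.inr ⟨(false, p.2), rfl⟩))
        · exact Subfield.subset_closure (Or.inr ⟨false, List.mem_singleton.2 rfl, (D1_gu0 z).symm⟩)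
      exact h1 hy
    · exact Subfield.subset_closure (Or.inl (Or.inr ⟨(true, p.2), rfl⟩))
    · exact absurd hi (Set.notMem_empty _)
  · refine Subfield.closure_le.2 ?_
    rintro x ((⟨y, hy, rfl⟩ | ⟨⟨b, p⟩, rfl⟩) | ⟨i, hi, rfl⟩)
    · exact Subfield.subset_closure (Or.inl (Or.inl ⟨algebraMap F _ y,
        Subfield.subset_closure (Or.inl (Or.inl ⟨y, hy, rfl⟩)), rfl⟩))
    · cases b
      · exact Subfield.subset_closure (Or.inl (Or.inl ⟨D1C0 (F := F) C ((), p),
          Subfield.subset_closure (Or.inl (Or.inr ⟨_, rfl⟩)), rfl⟩))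
      · exact Subfield.subset_closure (Or.inl (Or.inr ⟨((), p), rfl⟩))
    · have h2 : i = false := List.mem_singleton.1 hi
      subst h2
      exact Subfield.subset_closure (Or.inl (Or.inl ⟨gu (D1C0 (F := F) C) (fun _ => z) (),
          Subfield.subset_closure (Or.inr ⟨(), List.mem_singleton.2 rfl, rfl⟩), D1_gu0 z⟩))


private theorem D1_y0 {C : Bool × Bool × ι → Ω} (hC : Gn F C) {z : ι → F} (hz : z ≠ 0)
    (p : Bool × Bool) : ∑ j, C (p.1, p.2, j) * algebraMap F Ω (z j) ≠ 0 := by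
  intro h
  apply hz
  have h1 : LinearIndependent F (fun j => C (p.1, p.2, j)) :=
    hC.1.linearIndependent.comp (fun j => ((p.1, p.2, j) : Bool × Bool × ι)) (by
      intro i j hij
      exact (Prod.mk.inj (Prod.mk.inj hij).2).2)
  have h2 := Fintype.linearIndependent_iff.1 h1 z (by
    rw [← h]
    refine Finset.sum_congr rfl fun j _ => ?_
    rw [Algebra.smul_def, mul_comm])
  funext j
  exact h2 j

private theorem D1_finrank {K₁ κ : Subfield Ω} {S : Set Ω} {T : Set Ω}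
    (h : (IntermediateField.adjoin K₁ S).toSubfield = (IntermediateField.adjoin κ T).toSubfield) :
    Module.finrank (IntermediateField.adjoin K₁ S) Ω =
      Module.finrank (IntermediateField.adjoin κ T) Ω := by
  have h1 : Module.finrank (IntermediateField.adjoin K₁ S).toSubfield Ω =
      Module.finrank (IntermediateField.adjoin κ T).toSubfield Ω := by
    rw [h]
  exact h1

private theorem D1_sub {C : Bool × Bool × ι → Ω} {z : ι → F} {κ : Subfield Ω}
    (hκ : κ = cb K C (fun _ => z) {i | i ∈ [false]}) (s : Ω) :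
    (IntermediateField.adjoin (cb K C (fun _ => z) ∅)
      {(∑ j, C (false, false, j) * algebraMap F Ω (z j)) /
          (∑ j, C (false, true, j) * algebraMap F Ω (z j)), s}).toSubfield =
      (IntermediateField.adjoin κ {s}).toSubfield := by
  subst hκ
  have e : ∀ (k : Subfield Ω) (S : Set Ω), (IntermediateField.adjoin k S).toSubfield =
      Subfield.closure (Set.range (algebraMap k Ω) ∪ S) := fun k S => rfl
  rw [e, e]
  apply le_antisymm
  · refine Subfield.closure_le.2 ?_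
    rintro x (⟨y, rfl⟩ | hx)
    · have h1 : cb K C (fun _ => z) ∅ ≤ cb K C (fun _ => z) {i | i ∈ [false]} := by
        apply Subfield.closure_mono
        apply Set.union_subset_union_right
        exact Set.image_mono (Set.empty_subset _)
      exact Subfield.subset_closure (Or.inl ⟨⟨y, h1 y.2⟩, rfl⟩)
    · rcases hx with rfl | hx
      · exact Subfield.subset_closure (Or.inl ⟨⟨gu C (fun _ => z) false,
          Subfield.subset_closure (Or.inr ⟨false, List.mem_singleton.2 rfl, rfl⟩)⟩, rfl⟩)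
      · exact Subfield.subset_closure (Or.inr hx)
  · refine Subfield.closure_le.2 ?_
    rintro x (⟨y, rfl⟩ | hx)
    · have h1 : cb K C (fun _ => z) {i | i ∈ [false]} ≤ Subfield.closure
          (Set.range (algebraMap (cb K C (fun _ => z) ∅) Ω) ∪
            {(∑ j, C (false, false, j) * algebraMap F Ω (z j)) /
              (∑ j, C (false, true, j) * algebraMap F Ω (z j)), s}) := by
        refine Subfield.closure_le.2 ?_
        rintro x ((⟨y, hy, rfl⟩ | ⟨p, rfl⟩) | ⟨i, hi, rfl⟩)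
        · exact Subfield.subset_closure (Or.inl ⟨⟨algebraMap F Ω y,
            Subfield.subset_closure (Or.inl (Or.inl ⟨y, hy, rfl⟩))⟩, rfl⟩)
        · exact Subfield.subset_closure (Or.inl ⟨⟨C p,
            Subfield.subset_closure (Or.inl (Or.inr ⟨p, rfl⟩))⟩, rfl⟩)
        · have h2 : i = false := List.mem_singleton.1 hi
          subst h2
          exact Subfield.subset_closure (Or.inr (Or.inl rfl))
      exact h1 y.2
    · exact Subfield.subset_closure (Or.inr (Or.inr hx))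

theorem lower_degree (hF : FF K 2) {C : Bool × Bool × ι → Ω} (hC : Gn F C) {z : ι → F}
    (hz : z ≠ 0) (hX : 0 < XX K [z, z]) :
    Module.finrank (IntermediateField.adjoin (cb K C (fun _ => z) ∅)
      {(∑ j, C (false, false, j) * algebraMap F Ω (z j)) /
          (∑ j, C (false, true, j) * algebraMap F Ω (z j)),
        (∑ j, C (true, false, j) * algebraMap F Ω (z j)) /
          (∑ j, C (false, true, j) * algebraMap F Ω (z j))}) Ω = XX K [z, z] := by
  have hΩ : CharZero Ω := charZero_of_injective_algebraMap (algebraMap F Ω).injective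
  -- one cut
  have h1 : XX (cb K C (fun _ => z) {i | i ∈ [false]}) ([z].map (up Ω)) = XX K [z, z] :=
    XX_tower K hC (fun _ => z) [false] (List.nodup_singleton _) [z]
  have hz1 : up Ω z ≠ 0 := by
    intro h
    apply hz
    funext j
    exact (map_eq_zero (algebraMap F Ω)).1 (congrFun h j)
  have h2 : FF (cb K C (fun _ => z) {i | i ∈ [false]}) 1 :=
    FF_cb (e := 1) hC (fun _ => z) [false] (List.nodup_singleton _) hF [z] rfl hX
  have h3 : (XX (cb K C (fun _ => z) {i | i ∈ [false]}) [up Ω z] : ℤ) =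
      ht (cb K C (fun _ => z) {i | i ∈ [false]}) (up Ω z) := XX_one h2 hz1
  -- the intermediate field
  have hgn0 := D1_gn0 hC
  have hgn1 := D1_gn1 hC
  have h4 : FF (cb K (D1C0 (F := F) C) (fun _ => z) {i | i ∈ [()]}) 1 :=
    FF_cb (e := 1) hgn0 (fun _ => z) [()] (List.nodup_singleton _) hF [z] rfl hX
  have hΩ₁ : CharZero (IntermediateField.adjoin F
      (Set.range fun p : Unit × Bool × ι => C (false, p.2))) :=
    charZero_of_injective_algebraMap (algebraMap F _).injective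
  have hz2 : up (IntermediateField.adjoin F
      (Set.range fun p : Unit × Bool × ι => C (false, p.2))) z ≠ 0 := by
    intro h
    apply hz
    funext j
    exact (map_eq_zero (algebraMap F _)).1 (congrFun h j)
  have h5 := ht_pure h4 hgn1 (fun _ => 0) hz2
  have hy : (∑ j, D1C0 (F := F) C ((), true, j) * algebraMap F _ (z j)) ≠ 0 := by
    intro h
    apply D1_y0 hC hz (false, true)
    have h6 := congrArg Subtype.val h
    push_cast at h6
    exact h6
  have h7 := gen_degree h4 hgn1 (fun _ => 0) hz2 hy (by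
    intro V hV
    refine le_ord_sum hV.1 _ _ ?_ hy
    intro j _ hj
    have hc0 := left_ne_zero_of_mul hj
    have hz0 := right_ne_zero_of_mul hj
    rw [ord_mul hV.1 hc0 hz0]
    have h8 := (ord_nonneg_iff hV.1 hc0).2 (hV.2 _ (Subfield.subset_closure
      (Or.inl (Or.inr ⟨((), true, j), rfl⟩))))
    have h9 := al_le (V := V) (z := up (IntermediateField.adjoin F
      (Set.range fun p : Unit × Bool × ι => C (false, p.2))) z) (j := j) hz0
    change _ ≤ _ + ord V (up (IntermediateField.adjoin F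
      (Set.range fun p : Unit × Bool × ι => C (false, p.2))) z j)
    linarith) ((), false)
  have hcb := D1_cb K z (C := C) (fun _ => (0 : ι → IntermediateField.adjoin F
      (Set.range fun p : Unit × Bool × ι => C (false, p.2))))
  rw [hcb] at h5
  have h10 := D1_finrank (D1_sub hcb ((∑ j, C (true, false, j) * algebraMap F Ω (z j)) /
          (∑ j, C (false, true, j) * algebraMap F Ω (z j))))
  rw [h10]
  have h11 : (∑ j, C (false, true, j) * algebraMap F Ω (z j)) =
      algebraMap (IntermediateField.adjoin F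
      (Set.range fun p : Unit × Bool × ι => C (false, p.2))) Ω
      (∑ j, D1C0 (F := F) C ((), true, j) * algebraMap F _ (z j)) := by
    rw [map_sum]
    rfl
  have h12 : (XX K [z, z] : ℤ) = ht (cb K (D1C0 (F := F) C) (fun _ => z) {i | i ∈ [()]})
      (up (IntermediateField.adjoin F
      (Set.range fun p : Unit × Bool × ι => C (false, p.2))) z) := by
    rw [← h5, ← h1]
    exact h3
  rw [← h12] at h7
  rw [h11]
  exact_mod_cast h7

open scoped IntermediateField.algebraAdjoinAdjoin in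
private theorem D1_ind {K₁ : Subfield Ω} {s₁ s₂ : Ω} (hF : FF K₁ 2)
    (hX : 0 < Module.finrank (IntermediateField.adjoin K₁ {s₁, s₂}) Ω) :
    AlgebraicIndependent K₁ ![s₁, s₂] := by
  have hfin : FiniteDimensional (IntermediateField.adjoin K₁ {s₁, s₂}) Ω :=
    Module.finite_of_finrank_pos hX
  have hr : Set.range ![s₁, s₂] = {s₁, s₂} := by
    simp [Set.pair_comm]
  have h1 : Algebra.IsAlgebraic (Algebra.adjoin K₁ {s₁, s₂}) Ω :=
    Algebra.IsAlgebraic.trans (Algebra.adjoin K₁ {s₁, s₂})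
      (IntermediateField.adjoin K₁ {s₁, s₂}) Ω
  rw [← hr] at h1
  exact (Algebra.IsAlgebraic.isTranscendenceBasis_of_le_trdeg_of_finite K₁ ![s₁, s₂]
    (by rw [hF.2]; simp)).1

theorem lower (hF : FF K 2) {C : Bool × Bool × ι → Ω} (hC : Gn F C) {z : ι → F} (hz : z ≠ 0)
    (hX : 0 < XX K [z, z]) : ∃ (w : ι → Ω) (q₀ : ℕ), Pr (up Ω z) w ∧ ∀ q : ℕ, q₀ ≤ q →
      ∃ L : Submodule (cb K C (fun _ => z) ∅) Ω, Module.Finite (cb K C (fun _ => z) ∅) L ∧
        2 * Module.finrank (cb K C (fun _ => z) ∅) L =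
          XX K [z, z] * ((q - q₀ + 1) * (q - q₀ + 2)) ∧
        ∀ x ∈ L, x ≠ 0 → ∀ V, Dv (cb K C (fun _ => z) ∅) V → (q : ℤ) * al V w ≤ ord V x := by
  have hY0 := D1_y0 hC hz (false, true)
  have hdeg := lower_degree hF hC hz hX
  have hbase : FF (cb K C (fun _ => z) ∅) 2 := FF_base hF hC (fun _ => z)
  have hs := D1_ind hbase (by rw [hdeg]; exact hX)
  obtain ⟨q₀, h⟩ := lower_abs hdeg hX hs
  refine ⟨fun j => (∑ j, C (false, true, j) * algebraMap F Ω (z j))⁻¹ * up Ω z j, q₀,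
    ⟨_, inv_ne_zero hY0, fun j => rfl⟩, fun q hq => ?_⟩
  obtain ⟨L, h1, h2, h3⟩ := h q hq
  refine ⟨L, h1, h2, fun x hx hx0 V hV => ?_⟩
  have hlin : ∀ p : Bool × Bool, (∑ j, C (p.1, p.2, j) * algebraMap F Ω (z j)) /
      (∑ j, C (false, true, j) * algebraMap F Ω (z j)) ≠ 0 →
      al V (fun j => (∑ j, C (false, true, j) * algebraMap F Ω (z j))⁻¹ * up Ω z j) ≤
      ord V ((∑ j, C (p.1, p.2, j) * algebraMap F Ω (z j)) /
        (∑ j, C (false, true, j) * algebraMap F Ω (z j))) := by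
    intro p hp
    have h4 : (∑ j, C (p.1, p.2, j) * algebraMap F Ω (z j)) /
        (∑ j, C (false, true, j) * algebraMap F Ω (z j)) =
        ∑ j, C (p.1, p.2, j) *
          ((∑ j, C (false, true, j) * algebraMap F Ω (z j))⁻¹ * up Ω z j) := by
      rw [div_eq_mul_inv, Finset.sum_mul]
      refine Finset.sum_congr rfl fun j _ => ?_
      unfold up
      ring
    rw [h4] at hp ⊢
    refine le_ord_sum hV.1 _ _ ?_ hp
    intro j _ hj
    have hc0 := left_ne_zero_of_mul hj
    have hz0 := right_ne_zero_of_mul hj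
    rw [ord_mul hV.1 hc0 hz0]
    have h8 := (ord_nonneg_iff hV.1 hc0).2 (hV.2 _ (Subfield.subset_closure
      (Or.inl (Or.inr ⟨(p.1, p.2, j), rfl⟩))))
    have h9 := al_le (V := V)
      (z := fun j => (∑ j, C (false, true, j) * algebraMap F Ω (z j))⁻¹ * up Ω z j) (j := j) hz0
    linarith
  have hr : al V (fun j => (∑ j, C (false, true, j) * algebraMap F Ω (z j))⁻¹ * up Ω z j) ≤ 0 := by
    have h5 := hlin (false, true) (by rw [div_self hY0]; exact one_ne_zero)
    rw [div_self hY0, ord_one V hV.1] at h5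
    exact h5
  have h6 := h3 x hx hx0 V hV
    (-al V (fun j => (∑ j, C (false, true, j) * algebraMap F Ω (z j))⁻¹ * up Ω z j))
    (by linarith) (fun hne => by rw [neg_neg]; exact hlin (false, false) hne)
    (fun hne => by rw [neg_neg]; exact hlin (true, false) hne)
  calc _ = -(-al V (fun j => (∑ j, C (false, true, j) * algebraMap F Ω (z j))⁻¹ * up Ω z j) *
        (q : ℤ)) := by ring
    _ ≤ _ := h6

end Pool.Agent.Lib.MP_1e3e9c_agU
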