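import Mathlib
import Pool.Agent.Lib.MP_1e3e9c_agU.B2

/-!
# MP_1e3e9c_ag, project U, leaf B4: the dimension of Riemann-Roch spaces

`L` is a `K`-subspace of `F` whose nonzero elements `x` satisfy `ord V x + N V ≥ 0` for all places.
`S = ∑ deg V N V`. If `S < 0`: for `x ≠ 0` in `L` the product formula gives
`0 = ∑ deg V ord V x ≥ -S > 0`: contradiction, so `L = 0`.
Reduction `N → N - [P₀]`: the map `x ↦ res (x π^(N P₀))` from `L` to the residue field of `P₀`
(`π` a uniformiser) is `K`-linear with kernel the elements with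
`ord P₀ x + N P₀ ≥ 1`; so `dim L ≤ deg P₀ + dim L'`. Induction on `S` (steps of `deg P₀ > 0`):
after `j` steps, `j = ⌊S / deg P₀⌋ + 1`, the degree is negative: `dim L ≤ j deg P₀ ≤ S + deg P₀`.
-/

set_option autoImplicit false

namespace Pool.Agent.Lib.MP_1e3e9c_agU

open IsLocalRing Pool.Agent.Lib.MP_b197b4_ntK

variable {F : Type} [Field F] [CharZero F] {K : Subfield F}

omit [CharZero F] in
private theorem B4_sum_add {f g : ValuationSubring F → ℤ}
    (hf : {V : ValuationSubring F | Dv K V ∧ f V ≠ 0}.Finite)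
    (hg : {V : ValuationSubring F | Dv K V ∧ g V ≠ 0}.Finite) :
    ∑ᶠ (V : ValuationSubring F) (_ : Dv K V), (deg K V : ℤ) * (f V + g V) =
      (∑ᶠ (V : ValuationSubring F) (_ : Dv K V), (deg K V : ℤ) * f V) +
        ∑ᶠ (V : ValuationSubring F) (_ : Dv K V), (deg K V : ℤ) * g V := by
  have h1 := finsum_mem_add_distrib' (s := {V : ValuationSubring F | Dv K V})
    (f := fun V => (deg K V : ℤ) * f V) (g := fun V => (deg K V : ℤ) * g V)
    (hf.subset fun V hV => ⟨hV.1, fun h => hV.2 (by simp [h])⟩)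
    (hg.subset fun V hV => ⟨hV.1, fun h => hV.2 (by simp [h])⟩)
  refine Eq.trans ?_ h1
  refine finsum_congr fun V => finsum_congr fun _ => ?_
  ring


theorem rr_neg (hF : FF K 1) (N : ValuationSubring F → ℤ)
    (hN : {V : ValuationSubring F | Dv K V ∧ N V ≠ 0}.Finite) (L : Submodule K F)
    (hL : ∀ x ∈ L, x ≠ 0 → ∀ V, Dv K V → 0 ≤ ord V x + N V)
    (hS : ∑ᶠ (V : ValuationSubring F) (_ : Dv K V), (deg K V : ℤ) * N V < 0) : L = ⊥ := by
  rw [eq_bot_iff]
  intro x hx
  rw [Submodule.mem_bot]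
  by_contra hx0
  have h1 := prod_formula hF hx0
  have h2 := B4_sum_add (ord_fin hF hx0) hN
  have h3 : 0 ≤ ∑ᶠ (V : ValuationSubring F) (_ : Dv K V), (deg K V : ℤ) * (ord V x + N V) :=
    finsum_nonneg fun V => finsum_nonneg fun hV => mul_nonneg (Int.natCast_nonneg _) (hL x hx hx0 V hV)
  rw [h2, h1, zero_add] at h3
  omega

set_option synthInstance.maxHeartbeats 400000 in
private theorem B4_step (hF : FF K 1) {V : ValuationSubring F} (hV : Dv K V) (L : Submodule K F)
    (m : ℤ) (hL : ∀ x ∈ L, x ≠ 0 → 0 ≤ ord V x + m) :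
    ∃ L' : Submodule K F, L' ≤ L ∧ (∀ x ∈ L', x ≠ 0 → 1 ≤ ord V x + m) ∧
      (FiniteDimensional K L' → FiniteDimensional K L ∧
        Module.finrank K L ≤ deg K V + Module.finrank K L') := by
  have hD : IsDiscreteValuationRing V := hV.1
  obtain ⟨p, hp⟩ := IsDiscreteValuationRing.exists_irreducible V
  have hp0 : (p : F) ≠ 0 := fun h => hp.ne_zero (Subtype.ext h)
  have hop : ord V (p : F) = 1 := ord_eq ⟨p, 1, hp, by simp⟩
  have hoz : ord V ((p : F) ^ m) = m := by rw [ord_zpow hV.1 hp0, hop, mul_one]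
  have hmem : ∀ x ∈ L, x * (p : F) ^ m ∈ V := by
    intro x hx
    by_cases h0 : x = 0
    · rw [h0, zero_mul]
      exact V.zero_mem
    · rw [← ord_nonneg_iff hV.1 (mul_ne_zero h0 (zpow_ne_zero _ hp0)),
        ord_mul hV.1 h0 (zpow_ne_zero _ hp0), hoz]
      exact hL x hx h0
  obtain ⟨f, hf⟩ : ∃ f : K →+* ResidueField V, ∀ a : K, f a = res V (a : F) :=
    ⟨(residue V).comp (K.subtype.codRestrict V.toSubring fun a => hV.2 a a.2), fun a => by
      rw [res_of_mem (hV.2 a a.2)]
      rfl⟩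
  let alg : Algebra K (ResidueField V) := f.toAlgebra
  have hsm : ∀ (a : K) (r : ResidueField V), a • r = f a * r := fun a r => rfl
  have hrange : resS K V = f.fieldRange := by
    unfold resS
    apply le_antisymm
    · rw [Subfield.closure_le]
      rintro _ ⟨a, ha, rfl⟩
      exact ⟨⟨a, ha⟩, hf _⟩
    · rintro _ ⟨a, rfl⟩
      apply Subfield.subset_closure
      exact ⟨a, a.2, (hf a).symm⟩
  have hrank : Module.finrank K (ResidueField V) = deg K V := by
    unfold deg
    rw [hrange]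
    refine Algebra.finrank_eq_of_equiv_equiv f.rangeRestrictFieldEquiv (RingEquiv.refl _) ?_
    ext a
    rfl
  have hfin : FiniteDimensional K (ResidueField V) := by
    apply Module.finite_of_finrank_pos
    rw [hrank]
    exact deg_pos hF hV
  obtain ⟨φ, hφ⟩ : ∃ φ : L →ₗ[K] ResidueField V, ∀ x : L, φ x = res V ((x : F) * (p : F) ^ m) :=
    ⟨{ toFun := fun x => res V ((x : F) * (p : F) ^ m)
       map_add' := by
         intro x y
         rw [Submodule.coe_add, add_mul, res_add (hmem _ x.2) (hmem _ y.2)]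
       map_smul' := by
         intro a x
         rw [RingHom.id_apply, hsm, hf, ← res_mul (hV.2 a a.2) (hmem _ x.2), Submodule.coe_smul,
           Subfield.smul_def, smul_eq_mul, mul_assoc] }, fun _ => rfl⟩
  refine ⟨(LinearMap.ker φ).map L.subtype, ?_, ?_, ?_⟩
  · rintro _ ⟨x, _, rfl⟩
    exact x.2
  · rintro _ ⟨x, hx, rfl⟩ hx0
    have h1 : φ x = 0 := hx
    have hx0' : (x : F) ≠ 0 := hx0
    rw [hφ, res_eq_zero_iff (hmem _ x.2), ← ord_pos_iff hV.1 (mul_ne_zero hx0' (zpow_ne_zero _ hp0)),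
      ord_mul hV.1 hx0' (zpow_ne_zero _ hp0), hoz] at h1
    exact h1
  · intro hfd
    have e : LinearMap.ker φ ≃ₗ[K] (LinearMap.ker φ).map L.subtype :=
      (LinearMap.ker φ).equivMapOfInjective L.subtype L.injective_subtype
    have hk : FiniteDimensional K (LinearMap.ker φ) := Module.Finite.equiv e.symm
    have hLf : FiniteDimensional K L := by
      refine ⟨Submodule.fg_of_fg_map_of_fg_inf_ker φ ?_ ?_⟩
      · exact IsNoetherian.noetherian _
      · rw [top_inf_eq]
        exact Module.Finite.iff_fg.1 hk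
    refine ⟨hLf, ?_⟩
    have h1 := LinearMap.finrank_range_add_finrank_ker φ
    have h2 : Module.finrank K (LinearMap.range φ) ≤ deg K V := by
      rw [← hrank]
      exact Submodule.finrank_le _
    rw [← e.finrank_eq]
    omega

private theorem B4_ind (hF : FF K 1) (P₀ : ValuationSubring F) (hP : Dv K P₀) (j : ℕ) :
    ∀ (N : ValuationSubring F → ℤ), {V : ValuationSubring F | Dv K V ∧ N V ≠ 0}.Finite →
      ∀ (L : Submodule K F), (∀ x ∈ L, x ≠ 0 → ∀ V, Dv K V → 0 ≤ ord V x + N V) →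
      ∑ᶠ (V : ValuationSubring F) (_ : Dv K V), (deg K V : ℤ) * N V < j * deg K P₀ →
      FiniteDimensional K L ∧ Module.finrank K L ≤ j * deg K P₀ := by
  classical
  induction j with
  | zero =>
    intro N hN L hL hS
    rw [Nat.cast_zero, zero_mul] at hS
    have h1 := rr_neg hF N hN L hL hS
    subst h1
    exact ⟨inferInstance, by rw [finrank_bot]; exact Nat.zero_le _⟩
  | succ j ih =>
    intro N hN L hL hS
    obtain ⟨L', hL', h1, h2⟩ := B4_step hF hP L (N P₀) fun x hx hx0 => hL x hx hx0 P₀ hP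
    obtain ⟨δ, hδ⟩ : ∃ δ : ValuationSubring F → ℤ, δ = fun V => if V = P₀ then -1 else 0 := ⟨_, rfl⟩
    have hδf : {V : ValuationSubring F | Dv K V ∧ δ V ≠ 0}.Finite := by
      refine (Set.finite_singleton P₀).subset ?_
      rintro V ⟨_, hV⟩
      by_contra h
      apply hV
      rw [hδ]
      exact if_neg h
    have hδs : ∑ᶠ (V : ValuationSubring F) (_ : Dv K V), (deg K V : ℤ) * δ V = -(deg K P₀ : ℤ) := by
      rw [finsum_eq_single _ P₀]
      · rw [finsum_eq_if, if_pos hP, hδ]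
        simp
      · intro V hV
        rw [hδ]
        simp [hV]
    have hsum := B4_sum_add hN hδf
    have hN' : {V : ValuationSubring F | Dv K V ∧ N V + δ V ≠ 0}.Finite := by
      refine (hN.union hδf).subset ?_
      rintro V ⟨hV, h3⟩
      by_cases h4 : N V = 0
      · right
        refine ⟨hV, fun h5 => h3 ?_⟩
        rw [h4, h5, add_zero]
      · exact Or.inl ⟨hV, h4⟩
    obtain ⟨h3, h4⟩ := ih (fun V => N V + δ V) hN' L' (by
      intro x hx hx0 V hV
      by_cases h5 : V = P₀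
      · subst h5
        have h6 := h1 x hx hx0
        have h7 : δ V = -1 := by rw [hδ]; exact if_pos rfl
        rw [h7]
        omega
      · have h7 : δ V = 0 := by rw [hδ]; exact if_neg h5
        rw [h7, add_zero]
        exact hL x (hL' hx) hx0 V hV) (by
      rw [hsum, hδs]
      push_cast at hS
      linarith)
    obtain ⟨h5, h6⟩ := h2 h3
    refine ⟨h5, h6.trans ?_⟩
    rw [Nat.succ_mul]
    omega


theorem rr_bound (hF : FF K 1) (P₀ : ValuationSubring F) (hP : Dv K P₀)
    (N : ValuationSubring F → ℤ) (hN : {V : ValuationSubring F | Dv K V ∧ N V ≠ 0}.Finite)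
    (L : Submodule K F) (hL : ∀ x ∈ L, x ≠ 0 → ∀ V, Dv K V → 0 ≤ ord V x + N V)
    (hS : 0 ≤ ∑ᶠ (V : ValuationSubring F) (_ : Dv K V), (deg K V : ℤ) * N V) :
    FiniteDimensional K L ∧ (Module.finrank K L : ℤ) ≤
      (∑ᶠ (V : ValuationSubring F) (_ : Dv K V), (deg K V : ℤ) * N V) + deg K P₀ := by
  have hd := deg_pos hF hP
  obtain ⟨S, hSd⟩ : ∃ S : ℤ, S = ∑ᶠ (V : ValuationSubring F) (_ : Dv K V), (deg K V : ℤ) * N V :=
    ⟨_, rfl⟩
  rw [← hSd] at hS ⊢
  obtain ⟨s, rfl⟩ := Int.eq_ofNat_of_zero_le hS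
  have h0 : s / deg K P₀ * deg K P₀ ≤ s := Nat.div_mul_le_self s (deg K P₀)
  have h1 : s < (s / deg K P₀ + 1) * deg K P₀ := by
    rw [Nat.succ_mul]
    exact Nat.lt_div_mul_add hd
  obtain ⟨h2, h3⟩ := B4_ind hF P₀ hP (s / deg K P₀ + 1) N hN L hL (by
    rw [← hSd]
    exact_mod_cast h1)
  refine ⟨h2, ?_⟩
  rw [Nat.succ_mul] at h3
  have h4 : Module.finrank K L ≤ s + deg K P₀ := by omega
  exact_mod_cast h4

end Pool.Agent.Lib.MP_1e3e9c_agU
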