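import Mathlib
import Pool.Agent.Lib.MP_1e3e9c_agU.Defs

/-!
# MP_1e3e9c_ag, project U, leaf D2: filtration by the order at a generic point

`Ω` a field, `K₁` a subfield, `u ∈ Ω` transcendental over `K₁`, `κ = K₁(u)`. Let `La` be a
`K₁`-subspace of `Ω` of finite dimension `N`, `X` a variable. For a polynomial `P ∈ Polynomial Ω` with
coefficients in `La`, `P = (X - u)^i P₁`, let `P₁(u)` be its `i`-th leading value. Let `G_i ⊆ Ω` be
`κ`-subspaces (`i = 0, 1, ...`) of dimension `≤ g_i`, zero for `i ≥ T`, with: if all the coefficients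
of `P = (X - u)^i P₁ ≠ 0` are in `La` then `P₁(u) ∈ G_i`. Then `N ≤ ∑_(i < T) g_i`.

Proof. Let `E = RatFunc Ω = Ω(X)`, `κ' = K₁(X) ⊆ E`, `L' = ` the `κ'`-span of `La` in `E`:
`dim L' = N` (a basis of `La` over `K₁` is linearly independent over `K₁(X)`: clear denominators and
compare coefficients of `X`). Every element of `L'` is `P / a` with `P` a polynomial with
coefficients in `La`, `a ∈ K₁[X]`, `a ≠ 0`, and `a(u) ≠ 0`. For `x = P/a ≠ 0` let `i` be the order of
`P` at `X = u`; `i < T` (else `P₁(u) ∈ G_i = 0` but it is `≠ 0`), leading value `P₁(u) / a(u) ∈ G_i`.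
`L'_i` = the elements of order `≥ i`, a `κ'`-subspace, `L'_i / L'_(i+1) → G_i` by the leading value,
injective and semilinear for the isomorphism `κ' → κ`, `X ↦ u`; so its dimension is `≤ g_i`. Sum.
(One may avoid `RatFunc`: choose a maximal subset of polynomials with coefficients in `La` whose
leading values in each order are linearly independent over `κ`; or compare dimensions over `K₁` of the
polynomials of degree `≤ M`, `M → ∞`.)
-/

set_option autoImplicit false

namespace Pool.Agent.Lib.MP_1e3e9c_agU

open IsLocalRing

theorem filtration {Ω : Type} [Field Ω] {K₁ : Subfield Ω} {u : Ω} (hu : ¬ IsAlgebraic K₁ u)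
    (La : Submodule K₁ Ω) [Module.Finite K₁ La] (T : ℕ) (g : ℕ → ℕ)
    (G : ℕ → Submodule (IntermediateField.adjoin K₁ {u}) Ω)
    (hfin : ∀ i, Module.Finite (IntermediateField.adjoin K₁ {u}) (G i))
    (hg : ∀ i, Module.finrank (IntermediateField.adjoin K₁ {u}) (G i) ≤ g i)
    (hT : ∀ i, T ≤ i → G i = ⊥)
    (hG : ∀ (i : ℕ) (P₁ : Polynomial Ω), P₁ ≠ 0 → (∀ j, ((Polynomial.X - Polynomial.C u) ^ i * P₁).coeff j ∈ La) →
      P₁.eval u ∈ G i) :
    Module.finrank K₁ La ≤ ∑ i ∈ Finset.range T, g i := by
  classical
  let algRκ : Algebra (Polynomial K₁) (IntermediateField.adjoin K₁ {u}) :=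
    (Polynomial.aeval (IntermediateField.AdjoinSimple.gen K₁ u)).toRingHom.toAlgebra
  let modRΩ : Module (Polynomial K₁) Ω :=
    Module.compHom Ω (algebraMap (Polynomial K₁) (IntermediateField.adjoin K₁ {u}))
  let modRP : Module (Polynomial K₁) (Polynomial Ω) :=
    Module.compHom (Polynomial Ω) (Polynomial.mapRingHom (algebraMap K₁ Ω))
  have hST : IsScalarTower (Polynomial K₁) (IntermediateField.adjoin K₁ {u}) Ω :=
    ⟨fun a b c => by
      show ((algebraMap (Polynomial K₁) (IntermediateField.adjoin K₁ {u}) a) * b) • c =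
        (algebraMap (Polynomial K₁) (IntermediateField.adjoin K₁ {u}) a) • b • c
      rw [mul_smul]⟩
  have hval : ∀ r : Polynomial K₁, (((algebraMap (Polynomial K₁) (IntermediateField.adjoin K₁ {u})) r :
      IntermediateField.adjoin K₁ {u}) : Ω) = Polynomial.aeval u r := by
    intro r
    show ((Polynomial.aeval (IntermediateField.AdjoinSimple.gen K₁ u) r :
      IntermediateField.adjoin K₁ {u}) : Ω) = Polynomial.aeval u r
    rw [← IntermediateField.algebraMap_apply, ← Polynomial.aeval_algebraMap_apply]
    rfl
  have hsΩ : ∀ (r : Polynomial K₁) (x : Ω), r • x = Polynomial.aeval u r * x := by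
    intro r x
    rw [← hval r]
    rfl
  have hsP : ∀ (r : Polynomial K₁) (P : Polynomial Ω),
      @HSMul.hSMul _ _ _ (@instHSMul _ _ modRP.toSMul) r P = r.map (algebraMap K₁ Ω) * P :=
    fun r P => rfl
  have hinj : ∀ r : Polynomial K₁, Polynomial.aeval u r = 0 → r = 0 := by
    intro r hr
    by_contra h0
    exact hu ⟨r, h0, hr⟩
  have hfs : FaithfulSMul (Polynomial K₁) (IntermediateField.adjoin K₁ {u}) := by
    rw [faithfulSMul_iff_algebraMap_injective, injective_iff_map_eq_zero]
    intro r hr
    apply hinj
    rw [← hval r, hr]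
    rfl
  have hfr : IsFractionRing (Polynomial K₁) (IntermediateField.adjoin K₁ {u}) := by
    refine IsFractionRing.of_field (Polynomial K₁) (IntermediateField.adjoin K₁ {u}) fun z => ?_
    obtain ⟨r, s, hrs⟩ := (IntermediateField.mem_adjoin_simple_iff K₁ (z : Ω)).1 z.2
    refine ⟨r, s, Subtype.ext ?_⟩
    rw [IntermediateField.coe_div, hval, hval]
    exact hrs
  -- the filtration
  let L : ℕ → Submodule (Polynomial K₁) (Polynomial Ω) := fun i =>
    { carrier := {P | (∀ j, P.coeff j ∈ La) ∧ ∀ j < i, (Polynomial.taylor u P).coeff j = 0}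
      add_mem' := by
        rintro P Q ⟨h1, h2⟩ ⟨h3, h4⟩
        refine ⟨fun j => ?_, fun j hj => ?_⟩
        · rw [Polynomial.coeff_add]
          exact La.add_mem (h1 j) (h3 j)
        · rw [map_add, Polynomial.coeff_add, h2 j hj, h4 j hj, add_zero]
      zero_mem' := by
        refine ⟨fun j => ?_, fun j hj => ?_⟩
        · rw [Polynomial.coeff_zero]
          exact La.zero_mem
        · rw [map_zero, Polynomial.coeff_zero]
      smul_mem' := by
        rintro r P ⟨h1, h2⟩
        refine ⟨fun j => ?_, fun j hj => ?_⟩
        · rw [hsP, Polynomial.coeff_mul]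
          refine La.sum_mem fun x _ => ?_
          rw [Polynomial.coeff_map, ← Algebra.smul_def]
          exact La.smul_mem _ (h1 _)
        · rw [hsP, Polynomial.taylor_mul, Polynomial.coeff_mul]
          refine Finset.sum_eq_zero fun x hx => ?_
          have h3 := Finset.HasAntidiagonal.mem_antidiagonal.1 hx
          rw [h2 x.2 (by omega), mul_zero] }
  have hL : ∀ i P, P ∈ L i ↔ (∀ j, P.coeff j ∈ La) ∧ ∀ j < i, (Polynomial.taylor u P).coeff j = 0 :=
    fun i P => Iff.rfl
  let φ : ∀ i, L i →ₗ[Polynomial K₁] Ω := fun i =>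
    { toFun := fun P => (Polynomial.taylor u (P : Polynomial Ω)).coeff i
      map_add' := by
        intro P Q
        rw [Submodule.coe_add, map_add, Polynomial.coeff_add]
      map_smul' := by
        intro r P
        rw [Submodule.coe_smul, hsP, Polynomial.taylor_mul, Polynomial.coeff_mul,
          RingHom.id_apply, hsΩ]
        rw [Finset.sum_eq_single (0, i)]
        · rw [Polynomial.taylor_coeff_zero, Polynomial.eval_map_algebraMap]
        · intro x hx hne
          have h3 := Finset.HasAntidiagonal.mem_antidiagonal.1 hx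
          have h4 : x.2 < i := by
            rcases Nat.lt_or_ge x.2 i with h | h
            · exact h
            · exfalso
              apply hne
              exact Prod.ext (by show x.1 = 0; omega) (by show x.2 = i; omega)
          rw [((hL i P).1 P.2).2 x.2 h4, mul_zero]
        · intro h
          exact absurd (Finset.HasAntidiagonal.mem_antidiagonal.2 (zero_add i)) h }
  have hφ : ∀ i (P : L i), φ i P = (Polynomial.taylor u (P : Polynomial Ω)).coeff i := fun i P => rfl
  -- the leading values
  have hmem : ∀ i (P : L i), φ i P ∈ G i := by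
    intro i P
    by_cases h0 : φ i P = 0
    · rw [h0]
      exact (G i).zero_mem
    · obtain ⟨h1, h2⟩ := (hL i P).1 P.2
      obtain ⟨Q, hQ⟩ := Polynomial.X_pow_dvd_iff.2 h2
      have h3 : Polynomial.taylor u (Polynomial.taylor (-u) Q) = Q := by
        rw [Polynomial.taylor_taylor, add_neg_cancel, Polynomial.taylor_zero]
      have h4 : (P : Polynomial Ω) = (Polynomial.X - Polynomial.C u) ^ i * Polynomial.taylor (-u) Q := by
        apply Polynomial.taylor_injective u
        rw [Polynomial.taylor_mul, h3, Polynomial.taylor_pow, map_sub, Polynomial.taylor_X,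
          Polynomial.taylor_C, add_sub_cancel_right, hQ]
      have h5 : φ i P = (Polynomial.taylor (-u) Q).eval u := by
        rw [hφ, ← Polynomial.taylor_coeff_zero, h3, hQ]
        have := Polynomial.coeff_X_pow_mul Q i 0
        rwa [zero_add] at this
      rw [h5]
      refine hG i _ ?_ ?_
      · intro h6
        rw [h6, Polynomial.eval_zero] at h5
        exact h0 h5
      · rw [← h4]
        exact h1
  -- the ranks
  have hrange : ∀ i, Module.rank (Polynomial K₁) (LinearMap.range (φ i)) ≤ (g i : Cardinal) := by
    intro i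
    refine rank_le fun s hs => ?_
    have h1 : LinearIndependent (Polynomial K₁) (fun x : s => ((x : LinearMap.range (φ i)) : Ω)) :=
      hs.map' (LinearMap.range (φ i)).subtype (Submodule.ker_subtype _)
    have h2 : LinearIndependent (IntermediateField.adjoin K₁ {u})
        (fun x : s => ((x : LinearMap.range (φ i)) : Ω)) :=
      (LinearIndependent.iff_fractionRing (Polynomial K₁) (IntermediateField.adjoin K₁ {u})).1 h1
    have hm : ∀ x : s, ((x : LinearMap.range (φ i)) : Ω) ∈ G i := by
      intro x
      obtain ⟨P, hP⟩ := x.1.2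
      rw [← hP]
      exact hmem i P
    have h3 : LinearIndependent (IntermediateField.adjoin K₁ {u})
        (fun x : s => (⟨((x : LinearMap.range (φ i)) : Ω), hm x⟩ : G i)) :=
      LinearIndependent.of_comp (G i).subtype h2
    have := hfin i
    have h4 := h3.fintype_card_le_finrank
    rw [Fintype.card_coe] at h4
    exact h4.trans (hg i)
  have hker : ∀ i, Module.rank (Polynomial K₁) (LinearMap.ker (φ i)) ≤
      Module.rank (Polynomial K₁) (L (i + 1)) := by
    intro i
    let ψ : LinearMap.ker (φ i) →ₗ[Polynomial K₁] L (i + 1) :=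
      LinearMap.codRestrict (L (i + 1)) ((L i).subtype ∘ₗ (LinearMap.ker (φ i)).subtype) (by
        intro P
        rw [hL]
        obtain ⟨h1, h2⟩ := (hL i _).1 P.1.2
        refine ⟨h1, fun j hj => ?_⟩
        rcases Nat.lt_or_ge j i with h | h
        · exact h2 j h
        · have hji : j = i := by omega
          have h3 : φ i P.1 = 0 := P.2
          rw [hφ] at h3
          rw [hji]
          exact h3)
    refine LinearMap.rank_le_of_injective ψ ?_
    intro P Q hPQ
    have h1 := congrArg (fun x : L (i + 1) => (x : Polynomial Ω)) hPQ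
    exact Subtype.ext (Subtype.ext h1)
  have hstep : ∀ i, Module.rank (Polynomial K₁) (L i) ≤
      (g i : Cardinal) + Module.rank (Polynomial K₁) (L (i + 1)) := by
    intro i
    rw [← LinearMap.rank_range_add_rank_ker (φ i)]
    exact add_le_add (hrange i) (hker i)
  have hind : ∀ n, Module.rank (Polynomial K₁) (L 0) ≤
      ((∑ i ∈ Finset.range n, g i : ℕ) : Cardinal) + Module.rank (Polynomial K₁) (L n) := by
    intro n
    induction n with
    | zero => simp
    | succ n ih =>
      refine ih.trans ?_
      rw [Finset.sum_range_succ, Nat.cast_add, add_assoc]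
      exact add_le_add le_rfl (hstep n)
  have hLT : L T = ⊥ := by
    rw [Submodule.eq_bot_iff]
    intro P hP
    by_contra h0
    obtain ⟨h1, h2⟩ := (hL T P).1 hP
    have h3 : Polynomial.taylor u P ≠ 0 := by
      intro h
      apply h0
      apply Polynomial.taylor_injective u
      rw [h, map_zero]
    set i := (Polynomial.taylor u P).natTrailingDegree with hi
    have h4 : (Polynomial.taylor u P).coeff i ≠ 0 := by
      have := Polynomial.trailingCoeff_nonzero_iff_nonzero.2 h3
      exact this
    have h5 : T ≤ i := by
      by_contra h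
      exact h4 (h2 i (by omega))
    have h6 : P ∈ L i := (hL i P).2 ⟨h1, fun j hj => Polynomial.coeff_eq_zero_of_lt_natTrailingDegree hj⟩
    have h7 := hmem i ⟨P, h6⟩
    rw [hT i h5, Submodule.mem_bot] at h7
    exact h4 h7
  have hlow : (Module.finrank K₁ La : Cardinal) ≤ Module.rank (Polynomial K₁) (L 0) := by
    let b := Module.finBasis K₁ La
    have hw : ∀ k, Polynomial.C ((b k : La) : Ω) ∈ L 0 := by
      intro k
      rw [hL]
      refine ⟨fun j => ?_, fun j hj => absurd hj (Nat.not_lt_zero _)⟩
      rw [Polynomial.coeff_C]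
      split_ifs
      · exact (b k).2
      · exact La.zero_mem
    have h1 : LinearIndependent (Polynomial K₁) (fun k => (⟨_, hw k⟩ : L 0)) := by
      refine LinearIndependent.of_comp (L 0).subtype ?_
      rw [Fintype.linearIndependent_iff]
      intro r hr k
      refine Polynomial.ext fun j => ?_
      have h2 : ∑ k, (r k).coeff j • b k = 0 := by
        apply Subtype.ext
        have h3 := congrArg (fun P : Polynomial Ω => P.coeff j) hr
        simp only [Function.comp_apply, Submodule.subtype_apply, Polynomial.finsetSum_coeff,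
          Polynomial.coeff_zero, hsP, Polynomial.coeff_mul_C, Polynomial.coeff_map] at h3
        rw [Submodule.coe_sum, Submodule.coe_zero, ← h3]
        refine Finset.sum_congr rfl fun k _ => ?_
        rw [Submodule.coe_smul, Algebra.smul_def]
      have h3 := Fintype.linearIndependent_iff.1 b.linearIndependent (fun k => (r k).coeff j) h2 k
      rw [Polynomial.coeff_zero]
      exact h3
    have h2 := h1.cardinal_le_rank
    rwa [Cardinal.mk_fin] at h2
  have h1 := hlow.trans (hind T)
  rw [hLT, rank_bot, add_zero] at h1
  exact_mod_cast h1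

end Pool.Agent.Lib.MP_1e3e9c_agU
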