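import Mathlib
import Pool.Agent.Lib.MP_1e3e9c_agU.C6
import Pool.Agent.Lib.MP_1e3e9c_agU.B4
import Pool.Agent.Lib.MP_1e3e9c_agU.D2

/-!
# MP_1e3e9c_ag, project U, leaf D3: the upper bound

`F/K` of two variables, points `y`, `w`, `a = XX K [y,y] > 0`, `b = XX K [y,w]`. `Ω = F(C)`,
`C : Unit × Bool × ι → Ω`, `K₁ = K(C)`, `Y = ∑ C_(0,j) y_j`, `Y' = ∑ C_(1,j) y_j`, `u = Y/Y'`,
`κ = cb K C (fun _ => y) univ = K₁(u)`: `FF κ 1` (`FF_cb`), `u` transcendental over `K₁`.
`L` a `K`-subspace of `F` of finite dimension with `ord v x ≥ q al v w` for all `x ≠ 0` in `L` and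
all `v` with `Dv K v`. `L₁ = ` the `K₁`-span of `L` in `Ω`, `dim L₁ = dim L` (`linInd_pure`).
(1) Let `P = (X-u)^i P₁ ∈ Ω[X]` have coefficients in `L₁`, `P ≠ 0`. Claim: for all places `V` of
`Ω/κ`: `ord V (P₁(u)) ≥ q al V (up w)` if `V` is not trivial on `F`, and `≥ i ord V Y'` if it is.
Multiply `P` by a nonzero element of `K[C]` (a unit of `V`): the coefficients of `P` are in the
`K[C]`-span of `L`, in `F[C]`. In `F[C][X]` (a factorial ring, `C` variables) the polynomial
`X Y' - Y` is prime (linear in `X`, `Y`, `Y'` coprime), and it divides `P` exactly as often as `X - u`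
in `Ω[X]` (Gauss lemma: primitive): `P = (X Y' - Y)^i P₂`, `P₂ ∈ F[C][X]`, `P₁ = Y'^i P₂`. If `V` is
trivial on `F`: `F`, `C`, `u` are in `V`, so `P₂(u) ∈ V` and `ord V (P₁(u)) ≥ i ord V Y'`. If not,
`V ∩ F = v`, `Dv K v`: `P₁(u) = ∑_j binom(j,i) a_j u^(j-i)` (`a_j` the coefficients of `P`), `ord V u = 0`,
`ord V a_j ≥ q al v w = q al V (up w)` (`Gau.ram`, the `C` are in `V`).
(2) So `P₁(u)` is in the Riemann-Roch space of `N_i(V) = -q al V (up w)` (not trivial on `F`),
`-i ord V Y'` (trivial), of degree `q ht κ (up w) - i ∑_(trivial) deg V ord V Y'`, and by the product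
formula for `Y'` (`ord V Y' = al V (up y)` at the other places, `Gau.lin`) the last sum is
`ht κ (up y)`; `ht κ (up w) = b`, `ht κ (up y) = a` (`XX_tower`, `XX_one`, `XX_perm`).
(3) `G i` = the set of `x ∈ Ω` with `ord V x ≥ -N_i(V)` for all places `V` (or `0`), a `κ`-subspace;
`rr_neg`, `rr_bound` with a fixed place `P₀`, `f₀ = deg κ P₀`: `G i = 0` for `i a > q b`, dimension
`≤ q b - i a + f₀` otherwise. `filtration` with `T = q b / a + 1`.
-/

set_option autoImplicit false
set_option linter.unusedSectionVars false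

namespace Pool.Agent.Lib.MP_1e3e9c_agU

open IsLocalRing Pool.Agent.Lib.MP_b197b4_ntK

section Gauss

open Polynomial

variable {A E : Type} [CommRing A] [Field E]

/-- A polynomial with the zero `t / s` is divisible by `s X - t`. -/
private theorem D3_div {φ : A →+* E} (hφ : Function.Injective φ) {s t : A} (hs : Prime s)
    (ht : ¬ s ∣ t) (n : ℕ) : ∀ P : A[X], P.natDegree ≤ n → (P.map φ).eval (φ t / φ s) = 0 →
      ∃ Q : A[X], P = (C s * X - C t) * Q := by
  have hs0 : φ s ≠ 0 := fun h => hs.ne_zero (hφ (by rw [h, map_zero]))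
  induction n with
  | zero =>
    intro P hP he
    refine ⟨0, ?_⟩
    rw [mul_zero]
    rw [Polynomial.eq_C_of_natDegree_le_zero hP] at he ⊢
    rw [map_C, eval_C] at he
    have h1 : P.coeff 0 = 0 := hφ (by rw [he, map_zero])
    rw [h1, map_zero]
  | succ n ih =>
    intro P hP he
    -- the leading coefficient is divisible by `s`
    have h1 : (∑ k ∈ Finset.range (n + 2), P.coeff k * t ^ k * s ^ (n + 1 - k)) = 0 := by
      apply hφ
      rw [map_zero, map_sum]
      have h2 : (P.map φ).eval (φ t / φ s) =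
          ∑ k ∈ Finset.range (n + 2), φ (P.coeff k) * (φ t / φ s) ^ k := by
        rw [Polynomial.eval_eq_sum_range' (n := n + 2)]
        · simp only [coeff_map]
        · exact Nat.lt_succ_of_le ((Polynomial.natDegree_map_le).trans hP)
      have h3 : ∑ k ∈ Finset.range (n + 2), φ (P.coeff k * t ^ k * s ^ (n + 1 - k)) =
          φ s ^ (n + 1) * ∑ k ∈ Finset.range (n + 2), φ (P.coeff k) * (φ t / φ s) ^ k := by
        rw [Finset.mul_sum]
        refine Finset.sum_congr rfl fun k hk => ?_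
        have hk' : k ≤ n + 1 := Nat.lt_succ_iff.1 (Finset.mem_range.1 hk)
        have h4 : φ s ^ (n + 1) = φ s ^ (n + 1 - k) * φ s ^ k := by
          rw [← pow_add, Nat.sub_add_cancel hk']
        have h5 : φ s ^ k * (φ t / φ s) ^ k = φ t ^ k := by
          rw [← mul_pow, mul_div_cancel₀ _ hs0]
        rw [map_mul, map_mul, map_pow, map_pow, h4, ← h5]
        ring
      rw [h3, ← h2, he, mul_zero]
    have h2 : s ∣ P.coeff (n + 1) * t ^ (n + 1) := by
      rw [Finset.sum_range_succ, Nat.sub_self, pow_zero, mul_one] at h1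
      have h3 : P.coeff (n + 1) * t ^ (n + 1) =
          -∑ k ∈ Finset.range (n + 1), P.coeff k * t ^ k * s ^ (n + 1 - k) :=
        eq_neg_of_add_eq_zero_right h1
      rw [h3, dvd_neg]
      refine Finset.dvd_sum fun k hk => ?_
      have hk' : k < n + 1 := Finset.mem_range.1 hk
      exact Dvd.dvd.mul_left (dvd_pow_self s (by omega)) _
    have h3 : s ∣ P.coeff (n + 1) := by
      rcases hs.dvd_or_dvd h2 with h | h
      · exact h
      · exact absurd (hs.dvd_of_dvd_pow h) ht
    obtain ⟨b, hb⟩ := h3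
    have h4 : (P - C b * X ^ n * (C s * X - C t)).natDegree ≤ n := by
      rw [Polynomial.natDegree_le_iff_coeff_eq_zero]
      intro m hm
      have h5 : C b * X ^ n * (C s * X - C t) = C (b * s) * X ^ (n + 1) - C (b * t) * X ^ n := by
        rw [map_mul, map_mul]
        ring
      rw [h5, coeff_sub, coeff_sub, coeff_C_mul_X_pow, coeff_C_mul_X_pow, if_neg (by omega : m ≠ n)]
      by_cases hmn : m = n + 1
      · rw [if_pos hmn, hmn, hb]
        ring
      · rw [if_neg hmn, Polynomial.coeff_eq_zero_of_natDegree_lt (by omega)]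
        ring
    have h5 : ((P - C b * X ^ n * (C s * X - C t)).map φ).eval (φ t / φ s) = 0 := by
      rw [Polynomial.map_sub, eval_sub, he, Polynomial.map_mul, eval_mul]
      have h6 : ((C s * X - C t : A[X]).map φ).eval (φ t / φ s) = 0 := by
        rw [Polynomial.map_sub, Polynomial.map_mul, map_C, map_X, map_C, eval_sub, eval_mul, eval_C,
          eval_X, eval_C, mul_div_cancel₀ _ hs0, sub_self]
      rw [h6, mul_zero, sub_zero]
    obtain ⟨Q, hQ⟩ := ih _ h4 h5
    refine ⟨Q + C b * X ^ n, ?_⟩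
    rw [mul_add, ← hQ]
    ring

private theorem D3_divpow {φ : A →+* E} (hφ : Function.Injective φ) {s t : A} (hs : Prime s)
    (ht : ¬ s ∣ t) (i : ℕ) : ∀ (Q : A[X]) (P : E[X]), Q.map φ = (X - C (φ t / φ s)) ^ i * P →
      ∃ R : A[X], Q = (C s * X - C t) ^ i * R := by
  have hs0 : φ s ≠ 0 := fun h => hs.ne_zero (hφ (by rw [h, map_zero]))
  have hlin : (C s * X - C t : A[X]).map φ = C (φ s) * (X - C (φ t / φ s)) := by
    rw [Polynomial.map_sub, Polynomial.map_mul, map_C, map_X, map_C, mul_sub, ← map_mul,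
      mul_div_cancel₀ _ hs0]
  induction i with
  | zero =>
    intro Q P h
    exact ⟨Q, by rw [pow_zero, one_mul]⟩
  | succ i ih =>
    intro Q P h
    have h1 : (Q.map φ).eval (φ t / φ s) = 0 := by
      rw [h, pow_succ, eval_mul, eval_mul, eval_sub, eval_X, eval_C, sub_self, mul_zero, zero_mul]
    obtain ⟨Q', hQ'⟩ := D3_div hφ hs ht Q.natDegree Q le_rfl h1
    have h2 : Q'.map φ = (X - C (φ t / φ s)) ^ i * (C (φ s)⁻¹ * P) := by
      have hne : C (φ s) * (X - C (φ t / φ s)) ≠ 0 :=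
        mul_ne_zero (by rwa [Ne, Polynomial.C_eq_zero]) (Polynomial.X_sub_C_ne_zero _)
      apply mul_left_cancel₀ hne
      have h3 := congrArg (Polynomial.map φ) hQ'
      rw [Polynomial.map_mul, hlin, h] at h3
      rw [← h3, pow_succ]
      have h4 : C (φ s) * C (φ s)⁻¹ = (1 : E[X]) := by
        rw [← map_mul, mul_inv_cancel₀ hs0, map_one]
      linear_combination (-(X - C (φ t / φ s)) * (X - C (φ t / φ s)) ^ i * P) * h4
    obtain ⟨R, hR⟩ := ih Q' _ h2
    refine ⟨R, ?_⟩
    rw [hQ', hR, pow_succ]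
    ring

end Gauss

section Linear

variable {F ι : Type} [Field F] [Fintype ι]

/-- The generic linear form. -/
private noncomputable def D3_lin (y : ι → F) (b : Bool) : MvPolynomial (Unit × Bool × ι) F :=
  ∑ j, MvPolynomial.C (y j) * MvPolynomial.X ((), b, j)

private theorem D3_lin_coeff [DecidableEq ι] (y : ι → F) (b : Bool) (j : ι) :
    (D3_lin y b).coeff (Finsupp.single ((), b, j) 1) = y j := by
  unfold D3_lin
  rw [MvPolynomial.coeff_sum, Finset.sum_eq_single j]
  · rw [MvPolynomial.coeff_C_mul, MvPolynomial.coeff_X, if_pos rfl, mul_one]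
  · intro j' _ hj
    rw [MvPolynomial.coeff_C_mul, MvPolynomial.coeff_X, if_neg, mul_zero]
    intro h
    have h1 := (Finsupp.single_left_inj Nat.one_ne_zero).1 h
    exact hj (by simpa using h1)
  · intro h
    exact absurd (Finset.mem_univ _) h

private theorem D3_lin_prime {y : ι → F} (hy : y ≠ 0) (b : Bool) : Prime (D3_lin y b) := by
  classical
  obtain ⟨j, hj⟩ := Function.ne_iff.1 hy
  rw [Pi.zero_apply] at hj
  have hc := D3_lin_coeff y b j
  refine Irreducible.prime (MvPolynomial.irreducible_of_totalDegree_eq_one ?_ ?_)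
  · apply le_antisymm
    · unfold D3_lin
      refine (MvPolynomial.totalDegree_finsetSum_le fun i _ => ?_)
      refine (MvPolynomial.totalDegree_mul _ _).trans ?_
      rw [MvPolynomial.totalDegree_C, MvPolynomial.totalDegree_X]
    · rw [← not_lt, Nat.lt_one_iff, MvPolynomial.totalDegree_eq_zero_iff]
      intro h
      have h1 := h (Finsupp.single ((), b, j) 1) (by
        rw [MvPolynomial.mem_support_iff, hc]
        exact hj) ((), b, j)
      rw [Finsupp.single_eq_same] at h1
      exact one_ne_zero h1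
  · intro x hx
    have h1 := hx (Finsupp.single ((), b, j) 1)
    rw [hc] at h1
    refine isUnit_iff_ne_zero.2 ?_
    rintro rfl
    exact hj (zero_dvd_iff.1 h1)

private theorem D3_lin_ndvd {y : ι → F} (hy : y ≠ 0) : ¬ D3_lin y true ∣ D3_lin y false := by
  classical
  obtain ⟨j, hj⟩ := Function.ne_iff.1 hy
  rw [Pi.zero_apply] at hj
  rintro ⟨c, hc⟩
  have h1 := congrArg (MvPolynomial.eval fun q : Unit × Bool × ι =>
    if q.2.1 = false ∧ q.2.2 = j then (1 : F) else 0) hc
  rw [map_mul] at h1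
  have h2 : ∀ b : Bool, MvPolynomial.eval (fun q : Unit × Bool × ι =>
      if q.2.1 = false ∧ q.2.2 = j then (1 : F) else 0) (D3_lin y b) = if b = false then y j else 0 := by
    intro b
    unfold D3_lin
    rw [map_sum, Finset.sum_eq_single j]
    · cases b <;> simp
    · intro j' _ hj'
      simp [hj']
    · intro h
      exact absurd (Finset.mem_univ _) h
  rw [h2, h2, if_pos rfl, if_neg (by decide), zero_mul] at h1
  exact hj h1

end Linear

section Ge

variable {Ω : Type} [Field Ω] {V : ValuationSubring Ω}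

/-- `x` is zero or of order at least `n`. -/
private def D3_ge (V : ValuationSubring Ω) (n : ℤ) (x : Ω) : Prop := x ≠ 0 → n ≤ ord V x

private theorem D3_ge_add (hV : IsDiscreteValuationRing V) {n : ℤ} {x y : Ω} (hx : D3_ge V n x)
    (hy : D3_ge V n y) : D3_ge V n (x + y) := fun h => le_ord_add hV hx hy h

private theorem D3_ge_sum (hV : IsDiscreteValuationRing V) {n : ℤ} {τ : Type} (s : Finset τ) (f : τ → Ω)
    (hf : ∀ i ∈ s, D3_ge V n (f i)) : D3_ge V n (∑ i ∈ s, f i) := fun h =>
  le_ord_sum hV s f (fun i hi => hf i hi) h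

private theorem D3_ge_mul (hV : IsDiscreteValuationRing V) {n : ℤ} {x y : Ω} (hx : x ∈ V)
    (hy : D3_ge V n y) : D3_ge V n (x * y) := by
  intro h
  have hx0 : x ≠ 0 := left_ne_zero_of_mul h
  have hy0 : y ≠ 0 := right_ne_zero_of_mul h
  rw [ord_mul hV hx0 hy0]
  have h1 := (ord_nonneg_iff hV hx0).2 hx
  have h2 := hy hy0
  omega

end Ge

variable {F ι : Type} [Field F] [CharZero F] [Fintype ι] {K : Subfield F}

/-- Elements of `K(C)` have denominators in `K[C]`. -/
private theorem D3_den {Ω : Type} [Field Ω] [Algebra F Ω] {C : Unit × Bool × ι → Ω} {β : Unit → ι → F}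
    (A : Subring Ω) (hA : ∀ x : F, algebraMap F Ω x ∈ A) (hC : ∀ q, C q ∈ A) {x : Ω}
    (hx : x ∈ cb K C β ∅) : ∃ d ∈ cb K C β ∅, d ≠ 0 ∧ d ∈ A ∧ d * x ∈ A := by
  have h1 : cb K C β ∅ = Subfield.closure ((algebraMap F Ω '' (K : Set F)) ∪ Set.range C) := by
    unfold cb
    rw [Set.image_empty, Set.union_empty]
  have h2 : ∀ x ∈ cb K C β ∅, ∃ d ∈ cb K C β ∅, d ≠ 0 ∧ d ∈ A ∧ d * x ∈ A := by
    intro x hx
    have hx' := hx
    rw [h1] at hx
    induction hx using Subfield.closure_induction with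
    | mem x h =>
      refine ⟨1, one_mem _, one_ne_zero, one_mem _, ?_⟩
      rw [one_mul]
      rcases h with ⟨a, _, rfl⟩ | ⟨q, rfl⟩
      · exact hA a
      · exact hC q
    | one => exact ⟨1, one_mem _, one_ne_zero, one_mem _, by rw [one_mul]; exact one_mem _⟩
    | add x y hx1 hy1 ihx ihy =>
      obtain ⟨d, hd, hd0, hdA, hdx⟩ := ihx (by rw [h1]; exact hx1)
      obtain ⟨e, he, he0, heA, hey⟩ := ihy (by rw [h1]; exact hy1)
      refine ⟨d * e, mul_mem hd he, mul_ne_zero hd0 he0, mul_mem hdA heA, ?_⟩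
      have h3 : d * e * (x + y) = e * (d * x) + d * (e * y) := by ring
      rw [h3]
      exact add_mem (mul_mem heA hdx) (mul_mem hdA hey)
    | neg x hx1 ihx =>
      obtain ⟨d, hd, hd0, hdA, hdx⟩ := ihx (by rw [h1]; exact hx1)
      exact ⟨d, hd, hd0, hdA, by rw [mul_neg]; exact neg_mem hdx⟩
    | inv x hx1 ihx =>
      obtain ⟨d, hd, hd0, hdA, hdx⟩ := ihx (by rw [h1]; exact hx1)
      by_cases hx0 : x = 0
      · refine ⟨1, one_mem _, one_ne_zero, one_mem _, ?_⟩
        rw [hx0, inv_zero, mul_zero]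
        exact zero_mem _
      · have hxm : x ∈ cb K C β ∅ := by rw [h1]; exact hx1
        refine ⟨d * x, mul_mem hd hxm, mul_ne_zero hd0 hx0, hdx, ?_⟩
        rw [mul_assoc, mul_inv_cancel₀ hx0, mul_one]
        exact hdA
    | mul x y hx1 hy1 ihx ihy =>
      obtain ⟨d, hd, hd0, hdA, hdx⟩ := ihx (by rw [h1]; exact hx1)
      obtain ⟨e, he, he0, heA, hey⟩ := ihy (by rw [h1]; exact hy1)
      refine ⟨d * e, mul_mem hd he, mul_ne_zero hd0 he0, mul_mem hdA heA, ?_⟩
      have h3 : d * e * (x * y) = (d * x) * (e * y) := by ring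
      rw [h3]
      exact mul_mem hdx hey
  exact h2 x hx

/-- The same for the elements of the span of `F`. -/
private theorem D3_den_span {Ω : Type} [Field Ω] [Algebra F Ω] {C : Unit × Bool × ι → Ω}
    {β : Unit → ι → F} (A : Subring Ω) (hA : ∀ x : F, algebraMap F Ω x ∈ A) (hC : ∀ q, C q ∈ A)
    (S : Set F) {x : Ω} (hx : x ∈ Submodule.span (cb K C β ∅) (algebraMap F Ω '' S)) :
    ∃ d ∈ cb K C β ∅, d ≠ 0 ∧ d ∈ A ∧ d * x ∈ A := by
  induction hx using Submodule.span_induction with
  | mem x h =>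
    refine ⟨1, one_mem _, one_ne_zero, one_mem _, ?_⟩
    rw [one_mul]
    obtain ⟨a, _, rfl⟩ := h
    exact hA a
  | zero => exact ⟨1, one_mem _, one_ne_zero, one_mem _, by rw [mul_zero]; exact zero_mem _⟩
  | add x y _ _ ihx ihy =>
    obtain ⟨d, hd, hd0, hdA, hdx⟩ := ihx
    obtain ⟨e, he, he0, heA, hey⟩ := ihy
    refine ⟨d * e, mul_mem hd he, mul_ne_zero hd0 he0, mul_mem hdA heA, ?_⟩
    have h3 : d * e * (x + y) = e * (d * x) + d * (e * y) := by ring
    rw [h3]
    exact add_mem (mul_mem heA hdx) (mul_mem hdA hey)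
  | smul k x _ ihx =>
    obtain ⟨d, hd, hd0, hdA, hdx⟩ := ihx
    obtain ⟨e, he, he0, heA, hek⟩ := D3_den A hA hC k.2
    refine ⟨d * e, mul_mem hd he, mul_ne_zero hd0 he0, mul_mem hdA heA, ?_⟩
    have h3 : d * e * (k • x) = (e * k) * (d * x) := by
      rw [Subfield.smul_def, smul_eq_mul]
      ring
    rw [h3]
    exact mul_mem hek hdx

private theorem D3_set : {i : Unit | i ∈ [()]} = Set.univ := by
  ext i
  simp

private theorem D3_gau {Ω : Type} [Field Ω] [Algebra F Ω] {y : ι → F} (hy : y ≠ 0)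
    (hF : FF K 2) {C : Unit × Bool × ι → Ω} (hC : Gn F C)
    (h1 : FF (cb K C (fun _ => y) Set.univ) 1) {V : ValuationSubring Ω}
    (hV : Dv (cb K C (fun _ => y) Set.univ) V) (hn : V.comap (algebraMap F Ω) ≠ ⊤) :
    Gau K C (V.comap (algebraMap F Ω)) V := by
  rw [← D3_set] at h1 hV
  exact (place_nontriv hC (fun _ => y) [()] (fun _ _ => hy) (List.nodup_singleton _) hF h1 V hV hn).1

private theorem D3_al_up {Ω : Type} [Field Ω] [Algebra F Ω] {v : ValuationSubring F}
    {V : ValuationSubring Ω} (h : ∀ x : F, x ≠ 0 → ord V (algebraMap F Ω x) = ord v x) {w : ι → F}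
    (hw : w ≠ 0) : al V (up Ω w) = al v w := by
  have hw' : up Ω w ≠ 0 := by
    intro h0
    apply hw
    funext j
    exact (map_eq_zero (algebraMap F Ω)).1 (congrFun h0 j)
  apply le_antisymm
  · obtain ⟨j, hj, hj'⟩ := exists_al (V := v) hw
    rw [← hj', ← h _ hj]
    exact al_le (V := V) (z := up Ω w) fun h0 => hj ((map_eq_zero (algebraMap F Ω)).1 h0)
  · refine le_al hw' fun j hj => ?_
    have hj0 : w j ≠ 0 := fun h0 => hj (by rw [up, h0, map_zero])
    have h1 : ord V (up Ω w j) = ord v (w j) := h _ hj0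
    rw [h1]
    exact al_le hj0

private theorem D3_al_triv {Ω : Type} [Field Ω] [Algebra F Ω]
    {V : ValuationSubring Ω} (h : V.comap (algebraMap F Ω) = ⊤) {w : ι → F}
    (hw : w ≠ 0) : al V (up Ω w) = 0 := by
  have hw' : up Ω w ≠ 0 := by
    intro h0
    apply hw
    funext j
    exact (map_eq_zero (algebraMap F Ω)).1 (congrFun h0 j)
  obtain ⟨j, hj, hj'⟩ := exists_al (V := V) hw'
  rw [← hj']
  exact ord_of_triv h _

/-- The denominator of the generic function. -/
private noncomputable def D3_Y {Ω : Type} [Field Ω] [Algebra F Ω] (y : ι → F)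
    (C : Unit × Bool × ι → Ω) (b : Bool) : Ω := ∑ j, C ((), b, j) * algebraMap F Ω (y j)

private theorem D3_lin_aeval {Ω : Type} [Field Ω] [Algebra F Ω] (y : ι → F)
    (C : Unit × Bool × ι → Ω) (b : Bool) : MvPolynomial.aeval C (D3_lin y b) = D3_Y y C b := by
  unfold D3_lin D3_Y
  rw [map_sum]
  refine Finset.sum_congr rfl fun j _ => ?_
  rw [map_mul, MvPolynomial.aeval_C, MvPolynomial.aeval_X, mul_comm]

private theorem D3_gu {Ω : Type} [Field Ω] [Algebra F Ω] (y : ι → F)
    (C : Unit × Bool × ι → Ω) : gu C (fun _ => y) () = D3_Y y C false / D3_Y y C true := rfl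

/-- Claim (1), for the standard generic extension. -/
theorem lead_bound {Ω : Type} [Field Ω] [Algebra F Ω] {y w : ι → F} (hy : y ≠ 0) (hw : w ≠ 0)
    (hF : FF K 2) {C : Unit × Bool × ι → Ω} (hC : Gn F C)
    (h1 : FF (cb K C (fun _ => y) Set.univ) 1)
    (L : Submodule K F) (q : ℕ)
    (hL : ∀ x ∈ L, x ≠ 0 → ∀ v, Dv K v → (q : ℤ) * al v w ≤ ord v x)
    (i : ℕ) (P₁ : Polynomial Ω) (hP : P₁ ≠ 0)
    (hP' : ∀ j, ((Polynomial.X - Polynomial.C (gu C (fun _ => y) ())) ^ i * P₁).coeff j ∈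
      Submodule.span (cb K C (fun _ => y) ∅) (algebraMap F Ω '' (L : Set F)))
    (h0 : P₁.eval (gu C (fun _ => y) ()) ≠ 0)
    (V : ValuationSubring Ω) (hV : Dv (cb K C (fun _ => y) Set.univ) V) :
    (V.comap (algebraMap F Ω) ≠ ⊤ → (q : ℤ) * al V (up Ω w) ≤
      ord V (P₁.eval (gu C (fun _ => y) ()))) ∧
    (V.comap (algebraMap F Ω) = ⊤ → (i : ℤ) * ord V (∑ j, C ((), true, j) * algebraMap F Ω (y j)) ≤
      ord V (P₁.eval (gu C (fun _ => y) ()))) := by
  have hDV := hV.1
  obtain ⟨u, hu⟩ : ∃ u, u = gu C (fun _ => y) () := ⟨_, rfl⟩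
  have hK₁ : cb K C (fun _ => y) ∅ ≤ cb K C (fun _ => y) Set.univ := by
    unfold cb
    exact Subfield.closure_mono (Set.union_subset_union_right _ (Set.image_mono (Set.empty_subset _)))
  have hK₁V : ∀ k ∈ cb K C (fun _ => y) ∅, k ∈ V := fun k hk => hV.2 k (hK₁ hk)
  have huκ : u ∈ cb K C (fun _ => y) Set.univ := by
    rw [hu]
    exact Subfield.subset_closure (Or.inr ⟨(), Set.mem_univ _, rfl⟩)
  have huV : u ∈ V := hV.2 u huκ
  have hCK : ∀ q, C q ∈ cb K C (fun _ => y) ∅ := fun q =>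
    Subfield.subset_closure (Or.inl (Or.inr ⟨q, rfl⟩))
  rw [← hu] at hP' h0 ⊢
  constructor
  · intro hn
    have hG := D3_gau hy hF hC h1 hV hn
    obtain ⟨n, hnd⟩ : ∃ n : ℤ, n = (q : ℤ) * al V (up Ω w) := ⟨_, rfl⟩
    have hal := D3_al_up hG.ram hw
    have hspan : ∀ x ∈ Submodule.span (cb K C (fun _ => y) ∅) (algebraMap F Ω '' (L : Set F)),
        D3_ge V n x := by
      intro x hx
      induction hx using Submodule.span_induction with
      | mem x h =>
        obtain ⟨a, ha, rfl⟩ := h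
        intro hx0
        have ha0 : a ≠ 0 := fun h => hx0 (by rw [h, map_zero])
        rw [hG.ram a ha0, hnd, hal]
        exact hL a ha ha0 _ hG.dv
      | zero => exact fun h => absurd rfl h
      | add x y _ _ ihx ihy => exact D3_ge_add hDV ihx ihy
      | smul k x _ ihx =>
        rw [Subfield.smul_def, smul_eq_mul]
        exact D3_ge_mul hDV (hK₁V _ k.2) ihx
    rw [← hnd]
    have he : P₁.eval u = (Polynomial.hasseDeriv i ((Polynomial.X - Polynomial.C u) ^ i * P₁)).eval u := by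
      rw [← Polynomial.taylor_coeff, Polynomial.taylor_mul, Polynomial.taylor_pow]
      have h2 : Polynomial.taylor u (Polynomial.X - Polynomial.C u) = Polynomial.X := by
        rw [map_sub, Polynomial.taylor_X, Polynomial.taylor_C, add_sub_cancel_right]
      rw [h2, Polynomial.coeff_X_pow_mul', if_pos le_rfl, Nat.sub_self, Polynomial.taylor_coeff_zero]
    have hge : D3_ge V n (P₁.eval u) := by
      rw [he, Polynomial.eval_eq_sum_range]
      refine D3_ge_sum hDV _ _ fun m _ => ?_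
      rw [Polynomial.hasseDeriv_coeff]
      have h3 : ((m + i).choose i : Ω) * ((Polynomial.X - Polynomial.C u) ^ i * P₁).coeff (m + i) * u ^ m =
          (((m + i).choose i : Ω) * u ^ m) * ((Polynomial.X - Polynomial.C u) ^ i * P₁).coeff (m + i) := by
        ring
      rw [h3]
      exact D3_ge_mul hDV (mul_mem (natCast_mem _ _) (pow_mem huV _)) (hspan _ (hP' _))
    exact hge h0
  · intro ht
    obtain ⟨φ, hφ⟩ : ∃ φ : MvPolynomial (Unit × Bool × ι) F →+* Ω,
      φ = (MvPolynomial.aeval C : MvPolynomial (Unit × Bool × ι) F →ₐ[F] Ω).toRingHom := ⟨_, rfl⟩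
    have hφa : ∀ p, φ p = MvPolynomial.aeval C p := fun p => by rw [hφ]; rfl
    have hφi : Function.Injective φ := by
      intro p p' h
      rw [hφa, hφa] at h
      exact hC.1 h
    have hAF : ∀ x : F, algebraMap F Ω x ∈ φ.range := fun x =>
      ⟨MvPolynomial.C x, by rw [hφa, MvPolynomial.aeval_C]⟩
    have hAC : ∀ q, C q ∈ φ.range := fun q => ⟨MvPolynomial.X q, by rw [hφa, MvPolynomial.aeval_X]⟩
    have hs := D3_lin_prime hy true
    have hnd := D3_lin_ndvd hy
    have hφs : φ (D3_lin y true) = D3_Y y C true := by rw [hφa, D3_lin_aeval]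
    have hφt : φ (D3_lin y false) = D3_Y y C false := by rw [hφa, D3_lin_aeval]
    have hs0 : D3_Y y C true ≠ 0 := by
      rw [← hφs]
      exact fun h => hs.ne_zero (hφi (by rw [h, map_zero]))
    have hu' : u = φ (D3_lin y false) / φ (D3_lin y true) := by rw [hu, D3_gu, hφs, hφt]
    obtain ⟨P, hPd⟩ : ∃ P, P = (Polynomial.X - Polynomial.C u) ^ i * P₁ := ⟨_, rfl⟩
    rw [← hPd] at hP'
    choose d hdK hd0 hdA hdP using fun j => D3_den_span φ.range hAF hAC _ (hP' j)
    obtain ⟨e, hed⟩ : ∃ e, e = ∏ j ∈ P.support, d j := ⟨_, rfl⟩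
    have heK : e ∈ cb K C (fun _ => y) ∅ := by
      rw [hed]
      exact prod_mem fun j _ => hdK j
    have he0 : e ≠ 0 := by
      rw [hed]
      exact Finset.prod_ne_zero_iff.2 fun j _ => hd0 j
    have heP : ∀ j, e * P.coeff j ∈ φ.range := by
      intro j
      by_cases hj : j ∈ P.support
      · rw [hed, ← Finset.mul_prod_erase _ _ hj]
        have h3 : d j * (∏ m ∈ P.support.erase j, d m) * P.coeff j =
            (∏ m ∈ P.support.erase j, d m) * (d j * P.coeff j) := by ring
        rw [h3]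
        exact mul_mem (prod_mem fun m _ => hdA m) (hdP j)
      · rw [Polynomial.notMem_support_iff.1 hj, mul_zero]
        exact zero_mem _
    obtain ⟨Q, hQ⟩ : ∃ Q : Polynomial (MvPolynomial (Unit × Bool × ι) F),
        Q.map φ = Polynomial.C e * P := by
      have h3 : Polynomial.C e * P ∈ Polynomial.lifts φ := by
        rw [Polynomial.lifts_iff_coeff_lifts]
        intro j
        rw [Polynomial.coeff_C_mul]
        obtain ⟨a, ha⟩ := heP j
        exact ⟨a, ha⟩
      exact (Polynomial.mem_lifts _).1 h3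
    have hQ' : Q.map φ = (Polynomial.X - Polynomial.C (φ (D3_lin y false) / φ (D3_lin y true))) ^ i *
        (Polynomial.C e * P₁) := by
      rw [hQ, hPd, ← hu']
      ring
    obtain ⟨R, hR⟩ := D3_divpow hφi hs hnd i Q _ hQ'
    have hlin : (Polynomial.C (D3_lin y true) * Polynomial.X - Polynomial.C (D3_lin y false)).map φ =
        Polynomial.C (D3_Y y C true) * (Polynomial.X - Polynomial.C u) := by
      rw [Polynomial.map_sub, Polynomial.map_mul, Polynomial.map_C, Polynomial.map_X, Polynomial.map_C,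
        mul_sub, ← map_mul, hu', hφs, hφt, mul_div_cancel₀ _ hs0]
    have hfin : Polynomial.C (D3_Y y C true) ^ i * R.map φ = Polynomial.C e * P₁ := by
      have h3 : (Polynomial.X - Polynomial.C u) ^ i ≠ 0 := pow_ne_zero _ (Polynomial.X_sub_C_ne_zero _)
      apply mul_left_cancel₀ h3
      rw [← hu'] at hQ'
      rw [← hQ', hR, Polynomial.map_mul, Polynomial.map_pow, hlin, mul_pow]
      ring
    have hev : D3_Y y C true ^ i * (R.map φ).eval u = e * P₁.eval u := by
      have h3 := congrArg (Polynomial.eval u) hfin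
      rwa [Polynomial.eval_mul, Polynomial.eval_pow, Polynomial.eval_C, Polynomial.eval_mul,
        Polynomial.eval_C] at h3
    have hRV : (R.map φ).eval u ∈ V := by
      rw [Polynomial.eval_eq_sum_range]
      refine sum_mem fun m _ => mul_mem ?_ (pow_mem huV _)
      rw [Polynomial.coeff_map]
      have h3 : ∀ p : MvPolynomial (Unit × Bool × ι) F, φ p ∈ V := by
        intro p
        induction p using MvPolynomial.induction_on with
        | C a =>
          rw [hφa, MvPolynomial.aeval_C]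
          have h4 : a ∈ V.comap (algebraMap F Ω) := by
            rw [ht]
            exact ValuationSubring.mem_top a
          exact h4
        | add p p' hp hp' =>
          rw [map_add]
          exact add_mem hp hp'
        | mul_X p q hp =>
          rw [map_mul]
          refine mul_mem hp ?_
          rw [hφa, MvPolynomial.aeval_X]
          exact hK₁V _ (hCK q)
      exact h3 _
    have hR0 : (R.map φ).eval u ≠ 0 := by
      intro h3
      rw [h3, mul_zero] at hev
      exact (mul_ne_zero he0 h0) hev.symm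
    have heV : ord V e = 0 := by
      have h3 := (ord_nonneg_iff hDV he0).2 (hK₁V e heK)
      have h4 := (ord_nonneg_iff hDV (inv_ne_zero he0)).2 (hK₁V e⁻¹ (inv_mem heK))
      rw [ord_inv hDV he0] at h4
      omega
    have hfin2 := congrArg (ord V) hev
    rw [ord_mul hDV (pow_ne_zero _ hs0) hR0, ord_mul hDV he0 h0, ord_pow hDV hs0, heV, zero_add] at hfin2
    have h3 := (ord_nonneg_iff hDV hR0).2 hRV
    show (i : ℤ) * ord V (D3_Y y C true) ≤ ord V (P₁.eval u)
    omega

section Upper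

variable {Ω : Type} [Field Ω] {κ : Subfield Ω}

/-- A sum over the places, as a finite sum. -/
private theorem D3_fs (g : ValuationSubring Ω → ℤ) (T : Finset (ValuationSubring Ω))
    (hT : ∀ V, Dv κ V → g V ≠ 0 → V ∈ T) (hT' : ∀ V ∈ T, Dv κ V) :
    ∑ᶠ (V : ValuationSubring Ω) (_ : Dv κ V), g V = ∑ V ∈ T, g V :=
  finsum_mem_eq_sum_of_subset (s := {V | Dv κ V}) g (fun V h => hT V h.1 h.2) fun V h => hT' V h

/-- The space of the functions with poles bounded by `N`. -/
private def D3_G (κ : Subfield Ω) (N : ValuationSubring Ω → ℤ) : Submodule κ Ω where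
  carrier := {x | ∀ V, Dv κ V → D3_ge V (-N V) x}
  add_mem' := fun hx hy V hV => D3_ge_add hV.1 (hx V hV) (hy V hV)
  zero_mem' := fun _ _ h => absurd rfl h
  smul_mem' := by
    intro c x hx V hV
    rw [Subfield.smul_def, smul_eq_mul]
    exact D3_ge_mul hV.1 (hV.2 _ c.2) (hx V hV)

private theorem D3_mem_G {N : ValuationSubring Ω → ℤ} {x : Ω} :
    x ∈ D3_G κ N ↔ ∀ V, Dv κ V → D3_ge V (-N V) x := Iff.rfl

/-- The same space over the field `K₁(u) = κ`. -/
private def D3_G' {K₁ : Subfield Ω} {u : Ω} (hκ : (IntermediateField.adjoin K₁ {u}).toSubfield = κ)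
    (N : ValuationSubring Ω → ℤ) : Submodule (IntermediateField.adjoin K₁ {u}) Ω where
  carrier := {x | x ∈ D3_G κ N}
  add_mem' := fun hx hy => (D3_G κ N).add_mem hx hy
  zero_mem' := (D3_G κ N).zero_mem
  smul_mem' := by
    intro c x hx
    have hc : (c : Ω) ∈ κ := by
      rw [← hκ]
      exact c.2
    exact (D3_G κ N).smul_mem ⟨c, hc⟩ hx

private theorem D3_mem_G' {K₁ : Subfield Ω} {u : Ω}
    (hκ : (IntermediateField.adjoin K₁ {u}).toSubfield = κ) {N : ValuationSubring Ω → ℤ} {x : Ω} :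
    x ∈ D3_G' hκ N ↔ x ∈ D3_G κ N := Iff.rfl

private theorem D3_rank {K₁ : Subfield Ω} {u : Ω}
    (hκ : (IntermediateField.adjoin K₁ {u}).toSubfield = κ) (N : ValuationSubring Ω → ℤ) :
    Module.rank (IntermediateField.adjoin K₁ {u}) (D3_G' hκ N) = Module.rank κ (D3_G κ N) := by
  have hc : ∀ c : Ω, c ∈ IntermediateField.adjoin K₁ {u} ↔ c ∈ κ := by
    intro c
    rw [← hκ]
    exact Iff.rfl
  refine rank_eq_of_equiv_equiv (fun c => ⟨c, (hc c).1 c.2⟩)
    ({ toFun := fun x => ⟨x, (D3_mem_G' hκ).1 x.2⟩, invFun := fun x => ⟨x, (D3_mem_G' hκ).2 x.2⟩,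
       left_inv := fun _ => rfl, right_inv := fun _ => rfl,
       map_add' := fun _ _ => rfl } : D3_G' hκ N ≃+ D3_G κ N) ?_ ?_
  · constructor
    · intro c c' h
      have h1 := congrArg (Subtype.val : κ → Ω) h
      exact Subtype.ext h1
    · intro c
      exact ⟨⟨c, (hc c).2 c.2⟩, rfl⟩
  · intro r m
    rfl

end Upper

private theorem D3_upper {Ω : Type} [Field Ω] [Algebra F Ω] [CharZero Ω] {C : Unit × Bool × ι → Ω}
    (hC : Gn F C) {y w : ι → F} (hy : y ≠ 0) (hw : w ≠ 0) (hF : FF K 2) (ha : 0 < XX K [y, y]) :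
    ∃ f₀ : ℕ, ∀ (L : Submodule K F) [Module.Finite K L] (q : ℕ),
      (∀ x ∈ L, x ≠ 0 → ∀ v, Dv K v → (q : ℤ) * al v w ≤ ord v x) →
      Module.finrank K L ≤ ∑ i ∈ Finset.range (q * XX K [y, w] / XX K [y, y] + 1),
        (q * XX K [y, w] - i * XX K [y, y] + f₀) := by
  classical
  obtain ⟨u, hu⟩ : ∃ u, u = gu C (fun _ => y) () := ⟨_, rfl⟩
  obtain ⟨a, had⟩ : ∃ a, a = XX K [y, y] := ⟨_, rfl⟩
  obtain ⟨b, hbd⟩ : ∃ b, b = XX K [y, w] := ⟨_, rfl⟩
  have h1 : FF (cb K C (fun _ => y) Set.univ) 1 := by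
    rw [← D3_set]
    exact FF_cb (e := 1) hC (fun _ => y) [()] (List.nodup_singleton _) hF [y] rfl ha
  have htr : ¬ IsAlgebraic (cb K C (fun _ => y) ∅) u := by
    have h2 := ind_of_pos hF hC (fun _ => y) [()] (List.nodup_singleton _) [y] rfl ha
    have h3 := h2.transcendental ⟨(), List.mem_singleton_self _⟩
    rw [hu]
    exact h3
  have hK₁ : cb K C (fun _ => y) ∅ ≤ cb K C (fun _ => y) Set.univ := by
    unfold cb
    exact Subfield.closure_mono (Set.union_subset_union_right _ (Set.image_mono (Set.empty_subset _)))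
  have huκ : u ∈ cb K C (fun _ => y) Set.univ := by
    rw [hu]
    exact Subfield.subset_closure (Or.inr ⟨(), Set.mem_univ _, rfl⟩)
  have hκ : (IntermediateField.adjoin (cb K C (fun _ => y) ∅) {u}).toSubfield =
      cb K C (fun _ => y) Set.univ := by
    rw [IntermediateField.adjoin_toSubfield]
    apply le_antisymm
    · rw [Subfield.closure_le]
      rintro _ (⟨k, rfl⟩ | h)
      · exact hK₁ k.2
      · rw [Set.mem_singleton_iff.1 h]
        exact huκ
    · unfold cb
      rw [Subfield.closure_le]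
      rintro x (h | ⟨i, _, rfl⟩)
      · refine Subfield.subset_closure (Or.inl ⟨⟨x, ?_⟩, rfl⟩)
        exact Subfield.subset_closure (Or.inl h)
      · exact Subfield.subset_closure (Or.inr hu.symm)
  have hup : ∀ {z : ι → F}, z ≠ 0 → up Ω z ≠ 0 := by
    intro z hz h0
    apply hz
    funext j
    exact (map_eq_zero (algebraMap F Ω)).1 (congrFun h0 j)
  -- the heights
  have hht : ∀ {z : ι → F}, z ≠ 0 → (XX K [y, z] : ℤ) = ht (cb K C (fun _ => y) Set.univ) (up Ω z) := by
    intro z hz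
    have h2 := XX_tower K hC (fun _ => y) [()] (List.nodup_singleton _) [z]
    rw [D3_set] at h2
    have h3 : XX K ([z] ++ [()].map (fun _ => y)) = XX K [y, z] := XX_perm K (List.Perm.swap y z [])
    rw [h3] at h2
    rw [← XX_one h1 (hup hz), ← h2]
    rfl
  -- a place
  obtain ⟨P₀, hP₀⟩ : ∃ P₀, Dv (cb K C (fun _ => y) Set.univ) P₀ := by
    by_contra hno
    have halg : Algebra.IsAlgebraic (cb K C (fun _ => y) Set.univ) Ω := by
      refine ⟨fun x => ?_⟩
      by_contra hx
      obtain ⟨V, hV, _⟩ := exists_place h1 hx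
      exact hno ⟨V, hV⟩
    have h2 : Algebra.trdeg (cb K C (fun _ => y) Set.univ) Ω = 0 := trdeg_eq_zero
    have h3 := h1.2
    rw [h2, Nat.cast_one] at h3
    exact zero_ne_one h3
  refine ⟨deg (cb K C (fun _ => y) Set.univ) P₀, ?_⟩
  intro L _ q hL
  obtain ⟨f₀, hf₀⟩ : ∃ f₀, f₀ = deg (cb K C (fun _ => y) Set.univ) P₀ := ⟨_, rfl⟩
  rw [← hf₀, ← had, ← hbd]
  rw [← had] at ha
  -- the divisors
  obtain ⟨N, hN⟩ : ∃ N : ℕ → ValuationSubring Ω → ℤ, ∀ i V, N i V =
    -((q : ℤ) * al V (up Ω w)) - (i : ℤ) * (ord V (D3_Y y C true) - al V (up Ω y)) := ⟨_, fun _ _ => rfl⟩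
  have hY0 : D3_Y y C true ≠ 0 := by
    rw [← D3_lin_aeval]
    intro h
    apply (D3_lin_prime hy true).ne_zero
    apply hC.1
    rw [h, map_zero]
  have hfin := (((al_fin h1 (up Ω w)).union (al_fin h1 (up Ω y))).union (ord_fin h1 hY0))
  obtain ⟨T, hTd⟩ : ∃ T, T = hfin.toFinset := ⟨_, rfl⟩
  have hTmem : ∀ V, V ∈ T ↔ ((Dv (cb K C (fun _ => y) Set.univ) V ∧ al V (up Ω w) ≠ 0) ∨
      (Dv (cb K C (fun _ => y) Set.univ) V ∧ al V (up Ω y) ≠ 0)) ∨
      (Dv (cb K C (fun _ => y) Set.univ) V ∧ ord V (D3_Y y C true) ≠ 0) := by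
    intro V
    rw [hTd, Set.Finite.mem_toFinset]
    exact Iff.rfl
  have hT' : ∀ V ∈ T, Dv (cb K C (fun _ => y) Set.univ) V := by
    intro V hV
    rcases (hTmem V).1 hV with (h | h) | h
    · exact h.1
    · exact h.1
    · exact h.1
  have hNT : ∀ i V, Dv (cb K C (fun _ => y) Set.univ) V → N i V ≠ 0 → V ∈ T := by
    intro i V hV h
    rw [hTmem]
    by_contra hno
    push Not at hno
    obtain ⟨⟨e1, e2⟩, e3⟩ := hno
    apply h
    rw [hN, e1 hV, e2 hV, e3 hV]
    ring
  have hNfin : ∀ i, {V : ValuationSubring Ω | Dv (cb K C (fun _ => y) Set.univ) V ∧ N i V ≠ 0}.Finite := by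
    intro i
    refine T.finite_toSet.subset fun V h => ?_
    exact hNT i V h.1 h.2
  have hsum : ∀ i : ℕ, ∑ᶠ (V : ValuationSubring Ω) (_ : Dv (cb K C (fun _ => y) Set.univ) V),
      (deg (cb K C (fun _ => y) Set.univ) V : ℤ) * N i V = (q : ℤ) * b - i * a := by
    intro i
    have e1 : (b : ℤ) = -∑ V ∈ T, (deg (cb K C (fun _ => y) Set.univ) V : ℤ) * al V (up Ω w) := by
      rw [hbd, hht hw]
      unfold ht
      congr 1
      refine D3_fs _ T (fun V hV h => ?_) hT'
      rw [hTmem]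
      exact Or.inl (Or.inl ⟨hV, right_ne_zero_of_mul h⟩)
    have e2 : (a : ℤ) = ∑ V ∈ T, (deg (cb K C (fun _ => y) Set.univ) V : ℤ) *
        (ord V (D3_Y y C true) - al V (up Ω y)) := by
      rw [had, hht hy, ← ht_eq_excess h1 (hup hy) hY0]
      refine D3_fs _ T (fun V hV h => ?_) hT'
      rw [hTmem]
      have h2 := right_ne_zero_of_mul h
      by_cases h3 : ord V (D3_Y y C true) = 0
      · refine Or.inl (Or.inr ⟨hV, fun h4 => h2 ?_⟩)
        rw [h3, h4, sub_zero]
      · exact Or.inr ⟨hV, h3⟩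
    rw [D3_fs _ T (fun V hV h => hNT i V hV (right_ne_zero_of_mul h)) hT', e1, e2, mul_neg,
      Finset.mul_sum, Finset.mul_sum, ← Finset.sum_neg_distrib, ← Finset.sum_sub_distrib]
    refine Finset.sum_congr rfl fun V _ => ?_
    rw [hN]
    ring
  have hGL : ∀ i, ∀ x ∈ D3_G (cb K C (fun _ => y) Set.univ) (N i), x ≠ 0 →
      ∀ V, Dv (cb K C (fun _ => y) Set.univ) V → 0 ≤ ord V x + N i V := by
    intro i x hx hx0 V hV
    have h2 := hx V hV hx0
    omega
  have hGbot : ∀ i : ℕ, q * b < i * a → D3_G (cb K C (fun _ => y) Set.univ) (N i) = ⊥ := by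
    intro i hi
    refine rr_neg h1 (N i) (hNfin i) _ (hGL i) ?_
    rw [hsum]
    have : (q : ℤ) * b < i * a := by exact_mod_cast hi
    omega
  have hGb : ∀ i : ℕ, i * a ≤ q * b → FiniteDimensional (cb K C (fun _ => y) Set.univ)
      (D3_G (cb K C (fun _ => y) Set.univ) (N i)) ∧
      Module.finrank (cb K C (fun _ => y) Set.univ) (D3_G (cb K C (fun _ => y) Set.univ) (N i)) ≤
        q * b - i * a + f₀ := by
    intro i hi
    have hi' : (i : ℤ) * a ≤ q * b := by exact_mod_cast hi
    have h2 := rr_bound h1 P₀ hP₀ (N i) (hNfin i) _ (hGL i) (by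
      rw [hsum]
      omega)
    refine ⟨h2.1, ?_⟩
    have h3 := h2.2
    rw [hsum, ← hf₀] at h3
    zify [hi]
    exact h3
  -- the span of `L`
  obtain ⟨La, hLa⟩ : ∃ La : Submodule (cb K C (fun _ => y) ∅) Ω,
    La = Submodule.span (cb K C (fun _ => y) ∅) (algebraMap F Ω '' (L : Set F)) := ⟨_, rfl⟩
  obtain ⟨bs, _⟩ : ∃ bs : Module.Basis (Fin (Module.finrank K L)) K L, True := ⟨Module.finBasis K L, trivial⟩
  have hcb : cb K C (fun _ => y) ∅ =
      Subfield.closure ((algebraMap F Ω '' (K : Set F)) ∪ Set.range C) := by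
    unfold cb
    rw [Set.image_empty, Set.union_empty]
  have hli0 : LinearIndependent K (fun i => ((bs i : L) : F)) :=
    bs.linearIndependent.map' L.subtype (Submodule.ker_subtype L)
  have hli : LinearIndependent (cb K C (fun _ => y) ∅) (fun i => algebraMap F Ω ((bs i : L) : F)) := by
    have h2 := linInd_pure hC K hli0
    rw [← hcb] at h2
    exact h2
  have hbLa : ∀ i, algebraMap F Ω ((bs i : L) : F) ∈ La := by
    intro i
    rw [hLa]
    exact Submodule.subset_span ⟨_, (bs i).2, rfl⟩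
  have hLspan : La = Submodule.span (cb K C (fun _ => y) ∅)
      (Set.range fun i => algebraMap F Ω ((bs i : L) : F)) := by
    apply le_antisymm
    · rw [hLa, Submodule.span_le]
      rintro _ ⟨x, hx, rfl⟩
      have h2 : x = ∑ i, ((bs.repr ⟨x, hx⟩ i : K) : F) * ((bs i : L) : F) := by
        have h3 := congrArg (Subtype.val : L → F) (bs.sum_repr ⟨x, hx⟩)
        refine h3.symm.trans ?_
        rw [Submodule.coe_sum]
        rfl
      rw [h2, map_sum]
      refine Submodule.sum_mem _ fun i _ => ?_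
      rw [map_mul]
      have hk : algebraMap F Ω ((bs.repr ⟨x, hx⟩ i : K) : F) ∈ cb K C (fun _ => y) ∅ := by
        rw [hcb]
        exact Subfield.subset_closure (Or.inl ⟨_, (bs.repr ⟨x, hx⟩ i).2, rfl⟩)
      exact Submodule.smul_mem _ (⟨_, hk⟩ : cb K C (fun _ => y) ∅) (Submodule.subset_span ⟨i, rfl⟩)
    · rw [Submodule.span_le]
      rintro _ ⟨i, rfl⟩
      exact hbLa i
  have hLfin : Module.Finite (cb K C (fun _ => y) ∅) La := by
    rw [hLspan]
    exact FiniteDimensional.span_of_finite _ (Set.finite_range _)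
  have hrk : Module.finrank K L ≤ Module.finrank (cb K C (fun _ => y) ∅) La := by
    have h2 : LinearIndependent (cb K C (fun _ => y) ∅)
        (fun i => (⟨algebraMap F Ω ((bs i : L) : F), hbLa i⟩ : La)) :=
      LinearIndependent.of_comp La.subtype hli
    have h3 := h2.fintype_card_le_finrank
    rwa [Fintype.card_fin] at h3
  refine hrk.trans ?_
  have hrank := fun i => D3_rank hκ (N i)
  have hfr : ∀ i, Module.finrank (IntermediateField.adjoin (cb K C (fun _ => y) ∅) {u}) (D3_G' hκ (N i)) =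
      Module.finrank (cb K C (fun _ => y) Set.univ) (D3_G (cb K C (fun _ => y) Set.univ) (N i)) := by
    intro i
    unfold Module.finrank
    rw [hrank]
  have hG'bot : ∀ i : ℕ, q * b < i * a → D3_G' hκ (N i) = ⊥ := by
    intro i hi
    have h2 := hGbot i hi
    refine (Submodule.eq_bot_iff _).2 fun x hx => ?_
    have h3 : x ∈ D3_G (cb K C (fun _ => y) Set.univ) (N i) := (D3_mem_G' hκ).1 hx
    rw [h2] at h3
    exact (Submodule.mem_bot _).1 h3
  refine filtration htr La (q * b / a + 1) (fun i => q * b - i * a + f₀) (fun i => D3_G' hκ (N i))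
    (fun i => ?_) (fun i => ?_) (fun i hi => ?_) (fun i P₁ hP₁ hP' => ?_)
  · by_cases hi : i * a ≤ q * b
    · have h2 := (hGb i hi).1
      rw [← Module.rank_lt_aleph0_iff, hrank]
      exact Module.rank_lt_aleph0 _ _
    · rw [hG'bot i (not_le.1 hi)]
      infer_instance
  · by_cases hi : i * a ≤ q * b
    · rw [hfr]
      exact (hGb i hi).2
    · rw [hG'bot i (not_le.1 hi), finrank_bot]
      exact Nat.zero_le _
  · exact hG'bot i ((Nat.div_lt_iff_lt_mul ha).1 (Nat.lt_of_succ_le hi))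
  · rw [D3_mem_G', D3_mem_G]
    intro V hV h0
    rw [hLa, hu] at hP'
    rw [hu] at h0 ⊢
    have h2 := lead_bound hy hw hF hC h1 L q hL i P₁ hP₁ hP' h0 V hV
    by_cases hn : V.comap (algebraMap F Ω) = ⊤
    · have h3 := h2.2 hn
      rw [hN, D3_al_triv hn hw, D3_al_triv hn hy]
      have h4 : (i : ℤ) * ord V (D3_Y y C true) ≤ ord V (P₁.eval (gu C (fun _ => y) ())) := h3
      linarith
    · have h3 := h2.1 hn
      have hG := D3_gau hy hF hC h1 hV hn
      have h4 : ord V (D3_Y y C true) = al V (up Ω y) := by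
        rw [D3_al_up hG.ram hy]
        exact hG.lin ((), true) y hy
      rw [hN, h4, sub_self, mul_zero, sub_zero, neg_neg]
      exact h3

theorem upper {y w : ι → F} (hy : y ≠ 0) (hw : w ≠ 0) (hF : FF K 2) (ha : 0 < XX K [y, y]) :
    ∃ f₀ : ℕ, ∀ (L : Submodule K F) [Module.Finite K L] (q : ℕ),
      (∀ x ∈ L, x ≠ 0 → ∀ v, Dv K v → (q : ℤ) * al v w ≤ ord v x) →
      Module.finrank K L ≤ ∑ i ∈ Finset.range (q * XX K [y, w] / XX K [y, y] + 1),
        (q * XX K [y, w] - i * XX K [y, y] + f₀) := by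
  have hch : CharZero (GF F (Unit × Bool × ι)) :=
    charZero_of_injective_algebraMap (algebraMap F (GF F (Unit × Bool × ι))).injective
  exact D3_upper (gn_gc F (Unit × Bool × ι)) hy hw hF ha

end Pool.Agent.Lib.MP_1e3e9c_agU
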