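import Mathlib
import Pool.Agent.Lib.MP_1e3e9c_agU.D1
import Pool.Agent.Lib.MP_1e3e9c_agU.D3

/-!
# MP_1e3e9c_ag, project U, leaf D4: the index inequality

Trivial if `XX K [y,y] = 0` or `XX K [z,z] = 0`. Otherwise let `Ω, C, K₁ = cb K C _ ∅, w` be as in
`lower` (`Ω = GF F _`). `FF K₁ 2` on `Ω` (`FF_base`), `XX K₁ [up y, up y] = XX K [y,y] = a`,
`XX K₁ [up y, w] = XX K [y, z] = b` (`XX_base`, `XX_pr`). For all `q ≥ q₀`, `upper` for `Ω/K₁` with the
space `L` of `lower`: `X (q-q₀+1)(q-q₀+2)/2 ≤ ∑_(i ≤ qb/a) (q b - i a + f₀) ≤ (qb)²/(2a) + O(q)`.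
Divide by `q²`, `q → ∞`: `X/2 ≤ b²/(2a)`: `X a ≤ b²`. (`numeric` is the last step.)
-/

set_option autoImplicit false

namespace Pool.Agent.Lib.MP_1e3e9c_agU

private theorem D4_sum (a N f₀ : ℕ) :
    2 * ∑ i ∈ Finset.range (N + 1), (a * N - i * a + f₀) = a * (N * (N + 1)) + 2 * ((N + 1) * f₀) := by
  have h1 : ∑ i ∈ Finset.range (N + 1), (a * N - i * a + f₀) =
      ∑ i ∈ Finset.range (N + 1), (a * i + f₀) := by
    rw [← Finset.sum_range_reflect (fun i => a * i + f₀) (N + 1)]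
    refine Finset.sum_congr rfl fun i _ => ?_
    have e : N + 1 - 1 - i = N - i := by omega
    rw [e, Nat.mul_sub, Nat.mul_comm i a]
  have h2 : (∑ i ∈ Finset.range (N + 1), i) * 2 = (N + 1) * N := by
    rw [Finset.sum_range_id_mul_two]
    simp
  rw [h1, Finset.sum_add_distrib, ← Finset.mul_sum, Finset.sum_const, Finset.card_range, smul_eq_mul]
  calc 2 * (a * ∑ i ∈ Finset.range (N + 1), i + (N + 1) * f₀)
      = a * ((∑ i ∈ Finset.range (N + 1), i) * 2) + 2 * ((N + 1) * f₀) := by ring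
    _ = a * (N * (N + 1)) + 2 * ((N + 1) * f₀) := by rw [h2]; ring

theorem numeric (X a b f₀ q₀ : ℕ) (ha : 0 < a)
    (h : ∀ q : ℕ, q₀ ≤ q → X * ((q - q₀ + 1) * (q - q₀ + 2)) ≤
      2 * ∑ i ∈ Finset.range (q * b / a + 1), (q * b - i * a + f₀)) : X * a ≤ b ^ 2 := by
  by_contra hcon
  have hcon' : b ^ 2 + 1 ≤ X * a := by omega
  obtain ⟨m, hm⟩ : ∃ m : ℕ, m = q₀ + a * b + 2 * b * f₀ + 2 * X * a * q₀ + 2 * f₀ + 1 := ⟨_, rfl⟩
  have hm0 : q₀ ≤ m := by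
    rw [hm]
    have h1 : 0 ≤ a * b := Nat.zero_le _
    have h2 : 0 ≤ 2 * b * f₀ := Nat.zero_le _
    have h3 : 0 ≤ 2 * X * a * q₀ := Nat.zero_le _
    omega
  have hq : q₀ ≤ a * m := hm0.trans (Nat.le_mul_of_pos_left m ha)
  have h1 := h (a * m) hq
  have e1 : a * m * b / a = m * b := by
    rw [Nat.mul_assoc, Nat.mul_div_cancel_left _ ha]
  have e2 : a * m * b = a * (m * b) := Nat.mul_assoc _ _ _
  rw [e1, e2, D4_sum] at h1
  obtain ⟨n, hn⟩ : ∃ n : ℕ, a * m = q₀ + n := ⟨a * m - q₀, by omega⟩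
  have e3 : a * m - q₀ = n := by omega
  rw [e3] at h1
  have h2 : (X : ℤ) * (((n : ℤ) + 1) * ((n : ℤ) + 2)) ≤
      a * ((m * b) * (m * b + 1)) + 2 * ((m * b + 1) * f₀) := by exact_mod_cast h1
  have h3 : (n : ℤ) = a * m - q₀ := by
    have : (a : ℤ) * m = q₀ + n := by exact_mod_cast hn
    linarith
  have h4 : (b : ℤ) ^ 2 + 1 ≤ X * a := by exact_mod_cast hcon'
  have h5 : (m : ℤ) = q₀ + a * b + 2 * b * f₀ + 2 * X * a * q₀ + 2 * f₀ + 1 := by
    rw [hm]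
    push_cast
    ring
  have p1 : (0 : ℤ) ≤ n := Int.natCast_nonneg n
  have p2 : (0 : ℤ) ≤ X := Int.natCast_nonneg X
  have p3 : (1 : ℤ) ≤ a := by exact_mod_cast ha
  have p4 : (0 : ℤ) ≤ m := Int.natCast_nonneg m
  have p5 : (0 : ℤ) ≤ q₀ := Int.natCast_nonneg q₀
  have p6 : (0 : ℤ) ≤ f₀ := Int.natCast_nonneg f₀
  have p7 : (0 : ℤ) ≤ b := Int.natCast_nonneg b
  have h6 : (X : ℤ) * (n * n) ≤ X * (((n : ℤ) + 1) * ((n : ℤ) + 2)) := by
    refine mul_le_mul_of_nonneg_left ?_ p2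
    nlinarith
  have h7 : (X : ℤ) * (n * n) = X * a * a * (m * m) - 2 * X * a * q₀ * m + X * q₀ * q₀ := by
    rw [h3]
    ring
  have h8 : (0 : ℤ) ≤ X * q₀ * q₀ := by positivity
  have h9 : ((b : ℤ) ^ 2 + 1) * (a * (m * m)) ≤ X * a * (a * (m * m)) :=
    mul_le_mul_of_nonneg_right h4 (by positivity)
  -- `a m² ≤ m (a b + 2 b f₀ + 2 X a q₀) + 2 f₀`
  have h10 : (a : ℤ) * (m * m) ≤ m * (a * b + 2 * b * f₀ + 2 * X * a * q₀) + 2 * f₀ := by
    nlinarith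
  have h11 : (m : ℤ) * m ≤ a * (m * m) := by nlinarith [mul_nonneg p4 p4]
  have h12 : (m : ℤ) * m = m * (a * b + 2 * b * f₀ + 2 * X * a * q₀) + m * (q₀ + 2 * f₀ + 1) := by
    nth_rewrite 2 [h5]
    ring
  have h13 : (m : ℤ) * (q₀ + 2 * f₀ + 1) ≤ 2 * f₀ := by linarith
  have h14 : (1 : ℤ) ≤ m := by
    have a1 : (0 : ℤ) ≤ a * b := by positivity
    have a2 : (0 : ℤ) ≤ 2 * b * f₀ := by positivity
    have a3 : (0 : ℤ) ≤ 2 * X * a * q₀ := by positivity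
    linarith
  nlinarith

theorem index_ineq {F ι : Type} [Field F] [CharZero F] [Fintype ι] {K : Subfield F}
    (hF : FF K 2) {y z : ι → F} (hy : y ≠ 0) (hz : z ≠ 0) :
    XX K [y, y] * XX K [z, z] ≤ XX K [y, z] ^ 2 := by
  rcases Nat.eq_zero_or_pos (XX K [y, y]) with h0 | hYpos
  · rw [h0, Nat.zero_mul]
    exact Nat.zero_le _
  rcases Nat.eq_zero_or_pos (XX K [z, z]) with h0 | hZpos
  · rw [h0, Nat.mul_zero]
    exact Nat.zero_le _
  have hC : Gn F (gc F (Bool × Bool × ι)) := gn_gc F _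
  have : CharZero (GF F (Bool × Bool × ι)) :=
    charZero_of_injective_algebraMap (algebraMap F (GF F (Bool × Bool × ι))).injective
  obtain ⟨w, q₀, hw, hL⟩ := lower hF hC hz hZpos
  have hinj : Function.Injective (algebraMap F (GF F (Bool × Bool × ι))) :=
    (algebraMap F (GF F (Bool × Bool × ι))).injective
  have hup : ∀ {x : ι → F}, x ≠ 0 → up (GF F (Bool × Bool × ι)) x ≠ 0 := by
    intro x hx h
    apply hx
    funext j
    have := congrFun h j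
    exact hinj (this.trans (map_zero _).symm)
  have hw0 : w ≠ 0 := by
    obtain ⟨c, hc, hcw⟩ := hw
    intro h
    apply hup hz
    funext j
    have h1 := hcw j
    rw [h] at h1
    rcases mul_eq_zero.1 h1.symm with h2 | h2
    · exact absurd h2 hc
    · exact h2
  have hF1 : FF (cb K (gc F (Bool × Bool × ι)) (fun _ : Bool => z) ∅) 2 := FF_base hF hC _
  have e1 : XX (cb K (gc F (Bool × Bool × ι)) (fun _ : Bool => z) ∅)
      [up (GF F (Bool × Bool × ι)) y, up (GF F (Bool × Bool × ι)) y] = XX K [y, y] :=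
    XX_base K hC (fun _ : Bool => z) [y, y]
  have e2 : XX (cb K (gc F (Bool × Bool × ι)) (fun _ : Bool => z) ∅)
      [up (GF F (Bool × Bool × ι)) y, w] = XX K [y, z] := by
    rw [← XX_base K hC (fun _ : Bool => z) [y, z]]
    symm
    exact XX_pr _ (List.Forall₂.cons ⟨1, one_ne_zero, fun j => (one_mul _).symm⟩
      (List.Forall₂.cons hw List.Forall₂.nil))
  obtain ⟨f₀, hU⟩ := upper (K := cb K (gc F (Bool × Bool × ι)) (fun _ : Bool => z) ∅) (hup hy) hw0 hF1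
    (by rw [e1]; exact hYpos)
  rw [Nat.mul_comm]
  refine numeric _ _ _ f₀ q₀ hYpos fun q hq => ?_
  obtain ⟨L, hfin, hdim, hLord⟩ := hL q hq
  have := hfin
  have h1 := hU L q hLord
  rw [e1, e2] at h1
  rw [← hdim]
  exact Nat.mul_le_mul_left 2 h1

end Pool.Agent.Lib.MP_1e3e9c_agU
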