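import Mathlib
import Pool.Agent.Lib.MP_1e3e9c_agU.C5

/-!
# MP_1e3e9c_ag, project U, leaf F4a: homogeneous relations of three and four elements

`F/K` of two variables. `dep4`: four elements `w_0..w_3` of `F` satisfy a homogeneous relation of
positive degree over `K`: if all are `0` take a variable; if `w_j ≠ 0` the three quotients `w_i / w_j`
are algebraically dependent over `K` (`trdeg = 2 < 3`), homogenise. (Or: the four elements `T w_i` of
`F(T)`, `trdeg F(T)/K = 3`, and homogeneous components.)
`indep3`: `Ω = GF F (Fin 2 × Bool × ι)`, `u_0, u_1` (`gu`, `β = fun _ => z`) are algebraically independent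
over `K(C)` (`ind_of_pos`, `l = []`). They lie in the field generated over `K(C)` by the quotients
`z_i / z_j` (`z_j ≠ 0` fixed), so these quotients have transcendence degree `≥ 2` over `K(C)`, and over
`K`: two of them, `z_a / z_j`, `z_b / z_j`, are algebraically independent over `K`. Take
`i = ![j, a, b]`: a homogeneous relation `P(z_j, z_a, z_b) = 0` gives `P(1, z_a/z_j, z_b/z_j) = 0`, so
`P(1, ·, ·) = 0`, so `P = 0` (homogeneous).
-/

set_option autoImplicit false

namespace Pool.Agent.Lib.MP_1e3e9c_agU

open IsLocalRing Pool.Agent.Lib.MP_b197b4_ntK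

private lemma F4a_alg {A B : Type} [Field A] [Field B] [Algebra A B] {S : Set B}
    (h : IntermediateField.adjoin A S = ⊤) : Algebra.IsAlgebraic (Algebra.adjoin A S) B := by
  refine ⟨fun b => ?_⟩
  have hb : b ∈ IntermediateField.adjoin A S := by
    rw [h]
    exact IntermediateField.mem_top
  induction hb using IntermediateField.adjoin_induction with
  | mem x hx =>
    exact isAlgebraic_algebraMap (⟨x, Algebra.subset_adjoin hx⟩ : Algebra.adjoin A S)
  | algebraMap x =>
    exact isAlgebraic_algebraMap (algebraMap A (Algebra.adjoin A S) x)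
  | add x y _ _ hx hy => exact hx.add hy
  | inv x _ hx => exact hx.inv
  | mul x y _ _ hx hy => exact hx.mul hy

private lemma F4a_gen {A Ω I : Type} [Field A] [Field Ω] [Algebra A Ω] [Finite I] (x : I → Ω)
    (B : Subfield Ω) (hB : B = Subfield.closure (Set.range (algebraMap A Ω) ∪ Set.range x)) :
    (Algebra.trdeg A Ω ≤ Cardinal.mk I + Algebra.trdeg B Ω) ∧
    (AlgebraicIndependent A x → Algebra.trdeg A Ω = Cardinal.mk I + Algebra.trdeg B Ω) ∧
    (Algebra.trdeg B Ω < Cardinal.aleph0 →
      Cardinal.mk I + Algebra.trdeg B Ω ≤ Algebra.trdeg A Ω → AlgebraicIndependent A x) := by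
  have hA : ∀ a : A, algebraMap A Ω a ∈ B := fun a => by
    rw [hB]
    exact Subfield.subset_closure (Or.inl ⟨a, rfl⟩)
  have hx : ∀ i, x i ∈ B := fun i => by
    rw [hB]
    exact Subfield.subset_closure (Or.inr ⟨i, rfl⟩)
  let _ : Algebra A B := ((algebraMap A Ω).codRestrict B.toSubring hA).toAlgebra
  have _ : IsScalarTower A B Ω := IsScalarTower.of_algebraMap_eq fun a => rfl
  have _ : FaithfulSMul A B :=
    (faithfulSMul_iff_algebraMap_injective A B).2 (algebraMap A B).injective
  let x' : I → B := fun i => ⟨x i, hx i⟩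
  have htop : IntermediateField.adjoin A (Set.range x') = ⊤ := by
    rw [eq_top_iff]
    intro b _
    have key : ∀ (z : Ω) (hz : z ∈ B), (⟨z, hz⟩ : B) ∈ IntermediateField.adjoin A (Set.range x') := by
      have h1 : B ≤ ((IntermediateField.adjoin A (Set.range x')).toSubfield).map B.subtype := by
        intro z hz
        rw [hB] at hz
        refine Subfield.closure_le.2 ?_ hz
        rintro w (⟨a, rfl⟩ | ⟨i, rfl⟩)
        · exact ⟨algebraMap A B a, IntermediateField.algebraMap_mem _ a, rfl⟩
        · exact ⟨x' i, IntermediateField.subset_adjoin A _ ⟨i, rfl⟩, rfl⟩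
      intro z hz
      obtain ⟨y, hy, hyz⟩ := h1 hz
      have h2 : y = ⟨z, hz⟩ := Subtype.ext hyz
      rw [← h2]
      exact hy
    exact key b.1 b.2
  have halg : Algebra.IsAlgebraic (Algebra.adjoin A (Set.range x')) B := F4a_alg htop
  have htow : Algebra.trdeg A B + Algebra.trdeg B Ω = Algebra.trdeg A Ω := trdeg_add_eq A B
  have hcomp : (IsScalarTower.toAlgHom A B Ω) ∘ x' = x := rfl
  refine ⟨?_, fun hi => ?_, fun hfin hle => ?_⟩
  · rw [← htow]
    gcongr
    exact (Algebra.IsAlgebraic.trdeg_le_cardinalMk A (Set.range x')).trans Cardinal.mk_range_le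
  · have h1 : AlgebraicIndependent A x' := by
      refine AlgebraicIndependent.of_comp (IsScalarTower.toAlgHom A B Ω) ?_
      rw [hcomp]
      exact hi
    have h2 : IsTranscendenceBasis A x' := h1.isTranscendenceBasis_iff_isAlgebraic.2 halg
    rw [← htow, h2.cardinalMk_eq_trdeg]
  · have h1 : Cardinal.mk I ≤ Algebra.trdeg A B := by
      rw [← htow] at hle
      exact (Cardinal.add_le_add_iff_of_lt_aleph0 hfin).1 hle
    have h2 : IsTranscendenceBasis A x' :=
      Algebra.IsAlgebraic.isTranscendenceBasis_of_le_trdeg_of_finite A x' h1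
    have h3 := h2.1.map' (f := IsScalarTower.toAlgHom A B Ω) (algebraMap B Ω).injective
    rw [hcomp] at h3
    exact h3

/-- Scaling of a homogeneous polynomial. -/
private lemma F4a_scale {R A σ : Type} [CommRing R] [CommRing A] [Algebra R A] {s : ℕ}
    {P : MvPolynomial σ R} (hP : P.IsHomogeneous s) (c : A) (w : σ → A) :
    MvPolynomial.aeval (fun i => c * w i) P = c ^ s * MvPolynomial.aeval w P := by
  rw [MvPolynomial.aeval_def, MvPolynomial.aeval_def, MvPolynomial.eval₂_eq,
    MvPolynomial.eval₂_eq, Finset.mul_sum]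
  refine Finset.sum_congr rfl fun d hd => ?_
  have h1 : (∏ i ∈ d.support, (c * w i) ^ d i) = c ^ s * ∏ i ∈ d.support, w i ^ d i := by
    simp_rw [mul_pow]
    rw [Finset.prod_mul_distrib, Finset.prod_pow_eq_pow_sum, hP.degree_eq_sum_deg_support hd]
  rw [h1]
  ring

/-- Dehomogenisation is injective on homogeneous polynomials. -/
private lemma F4a_deh {R A : Type} [CommRing R] [CommRing A] [Algebra R A] {x : Fin 2 → A}
    (hx : AlgebraicIndependent R x) {s : ℕ} {P : MvPolynomial (Fin 3) R} (hP : P.IsHomogeneous s)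
    (h : MvPolynomial.aeval (Fin.cons 1 x : Fin 3 → A) P = 0) : P = 0 := by
  classical
  let φ : MvPolynomial (Fin 3) R →ₐ[R] MvPolynomial (Fin 2) R :=
    MvPolynomial.aeval (Fin.cons 1 MvPolynomial.X : Fin 3 → MvPolynomial (Fin 2) R)
  have h1 : (MvPolynomial.aeval x).comp φ = MvPolynomial.aeval (Fin.cons 1 x : Fin 3 → A) := by
    apply MvPolynomial.algHom_ext
    intro i
    rw [AlgHom.comp_apply, MvPolynomial.aeval_X, MvPolynomial.aeval_X]
    refine Fin.cases ?_ (fun i => ?_) i
    · rw [Fin.cons_zero, Fin.cons_zero, map_one]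
    · rw [Fin.cons_succ, Fin.cons_succ, MvPolynomial.aeval_X]
  have h2 : φ P = 0 := by
    apply hx.eq_zero_of_aeval_eq_zero
    rw [← AlgHom.comp_apply, h1, h]
  have h3 : φ P = ∑ d ∈ P.support, MvPolynomial.monomial (Finsupp.tail d) (P.coeff d) := by
    have h4 : φ P = MvPolynomial.eval₂ (algebraMap R (MvPolynomial (Fin 2) R))
      (Fin.cons 1 MvPolynomial.X : Fin 3 → MvPolynomial (Fin 2) R) P := rfl
    rw [h4, MvPolynomial.eval₂_eq']
    refine Finset.sum_congr rfl fun d _ => ?_
    rw [Fin.prod_univ_succ, Fin.cons_zero, one_pow, one_mul, MvPolynomial.monomial_eq,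
      Finsupp.prod_fintype _ _ (fun i => pow_zero _)]
    rfl
  ext d
  rw [MvPolynomial.coeff_zero]
  by_contra hd
  have h5 : (φ P).coeff (Finsupp.tail d) = P.coeff d := by
    rw [h3, MvPolynomial.coeff_sum, Finset.sum_eq_single d]
    · rw [MvPolynomial.coeff_monomial, if_pos rfl]
    · intro e he hed
      rw [MvPolynomial.coeff_monomial, if_neg]
      intro h6
      apply hed
      have h7 := hP.degree_eq_sum_deg_support he
      have h8 := hP.degree_eq_sum_deg_support (MvPolynomial.mem_support_iff.2 hd)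
      have h9 : ∀ f : Fin 3 →₀ ℕ, ∑ i ∈ f.support, f i = f 0 + (f 1 + f 2) := by
        intro f
        rw [Finset.sum_subset (Finset.subset_univ f.support)
          (fun i _ hi => Finsupp.notMem_support_iff.1 hi), Fin.sum_univ_three, add_assoc]
      rw [h9] at h7 h8
      have h10 : e 1 = d 1 := DFunLike.congr_fun h6 0
      have h11 : e 2 = d 2 := DFunLike.congr_fun h6 1
      have h12 : e 0 = d 0 := by omega
      ext i
      fin_cases i
      · exact h12
      · exact h10
      · exact h11
    · intro h6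
      exact absurd (MvPolynomial.mem_support_iff.2 hd) h6
  rw [h2, MvPolynomial.coeff_zero] at h5
  exact hd h5.symm

variable {F : Type} [Field F] {K : Subfield F}

private lemma F4a_base {ι Ω μ : Type} [Fintype ι] [Field Ω] [Algebra F Ω] [Finite μ] {C : μ × Bool × ι → Ω} (hC : Gn F C) (β : μ → ι → F) :
    Algebra.trdeg (cb K C β ∅) Ω = Algebra.trdeg K F := by
  have _ : Algebra.IsAlgebraic (Algebra.adjoin F (Set.range C)) Ω := F4a_alg hC.2
  have h1 : IsTranscendenceBasis F C := hC.1.isTranscendenceBasis_iff_isAlgebraic.2 inferInstance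
  have h2 : Algebra.trdeg K F + Algebra.trdeg F Ω = Algebra.trdeg K Ω := trdeg_add_eq K F
  have hB : cb K C β ∅ = Subfield.closure (Set.range (algebraMap K Ω) ∪ Set.range C) := by
    unfold cb
    rw [Set.image_empty, Set.union_empty]
    congr 2
    ext z
    constructor
    · rintro ⟨a, ha, rfl⟩
      exact ⟨⟨a, ha⟩, rfl⟩
    · rintro ⟨a, rfl⟩
      exact ⟨a.1, a.2, rfl⟩
  have hi : AlgebraicIndependent K C :=
    hC.1.restrictScalars (algebraMap K F).injective
  have h3 := (F4a_gen C (cb K C β ∅) hB).2.1 hi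
  rw [← h2, ← h1.cardinalMk_eq_trdeg, add_comm] at h3
  exact (Cardinal.eq_of_add_eq_add_left h3 (Cardinal.lt_aleph0_of_finite _)).symm

theorem dep4 (hF : FF K 2) (w : Fin 4 → F) : ∃ (s : ℕ) (P : MvPolynomial (Fin 4) K), 0 < s ∧
    P ≠ 0 ∧ P.IsHomogeneous s ∧ MvPolynomial.aeval w P = 0 := by
  classical
  have h1 : Algebra.trdeg K (Polynomial F) = 3 := by
    rw [← trdeg_add_eq K F (A := Polynomial F), hF.2, Polynomial.trdeg_of_isDomain]
    norm_num
  have h2 : ¬ AlgebraicIndependent K
      (fun i => Polynomial.X * Polynomial.C (w i) : Fin 4 → Polynomial F) := by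
    intro h
    have h3 := h.cardinalMk_le_trdeg
    rw [h1, Cardinal.mk_fin] at h3
    have h4 : (4 : ℕ) ≤ 3 := by exact_mod_cast h3
    omega
  rw [algebraicIndependent_iff] at h2
  push Not at h2
  obtain ⟨P, hP, hP0⟩ := h2
  have h3 : ∀ s, MvPolynomial.aeval w (MvPolynomial.homogeneousComponent s P) = 0 := by
    intro s
    by_cases hs : s < P.totalDegree + 1
    · have h4 : MvPolynomial.aeval (fun i => Polynomial.X * Polynomial.C (w i)) P =
          ∑ t ∈ Finset.range (P.totalDegree + 1), Polynomial.X ^ t *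
            Polynomial.C (MvPolynomial.aeval w (MvPolynomial.homogeneousComponent t P)) := by
        conv_lhs => rw [← MvPolynomial.sum_homogeneousComponent P]
        rw [map_sum]
        refine Finset.sum_congr rfl fun t _ => ?_
        rw [F4a_scale (MvPolynomial.homogeneousComponent_isHomogeneous t P)]
        have h5 : MvPolynomial.aeval (fun i => Polynomial.C (w i)) =
            (IsScalarTower.toAlgHom K F (Polynomial F)).comp (MvPolynomial.aeval w) := by
          apply MvPolynomial.algHom_ext
          intro i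
          rw [AlgHom.comp_apply, MvPolynomial.aeval_X, MvPolynomial.aeval_X]
          rfl
        rw [h5]
        rfl
      rw [hP] at h4
      have h5 := congrArg (fun p => Polynomial.coeff p s) h4
      simp only [Polynomial.finsetSum_coeff, Polynomial.coeff_zero] at h5
      rw [Finset.sum_eq_single s] at h5
      · rw [Polynomial.coeff_X_pow_mul', if_pos le_rfl, Nat.sub_self, Polynomial.coeff_C_zero] at h5
        exact h5.symm
      · intro t _ hts
        rw [mul_comm, Polynomial.coeff_C_mul_X_pow, if_neg (Ne.symm hts)]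
      · intro h6
        exact absurd (Finset.mem_range.2 hs) h6
    · rw [MvPolynomial.homogeneousComponent_eq_zero s P (by omega), map_zero]
  have h4 : ∃ s, MvPolynomial.homogeneousComponent s P ≠ 0 := by
    by_contra h5
    push Not at h5
    apply hP0
    rw [← MvPolynomial.sum_homogeneousComponent P]
    exact Finset.sum_eq_zero fun t _ => h5 t
  obtain ⟨s, hs⟩ := h4
  refine ⟨s, MvPolynomial.homogeneousComponent s P, ?_, hs,
    MvPolynomial.homogeneousComponent_isHomogeneous s P, h3 s⟩
  rcases Nat.eq_zero_or_pos s with h5 | h5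
  · exfalso
    subst h5
    apply hs
    have h6 := h3 0
    rw [MvPolynomial.homogeneousComponent_zero, MvPolynomial.aeval_C] at h6
    rw [MvPolynomial.homogeneousComponent_zero,
      (map_eq_zero_iff _ (algebraMap K F).injective).1 h6, map_zero]
  · exact h5

private lemma F4a_up {Ω : Type} [Field Ω] {A B : Subfield Ω} (h : A ≤ B)
    (hA : Algebra.IsAlgebraic A Ω) : Algebra.IsAlgebraic B Ω := by
  refine ⟨fun x => ?_⟩
  obtain ⟨p, hp, hx⟩ := hA.isAlgebraic x
  refine ⟨p.map (Subfield.inclusion h), ?_, ?_⟩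
  · rw [Ne, Polynomial.map_eq_zero_iff (Subfield.inclusion h).injective]
    exact hp
  · rw [Polynomial.aeval_def, Polynomial.eval₂_map]
    exact hx

/-- `F` is algebraic over the field generated by the quotients. -/
private lemma F4a_quo {ι : Type} [Fintype ι] {z : ι → F} {j : ι} (hj : z j ≠ 0)
    (hX : 0 < XX K [z, z]) :
    Algebra.IsAlgebraic (Algebra.adjoin K (Set.range fun a => z a / z j)) F := by
  set y : ι → F := fun a => z a / z j with hy
  let L : IntermediateField K F := IntermediateField.adjoin K (Set.range y)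
  let L0 : Subfield F := L.toSubfield
  have hK : ∀ a ∈ K, a ∈ L0 := fun a ha => L.algebraMap_mem ⟨a, ha⟩
  have hyL : ∀ a, y a ∈ L0 := fun a => IntermediateField.subset_adjoin K _ ⟨a, rfl⟩
  let C := gc F (Fin [z, z].length × Bool × ι)
  let Ω := GF F (Fin [z, z].length × Bool × ι)
  have hfin : Module.Finite (cb K C [z, z].get Set.univ) Ω := Module.finite_of_finrank_pos hX
  have halg : Algebra.IsAlgebraic (cb K C [z, z].get Set.univ) Ω :=
    Algebra.IsAlgebraic.of_finite _ _
  have hle : cb K C [z, z].get Set.univ ≤ cb L0 C [z, z].get ∅ := by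
    unfold cb
    rw [Subfield.closure_le]
    rintro x ((⟨a, ha, rfl⟩ | hx) | ⟨i, _, rfl⟩)
    · exact Subfield.subset_closure (Or.inl (Or.inl ⟨a, hK a ha, rfl⟩))
    · exact Subfield.subset_closure (Or.inl (Or.inr hx))
    · have hi : [z, z].get i = z := by
        have h1 : [z, z].get i ∈ [z, z] := List.get_mem _ _
        rcases List.mem_cons.1 h1 with h2 | h2
        · exact h2
        · exact List.mem_singleton.1 h2
      have h0 : algebraMap F Ω (z j) ≠ 0 := fun h => hj ((map_eq_zero (algebraMap F Ω)).1 h)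
      have hs : ∀ b : Bool, ∑ a, C (i, b, a) * algebraMap F Ω ([z, z].get i a) =
          algebraMap F Ω (z j) * ∑ a, C (i, b, a) * algebraMap F Ω (y a) := by
        intro b
        rw [hi, Finset.mul_sum]
        refine Finset.sum_congr rfl fun a _ => ?_
        have h3 : z a = z j * y a := by
          rw [hy]
          field_simp
        rw [h3, map_mul]
        ring
      have hg : gu C [z, z].get i = (∑ a, C (i, false, a) * algebraMap F Ω (y a)) /
          (∑ a, C (i, true, a) * algebraMap F Ω (y a)) := by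
        unfold gu
        rw [hs, hs, mul_div_mul_left _ _ h0]
      rw [hg]
      have hm : ∀ b : Bool, ∑ a, C (i, b, a) * algebraMap F Ω (y a) ∈
          Subfield.closure ((algebraMap F Ω '' (L0 : Set F)) ∪ Set.range C ∪
            gu C [z, z].get '' ∅) := by
        intro b
        refine sum_mem fun a _ => mul_mem ?_ ?_
        · exact Subfield.subset_closure (Or.inl (Or.inr ⟨_, rfl⟩))
        · exact Subfield.subset_closure (Or.inl (Or.inl ⟨_, hyL a, rfl⟩))
      exact div_mem (hm false) (hm true)
  have h1 : Algebra.IsAlgebraic (cb L0 C [z, z].get ∅) Ω := F4a_up hle halg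
  have h2 : Algebra.trdeg L0 F = 0 := by
    rw [← F4a_base (K := L0) (gn_gc F (Fin [z, z].length × Bool × ι)) [z, z].get]
    exact trdeg_eq_zero_iff.2 h1
  have h3 : Algebra.IsAlgebraic L0 F := trdeg_eq_zero_iff.1 h2
  have h4 : Algebra.IsAlgebraic L F := h3
  exact IntermediateField.isAlgebraic_adjoin_iff_top.1 h4

theorem indep3 {ι : Type} [Fintype ι] (hF : FF K 2) {z : ι → F} (hz : z ≠ 0)
    (hX : 0 < XX K [z, z]) : ∃ i : Fin 3 → ι, ∀ (s : ℕ) (P : MvPolynomial (Fin 3) K),
      P.IsHomogeneous s → MvPolynomial.aeval (fun a => z (i a)) P = 0 → P = 0 := by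
  obtain ⟨j, hj⟩ := Function.ne_iff.1 hz
  have hj' : z j ≠ 0 := hj
  have h1 := F4a_quo (K := K) hj' hX
  obtain ⟨t, hts, ht⟩ := exists_isTranscendenceBasis_subset (R := K)
    (Set.range fun a => z a / z j)
  have h2 : Cardinal.mk t = 2 := by
    rw [ht.cardinalMk_eq_trdeg, hF.2]
    norm_num
  obtain ⟨u, v, huv, _⟩ := Cardinal.mk_eq_two_iff.1 h2
  obtain ⟨a, ha⟩ := hts u.2
  obtain ⟨b, hb⟩ := hts v.2
  have h3 : AlgebraicIndependent K (![(u : F), (v : F)] : Fin 2 → F) := by
    have h4 : Function.Injective (![u, v] : Fin 2 → t) := by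
      intro p q hpq
      fin_cases p <;> fin_cases q
      · rfl
      · exact absurd hpq huv
      · exact absurd hpq.symm huv
      · rfl
    have h5 := ht.1.comp _ h4
    have h6 : (![(u : F), (v : F)] : Fin 2 → F) = ((↑) : t → F) ∘ (![u, v] : Fin 2 → t) := by
      funext p
      fin_cases p
      · rfl
      · rfl
    rw [h6]
    exact h5
  refine ⟨![j, a, b], fun s P hP h => F4a_deh h3 hP ?_⟩
  have h4 : (fun c : Fin 3 => z ((![j, a, b] : Fin 3 → ι) c)) =
      fun c => z j * (Fin.cons 1 ![(u : F), (v : F)] : Fin 3 → F) c := by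
    have ha' : z a = z j * (u : F) := by
      rw [← ha]
      field_simp
    have hb' : z b = z j * (v : F) := by
      rw [← hb]
      field_simp
    funext c
    fin_cases c
    · exact (mul_one _).symm
    · exact ha'
    · exact hb'
  rw [h4, F4a_scale hP] at h
  exact (mul_eq_zero.1 h).resolve_left (pow_ne_zero _ hj')

end Pool.Agent.Lib.MP_1e3e9c_agU
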