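import Mathlib
import Pool.Agent.Lib.MP_1e3e9c_agU.Defs

/-!
# MP_1e3e9c_ag, project U, leaf G5: exchange

`alg_inter`: `v` algebraically independent over `K`, `x` algebraic over `K(v_i, i ∈ S₁)` and over
`K(v_i, i ∈ S₂)`. Choose a minimal finite `T ⊆ S₂` with `x` algebraic over
`K(v_i, i ∈ (S₁ ∩ S₂) ∪ T)`. If `T ⊆ S₁` we are done. Otherwise let `i ∈ T \ S₁`: by exchange (`x` is
algebraic over `K(v_j, j ∈ ..∪ T)` but not without `i`) `v_i` is algebraic over
`K(x, v_j, j ∈ (S₁ ∩ S₂) ∪ T \ {i})`, and `x` is algebraic over `K(v_j, j ∈ S₁)`, so `v_i` is algebraic over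
`K(v_j, j ≠ i)`: contradiction. (Mathlib may have this for algebraic matroids.)
`alg_all`: finite index set, `x` algebraic over `K(v_j, j ≠ i)` for every `i`: then over `K`
(intersect one by one). The base field is a `Subfield` of `A` in the second form.
-/

set_option autoImplicit false

namespace Pool.Agent.Lib.MP_1e3e9c_agU

private theorem G5_mem {K A : Type} [Field K] [Field A] [Algebra K A] {s : Set A} {x : A} :
    x ∈ (AlgebraicIndependent.matroid K A).closure s ↔ IsAlgebraic (IntermediateField.adjoin K s) x := by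
  rw [AlgebraicIndependent.matroid_closure_eq, SetLike.mem_coe, Subalgebra.mem_algebraicClosure,
    IntermediateField.isAlgebraic_adjoin_iff]

private theorem G5_sub {A : Type} [Field A] (K : Subfield A) (S : Set A) {x : A}
    (h : IsAlgebraic (Subfield.closure ((K : Set A) ∪ S)) x) : IsAlgebraic (IntermediateField.adjoin K S) x := by
  obtain ⟨p, hp, h0⟩ := h
  have hle : ∀ a ∈ Subfield.closure ((K : Set A) ∪ S), a ∈ IntermediateField.adjoin K S := by
    intro a ha
    exact (Subfield.closure_le (t := (IntermediateField.adjoin K S).toSubfield)).2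
      (Set.union_subset (fun y hy => (IntermediateField.adjoin K S).algebraMap_mem (⟨y, hy⟩ : K))
        (IntermediateField.subset_adjoin K S)) ha
  let f : Subfield.closure ((K : Set A) ∪ S) →+* IntermediateField.adjoin K S :=
    { toFun := fun a => ⟨a.1, hle a.1 a.2⟩
      map_one' := rfl
      map_mul' := fun _ _ => rfl
      map_zero' := rfl
      map_add' := fun _ _ => rfl }
  refine ⟨p.map f, (Polynomial.map_ne_zero_iff f.injective).2 hp, ?_⟩
  rw [Polynomial.aeval_def, Polynomial.eval₂_map]
  exact h0

theorem alg_inter {K A T : Type} [Field K] [Field A] [Algebra K A] {v : T → A}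
    (hv : AlgebraicIndependent K v) (S₁ S₂ : Set T) {x : A}
    (h₁ : IsAlgebraic (IntermediateField.adjoin K (v '' S₁)) x)
    (h₂ : IsAlgebraic (IntermediateField.adjoin K (v '' S₂)) x) :
    IsAlgebraic (IntermediateField.adjoin K (v '' (S₁ ∩ S₂))) x := by
  have hI : (AlgebraicIndependent.matroid K A).Indep (Set.range v) :=
    AlgebraicIndependent.matroid_indep_iff.2 hv.to_subtype_range
  have h : (AlgebraicIndependent.matroid K A).Indep (v '' S₁ ∪ v '' S₂) :=
    hI.subset (Set.union_subset (Set.image_subset_range v S₁) (Set.image_subset_range v S₂))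
  rw [← G5_mem, Set.image_inter hv.injective, h.closure_inter_eq_inter_closure]
  exact ⟨G5_mem.2 h₁, G5_mem.2 h₂⟩

theorem alg_all {A T : Type} [Field A] [Finite T] (K : Subfield A) {v : T → A}
    (hv : AlgebraicIndependent K v) {x : A}
    (h : ∀ i, IsAlgebraic (Subfield.closure ((K : Set A) ∪ v '' {j | j ≠ i})) x)
    (hT : Nonempty T) : IsAlgebraic K x := by
  have hI : (AlgebraicIndependent.matroid K A).Indep (Set.range v) :=
    AlgebraicIndependent.matroid_indep_iff.2 hv.to_subtype_range
  have h1 := hI.closure_iInter_eq_biInter_closure_of_forall_subset (Js := fun i : T => v '' {j | j ≠ i})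
    (fun i => Set.image_subset_range v _)
  have h2 : (⋂ i : T, v '' {j | j ≠ i}) = ∅ := by
    rw [Set.eq_empty_iff_forall_notMem]
    intro a ha
    rw [Set.mem_iInter] at ha
    obtain ⟨i⟩ := hT
    obtain ⟨j, _, rfl⟩ := ha i
    obtain ⟨j', hj', h3⟩ := ha j
    exact hj' (hv.injective h3)
  have h3 : x ∈ (AlgebraicIndependent.matroid K A).closure (⋂ i : T, v '' {j | j ≠ i}) := by
    rw [h1, Set.mem_iInter]
    exact fun i => G5_mem.2 (G5_sub K _ (h i))
  rw [h2, G5_mem, IntermediateField.adjoin_empty] at h3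
  exact h3.restrictScalars K

end Pool.Agent.Lib.MP_1e3e9c_agU
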