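import Mathlib
import Pool.Agent.Lib.MP_1e3e9c_agU.FmB
import Pool.Agent.Lib.MP_1e3e9c_agU.Vl

/-!
# MP_1e3e9c_ag, project U, leaf A1: the potential is bounded above and has a maximum

`Φ(g) = 2 N(g) - D ord(det g)`, `N(g) = al V` of all the coefficients of `f(g x)`. Multiplying `g` by
a scalar `a` changes `N` by `D ord a` and `ord (det g)` by `2 ord a`: `Φ` is unchanged; so we may
assume that all entries of `g` are in `V` and one is a unit. By `bezout`
`∑ a_i(gx) f_i(gx) = (gx)_0^(N+D)`, `∑ b_i(gx) f_i(gx) = (gx)_1^(N+D)`; for `x = e_1, e_2` (entries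
in `V`): `ev (c i) (g x) = ev (act g (c i)) x` has order `≥ N(g)`, `ev (a i) (g x)` has order
`≥ -C`; one of the four numbers `(g x)_0, (g x)_1` is a unit: so `0 ≥ N(g) - C`. And
`ord (det g) ≥ 0`. So `Φ(g) ≤ 2 C`. `exists_max`: a nonempty set of integers which is bounded above
has a largest element.
-/

set_option autoImplicit false

namespace Pool.Agent.Lib.MP_1e3e9c_agU

open IsLocalRing Pool.Agent.Lib.MP_b197b4_ntK

/-- The potential. -/
noncomputable def pot {F : Type} [Field F] {n D : ℕ} (V : ValuationSubring F)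
    (c : Fin (n + 1) → Fin (D + 1) → F) (g : Matrix (Fin 2) (Fin 2) F) : ℤ :=
  2 * al V (fun q : Fin (n + 1) × Fin (D + 1) => act g (c q.1) q.2) - D * ord V g.det

variable {F : Type} [Field F] {n D : ℕ} {V : ValuationSubring F}
  {c : Fin (n + 1) → Fin (D + 1) → F}

open Polynomial in
private theorem A1_act_scale (a : F) (g : Matrix (Fin 2) (Fin 2) F) (c : Fin (D + 1) → F)
    (j : Fin (D + 1)) : act (a • g) c j = a ^ D * act g c j := by
  unfold act
  rw [← coeff_C_mul, Finset.mul_sum]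
  congr 1
  apply Finset.sum_congr rfl
  intro i _
  have hi : (i : ℕ) ≤ D := Nat.lt_succ_iff.1 i.2
  have h1 : (C ((a • g) 0 0) + C ((a • g) 0 1) * X : F[X]) = C a * (C (g 0 0) + C (g 0 1) * X) := by
    simp only [Matrix.smul_apply, smul_eq_mul, C_mul]
    ring
  have h2 : (C ((a • g) 1 0) + C ((a • g) 1 1) * X : F[X]) = C a * (C (g 1 0) + C (g 1 1) * X) := by
    simp only [Matrix.smul_apply, smul_eq_mul, C_mul]
    ring
  rw [h1, h2, mul_pow, mul_pow, C_pow]
  have h3 : (C a : F[X]) ^ D = C a ^ (D - (i : ℕ)) * C a ^ (i : ℕ) := by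
    rw [← pow_add, Nat.sub_add_cancel hi]
  rw [h3]
  ring

private theorem A1_ne (h : BPF c) {g : Matrix (Fin 2) (Fin 2) F} (hg : g.det ≠ 0) :
    (fun q : Fin (n + 1) × Fin (D + 1) => act g (c q.1) q.2) ≠ 0 := by
  intro h0
  apply (h.act hg).ne_zero
  funext i j
  exact congrFun h0 (i, j)

theorem pot_scale (hV : IsDiscreteValuationRing V) (h : BPF c) (g : Matrix (Fin 2) (Fin 2) F)
    (hg : g.det ≠ 0) (a : F) (ha : a ≠ 0) : pot V c (a • g) = pot V c g := by
  unfold pot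
  have h1 : (fun q : Fin (n + 1) × Fin (D + 1) => act (a • g) (c q.1) q.2)
      = fun q => a ^ D * (fun q : Fin (n + 1) × Fin (D + 1) => act g (c q.1) q.2) q := by
    funext q
    exact A1_act_scale a g (c q.1) q.2
  rw [h1, al_smul hV (A1_ne h hg) (pow_ne_zero D ha), ord_pow hV ha, Matrix.det_smul,
    Fintype.card_fin, ord_mul hV (pow_ne_zero 2 ha) hg, ord_pow hV ha]
  push_cast
  ring

private theorem A1_ord_ge (hV : IsDiscreteValuationRing V) {x : F} (hx : x ∈ V) (h0 : x ≠ 0) :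
    0 ≤ ord V x := (ord_nonneg_iff hV h0).2 hx

/-- The value of a form with coefficients of order at least `m` at a point with entries in `V`. -/
private theorem A1_ev (hV : IsDiscreteValuationRing V) {N : ℕ} {a : Fin (N + 1) → F} {m : ℤ}
    (ha : ∀ j, a j ≠ 0 → m ≤ ord V (a j)) {x : Fin 2 → F} (hx : ∀ i, x i ∈ V)
    (h : ev a x ≠ 0) : m ≤ ord V (ev a x) := by
  unfold ev at h ⊢
  apply le_ord_sum hV _ _ _ h
  intro j _ hj
  have h1 : a j ≠ 0 := by
    intro h0
    apply hj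
    rw [h0, zero_mul, zero_mul]
  have h2 : x 0 ^ (N - (j : ℕ)) ≠ 0 := by
    intro h0
    apply hj
    rw [h0, mul_zero, zero_mul]
  have h3 : x 1 ^ (j : ℕ) ≠ 0 := by
    intro h0
    apply hj
    rw [h0, mul_zero]
  rw [ord_mul hV (mul_ne_zero h1 h2) h3, ord_mul hV h1 h2]
  have h4 := ha j h1
  have h5 := A1_ord_ge hV (pow_mem (hx 0) (N - (j : ℕ))) h2
  have h6 := A1_ord_ge hV (pow_mem (hx 1) (j : ℕ)) h3
  linarith

private theorem A1_bd {ι : Type} [Fintype ι] (z : ι → F) :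
    ∃ C : ℤ, 0 ≤ C ∧ ∀ j, -C ≤ ord V (z j) := by
  refine ⟨∑ j, |ord V (z j)|, Finset.sum_nonneg fun _ _ => abs_nonneg _, ?_⟩
  intro j
  have h1 : |ord V (z j)| ≤ ∑ j, |ord V (z j)| :=
    Finset.single_le_sum (f := fun j => |ord V (z j)|) (fun _ _ => abs_nonneg _) (Finset.mem_univ j)
  have h2 := neg_abs_le (ord V (z j))
  linarith

/-- The main step, for one of the two coordinates. -/
private theorem A1_step (hV : IsDiscreteValuationRing V) {N : ℕ}
    {a : Fin (n + 1) → Fin (N + 1) → F} {C : ℤ}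
    (hC : ∀ i j, a i j ≠ 0 → -C ≤ ord V (a i j)) {g : Matrix (Fin 2) (Fin 2) F}
    (hg : ∀ i j, g i j ∈ V) {y : Fin 2 → F} (hy : ∀ i, y i ∈ V) {r : Fin 2}
    (hr : V.valuation (g.mulVec y r) = 1)
    (hb : ∑ i, ev (a i) (g.mulVec y) * ev (c i) (g.mulVec y) = g.mulVec y r ^ (N + D)) :
    al V (fun q : Fin (n + 1) × Fin (D + 1) => act g (c q.1) q.2) ≤ C := by
  have hx : ∀ i, g.mulVec y i ∈ V := by
    intro i
    unfold Matrix.mulVec dotProduct
    exact sum_mem fun j _ => mul_mem (hg i j) (hy j)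
  have hne : g.mulVec y r ≠ 0 := by
    intro h0
    rw [h0, map_zero] at hr
    exact zero_ne_one hr
  have hpow : g.mulVec y r ^ (N + D) ≠ 0 := pow_ne_zero _ hne
  have h0 : ord V (g.mulVec y r ^ (N + D)) = 0 := by
    rw [ord_pow hV hne, (ord_eq_zero_iff hV hne).2 hr, mul_zero]
  rw [← hb] at h0 hpow
  have h1 : al V (fun q : Fin (n + 1) × Fin (D + 1) => act g (c q.1) q.2) - C ≤
      ord V (∑ i, ev (a i) (g.mulVec y) * ev (c i) (g.mulVec y)) := by
    apply le_ord_sum hV _ _ _ hpow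
    intro i _ hi
    have h2 : ev (a i) (g.mulVec y) ≠ 0 := left_ne_zero_of_mul hi
    have h3 : ev (c i) (g.mulVec y) ≠ 0 := right_ne_zero_of_mul hi
    rw [ord_mul hV h2 h3]
    have h4 : -C ≤ ord V (ev (a i) (g.mulVec y)) := A1_ev hV (hC i) hx h2
    have h5 : al V (fun q : Fin (n + 1) × Fin (D + 1) => act g (c q.1) q.2) ≤
        ord V (ev (c i) (g.mulVec y)) := by
      rw [← ev_act] at h3 ⊢
      apply A1_ev hV _ hy h3
      intro j hj
      exact al_le (z := fun q : Fin (n + 1) × Fin (D + 1) => act g (c q.1) q.2) (j := (i, j)) hj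
    linarith
  rw [h0] at h1
  linarith

theorem pot_bdd (hV : IsDiscreteValuationRing V) (h : BPF c) :
    ∃ B : ℤ, ∀ g : Matrix (Fin 2) (Fin 2) F, g.det ≠ 0 → pot V c g ≤ B := by
  obtain ⟨N, a, b, ha, hb⟩ := bezout h
  obtain ⟨C1, hC1, hC1'⟩ := A1_bd (V := V) fun q : Fin (n + 1) × Fin (N + 1) => a q.1 q.2
  obtain ⟨C2, hC2, hC2'⟩ := A1_bd (V := V) fun q : Fin (n + 1) × Fin (N + 1) => b q.1 q.2
  refine ⟨2 * (C1 + C2), ?_⟩
  intro g hg
  -- normalise
  have hz : (fun q : Fin 2 × Fin 2 => g q.1 q.2) ≠ 0 := by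
    intro h0
    apply hg
    have : g = 0 := by
      ext i j
      exact congrFun h0 (i, j)
    rw [this]
    exact Matrix.det_zero
  obtain ⟨s, w, hs, hw, hwV, ⟨q0, hq0⟩, _⟩ := exists_prim hV hz
  obtain ⟨g1, hg1⟩ : ∃ g1 : Matrix (Fin 2) (Fin 2) F, g1 = fun i j => w (i, j) := ⟨_, rfl⟩
  have hgg : g = s • g1 := by
    ext i j
    rw [Matrix.smul_apply, smul_eq_mul, hg1]
    exact hw (i, j)
  have hdet : g1.det ≠ 0 := by
    intro h0
    apply hg
    rw [hgg, Matrix.det_smul, h0, mul_zero]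
  have hV1 : ∀ i j, g1 i j ∈ V := by
    intro i j
    rw [hg1]
    exact hwV (i, j)
  rw [hgg, pot_scale hV h g1 hdet s hs]
  have hunit : V.valuation (g1 q0.1 q0.2) = 1 := by
    rw [hg1]
    exact (res_ne_zero_iff (hwV _)).1 hq0
  -- the column of q0
  have hcol : ∀ r, g1.mulVec (Pi.single q0.2 1) r = g1 r q0.2 := by
    intro r
    rw [Matrix.mulVec_single_one]
    rfl
  have hy : ∀ i, (Pi.single q0.2 (1 : F) : Fin 2 → F) i ∈ V := by
    intro i
    by_cases hi : i = q0.2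
    · subst hi
      rw [Pi.single_eq_same]
      exact one_mem _
    · rw [Pi.single_eq_of_ne hi]
      exact zero_mem _
  have hal : al V (fun q : Fin (n + 1) × Fin (D + 1) => act g1 (c q.1) q.2) ≤ C1 + C2 := by
    obtain ⟨⟨r0, s0⟩, rfl⟩ : ∃ q : Fin 2 × Fin 2, q = q0 := ⟨q0, rfl⟩
    have hr : V.valuation (g1.mulVec (Pi.single s0 1) r0) = 1 := by
      rw [hcol]
      exact hunit
    fin_cases r0
    · have := A1_step hV (n := n) (D := D) (c := c) (a := a) (C := C1)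
        (fun i j _ => hC1' (i, j)) hV1 hy hr (ha _)
      linarith
    · have := A1_step hV (n := n) (D := D) (c := c) (a := b) (C := C2)
        (fun i j _ => hC2' (i, j)) hV1 hy hr (hb _)
      linarith
  have hdV : g1.det ∈ V := by
    rw [Matrix.det_fin_two]
    exact sub_mem (mul_mem (hV1 _ _) (hV1 _ _)) (mul_mem (hV1 _ _) (hV1 _ _))
  have h1 : 0 ≤ (D : ℤ) * ord V g1.det :=
    mul_nonneg (Int.natCast_nonneg D) (A1_ord_ge hV hdV hdet)
  unfold pot
  linarith

theorem exists_max (hV : IsDiscreteValuationRing V) (h : BPF c) :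
    ∃ g : Matrix (Fin 2) (Fin 2) F, g.det ≠ 0 ∧ ∀ g' : Matrix (Fin 2) (Fin 2) F, g'.det ≠ 0 →
      pot V c g' ≤ pot V c g := by
  obtain ⟨B, hB⟩ := pot_bdd hV h
  obtain ⟨m, ⟨g, hg, hm⟩, hmax⟩ := Int.exists_greatest_of_bdd
    (P := fun z => ∃ g : Matrix (Fin 2) (Fin 2) F, g.det ≠ 0 ∧ pot V c g = z)
    ⟨B, by
      rintro z ⟨g, hg, rfl⟩
      exact hB g hg⟩
    ⟨_, 1, by rw [Matrix.det_one]; exact one_ne_zero, rfl⟩
  refine ⟨g, hg, ?_⟩
  intro g' hg'
  rw [hm]
  exact hmax _ ⟨g', hg', rfl⟩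

end Pool.Agent.Lib.MP_1e3e9c_agU
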