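import Mathlib
import Pool.Agent.Lib.MP_1e3e9c_agU.A1
import Pool.Agent.Lib.MP_1e3e9c_agU.A3
import Pool.Agent.Lib.MP_1e3e9c_agU.FmC

/-!
# MP_1e3e9c_ag, project U, leaf A4: existence of good models

Let `g` be a maximum of `pot V c` (`exists_max`), `N = al V` (all coefficients of `f(gx)`), `ρ ∈ F`
with `ord ρ = -N`, `c' = ρ act g c`: integral with nonzero reduction `c̄'`, `Mem` by `hI.act`,
`hI.smul`, `mem_res`. By `hI.alt` over the residue field `c̄'` is base point free (then done: `E = F`,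
`W = V`, `a = 1`) or constant: `c̄'_ij = v_i C(D,j) α^(D-j) β^j`, `(α, β) ≠ 0`.
Choose `h` with entries in `V`, `det h` a unit, such that `(α x_0 + β x_1) ∘ h̄ = x_0` up to a nonzero
factor (two of the entries of `h` can be `0`/`1`): `c'' = act h c' = ρ act (g h) c` is integral,
`pot V c (g h) = pot V c g`, and the reduction of `c''_ij` is `0` for `j ≥ 1`, not all of them for
`j = 0`. Not all `c''_ij`, `j ≥ 1`, are `0` (otherwise `f∘g∘h` has the common zero `(0,1)`, `D ≥ 1`).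
Let `(i,j)`, `j ≥ 1`, `c''_ij ≠ 0`, minimise `ord (c''_ij) / j`; write the minimum as `p / e`
(`e = j`, `p = ord c''_ij ≥ 1`): `e ord c''_(i'j') ≥ p j'` for all `(i', j')`.
(1) `p ≥ e`: put `g' = g h diag(1, π^(-1))`: its coefficients are `ρ^(-1) c''_ij π^(-j)` with
`ord (c''_ij π^(-j)) ≥ 0` and `= 0` somewhere for `j = 0`; so `N` is unchanged and `ord det` has
decreased by one: `pot` has increased by `D ≥ 1`: contradiction.
(2) `p < e`. `exists_ram V hV e`: `E, W, a, τ` with `e ord W τ = a`. Put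
`g' = g h diag(1, τ^(-p))` over `E`, `m = ρ`: coefficients `c''_ij τ^(-p j)`, of order
`a ord c''_ij - p j ord W τ`, `e` times it is `a (e ord c''_ij - p j) ≥ 0`. So integral. The
reduction `c̄` is in the family (`mem_res`), nonzero (`j = 0`), so by `hI.alt` base point free (done)
or constant: `c̄_ij = v_i C(D,j) α^(D-j) β^j`. As some `c̄_i0 ≠ 0`, `α ≠ 0`; as `c̄_(i j) ≠ 0` for the
minimising pair, `j ≥ 1`, we have `β ≠ 0` and `v_i ≠ 0`, so `c̄_(i 1) = v_i D α^(D-1) β ≠ 0`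
(characteristic `0`: the residue field contains the image of `k`). So `e ord c''_(i1) = p`, so `e`
divides `p`, but `0 < p < e`: contradiction.
-/

set_option autoImplicit false

namespace Pool.Agent.Lib.MP_1e3e9c_agU

open IsLocalRing Pool.Agent.Lib.MP_b197b4_ntK

/-- The action of a diagonal matrix. -/
private theorem A4_diag {L : Type} [Field L] {D : ℕ} (t : L) (c : Fin (D + 1) → L) (j : Fin (D + 1)) :
    act !![1, 0; 0, t] c j = c j * t ^ (j : ℕ) := by
  classical
  unfold act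
  have h : ∀ i : Fin (D + 1), Polynomial.C (c i) *
      (Polynomial.C ((!![1, 0; 0, t] : Matrix (Fin 2) (Fin 2) L) 0 0) +
        Polynomial.C ((!![1, 0; 0, t] : Matrix (Fin 2) (Fin 2) L) 0 1) * Polynomial.X) ^ (D - (i : ℕ)) *
      (Polynomial.C ((!![1, 0; 0, t] : Matrix (Fin 2) (Fin 2) L) 1 0) +
        Polynomial.C ((!![1, 0; 0, t] : Matrix (Fin 2) (Fin 2) L) 1 1) * Polynomial.X) ^ (i : ℕ) =
      Polynomial.C (c i * t ^ (i : ℕ)) * Polynomial.X ^ (i : ℕ) := by
    intro i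
    simp only [Matrix.of_apply, Matrix.cons_val', Matrix.cons_val_zero, Matrix.cons_val_one,
      Matrix.cons_val_fin_one, map_one, map_zero, zero_mul, add_zero, one_pow, mul_one, zero_add,
      mul_pow, map_mul, map_pow]
    ring
  rw [Finset.sum_congr rfl fun i _ => h i, Polynomial.finsetSum_coeff]
  rw [Finset.sum_eq_single j]
  · rw [Polynomial.coeff_C_mul, Polynomial.coeff_X_pow, if_pos rfl, mul_one]
  · intro i _ hij
    rw [Polynomial.coeff_C_mul, Polynomial.coeff_X_pow, if_neg (fun h => hij (Fin.ext h.symm)),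
      mul_zero]
  · intro h
    exact absurd (Finset.mem_univ j) h

/-- The values of a form with the coefficients of a power of a linear form. -/
private theorem A4_ev_pow {L : Type} [Field L] {D : ℕ} (v a b : L) (x : Fin 2 → L) :
    ev (fun j : Fin (D + 1) => v * (Nat.choose D (j : ℕ) : L) * a ^ (D - (j : ℕ)) * b ^ (j : ℕ)) x =
      v * (a * x 0 + b * x 1) ^ D := by
  unfold ev
  rw [add_comm (a * x 0) (b * x 1), add_pow, ← Fin.sum_univ_eq_sum_range
    (fun m => (b * x 1) ^ m * (a * x 0) ^ (D - m) * (D.choose m : L)) (D + 1), Finset.mul_sum]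
  refine Finset.sum_congr rfl fun j _ => ?_
  rw [mul_pow, mul_pow]
  ring

/-- The values of a form with only one coefficient. -/
private theorem A4_ev_zero {L : Type} [Field L] {D : ℕ} (v : L) (x : Fin 2 → L) :
    ev (fun j : Fin (D + 1) => if j = 0 then v else 0) x = v * x 0 ^ D := by
  unfold ev
  rw [Finset.sum_eq_single (0 : Fin (D + 1))]
  · simp
  · intro j _ hj
    simp only [if_neg hj, zero_mul]
  · intro h
    exact absurd (Finset.mem_univ _) h

/-- The value at `(0, 1)`. -/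
private theorem A4_ev_last {L : Type} [Field L] {D : ℕ} (c : Fin (D + 1) → L) :
    ev c ![0, 1] = c (Fin.last D) := by
  unfold ev
  rw [Finset.sum_eq_single (Fin.last D)]
  · simp
  · intro j _ hj
    have h : D - (j : ℕ) ≠ 0 := by
      have h1 := j.2
      have h2 : (j : ℕ) ≠ D := fun h => hj (Fin.ext h)
      omega
    simp [h]
  · intro h
    exact absurd (Finset.mem_univ _) h

/-- A good model over the field itself. -/
private theorem A4_base {F : Type} [Field F] {n D : ℕ} (V : ValuationSubring F)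
    (hV : IsDiscreteValuationRing V) (c : Fin (n + 1) → Fin (D + 1) → F)
    (g : Matrix (Fin 2) (Fin 2) F) (hg : g.det ≠ 0) (m : F) (hm : m ≠ 0)
    (hi : ∀ i j, m * act g (c i) j ∈ V) (hr : BPF (fun i j => res V (m * act g (c i) j))) :
    Nonempty (GM c V) := by
  have h : Abv F F V V 1 (RingHom.id _) :=
    ⟨hV, by ext x; rfl, one_pos, fun x _ => by simp, fun x _ => rfl, RingHom.Finite.id _⟩
  exact ⟨GM.mk F V 1 (RingHom.id _) g m h hg hm hi hr⟩

/-- The matrix `h`: after the substitution the reduction is `v x_0 ^ D`. -/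
private theorem A4_step {F : Type} [Field F] {n D : ℕ} (hD : 1 ≤ D) (V : ValuationSubring F)
    (hV : IsDiscreteValuationRing V) [Infinite (ResidueField V)] (c : Fin (n + 1) → Fin (D + 1) → F)
    (hc : ∀ i j, c i j ∈ V) (h0 : ∃ i j, res V (c i j) ≠ 0) (hC : Cst (fun i j => res V (c i j))) :
    ∃ h : Matrix (Fin 2) (Fin 2) F, h.det ≠ 0 ∧ ord V h.det = 0 ∧ (∀ a b, h a b ∈ V) ∧
      (∀ i (j : Fin (D + 1)), j ≠ 0 → res V (act h (c i) j) = 0) ∧ ∃ i, res V (act h (c i) 0) ≠ 0 := by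
  obtain ⟨v, α, β, hv'⟩ := hC
  have hv : ∀ i (j : Fin (D + 1)), res V (c i j) =
      v i * (Nat.choose D (j : ℕ) : ResidueField V) * α ^ (D - (j : ℕ)) * β ^ (j : ℕ) := hv'
  obtain ⟨i₀, j₀, hij⟩ := h0
  have hv0 : v i₀ ≠ 0 := by
    intro h
    apply hij
    have h1 := hv i₀ j₀
    rw [h] at h1
    simpa using h1
  -- the substitution
  obtain ⟨h, hd, hh, l, hl, hlin⟩ : ∃ h : Matrix (Fin 2) (Fin 2) F, V.valuation h.det = 1 ∧
      (∀ a b, h a b ∈ V) ∧ ∃ l : ResidueField V, l ≠ 0 ∧ ∀ x : Fin 2 → ResidueField V,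
        α * ((h.map (res V)).mulVec x) 0 + β * ((h.map (res V)).mulVec x) 1 = l * x 0 := by
    by_cases hα : α = 0
    · have hβ : β ≠ 0 := by
        intro h
        apply hij
        have h1 := hv i₀ j₀
        rw [hα, h] at h1
        rw [h1]
        rcases Nat.eq_zero_or_pos (j₀ : ℕ) with h2 | h2
        · have h3 : D - (j₀ : ℕ) ≠ 0 := by omega
          rw [zero_pow h3]
          ring
        · rw [zero_pow (by omega : (j₀ : ℕ) ≠ 0)]
          ring
      refine ⟨!![0, 1; 1, 0], ?_, ?_, β, hβ, fun x => ?_⟩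
      · simp
      · intro a b
        fin_cases a <;> fin_cases b <;> simp [zero_mem, one_mem]
      · simp [Matrix.mulVec, dotProduct, hα]
    · obtain ⟨y, hy, hyr⟩ := res_surj V (-(β / α))
      refine ⟨!![1, y; 0, 1], ?_, ?_, α, hα, fun x => ?_⟩
      · simp
      · intro a b
        fin_cases a <;> fin_cases b <;> simp [zero_mem, one_mem, hy]
      · simp [Matrix.mulVec, dotProduct, hyr]
        field_simp
        ring
  have hd0 : h.det ≠ 0 := by
    intro h1
    rw [h1, map_zero] at hd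
    exact zero_ne_one hd
  have hred : ∀ i, act (h.map (res V)) (fun j => res V (c i j)) =
      fun j : Fin (D + 1) => if j = 0 then v i * l ^ D else 0 := by
    intro i
    refine ev_ext fun x => ?_
    rw [ev_act, A4_ev_zero]
    have h1 : (fun j : Fin (D + 1) => res V (c i j)) =
        fun j : Fin (D + 1) => v i * (Nat.choose D (j : ℕ) : ResidueField V) * α ^ (D - (j : ℕ)) *
          β ^ (j : ℕ) := funext fun j => hv i j
    rw [h1, A4_ev_pow, hlin, mul_pow]
    ring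
  refine ⟨h, hd0, (ord_eq_zero_iff hV hd0).2 hd, hh, fun i j hj => ?_, i₀, ?_⟩
  · rw [res_act hh (hc i), hred]
    exact if_neg hj
  · rw [res_act hh (hc i₀), hred]
    simp only [if_true]
    exact mul_ne_zero hv0 (pow_ne_zero _ hl)

/-- Case 1: all orders are at least `j`: the matrix does not maximise the potential. -/
private theorem A4_case1 {F : Type} [Field F] {n D : ℕ} (hD : 1 ≤ D) (V : ValuationSubring F)
    (hV : IsDiscreteValuationRing V) (c : Fin (n + 1) → Fin (D + 1) → F)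
    (g h : Matrix (Fin 2) (Fin 2) F) (hg : g.det ≠ 0) (hd : h.det ≠ 0) (hdo : ord V h.det = 0)
    (a : F) (ha : a ≠ 0) (hal : al V (fun q : Fin (n + 1) × Fin (D + 1) => act g (c q.1) q.2) = ord V a)
    (i₀ : Fin (n + 1)) (h0 : res V (a⁻¹ * act (g * h) (c i₀) 0) ≠ 0)
    (h0V : ∀ i, a⁻¹ * act (g * h) (c i) 0 ∈ V)
    (hmax : ∀ g' : Matrix (Fin 2) (Fin 2) F, g'.det ≠ 0 → pot V c g' ≤ pot V c g)
    (hj : ∀ i (j : Fin (D + 1)), j ≠ 0 → a⁻¹ * act (g * h) (c i) j ≠ 0 →
      ((j : ℕ) : ℤ) ≤ ord V (a⁻¹ * act (g * h) (c i) j)) : False := by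
  obtain ⟨π, hπ⟩ := IsDiscreteValuationRing.exists_irreducible V
  have hπ0 : (π : F) ≠ 0 := fun h => hπ.ne_zero (Subtype.ext h)
  have hπo : ord V (π : F) = 1 := ord_eq ⟨π, 1, hπ, by simp⟩
  set t : F := (π : F)⁻¹ with ht
  have ht0 : t ≠ 0 := inv_ne_zero hπ0
  have hto : ord V t = -1 := by rw [ht, ord_inv hV hπ0, hπo]
  have hdt : (!![1, 0; 0, t] : Matrix (Fin 2) (Fin 2) F).det = t := by
    rw [Matrix.det_fin_two_of]
    ring
  have hact : ∀ i (j : Fin (D + 1)), act (g * h * !![1, 0; 0, t]) (c i) j =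
      a * (a⁻¹ * act (g * h) (c i) j * t ^ (j : ℕ)) := by
    intro i j
    rw [← act_act, A4_diag, mul_assoc a⁻¹, mul_inv_cancel_left₀ ha]
  have hint : ∀ i (j : Fin (D + 1)), a⁻¹ * act (g * h) (c i) j * t ^ (j : ℕ) ∈ V := by
    intro i j
    by_cases hj0 : j = 0
    · subst hj0
      have h1 := h0V i
      simpa using h1
    · by_cases hc0 : a⁻¹ * act (g * h) (c i) j = 0
      · rw [hc0, zero_mul]
        exact zero_mem V
      · refine (ord_nonneg_iff hV (mul_ne_zero hc0 (pow_ne_zero _ ht0))).1 ?_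
        rw [ord_mul hV hc0 (pow_ne_zero _ ht0), ord_pow hV ht0, hto]
        have := hj i j hj0 hc0
        linarith
  have hne : (fun q : Fin (n + 1) × Fin (D + 1) => a⁻¹ * act (g * h) (c q.1) q.2 * t ^ (q.2 : ℕ)) ≠ 0 := by
    intro h1
    apply h0
    have h2 := congrFun h1 (i₀, 0)
    have h3 : a⁻¹ * act (g * h) (c i₀) 0 * t ^ ((0 : Fin (D + 1)) : ℕ) = 0 := h2
    have h4 : a⁻¹ * act (g * h) (c i₀) 0 = 0 := by simpa using h3
    rw [h4, res_zero]
  have hal0 : al V (fun q : Fin (n + 1) × Fin (D + 1) =>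
      a⁻¹ * act (g * h) (c q.1) q.2 * t ^ (q.2 : ℕ)) = 0 := by
    refine al_eq_zero hV (fun q => hint q.1 q.2) ⟨(i₀, 0), ?_⟩
    simpa using h0
  have hal1 : al V (fun q : Fin (n + 1) × Fin (D + 1) => act (g * h * !![1, 0; 0, t]) (c q.1) q.2) =
      ord V a := by
    have h1 : (fun q : Fin (n + 1) × Fin (D + 1) => act (g * h * !![1, 0; 0, t]) (c q.1) q.2) =
        fun q => a * (fun q : Fin (n + 1) × Fin (D + 1) =>
          a⁻¹ * act (g * h) (c q.1) q.2 * t ^ (q.2 : ℕ)) q := funext fun q => hact q.1 q.2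
    rw [h1, al_smul hV hne ha, hal0, add_zero]
  have hdet : (g * h * !![1, 0; 0, t]).det ≠ 0 := by
    rw [Matrix.det_mul, Matrix.det_mul, hdt]
    exact mul_ne_zero (mul_ne_zero hg hd) ht0
  have hord : ord V (g * h * !![1, 0; 0, t]).det = ord V g.det - 1 := by
    rw [Matrix.det_mul, Matrix.det_mul, hdt, ord_mul hV (mul_ne_zero hg hd) ht0, ord_mul hV hg hd, hdo,
      hto]
    ring
  have h1 := hmax _ hdet
  unfold pot at h1
  rw [hal1, hal, hord] at h1
  have h2 : (1 : ℤ) ≤ D := by exact_mod_cast hD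
  linarith

/-- Case 2: a ramified extension. -/
private theorem A4_case2 {k F : Type} [Field k] [CharZero k] [Field F] {n D r : ℕ} (hD : 1 ≤ D)
    {I : Ideal (MvPolynomial (Fin (n + 1) × Fin (D + 1)) k)} (hI : Fam r I) (φ : k →+* F)
    (V : ValuationSubring F) (hV : IsDiscreteValuationRing V) (hφ : ∀ a, φ a ∈ V)
    (c : Fin (n + 1) → Fin (D + 1) → F) (hc : Mem φ I c) (g : Matrix (Fin 2) (Fin 2) F)
    (hg : g.det ≠ 0) (m : F) (hm : m ≠ 0) (hV0 : ∀ i j, m * act g (c i) j ∈ V)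
    (i₀ : Fin (n + 1)) (h0 : res V (m * act g (c i₀) 0) ≠ 0)
    (i₁ : Fin (n + 1)) (j₁ : Fin (D + 1)) (hj₁ : j₁ ≠ 0) (hc₁ : m * act g (c i₁) j₁ ≠ 0)
    (hp : 0 < ord V (m * act g (c i₁) j₁)) (hpe : ord V (m * act g (c i₁) j₁) < (j₁ : ℕ))
    (hmin : ∀ i (j : Fin (D + 1)), m * act g (c i) j ≠ 0 →
      ord V (m * act g (c i₁) j₁) * ((j : ℕ) : ℤ) ≤ ((j₁ : ℕ) : ℤ) * ord V (m * act g (c i) j)) :
    Nonempty (GM c V) := by
  have hF : CharZero F := charZero_of_injective_ringHom φ.injective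
  have he : 0 < (j₁ : ℕ) := Nat.pos_of_ne_zero fun h => hj₁ (Fin.ext h)
  obtain ⟨E, fE, aE, dE, W, a, rh, τ, hA, hτ0, hτ⟩ := exists_ram V hV (j₁ : ℕ) he
  set p : ℤ := ord V (m * act g (c i₁) j₁) with hpdef
  set t : E := τ ^ (-p) with ht
  have ht0 : t ≠ 0 := zpow_ne_zero _ hτ0
  have hto : ord W t = -p * ord W τ := ord_zpow hA.dvr hτ0 _
  have hdt : (!![1, 0; 0, t] : Matrix (Fin 2) (Fin 2) E).det = t := by
    rw [Matrix.det_fin_two_of]
    ring
  set g' : Matrix (Fin 2) (Fin 2) E := g.map (algebraMap F E) * !![1, 0; 0, t] with hg'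
  have hgdet : g'.det ≠ 0 := by
    rw [hg', Matrix.det_mul, hdt]
    refine mul_ne_zero ?_ ht0
    have h1 : (g.map (algebraMap F E)).det = algebraMap F E g.det :=
      ((algebraMap F E).map_det g).symm
    rw [h1]
    exact fun h => hg ((map_eq_zero (algebraMap F E)).1 h)
  have hm' : algebraMap F E m ≠ 0 := fun h => hm ((map_eq_zero (algebraMap F E)).1 h)
  -- the coefficients
  have hco : ∀ i (j : Fin (D + 1)), algebraMap F E m * act g' (fun j => algebraMap F E (c i j)) j =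
      algebraMap F E (m * act g (c i) j) * t ^ (j : ℕ) := by
    intro i j
    rw [hg', ← act_act, A4_diag, map_mul, act_map, mul_assoc]
  have ha : (0 : ℤ) < a := by exact_mod_cast hA.apos
  have hord : ∀ i (j : Fin (D + 1)), m * act g (c i) j ≠ 0 →
      algebraMap F E (m * act g (c i) j) * t ^ (j : ℕ) ≠ 0 ∧
      ((j₁ : ℕ) : ℤ) * ord W (algebraMap F E (m * act g (c i) j) * t ^ (j : ℕ)) =
        a * (((j₁ : ℕ) : ℤ) * ord V (m * act g (c i) j) - p * ((j : ℕ) : ℤ)) := by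
    intro i j hij
    have h1 : algebraMap F E (m * act g (c i) j) ≠ 0 := fun h => hij ((map_eq_zero (algebraMap F E)).1 h)
    refine ⟨mul_ne_zero h1 (pow_ne_zero _ ht0), ?_⟩
    rw [ord_mul hA.dvr h1 (pow_ne_zero _ ht0), ord_pow hA.dvr ht0, hto, hA.ram _ hij]
    linear_combination (-p * ((j : ℕ) : ℤ)) * hτ
  have he' : (0 : ℤ) < ((j₁ : ℕ) : ℤ) := by exact_mod_cast he
  have hint : ∀ i (j : Fin (D + 1)),
      algebraMap F E m * act g' (fun j => algebraMap F E (c i j)) j ∈ W := by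
    intro i j
    rw [hco]
    by_cases hij : m * act g (c i) j = 0
    · rw [hij, map_zero, zero_mul]
      exact zero_mem W
    · obtain ⟨h1, h2⟩ := hord i j hij
      refine (ord_nonneg_iff hA.dvr h1).1 ?_
      have h3 : (0 : ℤ) ≤ a * (((j₁ : ℕ) : ℤ) * ord V (m * act g (c i) j) - p * ((j : ℕ) : ℤ)) := by
        have := hmin i j hij
        exact mul_nonneg ha.le (by linarith)
      rw [← h2] at h3
      exact nonneg_of_mul_nonneg_right h3 he'
  -- the reduction is in the family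
  have hφW : ∀ x, (algebraMap F E).comp φ x ∈ W := by
    intro x
    have h1 : φ x ∈ W.comap (algebraMap F E) := by
      rw [hA.com]
      exact hφ x
    exact h1
  have hmem : Mem ((algebraMap F E).comp φ) I
      (fun i j => algebraMap F E m * act g' (fun j => algebraMap F E (c i j)) j) :=
    hI.smul E _ _ _ (hI.act E _ _ g' (mem_map φ (algebraMap F E) I c hc))
  have hmr := mem_res _ I W hφW _ hmem hint
  have hcz : CharZero (ResidueField W) := charZero_of_injective_ringHom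
    (resk ((algebraMap F E).comp φ) W hφW).injective
  have h00 : res W (algebraMap F E m * act g' (fun j => algebraMap F E (c i₀ j)) 0) ≠ 0 := by
    have h1 : m * act g (c i₀) 0 ≠ 0 := by
      intro h
      rw [h, res_zero] at h0
      exact h0 rfl
    have h2 : ord V (m * act g (c i₀) 0) = 0 :=
      (ord_eq_zero_iff hV h1).2 ((res_ne_zero_iff (hV0 _ _)).1 h0)
    obtain ⟨h3, h4⟩ := hord i₀ 0 h1
    rw [res_ne_zero_iff (hint _ _), hco, ← ord_eq_zero_iff hA.dvr h3]
    rw [h2] at h4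
    have h5 : ((j₁ : ℕ) : ℤ) * ord W (algebraMap F E (m * act g (c i₀) 0) * t ^ ((0 : Fin (D + 1)) : ℕ)) = 0 := by
      rw [h4]
      simp
    exact (mul_eq_zero.1 h5).resolve_left he'.ne'
  have h11 : res W (algebraMap F E m * act g' (fun j => algebraMap F E (c i₁ j)) j₁) ≠ 0 := by
    obtain ⟨h3, h4⟩ := hord i₁ j₁ hc₁
    rw [res_ne_zero_iff (hint _ _), hco, ← ord_eq_zero_iff hA.dvr h3]
    have h5 : ((j₁ : ℕ) : ℤ) * ord W (algebraMap F E (m * act g (c i₁) j₁) * t ^ (j₁ : ℕ)) = 0 := by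
      rw [h4, ← hpdef]
      ring
    exact (mul_eq_zero.1 h5).resolve_left he'.ne'
  rcases hI.alt _ _ _ hmr (fun h => h00 (congrFun (congrFun h i₀) 0)) with hB | hC
  · exact ⟨GM.mk E W a rh g' (algebraMap F E m) hA hgdet hm' hint hB⟩
  · exfalso
    obtain ⟨v, α, β, hv'⟩ := hC
    have hv : ∀ i (j : Fin (D + 1)),
        res W (algebraMap F E m * act g' (fun j => algebraMap F E (c i j)) j) =
        v i * (Nat.choose D (j : ℕ) : ResidueField W) * α ^ (D - (j : ℕ)) * β ^ (j : ℕ) := hv'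
    have hα : α ≠ 0 := by
      intro h
      apply h00
      rw [hv, h]
      have h1 : D - ((0 : Fin (D + 1)) : ℕ) ≠ 0 := by
        simp only [Fin.val_zero]
        omega
      rw [zero_pow h1]
      ring
    have hβ : β ≠ 0 := by
      intro h
      apply h11
      rw [hv, h, zero_pow he.ne']
      ring
    have hv1 : v i₁ ≠ 0 := by
      intro h
      apply h11
      rw [hv, h]
      ring
    have h12 : res W (algebraMap F E m * act g' (fun j => algebraMap F E (c i₁ j)) ⟨1, by omega⟩) ≠ 0 := by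
      rw [hv]
      simp only [Nat.choose_one_right, pow_one]
      refine mul_ne_zero (mul_ne_zero (mul_ne_zero hv1 ?_) (pow_ne_zero _ hα)) hβ
      exact Nat.cast_ne_zero.2 (by omega)
    have h13 : m * act g (c i₁) ⟨1, by omega⟩ ≠ 0 := by
      intro h
      apply h12
      rw [hco, h, map_zero, zero_mul, res_zero]
    obtain ⟨h14, h15⟩ := hord i₁ ⟨1, by omega⟩ h13
    have h16 : ord W (algebraMap F E (m * act g (c i₁) ⟨1, by omega⟩) *
        t ^ ((⟨1, by omega⟩ : Fin (D + 1)) : ℕ)) = 0 := by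
      rw [ord_eq_zero_iff hA.dvr h14, ← hco, ← res_ne_zero_iff (hint _ _)]
      exact h12
    rw [h16, mul_zero] at h15
    have h17 := (mul_eq_zero.1 h15.symm).resolve_left ha.ne'
    have h18 : ((j₁ : ℕ) : ℤ) * ord V (m * act g (c i₁) ⟨1, by omega⟩) = p := by
      have h19 : (((⟨1, by omega⟩ : Fin (D + 1)) : ℕ) : ℤ) = 1 := rfl
      rw [h19] at h17
      linarith
    have h20 : 0 < ord V (m * act g (c i₁) ⟨1, by omega⟩) := by
      rw [← h18] at hp
      exact pos_of_mul_pos_right hp he'.le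
    nlinarith

theorem exists_GM {k F : Type} [Field k] [CharZero k] [Field F] {n D r : ℕ} (hD : 1 ≤ D)
    {I : Ideal (MvPolynomial (Fin (n + 1) × Fin (D + 1)) k)} (hI : Fam r I) (φ : k →+* F)
    (V : ValuationSubring F) (hV : IsDiscreteValuationRing V) (hφ : ∀ a, φ a ∈ V)
    (c : Fin (n + 1) → Fin (D + 1) → F) (hc : Mem φ I c) (hb : BPF c) : Nonempty (GM c V) := by
  classical
  have hκ : CharZero (ResidueField V) := charZero_of_injective_ringHom (resk φ V hφ).injective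
  have hinf : Infinite (ResidueField V) := Infinite.of_injective _ (Nat.cast_injective (R := ResidueField V))
  obtain ⟨g, hg, hmax⟩ := exists_max hV hb
  have hbg : BPF (fun i => act g (c i)) := hb.act hg
  have hz0 : (fun q : Fin (n + 1) × Fin (D + 1) => act g (c q.1) q.2) ≠ 0 := by
    intro h
    exact hbg.ne_zero (funext fun i => funext fun j => congrFun h (i, j))
  obtain ⟨a, w, ha, haw, hwV, ⟨q₀, hq₀⟩, hal⟩ := exists_prim hV hz0
  have hρ : a⁻¹ ≠ 0 := inv_ne_zero ha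
  have hw : ∀ i j, a⁻¹ * act g (c i) j = w (i, j) := by
    intro i j
    have h1 : act g (c i) j = a * w (i, j) := haw (i, j)
    rw [h1, inv_mul_cancel_left₀ ha]
  have hcV : ∀ i j, a⁻¹ * act g (c i) j ∈ V := fun i j => by
    rw [hw]
    exact hwV _
  have hmem : Mem φ I (fun i j => a⁻¹ * act g (c i) j) := hI.smul F φ _ a⁻¹ (hI.act F φ c g hc)
  have hmr := mem_res φ I V hφ _ hmem hcV
  have hq₁ : res V (a⁻¹ * act g (c q₀.1) q₀.2) ≠ 0 := by
    rw [hw]
    exact hq₀
  rcases hI.alt _ _ _ hmr (fun h => hq₁ (congrFun (congrFun h q₀.1) q₀.2)) with h | h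
  · exact A4_base V hV c g hg a⁻¹ hρ hcV h
  -- constant reduction
  obtain ⟨h, hd, hdo, hhV, hr0, i₀, hi₀⟩ := A4_step hD V hV (fun i j => a⁻¹ * act g (c i) j) hcV
    ⟨q₀.1, q₀.2, hq₁⟩ h
  have hco : ∀ i (j : Fin (D + 1)), act h (fun j => a⁻¹ * act g (c i) j) j = a⁻¹ * act (g * h) (c i) j := by
    intro i j
    rw [act_smul, act_act]
  have hgh : (g * h).det ≠ 0 := by
    rw [Matrix.det_mul]
    exact mul_ne_zero hg hd
  have hcV' : ∀ i j, a⁻¹ * act (g * h) (c i) j ∈ V := by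
    intro i j
    rw [← hco]
    exact act_mem hhV (hcV i) j
  have hr0' : ∀ i (j : Fin (D + 1)), j ≠ 0 → res V (a⁻¹ * act (g * h) (c i) j) = 0 := by
    intro i j hj
    rw [← hco]
    exact hr0 i j hj
  have hi₀' : res V (a⁻¹ * act (g * h) (c i₀) 0) ≠ 0 := by
    rw [← hco]
    exact hi₀
  have hb' : BPF (fun i j => a⁻¹ * act (g * h) (c i) j) := (hb.act hgh).smul hρ
  obtain ⟨iL, hiL⟩ : ∃ i, a⁻¹ * act (g * h) (c i) (Fin.last D) ≠ 0 := by
    obtain ⟨i, hi⟩ := hb'.ev_ne (x := ![0, 1]) (by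
      intro h1
      have h2 := congrFun h1 1
      simp at h2)
    rw [A4_ev_last] at hi
    exact ⟨i, hi⟩
  -- the pair with the smallest slope
  set S : Finset (Fin (n + 1) × Fin (D + 1)) :=
    Finset.univ.filter (fun q => q.2 ≠ 0 ∧ a⁻¹ * act (g * h) (c q.1) q.2 ≠ 0) with hSdef
  have hS : S.Nonempty := by
    refine ⟨(iL, Fin.last D), ?_⟩
    rw [hSdef, Finset.mem_filter]
    refine ⟨Finset.mem_univ _, ?_, hiL⟩
    intro h1
    have h2 : D = 0 := congrArg Fin.val h1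
    omega
  obtain ⟨⟨i₁, j₁⟩, hq, hmin⟩ := S.exists_min_image
    (fun q => (ord V (a⁻¹ * act (g * h) (c q.1) q.2) : ℚ) / ((q.2 : ℕ) : ℚ)) hS
  rw [hSdef, Finset.mem_filter] at hq
  obtain ⟨-, hj₁, hc₁⟩ := hq
  have he : 0 < (j₁ : ℕ) := Nat.pos_of_ne_zero fun h => hj₁ (Fin.ext h)
  have hp : 0 < ord V (a⁻¹ * act (g * h) (c i₁) j₁) :=
    (ord_pos_iff hV hc₁).2 ((res_eq_zero_iff (hcV' _ _)).1 (hr0' i₁ j₁ hj₁))
  have hkey : ∀ i (j : Fin (D + 1)), a⁻¹ * act (g * h) (c i) j ≠ 0 →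
      ord V (a⁻¹ * act (g * h) (c i₁) j₁) * ((j : ℕ) : ℤ) ≤
        ((j₁ : ℕ) : ℤ) * ord V (a⁻¹ * act (g * h) (c i) j) := by
    intro i j hij
    by_cases hj : j = 0
    · subst hj
      have h1 := (ord_nonneg_iff hV hij).2 (hcV' i 0)
      have h2 : (0 : ℤ) ≤ ((j₁ : ℕ) : ℤ) := Int.natCast_nonneg _
      have h3 := mul_nonneg h2 h1
      simpa using h3
    · have hjp : 0 < (j : ℕ) := Nat.pos_of_ne_zero fun h => hj (Fin.ext h)
      have h1 := hmin (i, j) (by
        rw [hSdef, Finset.mem_filter]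
        exact ⟨Finset.mem_univ _, hj, hij⟩)
      have h2 : (0 : ℚ) < ((j₁ : ℕ) : ℚ) := by exact_mod_cast he
      have h3 : (0 : ℚ) < ((j : ℕ) : ℚ) := by exact_mod_cast hjp
      have h4 : (ord V (a⁻¹ * act (g * h) (c i₁) j₁) : ℚ) / ((j₁ : ℕ) : ℚ) ≤
        (ord V (a⁻¹ * act (g * h) (c i) j) : ℚ) / ((j : ℕ) : ℚ) := h1
      rw [div_le_div_iff₀ h2 h3] at h4
      have h5 : ord V (a⁻¹ * act (g * h) (c i₁) j₁) * ((j : ℕ) : ℤ) ≤
        ord V (a⁻¹ * act (g * h) (c i) j) * ((j₁ : ℕ) : ℤ) := by exact_mod_cast h4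
      linarith
  have hal' : al V (fun q : Fin (n + 1) × Fin (D + 1) => act g (c q.1) q.2) = ord V a := hal
  rcases lt_or_ge (ord V (a⁻¹ * act (g * h) (c i₁) j₁)) ((j₁ : ℕ) : ℤ) with hlt | hge
  · exact A4_case2 hD hI φ V hV hφ c hc (g * h) hgh a⁻¹ hρ hcV' i₀ hi₀' i₁ j₁ hj₁ hc₁ hp hlt hkey
  · exfalso
    refine A4_case1 hD V hV c g h hg hd hdo a ha hal' i₀ hi₀' (fun i => hcV' i 0) hmax ?_
    intro i j hj hij
    have h1 := hkey i j hij
    have h2 : (0 : ℤ) < ((j₁ : ℕ) : ℤ) := by exact_mod_cast he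
    have h3 : (0 : ℤ) ≤ ((j : ℕ) : ℤ) := Int.natCast_nonneg _
    have h4 : ((j₁ : ℕ) : ℤ) * ((j : ℕ) : ℤ) ≤ ((j₁ : ℕ) : ℤ) * ord V (a⁻¹ * act (g * h) (c i) j) :=
      le_trans (mul_le_mul_of_nonneg_right hge h3) h1
    exact le_of_mul_le_mul_left h4 h2

end Pool.Agent.Lib.MP_1e3e9c_agU
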