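import Mathlib
import Pool.Agent.Lib.MP_1e3e9c_agU.A5

/-!
# MP_1e3e9c_ag, project U, leaf A6: the local degree in a good model

For a form with a factorisation `f_0(x) = e ∏ wd (p_l) x`: `p_l = λ_l g p'_l` (`exists_prim2`), so
`m f_0(g x) = m e ∏ wd (λ_l g p'_l) (g x) = m e (det g)^(d+1) ∏ λ_l ∏ wd (p'_l) x` (`wd_mulVec`).
The form `∏ wd (p'_l) x` is integral with nonzero reduction (`prod_wd_ne`), and so is
`m act g f_0` (`hI.zer` for the reduced tuple, which is base point free and in the family). So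
`0 = ord m + ord e + (d+1) ord det g + ∑ ord λ_l` (orders for `W`). By `al_pt`, `al_abv`
`a al V (pt p_l) = (d+1) ord λ_l - ord m`. Together:
`a nu V = (d+1) ord W e + ∑ ((d+1) ord λ_l - ord m) = -2 (d+1) ord m - (d+1)^2 ord det g`.
The coefficient vector of `m f_0(g x)` is `e'` times that of `∏ wd (p'_l) x` with
`e' = m e (det g)^(d+1) ∏ λ_l`; both have `al W = 0`.
-/

set_option autoImplicit false

namespace Pool.Agent.Lib.MP_1e3e9c_agU

open IsLocalRing Pool.Agent.Lib.MP_b197b4_ntK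

variable {k F : Type} [Field k] [CharZero k] [Field F] {n d r : ℕ}
  {I : Ideal (MvPolynomial (Fin (n + 1) × Fin (d + 1 + 1)) k)} {φ : k →+* F}

/-- The reduced tuple is a member of the family. -/
theorem GM.mem (hI : Fam r I) (D : Dat I φ) {V : ValuationSubring F} (hφ : ∀ a, φ a ∈ V)
    (M : GM D.c V) : ∃ hφ' : ∀ a, (algebraMap F M.E).comp φ a ∈ M.W,
      Mem (resk ((algebraMap F M.E).comp φ) M.W hφ') I
        (fun i j => res M.W (M.m * act M.g (fun j => algebraMap F M.E (D.c i j)) j)) := by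
  have hφ' : ∀ a, (algebraMap F M.E).comp φ a ∈ M.W := by
    intro a
    have h1 : φ a ∈ M.W.comap (algebraMap F M.E) := by
      rw [M.abv.com]
      exact hφ a
    exact h1
  refine ⟨hφ', mem_res _ I M.W hφ' _ ?_ M.int⟩
  exact hI.smul M.E _ _ M.m (hI.act M.E _ _ M.g (mem_map φ (algebraMap F M.E) I D.c D.mem))

private theorem A6_ord_prod {E σ : Type} [Field E] {W : ValuationSubring E}
    (hW : IsDiscreteValuationRing W) (s : Finset σ) (f : σ → E) (h : ∀ i ∈ s, f i ≠ 0) :
    ord W (∏ i ∈ s, f i) = ∑ i ∈ s, ord W (f i) := by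
  classical
  induction s using Finset.induction_on with
  | empty =>
    rw [Finset.prod_empty, Finset.sum_empty]
    exact ord_one W hW
  | insert i s hi ih =>
    rw [Finset.prod_insert hi, Finset.sum_insert hi,
      ord_mul hW (h i (Finset.mem_insert_self i s))
        (Finset.prod_ne_zero_iff.2 fun j hj => h j (Finset.mem_insert_of_mem hj)),
      ih fun j hj => h j (Finset.mem_insert_of_mem hj)]

private theorem A6_ord_zero {E : Type} [Field E] {W : ValuationSubring E}
    (hW : IsDiscreteValuationRing W) {x : E} (hx : x ∈ W) (h : res W x ≠ 0) :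
    x ≠ 0 ∧ ord W x = 0 := by
  have h1 : W.valuation x = 1 := (res_ne_zero_iff hx).1 h
  have h2 : x ≠ 0 := by
    rintro rfl
    rw [map_zero] at h1
    exact zero_ne_one h1
  exact ⟨h2, (ord_eq_zero_iff hW h2).2 h1⟩

open Polynomial in
private theorem A6_avoid {κ : Type} [Field κ] [Infinite κ] {D N : ℕ} (c : Fin (D + 1) → κ)
    (hc : c ≠ 0) (p : Fin N → Fin 2 → κ) (hp : ∀ l, p l ≠ 0) :
    ∃ t : κ, ev c ![1, t] ≠ 0 ∧ ∀ l, wd (p l) ![1, t] ≠ 0 := by
  classical
  set P1 : κ[X] := ∑ j : Fin (D + 1), C (c j) * X ^ (j : ℕ) with hP1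
  set P2 : κ[X] := ∏ l, (C (p l 0) * X - C (p l 1)) with hP2
  have h1 : P1 ≠ 0 := by
    intro h
    apply hc
    funext j
    have h2 : P1.coeff (j : ℕ) = c j := by
      rw [hP1, Polynomial.finsetSum_coeff, Finset.sum_eq_single j]
      · rw [Polynomial.coeff_C_mul, Polynomial.coeff_X_pow, if_pos rfl, mul_one]
      · intro i _ hij
        rw [Polynomial.coeff_C_mul, Polynomial.coeff_X_pow, if_neg, mul_zero]
        exact fun h3 => hij (Fin.ext h3.symm)
      · exact fun h3 => absurd (Finset.mem_univ j) h3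
    rw [← h2, h, Polynomial.coeff_zero]
    rfl
  have h2 : P2 ≠ 0 := by
    rw [hP2, Finset.prod_ne_zero_iff]
    intro l _ h3
    apply hp l
    have h4 := congrArg (fun q : κ[X] => q.coeff 1) h3
    have h5 := congrArg (fun q : κ[X] => q.coeff 0) h3
    simp only [Polynomial.coeff_sub, Polynomial.coeff_C_mul, Polynomial.coeff_X_one,
      Polynomial.coeff_X_zero, Polynomial.coeff_C_zero, Polynomial.coeff_C_succ, mul_one, mul_zero, sub_zero,
      zero_sub, Polynomial.coeff_zero, neg_eq_zero] at h4 h5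
    funext a
    fin_cases a
    · exact h4
    · exact h5
  have h3 : P1 * P2 ≠ 0 := mul_ne_zero h1 h2
  have h4 : ∃ t : κ, (P1 * P2).eval t ≠ 0 := by
    by_contra h5
    push Not at h5
    exact h3 (Polynomial.funext fun t => by rw [h5 t, Polynomial.eval_zero])
  obtain ⟨t, ht⟩ := h4
  rw [Polynomial.eval_mul] at ht
  refine ⟨t, ?_, fun l => ?_⟩
  · have h5 : P1.eval t = ev c ![1, t] := by
      rw [hP1, Polynomial.eval_finsetSum]
      unfold ev
      refine Finset.sum_congr rfl fun j _ => ?_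
      rw [Polynomial.eval_mul, Polynomial.eval_C, Polynomial.eval_pow, Polynomial.eval_X]
      show c j * t ^ (j : ℕ) = c j * 1 ^ (D - (j : ℕ)) * t ^ (j : ℕ)
      rw [one_pow, mul_one]
    rw [← h5]
    exact left_ne_zero_of_mul ht
  · have h5 := right_ne_zero_of_mul ht
    rw [hP2, Polynomial.eval_prod, Finset.prod_ne_zero_iff] at h5
    have h6 := h5 l (Finset.mem_univ l)
    rw [Polynomial.eval_sub, Polynomial.eval_mul, Polynomial.eval_C, Polynomial.eval_C,
      Polynomial.eval_X] at h6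
    show p l 0 * t - p l 1 * 1 ≠ 0
    rwa [mul_one]

theorem nu_eq (hI : Fam r I) (D : Dat I φ) {V : ValuationSubring F}
    (hV : IsDiscreteValuationRing V) (hφ : ∀ a, φ a ∈ V) (M : GM D.c V) :
    (M.a : ℤ) * D.nu V =
      -(2 * ((d : ℤ) + 1) * ord M.W M.m) - ((d : ℤ) + 1) ^ 2 * ord M.W M.g.det := by
  classical
  obtain ⟨hφ', hmem⟩ := GM.mem hI D hφ M
  have hW : IsDiscreteValuationRing M.W := M.abv.dvr
  have hch : CharZero (ResidueField M.W) :=
    charZero_of_injective_ringHom (resk ((algebraMap F M.E).comp φ) M.W hφ').injective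
  have hinf : Infinite (ResidueField M.W) := inferInstance
  have hne := hI.zer (ResidueField M.W) _ _ hmem M.red
  have hψe : algebraMap F M.E D.e ≠ 0 := fun h => D.ene ((map_eq_zero (algebraMap F M.E)).1 h)
  have hq : ∀ l, (fun a => algebraMap F M.E (D.p l a)) ≠ 0 := by
    intro l h
    apply D.pne l
    funext a
    exact (map_eq_zero (algebraMap F M.E)).1 (congrFun h a)
  have hpr : ∀ l, ∃ lam p', Prim M.W M.g (fun a => algebraMap F M.E (D.p l a)) lam p' := fun l =>
    exists_prim2 hW M.gne (hq l)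
  choose lam p' hp' using hpr
  -- a point where nothing vanishes
  obtain ⟨t, ht1, ht2⟩ := A6_avoid _ hne (fun l a => res M.W (p' l a)) fun l => (hp' l).red
  obtain ⟨τ, hτ, hτt⟩ := res_surj M.W t
  have hx : ∀ a : Fin 2, (![1, τ] : Fin 2 → M.E) a ∈ M.W := by
    intro a
    fin_cases a
    · exact M.W.one_mem
    · exact hτ
  have hx' : (fun a => res M.W ((![1, τ] : Fin 2 → M.E) a)) = ![1, t] := by
    funext a
    fin_cases a
    · show res M.W 1 = 1
      rw [res_of_mem M.W.one_mem]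
      exact map_one _
    · exact hτt
  have hev : res M.W (ev (fun j => M.m * act M.g (fun j => algebraMap F M.E (D.c 0 j)) j)
      ![1, τ]) ≠ 0 := by
    rw [res_ev (M.int 0) hx, hx']
    exact ht1
  obtain ⟨-, h0⟩ := A6_ord_zero hW (ev_mem (M.int 0) hx) hev
  have hwd : ∀ l, wd (p' l) ![1, τ] ≠ 0 ∧ ord M.W (wd (p' l) ![1, τ]) = 0 := by
    intro l
    have h1 : wd (p' l) ![1, τ] = p' l 0 * τ - p' l 1 * 1 := rfl
    have i0 := (hp' l).int 0
    have i1 := (hp' l).int 1
    have h2 : p' l 0 * τ ∈ M.W := M.W.mul_mem _ _ i0 hτ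
    have h3 : p' l 1 * 1 ∈ M.W := M.W.mul_mem _ _ i1 M.W.one_mem
    refine A6_ord_zero hW ?_ ?_
    · rw [h1]
      exact sub_mem h2 h3
    · rw [h1, res_sub h2 h3, res_mul i0 hτ, res_mul i1 M.W.one_mem, hτt]
      have h4 : res M.W (1 : M.E) = 1 := by
        rw [res_of_mem M.W.one_mem]
        exact map_one _
      rw [h4]
      exact ht2 l
  -- the identity of forms
  have hid : ev (fun j => M.m * act M.g (fun j => algebraMap F M.E (D.c 0 j)) j) ![1, τ] =
      M.m * (algebraMap F M.E D.e * ∏ l, (lam l * (M.g.det * wd (p' l) ![1, τ]))) := by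
    rw [ev_smul, ev_act, D.fac M.E (algebraMap F M.E) (M.g.mulVec ![1, τ])]
    refine congrArg (fun z => M.m * (algebraMap F M.E D.e * z)) (Finset.prod_congr rfl fun l _ => ?_)
    rw [← wd_mulVec]
    have h1 := (hp' l).eq
    show algebraMap F M.E (D.p l 0) * M.g.mulVec ![1, τ] 1 -
        algebraMap F M.E (D.p l 1) * M.g.mulVec ![1, τ] 0 =
      lam l * (M.g.mulVec (p' l) 0 * M.g.mulVec ![1, τ] 1 - M.g.mulVec (p' l) 1 * M.g.mulVec ![1, τ] 0)
    rw [h1 0, h1 1]
    ring
  have hl0 : ∀ l, lam l ≠ 0 := fun l => (hp' l).lne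
  have hf : ∀ l ∈ (Finset.univ : Finset (Fin (d + 1))),
      lam l * (M.g.det * wd (p' l) ![1, τ]) ≠ 0 := fun l _ =>
    mul_ne_zero (hl0 l) (mul_ne_zero M.gne (hwd l).1)
  have hprod : ord M.W (∏ l, (lam l * (M.g.det * wd (p' l) ![1, τ]))) =
      (∑ l, ord M.W (lam l)) + ((d : ℤ) + 1) * ord M.W M.g.det := by
    rw [A6_ord_prod hW _ _ hf]
    have h1 : ∀ l, ord M.W (lam l * (M.g.det * wd (p' l) ![1, τ])) =
        ord M.W (lam l) + ord M.W M.g.det := by
      intro l
      rw [ord_mul hW (hl0 l) (mul_ne_zero M.gne (hwd l).1), ord_mul hW M.gne (hwd l).1, (hwd l).2,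
        add_zero]
    simp_rw [h1]
    rw [Finset.sum_add_distrib, Finset.sum_const, Finset.card_univ, Fintype.card_fin, nsmul_eq_mul]
    push_cast
    ring
  rw [hid, ord_mul hW M.mne (mul_ne_zero hψe (Finset.prod_ne_zero_iff.2 hf)),
    ord_mul hW hψe (Finset.prod_ne_zero_iff.2 hf), hprod] at h0
  -- the orders of the points
  have hal : ∀ l, (M.a : ℤ) * al V (D.pt (D.p l)) = ((d : ℤ) + 1) * ord M.W (lam l) - ord M.W M.m := by
    intro l
    rw [← al_abv M.abv]
    have h1 : (fun i => algebraMap F M.E (D.pt (D.p l) i)) =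
        fun i => ev (fun j => algebraMap F M.E (D.c i j)) (fun a => algebraMap F M.E (D.p l a)) := by
      funext i
      exact ev_map _ _ _
    rw [h1, al_pt M (hp' l)]
    push_cast
    ring
  have hram : (M.a : ℤ) * ord V D.e = ord M.W (algebraMap F M.E D.e) := (M.abv.ram D.e D.ene).symm
  unfold Dat.nu
  rw [mul_add, Finset.mul_sum]
  simp_rw [hal]
  rw [Finset.sum_sub_distrib, Finset.sum_const, Finset.card_univ, Fintype.card_fin, nsmul_eq_mul,
    ← Finset.mul_sum]
  push_cast
  have h2 : (M.a : ℤ) * (((d : ℤ) + 1) * ord V D.e) = ((d : ℤ) + 1) * ord M.W (algebraMap F M.E D.e) := by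
    rw [← hram]
    ring
  rw [h2]
  linear_combination ((d : ℤ) + 1) * h0

end Pool.Agent.Lib.MP_1e3e9c_agU
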