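import Mathlib
import Pool.Agent.Lib.MP_1e3e9c_agU.A4
import Pool.Agent.Lib.MP_1e3e9c_agU.A6

/-!
# MP_1e3e9c_ag, project U, leaf A7: the local contact is nonnegative

With a good model `M` (`exists_GM`), `q = λ g q'`, `r = μ g r'`: `wd q r = λ μ det g wd q' r'`,
`a al V (pt q) = (d+1) ord λ - ord m` (`al_pt`, `al_abv`), `nu_eq`: so
`a dd V q r = (d+1)^2 ord W (wd q' r') ≥ 0`. If it is `> 0` the reductions of `q'`, `r'` are
proportional (`wd (res q') (res r') = 0`, both nonzero), so by `rd_pt` the vectors `rh (rd V (pt q))`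
and `rh (rd V (pt r))` are proportional; the factor is the quotient of two coordinates, so
`rd V (pt q)` and `rd V (pt r)` are proportional. (If `wd q r = 0` then `pt r = b^(d+1) pt q`.)
-/

set_option autoImplicit false

namespace Pool.Agent.Lib.MP_1e3e9c_agU

open IsLocalRing Pool.Agent.Lib.MP_b197b4_ntK

variable {k F : Type} [Field k] [CharZero k] [Field F] {n d r : ℕ}
  {I : Ideal (MvPolynomial (Fin (n + 1) × Fin (d + 1 + 1)) k)} {φ : k →+* F}

private theorem A7_pt_ne (D : Dat I φ) {q : Fin 2 → F} (hq : q ≠ 0) : D.pt q ≠ 0 := by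
  obtain ⟨i, hi⟩ := D.bpf.ev_ne hq
  exact fun h => hi (congrFun h i)

private theorem A7_ne {q q' : Fin 2 → F} (h : wd q q' ≠ 0) : q ≠ 0 ∧ q' ≠ 0 := by
  constructor
  · rintro rfl
    apply h
    simp [wd]
  · rintro rfl
    apply h
    simp [wd]

private theorem A7_map_ne {E : Type} [Field E] [Algebra F E] {q : Fin 2 → F} (hq : q ≠ 0) :
    (fun a => algebraMap F E (q a)) ≠ 0 := by
  intro h
  apply hq
  funext a
  exact (map_eq_zero (algebraMap F E)).1 (congrFun h a)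

private theorem A7_key (hI : Fam r I) (D : Dat I φ) {V : ValuationSubring F}
    (hV : IsDiscreteValuationRing V) (hφ : ∀ a, φ a ∈ V) {q q' : Fin 2 → F} (h : wd q q' ≠ 0)
    (M : GM D.c V) : ∃ (l m : M.E) (x y : Fin 2 → M.E),
      Prim M.W M.g (fun a => algebraMap F M.E (q a)) l x ∧
      Prim M.W M.g (fun a => algebraMap F M.E (q' a)) m y ∧ wd x y ≠ 0 ∧
      (M.a : ℤ) * D.dd V q q' = ((d : ℤ) + 1) ^ 2 * ord M.W (wd x y) := by
  obtain ⟨hq, hq'⟩ := A7_ne h
  have hW := M.abv.dvr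
  obtain ⟨l, x, hx⟩ := exists_prim2 hW M.gne (A7_map_ne (E := M.E) hq)
  obtain ⟨m, y, hy⟩ := exists_prim2 hW M.gne (A7_map_ne (E := M.E) hq')
  have h1 : wd (fun a => algebraMap F M.E (q a)) (fun a => algebraMap F M.E (q' a)) =
      algebraMap F M.E (wd q q') := by
    unfold wd
    rw [map_sub, map_mul, map_mul]
  have h2 := wd_prim hx hy
  rw [h1] at h2
  have h3 : algebraMap F M.E (wd q q') ≠ 0 := fun h4 => h ((map_eq_zero (algebraMap F M.E)).1 h4)
  have h4 : wd x y ≠ 0 := by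
    intro h5
    rw [h5, mul_zero] at h2
    exact h3 h2
  refine ⟨l, m, x, y, hx, hy, h4, ?_⟩
  have h5 := M.abv.ram (wd q q') h
  rw [h2, ord_mul hW (mul_ne_zero (mul_ne_zero hx.lne hy.lne) M.gne) h4,
    ord_mul hW (mul_ne_zero hx.lne hy.lne) M.gne, ord_mul hW hx.lne hy.lne] at h5
  have h6 : ∀ p : Fin 2 → F, (fun i => ev (fun j => algebraMap F M.E (D.c i j))
      (fun a => algebraMap F M.E (p a))) = fun i => algebraMap F M.E (D.pt p i) := by
    intro p
    funext i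
    exact (ev_map (algebraMap F M.E) (D.c i) p).symm
  have h7 := al_pt M hx
  have h8 := al_pt M hy
  rw [h6, al_abv M.abv] at h7 h8
  have h9 := nu_eq hI D hV hφ M
  push_cast at h7 h8
  unfold Dat.dd
  rw [mul_add, mul_sub, h9]
  have h10 : (M.a : ℤ) * (((d : ℤ) + 1) ^ 2 * ord V (wd q q')) =
      ((d : ℤ) + 1) ^ 2 * ((M.a : ℤ) * ord V (wd q q')) := by ring
  have h11 : (M.a : ℤ) * (((d : ℤ) + 1) * (al V (D.pt q) + al V (D.pt q'))) =
      ((d : ℤ) + 1) * ((M.a : ℤ) * al V (D.pt q) + (M.a : ℤ) * al V (D.pt q')) := by ring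
  rw [h10, h11, ← h5, h7, h8]
  ring

private theorem A7_wd_mem {E : Type} [Field E] {W : ValuationSubring E} {x y : Fin 2 → E}
    (hx : ∀ i, x i ∈ W) (hy : ∀ i, y i ∈ W) : wd x y ∈ W :=
  sub_mem (mul_mem (hx 0) (hy 1)) (mul_mem (hx 1) (hy 0))

private theorem A7_res_wd {E : Type} [Field E] {W : ValuationSubring E} {x y : Fin 2 → E}
    (hx : ∀ i, x i ∈ W) (hy : ∀ i, y i ∈ W) :
    wd (fun i => res W (x i)) (fun i => res W (y i)) = res W (wd x y) := by
  unfold wd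
  rw [res_sub (mul_mem (hx 0) (hy 1)) (mul_mem (hx 1) (hy 0)), res_mul (hx 0) (hy 1),
    res_mul (hx 1) (hy 0)]

/-- Proportionality over an extension field. -/
private theorem A7_desc {κ κ' : Type} [Field κ] [Field κ'] (rh : κ →+* κ') {ι : Type}
    {u u' : ι → κ} (hu : u ≠ 0) (h : Pr (fun i => rh (u i)) (fun i => rh (u' i))) : Pr u u' := by
  obtain ⟨b, hb, h⟩ := h
  obtain ⟨i, hi⟩ := Function.ne_iff.1 hu
  rw [Pi.zero_apply] at hi
  have hi' : rh (u i) ≠ 0 := fun h1 => hi ((map_eq_zero rh).1 h1)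
  have h1 : b = rh (u' i / u i) := by
    rw [map_div₀, eq_div_iff hi']
    exact (h i).symm
  refine ⟨u' i / u i, fun h2 => hb (by rw [h1, h2, map_zero]), fun j => ?_⟩
  apply rh.injective
  rw [map_mul, ← h1]
  exact h j

theorem dd_nonneg (hI : Fam r I) (D : Dat I φ) {V : ValuationSubring F}
    (hV : IsDiscreteValuationRing V) (hφ : ∀ a, φ a ∈ V) {q q' : Fin 2 → F} (h : wd q q' ≠ 0) :
    0 ≤ D.dd V q q' := by
  obtain ⟨M⟩ := exists_GM (Nat.le_add_left 1 d) hI φ V hV hφ D.c D.mem D.bpf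
  obtain ⟨l, m, x, y, hx, hy, h1, h2⟩ := A7_key hI D hV hφ h M
  have h3 := (ord_nonneg_iff M.abv.dvr h1).2 (A7_wd_mem hx.int hy.int)
  have h4 : 0 ≤ (M.a : ℤ) * D.dd V q q' := by
    rw [h2]
    positivity
  have h5 : (0 : ℤ) < M.a := by exact_mod_cast M.abv.apos
  exact nonneg_of_mul_nonneg_right h4 h5

theorem pr_of_dd_pos (hI : Fam r I) (D : Dat I φ) {V : ValuationSubring F}
    (hV : IsDiscreteValuationRing V) (hφ : ∀ a, φ a ∈ V) {q q' : Fin 2 → F} (h : wd q q' ≠ 0)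
    (hd : 0 < D.dd V q q') : Pr (rd V (D.pt q)) (rd V (D.pt q')) := by
  obtain ⟨M⟩ := exists_GM (Nat.le_add_left 1 d) hI φ V hV hφ D.c D.mem D.bpf
  obtain ⟨l, m, x, y, hx, hy, h1, h2⟩ := A7_key hI D hV hφ h M
  obtain ⟨hq, hq'⟩ := A7_ne h
  have h5 : (0 : ℤ) < M.a := by exact_mod_cast M.abv.apos
  have h3 : 0 < ord M.W (wd x y) := by
    by_contra h3
    push Not at h3
    have h4 : 0 < (M.a : ℤ) * D.dd V q q' := mul_pos h5 hd
    rw [h2] at h4
    exact absurd h4 (not_lt.2 (mul_nonpos_of_nonneg_of_nonpos (by positivity) h3))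
  have h4 : res M.W (wd x y) = 0 :=
    (res_eq_zero_iff (A7_wd_mem hx.int hy.int)).2 ((ord_pos_iff M.abv.dvr h1).1 h3)
  rw [← A7_res_wd hx.int hy.int] at h4
  obtain ⟨b, hb⟩ := (wd_eq_zero_iff hx.red _).1 h4
  have hb0 : b ≠ 0 := by
    rintro rfl
    apply hy.red
    funext i
    exact (hb i).trans (zero_mul _)
  have h6 := rd_pt M hq D.bpf hx
  have h7 := rd_pt M hq' D.bpf hy
  have h8 : (fun a => res M.W (y a)) = fun a => b * res M.W (x a) := funext hb
  rw [h8] at h7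
  refine A7_desc M.rh (rd_spec hV (A7_pt_ne D hq)).1 (Pr.trans h6 (Pr.trans ?_ (Pr.symm h7)))
  exact ⟨b ^ (d + 1), pow_ne_zero _ hb0, fun i => ev_scale b _ _⟩

/-- Proportional parameters give the same point. -/
theorem pt_pr (D : Dat I φ) {q q' : Fin 2 → F} (hq : q ≠ 0) (hq' : q' ≠ 0) (h : wd q q' = 0) :
    Pr (D.pt q) (D.pt q') := by
  obtain ⟨a, ha⟩ := (wd_eq_zero_iff hq q').1 h
  have ha0 : a ≠ 0 := by
    rintro rfl
    apply hq'
    funext i
    exact (ha i).trans (zero_mul _)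
  refine ⟨a ^ (d + 1), pow_ne_zero _ ha0, fun i => ?_⟩
  have h1 : q' = fun i => a * q i := funext ha
  rw [h1]
  exact ev_scale a (D.c i) q

end Pool.Agent.Lib.MP_1e3e9c_agU
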