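import Mathlib
import Pool.Agent.Lib.MP_1e3e9c_agU.A4
import Pool.Agent.Lib.MP_1e3e9c_agU.A6

/-!
# MP_1e3e9c_ag, project U, leaf A8: the inequality for the zeros of G(f(x))

With a good model `M` (`exists_GM`, leaf A4): `q_l = λ_l g q'_l` (`exists_prim2`), and
`m^s G(f(g x)) = m^s b ∏ wd (q_l) (g x) = m^s b (det g)^((d+1)s) ∏ λ_l ∏ wd (q'_l) x`, while
`m^s G(f(g x)) = G(m f(g x))` has coefficients in `W` (`comp_form` for the integral tuple; the
coefficients of `G` are in `V ⊆ W`); the form `∏ wd (q'_l) x` is integral with nonzero reduction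
(`prod_wd_ne`), so `0 ≤ s ord m + ord b + (d+1) s ord det g + ∑ ord λ_l` (orders for `W`). By
`al_pt`, `al_abv`: `a al V (pt q_l) = (d+1) ord λ_l - ord m`; `nu_eq`. Multiply by `d+1`:
`0 ≤ (d+1) ord b + a ∑ al V (pt q_l) + 2 (d+1) s ord m + (d+1)^2 s ord det g
   = a ((d+1) ord V b + ∑ al V (pt q_l) - s nu V)`.
-/

set_option autoImplicit false

namespace Pool.Agent.Lib.MP_1e3e9c_agU

open IsLocalRing Pool.Agent.Lib.MP_b197b4_ntK

variable {k F : Type} [Field k] [CharZero k] [Field F] {n d r : ℕ}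
  {I : Ideal (MvPolynomial (Fin (n + 1) × Fin (d + 1 + 1)) k)} {φ : k →+* F}

private theorem A8_eval2_mul {R S σ : Type} [CommSemiring R] [CommSemiring S] (ψ : R →+* S)
    [Fintype σ] (t : S) (v : σ → S) (G : MvPolynomial σ R) (s : ℕ) (hG : G.IsHomogeneous s) :
    MvPolynomial.eval₂ ψ (fun i => t * v i) G = t ^ s * MvPolynomial.eval₂ ψ v G := by
  rw [MvPolynomial.eval₂_eq', MvPolynomial.eval₂_eq', Finset.mul_sum]
  refine Finset.sum_congr rfl fun e he => ?_
  have h1 : ∑ i, e i = s := by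
    have h2 := hG (MvPolynomial.mem_support_iff.1 he)
    rw [← h2, Finsupp.weight_apply, Finsupp.sum_fintype]
    · simp
    · simp
  have h3 : ∏ i, (t * v i) ^ e i = t ^ s * ∏ i, v i ^ e i := by
    simp only [mul_pow]
    rw [Finset.prod_mul_distrib, Finset.prod_pow_eq_pow_sum, h1]
  rw [h3]
  ring

private theorem A8_eval2_mem {R S σ : Type} [CommRing R] [Field S] (ψ : R →+* S)
    [Fintype σ] (W : ValuationSubring S) (v : σ → S) (G : MvPolynomial σ R)
    (hG : ∀ e, ψ (G.coeff e) ∈ W) (hv : ∀ i, v i ∈ W) :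
    MvPolynomial.eval₂ ψ v G ∈ W := by
  rw [MvPolynomial.eval₂_eq']
  refine sum_mem fun e _ => mul_mem (hG e) (prod_mem fun i _ => pow_mem (hv i) _)

private theorem A8_res_prod {F : Type} [Field F] {W : ValuationSubring F} {ι : Type}
    (S : Finset ι) (f : ι → F) (hf : ∀ i ∈ S, W.valuation (f i) = 1) :
    W.valuation (∏ i ∈ S, f i) = 1 := by
  rw [map_prod]
  exact Finset.prod_eq_one hf

private theorem A8_ord_prod {F : Type} [Field F] {W : ValuationSubring F}
    (hW : IsDiscreteValuationRing W) {ι : Type} (S : Finset ι) (f : ι → F)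
    (hf : ∀ i ∈ S, f i ≠ 0) : ord W (∏ i ∈ S, f i) = ∑ i ∈ S, ord W (f i) := by
  classical
  induction S using Finset.induction_on with
  | empty => rw [Finset.prod_empty, Finset.sum_empty, ord_one W hW]
  | insert i S hi ih =>
    rw [Finset.prod_insert hi, Finset.sum_insert hi, ord_mul hW
      (hf i (Finset.mem_insert_self i S))
      (Finset.prod_ne_zero_iff.2 fun j hj => hf j (Finset.mem_insert_of_mem hj)),
      ih fun j hj => hf j (Finset.mem_insert_of_mem hj)]

/-- A point at which finitely many primitive linear forms have unit values. -/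
private theorem A8_exists_pt {F : Type} [Field F] {W : ValuationSubring F}
    [Infinite (ResidueField W)] {ι : Type} [Fintype ι] (q : ι → Fin 2 → F)
    (hq : ∀ l i, q l i ∈ W) (hr : ∀ l, (fun i => res W (q l i)) ≠ 0) :
    ∃ x : Fin 2 → F, (∀ i, x i ∈ W) ∧ ∀ l, W.valuation (wd (q l) x) = 1 := by
  classical
  obtain ⟨t, ht⟩ := Infinite.exists_notMem_finset
    (Finset.univ.image fun l : ι => res W (q l 1) / res W (q l 0))
  obtain ⟨u, huW, hu⟩ := res_surj W t
  refine ⟨![1, u], ?_, ?_⟩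
  · intro i
    fin_cases i
    · exact one_mem W
    · exact huW
  · intro l
    have hmem : wd (q l) ![1, u] ∈ W := by
      show q l 0 * u - q l 1 * 1 ∈ W
      exact sub_mem (mul_mem (hq l 0) huW) (mul_mem (hq l 1) (one_mem W))
    rw [← res_ne_zero_iff hmem]
    have h1 : res W (wd (q l) ![1, u]) = res W (q l 0) * t - res W (q l 1) := by
      show res W (q l 0 * u - q l 1 * 1) = _
      rw [mul_one, res_sub (mul_mem (hq l 0) huW) (hq l 1), res_mul (hq l 0) huW, hu]
    rw [h1]
    intro h2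
    by_cases h0 : res W (q l 0) = 0
    · rw [h0, zero_mul, zero_sub, neg_eq_zero] at h2
      apply hr l
      funext i
      fin_cases i
      · exact h0
      · exact h2
    · apply ht
      rw [Finset.mem_image]
      refine ⟨l, Finset.mem_univ l, ?_⟩
      rw [div_eq_iff h0, mul_comm]
      exact (sub_eq_zero.1 h2).symm

/-- The inequality for the zeros of `G(f(x))`. -/
theorem nu_le (hI : Fam r I) (D : Dat I φ) {V : ValuationSubring F}
    (hV : IsDiscreteValuationRing V) (hφ : ∀ a, φ a ∈ V) (s : ℕ) (G : MvPolynomial (Fin (n + 1)) F)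
    (hG : G.IsHomogeneous s) (hGV : ∀ t, G.coeff t ∈ V) (b : F) (hb : b ≠ 0)
    (q : Fin ((d + 1) * s) → Fin 2 → F) (hq : ∀ l, q l ≠ 0)
    (hf : ∀ (M : Type) [Field M] (ψ : F →+* M) (x : Fin 2 → M),
      MvPolynomial.eval₂ ψ (fun i => ev (fun j => ψ (D.c i j)) x) G =
        ψ b * ∏ l, wd (fun a => ψ (q l a)) x) :
    (s : ℤ) * D.nu V ≤ ((d : ℤ) + 1) * ord V b + ∑ l, al V (D.pt (q l)) := by
  classical
  obtain ⟨M⟩ := exists_GM (n := n) (D := d + 1) (r := r) (Nat.succ_le_succ (Nat.zero_le d)) hI φ V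
    hV hφ D.c D.mem D.bpf
  have hW : IsDiscreteValuationRing M.W := M.abv.dvr
  have hVW : ∀ x ∈ V, algebraMap F M.E x ∈ M.W := by
    intro x hx
    rw [← M.abv.com] at hx
    exact hx
  -- the residue field of `W` is infinite
  have hinf : Infinite (ResidueField M.W) := by
    have h1 : ∀ a, ((algebraMap F M.E).comp φ) a ∈ M.W := fun a => hVW _ (hφ a)
    exact Infinite.of_injective (resk ((algebraMap F M.E).comp φ) M.W h1)
      (RingHom.injective _)
  have hqE : ∀ l, (fun a => algebraMap F M.E (q l a)) ≠ 0 := by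
    intro l h
    apply hq l
    funext a
    exact (map_eq_zero (algebraMap F M.E)).1 (congrFun h a)
  choose lam q' hP using fun l => exists_prim2 (W := M.W) hW M.gne (hqE l)
  obtain ⟨x, hx, hxu⟩ := A8_exists_pt (W := M.W) q' (fun l => (hP l).int) (fun l => (hP l).red)
  -- the values at `g x`
  have h1 := hf M.E (algebraMap F M.E) (M.g.mulVec x)
  have h2 : ∀ l, wd (fun a => algebraMap F M.E (q l a)) (M.g.mulVec x) =
      lam l * M.g.det * wd (q' l) x := by
    intro l
    have h3 : wd (fun a => algebraMap F M.E (q l a)) (M.g.mulVec x) =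
        lam l * wd (M.g.mulVec (q' l)) (M.g.mulVec x) := by
      have e0 := (hP l).eq 0
      have e1 := (hP l).eq 1
      unfold wd
      beta_reduce
      rw [e0, e1]
      ring
    rw [h3, wd_mulVec]
    ring
  have h4 : ∏ l, wd (fun a => algebraMap F M.E (q l a)) (M.g.mulVec x) =
      (∏ l, lam l) * M.g.det ^ ((d + 1) * s) * ∏ l, wd (q' l) x := by
    rw [Finset.prod_congr rfl fun l _ => h2 l, Finset.prod_mul_distrib, Finset.prod_mul_distrib,
      Finset.prod_const, Finset.card_univ, Fintype.card_fin]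
  have h5 : ∀ i, M.m * ev (fun j => algebraMap F M.E (D.c i j)) (M.g.mulVec x) =
      ev (fun j => M.m * act M.g (fun j => algebraMap F M.E (D.c i j)) j) x := by
    intro i
    rw [ev_smul, ev_act]
  have h6 : MvPolynomial.eval₂ (algebraMap F M.E)
      (fun i => M.m * ev (fun j => algebraMap F M.E (D.c i j)) (M.g.mulVec x)) G ∈ M.W := by
    refine A8_eval2_mem _ _ _ _ (fun e => hVW _ (hGV e)) fun i => ?_
    rw [h5 i]
    exact ev_mem (M.int i) hx
  rw [A8_eval2_mul (algebraMap F M.E) M.m _ G s hG, h1, h4] at h6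
  have hu : M.W.valuation (∏ l, wd (q' l) x) = 1 := A8_res_prod _ _ fun l _ => hxu l
  have hu0 : (∏ l, wd (q' l) x) ≠ 0 := by
    intro h
    rw [h, map_zero] at hu
    exact zero_ne_one hu
  have hui : (∏ l, wd (q' l) x)⁻¹ ∈ M.W := by
    apply mem_of_val_one
    rw [map_inv₀, hu, inv_one]
  have hbE : algebraMap F M.E b ≠ 0 := fun h => hb ((map_eq_zero (algebraMap F M.E)).1 h)
  have hlam : (∏ l, lam l) ≠ 0 := Finset.prod_ne_zero_iff.2 fun l _ => (hP l).lne
  have h7 : M.m ^ s * (algebraMap F M.E b * ((∏ l, lam l) * M.g.det ^ ((d + 1) * s))) ∈ M.W := by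
    have h8 := mul_mem h6 hui
    have h9 : M.m ^ s * (algebraMap F M.E b * ((∏ l, lam l) * M.g.det ^ ((d + 1) * s) *
        ∏ l, wd (q' l) x)) * (∏ l, wd (q' l) x)⁻¹ =
        M.m ^ s * (algebraMap F M.E b * ((∏ l, lam l) * M.g.det ^ ((d + 1) * s))) := by
      field_simp
    rwa [h9] at h8
  have hd0 : M.g.det ^ ((d + 1) * s) ≠ 0 := pow_ne_zero _ M.gne
  have h10 := (ord_nonneg_iff hW (mul_ne_zero (pow_ne_zero s M.mne)
    (mul_ne_zero hbE (mul_ne_zero hlam hd0)))).2 h7
  rw [ord_mul hW (pow_ne_zero s M.mne) (mul_ne_zero hbE (mul_ne_zero hlam hd0)),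
    ord_mul hW hbE (mul_ne_zero hlam hd0), ord_mul hW hlam hd0, ord_pow hW M.mne,
    ord_pow hW M.gne, M.abv.ram b hb, A8_ord_prod hW _ _ fun l _ => (hP l).lne] at h10
  -- the orders of the points
  have h11 : ∀ l, (M.a : ℤ) * al V (D.pt (q l)) = ((d : ℤ) + 1) * ord M.W (lam l) - ord M.W M.m := by
    intro l
    have h12 := al_pt M (hP l)
    have h13 : (fun i => ev (fun j => algebraMap F M.E (D.c i j))
        (fun a => algebraMap F M.E (q l a))) = fun i => algebraMap F M.E (D.pt (q l) i) := by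
      funext i
      exact (ev_map (algebraMap F M.E) (D.c i) (q l)).symm
    rw [h13, al_abv M.abv] at h12
    rw [h12]
    push_cast
    ring
  have h14 : (M.a : ℤ) * ∑ l, al V (D.pt (q l)) = ((d : ℤ) + 1) * ∑ l, ord M.W (lam l) -
      ((d : ℤ) + 1) * s * ord M.W M.m := by
    rw [Finset.mul_sum, Finset.sum_congr rfl fun l _ => h11 l, Finset.sum_sub_distrib,
      ← Finset.mul_sum, Finset.sum_const, Finset.card_univ, Fintype.card_fin, nsmul_eq_mul]
    push_cast
    ring
  have h15 := nu_eq hI D hV hφ M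
  have ha : (0 : ℤ) < M.a := by exact_mod_cast M.abv.apos
  have hd : (0 : ℤ) < (d : ℤ) + 1 := by positivity
  have h16 : 0 ≤ (M.a : ℤ) * (((d : ℤ) + 1) * ord V b + ∑ l, al V (D.pt (q l)) - s * D.nu V) := by
    have h17 : (M.a : ℤ) * (((d : ℤ) + 1) * ord V b + ∑ l, al V (D.pt (q l)) - s * D.nu V) =
        ((d : ℤ) + 1) * (M.a * ord V b) + M.a * ∑ l, al V (D.pt (q l)) - s * (M.a * D.nu V) := by
      ring
    rw [h17, h14, h15]
    have h18 := mul_nonneg hd.le h10
    push_cast at h18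
    linarith
  have h19 := nonneg_of_mul_nonneg_right h16 ha
  linarith

end Pool.Agent.Lib.MP_1e3e9c_agU
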