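import Mathlib
import Pool.Agent.Lib.MP_1e3e9c_agU.A4
import Pool.Agent.Lib.MP_1e3e9c_agU.A6

/-!
# MP_1e3e9c_ag, project U, leaf A9: the residue datum

With a good model `M` (`exists_GM`): `E` = the residue field of `M.W`, an algebra over the residue
field of `V` by `M.rh` (`RingHom.toAlgebra`; finite by `M.abv.fin`). The tuple: the reduced tuple
`c̄'` (base point free; in the family by `GM.mem`: the two homomorphisms `k → E` agree by
`M.abv.hom`). The roots: `p_l = λ_l g p'_l` (`exists_prim2`), the reductions `p̄'_l ≠ 0`. The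
constant: `e' = m e (det g)^(d+1) ∏ λ_l`, which is a unit of `W` (proof of `nu_eq`: the form
`m f_0(g x) = e' ∏ wd (p'_l) x` has nonzero reduction by `hI.zer` and `∏ wd (p'_l) x` too), reduced;
the identity `fac` for the reductions (universal version with `fac_of`, the residue fields are
infinite). First property: `rd_pt`. Second: `a dd V p_l p_m = (d+1)^2 ord W (wd p'_l p'_m)`
(`wd_prim`, `al_pt`, `al_abv`, `nu_eq`), so `> 0` gives `res W (wd p'_l p'_m) = 0`. Third: `wd_prim`.
-/

set_option autoImplicit false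

namespace Pool.Agent.Lib.MP_1e3e9c_agU

open IsLocalRing Pool.Agent.Lib.MP_b197b4_ntK

variable {k F : Type} [Field k] [CharZero k] [Field F] {n d r : ℕ}
  {I : Ideal (MvPolynomial (Fin (n + 1) × Fin (d + 1 + 1)) k)} {φ : k →+* F}

private theorem A9_wd_mem {L : Type} [Field L] {W : ValuationSubring L} {p q : Fin 2 → L}
    (hp : ∀ a, p a ∈ W) (hq : ∀ a, q a ∈ W) : wd p q ∈ W :=
  sub_mem (mul_mem (hp 0) (hq 1)) (mul_mem (hp 1) (hq 0))

private theorem A9_res_wd {L : Type} [Field L] {W : ValuationSubring L} {p q : Fin 2 → L}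
    (hp : ∀ a, p a ∈ W) (hq : ∀ a, q a ∈ W) :
    res W (wd p q) = wd (fun a => res W (p a)) (fun a => res W (q a)) := by
  unfold wd
  rw [res_sub (mul_mem (hp 0) (hq 1)) (mul_mem (hp 1) (hq 0)), res_mul (hp 0) (hq 1),
    res_mul (hp 1) (hq 0)]

private theorem A9_prod_mem {L ι : Type} [Field L] [Fintype ι] {W : ValuationSubring L} {f : ι → L}
    (hf : ∀ i, f i ∈ W) : ∏ i, f i ∈ W :=
  prod_mem fun i _ => hf i

private theorem A9_res_prod {L ι : Type} [Field L] [Fintype ι] {W : ValuationSubring L} {f : ι → L}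
    (hf : ∀ i, f i ∈ W) : res W (∏ i, f i) = ∏ i, res W (f i) := by
  rw [res_of_mem (A9_prod_mem hf)]
  have e : (⟨∏ i, f i, A9_prod_mem hf⟩ : W) = ∏ i, (⟨f i, hf i⟩ : W) := by
    apply Subtype.ext
    rw [SubmonoidClass.coe_finsetProd]
  rw [e, map_prod]
  exact Finset.prod_congr rfl fun i _ => (res_of_mem (hf i)).symm

/-- a point where a product of linear forms does not vanish -/
private theorem A9_avoid {κ : Type} [Field κ] [Infinite κ] {N : ℕ} (p : Fin N → Fin 2 → κ)
    (hp : ∀ l, p l ≠ 0) : ∃ x : Fin 2 → κ, ∏ l, wd (p l) x ≠ 0 := by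
  by_contra hcon
  push Not at hcon
  have h0 : (∏ l, (Polynomial.C (p l 0) * Polynomial.X - Polynomial.C (p l 1))) = 0 := by
    apply Polynomial.funext
    intro t
    rw [Polynomial.eval_prod, Polynomial.eval_zero]
    rw [← hcon ![1, t]]
    refine Finset.prod_congr rfl fun l _ => ?_
    unfold wd
    simp
  rw [Finset.prod_eq_zero_iff] at h0
  obtain ⟨l, -, hl⟩ := h0
  apply hp l
  have c0 := congrArg (fun P => Polynomial.coeff P 0) hl
  have c1 := congrArg (fun P => Polynomial.coeff P 1) hl
  simp at c0 c1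
  funext a
  fin_cases a
  · exact c1
  · exact c0

/-- The residue datum. -/
theorem exists_resDat (hI : Fam r I) (D : Dat I φ) {V : ValuationSubring F}
    (hV : IsDiscreteValuationRing V) (hφ : ∀ a, φ a ∈ V) :
    ∃ (E : Type) (_ : Field E) (_ : Algebra (ResidueField V) E)
      (_ : FiniteDimensional (ResidueField V) E)
      (D' : Dat I ((algebraMap (ResidueField V) E).comp (resk φ V hφ))),
      (∀ l, Pr (up E (rd V (D.pt (D.p l)))) (D'.pt (D'.p l))) ∧
      (∀ l m, wd (D.p l) (D.p m) ≠ 0 → 0 < D.dd V (D.p l) (D.p m) →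
        wd (D'.p l) (D'.p m) = 0) ∧
      (∀ l m, wd (D.p l) (D.p m) = 0 → wd (D'.p l) (D'.p m) = 0) := by
  obtain ⟨M⟩ := exists_GM (Nat.le_add_left 1 d) hI φ V hV hφ D.c D.mem D.bpf
  have hW : IsDiscreteValuationRing M.W := M.abv.dvr
  -- primitive parameters
  have hpE : ∀ l, (fun a => algebraMap F M.E (D.p l a)) ≠ 0 := by
    intro l h
    apply D.pne l
    funext a
    exact (map_eq_zero (algebraMap F M.E)).1 (congrFun h a)
  choose lam p' hp' using fun l => exists_prim2 hW M.gne (hpE l)
  obtain ⟨hφ', hmem⟩ := GM.mem hI D hφ M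
  -- the residue fields are infinite
  have : Infinite (ResidueField M.W) :=
    Infinite.of_injective (resk ((algebraMap F M.E).comp φ) M.W hφ')
      (resk ((algebraMap F M.E).comp φ) M.W hφ').injective
  set C0 : Fin (d + 1 + 1) → M.E :=
    fun j => M.m * act M.g (fun j => algebraMap F M.E (D.c 0 j)) j with hC0
  have hC0W : ∀ j, C0 j ∈ M.W := fun j => M.int 0 j
  set e' : M.E := M.m * algebraMap F M.E D.e * M.g.det ^ (d + 1) * ∏ l, lam l with he'
  have he'0 : e' ≠ 0 := by
    refine mul_ne_zero (mul_ne_zero (mul_ne_zero M.mne ?_) (pow_ne_zero _ M.gne)) ?_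
    · exact fun h => D.ene ((map_eq_zero (algebraMap F M.E)).1 h)
    · exact Finset.prod_ne_zero_iff.2 fun l _ => (hp' l).lne
  -- the factorisation over `M.E`
  have hfacE : ∀ x : Fin 2 → M.E, ev C0 x = e' * ∏ l, wd (p' l) x := by
    intro x
    rw [hC0, ev_smul, ev_act, D.fac M.E (algebraMap F M.E) (M.g.mulVec x)]
    have h1 : ∀ l, wd (fun a => algebraMap F M.E (D.p l a)) (M.g.mulVec x)
        = lam l * M.g.det * wd (p' l) x := by
      intro l
      have h2 := wd_mulVec M.g (p' l) x
      have h3 : wd (fun a => algebraMap F M.E (D.p l a)) (M.g.mulVec x)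
          = lam l * wd (M.g.mulVec (p' l)) (M.g.mulVec x) := by
        unfold wd
        simp only [(hp' l).eq]
        ring
      rw [h3, h2]
      ring
    rw [Finset.prod_congr rfl fun l _ => h1 l, Finset.prod_mul_distrib, Finset.prod_mul_distrib,
      Finset.prod_const, Finset.card_univ, Fintype.card_fin, he']
    ring
  have hprodW : ∀ {x : Fin 2 → M.E}, (∀ a, x a ∈ M.W) → ∀ l, wd (p' l) x ∈ M.W :=
    fun hx l => A9_wd_mem (hp' l).int hx
  -- `e'` is a unit
  have he'v : M.W.valuation e' = 1 := by
    apply le_antisymm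
    · obtain ⟨xb, hxb⟩ := A9_avoid (fun l a => res M.W (p' l a)) fun l => (hp' l).red
      choose x hx hxr using fun a => res_surj M.W (xb a)
      have h1 : res M.W (∏ l, wd (p' l) x) ≠ 0 := by
        rw [A9_res_prod (hprodW hx)]
        have h2 : (∏ l, res M.W (wd (p' l) x)) = ∏ l, wd (fun a => res M.W (p' l a)) xb := by
          refine Finset.prod_congr rfl fun l _ => ?_
          rw [A9_res_wd (hp' l).int hx]
          congr 1
          funext a
          exact hxr a
        rw [h2]
        exact hxb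
      have h3 := (res_ne_zero_iff (A9_prod_mem (hprodW hx))).1 h1
      have h4 := (ValuationSubring.valuation_le_one_iff M.W _).2 (ev_mem hC0W hx)
      rw [hfacE x, map_mul, h3, mul_one] at h4
      exact h4
    · have hz : (fun j => res M.W (C0 j)) ≠ 0 := hI.zer _ _ _ hmem M.red
      have h1 : ∃ xb : Fin 2 → ResidueField M.W, ev (fun j => res M.W (C0 j)) xb ≠ 0 := by
        by_contra hcon
        push Not at hcon
        apply hz
        apply ev_ext
        intro x
        rw [hcon x]
        unfold ev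
        simp
      obtain ⟨xb, hxb⟩ := h1
      choose x hx hxr using fun a => res_surj M.W (xb a)
      have h2 : res M.W (ev C0 x) ≠ 0 := by
        rw [res_ev hC0W hx]
        have h3 : (fun a => res M.W (x a)) = xb := funext hxr
        rw [h3]
        exact hxb
      have h3 := (res_ne_zero_iff (ev_mem hC0W hx)).1 h2
      have h4 := (ValuationSubring.valuation_le_one_iff M.W _).2 (A9_prod_mem (hprodW hx))
      rw [hfacE x, map_mul] at h3
      rw [← h3]
      exact mul_le_of_le_one_right' h4
  have he'W : e' ∈ M.W := mem_of_val_one he'v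
  -- the factorisation of the reduction
  have hfacR : ∀ xb : Fin 2 → ResidueField M.W, ev (fun j => res M.W (C0 j)) xb =
      res M.W e' * ∏ l, wd (fun a => res M.W (p' l a)) xb := by
    intro xb
    choose x hx hxr using fun a => res_surj M.W (xb a)
    have h3 : (fun a => res M.W (x a)) = xb := funext hxr
    have h1 := congrArg (res M.W) (hfacE x)
    rw [res_ev hC0W hx, res_mul he'W (A9_prod_mem (hprodW hx)), A9_res_prod (hprodW hx), h3] at h1
    rw [h1]
    congr 1
    refine Finset.prod_congr rfl fun l _ => ?_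
    rw [A9_res_wd (hp' l).int hx, h3]
  let algE : Algebra (ResidueField V) (ResidueField M.W) := M.rh.toAlgebra
  have hfin : FiniteDimensional (ResidueField V) (ResidueField M.W) := M.abv.fin
  have hhom : (algebraMap (ResidueField V) (ResidueField M.W)).comp (resk φ V hφ)
      = resk ((algebraMap F M.E).comp φ) M.W hφ' := by
    ext a
    have h1 : resk φ V hφ a = res V (φ a) := (res_of_mem (hφ a)).symm
    have h2 : resk ((algebraMap F M.E).comp φ) M.W hφ' a = res M.W (algebraMap F M.E (φ a)) :=
      (res_of_mem (hφ' a)).symm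
    rw [RingHom.comp_apply, h1, h2]
    exact M.abv.hom _ (hφ a)
  let D' : Dat I ((algebraMap (ResidueField V) (ResidueField M.W)).comp (resk φ V hφ)) :=
    { c := fun i j => res M.W (M.m * act M.g (fun j => algebraMap F M.E (D.c i j)) j)
      p := fun l a => res M.W (p' l a)
      e := res M.W e'
      mem := by
        rw [hhom]
        exact hmem
      bpf := M.red
      pne := fun l => (hp' l).red
      ene := (res_ne_zero_iff he'W).2 he'v
      fac := fun N _ ψ x => fac_of (fun j => res M.W (C0 j)) (res M.W e')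
        (fun l a => res M.W (p' l a)) hfacR N ψ x }
  refine ⟨ResidueField M.W, inferInstance, algE, hfin, D', fun l => ?_, fun l m hne hpos => ?_,
    fun l m h0 => ?_⟩
  · exact rd_pt M (D.pne l) D.bpf (hp' l)
  · -- the contact
    have hwd := wd_prim (hp' l) (hp' m)
    have hwd' : algebraMap F M.E (wd (D.p l) (D.p m)) =
        lam l * lam m * M.g.det * wd (p' l) (p' m) := by
      rw [← hwd]
      unfold wd
      simp only [map_sub, map_mul]
    have hwE : algebraMap F M.E (wd (D.p l) (D.p m)) ≠ 0 := fun h =>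
      hne ((map_eq_zero (algebraMap F M.E)).1 h)
    have hw0 : wd (p' l) (p' m) ≠ 0 := by
      intro h
      rw [h, mul_zero] at hwd'
      exact hwE hwd'
    have h1 := M.abv.ram (wd (D.p l) (D.p m)) hne
    rw [hwd', ord_mul hW (mul_ne_zero (mul_ne_zero (hp' l).lne (hp' m).lne) M.gne) hw0,
      ord_mul hW (mul_ne_zero (hp' l).lne (hp' m).lne) M.gne,
      ord_mul hW (hp' l).lne (hp' m).lne] at h1
    have hal : ∀ l, (M.a : ℤ) * al V (D.pt (D.p l)) = ((d : ℤ) + 1) * ord M.W (lam l) - ord M.W M.m := by
      intro l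
      have h2 := al_pt M (hp' l)
      have h3 := al_abv M.abv (D.pt (D.p l))
      have h4 : (fun j => algebraMap F M.E (D.pt (D.p l) j)) = fun i =>
          ev (fun j => algebraMap F M.E (D.c i j)) (fun a => algebraMap F M.E (D.p l a)) := by
        funext i
        exact ev_map (algebraMap F M.E) (D.c i) (D.p l)
      rw [h4, h2] at h3
      rw [← h3]
      push_cast
      ring
    have hnu := nu_eq hI D hV hφ M
    have hdd : (M.a : ℤ) * D.dd V (D.p l) (D.p m) =
        ((d : ℤ) + 1) ^ 2 * ord M.W (wd (p' l) (p' m)) := by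
      unfold Dat.dd
      have ha1 := hal l
      have ha2 := hal m
      calc (M.a : ℤ) * (((d : ℤ) + 1) ^ 2 * ord V (wd (D.p l) (D.p m)) -
            ((d : ℤ) + 1) * (al V (D.pt (D.p l)) + al V (D.pt (D.p m))) + D.nu V)
          = ((d : ℤ) + 1) ^ 2 * (M.a * ord V (wd (D.p l) (D.p m))) -
            ((d : ℤ) + 1) * (M.a * al V (D.pt (D.p l)) + M.a * al V (D.pt (D.p m))) +
            M.a * D.nu V := by ring
        _ = _ := by
          rw [← h1, ha1, ha2, hnu]
          ring
    have hapos : (0 : ℤ) < M.a := by exact_mod_cast M.abv.apos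
    have hpos' : 0 < ((d : ℤ) + 1) ^ 2 * ord M.W (wd (p' l) (p' m)) := by
      rw [← hdd]
      exact mul_pos hapos hpos
    have hop : 0 < ord M.W (wd (p' l) (p' m)) := by
      by_contra hcon
      push Not at hcon
      have : ((d : ℤ) + 1) ^ 2 * ord M.W (wd (p' l) (p' m)) ≤ 0 :=
        mul_nonpos_of_nonneg_of_nonpos (by positivity) hcon
      linarith
    have hv := (ord_pos_iff hW hw0).1 hop
    have hr := (res_eq_zero_iff (A9_wd_mem (hp' l).int (hp' m).int)).2 hv
    rw [A9_res_wd (hp' l).int (hp' m).int] at hr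
    exact hr
  · have hwd := wd_prim (hp' l) (hp' m)
    have hwd' : algebraMap F M.E (wd (D.p l) (D.p m)) =
        lam l * lam m * M.g.det * wd (p' l) (p' m) := by
      rw [← hwd]
      unfold wd
      simp only [map_sub, map_mul]
    rw [h0, map_zero] at hwd'
    have hw0 : wd (p' l) (p' m) = 0 := by
      rcases mul_eq_zero.1 hwd'.symm with h | h
      · exact absurd h (mul_ne_zero (mul_ne_zero (hp' l).lne (hp' m).lne) M.gne)
      · exact h
    have hr := A9_res_wd (hp' l).int (hp' m).int
    rw [hw0, res_zero] at hr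
    exact hr.symm

end Pool.Agent.Lib.MP_1e3e9c_agU
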