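import Mathlib
import Pool.Agent.Lib.MP_1e3e9c_agU.FmC
import Pool.Agent.Lib.MP_1e3e9c_agU.Defs3
import Pool.Agent.Lib.MP_1e3e9c_agU.G0c

/-!
# MP_1e3e9c_ag, project U, leaf G1b: the datum over its field of definition

`F₀` = the subfield of `L` generated by `φ(k)` and the `c i j`; `c` over `F₀` (`bpf_of_map`; `Mem` over
`F₀` because `F₀ → L` is injective). `c 0 ≠ 0` (`hI.zer`). `exists_fac` for `c 0` over `F₀`: a finite
extension `F` of `F₀`, `e`, `p` (`CharZero`: from `φ`). The datum over `F`. `F` is finitely generated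
over `k` (its transcendence degree is finite) and algebraic over `F₀`. `Nrm`: compute in `L`, `F₀ → L`
injective. `Gen`: by `act_univ` `P(gt c)` is the image of a polynomial `R` in the four variables `G` with
coefficients in `F₀`; it vanishes in `GF F _`, so `R = 0`; the value of `R` at `G = g` (in `L`) is
`P(act g c)`, so this is `0` and `P ∈ I`.
-/

set_option autoImplicit false

namespace Pool.Agent.Lib.MP_1e3e9c_agU

/-- A ring homomorphism from the closure of a set maps into every subfield which contains the images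
of the generators. -/
private theorem G1b_closure {L E : Type} [Field L] [Field E] (S : Set L)
    (f : Subfield.closure S →+* E) (M : Subfield E)
    (h : ∀ s (hs : s ∈ S), f ⟨s, Subfield.subset_closure hs⟩ ∈ M) (x : Subfield.closure S) :
    f x ∈ M := by
  obtain ⟨x, hx⟩ := x
  induction hx using Subfield.closure_induction with
  | mem x hx => exact h x hx
  | one =>
    have h1 : f ⟨1, one_mem _⟩ = 1 := map_one f
    rw [h1]
    exact one_mem M
  | add x y hx hy h1 h2 =>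
    have h3 : f ⟨x + y, add_mem hx hy⟩ = f ⟨x, hx⟩ + f ⟨y, hy⟩ := map_add f ⟨x, hx⟩ ⟨y, hy⟩
    rw [h3]
    exact add_mem h1 h2
  | neg x hx h1 =>
    have h3 : f ⟨-x, neg_mem hx⟩ = -f ⟨x, hx⟩ := map_neg f ⟨x, hx⟩
    rw [h3]
    exact neg_mem h1
  | inv x hx h1 =>
    have h3 : f ⟨x⁻¹, inv_mem hx⟩ = (f ⟨x, hx⟩)⁻¹ := map_inv₀ f ⟨x, hx⟩
    rw [h3]
    exact inv_mem h1
  | mul x y hx hy h1 h2 =>
    have h3 : f ⟨x * y, mul_mem hx hy⟩ = f ⟨x, hx⟩ * f ⟨y, hy⟩ := map_mul f ⟨x, hx⟩ ⟨y, hy⟩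
    rw [h3]
    exact mul_mem h1 h2

private theorem G1b_ev {A B : Type} [Field A] [Field B] (ψ : A →+* B) {D : ℕ} (c : Fin (D + 1) → A)
    (x : Fin 2 → A) (y : Fin 2 → B) (h : ∀ a, y a = ψ (x a)) :
    ev (fun j => ψ (c j)) y = ψ (ev c x) := by
  rw [ev_map]
  congr 1
  exact funext h

private theorem G1b_nrm {k A B : Type} [Field k] [Field A] [Field B] (ψ : A →+* B) (φ : k →+* A)
    {n D : ℕ} (c : Fin (n + 1) → Fin (D + 1) → A) :
    Nrm (ψ.comp φ) (fun i j => ψ (c i j)) ↔ Nrm φ c := by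
  have e10 : ∀ a, (![1, 0] : Fin 2 → B) a = ψ ((![1, 0] : Fin 2 → A) a) := by
    intro a
    fin_cases a <;> simp
  have e01 : ∀ a, (![0, 1] : Fin 2 → B) a = ψ ((![0, 1] : Fin 2 → A) a) := by
    intro a
    fin_cases a <;> simp
  have e11 : ∀ a, (![1, 1] : Fin 2 → B) a = ψ ((![1, 1] : Fin 2 → A) a) := by
    intro a
    fin_cases a <;> simp
  have h10 : ∀ i, ev (fun j => ψ (c i j)) ![1, 0] = ψ (ev (c i) ![1, 0]) := fun i =>
    G1b_ev ψ (c i) ![1, 0] ![1, 0] e10
  have h01 : ∀ i, ev (fun j => ψ (c i j)) ![0, 1] = ψ (ev (c i) ![0, 1]) := fun i =>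
    G1b_ev ψ (c i) ![0, 1] ![0, 1] e01
  have h11 : ∀ i, ev (fun j => ψ (c i j)) ![1, 1] = ψ (ev (c i) ![1, 1]) := fun i =>
    G1b_ev ψ (c i) ![1, 1] ![1, 1] e11
  have hs : ∀ (a : Fin (n + 1) → k) (w : Fin (n + 1) → A),
      ∑ i, (ψ.comp φ) (a i) * ψ (w i) = ψ (∑ i, φ (a i) * w i) := by
    intro a w
    rw [map_sum]
    exact Finset.sum_congr rfl fun i _ => (map_mul ψ _ _).symm
  have hz : ∀ x : A, ψ x = 0 ↔ x = 0 := fun x => map_eq_zero ψ
  have ho : ∀ x : A, ψ x = 1 ↔ x = 1 := fun x => by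
    rw [← map_one ψ]
    exact ψ.injective.eq_iff
  unfold Nrm
  refine exists_congr fun j => exists_congr fun a => ?_
  rw [h10, h01, h10, hz, hz, ho]
  have e1 : ∑ i, (ψ.comp φ) (a i) * ev (fun j => ψ (c i j)) ![1, 1] =
      ψ (∑ i, φ (a i) * ev (c i) ![1, 1]) := by
    rw [← hs]
    exact Finset.sum_congr rfl fun i _ => by rw [h11]
  have e2 : ∑ i, (ψ.comp φ) (a i) * ev (fun j => ψ (c i j)) ![1, 0] =
      ψ (∑ i, φ (a i) * ev (c i) ![1, 0]) := by
    rw [← hs]
    exact Finset.sum_congr rfl fun i _ => by rw [h10]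
  rw [e1, e2, hz, Ne, Ne, hz]

/-- The value of `P` at the translate by a matrix, as a polynomial in the four entries. -/
private theorem G1b_key {k A : Type} [Field k] [Field A] (φ : k →+* A) {n D : ℕ}
    (c : Fin (n + 1) → Fin (D + 1) → A) (P : MvPolynomial (Fin (n + 1) × Fin (D + 1)) k) :
    ∃ Q : MvPolynomial (Fin 2 × Fin 2) A, ∀ (M : Type) [Field M]
      (θ : MvPolynomial (Fin 2 × Fin 2) A →+* M) (α : A →+* M) (g : Matrix (Fin 2) (Fin 2) M),
      (∀ a, θ (MvPolynomial.C a) = α a) → (∀ s : Fin 2 × Fin 2, θ (MvPolynomial.X s) = g s.1 s.2) →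
      θ Q = MvPolynomial.eval₂ (α.comp φ) (fun q => act g (fun j => α (c q.1 j)) q.2) P := by
  obtain ⟨A', hA⟩ := act_univ D
  refine ⟨MvPolynomial.eval₂ (MvPolynomial.C.comp φ) (fun q : Fin (n + 1) × Fin (D + 1) =>
    MvPolynomial.eval₂ (Int.castRingHom (MvPolynomial (Fin 2 × Fin 2) A))
      (Sum.elim (fun j => MvPolynomial.C (c q.1 j)) fun s => MvPolynomial.X s) (A' q.2)) P, ?_⟩
  intro M _ θ α g hC hX
  rw [MvPolynomial.hom_eval₂]
  have h1 : (θ.comp (MvPolynomial.C.comp φ)) = α.comp φ := RingHom.ext fun a => hC (φ a)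
  rw [h1]
  refine congrArg (fun w => MvPolynomial.eval₂ (α.comp φ) w P) (funext fun q => ?_)
  rw [hA, MvPolynomial.hom_eval₂]
  have h2 : θ.comp (Int.castRingHom (MvPolynomial (Fin 2 × Fin 2) A)) = Int.castRingHom M :=
    RingHom.ext_int _ _
  rw [h2]
  refine congrArg (fun w => MvPolynomial.eval₂ (Int.castRingHom M) w (A' q.2)) (funext fun s => ?_)
  cases s with
  | inl j => exact hC (c q.1 j)
  | inr s => exact hX s

private theorem G1b_gen {k A B E : Type} [Field k] [Field A] [Field B] [Field E] (φ : k →+* A)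
    (ι : A →+* B) (ψ : A →+* E) {n D : ℕ} (c : Fin (n + 1) → Fin (D + 1) → A)
    (g : Matrix (Fin 2) (Fin 2) B) (P : MvPolynomial (Fin (n + 1) × Fin (D + 1)) k)
    (h : MvPolynomial.eval₂ ((algebraMap E (GF E (Fin 2 × Fin 2))).comp (ψ.comp φ))
      (gt fun i j => ψ (c i j)) P = 0) :
    MvPolynomial.eval₂ (ι.comp φ) (fun q => act g (fun j => ι (c q.1 j)) q.2) P = 0 := by
  obtain ⟨Q, hQ⟩ := G1b_key φ c P
  have hinj : Function.Injective ((algebraMap (MvPolynomial (Fin 2 × Fin 2) E)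
      (GF E (Fin 2 × Fin 2))).comp (MvPolynomial.map ψ)) := by
    rw [RingHom.coe_comp]
    exact (IsFractionRing.injective (MvPolynomial (Fin 2 × Fin 2) E) (GF E (Fin 2 × Fin 2))).comp
      (MvPolynomial.map_injective ψ ψ.injective)
  have hC : ∀ a : A, ((algebraMap (MvPolynomial (Fin 2 × Fin 2) E)
      (GF E (Fin 2 × Fin 2))).comp (MvPolynomial.map ψ)) (MvPolynomial.C a) =
        ((algebraMap E (GF E (Fin 2 × Fin 2))).comp ψ) a := by
    intro a
    rw [RingHom.comp_apply, RingHom.comp_apply, MvPolynomial.map_C,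
      IsScalarTower.algebraMap_apply E (MvPolynomial (Fin 2 × Fin 2) E) (GF E (Fin 2 × Fin 2)),
      MvPolynomial.algebraMap_eq]
  have hX : ∀ s : Fin 2 × Fin 2, ((algebraMap (MvPolynomial (Fin 2 × Fin 2) E)
      (GF E (Fin 2 × Fin 2))).comp (MvPolynomial.map ψ)) (MvPolynomial.X s) =
        gmat E s.1 s.2 := by
    intro s
    rw [RingHom.comp_apply, MvPolynomial.map_X]
    rfl
  have h1 := hQ (GF E (Fin 2 × Fin 2)) ((algebraMap (MvPolynomial (Fin 2 × Fin 2) E)
    (GF E (Fin 2 × Fin 2))).comp (MvPolynomial.map ψ)) ((algebraMap E (GF E (Fin 2 × Fin 2))).comp ψ)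
    (gmat E) hC hX
  have h2 : Q = 0 := by
    refine hinj ?_
    rw [map_zero]
    exact h1.trans h
  have h3 := hQ B (MvPolynomial.eval₂Hom ι fun s : Fin 2 × Fin 2 => g s.1 s.2) ι g
    (fun a => MvPolynomial.eval₂_C _ _ _) (fun s => MvPolynomial.eval₂_X _ _ _)
  rw [h2, map_zero] at h3
  exact h3.symm

theorem exists_dat {k : Type} [Field k] [CharZero k] {n d r : ℕ}
    {I : Ideal (MvPolynomial (Fin (n + 1) × Fin (d + 1 + 1)) k)} (hI : Fam r I)
    {L : Type} [Field L] (φ : k →+* L) (c : Fin (n + 1) → Fin (d + 1 + 1) → L)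
    (g : Matrix (Fin 2) (Fin 2) L) (hm : Mem φ I c) (hb : BPF c) (hN : Nrm φ c)
    (hg : ∀ P : MvPolynomial (Fin (n + 1) × Fin (d + 1 + 1)) k,
      MvPolynomial.eval₂ φ (fun q => act g (c q.1) q.2) P = 0 → P ∈ I) :
    ∃ (F : Type) (_ : Field F) (_ : CharZero F) (φ' : k →+* F) (D : Dat I φ') (m : ℕ),
      FF φ'.fieldRange m ∧ Nrm φ' D.c ∧ Gen I φ' D.c ∧
      ∀ x : F, IsAlgebraic (Subfield.closure (Set.range φ' ∪
        Set.range fun q : Fin (n + 1) × Fin (d + 1 + 1) => D.c q.1 q.2)) x := by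
  classical
  -- the field of definition
  set S : Set L := Set.range φ ∪ Set.range fun q : Fin (n + 1) × Fin (d + 1 + 1) => c q.1 q.2 with hS
  let F₀ : Subfield L := Subfield.closure S
  let φ₀ : k →+* F₀ := φ.codRestrict F₀ fun a => Subfield.subset_closure (Or.inl ⟨a, rfl⟩)
  let c₀ : Fin (n + 1) → Fin (d + 1 + 1) → F₀ := fun i j =>
    ⟨c i j, Subfield.subset_closure (Or.inr ⟨(i, j), rfl⟩)⟩
  have hφ : F₀.subtype.comp φ₀ = φ := RingHom.ext fun _ => rfl
  have hm₀ : Mem φ₀ I c₀ := by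
    intro P hP
    apply F₀.subtype.injective
    rw [map_zero, MvPolynomial.hom_eval₂]
    exact hm P hP
  have hb₀ : BPF c₀ := bpf_of_map F₀.subtype hb
  have h0 : c₀ 0 ≠ 0 := hI.zer F₀ φ₀ c₀ hm₀ hb₀
  have hch : CharZero F₀ := charZero_of_injective_ringHom φ₀.injective
  obtain ⟨E, fE, aE, fdE, e, p, he, hp, hfac⟩ := exists_fac (c₀ 0) h0
  have hchE : CharZero E := charZero_of_injective_ringHom (algebraMap F₀ E).injective
  let φ' : k →+* E := (algebraMap F₀ E).comp φ₀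
  let D : Dat I φ' :=
    { c := fun i j => algebraMap F₀ E (c₀ i j)
      p := p
      e := e
      mem := mem_map φ₀ (algebraMap F₀ E) I c₀ hm₀
      bpf := BPF.map (algebraMap F₀ E) hb₀
      pne := hp
      ene := he
      fac := hfac }
  -- subfields of `E` which contain the generators contain `F₀`
  have hgen : ∀ M : Subfield E, (∀ a, φ' a ∈ M) → (∀ i j, D.c i j ∈ M) →
      ∀ x : F₀, algebraMap F₀ E x ∈ M := by
    intro M h1 h2 x
    refine G1b_closure S (algebraMap F₀ E) M ?_ x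
    rintro s hs
    rcases hs with ⟨a, rfl⟩ | ⟨q, rfl⟩
    · exact h1 a
    · exact h2 q.1 q.2
  -- finite generation
  have hfg : (⊤ : IntermediateField φ'.fieldRange E).FG := by
    let b := Module.finBasis F₀ E
    refine IntermediateField.fg_def.2 ⟨(Set.range fun q : Fin (n + 1) × Fin (d + 1 + 1) => D.c q.1 q.2) ∪
      Set.range b, (Set.finite_range _).union (Set.finite_range _), ?_⟩
    rw [eq_top_iff]
    intro x _
    set N := IntermediateField.adjoin φ'.fieldRange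
      ((Set.range fun q : Fin (n + 1) × Fin (d + 1 + 1) => D.c q.1 q.2) ∪ Set.range b) with hN'
    have hsub := IntermediateField.subset_adjoin φ'.fieldRange
      ((Set.range fun q : Fin (n + 1) × Fin (d + 1 + 1) => D.c q.1 q.2) ∪ Set.range b)
    have h1 : ∀ y : F₀, algebraMap F₀ E y ∈ N.toSubfield := by
      refine hgen N.toSubfield (fun a => ?_) (fun i j => ?_)
      · exact N.algebraMap_mem ⟨φ' a, ⟨a, rfl⟩⟩
      · exact hsub (Or.inl ⟨(i, j), rfl⟩)
    rw [← b.sum_repr x]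
    refine sum_mem fun i _ => ?_
    rw [Algebra.smul_def]
    exact mul_mem (h1 _) (hsub (Or.inr ⟨i, rfl⟩))
  have hess : Algebra.EssFiniteType φ'.fieldRange E := IntermediateField.fg_top_iff.1 hfg
  obtain ⟨m, hm'⟩ := Cardinal.lt_aleph0.1 (trdeg_lt_aleph0 φ'.fieldRange E)
  refine ⟨E, fE, hchE, φ', D, m, ⟨hfg, hm'⟩, ?_, ?_, ?_⟩
  · have h1 : Nrm (F₀.subtype.comp φ₀) (fun i j => F₀.subtype (c₀ i j)) := by
      rw [hφ]
      exact hN
    exact (G1b_nrm (algebraMap F₀ E) φ₀ c₀).2 ((G1b_nrm F₀.subtype φ₀ c₀).1 h1)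
  · intro P hP
    apply hg
    have h1 := G1b_gen φ₀ F₀.subtype (algebraMap F₀ E) c₀ g P hP
    rw [hφ] at h1
    exact h1
  · intro x
    obtain ⟨P, hP0, hP⟩ := Algebra.IsAlgebraic.isAlgebraic (R := F₀) x
    set M : Subfield E := Subfield.closure (Set.range φ' ∪
      Set.range fun q : Fin (n + 1) × Fin (d + 1 + 1) => D.c q.1 q.2) with hM
    have h1 : ∀ y : F₀, algebraMap F₀ E y ∈ M := by
      refine hgen M (fun a => ?_) (fun i j => ?_)
      · exact Subfield.subset_closure (Or.inl ⟨a, rfl⟩)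
      · exact Subfield.subset_closure (Or.inr ⟨(i, j), rfl⟩)
    let f : F₀ →+* M := (algebraMap F₀ E).codRestrict M h1
    refine ⟨P.map f, (Polynomial.map_ne_zero_iff f.injective).2 hP0, ?_⟩
    rw [Polynomial.aeval_def, Polynomial.eval₂_map]
    exact hP

end Pool.Agent.Lib.MP_1e3e9c_agU
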