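import Mathlib
import Pool.Agent.Lib.MP_1e3e9c_agU.FmB
import Pool.Agent.Lib.MP_1e3e9c_agU.Defs3

/-!
# MP_1e3e9c_ag, project U, leaf G1c: the marked points determine the translate

`Ω = GF F (Fin 2 × Fin 2)`, `G = gmat F`, `h = gt c` (the forms `h_i(x) = f_i(G x)`), `K'` = the field
generated by `φ(k)` and the coefficients of `h`. The vectors `r₁ = adj(G) (1,0)`, `r₂ = adj(G) (0,1)`,
`r₃ = r₁ + r₂ = adj(G) (1,1)` satisfy `G r_a = det G e_a`, so `h_0(r₁) = 0`, `h_j(r₂) = 0`,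
`∑ a_i h_i(r₃) = 0`, `h_j(r₁) = (det G)^(d+1) ≠ 0`, `∑ a_i h_i(r₁) ≠ 0`, and `h_0 ≠ 0` (`hI.zer`): three
nonzero forms over `K'`. So the ratio of the coordinates of `r_a` is algebraic over `K'`:
`r_a = ρ_a u_a`, `u_a ≠ 0` with coordinates algebraic over `K'`, `ρ_a ∈ Ω`, not `0`.
`ρ₁ u₁ + ρ₂ u₂ = ρ₃ u₃` and `u₁`, `u₂` are linearly independent: `ρ₁/ρ₃`, `ρ₂/ρ₃` are algebraic over
`K'`. So `r₁ = ρ₃ r₁'`, `r₂ = ρ₃ r₂'` with algebraic `r₁'`, `r₂'`; the entries of `G` are (up to sign)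
those of `r₁`, `r₂`: `G = ρ₃ G'`, `G'` algebraic. `h_j(r₁) = (det G)^(d+1)`:
`ρ₃^(d+1) h_j(r₁') = ρ₃^(2(d+1)) (det G')^(d+1)`: `ρ₃^(d+1)` is algebraic, `d + 1 ≥ 1`: `ρ₃` is algebraic
over `K'`, and `G`. `c = act G⁻¹ h` is algebraic over `K'`, so `F` is (last hypothesis), so
`Ω = F(G)` is.
-/

set_option autoImplicit false

namespace Pool.Agent.Lib.MP_1e3e9c_agU

private theorem G1c_root {Ω : Type} [Field Ω] (K : Subfield Ω) {D : ℕ} (H : Fin (D + 1) → Ω)
    (hH : ∀ j, H j ∈ algebraicClosure K Ω) (hne : ∃ j, H j ≠ 0) (t : Ω)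
    (h : ∑ j : Fin (D + 1), H j * t ^ (j : ℕ) = 0) : t ∈ algebraicClosure K Ω := by
  classical
  let P : Polynomial (algebraicClosure K Ω) :=
    ∑ j : Fin (D + 1), Polynomial.monomial (j : ℕ) (⟨H j, hH j⟩ : algebraicClosure K Ω)
  have hc : ∀ j : Fin (D + 1), P.coeff (j : ℕ) = ⟨H j, hH j⟩ := by
    intro j
    show (∑ j : Fin (D + 1), Polynomial.monomial (j : ℕ)
      (⟨H j, hH j⟩ : algebraicClosure K Ω)).coeff (j : ℕ) = _
    rw [Polynomial.finset_sum_coeff, Finset.sum_eq_single j]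
    · rw [Polynomial.coeff_monomial, if_pos rfl]
    · intro i _ hij
      rw [Polynomial.coeff_monomial, if_neg]
      intro h1
      exact hij (Fin.ext h1)
    · intro h1
      exact absurd (Finset.mem_univ j) h1
  have hP : P ≠ 0 := by
    obtain ⟨j, hj⟩ := hne
    intro h0
    apply hj
    have h1 := hc j
    rw [h0, Polynomial.coeff_zero] at h1
    exact (congrArg Subtype.val h1).symm
  have h2 : Polynomial.aeval t P = 0 := by
    show Polynomial.aeval t (∑ j : Fin (D + 1), Polynomial.monomial (j : ℕ)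
      (⟨H j, hH j⟩ : algebraicClosure K Ω)) = 0
    rw [map_sum, ← h]
    refine Finset.sum_congr rfl fun j _ => ?_
    rw [Polynomial.aeval_monomial]
    rfl
  have h3 : IsAlgebraic (algebraicClosure K Ω) t := ⟨P, hP, h2⟩
  exact mem_algebraicClosure_iff.2 (h3.restrictScalars K)

/-- A zero of a nonzero form with algebraic coefficients is proportional to an algebraic one. -/
private theorem G1c_form {Ω : Type} [Field Ω] (K : Subfield Ω) {D : ℕ} (H : Fin (D + 1) → Ω)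
    (hH : ∀ j, H j ∈ algebraicClosure K Ω) (hne : H ≠ 0) (r : Fin 2 → Ω) (hr : r ≠ 0)
    (h : ev H r = 0) : ∃ (ρ : Ω) (u : Fin 2 → Ω), ρ ≠ 0 ∧ (∀ i, u i ∈ algebraicClosure K Ω) ∧
      ∀ i, r i = ρ * u i := by
  by_cases h0 : r 0 = 0
  · have h1 : r 1 ≠ 0 := by
      intro h1
      apply hr
      funext i
      fin_cases i
      · exact h0
      · exact h1
    refine ⟨r 1, ![0, 1], h1, ?_, ?_⟩
    · intro i
      fin_cases i
      · exact zero_mem _
      · exact one_mem _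
    · intro i
      fin_cases i
      · show r 0 = r 1 * 0
        rw [h0, mul_zero]
      · show r 1 = r 1 * 1
        rw [mul_one]
  · have hne' : ∃ j, H j ≠ 0 := by
      by_contra hcon
      push Not at hcon
      exact hne (funext hcon)
    have h1 : ∑ j : Fin (D + 1), H j * (r 1 / r 0) ^ (j : ℕ) = 0 := by
      have h2 : ev H r = r 0 ^ D * ∑ j : Fin (D + 1), H j * (r 1 / r 0) ^ (j : ℕ) := by
        unfold ev
        rw [Finset.mul_sum]
        refine Finset.sum_congr rfl fun j _ => ?_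
        have h3 : r 0 ^ D = r 0 ^ (D - (j : ℕ)) * r 0 ^ (j : ℕ) := by
          rw [← pow_add, Nat.sub_add_cancel (Nat.le_of_lt_succ j.2)]
        rw [h3, div_pow]
        field_simp
      rw [h] at h2
      rcases mul_eq_zero.1 h2.symm with h3 | h3
      · exact absurd h3 (pow_ne_zero D h0)
      · exact h3
    refine ⟨r 0, ![1, r 1 / r 0], h0, ?_, ?_⟩
    · intro i
      fin_cases i
      · exact one_mem _
      · exact G1c_root K H hH hne' _ h1
    · intro i
      fin_cases i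
      · show r 0 = r 0 * 1
        rw [mul_one]
      · show r 1 = r 0 * (r 1 / r 0)
        rw [mul_div_cancel₀ _ h0]

private theorem G1c_act_mem {Ω : Type} [Field Ω] (L : Subfield Ω) {D : ℕ}
    (g : Matrix (Fin 2) (Fin 2) Ω) (c : Fin (D + 1) → Ω) (hg : ∀ a b, g a b ∈ L)
    (hc : ∀ j, c j ∈ L) (j : Fin (D + 1)) : act g c j ∈ L := by
  let g' : Matrix (Fin 2) (Fin 2) L := fun a b => ⟨g a b, hg a b⟩
  have h1 := act_map L.subtype g' (fun j => (⟨c j, hc j⟩ : L)) j
  have h2 : g'.map L.subtype = g := by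
    ext a b
    rfl
  have h3 : (fun j => L.subtype (⟨c j, hc j⟩ : L)) = c := rfl
  rw [h2, h3] at h1
  rw [← h1]
  exact (act g' (fun j => (⟨c j, hc j⟩ : L)) j).2

private theorem G1c_ev_mem {Ω : Type} [Field Ω] (L : Subfield Ω) {D : ℕ}
    (c : Fin (D + 1) → Ω) (x : Fin 2 → Ω) (hc : ∀ j, c j ∈ L) (hx : ∀ i, x i ∈ L) :
    ev c x ∈ L := by
  unfold ev
  exact sum_mem fun j _ => mul_mem (mul_mem (hc j) (pow_mem (hx 0) _)) (pow_mem (hx 1) _)

private theorem G1c_det (F : Type) [Field F] : (gmat F).det ≠ 0 := by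
  rw [Matrix.det_fin_two]
  unfold gmat gc
  rw [← map_mul, ← map_mul, ← map_sub]
  intro h
  have h1 := (map_eq_zero_iff _ (IsFractionRing.injective (MvPolynomial (Fin 2 × Fin 2) F)
    (GF F (Fin 2 × Fin 2)))).1 h
  have h2 := congrArg (MvPolynomial.eval fun q : Fin 2 × Fin 2 => if q.1 = q.2 then (1 : F) else 0) h1
  simp at h2

/-- Elements of `F(G)` are algebraic when the constants and the generators are. -/
private theorem G1c_all {F : Type} [Field F] (L : Subfield (GF F (Fin 2 × Fin 2)))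
    (h1 : ∀ x : F, algebraMap F (GF F (Fin 2 × Fin 2)) x ∈ L)
    (h2 : ∀ a b, gmat F a b ∈ L) (x : GF F (Fin 2 × Fin 2)) : x ∈ L := by
  have h3 : ∀ P : MvPolynomial (Fin 2 × Fin 2) F,
      algebraMap (MvPolynomial (Fin 2 × Fin 2) F) (GF F (Fin 2 × Fin 2)) P ∈ L := by
    intro P
    induction P using MvPolynomial.induction_on with
    | C a =>
      have h4 : algebraMap (MvPolynomial (Fin 2 × Fin 2) F) (GF F (Fin 2 × Fin 2))
          (MvPolynomial.C a) = algebraMap F (GF F (Fin 2 × Fin 2)) a := by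
        rw [IsScalarTower.algebraMap_apply F (MvPolynomial (Fin 2 × Fin 2) F)
          (GF F (Fin 2 × Fin 2)) a]
        rfl
      rw [h4]
      exact h1 a
    | add p q hp hq =>
      rw [map_add]
      exact add_mem hp hq
    | mul_X p q hp =>
      rw [map_mul]
      exact mul_mem hp (h2 q.1 q.2)
  obtain ⟨a, b, -, rfl⟩ := IsFractionRing.div_surjective (MvPolynomial (Fin 2 × Fin 2) F) x
  exact div_mem (h3 a) (h3 b)

/-- Algebraic elements of `F` are algebraic over a larger field. -/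
private theorem G1c_lift {F Ω : Type} [Field F] [Field Ω] (ψ : F →+* Ω) (K₁ : Subfield F)
    (K : Subfield Ω) (h : ∀ y ∈ K₁, ψ y ∈ algebraicClosure K Ω) (x : F)
    (hx : IsAlgebraic K₁ x) : ψ x ∈ algebraicClosure K Ω := by
  obtain ⟨P, hP, hPx⟩ := hx
  let i₁ : K₁ →+* algebraicClosure K Ω :=
    { toFun := fun y => ⟨ψ y, h y y.2⟩
      map_one' := Subtype.ext (map_one ψ)
      map_mul' := fun a b => Subtype.ext (map_mul ψ (a : F) (b : F))
      map_zero' := Subtype.ext (map_zero ψ)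
      map_add' := fun a b => Subtype.ext (map_add ψ (a : F) (b : F)) }
  have h3 : IsAlgebraic (algebraicClosure K Ω) (ψ x) := by
    refine ⟨P.map i₁, (Polynomial.map_ne_zero_iff i₁.injective).2 hP, ?_⟩
    rw [Polynomial.aeval_def, Polynomial.eval₂_map]
    have h4 := congrArg ψ hPx
    rw [map_zero, Polynomial.aeval_def, Polynomial.hom_eval₂] at h4
    rw [← h4]
    rfl
  exact mem_algebraicClosure_iff.2 (h3.restrictScalars K)

theorem eff_of {k F : Type} [Field k] [CharZero k] [Field F] {n d r : ℕ}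
    {I : Ideal (MvPolynomial (Fin (n + 1) × Fin (d + 1 + 1)) k)} {φ : k →+* F} (hI : Fam r I)
    (D : Dat I φ) (hN : Nrm φ D.c)
    (hA : ∀ x : F, IsAlgebraic (Subfield.closure (Set.range φ ∪
      Set.range fun q : Fin (n + 1) × Fin (d + 1 + 1) => D.c q.1 q.2)) x) : Eff φ D.c := by
  classical
  obtain ⟨j, a, hz1, hz2, hz3, hz4, hz5⟩ := hN
  set A : F →+* (GF F (Fin 2 × Fin 2)) := algebraMap F (GF F (Fin 2 × Fin 2)) with hA'
  set g := gmat F with hg
  have hdet : g.det ≠ 0 := G1c_det F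
  set K' : Subfield (GF F (Fin 2 × Fin 2)) := Subfield.closure (Set.range (A.comp φ) ∪ Set.range (gt D.c)) with hK'
  set L : Subfield (GF F (Fin 2 × Fin 2)) := (algebraicClosure K' (GF F (Fin 2 × Fin 2))).toSubfield with hL
  have hmemL : ∀ x : (GF F (Fin 2 × Fin 2)), x ∈ L ↔ x ∈ algebraicClosure K' (GF F (Fin 2 × Fin 2)) := fun x => Iff.rfl
  have hKL : ∀ x ∈ K', x ∈ L := fun x hx =>
    (algebraicClosure K' (GF F (Fin 2 × Fin 2))).algebraMap_mem (⟨x, hx⟩ : K')
  -- the forms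
  set h : Fin (n + 1) → Fin (d + 1 + 1) → (GF F (Fin 2 × Fin 2)) := fun i => act g (fun j => A (D.c i j)) with hh
  have hhL : ∀ i j, h i j ∈ L := fun i j =>
    hKL _ (Subfield.subset_closure (Or.inr ⟨(i, j), rfl⟩))
  have hφL : ∀ x : k, A (φ x) ∈ L := fun x =>
    hKL _ (Subfield.subset_closure (Or.inl ⟨x, rfl⟩))
  have hev : ∀ i x, ev (h i) x = ev (fun j => A (D.c i j)) (g.mulVec x) := fun i x => ev_act _ _ _
  -- the marked points
  set r1 : Fin 2 → (GF F (Fin 2 × Fin 2)) := ![g 1 1, -g 1 0] with hr1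
  set r2 : Fin 2 → (GF F (Fin 2 × Fin 2)) := ![-g 0 1, g 0 0] with hr2
  set r3 : Fin 2 → (GF F (Fin 2 × Fin 2)) := ![g 1 1 - g 0 1, g 0 0 - g 1 0] with hr3
  have hG1 : g.mulVec r1 = fun i => g.det * A ((![1, 0] : Fin 2 → F) i) := by
    funext i
    rw [Matrix.det_fin_two]
    fin_cases i
    · simp [Matrix.mulVec, dotProduct, Fin.sum_univ_two, hr1]
      ring
    · simp [Matrix.mulVec, dotProduct, Fin.sum_univ_two, hr1]
      ring
  have hG2 : g.mulVec r2 = fun i => g.det * A ((![0, 1] : Fin 2 → F) i) := by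
    funext i
    rw [Matrix.det_fin_two]
    fin_cases i
    · simp [Matrix.mulVec, dotProduct, Fin.sum_univ_two, hr2]
      ring
    · simp [Matrix.mulVec, dotProduct, Fin.sum_univ_two, hr2]
      ring
  have hG3 : g.mulVec r3 = fun i => g.det * A ((![1, 1] : Fin 2 → F) i) := by
    funext i
    rw [Matrix.det_fin_two]
    fin_cases i
    · simp [Matrix.mulVec, dotProduct, Fin.sum_univ_two, hr3]
      ring
    · simp [Matrix.mulVec, dotProduct, Fin.sum_univ_two, hr3]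
      ring
  have hval : ∀ (i : Fin (n + 1)) (r : Fin 2 → (GF F (Fin 2 × Fin 2))) (e : Fin 2 → F),
      g.mulVec r = (fun i => g.det * A (e i)) → ev (h i) r = g.det ^ (d + 1) * A (ev (D.c i) e) := by
    intro i r e he
    rw [hev, he, ev_scale, ev_map]
  have hdp : g.det ^ (d + 1) ≠ 0 := pow_ne_zero _ hdet
  have hr1ne : r1 ≠ 0 := by
    intro h0
    have h1 := hval j r1 ![1, 0] hG1
    rw [hz3, map_one, mul_one, h0] at h1
    apply hdp
    rw [← h1]
    unfold ev
    refine Finset.sum_eq_zero fun i _ => ?_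
    rcases Nat.eq_zero_or_pos (i : ℕ) with h2 | h2
    · rw [h2, Nat.sub_zero]
      show _ * (0 : (GF F (Fin 2 × Fin 2))) ^ (d + 1) * _ = 0
      rw [zero_pow (Nat.succ_ne_zero d), mul_zero, zero_mul]
    · show _ * (0 : (GF F (Fin 2 × Fin 2))) ^ (i : ℕ) = 0
      rw [zero_pow (by omega), mul_zero]
  have hwd : wd r1 r2 = g.det := by
    rw [Matrix.det_fin_two]
    unfold wd
    simp [hr1, hr2]
    ring
  have hr2ne : r2 ≠ 0 := by
    intro h0
    apply hdet
    rw [← hwd, h0]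
    unfold wd
    simp
  have h13 : wd r1 r3 = g.det := by
    rw [Matrix.det_fin_two]
    unfold wd
    simp [hr1, hr3]
    ring
  have hr3ne : r3 ≠ 0 := by
    intro h0
    apply hdet
    rw [← h13, h0]
    unfold wd
    simp
  -- first form
  have hmem : Mem (A.comp φ) I (fun i => act g (fun j => A (D.c i j))) :=
    hI.act (GF F (Fin 2 × Fin 2)) (A.comp φ) (fun i j => A (D.c i j)) g (D.up (GF F (Fin 2 × Fin 2))).mem
  have hbpf : BPF (fun i => act g (fun j => A (D.c i j))) := BPF.act (D.up (GF F (Fin 2 × Fin 2))).bpf hdet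
  have hh0 : h 0 ≠ 0 := hI.zer (GF F (Fin 2 × Fin 2)) (A.comp φ) _ hmem hbpf
  obtain ⟨ρ1, u1, hρ1, hu1, e1⟩ := G1c_form K' (h 0) (hhL 0) hh0 r1 hr1ne (by
    rw [hval 0 r1 ![1, 0] hG1, hz1, map_zero, mul_zero])
  -- second form
  have hhj : h j ≠ 0 := by
    intro h0
    have h1 := hval j r1 ![1, 0] hG1
    rw [hz3, map_one, mul_one, h0] at h1
    apply hdp
    rw [← h1]
    unfold ev
    exact Finset.sum_eq_zero fun i _ => by simp
  obtain ⟨ρ2, u2, hρ2, hu2, e2⟩ := G1c_form K' (h j) (hhL j) hhj r2 hr2ne (by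
    rw [hval j r2 ![0, 1] hG2, hz2, map_zero, mul_zero])
  -- third form
  set H : Fin (d + 1 + 1) → (GF F (Fin 2 × Fin 2)) := fun l => ∑ i, A (φ (a i)) * h i l with hH
  have hHev : ∀ x, ev H x = ∑ i, A (φ (a i)) * ev (h i) x := by
    intro x
    unfold ev
    simp only [hH, Finset.mul_sum, Finset.sum_mul]
    rw [Finset.sum_comm]
    refine Finset.sum_congr rfl fun i _ => Finset.sum_congr rfl fun l _ => ?_
    ring
  have hHval : ∀ (r : Fin 2 → (GF F (Fin 2 × Fin 2))) (e : Fin 2 → F),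
      g.mulVec r = (fun i => g.det * A (e i)) →
      ev H r = g.det ^ (d + 1) * A (∑ i, φ (a i) * ev (D.c i) e) := by
    intro r e he
    rw [hHev, map_sum, Finset.mul_sum]
    refine Finset.sum_congr rfl fun i _ => ?_
    rw [hval i r e he, map_mul]
    ring
  have hHne : H ≠ 0 := by
    intro h0
    have h1 := hHval r1 ![1, 0] hG1
    rw [h0] at h1
    have h2 : g.det ^ (d + 1) * A (∑ i, φ (a i) * ev (D.c i) ![1, 0]) ≠ 0 :=
      mul_ne_zero hdp (fun h3 => hz5 ((map_eq_zero A).1 h3))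
    apply h2
    rw [← h1]
    unfold ev
    exact Finset.sum_eq_zero fun i _ => by simp
  obtain ⟨ρ3, u3, hρ3, hu3, e3⟩ := G1c_form K' H
    (fun l => sum_mem fun i _ => mul_mem (hφL (a i)) (hhL i l)) hHne r3 hr3ne (by
    rw [hHval r3 ![1, 1] hG3, hz4, map_zero, mul_zero])
  -- the ratios
  have hw12 : ρ1 * ρ2 * wd u1 u2 = g.det := by
    rw [← hwd]
    unfold wd
    rw [e1 0, e1 1, e2 0, e2 1]
    ring
  have hw0 : wd u1 u2 ≠ 0 := by
    intro h0
    apply hdet
    rw [← hw12, h0, mul_zero]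
  have hsum : ∀ i, r3 i = r1 i + r2 i := by
    intro i
    fin_cases i
    · simp [hr1, hr2, hr3]
      ring
    · simp [hr1, hr2, hr3]
      ring
  have hs1 : ρ1 * wd u1 u2 = ρ3 * wd u3 u2 := by
    have f0 := hsum 0
    have f1 := hsum 1
    rw [e1 0, e2 0, e3 0] at f0
    rw [e1 1, e2 1, e3 1] at f1
    unfold wd
    linear_combination (-(u2 1)) * f0 + (u2 0) * f1
  have hs2 : ρ2 * wd u1 u2 = ρ3 * wd u1 u3 := by
    have f0 := hsum 0
    have f1 := hsum 1
    rw [e1 0, e2 0, e3 0] at f0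
    rw [e1 1, e2 1, e3 1] at f1
    unfold wd
    linear_combination (u1 1) * f0 - (u1 0) * f1
  have hwdL : ∀ p q : Fin 2 → (GF F (Fin 2 × Fin 2)), (∀ i, p i ∈ L) → (∀ i, q i ∈ L) → wd p q ∈ L := by
    intro p q hp hq
    exact sub_mem (mul_mem (hp 0) (hq 1)) (mul_mem (hp 1) (hq 0))
  obtain ⟨s1, hs1'⟩ : ∃ s1, s1 = wd u3 u2 / wd u1 u2 := ⟨_, rfl⟩
  obtain ⟨s2, hs2'⟩ : ∃ s2, s2 = wd u1 u3 / wd u1 u2 := ⟨_, rfl⟩
  have hs1L : s1 ∈ L := by
    rw [hs1']
    exact div_mem (hwdL _ _ hu3 hu2) (hwdL _ _ hu1 hu2)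
  have hs2L : s2 ∈ L := by
    rw [hs2']
    exact div_mem (hwdL _ _ hu1 hu3) (hwdL _ _ hu1 hu2)
  have hρ1' : ρ1 = ρ3 * s1 := by
    rw [hs1']
    field_simp
    exact hs1
  have hρ2' : ρ2 = ρ3 * s2 := by
    rw [hs2']
    field_simp
    exact hs2
  -- the first vector divided by `ρ3`
  set r1' : Fin 2 → (GF F (Fin 2 × Fin 2)) := fun i => s1 * u1 i with hr1'
  have hr1L : ∀ i, r1' i ∈ L := fun i => mul_mem hs1L (hu1 i)
  have hr1e : r1 = fun i => ρ3 * r1' i := by
    funext i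
    rw [e1 i, hρ1', hr1']
    ring
  obtain ⟨δ, hδ⟩ : ∃ δ, δ = s1 * s2 * wd u1 u2 := ⟨_, rfl⟩
  have hδL : δ ∈ L := by
    rw [hδ]
    exact mul_mem (mul_mem hs1L hs2L) (hwdL _ _ hu1 hu2)
  have hdetδ : g.det = ρ3 ^ 2 * δ := by
    rw [← hw12, hρ1', hρ2', hδ]
    ring
  have hδ0 : δ ≠ 0 := by
    intro h0
    apply hdet
    rw [hdetδ, h0, mul_zero]
  have hpow : ρ3 ^ (d + 1) = ev (h j) r1' / δ ^ (d + 1) := by
    have h1 := hval j r1 ![1, 0] hG1
    rw [hz3, map_one, mul_one, hr1e, ev_scale, hdetδ] at h1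
    rw [eq_div_iff (pow_ne_zero _ hδ0)]
    have h2 : ρ3 ^ (d + 1) ≠ 0 := pow_ne_zero _ hρ3
    apply mul_left_cancel₀ h2
    rw [h1]
    ring
  have hρL : ρ3 ∈ L := by
    have h1 : ρ3 ^ (d + 1) ∈ L := by
      rw [hpow]
      exact div_mem (G1c_ev_mem L _ _ (hhL j) hr1L) (pow_mem hδL _)
    have h2 : IsAlgebraic K' (ρ3 ^ (d + 1)) := mem_algebraicClosure_iff.1 h1
    exact mem_algebraicClosure_iff.2 (h2.of_pow (Nat.succ_pos d))
  have hρ1L : ρ1 ∈ L := by
    rw [hρ1']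
    exact mul_mem hρL hs1L
  have hρ2L : ρ2 ∈ L := by
    rw [hρ2']
    exact mul_mem hρL hs2L
  have hr1L' : ∀ i, r1 i ∈ L := fun i => by
    rw [e1 i]
    exact mul_mem hρ1L (hu1 i)
  have hr2L' : ∀ i, r2 i ∈ L := fun i => by
    rw [e2 i]
    exact mul_mem hρ2L (hu2 i)
  have hgL : ∀ a b, g a b ∈ L := by
    have f11 : g 1 1 ∈ L := hr1L' 0
    have f10 : g 1 0 ∈ L := by
      have := hr1L' 1
      have h2 : -g 1 0 ∈ L := this
      exact (neg_mem_iff).1 h2
    have f01 : g 0 1 ∈ L := by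
      have := hr2L' 0
      have h2 : -g 0 1 ∈ L := this
      exact (neg_mem_iff).1 h2
    have f00 : g 0 0 ∈ L := hr2L' 1
    intro a b
    fin_cases a <;> fin_cases b
    · exact f00
    · exact f01
    · exact f10
    · exact f11
  -- the coefficients of `c`
  have hginv : ∀ a b, g⁻¹ a b ∈ L := by
    have hdL : g.det ∈ L := by
      rw [Matrix.det_fin_two]
      exact sub_mem (mul_mem (hgL _ _) (hgL _ _)) (mul_mem (hgL _ _) (hgL _ _))
    intro a b
    rw [Matrix.inv_def, Matrix.adjugate_fin_two, Ring.inverse_eq_inv', Matrix.smul_apply, smul_eq_mul]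
    refine mul_mem (inv_mem hdL) ?_
    fin_cases a <;> fin_cases b
    · exact hgL 1 1
    · exact neg_mem (hgL 0 1)
    · exact neg_mem (hgL 1 0)
    · exact hgL 0 0
  have hcL : ∀ i l, A (D.c i l) ∈ L := by
    intro i l
    have h1 : act g⁻¹ (h i) = fun j => A (D.c i j) := by
      rw [hh]
      show act g⁻¹ (act g fun j => A (D.c i j)) = _
      rw [act_act, Matrix.mul_nonsing_inv _ (isUnit_iff_ne_zero.2 hdet), act_one]
    have h2 := congrFun h1 l
    rw [← h2]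
    exact G1c_act_mem L _ _ hginv (hhL i) l
  have hFL : ∀ x : F, A x ∈ L := by
    intro x
    refine G1c_lift A _ K' ?_ x (hA x)
    intro y hy
    have h1 : Subfield.closure (Set.range φ ∪
      Set.range fun q : Fin (n + 1) × Fin (d + 1 + 1) => D.c q.1 q.2) ≤ L.comap A := by
      rw [Subfield.closure_le]
      rintro z (⟨w, rfl⟩ | ⟨q, rfl⟩)
      · exact hφL w
      · exact hcL q.1 q.2
    exact h1 hy
  intro x
  exact mem_algebraicClosure_iff.1 (G1c_all L hFL hgL x)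

end Pool.Agent.Lib.MP_1e3e9c_agU
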