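import Mathlib
import Pool.Agent.Lib.MP_1e3e9c_agU.Defs3

/-!
# MP_1e3e9c_ag, project U, leaf G1d: the dimension

`Ω = GF F (Fin 2 × Fin 2)`, `trdeg Ω / k = m + 4`. Let `J` be the kernel of `P ↦ P(gt c)` on
`A = k[X]`: `J ⊆ I` (`Gen`), so `dim A/I ≤ dim A/J`, and `A/J ≅ k[gt c] ⊆ Ω`, whose field of fractions
`k(gt c)` has transcendence degree `m + 4` (`Eff`: `Ω` is algebraic over it). The Krull dimension of a
finitely generated domain over a field is (at most) the transcendence degree of its field of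
fractions (Noether normalisation `exists_integral_inj_algHom_of_fg`, the dimension of a polynomial
ring, integral extensions have the same dimension; or see Mathlib's `ringKrullDim`, `trdeg` lemmas).
So `r + 5 ≤ m + 4`.
-/

set_option autoImplicit false

namespace Pool.Agent.Lib.MP_1e3e9c_agU

private theorem G1d_int {R S : Type} [CommRing R] [CommRing S] (g : R →+* S)
    (hg : g.IsIntegral) : ringKrullDim S ≤ ringKrullDim R := by
  let := g.toAlgebra
  refine Order.krullDim_le_of_strictMono (PrimeSpectrum.comap g) ?_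
  intro p q hpq
  have hle : p.asIdeal ≤ q.asIdeal := hpq.le
  obtain ⟨x, hxq, hxp⟩ : ∃ x ∈ q.asIdeal, x ∉ p.asIdeal := SetLike.exists_of_lt hpq
  exact Ideal.comap_lt_comap_of_integral_mem_sdiff hle ⟨hxq, hxp⟩ (hg x)

private theorem G1d_dim {k B : Type} [Field k] [CommRing B] [Nontrivial B] [Algebra k B]
    [Algebra.FiniteType k B] {N : ℕ} (h : Algebra.trdeg k B ≤ (N : Cardinal)) :
    ringKrullDim B ≤ ((N : ℕ) : WithBot ℕ∞) := by
  obtain ⟨s, g, hi, hint⟩ := exists_integral_inj_algHom_of_fg k B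
  have h1 : ringKrullDim B ≤ ringKrullDim (MvPolynomial (Fin s) k) := G1d_int g.toRingHom hint
  rw [MvPolynomial.ringKrullDim_of_isNoetherianRing, ringKrullDim_eq_zero_of_field, zero_add,
    Nat.card_fin] at h1
  have h2 : (s : Cardinal) ≤ Algebra.trdeg k B := by
    have h3 : AlgebraicIndependent k (fun i => g (MvPolynomial.X i)) := by
      have h4 : MvPolynomial.aeval (fun i => g (MvPolynomial.X i)) = g := by
        apply MvPolynomial.algHom_ext
        intro i
        simp
      rw [algebraicIndependent_iff_injective_aeval, h4]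
      exact hi
    have h5 := h3.cardinalMk_le_trdeg
    rwa [Cardinal.mk_fin] at h5
  have h4 : s ≤ N := by exact_mod_cast h2.trans h
  exact h1.trans (by exact_mod_cast h4)

theorem le_trdeg {k F : Type} [Field k] [Field F] {n D r m : ℕ}
    {I : Ideal (MvPolynomial (Fin (n + 1) × Fin (D + 1)) k)} {φ : k →+* F}
    (c : Fin (n + 1) → Fin (D + 1) → F) (hF : FF φ.fieldRange m) (hG : Gen I φ c) (hE : Eff φ c)
    (hdim : ((r + 5 : ℕ) : WithBot ℕ∞) ≤
      ringKrullDim (MvPolynomial (Fin (n + 1) × Fin (D + 1)) k ⧸ I)) : r + 1 ≤ m := by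
  -- the tower
  let iF : Algebra k F := φ.toAlgebra
  have eO : algebraMap k (GF F (Fin 2 × Fin 2)) =
      (algebraMap F (GF F (Fin 2 × Fin 2))).comp φ :=
    IsScalarTower.algebraMap_eq k F (GF F (Fin 2 × Fin 2))
  -- transcendence degrees
  have t1 : Algebra.trdeg k F = m := by
    let iK : Algebra k φ.fieldRange := φ.rangeRestrictField.toAlgebra
    have : IsScalarTower k φ.fieldRange F := IsScalarTower.of_algebraMap_eq' rfl
    have h1 := _root_.trdeg_add_eq k φ.fieldRange (A := F)
    have h2 : Algebra.trdeg k φ.fieldRange = 0 := by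
      have : Algebra.IsAlgebraic k φ.fieldRange := by
        refine ⟨fun x => ?_⟩
        obtain ⟨y, hy⟩ := φ.rangeRestrictField_bijective.2 x
        rw [← hy]
        exact isAlgebraic_algebraMap y
      exact _root_.trdeg_eq_zero
    rw [h2, zero_add, hF.2] at h1
    exact h1.symm
  have t2 : Algebra.trdeg F (GF F (Fin 2 × Fin 2)) = 4 := by
    have h1 := _root_.trdeg_add_eq F (MvPolynomial (Fin 2 × Fin 2) F)
      (A := GF F (Fin 2 × Fin 2))
    have h2 : Algebra.trdeg F (MvPolynomial (Fin 2 × Fin 2) F) = 4 := by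
      rw [MvPolynomial.trdeg_of_isDomain]
      simp
    have h3 : Algebra.trdeg (MvPolynomial (Fin 2 × Fin 2) F) (GF F (Fin 2 × Fin 2)) = 0 := by
      have : Algebra.IsAlgebraic (MvPolynomial (Fin 2 × Fin 2) F) (GF F (Fin 2 × Fin 2)) :=
        IsLocalization.isAlgebraic _ (nonZeroDivisors (MvPolynomial (Fin 2 × Fin 2) F))
      exact _root_.trdeg_eq_zero
    rw [h2, h3, add_zero] at h1
    exact h1.symm
  have t3 : Algebra.trdeg k (GF F (Fin 2 × Fin 2)) = ((m + 4 : ℕ) : Cardinal) := by
    have h1 := _root_.trdeg_add_eq k F (A := GF F (Fin 2 × Fin 2))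
    rw [t1, t2] at h1
    rw [← h1]
    push_cast
    rfl
  -- evaluation
  let f : MvPolynomial (Fin (n + 1) × Fin (D + 1)) k →ₐ[k] GF F (Fin 2 × Fin 2) :=
    MvPolynomial.aeval (gt c)
  have hJ : RingHom.ker f ≤ I := by
    intro P hP
    apply hG P
    have h1 : f P = 0 := hP
    rw [MvPolynomial.aeval_def, eO] at h1
    exact h1
  have hd1 : ringKrullDim (MvPolynomial (Fin (n + 1) × Fin (D + 1)) k ⧸ I) ≤
      ringKrullDim (MvPolynomial (Fin (n + 1) × Fin (D + 1)) k ⧸ RingHom.ker f) :=
    ringKrullDim_le_of_surjective (Ideal.Quotient.factor hJ) (Ideal.Quotient.factor_surjective hJ)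
  have : Nontrivial (MvPolynomial (Fin (n + 1) × Fin (D + 1)) k ⧸ RingHom.ker f) :=
    Ideal.Quotient.nontrivial_iff.2 (RingHom.ker_ne_top _)
  have hd2 : Algebra.trdeg k (MvPolynomial (Fin (n + 1) × Fin (D + 1)) k ⧸ RingHom.ker f) ≤
      ((m + 4 : ℕ) : Cardinal) := by
    rw [← t3]
    exact _root_.trdeg_le_of_injective (Ideal.kerLiftAlg f) (Ideal.kerLiftAlg_injective f)
  have hd3 := G1d_dim hd2
  have h := hdim.trans (hd1.trans hd3)
  have h' : r + 5 ≤ m + 4 := by exact_mod_cast h
  omega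

end Pool.Agent.Lib.MP_1e3e9c_agU
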