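import Mathlib
import Pool.Agent.Lib.MP_1e3e9c_agU.Vl
import Pool.Agent.Lib.MP_1e3e9c_agU.FmB

/-!
# MP_1e3e9c_ag, project U, leaf E1: API of data

`zz` repeats the coordinates of `pt` (every `i` is `σ 0` for some `σ`), so `al`, `Con`, `ht` are the
same. `al_sg`: as `al_segre` of leaf B3 (import it if you like). `dd_up`, `dd_triv`: `al`, `ord` of
elements of `F` for a valuation ring `V` of `Ω`: by hypothesis `ram`, or all `0`.
-/

set_option autoImplicit false

namespace Pool.Agent.Lib.MP_1e3e9c_agU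

open IsLocalRing Pool.Agent.Lib.MP_b197b4_ntK

section E1aux

variable {F : Type} [Field F]

private theorem E1_ord_prod {V : ValuationSubring F} (hV : IsDiscreteValuationRing V) {σ : Type}
    (s : Finset σ) (f : σ → F) (hf : ∀ l ∈ s, f l ≠ 0) : ord V (∏ l ∈ s, f l) = ∑ l ∈ s, ord V (f l) := by
  classical
  induction s using Finset.induction_on with
  | empty => rw [Finset.prod_empty, Finset.sum_empty, ord_one V hV]
  | insert a s ha ih =>
    rw [Finset.prod_insert ha, Finset.sum_insert ha, ord_mul hV (hf a (Finset.mem_insert_self a s))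
      (Finset.prod_ne_zero_iff.2 fun l hl => hf l (Finset.mem_insert_of_mem hl)),
      ih fun l hl => hf l (Finset.mem_insert_of_mem hl)]

private theorem E1_al_up {Ω : Type} [Field Ω] [Algebra F Ω] {V : ValuationSubring Ω}
    {v : ValuationSubring F} (h : ∀ x : F, x ≠ 0 → ord V (algebraMap F Ω x) = ord v x)
    {ι : Type} [Fintype ι] (z : ι → F) : al V (up Ω z) = al v z := by
  by_cases hz : z = 0
  · have h1 : up Ω z = 0 := by
      funext j
      rw [hz]
      exact map_zero _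
    rw [h1, hz, al_zero, al_zero]
  · have h1 : up Ω z ≠ 0 := by
      intro h2
      apply hz
      funext j
      exact (map_eq_zero (algebraMap F Ω)).1 (congrFun h2 j)
    apply le_antisymm
    · refine le_al hz fun j hj => ?_
      rw [← h _ hj]
      exact al_le (z := up Ω z) (j := j) fun h3 => hj ((map_eq_zero (algebraMap F Ω)).1 h3)
    · refine le_al h1 fun j hj => ?_
      have hj' : z j ≠ 0 := by
        intro h3
        apply hj
        show algebraMap F Ω (z j) = 0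
        rw [h3, map_zero]
      show al v z ≤ ord V (algebraMap F Ω (z j))
      rw [h _ hj']
      exact al_le hj'

private theorem E1_al_triv {Ω : Type} [Field Ω] [Algebra F Ω] {V : ValuationSubring Ω}
    (h : ∀ x : F, ord V (algebraMap F Ω x) = 0) {ι : Type} [Fintype ι] (z : ι → F) :
    al V (up Ω z) = 0 := by
  by_cases hz : up Ω z = 0
  · rw [hz, al_zero]
  · obtain ⟨j, _, h2⟩ := exists_al (V := V) hz
    rw [← h2]
    exact h (z j)

private theorem E1_wd_map {Ω : Type} [Field Ω] [Algebra F Ω] (q q' : Fin 2 → F) :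
    wd (fun a => algebraMap F Ω (q a)) (fun a => algebraMap F Ω (q' a)) =
      algebraMap F Ω (wd q q') := by
  simp only [wd, map_sub, map_mul]

end E1aux

variable {k F : Type} [Field k] [Field F] {n d : ℕ}
  {I : Ideal (MvPolynomial (Fin (n + 1) × Fin (d + 1 + 1)) k)} {φ : k →+* F} (D : Dat I φ)

theorem pt_ne {q : Fin 2 → F} (hq : q ≠ 0) : D.pt q ≠ 0 := by
  intro h
  obtain ⟨i, hi⟩ := D.bpf.ev_ne hq
  exact hi (congrFun h i)

theorem zz_ne {q : Fin 2 → F} (hq : q ≠ 0) : D.zz q ≠ 0 := by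
  intro h
  obtain ⟨i, hi⟩ := D.bpf.ev_ne hq
  exact hi (congrFun h fun _ => i)

theorem sg_ne : D.sg ≠ 0 := by
  have h : ∀ l, ∃ i, D.pt (D.p l) i ≠ 0 := fun l => D.bpf.ev_ne (D.pne l)
  choose f hf using h
  intro h0
  have h1 : ∏ l, D.pt (D.p l) (f l) = 0 := congrFun h0 f
  exact Finset.prod_ne_zero_iff.2 (fun l _ => hf l) h1

theorem al_zz (V : ValuationSubring F) (q : Fin 2 → F) : al V (D.zz q) = al V (D.pt q) := by
  by_cases hz : D.pt q = 0
  · have h1 : D.zz q = 0 := by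
      funext σ
      exact congrFun hz (σ 0)
    rw [h1, hz, al_zero, al_zero]
  · have h1 : D.zz q ≠ 0 := by
      intro h2
      apply hz
      funext i
      exact congrFun h2 fun _ => i
    apply le_antisymm
    · refine le_al hz fun i hi => ?_
      exact al_le (z := D.zz q) (j := fun _ => i) hi
    · refine le_al h1 fun σ hσ => ?_
      exact al_le (z := D.pt q) (j := σ 0) hσ

theorem al_sg {V : ValuationSubring F} (hV : IsDiscreteValuationRing V) :
    al V D.sg = ∑ l, al V (D.pt (D.p l)) := by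
  have hne : ∀ l, D.pt (D.p l) ≠ 0 := fun l => pt_ne D (D.pne l)
  have h : ∀ l, ∃ i, D.pt (D.p l) i ≠ 0 ∧ ord V (D.pt (D.p l) i) = al V (D.pt (D.p l)) :=
    fun l => exists_al (hne l)
  choose f hf hf' using h
  apply le_antisymm
  · have h1 : D.sg f ≠ 0 := Finset.prod_ne_zero_iff.2 fun l _ => hf l
    have h2 : al V D.sg ≤ ord V (D.sg f) := al_le h1
    have h3 : ord V (D.sg f) = ∑ l, ord V (D.pt (D.p l) (f l)) :=
      E1_ord_prod hV Finset.univ _ fun l _ => hf l
    rw [h3, Finset.sum_congr rfl fun l _ => hf' l] at h2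
    exact h2
  · refine le_al (sg_ne D) fun σ hσ => ?_
    have h1 : ∀ l ∈ Finset.univ, D.pt (D.p l) (σ l) ≠ 0 := Finset.prod_ne_zero_iff.1 hσ
    have h3 : ord V (D.sg σ) = ∑ l, ord V (D.pt (D.p l) (σ l)) :=
      E1_ord_prod hV Finset.univ _ h1
    rw [h3]
    exact Finset.sum_le_sum fun l hl => al_le (h1 l hl)

theorem up_pt (Ω : Type) [Field Ω] [Algebra F Ω] (q : Fin 2 → F) :
    (D.up Ω).pt (fun a => algebraMap F Ω (q a)) = up Ω (D.pt q) := by
  funext i
  exact (ev_map (algebraMap F Ω) (D.c i) q).symm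

theorem up_zz (Ω : Type) [Field Ω] [Algebra F Ω] (q : Fin 2 → F) :
    (D.up Ω).zz (fun a => algebraMap F Ω (q a)) = up Ω (D.zz q) := by
  funext σ
  exact congrFun (up_pt D Ω q) (σ 0)

theorem up_sg (Ω : Type) [Field Ω] [Algebra F Ω] : (D.up Ω).sg = up Ω D.sg := by
  funext σ
  show ∏ l, (D.up Ω).pt (fun a => algebraMap F Ω (D.p l a)) (σ l) =
    algebraMap F Ω (∏ l, D.pt (D.p l) (σ l))
  rw [map_prod]
  refine Finset.prod_congr rfl fun l _ => ?_
  exact congrFun (up_pt D Ω (D.p l)) (σ l)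

theorem pr_zz_of_pt {q q' : Fin 2 → F} (h : Pr (D.pt q) (D.pt q')) : Pr (D.zz q) (D.zz q') := by
  obtain ⟨a, ha, h1⟩ := h
  exact ⟨a, ha, fun σ => h1 (σ 0)⟩

theorem pr_pt_of_wd {q q' : Fin 2 → F} (hq : q ≠ 0) (hq' : q' ≠ 0) (h : wd q q' = 0) :
    Pr (D.pt q) (D.pt q') := by
  obtain ⟨a, ha⟩ := (wd_eq_zero_iff hq q').1 h
  have ha0 : a ≠ 0 := by
    intro h0
    apply hq'
    funext i
    rw [ha i, h0, zero_mul]
    rfl
  refine ⟨a ^ (d + 1), pow_ne_zero _ ha0, fun i => ?_⟩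
  have h1 : q' = fun i => a * q i := funext ha
  show ev (D.c i) q' = a ^ (d + 1) * ev (D.c i) q
  rw [h1]
  exact ev_scale a (D.c i) q

/-- `rd` of `zz` and of `pt`. -/
theorem rd_zz {V : ValuationSubring F} (hV : IsDiscreteValuationRing V) {q : Fin 2 → F}
    (hq : q ≠ 0) : Pr (fun σ : Fin (d + 1) → Fin (n + 1) => rd V (D.pt q) (σ 0))
      (rd V (D.zz q)) := by
  obtain ⟨h0, a, ha, _, h2, h3⟩ := rd_spec hV (pt_ne D hq)
  obtain ⟨j, hj⟩ : ∃ j, rd V (D.pt q) j ≠ 0 := by
    by_contra hcon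
    apply h0
    funext j
    by_contra h4
    exact hcon ⟨j, h4⟩
  have h4 : Pr (rd V (D.zz q)) (fun σ => res V (a * D.zz q σ)) :=
    rd_unique hV ha (w := fun σ => a * D.zz q σ) (fun σ => rfl) (fun σ => h2 (σ 0))
      ⟨fun _ => j, by
        have h5 := h3 j
        rw [h5] at hj
        exact hj⟩
  have h5 : (fun σ : Fin (d + 1) → Fin (n + 1) => rd V (D.pt q) (σ 0)) =
      fun σ => res V (a * D.zz q σ) := by
    funext σ
    exact h3 (σ 0)
  rw [h5]
  exact Pr.symm h4

theorem pr_rd_zz {V : ValuationSubring F} (hV : IsDiscreteValuationRing V) {q q' : Fin 2 → F}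
    (hq : q ≠ 0) (hq' : q' ≠ 0) (h : Pr (rd V (D.pt q)) (rd V (D.pt q'))) :
    Pr (rd V (D.zz q)) (rd V (D.zz q')) := by
  obtain ⟨a, ha, h1⟩ := h
  have h2 : Pr (fun σ : Fin (d + 1) → Fin (n + 1) => rd V (D.pt q) (σ 0))
      (fun σ : Fin (d + 1) → Fin (n + 1) => rd V (D.pt q') (σ 0)) := ⟨a, ha, fun σ => h1 (σ 0)⟩
  exact Pr.trans (Pr.symm (rd_zz D hV hq)) (Pr.trans h2 (rd_zz D hV hq'))

theorem con_zz {K : Subfield F} (q : Fin 2 → F) : Con K (D.zz q) ↔ Con K (D.pt q) := by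
  constructor
  · intro h i j hj
    exact h (fun _ => i) (fun _ => j) hj
  · intro h σ τ hτ
    exact h (σ 0) (τ 0) hτ

theorem ht_zz (K : Subfield F) (q : Fin 2 → F) : ht K (D.zz q) = ht K (D.pt q) := by
  unfold ht
  simp only [al_zz]

theorem dd_up {Ω : Type} [Field Ω] [Algebra F Ω] {V : ValuationSubring Ω}
    {v : ValuationSubring F}
    (h : ∀ x : F, x ≠ 0 → ord V (algebraMap F Ω x) = ord v x) {q q' : Fin 2 → F}
    (hw : wd q q' ≠ 0) :
    (D.up Ω).dd V (fun a => algebraMap F Ω (q a)) (fun a => algebraMap F Ω (q' a)) =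
      D.dd v q q' := by
  have h1 : (D.up Ω).nu V = D.nu v := by
    show ((d : ℤ) + 1) * ord V (algebraMap F Ω D.e) +
      ∑ l, al V ((D.up Ω).pt (fun a => algebraMap F Ω (D.p l a))) = _
    rw [h _ D.ene]
    unfold Dat.nu
    congr 1
    refine Finset.sum_congr rfl fun l _ => ?_
    rw [up_pt, E1_al_up h]
  unfold Dat.dd
  rw [h1, E1_wd_map, h _ hw, up_pt, up_pt, E1_al_up h, E1_al_up h]

theorem dd_triv {Ω : Type} [Field Ω] [Algebra F Ω] {V : ValuationSubring Ω}
    (h : ∀ x : F, ord V (algebraMap F Ω x) = 0) {q q' : Fin 2 → F} (hw : wd q q' ≠ 0) :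
    (D.up Ω).dd V (fun a => algebraMap F Ω (q a)) (fun a => algebraMap F Ω (q' a)) = 0 := by
  have h1 : (D.up Ω).nu V = 0 := by
    show ((d : ℤ) + 1) * ord V (algebraMap F Ω D.e) +
      ∑ l, al V ((D.up Ω).pt (fun a => algebraMap F Ω (D.p l a))) = _
    rw [h, mul_zero, zero_add]
    refine Finset.sum_eq_zero fun l _ => ?_
    rw [up_pt, E1_al_triv h]
  unfold Dat.dd
  rw [h1, E1_wd_map, h, up_pt, up_pt, E1_al_triv h, E1_al_triv h]
  ring

end Pool.Agent.Lib.MP_1e3e9c_agU
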