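import Mathlib
import Pool.Agent.Lib.MP_1e3e9c_agU.A7
import Pool.Agent.Lib.MP_1e3e9c_agU.A8
import Pool.Agent.Lib.MP_1e3e9c_agU.B3
import Pool.Agent.Lib.MP_1e3e9c_agU.E1

/-!
# MP_1e3e9c_ag, project U, leaf E2: contact numbers on a curve

`F/K` of one variable. Sum `dd V q q'` over the places with weights `deg V`: the sums of
`ord V (wd q q')` and `ord V e` vanish (`prod_formula`), those of `al V` are `-ht` (`al_fin`).
`form_sum`: sum `nu_le`. `two_const`: `0 ≤ ∑ deg V dd V = 0 + 0 - ∑ ht (p l)` and all `ht ≥ 0`.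
-/

set_option autoImplicit false

namespace Pool.Agent.Lib.MP_1e3e9c_agU

open IsLocalRing Pool.Agent.Lib.MP_b197b4_ntK

variable {k F : Type} [Field k] [CharZero k] [Field F] [CharZero F] {n d r : ℕ}
  {I : Ideal (MvPolynomial (Fin (n + 1) × Fin (d + 1 + 1)) k)} {φ : k →+* F} {K : Subfield F}

omit [CharZero k] in
/-- The finite set of places where one of the local terms is not zero. -/
private theorem E2_T (hF : FF K 1) (D : Dat I φ) (N : ℕ) (q : Fin N → Fin 2 → F) {w : F}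
    (hw : w ≠ 0) :
    {V : ValuationSubring F | Dv K V ∧ (ord V w ≠ 0 ∨ ord V D.e ≠ 0 ∨
      (∃ l, al V (D.pt (D.p l)) ≠ 0) ∨ (∃ l, al V (D.pt (q l)) ≠ 0))}.Finite := by
  have h1 : {V : ValuationSubring F | Dv K V ∧ (ord V w ≠ 0 ∨ ord V D.e ≠ 0 ∨
      (∃ l, al V (D.pt (D.p l)) ≠ 0) ∨ (∃ l, al V (D.pt (q l)) ≠ 0))} ⊆
      {V | Dv K V ∧ ord V w ≠ 0} ∪ ({V | Dv K V ∧ ord V D.e ≠ 0} ∪
        ((⋃ l, {V | Dv K V ∧ al V (D.pt (D.p l)) ≠ 0}) ∪
          (⋃ l, {V | Dv K V ∧ al V (D.pt (q l)) ≠ 0}))) := by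
    rintro V ⟨hV, h | h | ⟨l, h⟩ | ⟨l, h⟩⟩
    · exact Or.inl ⟨hV, h⟩
    · exact Or.inr (Or.inl ⟨hV, h⟩)
    · exact Or.inr (Or.inr (Or.inl (Set.mem_iUnion.2 ⟨l, hV, h⟩)))
    · exact Or.inr (Or.inr (Or.inr (Set.mem_iUnion.2 ⟨l, hV, h⟩)))
  refine Set.Finite.subset ((ord_fin hF hw).union ((ord_fin hF D.ene).union
    ((Set.finite_iUnion fun l => al_fin hF _).union (Set.finite_iUnion fun l => al_fin hF _)))) h1

omit [CharZero F] in
/-- A sum over the places as a finite sum. -/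
private theorem E2_sum {T : Finset (ValuationSubring F)} (hT : ∀ V ∈ T, Dv K V)
    (f : ValuationSubring F → ℤ) (h : ∀ V, Dv K V → f V ≠ 0 → V ∈ T) :
    ∑ᶠ (V : ValuationSubring F) (_ : Dv K V), (deg K V : ℤ) * f V =
      ∑ V ∈ T, (deg K V : ℤ) * f V := by
  refine finsum_mem_eq_sum_of_inter_support_eq (s := {V | Dv K V})
    (fun V => (deg K V : ℤ) * f V) ?_
  ext V
  constructor
  · rintro ⟨h1, h2⟩
    refine ⟨h V h1 ?_, h2⟩
    intro h3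
    apply h2
    show (deg K V : ℤ) * f V = 0
    rw [h3, mul_zero]
  · rintro ⟨h1, h2⟩
    exact ⟨hT V h1, h2⟩

theorem dd_fin (hF : FF K 1) (D : Dat I φ) {q q' : Fin 2 → F} (h : wd q q' ≠ 0) :
    {V : ValuationSubring F | Dv K V ∧ D.dd V q q' ≠ 0}.Finite := by
  refine (E2_T hF D 2 ![q, q'] h).subset ?_
  rintro V ⟨hV, hd⟩
  refine ⟨hV, ?_⟩
  by_contra hc
  simp only [not_or, not_exists, not_not] at hc
  obtain ⟨h1, h2, h3, h4⟩ := hc
  apply hd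
  have h5 : al V (D.pt q) = 0 := h4 0
  have h6 : al V (D.pt q') = 0 := h4 1
  unfold Dat.dd Dat.nu
  rw [h1, h2, h5, h6, Finset.sum_eq_zero (fun l _ => h3 l)]
  ring

theorem dd_sum (hF : FF K 1) (D : Dat I φ) {q q' : Fin 2 → F} (h : wd q q' ≠ 0) :
    ∑ᶠ (V : ValuationSubring F) (_ : Dv K V), (deg K V : ℤ) * D.dd V q q' =
      ((d : ℤ) + 1) * (ht K (D.pt q) + ht K (D.pt q')) - ∑ l, ht K (D.pt (D.p l)) := by
  have hfin := E2_T hF D 2 ![q, q'] h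
  set T := hfin.toFinset with hTdef
  have hT : ∀ V ∈ T, Dv K V := fun V hV => ((Set.Finite.mem_toFinset hfin).1 hV).1
  have hin : ∀ V, Dv K V → (ord V (wd q q') ≠ 0 ∨ ord V D.e ≠ 0 ∨
      (∃ l, al V (D.pt (D.p l)) ≠ 0) ∨ (∃ l, al V (D.pt ((![q, q'] : Fin 2 → Fin 2 → F) l)) ≠ 0)) →
      V ∈ T := fun V h1 h2 => (Set.Finite.mem_toFinset hfin).2 ⟨h1, h2⟩
  have e1 : ∑ V ∈ T, (deg K V : ℤ) * ord V (wd q q') = 0 := by
    rw [← E2_sum hT (fun V => ord V (wd q q')) (fun V h1 h2 => hin V h1 (Or.inl h2))]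
    exact prod_formula hF h
  have e2 : ∑ V ∈ T, (deg K V : ℤ) * ord V D.e = 0 := by
    rw [← E2_sum hT (fun V => ord V D.e) (fun V h1 h2 => hin V h1 (Or.inr (Or.inl h2)))]
    exact prod_formula hF D.ene
  have e3 : ∀ l, ∑ V ∈ T, (deg K V : ℤ) * al V (D.pt (D.p l)) = -ht K (D.pt (D.p l)) := by
    intro l
    rw [← E2_sum hT (fun V => al V (D.pt (D.p l)))
      (fun V h1 h2 => hin V h1 (Or.inr (Or.inr (Or.inl ⟨l, h2⟩))))]
    unfold ht
    rw [neg_neg]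
  have e4 : ∑ V ∈ T, (deg K V : ℤ) * al V (D.pt q) = -ht K (D.pt q) := by
    rw [← E2_sum hT (fun V => al V (D.pt q))
      (fun V h1 h2 => hin V h1 (Or.inr (Or.inr (Or.inr ⟨0, h2⟩))))]
    unfold ht
    rw [neg_neg]
  have e5 : ∑ V ∈ T, (deg K V : ℤ) * al V (D.pt q') = -ht K (D.pt q') := by
    rw [← E2_sum hT (fun V => al V (D.pt q'))
      (fun V h1 h2 => hin V h1 (Or.inr (Or.inr (Or.inr ⟨1, h2⟩))))]
    unfold ht
    rw [neg_neg]
  have e0 : ∑ᶠ (V : ValuationSubring F) (_ : Dv K V), (deg K V : ℤ) * D.dd V q q' =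
      ∑ V ∈ T, (deg K V : ℤ) * D.dd V q q' := by
    refine E2_sum hT (fun V => D.dd V q q') (fun V h1 h2 => hin V h1 ?_)
    by_contra hc
    simp only [not_or, not_exists, not_not] at hc
    obtain ⟨h3, h4, h5, h6⟩ := hc
    apply h2
    have h7 : al V (D.pt q) = 0 := h6 0
    have h8 : al V (D.pt q') = 0 := h6 1
    show D.dd V q q' = 0
    unfold Dat.dd Dat.nu
    rw [h3, h4, h7, h8, Finset.sum_eq_zero (fun l _ => h5 l)]
    ring
  rw [e0]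
  have e6 : ∑ V ∈ T, (deg K V : ℤ) * D.dd V q q' =
      ((d : ℤ) + 1) ^ 2 * ∑ V ∈ T, (deg K V : ℤ) * ord V (wd q q') -
        ((d : ℤ) + 1) * (∑ V ∈ T, (deg K V : ℤ) * al V (D.pt q) +
          ∑ V ∈ T, (deg K V : ℤ) * al V (D.pt q')) +
        (((d : ℤ) + 1) * ∑ V ∈ T, (deg K V : ℤ) * ord V D.e +
          ∑ l, ∑ V ∈ T, (deg K V : ℤ) * al V (D.pt (D.p l))) := by
    rw [Finset.sum_comm (s := Finset.univ) (t := T)]
    rw [Finset.mul_sum, Finset.mul_sum, ← Finset.sum_add_distrib, Finset.mul_sum,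
      ← Finset.sum_add_distrib, ← Finset.sum_sub_distrib, ← Finset.sum_add_distrib]
    refine Finset.sum_congr rfl (fun V _ => ?_)
    unfold Dat.dd Dat.nu
    rw [← Finset.mul_sum]
    ring
  rw [e6, e1, e2, e4, e5, Finset.sum_congr rfl (fun l _ => e3 l), Finset.sum_neg_distrib]
  ring

theorem form_sum (hI : Fam r I) (hφ : ∀ a, φ a ∈ K) (hF : FF K 1) (D : Dat I φ) (s : ℕ)
    (G : MvPolynomial (Fin (n + 1)) F) (hG : G.IsHomogeneous s) (hGK : ∀ t, G.coeff t ∈ K)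
    (b : F) (hb : b ≠ 0) (q : Fin ((d + 1) * s) → Fin 2 → F) (hq : ∀ l, q l ≠ 0)
    (hf : ∀ (M : Type) [Field M] (ψ : F →+* M) (x : Fin 2 → M),
      MvPolynomial.eval₂ ψ (fun i => ev (fun j => ψ (D.c i j)) x) G =
        ψ b * ∏ l, wd (fun a => ψ (q l a)) x) :
    ∑ l, ht K (D.pt (q l)) ≤ (s : ℤ) * ∑ l, ht K (D.pt (D.p l)) := by
  have hfin := E2_T hF D ((d + 1) * s) q hb
  set T := hfin.toFinset with hTdef
  have hT : ∀ V ∈ T, Dv K V := fun V hV => ((Set.Finite.mem_toFinset hfin).1 hV).1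
  have hin : ∀ V, Dv K V → (ord V b ≠ 0 ∨ ord V D.e ≠ 0 ∨
      (∃ l, al V (D.pt (D.p l)) ≠ 0) ∨ (∃ l, al V (D.pt (q l)) ≠ 0)) →
      V ∈ T := fun V h1 h2 => (Set.Finite.mem_toFinset hfin).2 ⟨h1, h2⟩
  have e1 : ∑ V ∈ T, (deg K V : ℤ) * ord V b = 0 := by
    rw [← E2_sum hT (fun V => ord V b) (fun V h1 h2 => hin V h1 (Or.inl h2))]
    exact prod_formula hF hb
  have e2 : ∑ V ∈ T, (deg K V : ℤ) * ord V D.e = 0 := by
    rw [← E2_sum hT (fun V => ord V D.e) (fun V h1 h2 => hin V h1 (Or.inr (Or.inl h2)))]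
    exact prod_formula hF D.ene
  have e3 : ∀ l, ∑ V ∈ T, (deg K V : ℤ) * al V (D.pt (D.p l)) = -ht K (D.pt (D.p l)) := by
    intro l
    rw [← E2_sum hT (fun V => al V (D.pt (D.p l)))
      (fun V h1 h2 => hin V h1 (Or.inr (Or.inr (Or.inl ⟨l, h2⟩))))]
    unfold ht
    rw [neg_neg]
  have e4 : ∀ l, ∑ V ∈ T, (deg K V : ℤ) * al V (D.pt (q l)) = -ht K (D.pt (q l)) := by
    intro l
    rw [← E2_sum hT (fun V => al V (D.pt (q l)))
      (fun V h1 h2 => hin V h1 (Or.inr (Or.inr (Or.inr ⟨l, h2⟩))))]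
    unfold ht
    rw [neg_neg]
  have e5 : ∑ V ∈ T, (deg K V : ℤ) * ((s : ℤ) * D.nu V) ≤
      ∑ V ∈ T, (deg K V : ℤ) * (((d : ℤ) + 1) * ord V b + ∑ l, al V (D.pt (q l))) := by
    refine Finset.sum_le_sum (fun V hV => ?_)
    have hD := hT V hV
    exact mul_le_mul_of_nonneg_left
      (nu_le hI D hD.1 (fun a => hD.2 _ (hφ a)) s G hG (fun t => hD.2 _ (hGK t)) b hb q hq hf)
      (Int.natCast_nonneg _)
  have e6 : ∑ V ∈ T, (deg K V : ℤ) * ((s : ℤ) * D.nu V) =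
      (s : ℤ) * (((d : ℤ) + 1) * ∑ V ∈ T, (deg K V : ℤ) * ord V D.e +
          ∑ l, ∑ V ∈ T, (deg K V : ℤ) * al V (D.pt (D.p l))) := by
    rw [Finset.sum_comm (s := Finset.univ) (t := T), Finset.mul_sum, ← Finset.sum_add_distrib,
      Finset.mul_sum]
    refine Finset.sum_congr rfl (fun V _ => ?_)
    unfold Dat.nu
    rw [← Finset.mul_sum]
    ring
  have e7 : ∑ V ∈ T, (deg K V : ℤ) * (((d : ℤ) + 1) * ord V b + ∑ l, al V (D.pt (q l))) =
      ((d : ℤ) + 1) * ∑ V ∈ T, (deg K V : ℤ) * ord V b +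
          ∑ l, ∑ V ∈ T, (deg K V : ℤ) * al V (D.pt (q l)) := by
    rw [Finset.sum_comm (s := Finset.univ) (t := T), Finset.mul_sum, ← Finset.sum_add_distrib]
    refine Finset.sum_congr rfl (fun V _ => ?_)
    rw [← Finset.mul_sum]
    ring
  rw [e6, e7, e1, e2, Finset.sum_congr rfl (fun l _ => e3 l),
    Finset.sum_congr rfl (fun l _ => e4 l), Finset.sum_neg_distrib, Finset.sum_neg_distrib] at e5
  linarith

theorem two_const (hI : Fam r I) (hφ : ∀ a, φ a ∈ K) (hF : FF K 1) (D : Dat I φ)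
    {q q' : Fin 2 → F} (h : wd q q' ≠ 0) (hc : Con K (D.pt q)) (hc' : Con K (D.pt q')) (l) :
    ht K (D.pt (D.p l)) = 0 := by
  have hq : q ≠ 0 := by
    rintro rfl
    apply h
    unfold wd
    simp
  have hq' : q' ≠ 0 := by
    rintro rfl
    apply h
    unfold wd
    simp
  have h1 := (ht_eq_zero_iff hF (pt_ne D hq)).2 hc
  have h2 := (ht_eq_zero_iff hF (pt_ne D hq')).2 hc'
  have h3 := dd_sum hF D h
  rw [h1, h2, add_zero, mul_zero, zero_sub] at h3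
  have h4 : 0 ≤ ∑ᶠ (V : ValuationSubring F) (_ : Dv K V), (deg K V : ℤ) * D.dd V q q' := by
    refine finsum_nonneg (fun V => finsum_nonneg (fun hV => ?_))
    exact mul_nonneg (Int.natCast_nonneg _) (dd_nonneg hI D hV.1 (fun a => hV.2 _ (hφ a)) h)
  rw [h3] at h4
  have h5 : ∀ l ∈ (Finset.univ : Finset (Fin (d + 1))), 0 ≤ ht K (D.pt (D.p l)) :=
    fun l _ => ht_nonneg hF (pt_ne D (D.pne l))
  have h6 : ∑ l, ht K (D.pt (D.p l)) = 0 := le_antisymm (by linarith) (Finset.sum_nonneg h5)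
  exact (Finset.sum_eq_zero_iff_of_nonneg h5).1 h6 l (Finset.mem_univ l)

end Pool.Agent.Lib.MP_1e3e9c_agU
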