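import Mathlib
import Pool.Agent.Lib.MP_1e3e9c_agU.A6
import Pool.Agent.Lib.MP_1e3e9c_agU.A4

/-!
# MP_1e3e9c_ag, project U, leaf Tr: translates of a datum; integrality

`exists_tr`: `mem` by `hI.act`, `hI.smul`; `bpf` by `BPF.act`, `BPF.smul`; `fac`: `ev_act`, and
`wd p (g x) = wd (adj(g) p) x`. `pt_tr`: `ev_act`, `ev_smul`. `dd_tr`: `D'.pt (D'.p l)
= μ (det g)^(d+1) D.pt (D.p l)` (`g adj(g) = det g`, `ev_scale`), so
`nu' = nu + 2 (d+1) ord μ + (d+1)² ord (det g)`, `al (D'.pt q) = ord μ + al (D.pt (g q))`,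
`wd (g q) (g q') = det g wd q q'` (`wd_mulVec`).
`int_of_dd`: a good model `M` of `D.c` at `V` (`exists_GM`), `a`, `W`, `g`, `m`; `e₁ = (1,0)`,
`e₂ = (0,1)`, `e₃ = (1,1)` over `M.E`: `e_i = l_i g q_i` (`exists_prim2`). By `al_pt`, `al_abv`, `nu_eq`,
`wd_prim`: `a dd V e_i e_j = (d+1)² ord W (wd q_i q_j)`, so the `wd q_i q_j` are units of `W`.
`e₃ = e₁ + e₂`: `l₃ q₃ = l₁ q₁ + l₂ q₂`; `wd` with `q₁`, `q₂`: `ord l₁ = ord l₂ = ord l₃`. So
`g⁻¹ = l₁ u`, `u` = the matrix with columns `q₁`, `(l₂/l₁) q₂`: entries in `W`. The tuple is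
`c = m⁻¹ act g⁻¹ (m act g c) = (l₁^(d+1) / m) act u c'''`, `c''' = m act g c` with coefficients in `W`,
and `0 = a al V (pt e₁) = (d+1) ord l₁ - ord m`. So `c` has coefficients in `W` (`act_mem`), and
`W ∩ F = V` (`M.abv.com`).
-/

set_option autoImplicit false

namespace Pool.Agent.Lib.MP_1e3e9c_agU

open IsLocalRing Pool.Agent.Lib.MP_b197b4_ntK

variable {k F : Type} [Field k] [CharZero k] [Field F] {n d r : ℕ}
  {I : Ideal (MvPolynomial (Fin (n + 1) × Fin (d + 1 + 1)) k)} {φ : k →+* F}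

private theorem Tr_wd {L : Type} [Field L] (g : Matrix (Fin 2) (Fin 2) L) (p x : Fin 2 → L) :
    wd p (g.mulVec x) = wd (g.adjugate.mulVec p) x := by
  simp only [wd, Matrix.mulVec, Matrix.adjugate_fin_two, dotProduct, Fin.sum_univ_two,
    Matrix.of_apply, Matrix.cons_val', Matrix.cons_val_zero, Matrix.cons_val_one,
    Matrix.cons_val_fin_one]
  ring

private theorem Tr_adj {L : Type} [Field L] (g : Matrix (Fin 2) (Fin 2) L) (p : Fin 2 → L) :
    g.mulVec (g.adjugate.mulVec p) = fun i => g.det * p i := by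
  rw [Matrix.mulVec_mulVec, Matrix.mul_adjugate, Matrix.smul_mulVec, Matrix.one_mulVec]
  rfl

private theorem Tr_map {L M : Type} [Field L] [Field M] (ψ : L →+* M) (g : Matrix (Fin 2) (Fin 2) L)
    (p : Fin 2 → L) : (fun a => ψ (g.adjugate.mulVec p a)) =
      (g.map ψ).adjugate.mulVec (fun a => ψ (p a)) := by
  funext a
  fin_cases a <;>
  simp [Matrix.mulVec, Matrix.adjugate_fin_two, dotProduct, Fin.sum_univ_two]

theorem exists_tr (hI : Fam r I) (D : Dat I φ) (g : Matrix (Fin 2) (Fin 2) F) (hg : g.det ≠ 0)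
    (μ : F) (hμ : μ ≠ 0) : ∃ D' : Dat I φ, D'.c = (fun i j => μ * act g (D.c i) j) ∧
      D'.p = (fun l => g.adjugate.mulVec (D.p l)) ∧ D'.e = μ * D.e := by
  refine ⟨⟨fun i j => μ * act g (D.c i) j, fun l => g.adjugate.mulVec (D.p l), μ * D.e, ?_, ?_, ?_, ?_, ?_⟩,
    rfl, rfl, rfl⟩
  · exact hI.smul F φ _ μ (hI.act F φ D.c g D.mem)
  · exact (D.bpf.act hg).smul hμ
  · intro l h
    apply D.pne l
    have h1 := Tr_adj g (D.p l)
    have h2 : g.adjugate.mulVec (D.p l) = 0 := h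
    rw [h2, Matrix.mulVec_zero] at h1
    funext a
    have h3 := congrFun h1 a
    exact (mul_eq_zero.1 h3.symm).resolve_left hg
  · exact mul_ne_zero hμ D.ene
  · intro M _ ψ x
    have h1 : (fun j => ψ (μ * act g (D.c 0) j)) =
        fun j => ψ μ * act (g.map ψ) (fun j => ψ (D.c 0 j)) j := by
      funext j
      rw [map_mul, act_map]
    show ev (fun j => ψ (μ * act g (D.c 0) j)) x =
      ψ (μ * D.e) * ∏ l, wd (fun a => ψ (g.adjugate.mulVec (D.p l) a)) x
    rw [h1, ev_smul, ev_act, D.fac M ψ, map_mul, mul_assoc]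
    congr 2
    refine Finset.prod_congr rfl fun l _ => ?_
    rw [Tr_wd, Tr_map]

theorem pt_tr {D D' : Dat I φ} {g : Matrix (Fin 2) (Fin 2) F} {μ : F}
    (hc : D'.c = fun i j => μ * act g (D.c i) j) (q : Fin 2 → F) :
    D'.pt q = fun i => μ * D.pt (g.mulVec q) i := by
  funext i
  unfold Dat.pt
  rw [hc]
  show ev (fun j => μ * act g (D.c i) j) q = _
  rw [ev_smul, ev_act]

private theorem Tr_pt_ne (D : Dat I φ) {q : Fin 2 → F} (hq : q ≠ 0) : D.pt q ≠ 0 := by
  intro h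
  obtain ⟨i, hi⟩ := D.bpf.ev_ne hq
  exact hi (congrFun h i)

private theorem Tr_pt_scale (D : Dat I φ) (a : F) (q : Fin 2 → F) :
    D.pt (fun i => a * q i) = fun i => a ^ (d + 1) * D.pt q i := by
  funext i
  exact ev_scale a (D.c i) q

private theorem Tr_mulVec_ne {L : Type} [Field L] {g : Matrix (Fin 2) (Fin 2) L} (hg : g.det ≠ 0)
    {q : Fin 2 → L} (hq : q ≠ 0) : g.mulVec q ≠ 0 := by
  intro h
  apply hq
  have h1 : g.adjugate.mulVec (g.mulVec q) = fun i => g.det * q i := by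
    rw [Matrix.mulVec_mulVec, Matrix.adjugate_mul, Matrix.smul_mulVec, Matrix.one_mulVec]
    rfl
  rw [h, Matrix.mulVec_zero] at h1
  funext a
  exact (mul_eq_zero.1 (congrFun h1 a).symm).resolve_left hg

theorem dd_tr {V : ValuationSubring F} (hV : IsDiscreteValuationRing V) {D D' : Dat I φ}
    {g : Matrix (Fin 2) (Fin 2) F} (hg : g.det ≠ 0) {μ : F} (hμ : μ ≠ 0)
    (hc : D'.c = fun i j => μ * act g (D.c i) j)
    (hp : D'.p = fun l => g.adjugate.mulVec (D.p l)) (he : D'.e = μ * D.e)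
    {q q' : Fin 2 → F} (h : wd q q' ≠ 0) :
    D'.dd V q q' = D.dd V (g.mulVec q) (g.mulVec q') := by
  have hq : q ≠ 0 := by
    intro h0
    apply h
    rw [h0]
    simp [wd]
  have hq' : q' ≠ 0 := by
    intro h0
    apply h
    rw [h0]
    simp [wd]
  have h1 : al V (D'.pt q) = ord V μ + al V (D.pt (g.mulVec q)) := by
    rw [pt_tr hc q]
    exact al_smul hV (Tr_pt_ne D (Tr_mulVec_ne hg hq)) hμ
  have h2 : al V (D'.pt q') = ord V μ + al V (D.pt (g.mulVec q')) := by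
    rw [pt_tr hc q']
    exact al_smul hV (Tr_pt_ne D (Tr_mulVec_ne hg hq')) hμ
  have h3 : ∀ l, al V (D'.pt (D'.p l)) =
      ord V μ + (((d : ℤ) + 1) * ord V g.det + al V (D.pt (D.p l))) := by
    intro l
    have hpl : D'.p l = g.adjugate.mulVec (D.p l) := by rw [hp]
    have h4 : D.pt (g.mulVec (g.adjugate.mulVec (D.p l))) =
        fun i => g.det ^ (d + 1) * D.pt (D.p l) i := by
      rw [Tr_adj, Tr_pt_scale]
    have h5 : D.pt (D.p l) ≠ 0 := Tr_pt_ne D (D.pne l)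
    have h6 : (fun i => g.det ^ (d + 1) * D.pt (D.p l) i) ≠ 0 := by
      intro h0
      apply h5
      funext i
      exact (mul_eq_zero.1 (congrFun h0 i)).resolve_left (pow_ne_zero _ hg)
    rw [pt_tr hc, hpl, h4, al_smul hV h6 hμ, al_smul hV h5 (pow_ne_zero _ hg), ord_pow hV hg]
    push_cast
    ring
  have h4 : D'.nu V = D.nu V + 2 * (((d : ℤ) + 1) * ord V μ) + ((d : ℤ) + 1) ^ 2 * ord V g.det := by
    unfold Dat.nu
    rw [Finset.sum_congr rfl (fun l _ => h3 l), Finset.sum_add_distrib, Finset.sum_add_distrib, he,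
      ord_mul hV hμ D.ene]
    simp only [Finset.sum_const, Finset.card_univ, Fintype.card_fin, nsmul_eq_mul]
    push_cast
    ring
  unfold Dat.dd
  rw [h1, h2, h4, wd_mulVec, ord_mul hV hg h]
  ring

theorem int_of_dd (hI : Fam r I) (D : Dat I φ) {V : ValuationSubring F}
    (hV : IsDiscreteValuationRing V) (hφ : ∀ a, φ a ∈ V) (h1 : D.dd V ![1, 0] ![0, 1] = 0)
    (h2 : D.dd V ![1, 0] ![1, 1] = 0) (h3 : D.dd V ![0, 1] ![1, 1] = 0)
    (h0 : al V (D.pt ![1, 0]) = 0) (i : Fin (n + 1)) (j : Fin (d + 1 + 1)) : D.c i j ∈ V := by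
  obtain ⟨M⟩ := exists_GM (Nat.le_add_left 1 d) hI φ V hV hφ D.c D.mem D.bpf
  have hF : CharZero F := charZero_of_injective_ringHom φ.injective
  have hE : CharZero M.E := charZero_of_injective_algebraMap (algebraMap F M.E).injective
  have hinf : Infinite M.E := CharZero.infinite M.E
  have hW := M.abv.dvr
  -- the points with coordinates 0, 1
  have hn1 : (![1, 0] : Fin 2 → M.E) ≠ 0 := fun h => one_ne_zero (congrFun h 0)
  have hn2 : (![0, 1] : Fin 2 → M.E) ≠ 0 := fun h => one_ne_zero (congrFun h 1)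
  have hn3 : (![1, 1] : Fin 2 → M.E) ≠ 0 := fun h => one_ne_zero (congrFun h 0)
  obtain ⟨l₁, q₁, P₁⟩ := exists_prim2 hW M.gne hn1
  obtain ⟨l₂, q₂, P₂⟩ := exists_prim2 hW M.gne hn2
  obtain ⟨l₃, q₃, P₃⟩ := exists_prim2 hW M.gne hn3
  have key : ∀ (a b : F) (l : M.E) (q : Fin 2 → M.E),
      Prim M.W M.g (![algebraMap F M.E a, algebraMap F M.E b]) l q →
      (M.a : ℤ) * al V (D.pt ![a, b]) = ((d : ℤ) + 1) * ord M.W l - ord M.W M.m := by
    intro a b l q hP
    have e1 := al_pt M hP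
    have e2 := al_abv M.abv (D.pt ![a, b])
    have e3 : (fun i => algebraMap F M.E (D.pt ![a, b] i)) =
        fun i => ev (fun j => algebraMap F M.E (D.c i j)) ![algebraMap F M.E a, algebraMap F M.E b] := by
      funext i
      unfold Dat.pt
      rw [ev_map]
      congr 1
      funext a
      fin_cases a <;> rfl
    rw [e3] at e2
    rw [← e2, e1]
    push_cast
    ring
  have k1 := key 1 0 l₁ q₁ (by rw [map_one, map_zero]; exact P₁)
  have k2 := key 0 1 l₂ q₂ (by rw [map_one, map_zero]; exact P₂)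
  have k3 := key 1 1 l₃ q₃ (by rw [map_one]; exact P₃)
  have hnu := nu_eq hI D hV hφ M
  have hord1 : ord V (1 : F) = 0 := ord_one V hV
  have hordm : ord V (-1 : F) = 0 := by
    have e1 := ord_mul hV (x := (-1 : F)) (y := -1) (by simp) (by simp)
    rw [neg_one_mul, neg_neg, hord1] at e1
    omega
  have w1 : wd (![1, 0] : Fin 2 → F) ![0, 1] = 1 := by simp [wd]
  have w2 : wd (![1, 0] : Fin 2 → F) ![1, 1] = 1 := by simp [wd]
  have w3 : wd (![0, 1] : Fin 2 → F) ![1, 1] = -1 := by simp [wd]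
  unfold Dat.dd at h1 h2 h3
  rw [w1, hord1] at h1
  rw [w2, hord1] at h2
  rw [w3, hordm] at h3
  have hd : ((d : ℤ) + 1) ≠ 0 := by positivity
  -- the orders of the factors
  have a12 : ord M.W l₁ + ord M.W l₂ + ord M.W M.g.det = 0 := by
    apply mul_left_cancel₀ (mul_ne_zero hd hd)
    linear_combination (-1 : ℤ) * (M.a : ℤ) * h1 - ((d : ℤ) + 1) * k1 - ((d : ℤ) + 1) * k2 + hnu
  have a13 : ord M.W l₁ + ord M.W l₃ + ord M.W M.g.det = 0 := by
    apply mul_left_cancel₀ (mul_ne_zero hd hd)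
    linear_combination (-1 : ℤ) * (M.a : ℤ) * h2 - ((d : ℤ) + 1) * k1 - ((d : ℤ) + 1) * k3 + hnu
  have a23 : ord M.W l₂ + ord M.W l₃ + ord M.W M.g.det = 0 := by
    apply mul_left_cancel₀ (mul_ne_zero hd hd)
    linear_combination (-1 : ℤ) * (M.a : ℤ) * h3 - ((d : ℤ) + 1) * k2 - ((d : ℤ) + 1) * k3 + hnu
  have a1m : ((d : ℤ) + 1) * ord M.W l₁ = ord M.W M.m := by
    rw [h0, mul_zero] at k1
    linarith
  have a12' : ord M.W l₂ = ord M.W l₁ := by omega
  -- the matrix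
  have hr0 : l₂ / l₁ ≠ 0 := div_ne_zero P₂.lne P₁.lne
  have hrW : l₂ / l₁ ∈ M.W := by
    refine (ord_nonneg_iff hW hr0).1 (le_of_eq ?_)
    rw [ord_div hW P₂.lne P₁.lne, a12', sub_self]
  have hrl : l₁ * (l₂ / l₁) = l₂ := mul_div_cancel₀ _ P₁.lne
  set ρ := l₂ / l₁ with hρ
  set u : Matrix (Fin 2) (Fin 2) M.E := !![q₁ 0, ρ * q₂ 0; q₁ 1, ρ * q₂ 1] with hu
  have huW : ∀ a b, u a b ∈ M.W := by
    intro a b
    fin_cases a <;> fin_cases b
    · exact P₁.int 0
    · exact M.W.mul_mem _ _ hrW (P₂.int 0)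
    · exact P₁.int 1
    · exact M.W.mul_mem _ _ hrW (P₂.int 1)
  have hinv : ∀ x : Fin 2 → M.E, (fun a => l₁ * M.g.mulVec (u.mulVec x) a) = x := by
    intro x
    have e10 := P₁.eq 0
    have e11 := P₁.eq 1
    have e20 := P₂.eq 0
    have e21 := P₂.eq 1
    simp only [Matrix.mulVec, dotProduct, Fin.sum_univ_two, Matrix.cons_val_zero,
      Matrix.cons_val_one, Matrix.cons_val_fin_one] at e10 e11 e20 e21
    funext a
    fin_cases a
    · simp only [Matrix.mulVec, dotProduct, Fin.sum_univ_two, hu, Matrix.of_apply, Matrix.cons_val',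
        Matrix.cons_val_zero, Matrix.cons_val_one, Matrix.cons_val_fin_one, Fin.zero_eta, Fin.isValue]
      linear_combination (-1 : M.E) * x 0 * e10 - x 1 * e20 +
        x 1 * (M.g 0 0 * q₂ 0 + M.g 0 1 * q₂ 1) * hrl
    · simp only [Matrix.mulVec, dotProduct, Fin.sum_univ_two, hu, Matrix.of_apply, Matrix.cons_val',
        Matrix.cons_val_zero, Matrix.cons_val_one, Matrix.cons_val_fin_one, Fin.mk_one, Fin.isValue]
      linear_combination (-1 : M.E) * x 0 * e11 - x 1 * e21 +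
        x 1 * (M.g 1 0 * q₂ 0 + M.g 1 1 * q₂ 1) * hrl
  -- the factor
  have hw0 : l₁ ^ (d + 1) / M.m ≠ 0 := div_ne_zero (pow_ne_zero _ P₁.lne) M.mne
  have hwW : l₁ ^ (d + 1) / M.m ∈ M.W := by
    refine (ord_nonneg_iff hW hw0).1 (le_of_eq ?_)
    rw [ord_div hW (pow_ne_zero _ P₁.lne) M.mne, ord_pow hW P₁.lne, ← a1m]
    push_cast
    ring
  have hc : (fun j => algebraMap F M.E (D.c i j)) = fun j => l₁ ^ (d + 1) / M.m *
      act u (fun j => M.m * act M.g (fun j => algebraMap F M.E (D.c i j)) j) j := by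
    apply ev_ext
    intro x
    rw [ev_smul, ev_act, ev_smul, ev_act]
    have e1 := ev_scale l₁ (fun j => algebraMap F M.E (D.c i j)) (M.g.mulVec (u.mulVec x))
    rw [hinv x] at e1
    rw [e1]
    have := M.mne
    field_simp
  have hmem : algebraMap F M.E (D.c i j) ∈ M.W := by
    rw [congrFun hc j]
    exact M.W.mul_mem _ _ hwW (act_mem huW (fun j => M.int i j) j)
  have hcom : D.c i j ∈ M.W.comap (algebraMap F M.E) := hmem
  rw [M.abv.com] at hcom
  exact hcom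

end Pool.Agent.Lib.MP_1e3e9c_agU
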