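import Mathlib
import Pool.Agent.Lib.MP_1e3e9c_agU.C9
import Pool.Agent.Lib.MP_1e3e9c_agU.E2
import Pool.Agent.Lib.MP_1e3e9c_agU.Tr

/-!
# MP_1e3e9c_ag, project U, leaf G2a: isotriviality

`F/K` of one variable, all `ht K (pt (p l)) = 0` (`ht_eq_zero_iff`). By `form_sum` with `s = 1`: if `G` is
a linear form over `K` with `G(f) ≠ 0` and `q_l` its zeros then `∑ ht (pt (q_l)) ≤ 0`, so all of them are
`0` (`ht_nonneg`). `q₁ = p 0`; `j` with `f_j(q₁) ≠ 0` (`BPF.ev_ne`). `exists_fac` for `c j`: over a finite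
extension `E₁`, `q₂` a zero of `f_j` (the number of zeros is `d + 1 ≥ 1`). Natural numbers `a_i` with
`∑ a_i f_i(q₁) ≠ 0`, `∑ a_i f_i(q₂) ≠ 0`; the coefficients of `∑ a_i f_i` and `exists_fac`: over a finite
extension `E/E₁/F`, `q₃` a zero. (Work with `D.up E₁`, `D.up E`, `FF_up`, `ht_up`; `E` is a finite
extension of `F`; or use one extension in which everything splits, e.g. factor the product of the
two forms.) The `q_a` are pairwise not proportional and `Con (upK E K) (pt (q_a))`. By `dd_sum`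
`∑ deg V dd V q_a q_b = 0`, so all `dd V q_a q_b = 0` (`dd_nonneg`, `deg_pos`, `dd_fin`).
Let `q₃ = α q₁ + β q₂`, `g` with columns `α q₁`, `β q₂`, `μ = 1 / (pt (α q₁) i)` for a nonzero
coordinate `i`, `D'` = the translate (`exists_tr`): `D'.dd V e_a e_b = 0` (`dd_tr`), `D'.pt (1,0)` has a
coordinate `1` and all coordinates algebraic over `upK E K`, so `al V (D'.pt (1,0)) = 0` (`ord_alg`).
`int_of_dd`: all `D'.c i j ∈ V` for all places `V`, so they are algebraic over `upK E K`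
(`const_of_nonneg`).
-/

set_option autoImplicit false
set_option linter.unusedSectionVars false

namespace Pool.Agent.Lib.MP_1e3e9c_agU

open IsLocalRing Pool.Agent.Lib.MP_b197b4_ntK

/-- The conclusion, for a tuple of forms. -/
private def G2a_C {F : Type} [Field F] (K : Subfield F) {n D : ℕ}
    (c : Fin (n + 1) → Fin (D + 1) → F) : Prop :=
  ∃ (E : Type) (_ : Field E) (_ : Algebra F E) (_ : FiniteDimensional F E)
    (g : Matrix (Fin 2) (Fin 2) E) (μ : E), g.det ≠ 0 ∧ μ ≠ 0 ∧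
    ∀ i j, IsAlgebraic (upK E K) (μ * act g (fun j => algebraMap F E (c i j)) j)

private theorem G2a_lift {F : Type} [Field F] {K : Subfield F} {n D : ℕ}
    {c : Fin (n + 1) → Fin (D + 1) → F} (E₁ : Type) [Field E₁] [Algebra F E₁]
    [FiniteDimensional F E₁] (h : G2a_C (upK E₁ K) (fun i j => algebraMap F E₁ (c i j))) :
    G2a_C K c := by
  obtain ⟨E, _, _, _, g, μ, hg, hμ, halg⟩ := h
  let _ : Algebra F E := ((algebraMap E₁ E).comp (algebraMap F E₁)).toAlgebra
  have : IsScalarTower F E₁ E := IsScalarTower.of_algebraMap_eq' rfl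
  have : FiniteDimensional F E := FiniteDimensional.trans F E₁ E
  refine ⟨E, inferInstance, inferInstance, inferInstance, g, μ, hg, hμ, fun i j => ?_⟩
  have h1 : upK E K = upK E (upK E₁ K) := by
    unfold upK
    rw [Subfield.map_map]
    rfl
  rw [h1]
  exact halg i j

private theorem G2a_self {F : Type} [Field F] {K : Subfield F} {n D : ℕ}
    {c : Fin (n + 1) → Fin (D + 1) → F} (g : Matrix (Fin 2) (Fin 2) F) (μ : F)
    (hg : g.det ≠ 0) (hμ : μ ≠ 0) (h : ∀ i j, IsAlgebraic K (μ * act g (c i) j)) :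
    G2a_C K c := by
  refine ⟨F, inferInstance, inferInstance, inferInstance, g, μ, hg, hμ, fun i j => ?_⟩
  have h1 : upK F K = K := by
    unfold upK
    ext x
    constructor
    · rintro ⟨y, hy, rfl⟩
      exact hy
    · intro hx
      exact ⟨x, hx, rfl⟩
  rw [h1]
  exact h i j

variable {k F : Type} [Field k] [CharZero k] [Field F] [CharZero F] {n d r : ℕ}
  {I : Ideal (MvPolynomial (Fin (n + 1) × Fin (d + 1 + 1)) k)} {φ : k →+* F} {K : Subfield F}

private theorem G2a_dd0 (hI : Fam r I) (hφ : ∀ a, φ a ∈ K) (hF : FF K 1) (D : Dat I φ)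
    (hp : ∀ l, ht K (D.pt (D.p l)) = 0) {q q' : Fin 2 → F} (h : wd q q' ≠ 0)
    (hq : ht K (D.pt q) = 0) (hq' : ht K (D.pt q') = 0) {V : ValuationSubring F}
    (hV : Dv K V) : D.dd V q q' = 0 := by
  classical
  have h1 := dd_sum hF D h
  rw [hq, hq', Finset.sum_eq_zero fun l _ => hp l, add_zero, mul_zero, sub_zero] at h1
  have hnn : ∀ V, Dv K V → 0 ≤ D.dd V q q' := fun V hV =>
    dd_nonneg hI D hV.1 (fun a => hV.2 _ (hφ a)) h
  have hfin : (Function.support fun V : ValuationSubring F =>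
      ∑ᶠ (_ : Dv K V), (deg K V : ℤ) * D.dd V q q').Finite := by
    refine (dd_fin hF D h).subset ?_
    intro W hW
    rw [Function.mem_support] at hW
    by_cases hd : Dv K W
    · rw [finsum_eq_if, if_pos hd] at hW
      exact ⟨hd, right_ne_zero_of_mul hW⟩
    · rw [finsum_eq_if, if_neg hd] at hW
      exact absurd rfl hW
  have hle := single_le_finsum V hfin fun W => by
    by_cases hd : Dv K W
    · rw [finsum_eq_if, if_pos hd]
      exact mul_nonneg (Nat.cast_nonneg _) (hnn W hd)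
    · rw [finsum_eq_if, if_neg hd]
  rw [h1, finsum_eq_if, if_pos hV] at hle
  have hpos : (0 : ℤ) < (deg K V : ℤ) := by exact_mod_cast deg_pos hF hV
  have h2 := hnn V hV
  by_contra hne
  have h3 : 0 < D.dd V q q' := lt_of_le_of_ne h2 (Ne.symm hne)
  exact absurd hle (not_le.2 (mul_pos hpos h3))

private theorem G2a_three (hI : Fam r I) (hφ : ∀ a, φ a ∈ K) (hF : FF K 1) (D : Dat I φ)
    (hp : ∀ l, ht K (D.pt (D.p l)) = 0) {u v : Fin 2 → F} (hw : wd u v ≠ 0)
    (hu : ht K (D.pt u) = 0) (hv : ht K (D.pt v) = 0) (huv : ht K (D.pt (u + v)) = 0) :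
    G2a_C K D.c := by
  obtain ⟨g, hgdef⟩ : ∃ g : Matrix (Fin 2) (Fin 2) F, g = !![u 0, v 0; u 1, v 1] := ⟨_, rfl⟩
  have hdet : g.det = wd u v := by
    rw [hgdef, Matrix.det_fin_two_of]
    unfold wd
    ring
  have hg : g.det ≠ 0 := hdet ▸ hw
  have hu0 : u ≠ 0 := by
    rintro rfl
    apply hw
    simp [wd]
  have he1 : g.mulVec ![1, 0] = u := by
    rw [hgdef]
    funext a
    fin_cases a <;> simp [Matrix.mulVec, dotProduct, Fin.sum_univ_two]
  have he2 : g.mulVec ![0, 1] = v := by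
    rw [hgdef]
    funext a
    fin_cases a <;> simp [Matrix.mulVec, dotProduct, Fin.sum_univ_two]
  have he3 : g.mulVec ![1, 1] = u + v := by
    rw [hgdef]
    funext a
    fin_cases a <;> simp [Matrix.mulVec, dotProduct, Fin.sum_univ_two]
  have hw13 : wd u (u + v) ≠ 0 := by
    have : wd u (u + v) = wd u v := by
      unfold wd
      simp only [Pi.add_apply]
      ring
    rwa [this]
  have hw23 : wd v (u + v) ≠ 0 := by
    have : wd v (u + v) = -wd u v := by
      unfold wd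
      simp only [Pi.add_apply]
      ring
    rw [this]
    exact neg_ne_zero.2 hw
  obtain ⟨i₀, hi₀⟩ : ∃ i₀, D.pt u i₀ ≠ 0 := Function.ne_iff.1 (pt_ne D hu0)
  have hμ : (D.pt u i₀)⁻¹ ≠ 0 := inv_ne_zero hi₀
  obtain ⟨D', hc', hp', he'⟩ := exists_tr hI D g hg _ hμ
  have hcon : Con K (D.pt u) := (ht_eq_zero_iff hF (pt_ne D hu0)).1 hu
  have hpt1 : D'.pt ![1, 0] = fun i => (D.pt u i₀)⁻¹ * D.pt u i := by
    rw [pt_tr hc', he1]
  have halg1 : ∀ i, IsAlgebraic K (D'.pt ![1, 0] i) := by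
    intro i
    rw [hpt1]
    have h1 := hcon i i₀ hi₀
    rw [div_eq_mul_inv, mul_comm] at h1
    exact h1
  have h10 : (![1, 0] : Fin 2 → F) ≠ 0 := fun h => one_ne_zero (congrFun h 0)
  have hint : ∀ V : ValuationSubring F, Dv K V → ∀ i j, D'.c i j ∈ V := by
    intro V hV i j
    refine int_of_dd hI D' hV.1 (fun a => hV.2 _ (hφ a)) ?_ ?_ ?_ ?_ i j
    · rw [dd_tr hV.1 hg hμ hc' hp' he' (by simp [wd]), he1, he2]
      exact G2a_dd0 hI hφ hF D hp hw hu hv hV
    · rw [dd_tr hV.1 hg hμ hc' hp' he' (by simp [wd]), he1, he3]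
      exact G2a_dd0 hI hφ hF D hp hw13 hu huv hV
    · rw [dd_tr hV.1 hg hμ hc' hp' he' (by simp [wd]), he2, he3]
      exact G2a_dd0 hI hφ hF D hp hw23 hv huv hV
    · obtain ⟨j, hj, e⟩ := exists_al (V := V) (pt_ne D' h10)
      rw [← e]
      exact ord_alg hV (halg1 j)
  refine G2a_self g _ hg hμ fun i j => ?_
  have h1 : (D.pt u i₀)⁻¹ * act g (D.c i) j = D'.c i j := by rw [hc']
  rw [h1]
  by_cases h0 : D'.c i j = 0
  · rw [h0]
    exact isAlgebraic_zero
  · exact const_of_nonneg hF h0 fun V hV => (ord_nonneg_iff hV.1 h0).2 (hint V hV i j)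

/-- The zeros of a linear form with coefficients in `K`. -/
private theorem G2a_form (hI : Fam r I) (hφ : ∀ a, φ a ∈ K) (hF : FF K 1) (D : Dat I φ)
    (hp : ∀ l, ht K (D.pt (D.p l)) = 0) (a : Fin (n + 1) → F) (ha : ∀ i, a i ∈ K) (b : F)
    (hb : b ≠ 0) (q : Fin (d + 1) → Fin 2 → F) (hq : ∀ l, q l ≠ 0)
    (hf : ∀ (M : Type) [Field M] (ψ : F →+* M) (x : Fin 2 → M),
      ∑ i, ψ (a i) * ev (fun j => ψ (D.c i j)) x = ψ b * ∏ l, wd (fun t => ψ (q l t)) x) (l) :
    ht K (D.pt (q l)) = 0 := by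
  have h1 := form_sum hI hφ hF D 1 (∑ i, MvPolynomial.C (a i) * MvPolynomial.X i)
    (MvPolynomial.IsHomogeneous.sum _ _ _ fun i _ => by
      have := (MvPolynomial.isHomogeneous_C (Fin (n + 1)) (a i)).mul
        (MvPolynomial.isHomogeneous_X F i)
      rwa [zero_add] at this)
    (fun t => by
      rw [MvPolynomial.coeff_sum]
      refine K.sum_mem fun i _ => ?_
      rw [MvPolynomial.coeff_C_mul, MvPolynomial.coeff_X]
      split_ifs
      · rw [mul_one]
        exact ha i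
      · rw [mul_zero]
        exact K.zero_mem)
    b hb (fun l => q (Fin.cast (mul_one _) l)) (fun l => hq _)
    (fun M _ ψ x => by
      rw [MvPolynomial.eval₂_sum]
      simp only [MvPolynomial.eval₂_mul, MvPolynomial.eval₂_C, MvPolynomial.eval₂_X]
      rw [hf M ψ x]
      congr 1
      exact (Equiv.prod_comp (finCongr (mul_one (d + 1)))
        (fun l => wd (fun t => ψ (q l t)) x)).symm)
  rw [Finset.sum_eq_zero fun l _ => hp l, mul_zero] at h1
  have h2 : ∑ l, ht K (D.pt (q l)) ≤ 0 := by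
    rw [← Equiv.sum_comp (finCongr (mul_one (d + 1))) (fun l => ht K (D.pt (q l)))]
    exact h1
  have hnn : ∀ l, 0 ≤ ht K (D.pt (q l)) := fun l => ht_nonneg hF (pt_ne D (hq l))
  exact le_antisymm ((Finset.single_le_sum (f := fun l => ht K (D.pt (q l)))
    (fun l _ => hnn l) (Finset.mem_univ l)).trans h2) (hnn l)

private theorem G2a_smul (hF : FF K 1) (D : Dat I φ) {q : Fin 2 → F} (hq : q ≠ 0)
    (h : ht K (D.pt q) = 0) {α : F} (hα : α ≠ 0) : ht K (D.pt (fun i => α * q i)) = 0 := by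
  have h0 : (fun i => α * q i) ≠ 0 := by
    intro h1
    apply hq
    funext i
    exact (mul_eq_zero.1 (congrFun h1 i)).resolve_left hα
  have hw : wd q (fun i => α * q i) = 0 := by
    unfold wd
    ring
  obtain ⟨a, ha, h2⟩ := pt_pr D hq h0 hw
  have h3 : D.pt (fun i => α * q i) = fun j => a * D.pt q j := funext h2
  rw [h3, ht_smul hF (pt_ne D hq) ha, h]

private theorem G2a_ne {q q' : Fin 2 → F} (h : wd q q' ≠ 0) : q ≠ 0 := by
  rintro rfl
  apply h
  simp [wd]

private theorem G2a_end (hI : Fam r I) (hφ : ∀ a, φ a ∈ K) (hF : FF K 1) (D : Dat I φ)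
    (hp : ∀ l, ht K (D.pt (D.p l)) = 0) {q₁ q₂ q₃ : Fin 2 → F} (h12 : wd q₁ q₂ ≠ 0)
    (h13 : wd q₁ q₃ ≠ 0) (h23 : wd q₂ q₃ ≠ 0) (h1 : ht K (D.pt q₁) = 0)
    (h2 : ht K (D.pt q₂) = 0) (h3 : ht K (D.pt q₃) = 0) : G2a_C K D.c := by
  have h32 : wd q₃ q₂ ≠ 0 := by
    have : wd q₃ q₂ = -wd q₂ q₃ := by
      unfold wd
      ring
    rw [this]
    exact neg_ne_zero.2 h23
  have hα : wd q₃ q₂ / wd q₁ q₂ ≠ 0 := div_ne_zero h32 h12
  have hβ : wd q₁ q₃ / wd q₁ q₂ ≠ 0 := div_ne_zero h13 h12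
  have hsum : (fun i => wd q₃ q₂ / wd q₁ q₂ * q₁ i) + (fun i => wd q₁ q₃ / wd q₁ q₂ * q₂ i) =
      q₃ := by
    funext i
    rw [Pi.add_apply]
    have h5 : wd q₃ q₂ * q₁ i + wd q₁ q₃ * q₂ i = wd q₁ q₂ * q₃ i := by
      unfold wd
      fin_cases i
      · simp only [Fin.zero_eta]
        ring
      · simp only [Fin.mk_one]
        ring
    field_simp
    exact h5
  refine G2a_three hI hφ hF D hp (u := fun i => wd q₃ q₂ / wd q₁ q₂ * q₁ i)
    (v := fun i => wd q₁ q₃ / wd q₁ q₂ * q₂ i) ?_ (G2a_smul hF D (G2a_ne h12) h1 hα)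
    (G2a_smul hF D (G2a_ne h23) h2 hβ) ?_
  · have h6 : wd (fun i => wd q₃ q₂ / wd q₁ q₂ * q₁ i) (fun i => wd q₁ q₃ / wd q₁ q₂ * q₂ i) =
        wd q₃ q₂ / wd q₁ q₂ * (wd q₁ q₃ / wd q₁ q₂) * wd q₁ q₂ := by
      generalize wd q₃ q₂ / wd q₁ q₂ = s
      generalize wd q₁ q₃ / wd q₁ q₂ = t
      unfold wd
      ring
    rw [h6]
    exact mul_ne_zero (mul_ne_zero hα hβ) h12
  · rw [hsum]
    exact h3

private theorem G2a_wd {D : ℕ} {c : Fin (D + 1) → F} {q q' : Fin 2 → F} (h : ev c q ≠ 0)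
    (h' : ev c q' = 0) (hq : q ≠ 0) (hq' : q' ≠ 0) : wd q q' ≠ 0 := by
  intro hw
  obtain ⟨a, ha⟩ := (wd_eq_zero_iff hq q').1 hw
  have ha' : q' = fun i => a * q i := funext ha
  rw [ha', ev_scale] at h'
  rcases mul_eq_zero.1 h' with h1 | h1
  · have ha0 : a = 0 := by
      by_contra hne
      exact pow_ne_zero _ hne h1
    apply hq'
    rw [ha', ha0]
    funext i
    exact zero_mul _
  · exact h h1

private theorem G2a_root {D : ℕ} {c : Fin (D + 1) → F} {e : F} {p : Fin D → Fin 2 → F}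
    (h : ∀ (M : Type) [Field M] (ψ : F →+* M) (x : Fin 2 → M),
      ev (fun j => ψ (c j)) x = ψ e * ∏ l, wd (fun t => ψ (p l t)) x) (l : Fin D) :
    ev c (p l) = 0 := by
  have h1 := h F (RingHom.id F) (p l)
  have h2 : ∏ m, wd (fun t => (RingHom.id F) (p m t)) (p l) = 0 := by
    refine Finset.prod_eq_zero (Finset.mem_univ l) ?_
    simp only [RingHom.id_apply, wd]
    ring
  rw [h2, mul_zero] at h1
  exact h1

private theorem G2a_add {M : Type} [Field M] {D : ℕ} (c c' : Fin (D + 1) → M) (t : M)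
    (x : Fin 2 → M) : ev (fun j => c j + t * c' j) x = ev c x + t * ev c' x := by
  unfold ev
  rw [Finset.mul_sum, ← Finset.sum_add_distrib]
  exact Finset.sum_congr rfl fun j _ => by ring

private theorem G2a_num {A B C D : F} (hA : A ≠ 0) (hD : D ≠ 0) :
    ∃ t : ℕ, A + (t : F) * B ≠ 0 ∧ C + (t : F) * D ≠ 0 := by
  by_contra hcon
  push Not at hcon
  have h0 := hcon 0
  have h1 := hcon 1
  have h2 := hcon 2
  rw [Nat.cast_zero, zero_mul, zero_mul, add_zero, add_zero] at h0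
  have h0' := h0 hA
  rw [h0', Nat.cast_one, one_mul, one_mul, zero_add] at h1
  have h1' : A + B = 0 := by
    by_contra hne
    exact hD (h1 hne)
  have h2' : A + ((2 : ℕ) : F) * B ≠ 0 := by
    intro h
    push_cast at h
    apply hA
    linear_combination 2 * h1' - h
  have h3 := h2 h2'
  rw [h0', zero_add] at h3
  push_cast at h3
  exact hD ((mul_eq_zero.1 h3).resolve_left two_ne_zero)

/-- The datum over a finite extension. -/
private theorem G2a_up (hφ : ∀ a, φ a ∈ K) (hF : FF K 1) (D : Dat I φ)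
    (hp : ∀ l, ht K (D.pt (D.p l)) = 0) (E : Type) [Field E] [Algebra F E]
    [FiniteDimensional F E] : (∀ a, (algebraMap F E).comp φ a ∈ upK E K) ∧ FF (upK E K) 1 ∧
      (∀ l, ht (upK E K) ((D.up E).pt ((D.up E).p l)) = 0) ∧
      ∀ q : Fin 2 → F, q ≠ 0 → ht K (D.pt q) = 0 →
        ht (upK E K) ((D.up E).pt (fun a => algebraMap F E (q a))) = 0 := by
  have h1 : ∀ q : Fin 2 → F, q ≠ 0 → ht K (D.pt q) = 0 →
        ht (upK E K) ((D.up E).pt (fun a => algebraMap F E (q a))) = 0 := by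
    intro q hq h
    rw [up_pt, ht_up hF (pt_ne D hq), h, mul_zero]
  exact ⟨fun a => ⟨φ a, hφ a, rfl⟩, FF_up hF, fun l => h1 _ (D.pne l) (hp l), h1⟩

private theorem G2a_two (hI : Fam r I) (hφ : ∀ a, φ a ∈ K) (hF : FF K 1) (D : Dat I φ)
    (hp : ∀ l, ht K (D.pt (D.p l)) = 0) {q₁ q₂ : Fin 2 → F} (h12 : wd q₁ q₂ ≠ 0)
    (h1 : ht K (D.pt q₁) = 0) (h2 : ht K (D.pt q₂) = 0) : G2a_C K D.c := by
  classical
  have hq1 : q₁ ≠ 0 := G2a_ne h12
  have h21 : wd q₂ q₁ ≠ 0 := by
    have : wd q₂ q₁ = -wd q₁ q₂ := by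
      unfold wd
      ring
    rw [this]
    exact neg_ne_zero.2 h12
  have hq2 : q₂ ≠ 0 := G2a_ne h21
  obtain ⟨i₁, hi₁⟩ := D.bpf.ev_ne hq1
  obtain ⟨i₂, hi₂⟩ := D.bpf.ev_ne hq2
  obtain ⟨t, ht1, ht2⟩ := G2a_num (B := ev (D.c i₂) q₁) (C := ev (D.c i₁) q₂) hi₁ hi₂
  obtain ⟨c, hc⟩ : ∃ c : Fin (d + 1 + 1) → F, c = fun j => D.c i₁ j + (t : F) * D.c i₂ j :=
    ⟨_, rfl⟩
  rw [← G2a_add, ← hc] at ht1 ht2
  have hc0 : c ≠ 0 := by
    rintro rfl
    apply ht1
    unfold ev
    exact Finset.sum_eq_zero fun j _ => by rw [Pi.zero_apply, zero_mul, zero_mul]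
  obtain ⟨E, _, _, _, e, p, he, hp3, hfac⟩ := exists_fac c hc0
  have : CharZero E := charZero_of_injective_algebraMap (algebraMap F E).injective
  obtain ⟨g1, g2, g3, g4⟩ := G2a_up hφ hF D hp E
  refine G2a_lift E ?_
  have hcE : ∀ x : Fin 2 → F, ev c x ≠ 0 →
      ev (fun j => algebraMap F E (c j)) (fun a => algebraMap F E (x a)) ≠ 0 := by
    intro x hx
    rw [← ev_map]
    exact (map_ne_zero (algebraMap F E)).2 hx
  have hne : ∀ x : Fin 2 → F, x ≠ 0 → (fun a => algebraMap F E (x a)) ≠ 0 := by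
    intro x hx h
    apply hx
    funext a
    exact (map_eq_zero (algebraMap F E)).1 (congrFun h a)
  have hroot : ev (fun j => algebraMap F E (c j)) (p 0) = 0 := G2a_root hfac 0
  refine G2a_end hI g1 g2 (D.up E) g3 (q₁ := fun a => algebraMap F E (q₁ a))
    (q₂ := fun a => algebraMap F E (q₂ a)) (q₃ := p 0) ?_ ?_ ?_ (g4 _ hq1 h1) (g4 _ hq2 h2) ?_
  · have h5 : wd (fun a => algebraMap F E (q₁ a)) (fun a => algebraMap F E (q₂ a)) =
        algebraMap F E (wd q₁ q₂) := by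
      simp only [wd, map_sub, map_mul]
    rw [h5]
    exact (map_ne_zero (algebraMap F E)).2 h12
  · exact G2a_wd (hcE _ ht1) hroot (hne _ hq1) (hp3 0)
  · exact G2a_wd (hcE _ ht2) hroot (hne _ hq2) (hp3 0)
  · refine G2a_form hI g1 g2 (D.up E) g3
      (fun i => (if i = i₁ then 1 else 0) + (if i = i₂ then (t : E) else 0)) (fun i => ?_) e he p
      hp3 (fun M _ ψ x => ?_) 0
    · refine (upK E K).add_mem ?_ ?_
      · split_ifs
        · exact (upK E K).one_mem
        · exact (upK E K).zero_mem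
      · split_ifs
        · exact natCast_mem _ t
        · exact (upK E K).zero_mem
    · rw [← hfac M ψ x]
      have h6 : (fun j => ψ (algebraMap F E (c j))) =
          fun j => ψ (algebraMap F E (D.c i₁ j)) + (t : M) * ψ (algebraMap F E (D.c i₂ j)) := by
        funext j
        rw [hc]
        simp only [map_add, map_mul, map_natCast]
      rw [h6, G2a_add]
      have h7 : ∀ i, ψ ((if i = i₁ then 1 else 0) + (if i = i₂ then (t : E) else 0)) *
          ev (fun j => ψ ((D.up E).c i j)) x =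
          (if i = i₁ then ev (fun j => ψ ((D.up E).c i j)) x else 0) +
            (if i = i₂ then (t : M) * ev (fun j => ψ ((D.up E).c i j)) x else 0) := by
        intro i
        rw [map_add, add_mul]
        congr 1
        · split_ifs
          · rw [map_one, one_mul]
          · rw [map_zero, zero_mul]
        · split_ifs
          · rw [map_natCast]
          · rw [map_zero, zero_mul]
      rw [Finset.sum_congr rfl fun i _ => h7 i, Finset.sum_add_distrib, Finset.sum_ite_eq',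
        Finset.sum_ite_eq', if_pos (Finset.mem_univ _), if_pos (Finset.mem_univ _)]
      rfl

theorem isotriv (hI : Fam r I) (hφ : ∀ a, φ a ∈ K) (hF : FF K 1) (D : Dat I φ)
    (hc : ∀ l, Con K (D.pt (D.p l))) :
    ∃ (E : Type) (_ : Field E) (_ : Algebra F E) (_ : FiniteDimensional F E)
      (g : Matrix (Fin 2) (Fin 2) E) (μ : E), g.det ≠ 0 ∧ μ ≠ 0 ∧
      ∀ i j, IsAlgebraic (upK E K) (μ * act g (fun j => algebraMap F E (D.c i j)) j) := by
  classical
  change G2a_C K D.c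
  have hp : ∀ l, ht K (D.pt (D.p l)) = 0 := fun l =>
    (ht_eq_zero_iff hF (pt_ne D (D.pne l))).2 (hc l)
  have hq1 := D.pne 0
  obtain ⟨j, hj⟩ := D.bpf.ev_ne hq1
  have hc0 : D.c j ≠ 0 := by
    intro h
    apply hj
    rw [h]
    unfold ev
    exact Finset.sum_eq_zero fun j _ => by rw [Pi.zero_apply, zero_mul, zero_mul]
  obtain ⟨E, _, _, _, e, p, he, hp3, hfac⟩ := exists_fac (D.c j) hc0
  have : CharZero E := charZero_of_injective_algebraMap (algebraMap F E).injective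
  obtain ⟨g1, g2, g3, g4⟩ := G2a_up hφ hF D hp E
  refine G2a_lift E ?_
  have hne : (fun a => algebraMap F E (D.p 0 a)) ≠ 0 := by
    intro h
    apply hq1
    funext a
    exact (map_eq_zero (algebraMap F E)).1 (congrFun h a)
  have hroot : ev (fun m => algebraMap F E (D.c j m)) (p 0) = 0 := G2a_root hfac 0
  have hev : ev (fun m => algebraMap F E (D.c j m)) (fun a => algebraMap F E (D.p 0 a)) ≠ 0 := by
    rw [← ev_map]
    exact (map_ne_zero (algebraMap F E)).2 hj
  refine G2a_two hI g1 g2 (D.up E) g3 (q₁ := fun a => algebraMap F E (D.p 0 a)) (q₂ := p 0)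
    (G2a_wd hev hroot hne (hp3 0)) (g4 _ hq1 (hp 0)) ?_
  refine G2a_form hI g1 g2 (D.up E) g3 (fun i => if i = j then 1 else 0) (fun i => ?_) e he p
    hp3 (fun M _ ψ x => ?_) 0
  · split_ifs
    · exact (upK E K).one_mem
    · exact (upK E K).zero_mem
  · rw [← hfac M ψ x]
    have h7 : ∀ i, ψ (if i = j then 1 else 0) * ev (fun m => ψ ((D.up E).c i m)) x =
        (if i = j then ev (fun m => ψ ((D.up E).c i m)) x else 0) := by
      intro i
      split_ifs
      · rw [map_one, one_mul]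
      · rw [map_zero, zero_mul]
    rw [Finset.sum_congr rfl fun i _ => h7 i, Finset.sum_ite_eq', if_pos (Finset.mem_univ _)]
    rfl

end Pool.Agent.Lib.MP_1e3e9c_agU
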