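import Mathlib
import Pool.Agent.Lib.MP_1e3e9c_agU.G2a
import Pool.Agent.Lib.MP_1e3e9c_agU.Defs3

/-!
# MP_1e3e9c_ag, project U, leaf G2b: the zeros determine the family

Let `F'` be the closure in the statement (generated over `φ(k)` by the ratios of the coordinates of
the points `pt (p l)`). If `F` is not algebraic over `F'`, take a transcendence basis of `F/F'` (not
empty, finite), remove one element; `κ` = the field generated by `F'` and the others: `FF κ 1` (`F` is
finitely generated over `φ(k) ⊆ κ`), `trdeg κ / φ(k) = m - 1`, and `Con κ (pt (p l))` for all `l`.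
`isotriv`: `E`, `g`, `μ`, `c' = μ act g c` algebraic over `upK E κ`. Let `Ω = GF F (Fin 2 × Fin 2) ⊆
Ω' = GF E (Fin 2 × Fin 2)` (or any common extension, e.g. the algebraic closure of `GF E _`), `G` = the
generic matrix. `act G c = act (g⁻¹ G) (μ⁻¹ c')`: its coefficients are polynomials over `ℤ` in the
algebraic (over `κ`) elements `c'_ij` and in the five elements `μ⁻¹`, `(g⁻¹ G)_ab`; replacing
`g⁻¹ G` by `t g⁻¹ G`, `t^(d+1) = μ⁻¹`, in four elements. So the field generated over `φ(k)` by the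
coefficients of `act G c` has transcendence degree `≤ (m - 1) + 4`. But `Ω` is algebraic over it
(`hE`) and `trdeg Ω / φ(k) = m + 4`: contradiction.
-/

set_option autoImplicit false

namespace Pool.Agent.Lib.MP_1e3e9c_agU

open IsLocalRing Pool.Agent.Lib.MP_b197b4_ntK

section Tool

variable {R A : Type} [Field R] [Field A] [Algebra R A]

/-- The algebraic closure in `A` of the field generated by `S` over `R`. -/
private noncomputable def G2b_cl (R : Type) {A : Type} [Field R] [Field A] [Algebra R A] (S : Set A) :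
    Subfield A := (algebraicClosure (IntermediateField.adjoin R S) A).toSubfield

private theorem G2b_mem {S : Set A} {x : A} :
    x ∈ G2b_cl R S ↔ IsAlgebraic (IntermediateField.adjoin R S) x := mem_algebraicClosure_iff

private theorem G2b_sub {S : Set A} {x : A} (h : x ∈ IntermediateField.adjoin R S) :
    x ∈ G2b_cl R S :=
  G2b_mem.2 (isAlgebraic_algebraMap (⟨x, h⟩ : IntermediateField.adjoin R S))

private theorem G2b_subset {S : Set A} {x : A} (h : x ∈ S) : x ∈ G2b_cl R S :=
  G2b_sub (IntermediateField.subset_adjoin R S h)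

private theorem G2b_base {S : Set A} (x : R) : algebraMap R A x ∈ G2b_cl R S :=
  G2b_sub (IntermediateField.algebraMap_mem _ x)

private theorem G2b_trans {S : Set A} {L : Subfield A} (hL : L ≤ G2b_cl R S) {x : A}
    (hx : IsAlgebraic L x) : x ∈ G2b_cl R S := by
  have h1 : IsAlgebraic (algebraicClosure (IntermediateField.adjoin R S) A) x :=
    hx.ringHom_of_comp_eq
      (L.subtype.codRestrict (algebraicClosure (IntermediateField.adjoin R S) A) fun y => hL y.2)
      (RingHom.id A) (RingHom.injective _) rfl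
  have h2 : Algebra.IsAlgebraic (IntermediateField.adjoin R S)
      (algebraicClosure (IntermediateField.adjoin R S) A) := algebraicClosure.isAlgebraic _ _
  exact G2b_mem.2 (h1.restrictScalars _)

open scoped IntermediateField.algebraAdjoinAdjoin in
private theorem G2b_adj {S : Set A} {x : A} :
    IsAlgebraic (Algebra.adjoin R S) x ↔ x ∈ G2b_cl R S := by
  rw [G2b_mem]
  exact IsFractionRing.isAlgebraic_iff (Algebra.adjoin R S) (IntermediateField.adjoin R S) A

private theorem G2b_matroid (S : Set A) :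
    ((G2b_cl R S : Subfield A) : Set A) = (AlgebraicIndependent.matroid R A).closure S := by
  rw [AlgebraicIndependent.matroid_closure_eq]
  ext x
  exact G2b_adj.symm.trans (Subalgebra.mem_algebraicClosure (Algebra.adjoin R S) A).symm

/-- Independent elements of the closure of a finite set. -/
private theorem G2b_card {ι : Type} [Fintype ι] {v : ι → A} (hv : AlgebraicIndependent R v)
    {Z : Set A} {N : ℕ} (hZ : Z.encard ≤ N) (h : ∀ i, v i ∈ G2b_cl R Z) : Fintype.card ι ≤ N := by
  have h1 : (AlgebraicIndependent.matroid R A).Indep (Set.range v) :=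
    AlgebraicIndependent.matroid_indep_iff.2 hv.coe_range
  have h2 : Set.range v ⊆ (AlgebraicIndependent.matroid R A).closure Z := by
    rintro _ ⟨i, rfl⟩
    rw [← G2b_matroid]
    exact h i
  have h3 := h1.encard_le_eRk_of_subset h2
  rw [Matroid.eRk_closure_eq] at h3
  have h4 := h3.trans ((Matroid.eRk_le_encard _ Z).trans hZ)
  have h5 : (Set.range v).encard = (Fintype.card ι : ℕ∞) := by
    rw [← Set.image_univ, hv.injective.injOn.encard_image, Set.encard_univ, ENat.card_eq_coe_fintype_card]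
  rw [h5] at h4
  exact_mod_cast h4

private theorem G2b_mono {K₁ K₂ : Subfield A} (h : K₁ ≤ K₂) {x : A} (hx : IsAlgebraic K₁ x) :
    IsAlgebraic K₂ x :=
  hx.ringHom_of_comp_eq (Subfield.inclusion h) (RingHom.id A) (Subfield.inclusion h).injective rfl

private theorem G2b_map {B : Type} [Field B] (ψ : A →+* B) {K : Subfield A} {x : A}
    (hx : IsAlgebraic K x) : IsAlgebraic (K.map ψ) (ψ x) :=
  hx.ringHom_of_comp_eq ((ψ.comp K.subtype).codRestrict (K.map ψ) fun y => ⟨y, y.2, rfl⟩) ψ
    (RingHom.injective _) rfl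

end Tool

/-- The field `κ`. -/
private theorem G2b_kappa {F : Type} [Field F] {K : Subfield F} {m : ℕ} (hF : FF K m) {S : Set F}
    {x₀ : F} (hx : x₀ ∉ G2b_cl K S) : ∃ (Y : Set F) (v : Fin m → F), Y.encard + 1 ≤ m ∧
      AlgebraicIndependent K v ∧ S ⊆ G2b_cl K Y ∧ FF (G2b_cl K Y) 1 := by
  classical
  set M := AlgebraicIndependent.matroid K F with hM
  obtain ⟨B₀, hB₀⟩ := M.exists_isBasis S
  have hcl : M.closure B₀ = M.closure S := hB₀.closure_eq_closure
  have hx0 : x₀ ∉ M.closure B₀ := by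
    rw [hcl, hM, ← G2b_matroid]
    exact hx
  have hins := (hB₀.indep.notMem_closure_iff (by rw [hM]; exact Set.mem_univ x₀)).1 hx0
  obtain ⟨B, hB, hsub⟩ := hins.1.exists_isBase_superset
  have hxB : x₀ ∈ B := hsub (Set.mem_insert _ _)
  have hB0B : B₀ ⊆ B \ {x₀} := fun y hy =>
    ⟨hsub (Set.mem_insert_of_mem _ hy), fun h => hins.2 (by
      rw [Set.mem_singleton_iff] at h
      rw [← h]
      exact hy)⟩
  have htb : IsTranscendenceBasis K ((↑) : B → F) := AlgebraicIndependent.matroid_isBase_iff.1 hB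
  have hcard : Cardinal.mk B = (m : Cardinal) := htb.cardinalMk_eq_trdeg.trans hF.2
  have hfin : Finite B := Cardinal.mk_lt_aleph0_iff.1 (by rw [hcard]; exact Cardinal.natCast_lt_aleph0)
  have hnc : Nat.card B = m := by
    rw [← Cardinal.toNat_natCast m, ← hcard]
    rfl
  have henc : B.encard = (m : ℕ∞) := by
    have h1 : B.Finite := Set.toFinite B
    rw [← h1.cast_ncard_eq, ← Nat.card_coe_set_eq, hnc]
  let e : Fin m ≃ B := (Finite.equivFinOfCardEq hnc).symm
  have hxY : x₀ ∉ M.closure (B \ {x₀}) := hB.indep.notMem_closure_sdiff_of_mem hxB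
  have hxY' : x₀ ∉ G2b_cl K (B \ {x₀}) := by
    intro h
    apply hxY
    rw [hM, ← G2b_matroid]
    exact h
  have hS : S ⊆ G2b_cl K (B \ {x₀}) := by
    rw [G2b_matroid]
    exact (M.subset_closure S (by rw [hM]; exact Set.subset_univ _)).trans
      (hcl ▸ M.closure_subset_closure hB0B)
  refine ⟨B \ {x₀}, fun i => (e i : F), ?_, htb.1.comp e e.injective, hS, ?_, ?_⟩
  · rw [Set.encard_sdiff_singleton_add_one hxB, henc]
  · obtain ⟨s, hs⟩ := hF.1
    refine ⟨s, ?_⟩
    rw [eq_top_iff]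
    intro y _
    have h1 : y ∈ IntermediateField.adjoin K (s : Set F) := by
      rw [hs]
      exact IntermediateField.mem_top
    have h2 : Subfield.closure (Set.range (algebraMap K F) ∪ (s : Set F)) ≤
        (IntermediateField.adjoin (G2b_cl K (B \ {x₀})) (s : Set F)).toSubfield := by
      rw [Subfield.closure_le]
      rintro z (⟨w, rfl⟩ | hz)
      · exact IntermediateField.algebraMap_mem _
          (⟨algebraMap K F w, G2b_base w⟩ : G2b_cl K (B \ {x₀}))
      · exact IntermediateField.subset_adjoin _ _ hz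
    exact h2 h1
  · have htr : Transcendental (G2b_cl K (B \ {x₀})) x₀ := fun h => hxY' (G2b_trans le_rfl h)
    have hind : AlgebraicIndependent (G2b_cl K (B \ {x₀})) (fun _ : Unit => x₀) :=
      algebraicIndependent_unique_type_iff.2 htr
    have hle : (IntermediateField.adjoin K B).toSubfield ≤ G2b_cl (G2b_cl K (B \ {x₀})) {x₀} := by
      show Subfield.closure (Set.range (algebraMap K F) ∪ B) ≤ _
      rw [Subfield.closure_le]
      rintro z (⟨w, rfl⟩ | hz)
      · exact G2b_base (R := G2b_cl K (B \ {x₀})) ⟨algebraMap K F w, G2b_base w⟩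
      · by_cases hzx : z = x₀
        · exact G2b_subset hzx
        · exact G2b_base (R := G2b_cl K (B \ {x₀})) ⟨z, G2b_subset ⟨hz, hzx⟩⟩
    have hall : ∀ y : F, y ∈ G2b_cl (G2b_cl K (B \ {x₀})) {x₀} := by
      intro y
      refine G2b_trans hle ?_
      have h1 : y ∈ G2b_cl K B := by
        have h2 : y ∈ M.closure B := by
          rw [hB.closure_eq, hM]
          exact Set.mem_univ y
        rw [hM, ← G2b_matroid] at h2
        exact h2
      exact G2b_mem.1 h1
    have hb : IsTranscendenceBasis (G2b_cl K (B \ {x₀})) (fun _ : Unit => x₀) := by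
      rw [isTranscendenceBasis_iff_algebraicIndependent_isAlgebraic]
      refine ⟨hind, ⟨fun y => ?_⟩⟩
      have h1 : Set.range (fun _ : Unit => x₀) = {x₀} := Set.range_const
      rw [h1]
      exact G2b_adj.2 (hall y)
    have h1 := hb.cardinalMk_eq_trdeg
    rw [← h1]
    simp

/-- Membership of the transformed coefficients in a subfield. -/
private theorem G2b_act {A : Type} [Field A] {D : ℕ} {C : Subfield A} {g : Matrix (Fin 2) (Fin 2) A}
    {c : Fin (D + 1) → A} (hg : ∀ a b, g a b ∈ C) (hc : ∀ j, c j ∈ C) (j : Fin (D + 1)) :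
    act g c j ∈ C := by
  have h := act_map C.subtype (fun a b => (⟨g a b, hg a b⟩ : C)) (fun j => (⟨c j, hc j⟩ : C)) j
  have h1 : act g c j = C.subtype (act (fun a b => (⟨g a b, hg a b⟩ : C)) (fun j => (⟨c j, hc j⟩ : C)) j) :=
    h.symm
  rw [h1]
  exact SetLike.coe_mem _

private theorem G2b_scale {A : Type} [Field A] [Infinite A] {D : ℕ} (t : A)
    (g : Matrix (Fin 2) (Fin 2) A) (c : Fin (D + 1) → A) :
    act (t • g) c = fun j => t ^ D * act g c j := by
  refine ev_ext fun x => ?_
  rw [ev_act, ev_smul, ev_act, ← ev_scale, Matrix.smul_mulVec]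
  rfl

theorem gen_ratios {k F : Type} [Field k] [CharZero k] [Field F] [CharZero F] {n d r m : ℕ}
    {I : Ideal (MvPolynomial (Fin (n + 1) × Fin (d + 1 + 1)) k)} {φ : k →+* F} (hI : Fam r I)
    (D : Dat I φ) (hF : FF φ.fieldRange m) (hE : Eff φ D.c) (x : F) :
    IsAlgebraic (Subfield.closure ((φ.fieldRange : Set F) ∪
      {y | ∃ l i j, D.pt (D.p l) j ≠ 0 ∧ y = D.pt (D.p l) i / D.pt (D.p l) j})) x := by
  classical
  set S : Set F := {y | ∃ l i j, D.pt (D.p l) j ≠ 0 ∧ y = D.pt (D.p l) i / D.pt (D.p l) j} with hS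
  by_contra hx
  have hx0 : x ∉ G2b_cl φ.fieldRange S := by
    intro h
    apply hx
    refine G2b_mono (K₁ := (IntermediateField.adjoin φ.fieldRange S).toSubfield) ?_ (G2b_mem.1 h)
    show Subfield.closure (Set.range (algebraMap φ.fieldRange F) ∪ S) ≤ _
    rw [Subfield.closure_le]
    rintro z (⟨w, rfl⟩ | hz)
    · exact Subfield.subset_closure (Or.inl w.2)
    · exact Subfield.subset_closure (Or.inr hz)
  obtain ⟨Y, v, hY, hv, hSY, hFF⟩ := G2b_kappa hF hx0
  have hφκ : ∀ a, φ a ∈ G2b_cl φ.fieldRange Y := fun a =>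
    G2b_base (R := φ.fieldRange) ⟨φ a, a, rfl⟩
  have hcon : ∀ l, Con (G2b_cl φ.fieldRange Y) (D.pt (D.p l)) := fun l i j hj =>
    isAlgebraic_algebraMap (⟨D.pt (D.p l) i / D.pt (D.p l) j, hSY ⟨l, i, j, hj, rfl⟩⟩ :
      G2b_cl φ.fieldRange Y)
  obtain ⟨E, fE, aE, dE, g, μ, hg, hμ, hE'⟩ := isotriv hI hφκ hFF D hcon
  -- the big field
  let Ω : Type := AlgebraicClosure (GF F (Fin 2 × Fin 2))
  let ψ : E →ₐ[F] Ω := IsAlgClosed.lift
  let θ : GF F (Fin 2 × Fin 2) →+* Ω := algebraMap _ _
  have hθ : ∀ y : F, θ (algebraMap F (GF F (Fin 2 × Fin 2)) y) = algebraMap F Ω y := fun y =>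
    (IsScalarTower.algebraMap_apply F (GF F (Fin 2 × Fin 2)) Ω y).symm
  have hinf : Infinite Ω := IsAlgClosed.instInfinite
  let c' : Fin (n + 1) → Fin (d + 1 + 1) → Ω := fun i j => algebraMap F Ω (D.c i j)
  let G : Matrix (Fin 2) (Fin 2) Ω := (gmat F).map θ
  let g' : Matrix (Fin 2) (Fin 2) Ω := g.map (ψ : E →+* Ω)
  let ee : Fin (n + 1) → Fin (d + 1 + 1) → Ω := fun i j =>
    ψ (μ * act g (fun j => algebraMap F E (D.c i j)) j)
  have hee : ∀ i, ee i = fun j => ψ μ * act g' (c' i) j := by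
    intro i
    funext j
    show ψ (μ * act g (fun j => algebraMap F E (D.c i j)) j) = ψ μ * act g' (c' i) j
    rw [map_mul]
    have h1 := act_map (ψ : E →+* Ω) g (fun j => algebraMap F E (D.c i j)) j
    have h2 : (fun j => (ψ : E →+* Ω) (algebraMap F E (D.c i j))) = c' i :=
      funext fun j => ψ.commutes _
    rw [h2] at h1
    exact congrArg _ h1
  have hgt : ∀ q, θ (gt D.c q) = act G (c' q.1) q.2 := by
    intro q
    have h1 := act_map θ (gmat F) (fun j => algebraMap F (GF F (Fin 2 × Fin 2)) (D.c q.1 j)) q.2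
    have h2 : (fun j => θ (algebraMap F (GF F (Fin 2 × Fin 2)) (D.c q.1 j))) = c' q.1 :=
      funext fun j => hθ _
    rw [h2] at h1
    exact h1
  have hμ' : ψ μ ≠ 0 := fun h => hμ ((map_eq_zero ψ).1 h)
  have hdet : g'.det ≠ 0 := by
    have h1 : g'.det = (ψ : E →+* Ω) g.det := ((ψ : E →+* Ω).map_det g).symm
    rw [h1]
    exact fun h => hg ((map_eq_zero (ψ : E →+* Ω)).1 h)
  obtain ⟨t, ht⟩ := IsAlgClosed.exists_pow_nat_eq (ψ μ)⁻¹ (Nat.succ_pos d)
  have hact : ∀ i, act G (c' i) = act (t • (g'⁻¹ * G)) (ee i) := by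
    intro i
    rw [G2b_scale, hee, act_smul, act_act, ← mul_assoc, Matrix.mul_nonsing_inv _ hdet.isUnit, one_mul]
    funext j
    have h1 : t ^ (d + 1) * ψ μ = 1 := by
      rw [ht, inv_mul_cancel₀ hμ']
    rw [← mul_assoc, h1, one_mul]
  -- the finite set
  let Z : Set Ω := (algebraMap F Ω) '' Y ∪
    Set.range (fun q : Fin 2 × Fin 2 => (t • (g'⁻¹ * G)) q.1 q.2)
  have hm : 1 ≤ m := by
    have h1 : (1 : ℕ∞) ≤ (m : ℕ∞) := le_trans le_add_self hY
    exact_mod_cast h1
  have hYm : Y.encard ≤ ((m - 1 : ℕ) : ℕ∞) := by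
    have h1 : Y.encard + 1 ≤ ((m - 1 : ℕ) : ℕ∞) + 1 := by
      have h2 : (((m - 1 : ℕ) : ℕ∞) + 1) = (m : ℕ∞) := by
        exact_mod_cast Nat.sub_add_cancel hm
      rw [h2]
      exact hY
    exact (ENat.add_le_add_iff_right ENat.one_ne_top).1 h1
  have hZ : Z.encard ≤ ((m - 1 + 4 : ℕ) : ℕ∞) := by
    refine (Set.encard_union_le _ _).trans ?_
    rw [Nat.cast_add]
    refine add_le_add ((Set.encard_image_le _ _).trans hYm) ?_
    rw [← Set.image_univ]
    refine (Set.encard_image_le _ _).trans ?_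
    rw [Set.encard_univ, ENat.card_eq_coe_fintype_card]
    simp
  have hMC : ∀ a b, (t • (g'⁻¹ * G)) a b ∈ G2b_cl φ.fieldRange Z := fun a b =>
    G2b_subset (Or.inr ⟨(a, b), rfl⟩)
  have hκC : ∀ y ∈ G2b_cl φ.fieldRange Y, algebraMap F Ω y ∈ G2b_cl φ.fieldRange Z := by
    intro y hy
    refine G2b_trans ?_ (G2b_map (algebraMap F Ω)
      (K := (IntermediateField.adjoin φ.fieldRange Y).toSubfield) (G2b_mem.1 hy))
    show (Subfield.closure (Set.range (algebraMap φ.fieldRange F) ∪ Y)).map _ ≤ _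
    rw [RingHom.map_field_closure, Subfield.closure_le]
    rintro _ ⟨z, ⟨w, rfl⟩ | hz, rfl⟩
    · exact G2b_base (R := φ.fieldRange) (A := Ω) w
    · exact G2b_subset (Or.inl ⟨z, hz, rfl⟩)
  have heC : ∀ i j, ee i j ∈ G2b_cl φ.fieldRange Z := by
    intro i j
    refine G2b_trans ?_ (G2b_map (ψ : E →+* Ω) (hE' i j))
    rintro _ ⟨_, ⟨y, hy, rfl⟩, rfl⟩
    have h1 : (ψ : E →+* Ω) (algebraMap F E y) = algebraMap F Ω y := ψ.commutes y
    rw [h1]
    exact hκC y hy
  have hall : ∀ y : GF F (Fin 2 × Fin 2), θ y ∈ G2b_cl φ.fieldRange Z := by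
    intro y
    refine G2b_trans ?_ (G2b_map θ (hE y))
    rw [RingHom.map_field_closure, Subfield.closure_le]
    rintro _ ⟨_, ⟨w, rfl⟩ | ⟨q, rfl⟩, rfl⟩
    · have h1 : θ (((algebraMap F (GF F (Fin 2 × Fin 2))).comp φ) w) = algebraMap F Ω (φ w) := hθ _
      rw [h1]
      exact G2b_base (R := φ.fieldRange) (A := Ω) ⟨φ w, w, rfl⟩
    · rw [hgt, hact]
      exact G2b_act hMC (heC q.1) q.2
  -- the independent family
  have hgc : AlgebraicIndependent F (fun q : Fin 2 × Fin 2 => θ (gc F (Fin 2 × Fin 2) q)) :=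
    (gn_gc F (Fin 2 × Fin 2)).1.map' (f := IsScalarTower.toAlgHom F (GF F (Fin 2 × Fin 2)) Ω)
      (RingHom.injective _)
  have hind := hv.sumElim_comp hgc
  have hcard := G2b_card hind hZ (by
    rintro (q | i)
    · exact hall _
    · show algebraMap F Ω (v i) ∈ _
      rw [← hθ]
      exact hall _)
  rw [Fintype.card_sum, Fintype.card_prod, Fintype.card_fin, Fintype.card_fin] at hcard
  omega

end Pool.Agent.Lib.MP_1e3e9c_agU
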