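import Mathlib
import Pool.Agent.Lib.MP_1e3e9c_agU.C5d

/-!
# MP_1e3e9c_ag, project U, leaf G2c: a list of independent points

Induction on `m`, for all `F`, `K`. `m = 0`: `l = []`, `XX K [] = [F : K] > 0` (`XX_nil`, `FF_zero_pos`).
`m + 1`: if all `Con K (z l)` the field in `hx` is algebraic over `K`, so `F` is, but the transcendence
degree is `m + 1`: so some `z l₀` is not constant. `Ω = GF F (Unit × Bool × ι)`, `C = gc F _`,
`κ = cb K C (fun _ => z l₀) univ`: `FF κ m` (`cut_dich`). All elements of `Ω = F(C)` are algebraic over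
the field generated by `κ` and the ratios of the `up Ω (z l)` (`hx`, and `C ∈ κ`). By induction there is
`l'` of length `m` with `0 < XX κ (l'.map (up Ω ∘ z)) = XX K (l'.map z ++ [z l₀])` (`XX_tower` with
`s = [()]`). Take `l = l' ++ [l₀]`.
-/

set_option autoImplicit false

namespace Pool.Agent.Lib.MP_1e3e9c_agU

open IsLocalRing Pool.Agent.Lib.MP_b197b4_ntK

/-- Elements algebraic over a field generated by algebraic elements. -/
private theorem G2c_con {ι σ : Type} {F : Type} [Field F] (K : Subfield F) (z : σ → ι → F)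
    (hc : ∀ l, Con K (z l))
    (hx : ∀ x : F, IsAlgebraic (Subfield.closure ((K : Set F) ∪
      {y | ∃ l i j, z l j ≠ 0 ∧ y = z l i / z l j})) x) : Algebra.IsAlgebraic K F := by
  have hle : Subfield.closure ((K : Set F) ∪ {y | ∃ l i j, z l j ≠ 0 ∧ y = z l i / z l j}) ≤
      (algebraicClosure K F).toSubfield := by
    rw [Subfield.closure_le]
    rintro y (hy | ⟨l, i, j, hj, rfl⟩)
    · exact (algebraicClosure K F).algebraMap_mem ⟨y, hy⟩
    · exact (mem_algebraicClosure_iff (F := K) (E := F)).2 (hc l i j hj)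
  have h1 : ∀ x : F, IsAlgebraic (algebraicClosure K F) x := by
    intro x
    obtain ⟨p, hp, hpx⟩ := hx x
    let f : Subfield.closure ((K : Set F) ∪ {y | ∃ l i j, z l j ≠ 0 ∧ y = z l i / z l j}) →+*
        algebraicClosure K F := Subfield.inclusion hle
    refine ⟨p.map f, (Polynomial.map_ne_zero_iff f.injective).2 hp, ?_⟩
    rw [Polynomial.aeval_def, Polynomial.eval₂_map]
    exact hpx
  have : Algebra.IsAlgebraic (algebraicClosure K F) F := ⟨h1⟩
  exact Algebra.IsAlgebraic.trans K (algebraicClosure K F) F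

/-- The algebraic elements over `M'` form everything. -/
private theorem G2c_alg {ι σ : Type} [Fintype ι] {F : Type} [Field F] (K : Subfield F) (z : σ → ι → F)
    (hx : ∀ x : F, IsAlgebraic (Subfield.closure ((K : Set F) ∪
      {y | ∃ l i j, z l j ≠ 0 ∧ y = z l i / z l j})) x) {Ω : Type} [Field Ω] [Algebra F Ω]
    {C : Unit × Bool × ι → Ω} (hC : Gn F C) (β : Unit → ι → F) (x : Ω) :
    IsAlgebraic (Subfield.closure ((cb K C β Set.univ : Set Ω) ∪
      {y | ∃ l i j, up Ω (z l) j ≠ 0 ∧ y = up Ω (z l) i / up Ω (z l) j})) x := by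
  set M' : Subfield Ω := Subfield.closure ((cb K C β Set.univ : Set Ω) ∪
      {y | ∃ l i j, up Ω (z l) j ≠ 0 ∧ y = up Ω (z l) i / up Ω (z l) j}) with hM'
  have hsub : (cb K C β Set.univ : Set Ω) ⊆ M' := fun y hy =>
    Subfield.subset_closure (Or.inl hy)
  have hK : ∀ y ∈ K, algebraMap F Ω y ∈ M' := fun y hy =>
    hsub (Subfield.subset_closure (Or.inl (Or.inl ⟨y, hy, rfl⟩)))
  have hCm : ∀ q, C q ∈ M' := fun q =>
    hsub (Subfield.subset_closure (Or.inl (Or.inr ⟨q, rfl⟩)))
  have hle : Subfield.closure ((K : Set F) ∪ {y | ∃ l i j, z l j ≠ 0 ∧ y = z l i / z l j}) ≤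
      M'.comap (algebraMap F Ω) := by
    rw [Subfield.closure_le]
    rintro y (hy | ⟨l, i, j, hj, rfl⟩)
    · exact hK y hy
    · change algebraMap F Ω (z l i / z l j) ∈ M'
      rw [map_div₀]
      exact Subfield.subset_closure (Or.inr ⟨l, i, j, fun h => hj ((map_eq_zero (algebraMap F Ω)).1 h), rfl⟩)
  have hF : ∀ y : F, IsAlgebraic M' (algebraMap F Ω y) := by
    intro y
    obtain ⟨p, hp, hpx⟩ := hx y
    let f : Subfield.closure ((K : Set F) ∪ {y | ∃ l i j, z l j ≠ 0 ∧ y = z l i / z l j}) →+* M' :=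
      { toFun := fun a => ⟨algebraMap F Ω a, hle a.2⟩
        map_one' := Subtype.ext (map_one _)
        map_mul' := fun a b => Subtype.ext (map_mul (algebraMap F Ω) (a : F) (b : F))
        map_zero' := Subtype.ext (map_zero _)
        map_add' := fun a b => Subtype.ext (map_add (algebraMap F Ω) (a : F) (b : F)) }
    refine ⟨p.map f, (Polynomial.map_ne_zero_iff f.injective).2 hp, ?_⟩
    rw [Polynomial.aeval_def, Polynomial.eval₂_map]
    have h2 : (algebraMap M' Ω).comp f = (algebraMap F Ω).comp (algebraMap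
        (Subfield.closure ((K : Set F) ∪ {y | ∃ l i j, z l j ≠ 0 ∧ y = z l i / z l j})) F) := rfl
    rw [h2, ← Polynomial.hom_eval₂, ← Polynomial.aeval_def, hpx, map_zero]
  have htop : (IntermediateField.adjoin F (Set.range C)).toSubfield ≤
      (algebraicClosure M' Ω).toSubfield := by
    change Subfield.closure (Set.range (algebraMap F Ω) ∪ Set.range C) ≤ _
    rw [Subfield.closure_le]
    rintro y (⟨a, rfl⟩ | ⟨q, rfl⟩)
    · exact (mem_algebraicClosure_iff (F := M') (E := Ω)).2 (hF a)
    · exact (algebraicClosure M' Ω).algebraMap_mem ⟨C q, hCm q⟩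
  have hx' : x ∈ (IntermediateField.adjoin F (Set.range C)).toSubfield := by
    rw [hC.2]
    exact (IntermediateField.mem_top : x ∈ (⊤ : IntermediateField F Ω))
  exact (mem_algebraicClosure_iff (F := M') (E := Ω)).1 (htop hx')

theorem exists_list {ι σ : Type} [Fintype ι] (m : ℕ) (F : Type) [Field F] [CharZero F]
    (K : Subfield F) (hF : FF K m) (z : σ → ι → F) (hz : ∀ l, z l ≠ 0)
    (hx : ∀ x : F, IsAlgebraic (Subfield.closure ((K : Set F) ∪
      {y | ∃ l i j, z l j ≠ 0 ∧ y = z l i / z l j})) x) :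
    ∃ l : List σ, l.length = m ∧ 0 < XX K (l.map z) := by
  induction m generalizing F with
  | zero =>
    refine ⟨[], rfl, ?_⟩
    rw [List.map_nil, XX_nil]
    exact FF_zero_pos hF
  | succ m ih =>
    obtain ⟨l₀, hl₀⟩ : ∃ l₀, ¬ Con K (z l₀) := by
      by_contra hcon
      push Not at hcon
      have h1 : Algebra.IsAlgebraic K F := G2c_con K z hcon hx
      have h2 : Algebra.trdeg K F = 0 := trdeg_eq_zero
      have h3 := hF.2
      rw [h2] at h3
      exact absurd (Nat.cast_injective (h3.symm.trans Nat.cast_zero.symm)) (Nat.succ_ne_zero m)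
    have hC : Gn F (gc F (Unit × Bool × ι)) := gn_gc F _
    have hκ : FF (cb K (gc F (Unit × Bool × ι)) (fun _ => z l₀) Set.univ) m :=
      (cut_dich hF hC (hz l₀)).resolve_left hl₀
    have hc0 : CharZero (GF F (Unit × Bool × ι)) :=
      charZero_of_injective_algebraMap (algebraMap F (GF F (Unit × Bool × ι))).injective
    obtain ⟨l', hl', hpos⟩ := ih (GF F (Unit × Bool × ι)) _ hκ
      (fun l => up (GF F (Unit × Bool × ι)) (z l)) (fun l h => hz l (by
        funext i
        exact (map_eq_zero (algebraMap F (GF F (Unit × Bool × ι)))).1 (congrFun h i)))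
      (fun x => G2c_alg K z hx hC (fun _ => z l₀) x)
    refine ⟨l' ++ [l₀], by rw [List.length_append, hl', List.length_singleton], ?_⟩
    have h4 := XX_tower K hC (fun _ => z l₀) [()] (List.nodup_singleton _) (l'.map z)
    have h5 : {i : Unit | i ∈ [()]} = Set.univ := Set.eq_univ_of_forall fun i => by simp
    rw [h5, List.map_map] at h4
    rw [List.map_append]
    have h6 : XX K (l'.map z ++ [l₀].map z) = XX K (l'.map z ++ [()].map (fun _ => z l₀)) := rfl
    rw [h6, ← h4]
    exact hpos

end Pool.Agent.Lib.MP_1e3e9c_agU
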