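import Mathlib
import Pool.Agent.Lib.MP_1e3e9c_agU.C10
import Pool.Agent.Lib.MP_1e3e9c_agU.E2

/-!
# MP_1e3e9c_ag, project U, leaf E3: contact numbers and mixed degrees; independence of kap

`dd_XR`: linear combination of `XX_ht_sum` (for `zz q`, `zz q'`, `zz (p m)`; `al_zz`) and `XR_prod`
(for `wd q q'` and `e`), with the supports finite (`XR_fin`).
`kap_indep`: if `wd q q' = 0` the points are equal (`XX_pr`). Otherwise `dd_XR` for the lists
`zz q :: l` and `zz q' :: l`. The left sides are equal: where `dd v q q' ≠ 0` (so `> 0`, `dd_nonneg`)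
the reductions of `zz q` and `zz q'` are equal (`pr_of_dd_pos`, `pr_rd_zz`) and so are the two
`XR K v` (`XX_pr`). The right sides are `-kap q + (d+1) XX (zz q' :: zz q :: l)` and
`-kap q' + (d+1) XX (zz q :: zz q' :: l)` (`XX_perm`).
-/

set_option autoImplicit false

namespace Pool.Agent.Lib.MP_1e3e9c_agU

open IsLocalRing Pool.Agent.Lib.MP_b197b4_ntK

private lemma E3_fs {α : Type} {P : α → Prop} (T : Finset α) (hT : ∀ v ∈ T, P v) (f : α → ℤ)
    (hf : ∀ v, P v → f v ≠ 0 → v ∈ T) : ∑ᶠ (v : α) (_ : P v), f v = ∑ v ∈ T, f v := by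
  refine finsum_mem_eq_sum_of_inter_support_eq f (s := {v | P v}) (t := T) ?_
  ext v
  constructor
  · rintro ⟨h1, h2⟩
    exact ⟨hf v h1 h2, h2⟩
  · rintro ⟨h1, h2⟩
    exact ⟨hT v h1, h2⟩

variable {k F : Type} [Field k] [CharZero k] [Field F] [CharZero F] {n d r : ℕ}
  {I : Ideal (MvPolynomial (Fin (n + 1) × Fin (d + 1 + 1)) k)} {φ : k →+* F} {K : Subfield F}

private lemma E3_alfin {F ι : Type} [Field F] [CharZero F] [Fintype ι] {K : Subfield F}
    {κ : Type} [Fintype κ] (l : List (κ → F)) (hl : ∀ w ∈ l, w ≠ 0)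
    (hF : FF K (l.length + 1)) {z : ι → F} (hz : z ≠ 0) :
    {v : ValuationSubring F | Dv K v ∧ (XR K v l : ℤ) * al v z ≠ 0}.Finite := by
  have h1 : (⋃ j : ι, {v : ValuationSubring F | z j ≠ 0 ∧ Dv K v ∧
      (XR K v l : ℤ) * ord v (z j) ≠ 0}).Finite := by
    refine Set.finite_iUnion fun j => ?_
    by_cases hj : z j = 0
    · refine Set.Finite.subset (Set.finite_empty) ?_
      rintro v ⟨h, _⟩
      exact (h hj).elim
    · refine Set.Finite.subset (XR_fin l hl hF hj) ?_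
      rintro v ⟨_, h⟩
      exact h
  refine h1.subset ?_
  rintro v ⟨hv, h⟩
  obtain ⟨j, hj, hj'⟩ := exists_al (V := v) hz
  rw [← hj'] at h
  exact Set.mem_iUnion.2 ⟨j, hj, hv, h⟩

theorem dd_XR (D : Dat I φ) (l : List ((Fin (d + 1) → Fin (n + 1)) → F)) (hl : ∀ w ∈ l, w ≠ 0)
    (hF : FF K (l.length + 1)) {q q' : Fin 2 → F} (hq : q ≠ 0) (hq' : q' ≠ 0)
    (h : wd q q' ≠ 0) :
    ∑ᶠ (v : ValuationSubring F) (_ : Dv K v), (XR K v l : ℤ) * D.dd v q q' =
      ((d : ℤ) + 1) * ((XX K (D.zz q :: l) : ℤ) + XX K (D.zz q' :: l)) -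
        ∑ m, (XX K (D.zz (D.p m) :: l) : ℤ) := by
  classical
  have f1 := XR_fin l hl hF h
  have f2 := XR_fin l hl hF D.ene
  have f3 := E3_alfin (K := K) l hl hF (pt_ne D hq)
  have f4 := E3_alfin (K := K) l hl hF (pt_ne D hq')
  have f5 : (⋃ m : Fin (d + 1), {v : ValuationSubring F | Dv K v ∧
      (XR K v l : ℤ) * al v (D.pt (D.p m)) ≠ 0}).Finite :=
    Set.finite_iUnion fun m => E3_alfin (K := K) l hl hF (pt_ne D (D.pne m))
  let T : Finset (ValuationSubring F) :=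
    f1.toFinset ∪ f2.toFinset ∪ f3.toFinset ∪ f4.toFinset ∪ f5.toFinset
  have hT : ∀ v ∈ T, Dv K v := by
    intro v hv
    simp only [T, Finset.mem_union, Set.Finite.mem_toFinset, Set.mem_iUnion, Set.mem_ofPred_eq] at hv
    rcases hv with (((hv | hv) | hv) | hv) | ⟨m, hv⟩
    · exact hv.1
    · exact hv.1
    · exact hv.1
    · exact hv.1
    · exact hv.1
  have s1 : ∑ v ∈ T, (XR K v l : ℤ) * ord v (wd q q') = 0 := by
    rw [← E3_fs T hT (fun v => (XR K v l : ℤ) * ord v (wd q q')) fun v hv hn => ?_]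
    · exact XR_prod l hl hF h
    · simp only [T, Finset.mem_union, Set.Finite.mem_toFinset]
      exact Or.inl (Or.inl (Or.inl (Or.inl ⟨hv, hn⟩)))
  have s2 : ∑ v ∈ T, (XR K v l : ℤ) * ord v D.e = 0 := by
    rw [← E3_fs T hT (fun v => (XR K v l : ℤ) * ord v D.e) fun v hv hn => ?_]
    · exact XR_prod l hl hF D.ene
    · simp only [T, Finset.mem_union, Set.Finite.mem_toFinset]
      exact Or.inl (Or.inl (Or.inl (Or.inr ⟨hv, hn⟩)))
  have s3 : (XX K (D.zz q :: l) : ℤ) = -∑ v ∈ T, (XR K v l : ℤ) * al v (D.pt q) := by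
    rw [XX_ht_sum l hl hF (zz_ne D hq)]
    simp only [al_zz]
    rw [E3_fs T hT (fun v => (XR K v l : ℤ) * al v (D.pt q)) fun v hv hn => ?_]
    simp only [T, Finset.mem_union, Set.Finite.mem_toFinset]
    exact Or.inl (Or.inl (Or.inr ⟨hv, hn⟩))
  have s4 : (XX K (D.zz q' :: l) : ℤ) = -∑ v ∈ T, (XR K v l : ℤ) * al v (D.pt q') := by
    rw [XX_ht_sum l hl hF (zz_ne D hq')]
    simp only [al_zz]
    rw [E3_fs T hT (fun v => (XR K v l : ℤ) * al v (D.pt q')) fun v hv hn => ?_]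
    simp only [T, Finset.mem_union, Set.Finite.mem_toFinset]
    exact Or.inl (Or.inr ⟨hv, hn⟩)
  have s5 : ∀ m, (XX K (D.zz (D.p m) :: l) : ℤ) =
      -∑ v ∈ T, (XR K v l : ℤ) * al v (D.pt (D.p m)) := by
    intro m
    rw [XX_ht_sum l hl hF (zz_ne D (D.pne m))]
    simp only [al_zz]
    rw [E3_fs T hT (fun v => (XR K v l : ℤ) * al v (D.pt (D.p m))) fun v hv hn => ?_]
    simp only [T, Finset.mem_union, Set.Finite.mem_toFinset]
    exact Or.inr (Set.mem_iUnion.2 ⟨m, hv, hn⟩)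
  have e0 : ∀ v, (XR K v l : ℤ) * D.dd v q q' =
      ((d : ℤ) + 1) ^ 2 * ((XR K v l : ℤ) * ord v (wd q q')) -
        ((d : ℤ) + 1) * ((XR K v l : ℤ) * al v (D.pt q)) -
        ((d : ℤ) + 1) * ((XR K v l : ℤ) * al v (D.pt q')) +
        ((d : ℤ) + 1) * ((XR K v l : ℤ) * ord v D.e) +
        ∑ m, (XR K v l : ℤ) * al v (D.pt (D.p m)) := by
    intro v
    rw [← Finset.mul_sum]
    unfold Dat.dd Dat.nu
    ring
  have s0 : ∑ᶠ (v : ValuationSubring F) (_ : Dv K v), (XR K v l : ℤ) * D.dd v q q' =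
      ∑ v ∈ T, (XR K v l : ℤ) * D.dd v q q' := by
    refine E3_fs T hT _ fun v hv hn => ?_
    by_contra hc
    simp only [T, Finset.mem_union, Set.Finite.mem_toFinset, Set.mem_iUnion, Set.mem_ofPred_eq, not_or,
      not_exists, not_and, not_not] at hc
    obtain ⟨⟨⟨⟨c1, c2⟩, c3⟩, c4⟩, c5⟩ := hc
    apply hn
    rw [e0, c1 hv, c2 hv, c3 hv, c4 hv, Finset.sum_eq_zero fun m _ => c5 m hv]
    ring
  rw [s0, Finset.sum_congr rfl fun v _ => e0 v, Finset.sum_add_distrib, Finset.sum_add_distrib,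
    Finset.sum_sub_distrib, Finset.sum_sub_distrib, ← Finset.mul_sum, ← Finset.mul_sum,
    ← Finset.mul_sum, ← Finset.mul_sum, s1, s2, s3, s4, Finset.sum_congr rfl fun m _ => s5 m,
    Finset.sum_neg_distrib, Finset.sum_comm]
  ring

private lemma E3_XR {ι : Type} [Fintype ι] {v : ValuationSubring F} {z z' : ι → F}
    (h : Pr (rd v z) (rd v z')) (l : List (ι → F)) : XR K v (z :: l) = XR K v (z' :: l) := by
  unfold XR
  rw [List.map_cons, List.map_cons, List.length_cons, List.length_cons,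
    XX_pr (resS K v) (List.Forall₂.cons h (List.forall₂_same.2 fun w _ => Pr.refl w))]

theorem kap_indep (hI : Fam r I) (hφ : ∀ a, φ a ∈ K) (D : Dat I φ)
    (l : List ((Fin (d + 1) → Fin (n + 1)) → F)) (hl : ∀ w ∈ l, w ≠ 0)
    (hF : FF K (l.length + 2)) {q q' : Fin 2 → F} (hq : q ≠ 0) (hq' : q' ≠ 0) :
    D.kap K l q = D.kap K l q' := by
  by_cases h : wd q q' = 0
  · have h1 : Pr (D.zz q) (D.zz q') := pr_zz_of_pt D (pr_pt_of_wd D hq hq' h)
    have h2 : ∀ l : List ((Fin (d + 1) → Fin (n + 1)) → F), List.Forall₂ Pr l l := fun l =>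
      List.forall₂_same.2 fun w _ => Pr.refl w
    have h3 : ∀ m, XX K (D.zz q :: D.zz (D.p m) :: l) = XX K (D.zz q' :: D.zz (D.p m) :: l) :=
      fun m => XX_pr K (List.Forall₂.cons h1 (h2 (D.zz (D.p m) :: l)))
    have h4 : XX K (D.zz q :: D.zz q :: l) = XX K (D.zz q' :: D.zz q' :: l) :=
      XX_pr K (List.Forall₂.cons h1 (List.Forall₂.cons h1 (h2 l)))
    unfold Dat.kap
    rw [h4, Finset.sum_congr rfl fun m _ => by rw [h3 m]]
  · have hl1 : ∀ w ∈ D.zz q :: l, w ≠ 0 := by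
      intro w hw
      rcases List.mem_cons.1 hw with hw | hw
      · rw [hw]
        exact zz_ne D hq
      · exact hl w hw
    have hl2 : ∀ w ∈ D.zz q' :: l, w ≠ 0 := by
      intro w hw
      rcases List.mem_cons.1 hw with hw | hw
      · rw [hw]
        exact zz_ne D hq'
      · exact hl w hw
    have d1 := dd_XR D (D.zz q :: l) hl1 hF hq hq' h
    have d2 := dd_XR D (D.zz q' :: l) hl2 hF hq hq' h
    have d3 : ∑ᶠ (v : ValuationSubring F) (_ : Dv K v), (XR K v (D.zz q :: l) : ℤ) * D.dd v q q' =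
        ∑ᶠ (v : ValuationSubring F) (_ : Dv K v), (XR K v (D.zz q' :: l) : ℤ) * D.dd v q q' := by
      refine finsum_congr fun v => finsum_congr fun hv => ?_
      have hφv : ∀ a, φ a ∈ v := fun a => hv.2 _ (hφ a)
      rcases (dd_nonneg hI D hv.1 hφv h).lt_or_eq with h3 | h3
      · rw [E3_XR (K := K) (pr_rd_zz D hv.1 hq hq' (pr_of_dd_pos hI D hv.1 hφv h h3)) l]
      · rw [← h3, mul_zero, mul_zero]
    rw [d1, d2] at d3
    have p1 : ∀ a b : (Fin (d + 1) → Fin (n + 1)) → F, XX K (a :: b :: l) = XX K (b :: a :: l) :=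
      fun a b => XX_perm K (List.Perm.swap b a l)
    rw [p1 (D.zz q') (D.zz q), Finset.sum_congr rfl fun m _ => by rw [p1 (D.zz (D.p m)) (D.zz q)]] at d3
    have p2 : ∑ m, (XX K (D.zz (D.p m) :: D.zz q' :: l) : ℤ) =
        ∑ m, (XX K (D.zz q' :: D.zz (D.p m) :: l) : ℤ) :=
      Finset.sum_congr rfl fun m _ => by rw [p1 (D.zz (D.p m)) (D.zz q')]
    rw [p2] at d3
    unfold Dat.kap
    linarith

end Pool.Agent.Lib.MP_1e3e9c_agU
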