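import Mathlib
import Pool.Agent.Lib.MP_1e3e9c_agU.C9
import Pool.Agent.Lib.MP_1e3e9c_agU.C10
import Pool.Agent.Lib.MP_1e3e9c_agU.E1

/-!
# MP_1e3e9c_ag, project U, leaf E5: base change of kap, the Segre point

`kap_up`: `XX_up`, `up_zz`. `kap_cut`: `XX_tower`, `up_zz` (`s.map β` at the end of the list; `kap` has
the two points in front). `XX_sg`: `XX_segre` with `z m = pt (p m)`, `z' m = zz (p m)`.
`kap_zero_of_not`: if the cut by `l` does not have two variables all the `XX K (a :: b :: l)` vanish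
(`FF_cb`).
-/

set_option autoImplicit false

namespace Pool.Agent.Lib.MP_1e3e9c_agU

open IsLocalRing Pool.Agent.Lib.MP_b197b4_ntK

variable {k F : Type} [Field k] [Field F] [CharZero F] {n d : ℕ}
  {I : Ideal (MvPolynomial (Fin (n + 1) × Fin (d + 1 + 1)) k)} {φ : k →+* F} {K : Subfield F}

theorem kap_up (D : Dat I φ) (E : Type) [Field E] [Algebra F E] [FiniteDimensional F E]
    (l : List ((Fin (d + 1) → Fin (n + 1)) → F)) (q : Fin 2 → F) :
    (D.up E).kap (upK E K) (l.map (up E)) (fun a => algebraMap F E (q a)) =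
      Module.finrank F E * D.kap K l q := by
  have h1 : ∀ a b : (Fin (d + 1) → Fin (n + 1)) → F,
      (XX (upK E K) (up E a :: up E b :: l.map (up E)) : ℤ) =
        Module.finrank F E * (XX K (a :: b :: l) : ℤ) := by
    intro a b
    have h := XX_up (E := E) K (a :: b :: l)
    rw [List.map_cons, List.map_cons] at h
    rw [h]
    push_cast
    rfl
  have h2 : ∀ m, (D.up E).zz ((D.up E).p m) = up E (D.zz (D.p m)) := fun m => up_zz D E (D.p m)
  unfold Dat.kap
  simp only [h2, up_zz, h1]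
  rw [← Finset.mul_sum]
  ring

theorem kap_cut (D : Dat I φ) {Ω μ : Type} [Field Ω] [Algebra F Ω]
    {C : μ × Bool × (Fin (d + 1) → Fin (n + 1)) → Ω} (hC : Gn F C)
    (β : μ → (Fin (d + 1) → Fin (n + 1)) → F) (s : List μ) (hs : s.Nodup)
    (l : List ((Fin (d + 1) → Fin (n + 1)) → F)) (q : Fin 2 → F) :
    (D.up Ω).kap (cb K C β {i | i ∈ s}) (l.map (up Ω)) (fun a => algebraMap F Ω (q a)) =
      D.kap K (l ++ s.map β) q := by
  have h1 : ∀ a b : (Fin (d + 1) → Fin (n + 1)) → F,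
      (XX (cb K C β {i | i ∈ s}) (up Ω a :: up Ω b :: l.map (up Ω)) : ℤ) =
        (XX K (a :: b :: (l ++ s.map β)) : ℤ) := by
    intro a b
    have h := XX_tower K hC β s hs (a :: b :: l)
    rw [List.map_cons, List.map_cons, List.cons_append, List.cons_append] at h
    rw [h]
  have h2 : ∀ m, (D.up Ω).zz ((D.up Ω).p m) = up Ω (D.zz (D.p m)) := fun m => up_zz D Ω (D.p m)
  unfold Dat.kap
  simp only [h2, up_zz, h1]

theorem XX_sg (D : Dat I φ) (l : List ((Fin (d + 1) → Fin (n + 1)) → F))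
    (hF : FF K (l.length + 1)) :
    XX K (D.sg :: l) = ∑ m, XX K (D.zz (D.p m) :: l) :=
  XX_segre (fun m => D.pt (D.p m)) (fun m => pt_ne D (D.pne m)) (fun m => D.zz (D.p m))
    (fun m V => al_zz D V (D.p m)) (fun m => zz_ne D (D.pne m)) l hF

theorem kap_zero_of_not (D : Dat I φ) {Ω μ : Type} [Field Ω] [Algebra F Ω] [Finite μ]
    {C : μ × Bool × (Fin (d + 1) → Fin (n + 1)) → Ω} (hC : Gn F C)
    (β : μ → (Fin (d + 1) → Fin (n + 1)) → F) (s : List μ) (hs : s.Nodup)
    (hF : FF K (s.length + 2)) (h : ¬ FF (cb K C β {i | i ∈ s}) 2) (q : Fin 2 → F) :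
    D.kap K (s.map β) q = 0 := by
  have h1 : ∀ a b : (Fin (d + 1) → Fin (n + 1)) → F, XX K (a :: b :: s.map β) = 0 := by
    intro a b
    by_contra h0
    apply h
    refine FF_cb (e := 2) hC β s hs ?_ [a, b] rfl (Nat.pos_of_ne_zero h0)
    rw [add_comm]
    exact hF
  unfold Dat.kap
  simp only [h1]
  simp

end Pool.Agent.Lib.MP_1e3e9c_agU
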