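import Mathlib
import Pool.Agent.Lib.MP_1e3e9c_agU.D4
import Pool.Agent.Lib.MP_1e3e9c_agU.E3
import Pool.Agent.Lib.MP_1e3e9c_agU.E5

/-!
# MP_1e3e9c_ag, project U, leaf E6: kap is not negative

`arith`: pure arithmetic. `κ` the number, `a m = X m m`, `X` symmetric with natural entries,
`∑_j X j m = κ + δ a m` for all `m` (`δ = d + 1`), and the index inequality
`(∑_(i,j) X i j) a m ≤ (∑_j X j m)²`. Then `κ ≥ 0`: let `a m` be minimal, `c = κ + δ a m ≥ 0`,
`∑∑ X = δ κ + δ ∑ a ≥ δ κ + δ² a m = δ c`. So `δ c a m ≤ c²`. If `c > 0`: `δ a m ≤ c`, `κ ≥ 0`. If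
`c = 0`, `κ < 0`: `a m > 0`, but `0 = c = ∑_j X j m ≥ X m m = a m`: contradiction.
`kap_nonneg2`: `F/K` of two variables: `X i j = XX K [zz (p i), zz (p j)]`, `∑_j X j m = XX K [sg, zz (p m)]`
(`XX_sg`), `∑∑ = XX K [sg, sg]`, `index_ineq`, and `kap` does not depend on the point (`kap_indep`).
`kap_nonneg`: cut by `l` (`Ω = GF F _`, `kap_cut`, `kap_zero_of_not`), and `kap_indep` for `q`.
-/

set_option autoImplicit false

namespace Pool.Agent.Lib.MP_1e3e9c_agU

open IsLocalRing Pool.Agent.Lib.MP_b197b4_ntK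

theorem arith {d : ℕ} (X : Fin (d + 1) → Fin (d + 1) → ℕ) (hX : ∀ i j, X i j = X j i) (κ : ℤ)
    (h1 : ∀ m, ∑ j, (X j m : ℤ) = κ + ((d : ℤ) + 1) * X m m)
    (h2 : ∀ m, (∑ i, ∑ j, X i j) * X m m ≤ (∑ j, X j m) ^ 2) : 0 ≤ κ := by
  obtain ⟨m, -, hm⟩ := Finset.exists_min_image (Finset.univ : Finset (Fin (d + 1)))
    (fun m => X m m) ⟨0, Finset.mem_univ _⟩
  have hδ : (0 : ℤ) < (d : ℤ) + 1 := by positivity
  set c : ℤ := ∑ j, (X j m : ℤ) with hc
  have hc0 : 0 ≤ c := Finset.sum_nonneg fun j _ => Int.natCast_nonneg _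
  have hcm : c = κ + ((d : ℤ) + 1) * X m m := h1 m
  have htot : ((d : ℤ) + 1) * c ≤ ∑ i, ∑ j, (X i j : ℤ) := by
    have e1 : ∑ i, ∑ j, (X i j : ℤ) = ∑ j, (κ + ((d : ℤ) + 1) * X j j) := by
      rw [Finset.sum_comm]
      exact Finset.sum_congr rfl fun j _ => h1 j
    rw [e1]
    have e2 : ((d : ℤ) + 1) * c = ∑ _j : Fin (d + 1), c := by
      rw [Finset.sum_const, Finset.card_univ, Fintype.card_fin, nsmul_eq_mul]
      push_cast
      ring
    rw [e2]
    refine Finset.sum_le_sum fun j _ => ?_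
    rw [hcm]
    have h3 : (X m m : ℤ) ≤ X j j := by exact_mod_cast hm j (Finset.mem_univ j)
    have := mul_le_mul_of_nonneg_left h3 hδ.le
    linarith
  have h4 : (∑ i, ∑ j, (X i j : ℤ)) * X m m ≤ c ^ 2 := by
    have h5 := h2 m
    have h6 : (((∑ i, ∑ j, X i j) * X m m : ℕ) : ℤ) ≤ (((∑ j, X j m) ^ 2 : ℕ) : ℤ) := by
      exact_mod_cast h5
    push_cast at h6
    exact h6
  have h7 : ((d : ℤ) + 1) * c * X m m ≤ c ^ 2 :=
    (mul_le_mul_of_nonneg_right htot (Int.natCast_nonneg _)).trans h4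
  have h8 : (X m m : ℤ) ≤ c :=
    Finset.single_le_sum (f := fun j => (X j m : ℤ)) (fun j _ => Int.natCast_nonneg _)
      (Finset.mem_univ m)
  rcases hc0.lt_or_eq with hpos | hzero
  · have h9 : c * (((d : ℤ) + 1) * X m m) ≤ c * c := by nlinarith
    have h10 := le_of_mul_le_mul_left h9 hpos
    linarith
  · have h11 : (X m m : ℤ) = 0 := le_antisymm (by linarith) (Int.natCast_nonneg _)
    rw [h11] at hcm
    linarith

variable {k F : Type} [Field k] [CharZero k] [Field F] [CharZero F] {n d r : ℕ}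
  {I : Ideal (MvPolynomial (Fin (n + 1) × Fin (d + 1 + 1)) k)} {φ : k →+* F} {K : Subfield F}

theorem kap_nonneg2 (hI : Fam r I) (hφ : ∀ a, φ a ∈ K) (D : Dat I φ) (hF : FF K 2)
    {q : Fin 2 → F} (hq : q ≠ 0) : 0 ≤ D.kap K [] q := by
  have hnil : ∀ w ∈ ([] : List ((Fin (d + 1) → Fin (n + 1)) → F)), w ≠ 0 := by simp
  have hsw : ∀ a b : (Fin (d + 1) → Fin (n + 1)) → F, XX K [a, b] = XX K [b, a] := fun a b =>
    XX_perm K (List.Perm.swap b a [])
  refine arith (fun i j => XX K [D.zz (D.p i), D.zz (D.p j)]) (fun i j => hsw _ _)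
    (D.kap K [] q) ?_ ?_
  · intro m
    have h1 : D.kap K [] q = D.kap K [] (D.p m) :=
      kap_indep hI hφ D [] hnil hF hq (D.pne m)
    rw [h1]
    unfold Dat.kap
    have h2 : ∀ j, XX K [D.zz (D.p j), D.zz (D.p m)] = XX K [D.zz (D.p m), D.zz (D.p j)] :=
      fun j => hsw _ _
    simp only [h2]
    ring
  · intro m
    have h1 := index_ineq hF (sg_ne D) (zz_ne D (D.pne m))
    have h2 : XX K [D.sg, D.zz (D.p m)] = ∑ j, XX K [D.zz (D.p j), D.zz (D.p m)] :=
      XX_sg D [D.zz (D.p m)] hF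
    have h3 : XX K [D.sg, D.sg] = ∑ i, ∑ j, XX K [D.zz (D.p i), D.zz (D.p j)] := by
      rw [XX_sg D [D.sg] hF]
      refine Finset.sum_congr rfl fun i _ => ?_
      rw [hsw, XX_sg D [D.zz (D.p i)] hF]
      exact Finset.sum_congr rfl fun j _ => hsw _ _
    rw [h2, h3] at h1
    exact h1

theorem kap_nonneg (hI : Fam r I) (hφ : ∀ a, φ a ∈ K) (D : Dat I φ)
    (l : List ((Fin (d + 1) → Fin (n + 1)) → F)) (hl : ∀ w ∈ l, w ≠ 0)
    (hF : FF K (l.length + 2)) {q : Fin 2 → F} (hq : q ≠ 0) : 0 ≤ D.kap K l q := by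
  classical
  have hC := gn_gc F (Fin l.length × Bool × (Fin (d + 1) → Fin (n + 1)))
  have hs : (List.finRange l.length).Nodup := List.nodup_finRange _
  have hl' : (List.finRange l.length).map l.get = l := List.map_get_finRange l
  have hlen : (List.finRange l.length).length = l.length := List.length_finRange
  by_cases h : FF (cb K (gc F (Fin l.length × Bool × (Fin (d + 1) → Fin (n + 1)))) l.get
      {i | i ∈ List.finRange l.length}) 2
  · have h1 := kap_cut (K := K) D hC l.get (List.finRange l.length) hs [] q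
    rw [List.nil_append, hl', List.map_nil] at h1
    rw [← h1]
    have : CharZero (GF F (Fin l.length × Bool × (Fin (d + 1) → Fin (n + 1)))) :=
      charZero_of_injective_algebraMap
        (algebraMap F (GF F (Fin l.length × Bool × (Fin (d + 1) → Fin (n + 1))))).injective
    refine kap_nonneg2 hI ?_ (D.up _) h ?_
    · intro a
      refine Subfield.subset_closure (Or.inl (Or.inl ⟨φ a, hφ a, rfl⟩))
    · intro h0
      apply hq
      funext a
      exact (map_eq_zero (algebraMap F _)).1 (congrFun h0 a)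
  · have h2 := kap_zero_of_not (K := K) D hC l.get (List.finRange l.length) hs
      (by rw [hlen]; exact hF) h q
    rw [hl'] at h2
    rw [h2]

end Pool.Agent.Lib.MP_1e3e9c_agU
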