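import Mathlib
import Pool.Agent.Lib.MP_1e3e9c_agU.A9
import Pool.Agent.Lib.MP_1e3e9c_agU.E6

/-!
# MP_1e3e9c_ag, project U, leaf E8: one step of the ladder

`kapR D K v l q = ∑_m XR K v (zz q :: zz (p m) :: l) - (d+1) XR K v (zz q :: zz q :: l)`.
`kap_step`: `dd_XR` for the pair `(p i, p j)` and the lists `zz q :: zz (p m) :: l` (summed over `m`)
minus `(d+1)` times the one for `zz q :: zz q :: l`; `XX_perm` moves the points.
`kapR_zero`: `dd v (p i) (p j) > 0`, `p i`, `p j` not proportional. If the residue field does not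
satisfy `FF (resS K v) (l.length + 2)`, all the `XR` are `0`. Otherwise let `D'` be the residue datum
(`exists_resDat`) over the finite extension `E` of the residue field, `K' = upK E (resS K v)`,
`FF K' (l.length + 2)` (`FF_up`). `D'` has at most `s` distinct roots if `D` has at most `s + 1`: in the
set `S` of representatives of `D` there are `m_i`, `m_j` proportional to `p i`, `p j`; remove one of them.
By hypothesis `D'.kap K' (roots) (D'.p 0) = 0`, and this is `[E : residue field]` times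
`kapR` (`XX_up`, `XX_pr` with `rd_zz`, first property of `exists_resDat`).
-/

set_option autoImplicit false

namespace Pool.Agent.Lib.MP_1e3e9c_agU

open IsLocalRing Pool.Agent.Lib.MP_b197b4_ntK

variable {k : Type} [Field k] [CharZero k] {n d r : ℕ}
  {I : Ideal (MvPolynomial (Fin (n + 1) × Fin (d + 1 + 1)) k)}

/-- `kap` of the reductions. -/
noncomputable def kapR {F : Type} [Field F] {φ : k →+* F} (D : Dat I φ) (K : Subfield F)
    (v : ValuationSubring F) (l : List ((Fin (d + 1) → Fin (n + 1)) → F)) (q : Fin 2 → F) : ℤ :=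
  (∑ m, (XR K v (D.zz q :: D.zz (D.p m) :: l) : ℤ)) -
    ((d : ℤ) + 1) * (XR K v (D.zz q :: D.zz q :: l) : ℤ)

/-- Finite support for `al`. -/
private theorem E8_al_fin {F ι : Type} [Field F] [CharZero F] [Fintype ι] {K : Subfield F}
    (L : List (ι → F)) (hL : ∀ w ∈ L, w ≠ 0) (hF : FF K (L.length + 1)) (z : ι → F) :
    {v : ValuationSubring F | Dv K v ∧ (XR K v L : ℤ) * al v z ≠ 0}.Finite := by
  classical
  have hfin : (⋃ j ∈ (Finset.univ.filter fun j => z j ≠ 0),
      {v : ValuationSubring F | Dv K v ∧ (XR K v L : ℤ) * ord v (z j) ≠ 0}).Finite := by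
    apply Set.Finite.biUnion (Finset.finite_toSet _)
    intro j hj
    exact XR_fin L hL hF (Finset.mem_filter.1 hj).2
  refine hfin.subset ?_
  rintro v ⟨hv, hne⟩
  have hn : (Finset.univ.filter fun j => z j ≠ 0).Nonempty := by
    by_contra hn
    apply hne
    have : al v z = 0 := by
      unfold al
      rw [dif_neg hn]
    rw [this, mul_zero]
  obtain ⟨j, hj, hj2⟩ := Finset.exists_mem_eq_inf' hn (fun j => ord v (z j))
  have hal : al v z = ord v (z j) := by
    rw [← hj2]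
    unfold al
    rw [dif_pos hn]
  refine Set.mem_biUnion hj ⟨hv, ?_⟩
  rw [← hal]
  exact hne

omit [CharZero k] in
/-- Finite support for `dd`. -/
private theorem E8_dd_fin {F : Type} [Field F] [CharZero F] {φ : k →+* F} {K : Subfield F}
    (D : Dat I φ) (L : List ((Fin (d + 1) → Fin (n + 1)) → F)) (hL : ∀ w ∈ L, w ≠ 0)
    (hF : FF K (L.length + 1)) {q q' : Fin 2 → F} (h : wd q q' ≠ 0) :
    {v : ValuationSubring F | Dv K v ∧ (XR K v L : ℤ) * D.dd v q q' ≠ 0}.Finite := by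
  classical
  have h1 := XR_fin L hL hF h
  have h2 := XR_fin L hL hF D.ene
  have h3 := E8_al_fin L hL hF (D.zz q)
  have h4 := E8_al_fin L hL hF (D.zz q')
  have h5 : (⋃ l : Fin (d + 1), {v : ValuationSubring F | Dv K v ∧
      (XR K v L : ℤ) * al v (D.zz (D.p l)) ≠ 0}).Finite :=
    Set.finite_iUnion fun l => E8_al_fin L hL hF (D.zz (D.p l))
  refine ((((h1.union h2).union h3).union h4).union h5).subset ?_
  rintro v ⟨hv, hne⟩
  by_contra hc
  simp only [Set.mem_union, Set.mem_iUnion, Set.mem_ofPred_eq, not_or, not_and, not_not,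
    not_exists] at hc
  obtain ⟨⟨⟨⟨c1, c2⟩, c3⟩, c4⟩, c5⟩ := hc
  have c1 := c1 hv
  have c2 := c2 hv
  have c3 := c3 hv
  have c4 := c4 hv
  have c5 := fun l => c5 l hv
  rw [al_zz] at c3 c4
  simp only [al_zz] at c5
  apply hne
  have hsum : (XR K v L : ℤ) * ∑ l, al v (D.pt (D.p l)) = 0 := by
    rw [Finset.mul_sum]
    exact Finset.sum_eq_zero fun l _ => c5 l
  unfold Dat.dd Dat.nu
  linear_combination ((d : ℤ) + 1) ^ 2 * c1 - ((d : ℤ) + 1) * (c3 + c4) + ((d : ℤ) + 1) * c2 + hsum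

theorem kap_step {F : Type} [Field F] [CharZero F] {φ : k →+* F} {K : Subfield F} (D : Dat I φ)
    (l : List ((Fin (d + 1) → Fin (n + 1)) → F)) (hl : ∀ w ∈ l, w ≠ 0)
    (hF : FF K (l.length + 3)) {q : Fin 2 → F} (hq : q ≠ 0) (i j : Fin (d + 1))
    (hij : wd (D.p i) (D.p j) ≠ 0) :
    ∑ᶠ (v : ValuationSubring F) (_ : Dv K v), D.dd v (D.p i) (D.p j) * kapR D K v l q =
      ((d : ℤ) + 1) * (D.kap K (D.zz (D.p i) :: l) q + D.kap K (D.zz (D.p j) :: l) q) -
        ∑ m, D.kap K (D.zz (D.p m) :: l) q := by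
  classical
  have hwi := D.pne i
  have hwj := D.pne j
  have hLm : ∀ m, ∀ w ∈ D.zz q :: D.zz (D.p m) :: l, w ≠ 0 := by
    intro m w hw
    rw [List.mem_cons, List.mem_cons] at hw
    rcases hw with rfl | rfl | hw
    · exact zz_ne D hq
    · exact zz_ne D (D.pne m)
    · exact hl w hw
  have hL0 : ∀ w ∈ D.zz q :: D.zz q :: l, w ≠ 0 := by
    intro w hw
    rw [List.mem_cons, List.mem_cons] at hw
    rcases hw with rfl | rfl | hw
    · exact zz_ne D hq
    · exact zz_ne D hq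
    · exact hl w hw
  have hFm : ∀ m, FF K ((D.zz q :: D.zz (D.p m) :: l).length + 1) := fun m => hF
  have hF0 : FF K ((D.zz q :: D.zz q :: l).length + 1) := hF
  have fm := fun m => E8_dd_fin D _ (hLm m) (hFm m) hij
  have f0 := E8_dd_fin D _ hL0 hF0 hij
  have em := fun m => dd_XR D _ (hLm m) (hFm m) hwi hwj hij
  have e0 := dd_XR D _ hL0 hF0 hwi hwj hij
  have hT : ((⋃ m, {v : ValuationSubring F | Dv K v ∧
      (XR K v (D.zz q :: D.zz (D.p m) :: l) : ℤ) * D.dd v (D.p i) (D.p j) ≠ 0}) ∪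
      {v : ValuationSubring F | Dv K v ∧
      (XR K v (D.zz q :: D.zz q :: l) : ℤ) * D.dd v (D.p i) (D.p j) ≠ 0}).Finite :=
    (Set.finite_iUnion fm).union f0
  obtain ⟨T, hTe⟩ : ∃ T : Finset (ValuationSubring F), ∀ v, v ∈ T ↔
      Dv K v ∧ ((∃ m, (XR K v (D.zz q :: D.zz (D.p m) :: l) : ℤ) * D.dd v (D.p i) (D.p j) ≠ 0) ∨
        (XR K v (D.zz q :: D.zz q :: l) : ℤ) * D.dd v (D.p i) (D.p j) ≠ 0) := by
    refine ⟨hT.toFinset, fun v => ?_⟩
    rw [Set.Finite.mem_toFinset]
    simp only [Set.mem_union, Set.mem_iUnion, Set.mem_ofPred_eq]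
    constructor
    · rintro (⟨m, h1, h2⟩ | ⟨h1, h2⟩)
      · exact ⟨h1, Or.inl ⟨m, h2⟩⟩
      · exact ⟨h1, Or.inr h2⟩
    · rintro ⟨h1, ⟨m, h2⟩ | h2⟩
      · exact Or.inl ⟨m, h1, h2⟩
      · exact Or.inr ⟨h1, h2⟩
  have key : ∀ f : ValuationSubring F → ℤ, (∀ v, Dv K v → f v ≠ 0 → v ∈ T) →
      ∑ᶠ (v : ValuationSubring F) (_ : Dv K v), f v = ∑ v ∈ T, f v := by
    intro f hf
    have h := finsum_mem_eq_sum_of_inter_support_eq f (s := {v | Dv K v}) (t := T) (by
      ext v
      simp only [Set.mem_inter_iff, Set.mem_ofPred_eq, Function.mem_support, Finset.mem_coe]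
      exact ⟨fun h => ⟨hf v h.1 h.2, h.2⟩, fun h => ⟨((hTe v).1 h.1).1, h.2⟩⟩)
    exact h
  rw [key _ (by
    intro v hv hne
    refine (hTe v).2 ⟨hv, ?_⟩
    by_contra hc
    rw [not_or, not_exists] at hc
    obtain ⟨c1, c2⟩ := hc
    apply hne
    have c2 := not_not.1 c2
    have hs : (∑ m, (XR K v (D.zz q :: D.zz (D.p m) :: l) : ℤ)) * D.dd v (D.p i) (D.p j) = 0 := by
      rw [Finset.sum_mul]
      exact Finset.sum_eq_zero fun m _ => not_not.1 (c1 m)
    unfold kapR
    linear_combination hs - ((d : ℤ) + 1) * c2)]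
  have em' : ∀ m, ∑ v ∈ T, (XR K v (D.zz q :: D.zz (D.p m) :: l) : ℤ) * D.dd v (D.p i) (D.p j) =
      ((d : ℤ) + 1) * ((XX K (D.zz (D.p i) :: D.zz q :: D.zz (D.p m) :: l) : ℤ) +
        XX K (D.zz (D.p j) :: D.zz q :: D.zz (D.p m) :: l)) -
        ∑ m', (XX K (D.zz (D.p m') :: D.zz q :: D.zz (D.p m) :: l) : ℤ) := by
    intro m
    rw [← em m]
    exact (key _ fun v hv hne => (hTe v).2 ⟨hv, Or.inl ⟨m, hne⟩⟩).symm
  have e0' : ∑ v ∈ T, (XR K v (D.zz q :: D.zz q :: l) : ℤ) * D.dd v (D.p i) (D.p j) =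
      ((d : ℤ) + 1) * ((XX K (D.zz (D.p i) :: D.zz q :: D.zz q :: l) : ℤ) +
        XX K (D.zz (D.p j) :: D.zz q :: D.zz q :: l)) -
        ∑ m', (XX K (D.zz (D.p m') :: D.zz q :: D.zz q :: l) : ℤ) := by
    rw [← e0]
    exact (key _ fun v hv hne => (hTe v).2 ⟨hv, Or.inr hne⟩).symm
  have p1 : ∀ a b : (Fin (d + 1) → Fin (n + 1)) → F, XX K (D.zz q :: a :: b :: l) =
      XX K (b :: D.zz q :: a :: l) := by
    intro a b
    apply XX_perm
    exact ((List.Perm.swap b a l).cons _).trans (List.Perm.swap b (D.zz q) (a :: l))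
  have hkap : ∀ a : (Fin (d + 1) → Fin (n + 1)) → F, D.kap K (a :: l) q =
      (∑ m, (XX K (a :: D.zz q :: D.zz (D.p m) :: l) : ℤ)) -
        ((d : ℤ) + 1) * (XX K (a :: D.zz q :: D.zz q :: l) : ℤ) := by
    intro a
    have hs : ∀ m, XX K (D.zz q :: D.zz (D.p m) :: a :: l) =
        XX K (a :: D.zz q :: D.zz (D.p m) :: l) := fun m => p1 (D.zz (D.p m)) a
    have hs0 : XX K (D.zz q :: D.zz q :: a :: l) = XX K (a :: D.zz q :: D.zz q :: l) :=
      p1 (D.zz q) a
    unfold Dat.kap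
    rw [hs0, Finset.sum_congr rfl fun m _ => congrArg (Nat.cast : ℕ → ℤ) (hs m)]
  rw [hkap, hkap]
  have hl1 : ∑ v ∈ T, D.dd v (D.p i) (D.p j) * kapR D K v l q =
      (∑ m, ∑ v ∈ T, (XR K v (D.zz q :: D.zz (D.p m) :: l) : ℤ) * D.dd v (D.p i) (D.p j)) -
        ((d : ℤ) + 1) *
          ∑ v ∈ T, (XR K v (D.zz q :: D.zz q :: l) : ℤ) * D.dd v (D.p i) (D.p j) := by
    rw [Finset.sum_comm, Finset.mul_sum, ← Finset.sum_sub_distrib]
    refine Finset.sum_congr rfl fun v _ => ?_
    rw [← Finset.sum_mul]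
    unfold kapR
    ring
  have hl2 : ∑ m, D.kap K (D.zz (D.p m) :: l) q =
      (∑ m, ∑ m', (XX K (D.zz (D.p m') :: D.zz q :: D.zz (D.p m) :: l) : ℤ)) -
        ((d : ℤ) + 1) * ∑ m', (XX K (D.zz (D.p m') :: D.zz q :: D.zz q :: l) : ℤ) := by
    rw [Finset.sum_comm, Finset.mul_sum, ← Finset.sum_sub_distrib]
    exact Finset.sum_congr rfl fun m _ => hkap _
  rw [hl1, hl2, e0', Finset.sum_congr rfl fun m _ => em' m, Finset.sum_sub_distrib,
    ← Finset.mul_sum, Finset.sum_add_distrib]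
  ring

/-- The statement of the ladder for at most `s` distinct roots. -/
def Lad (I : Ideal (MvPolynomial (Fin (n + 1) × Fin (d + 1 + 1)) k)) (s : ℕ) : Prop :=
  ∀ (F : Type) [Field F] [CharZero F] (φ : k →+* F) (K : Subfield F), (∀ a, φ a ∈ K) →
    ∀ (D : Dat I φ) (l : List (Fin (d + 1))), FF K (l.length + 2) → s ≤ l.length + 1 →
      D.few s → ∀ q : Fin 2 → F, q ≠ 0 → D.kap K (l.map fun m => D.zz (D.p m)) q = 0

theorem kapR_zero (hI : Fam r I) {s : ℕ} (hL : Lad I s) {F : Type} [Field F] [CharZero F]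
    {φ : k →+* F} {K : Subfield F} (hφ : ∀ a, φ a ∈ K) (D : Dat I φ) (l : List (Fin (d + 1)))
    (hs : s ≤ l.length + 1) (hfew : D.few (s + 1)) {v : ValuationSubring F} (hv : Dv K v)
    (i j : Fin (d + 1)) (hij : wd (D.p i) (D.p j) ≠ 0) (hd : 0 < D.dd v (D.p i) (D.p j)) :
    kapR D K v (l.map fun m => D.zz (D.p m)) (D.p 0) = 0 := by
  classical
  by_cases hFF : FF (resS K v) (l.length + 2)
  swap
  · have hz : ∀ a b : (Fin (d + 1) → Fin (n + 1)) → F,
        XR K v (a :: b :: l.map fun m => D.zz (D.p m)) = 0 := by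
      intro a b
      unfold XR
      rw [if_neg]
      intro h
      apply hFF
      have hlen : (a :: b :: l.map fun m => D.zz (D.p m)).length = l.length + 2 := by
        simp
      rw [hlen] at h
      exact h
    unfold kapR
    simp [hz]
  have hφv : ∀ a, φ a ∈ v := fun a => hv.2 _ (hφ a)
  obtain ⟨E, iE, iA, iD, D', g1, g2, g3⟩ := exists_resDat hI D hv.1 hφv
  have hK' : FF (upK E (resS K v)) (l.length + 2) := FF_up hFF
  have hφ' : ∀ a, ((algebraMap (ResidueField v) E).comp (resk φ v hφv)) a ∈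
      upK E (resS K v) := by
    intro a
    refine ⟨resk φ v hφv a, ?_, rfl⟩
    have h1 : resk φ v hφv a = res v (φ a) := by
      rw [res_of_mem (hφv a)]
      rfl
    rw [h1]
    exact Subfield.subset_closure ⟨φ a, hφ a, rfl⟩
  have : CharZero E := charZero_of_injective_ringHom
    ((algebraMap (ResidueField v) E).comp (resk φ v hφv)).injective
  have htr : ∀ {L : Type} [Field L] {x y z : Fin 2 → L}, y ≠ 0 → wd x y = 0 → wd y z = 0 →
      wd x z = 0 := by
    intro L _ x y z hy h1 h2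
    unfold wd at h1 h2 ⊢
    by_cases h0 : y 0 = 0
    · have h1' : y 1 ≠ 0 := by
        intro h1'
        apply hy
        funext a
        fin_cases a
        · exact h0
        · exact h1'
      have : (x 0 * z 1 - x 1 * z 0) * y 1 = 0 := by
        linear_combination z 1 * h1 + x 1 * h2
      exact (mul_eq_zero.1 this).resolve_right h1'
    · have : (x 0 * z 1 - x 1 * z 0) * y 0 = 0 := by
        linear_combination z 0 * h1 + x 0 * h2
      exact (mul_eq_zero.1 this).resolve_right h0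
  have hsy : ∀ {L : Type} [Field L] {x y : Fin 2 → L}, wd x y = 0 → wd y x = 0 := by
    intro L _ x y h
    unfold wd at h ⊢
    linear_combination -h
  have hfew' : D'.few s := by
    obtain ⟨S, hS, hS2⟩ := hfew
    obtain ⟨mi, hmi, wi⟩ := hS2 i
    obtain ⟨mj, hmj, wj⟩ := hS2 j
    have hne : mj ≠ mi := by
      rintro rfl
      exact hij (htr (D.pne _) wi (hsy wj))
    have h2 := g2 i j hij hd
    have h4 : wd (D'.p mi) (D'.p mj) = 0 :=
      htr (D'.pne i) (hsy (g3 _ _ wi)) (htr (D'.pne j) h2 (g3 _ _ wj))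
    refine ⟨S.erase mi, ?_, ?_⟩
    · rw [Finset.card_erase_of_mem hmi]
      omega
    · intro a
      obtain ⟨m, hm, wm⟩ := hS2 a
      by_cases hmm : m = mi
      · refine ⟨mj, Finset.mem_erase.2 ⟨hne, hmj⟩, ?_⟩
        rw [hmm] at wm
        exact htr (D'.pne mi) (g3 _ _ wm) h4
      · exact ⟨m, Finset.mem_erase.2 ⟨hmm, hm⟩, g3 _ _ wm⟩
  have hkap := hL E _ (upK E (resS K v)) hφ' D' l hK' hs hfew' (D'.p 0) (D'.pne 0)
  have hpr : ∀ a, Pr (up E (rd v (D.zz (D.p a)))) (D'.zz (D'.p a)) := by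
    intro a
    obtain ⟨x, hx, hx2⟩ := rd_zz D hv.1 (D.pne a)
    obtain ⟨y, hy, hy2⟩ := g1 a
    have hax : algebraMap (ResidueField v) E x ≠ 0 :=
      fun h => hx ((map_eq_zero (algebraMap (ResidueField v) E)).1 h)
    refine ⟨y / algebraMap (ResidueField v) E x, div_ne_zero hy hax, ?_⟩
    intro σ
    have h1 : D'.zz (D'.p a) σ = D'.pt (D'.p a) (σ 0) := rfl
    rw [h1, hy2 (σ 0)]
    have h2 : up E (rd v (D.zz (D.p a))) σ = algebraMap (ResidueField v) E x *
        up E (rd v (D.pt (D.p a))) (σ 0) := by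
      unfold up
      rw [hx2 σ, map_mul]
    rw [h2]
    field_simp
  have hXX : ∀ a b : Fin (d + 1),
      XX (upK E (resS K v)) (D'.zz (D'.p a) :: D'.zz (D'.p b) :: l.map fun m => D'.zz (D'.p m)) =
        Module.finrank (ResidueField v) E *
          XR K v (D.zz (D.p a) :: D.zz (D.p b) :: l.map fun m => D.zz (D.p m)) := by
    intro a b
    have hxr : XR K v (D.zz (D.p a) :: D.zz (D.p b) :: l.map fun m => D.zz (D.p m)) =
        XX (resS K v) ((D.zz (D.p a) :: D.zz (D.p b) :: l.map fun m => D.zz (D.p m)).map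
          (rd v)) := by
      unfold XR
      rw [if_pos]
      have hlen : (D.zz (D.p a) :: D.zz (D.p b) :: l.map fun m => D.zz (D.p m)).length =
          l.length + 2 := by
        simp
      rw [hlen]
      exact hFF
    rw [hxr, ← XX_up]
    symm
    apply XX_pr
    rw [List.map_cons, List.map_cons, List.map_cons, List.map_cons, List.map_map, List.map_map]
    refine List.Forall₂.cons (hpr a) (List.Forall₂.cons (hpr b) ?_)
    rw [List.forall₂_map_left_iff, List.forall₂_map_right_iff, List.forall₂_same]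
    intro m _
    exact hpr m
  have hpos : (0 : ℤ) < Module.finrank (ResidueField v) E := by
    exact_mod_cast Module.finrank_pos
  have hmul : (Module.finrank (ResidueField v) E : ℤ) *
      kapR D K v (l.map fun m => D.zz (D.p m)) (D.p 0) = 0 := by
    rw [← hkap]
    unfold kapR Dat.kap
    rw [mul_sub, Finset.mul_sum]
    congr 1
    · refine Finset.sum_congr rfl fun m _ => ?_
      rw [hXX 0 m]
      push_cast
      ring
    · rw [hXX 0 0]
      push_cast
      ring
  exact (mul_eq_zero.1 hmul).resolve_left hpos.ne'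

end Pool.Agent.Lib.MP_1e3e9c_agU
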