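import Mathlib
import Pool.Agent.Lib.MP_1e3e9c_agU.E8

/-!
# MP_1e3e9c_ag, project U, leaf E9: the ladder

`combi`: `T = ∑ K_m`, `δ = d + 1`. For every `i` let `r_i`, `n_i` be the numbers of the `j` with `R i j`
and with `¬ R i j`. `T = r_i K_i + ∑_(j, ¬R i j) K_j` and `δ K_j = T - δ K_i` for these `j`:
`δ T = δ r_i K_i + n_i T - δ n_i K_i`, so `r_i T = δ (r_i - n_i) K_i`. If `T > 0` then `r_i > n_i` for all
`i` (`r_i ≥ 1`, `K_i ≥ 0`), so two classes of more than `δ/2` elements: contradiction. So `T = 0`.
`ladder`: induction on `s`. `few 0` is impossible. Step `s + 1`: if all roots are proportional to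
`p 0` then `kap = 0` directly for `q = p 0` (`XX_pr`), and `kap_indep`. Otherwise two roots are not
proportional, `s + 1 ≥ 2`, so `l` has length `≥ 1`: `l = m₀ :: l'`. Let
`K_m = kap K (zz (p m) :: zz l') (p 0) ≥ 0` (`kap_nonneg`). For `p i`, `p j` not proportional the
left side of `kap_step` (`q = p 0`) vanishes: where `dd v (p i) (p j) ≠ 0` it is `> 0` (`dd_nonneg`), and
`kapR = 0` by `kapR_zero` and the induction hypothesis `Lad I s` (`s ≤ l'.length + 1`). So
`δ (K_i + K_j) = ∑ K_m`; `K_i = K_j` for proportional roots (`XX_pr`); `combi` (`R i j` iff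
`wd (p i) (p j) = 0`, an equivalence relation because all `p i ≠ 0`). `K_(m₀) = 0` and `kap_indep`.
-/

set_option autoImplicit false

namespace Pool.Agent.Lib.MP_1e3e9c_agU

open IsLocalRing Pool.Agent.Lib.MP_b197b4_ntK

theorem combi {d : ℕ} (K : Fin (d + 1) → ℤ) (hK : ∀ i, 0 ≤ K i)
    (R : Fin (d + 1) → Fin (d + 1) → Prop) (hR : Equivalence R) (hne : ∃ i j, ¬ R i j)
    (h1 : ∀ i j, R i j → K i = K j)
    (h2 : ∀ i j, ¬ R i j → ((d : ℤ) + 1) * (K i + K j) = ∑ m, K m) (i) : K i = 0 := by
  classical
  set T : ℤ := ∑ m, K m with hT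
  have hT0 : 0 ≤ T := Finset.sum_nonneg fun i _ => hK i
  have hcard : ∀ i, ((Finset.univ.filter fun j => ¬ R i j).card : ℤ) =
      ((d : ℤ) + 1) - (Finset.univ.filter fun j => R i j).card := by
    intro i
    have h3 := Finset.card_filter_add_card_filter_not (s := (Finset.univ : Finset (Fin (d + 1))))
      (fun j => R i j)
    rw [Finset.card_univ, Fintype.card_fin] at h3
    have h4 : ((Finset.univ.filter fun j => R i j).card : ℤ) +
        (Finset.univ.filter fun j => ¬ R i j).card = (d : ℤ) + 1 := by exact_mod_cast h3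
    linarith
  have key : ∀ i, ((Finset.univ.filter fun j => R i j).card : ℤ) * T =
      ((d : ℤ) + 1) * (2 * ((Finset.univ.filter fun j => R i j).card : ℤ) - ((d : ℤ) + 1)) * K i := by
    intro i
    have h3 : ((d : ℤ) + 1) * T = ∑ j, ((d : ℤ) + 1) * K j := by
      rw [hT, Finset.mul_sum]
    rw [← Finset.sum_filter_add_sum_filter_not Finset.univ (fun j => R i j)] at h3
    have h4 : ∑ j with R i j, ((d : ℤ) + 1) * K j =
        ((Finset.univ.filter fun j => R i j).card : ℤ) * (((d : ℤ) + 1) * K i) := by
      rw [← nsmul_eq_mul, ← Finset.sum_const]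
      refine Finset.sum_congr rfl fun j hj => ?_
      rw [h1 i j (Finset.mem_filter.mp hj).2]
    have h5 : ∑ j with ¬ R i j, ((d : ℤ) + 1) * K j =
        ((Finset.univ.filter fun j => ¬ R i j).card : ℤ) * (T - ((d : ℤ) + 1) * K i) := by
      rw [← nsmul_eq_mul, ← Finset.sum_const]
      refine Finset.sum_congr rfl fun j hj => ?_
      have := h2 i j (Finset.mem_filter.mp hj).2
      linarith
    rw [h4, h5, hcard] at h3
    linear_combination h3
  have hr : ∀ i, 0 < (Finset.univ.filter fun j => R i j).card := fun i =>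
    Finset.card_pos.mpr ⟨i, Finset.mem_filter.mpr ⟨Finset.mem_univ _, hR.refl i⟩⟩
  have hT1 : T = 0 := by
    by_contra hne'
    have hpos : 0 < T := lt_of_le_of_ne hT0 (Ne.symm hne')
    have h6 : ∀ i, ((d : ℤ) + 1) < 2 * ((Finset.univ.filter fun j => R i j).card : ℤ) := by
      intro i
      by_contra h7
      push Not at h7
      have h8 : 0 < ((Finset.univ.filter fun j => R i j).card : ℤ) * T :=
        mul_pos (by exact_mod_cast hr i) hpos
      rw [key i] at h8
      have h9 : ((d : ℤ) + 1) * (2 * ((Finset.univ.filter fun j => R i j).card : ℤ) - ((d : ℤ) + 1)) ≤ 0 :=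
        mul_nonpos_of_nonneg_of_nonpos (by positivity) (by linarith)
      have h10 := mul_nonpos_of_nonpos_of_nonneg h9 (hK i)
      linarith
    obtain ⟨i₀, j₀, hij⟩ := hne
    have hdisj : Disjoint (Finset.univ.filter fun j => R i₀ j) (Finset.univ.filter fun j => R j₀ j) := by
      rw [Finset.disjoint_left]
      intro j hj hj'
      exact hij (hR.trans (Finset.mem_filter.mp hj).2 (hR.symm (Finset.mem_filter.mp hj').2))
    have h11 := Finset.card_le_univ ((Finset.univ.filter fun j => R i₀ j) ∪
      (Finset.univ.filter fun j => R j₀ j))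
    rw [Finset.card_union_of_disjoint hdisj, Fintype.card_fin] at h11
    have h12 := h6 i₀
    have h13 := h6 j₀
    have h14 : ((Finset.univ.filter fun j => R i₀ j).card : ℤ) +
        (Finset.univ.filter fun j => R j₀ j).card ≤ (d : ℤ) + 1 := by exact_mod_cast h11
    linarith
  exact (Finset.sum_eq_zero_iff_of_nonneg fun i _ => hK i).mp hT1 i (Finset.mem_univ i)

variable {k : Type} [Field k] [CharZero k] {n d r : ℕ}
  {I : Ideal (MvPolynomial (Fin (n + 1) × Fin (d + 1 + 1)) k)}

private theorem E9_symm {F : Type} [Field F] {p q : Fin 2 → F} (h : wd p q = 0) : wd q p = 0 := by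
  unfold wd at h ⊢
  linear_combination -h

private theorem E9_trans {F : Type} [Field F] {p q r : Fin 2 → F} (hq : q ≠ 0) (h : wd p q = 0)
    (h' : wd q r = 0) : wd p r = 0 := by
  unfold wd at h h' ⊢
  have h0 : q 0 ≠ 0 ∨ q 1 ≠ 0 := by
    by_contra hcon
    push Not at hcon
    apply hq
    funext a
    fin_cases a
    · exact hcon.1
    · exact hcon.2
  rcases h0 with h0 | h0
  · apply mul_left_cancel₀ h0
    linear_combination p 0 * h' + r 0 * h
  · apply mul_left_cancel₀ h0
    linear_combination p 1 * h' + r 1 * h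

private theorem E9_prrefl {F ι : Type} [Field F] (z : ι → F) : Pr z z :=
  ⟨1, one_ne_zero, fun j => by rw [one_mul]⟩

private theorem E9_rest {F ι : Type} [Field F] (l : List (ι → F)) : List.Forall₂ Pr l l :=
  List.forall₂_same.mpr fun z _ => E9_prrefl z

theorem ladder (hI : Fam r I) (s : ℕ) : Lad I s := by
  classical
  induction s with
  | zero =>
    intro F _ _ φ K hφ D l hF hs hfew q hq
    obtain ⟨S, hS, hm⟩ := hfew
    obtain ⟨m, hmS, -⟩ := hm 0
    rw [Nat.le_zero, Finset.card_eq_zero] at hS
    rw [hS] at hmS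
    exact absurd hmS (Finset.notMem_empty m)
  | succ s ih =>
    intro F _ _ φ K hφ D l hF hs hfew q hq
    have hzz : ∀ l' : List (Fin (d + 1)), ∀ w ∈ l'.map (fun m => D.zz (D.p m)), w ≠ 0 := by
      intro l' w hw
      obtain ⟨m, -, rfl⟩ := List.mem_map.mp hw
      exact zz_ne D (D.pne m)
    have hF' : FF K ((l.map fun m => D.zz (D.p m)).length + 2) := by rwa [List.length_map]
    by_cases hall : ∀ m, wd (D.p 0) (D.p m) = 0
    · rw [kap_indep hI hφ D _ (hzz l) hF' hq (D.pne 0)]
      unfold Dat.kap
      have h1 : ∀ m, XX K (D.zz (D.p 0) :: D.zz (D.p m) :: l.map fun m => D.zz (D.p m)) =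
          XX K (D.zz (D.p 0) :: D.zz (D.p 0) :: l.map fun m => D.zz (D.p m)) := by
        intro m
        refine XX_pr K (List.Forall₂.cons (E9_prrefl _) (List.Forall₂.cons ?_ (E9_rest _)))
        exact pr_zz_of_pt D (pr_pt_of_wd D (D.pne m) (D.pne 0) (E9_symm (hall m)))
      rw [Finset.sum_congr rfl fun m _ => by rw [h1 m], Finset.sum_const, Finset.card_univ,
        Fintype.card_fin, nsmul_eq_mul]
      push_cast
      ring
    · push Not at hall
      obtain ⟨m₁, hm₁⟩ := hall
      have hs2 : 2 ≤ s + 1 := by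
        obtain ⟨S, hS, hm⟩ := hfew
        refine le_trans ?_ hS
        obtain ⟨a, ha, ha'⟩ := hm 0
        obtain ⟨b, hb, hb'⟩ := hm m₁
        have hab : a ≠ b := by
          rintro rfl
          exact hm₁ (E9_trans (D.pne a) ha' (E9_symm hb'))
        exact Finset.one_lt_card.mpr ⟨a, ha, b, hb, hab⟩
      match l, hs, hF, hF' with
      | [], hs, _, _ =>
        rw [List.length_nil] at hs
        omega
      | m₀ :: l', hs, hF, hF' =>
        rw [List.length_cons] at hs hF
        rw [kap_indep hI hφ D _ (hzz (m₀ :: l')) hF' hq (D.pne 0)]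
        set L : List ((Fin (d + 1) → Fin (n + 1)) → F) := l'.map fun m => D.zz (D.p m) with hL
        have hLl : L.length = l'.length := by rw [hL, List.length_map]
        have hF3 : FF K (L.length + 3) := by
          rw [hLl]
          exact hF
        have hl : ∀ w ∈ L, w ≠ 0 := hzz l'
        have hnn : ∀ m, 0 ≤ D.kap K (D.zz (D.p m) :: L) (D.p 0) := by
          intro m
          refine kap_nonneg hI hφ D _ ?_ ?_ (D.pne 0)
          · intro w hw
            rcases List.mem_cons.mp hw with rfl | hw
            · exact zz_ne D (D.pne m)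
            · exact hl w hw
          · rw [List.length_cons]
            exact hF3
        have hEq : ∀ i j, wd (D.p i) (D.p j) = 0 →
            D.kap K (D.zz (D.p i) :: L) (D.p 0) = D.kap K (D.zz (D.p j) :: L) (D.p 0) := by
          intro i j hij
          have hpr : Pr (D.zz (D.p i)) (D.zz (D.p j)) :=
            pr_zz_of_pt D (pr_pt_of_wd D (D.pne i) (D.pne j) hij)
          unfold Dat.kap
          have h1 : ∀ z : (Fin (d + 1) → Fin (n + 1)) → F,
              XX K (D.zz (D.p 0) :: z :: D.zz (D.p i) :: L) =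
              XX K (D.zz (D.p 0) :: z :: D.zz (D.p j) :: L) := fun z =>
            XX_pr K (List.Forall₂.cons (E9_prrefl _) (List.Forall₂.cons (E9_prrefl _)
              (List.Forall₂.cons hpr (E9_rest _))))
          simp only [h1]
        have hstep : ∀ i j, ¬ wd (D.p i) (D.p j) = 0 →
            ((d : ℤ) + 1) * (D.kap K (D.zz (D.p i) :: L) (D.p 0) +
              D.kap K (D.zz (D.p j) :: L) (D.p 0)) =
            ∑ m, D.kap K (D.zz (D.p m) :: L) (D.p 0) := by
          intro i j hij
          have h1 := kap_step D L hl hF3 (D.pne 0) i j hij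
          have h2 : ∑ᶠ (v : ValuationSubring F) (_ : Dv K v),
              D.dd v (D.p i) (D.p j) * kapR D K v L (D.p 0) = 0 := by
            apply finsum_eq_zero_of_forall_eq_zero
            intro v
            rw [finsum_eq_if]
            split_ifs with hv
            swap
            · rfl
            rcases (dd_nonneg hI D hv.1 (fun a => hv.2 _ (hφ a)) hij).eq_or_lt with h3 | h3
            · rw [← h3, zero_mul]
            · rw [hL, kapR_zero hI ih hφ D l' (by omega) hfew hv i j hij h3, mul_zero]
          rw [h2] at h1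
          linarith
        have hR : Equivalence fun i j : Fin (d + 1) => wd (D.p i) (D.p j) = 0 :=
          { refl := fun i => by
              unfold wd
              ring
            symm := fun h => E9_symm h
            trans := fun {i j m} h h' => E9_trans (D.pne j) h h' }
        exact combi (fun m => D.kap K (D.zz (D.p m) :: L) (D.p 0)) hnn
          (fun i j => wd (D.p i) (D.p j) = 0) hR ⟨0, m₁, hm₁⟩ hEq hstep m₀

end Pool.Agent.Lib.MP_1e3e9c_agU
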