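import Mathlib
import Pool.Agent.Lib.MP_1e3e9c_agU.E6

/-!
# MP_1e3e9c_ag, project U, leaf F2: the dichotomy on a surface; the mean over the zeros of a form

`dich`: `XX_sg` for `l = [zz q]` and `kap K [] q = 0` give `XX [sg, zz q] = (d+1) XX [zz q, zz q]`
(`XX_perm`); `index_ineq` with `y = sg`, `z = zz q`, multiplied by `d + 1`:
`XX [sg,sg] XX [sg, zz q] ≤ (d+1) XX [sg, zz q]²`.
`mean_le`: cut by `sg`: `Ω = GF F (Unit × Bool × _)`, `C = gc F _`, `β = fun _ => sg`,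
`κ = cb K C β {i | i ∈ [()]}`, `FF κ 1` (`FF_cb`, since `XX K [sg, sg] > 0`), `XX K [z, sg] = ht κ (up z)`
(`XX_ht`). `form_sum` for the datum `D.up Ω` over `κ`, the form `G.map (algebraMap F Ω)` (`K ⊆ κ`) and
the roots `up (q l)`: `∑ ht κ (pt (q l)) ≤ s ∑ ht κ (pt (p m))` (`up_pt`, `up_zz`, `ht_zz`), and
`∑_m ht κ (up (zz (p m))) = ∑_m XX K [zz (p m), sg] = XX K [sg, sg]` (`XX_sg`, `l = [sg]`), `XX_perm`.
-/

set_option autoImplicit false

namespace Pool.Agent.Lib.MP_1e3e9c_agU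

open IsLocalRing Pool.Agent.Lib.MP_b197b4_ntK

variable {k F : Type} [Field k] [CharZero k] [Field F] [CharZero F] {n d r : ℕ}
  {I : Ideal (MvPolynomial (Fin (n + 1) × Fin (d + 1 + 1)) k)} {φ : k →+* F} {K : Subfield F}

theorem dich (D : Dat I φ) (hF : FF K 2) {q : Fin 2 → F} (hq : q ≠ 0)
    (hk : D.kap K [] q = 0) :
    XX K [D.sg, D.zz q] = (d + 1) * XX K [D.zz q, D.zz q] ∧
      (XX K [D.sg, D.zz q] = 0 ∨ XX K [D.sg, D.sg] ≤ (d + 1) * XX K [D.sg, D.zz q]) := by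
  have h1 : XX K [D.sg, D.zz q] = ∑ m, XX K [D.zz (D.p m), D.zz q] := XX_sg D [D.zz q] hF
  have h2 : XX K [D.sg, D.zz q] = (d + 1) * XX K [D.zz q, D.zz q] := by
    have h3 : (∑ m, (XX K [D.zz q, D.zz (D.p m)] : ℤ)) - ((d : ℤ) + 1) * (XX K [D.zz q, D.zz q] : ℤ)
        = 0 := hk
    have h4 : ∀ m, XX K [D.zz q, D.zz (D.p m)] = XX K [D.zz (D.p m), D.zz q] := fun m =>
      XX_perm K (List.Perm.swap _ _ _)
    simp only [h4] at h3
    have h5 : (XX K [D.sg, D.zz q] : ℤ) = ((d : ℤ) + 1) * (XX K [D.zz q, D.zz q] : ℤ) := by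
      rw [h1]
      push_cast
      linarith
    exact_mod_cast h5
  refine ⟨h2, ?_⟩
  have h6 := index_ineq hF (sg_ne D) (zz_ne D hq)
  rcases Nat.eq_zero_or_pos (XX K [D.sg, D.zz q]) with h7 | h7
  · exact Or.inl h7
  · refine Or.inr (Nat.le_of_mul_le_mul_right ?_ h7)
    calc XX K [D.sg, D.sg] * XX K [D.sg, D.zz q]
        = (d + 1) * (XX K [D.sg, D.sg] * XX K [D.zz q, D.zz q]) := by
          conv_lhs => rw [h2]
          ring
      _ ≤ (d + 1) * XX K [D.sg, D.zz q] ^ 2 := Nat.mul_le_mul_left _ h6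
      _ = (d + 1) * XX K [D.sg, D.zz q] * XX K [D.sg, D.zz q] := by ring

private theorem F2_aux {Ω : Type} [Field Ω] [CharZero Ω] [Algebra F Ω]
    {C : Unit × Bool × (Fin (d + 1) → Fin (n + 1)) → Ω} (hC : Gn F C)
    (hI : Fam r I) (hφ : ∀ a, φ a ∈ K) (D : Dat I φ) (hF : FF K 2)
    (hpos : 0 < XX K [D.sg, D.sg]) (s : ℕ)
    (G : MvPolynomial (Fin (n + 1)) F) (hG : G.IsHomogeneous s) (hGK : ∀ t, G.coeff t ∈ K)
    (b : F) (hb : b ≠ 0) (q : Fin ((d + 1) * s) → Fin 2 → F) (hq : ∀ l, q l ≠ 0)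
    (hf : ∀ (M : Type) [Field M] (ψ : F →+* M) (x : Fin 2 → M),
      MvPolynomial.eval₂ ψ (fun i => ev (fun j => ψ (D.c i j)) x) G =
        ψ b * ∏ l, wd (fun a => ψ (q l a)) x) :
    ∑ l, XX K [D.sg, D.zz (q l)] ≤ s * XX K [D.sg, D.sg] := by
  obtain ⟨β, hβ⟩ : ∃ β : Unit → (Fin (d + 1) → Fin (n + 1)) → F, β = fun _ => D.sg := ⟨_, rfl⟩
  have hmap : [()].map β = [D.sg] := by
    rw [hβ]
    rfl
  have hnd : [()].Nodup := List.nodup_singleton ()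
  have h1 : FF (cb K C β {i | i ∈ [()]}) 1 := by
    refine FF_cb (e := 1) hC β [()] hnd hF [D.sg] rfl ?_
    rw [hmap]
    exact hpos
  obtain ⟨κ, hκ⟩ : ∃ κ, κ = cb K C β {i | i ∈ [()]} := ⟨_, rfl⟩
  have hKκ : ∀ a ∈ K, algebraMap F Ω a ∈ κ := by
    intro a ha
    rw [hκ]
    exact Subfield.subset_closure (Or.inl (Or.inl ⟨a, ha, rfl⟩))
  have hht : ∀ {y : Fin 2 → F}, y ≠ 0 →
      (XX K [D.zz y, D.sg] : ℤ) = ht κ ((D.up Ω).pt (fun a => algebraMap F Ω (y a))) := by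
    intro y hy
    have h2 := XX_ht hC β [()] hnd h1 (zz_ne D hy)
    rw [hmap] at h2
    rw [h2, ← hκ, ← up_zz, ht_zz]
  rw [← hκ] at h1
  have h3 := form_sum (K := κ) hI (φ := (algebraMap F Ω).comp φ) (fun a => hKκ _ (hφ a)) h1
    (D.up Ω) s (MvPolynomial.map (algebraMap F Ω) G) (hG.map _)
    (fun t => by
      rw [MvPolynomial.coeff_map]
      exact hKκ _ (hGK t))
    (algebraMap F Ω b) (fun h => hb ((map_eq_zero (algebraMap F Ω)).1 h))
    (fun l a => algebraMap F Ω (q l a))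
    (fun l h => hq l (funext fun a => (map_eq_zero (algebraMap F Ω)).1 (congrFun h a)))
    (fun M _ ψ x => by
      rw [MvPolynomial.eval₂_map]
      exact hf M (ψ.comp (algebraMap F Ω)) x)
  have h4 : ∑ m, ht κ ((D.up Ω).pt ((D.up Ω).p m)) = (XX K [D.sg, D.sg] : ℤ) := by
    have h5 : XX K [D.sg, D.sg] = ∑ m, XX K [D.zz (D.p m), D.sg] := XX_sg D [D.sg] hF
    rw [h5]
    push_cast
    exact Finset.sum_congr rfl fun m _ => (hht (D.pne m)).symm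
  have h6 : ∀ l, (XX K [D.sg, D.zz (q l)] : ℤ)
      = ht κ ((D.up Ω).pt (fun a => algebraMap F Ω (q l a))) := by
    intro l
    have h7 : XX K [D.sg, D.zz (q l)] = XX K [D.zz (q l), D.sg] :=
      XX_perm K (List.Perm.swap _ _ _)
    rw [h7]
    exact hht (hq l)
  have h8 : (∑ l, (XX K [D.sg, D.zz (q l)] : ℤ)) ≤ s * (XX K [D.sg, D.sg] : ℤ) := by
    rw [← h4, Finset.sum_congr rfl fun l _ => h6 l]
    exact h3
  exact_mod_cast h8

theorem mean_le (hI : Fam r I) (hφ : ∀ a, φ a ∈ K) (D : Dat I φ) (hF : FF K 2)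
    (hpos : 0 < XX K [D.sg, D.sg]) (s : ℕ)
    (G : MvPolynomial (Fin (n + 1)) F) (hG : G.IsHomogeneous s) (hGK : ∀ t, G.coeff t ∈ K)
    (b : F) (hb : b ≠ 0) (q : Fin ((d + 1) * s) → Fin 2 → F) (hq : ∀ l, q l ≠ 0)
    (hf : ∀ (M : Type) [Field M] (ψ : F →+* M) (x : Fin 2 → M),
      MvPolynomial.eval₂ ψ (fun i => ev (fun j => ψ (D.c i j)) x) G =
        ψ b * ∏ l, wd (fun a => ψ (q l a)) x) :
    ∑ l, XX K [D.sg, D.zz (q l)] ≤ s * XX K [D.sg, D.sg] := by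
  have hch : CharZero (GF F (Unit × Bool × (Fin (d + 1) → Fin (n + 1)))) :=
    charZero_of_injective_algebraMap
      (algebraMap F (GF F (Unit × Bool × (Fin (d + 1) → Fin (n + 1))))).injective
  exact F2_aux (gn_gc F _) hI hφ D hF hpos s G hG hGK b hb q hq hf

end Pool.Agent.Lib.MP_1e3e9c_agU
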