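import Mathlib
import Pool.Agent.Lib.MP_1e3e9c_agU.F4
import Pool.Agent.Lib.MP_1e3e9c_agU.FmC

/-!
# MP_1e3e9c_ag, project U, leaf F5: constant mean

`G`, `s` as in `exists_form` for `q`. `comp_form`: `c' : Fin ((d+1) s + 1) → F`, the coefficients of
`G(f(x))`, not all `0`. `exists_fac`: a finite extension `E`, `b`, `q_l` (`l < (d+1) s`) with
`G(f(x)) = b ∏ wd (q_l) x`. Suppose the first alternative is false: for every `q' ≠ 0` in `E²`
`XX (upK E K) [sg, zz q'] ≠ 0` (`D.up E`). Over `E`: `FF (upK E K) 2` (`FF_up`), `kap = 0` for all `q'`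
(`kap_up` for `q`, and `kap_indep` for all `q'`), `XX (upK E K) [sg, sg] = [E : F] XX K [sg, sg] > 0`
(`XX_up`, `up_sg`). `dich`: all `(d+1) XX [sg, zz (q_l)] ≥ XX [sg, sg]`; `mean_le` (for `D.up E` and
`G.map`): `∑_l XX [sg, zz (q_l)] ≤ s XX [sg, sg]`: `(d+1) s` terms, so all are equal:
`(d+1) XX [sg, zz (q_l)] = XX [sg, sg]`. As `G(pt q) = 0`, `∏ wd (q_l) q = 0`: `wd (q_l) q = 0` for some
`l`, `zz (q_l) ∼ up (zz q)` (`pr_pt_of_wd`, `pr_zz_of_pt`, `up_zz`), `XX_pr`, `XX_up`, divide by `[E : F]`.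
-/

set_option autoImplicit false

namespace Pool.Agent.Lib.MP_1e3e9c_agU

open IsLocalRing Pool.Agent.Lib.MP_b197b4_ntK

variable {k F : Type} [Field k] [CharZero k] [Field F] [CharZero F] {n d r : ℕ}
  {I : Ideal (MvPolynomial (Fin (n + 1) × Fin (d + 1 + 1)) k)} {φ : k →+* F} {K : Subfield F}

private theorem F5_refl {F ι : Type} [Field F] (z : ι → F) : Pr z z :=
  ⟨1, one_ne_zero, fun _ => (one_mul _).symm⟩

/-- If all the terms are at least `A / c` and their sum is at most the mean, they are equal. -/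
private theorem F5_mean {m c s A : ℕ} (hm : m = c * s) (t : Fin m → ℕ) (h1 : ∀ l, A ≤ c * t l)
    (h2 : ∑ l, t l ≤ s * A) (l : Fin m) : c * t l = A := by
  have h3 : ∑ l, c * t l ≤ ∑ _l : Fin m, A := by
    calc ∑ l, c * t l = c * ∑ l, t l := (Finset.mul_sum _ _ _).symm
      _ ≤ c * (s * A) := Nat.mul_le_mul_left _ h2
      _ = m * A := by rw [hm, mul_assoc]
      _ = ∑ _l : Fin m, A := by
        rw [Finset.sum_const, Finset.card_univ, Fintype.card_fin, smul_eq_mul]
  have h4 : ∑ _l : Fin m, A = ∑ l, c * t l :=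
    le_antisymm (Finset.sum_le_sum fun l _ => h1 l) h3
  exact ((Finset.sum_eq_sum_iff_of_le fun l _ => h1 l).1 h4 l (Finset.mem_univ l)).symm

theorem const_mean (hI : Fam r I) (hφ : ∀ a, φ a ∈ K) (D : Dat I φ) (hF : FF K 2)
    (hk : ∀ q : Fin 2 → F, q ≠ 0 → D.kap K [] q = 0) (hpos : 0 < XX K [D.sg, D.sg])
    (q : Fin 2 → F) (hq : q ≠ 0) :
    (∃ (E : Type) (_ : Field E) (_ : Algebra F E) (_ : FiniteDimensional F E) (q' : Fin 2 → E),
      q' ≠ 0 ∧ XX (upK E K) [(D.up E).sg, (D.up E).zz q'] = 0) ∨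
    (d + 1) * XX K [D.sg, D.zz q] = XX K [D.sg, D.sg] := by
  by_cases halt : ∃ (E : Type) (_ : Field E) (_ : Algebra F E) (_ : FiniteDimensional F E)
      (q' : Fin 2 → E), q' ≠ 0 ∧ XX (upK E K) [(D.up E).sg, (D.up E).zz q'] = 0
  · exact Or.inl halt
  right
  obtain ⟨s, G, hs, hG, hGK, hGq, x0, hx0⟩ := exists_form hI hφ D hF hk hpos q hq
  obtain ⟨c', hc'⟩ := comp_form D.c s G hG
  have hcne : c' ≠ 0 := by
    intro h
    apply hx0
    have h1 := hc' F (RingHom.id F) x0
    rw [h] at h1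
    have h2 : ev (fun j : Fin ((d + 1) * s + 1) => (RingHom.id F) ((0 : Fin ((d + 1) * s + 1) → F) j))
        x0 = 0 := by
      unfold ev
      refine Finset.sum_eq_zero fun j _ => ?_
      have h3 : (RingHom.id F) ((0 : Fin ((d + 1) * s + 1) → F) j) = 0 := rfl
      simp only [h3, zero_mul]
    rw [h2] at h1
    exact h1.symm
  obtain ⟨E, iE, iA, iD, e, p, he, hp, hfac⟩ := exists_fac c' hcne
  have : CharZero E := charZero_of_injective_algebraMap (algebraMap F E).injective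
  obtain ⟨q1, hq1⟩ : ∃ q1 : Fin 2 → E, q1 = fun a => algebraMap F E (q a) := ⟨_, rfl⟩
  have hq1ne : q1 ≠ 0 := by
    intro h
    apply hq
    funext a
    have h1 := congrFun h a
    rw [hq1] at h1
    exact (map_eq_zero (algebraMap F E)).1 h1
  have hφE : ∀ a, ((algebraMap F E).comp φ) a ∈ upK E K := fun a => ⟨φ a, hφ a, rfl⟩
  have hFE : FF (upK E K) 2 := FF_up hF
  have hkE : ∀ q' : Fin 2 → E, q' ≠ 0 → (D.up E).kap (upK E K) [] q' = 0 := by
    intro q' hq'
    rw [kap_indep hI hφE (D.up E) [] (fun w hw => absurd hw List.not_mem_nil) hFE hq' hq1ne]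
    have h1 := kap_up (K := K) D E [] q
    rw [hk q hq, mul_zero, ← hq1] at h1
    exact h1
  have hsg : XX (upK E K) [(D.up E).sg, (D.up E).sg] = Module.finrank F E * XX K [D.sg, D.sg] := by
    rw [up_sg]
    exact XX_up K [D.sg, D.sg]
  have hfr : 0 < Module.finrank F E := Module.finrank_pos
  have hposE : 0 < XX (upK E K) [(D.up E).sg, (D.up E).sg] := by
    rw [hsg]
    exact Nat.mul_pos hfr hpos
  have hlow : ∀ q' : Fin 2 → E, q' ≠ 0 → XX (upK E K) [(D.up E).sg, (D.up E).sg] ≤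
      (d + 1) * XX (upK E K) [(D.up E).sg, (D.up E).zz q'] := by
    intro q' hq'
    rcases (dich (D.up E) hFE hq' (hkE q' hq')).2 with h | h
    · exact absurd ⟨E, iE, iA, iD, q', hq', h⟩ halt
    · exact h
  have hmean := mean_le hI hφE (D.up E) hFE hposE s (G.map (algebraMap F E)) (hG.map _)
    (fun t => by
      rw [MvPolynomial.coeff_map]
      exact ⟨G.coeff t, hGK t, rfl⟩) e he p hp (fun M _ ψ x => by
      rw [MvPolynomial.eval₂_map, ← hfac M ψ x]
      exact (hc' M (ψ.comp (algebraMap F E)) x).symm)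
  have heq : ∀ l, (d + 1) * XX (upK E K) [(D.up E).sg, (D.up E).zz (p l)] =
      XX (upK E K) [(D.up E).sg, (D.up E).sg] :=
    F5_mean rfl _ (fun l => hlow _ (hp l)) hmean
  have hprod : ∏ l, wd (p l) q1 = 0 := by
    have h1 := hfac E (RingHom.id E) q1
    have h2 := hc' E (algebraMap F E) q1
    have h3 : MvPolynomial.eval₂ (algebraMap F E)
        (fun i => ev (fun j => algebraMap F E (D.c i j)) q1) G = 0 := by
      have h4 : (fun i => ev (fun j => algebraMap F E (D.c i j)) q1) =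
          fun i => algebraMap F E (D.pt q i) := by
        funext i
        rw [hq1]
        exact (ev_map (algebraMap F E) (D.c i) q).symm
      rw [h4]
      have h5 := MvPolynomial.eval₂_comp_left (algebraMap F E) (RingHom.id F) (D.pt q) G
      have h6 : MvPolynomial.eval₂ (RingHom.id F) (D.pt q) G = 0 := hGq
      rw [h6, map_zero] at h5
      exact h5.symm
    rw [h3] at h2
    have h7 : e * ∏ l, wd (p l) q1 = 0 := h1.symm.trans h2
    exact (mul_eq_zero.1 h7).resolve_left he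
  obtain ⟨l, _, hl⟩ := Finset.prod_eq_zero_iff.1 hprod
  have hXX : XX (upK E K) [(D.up E).sg, (D.up E).zz (p l)] =
      XX (upK E K) [(D.up E).sg, (D.up E).zz q1] :=
    XX_pr _ (List.Forall₂.cons (F5_refl _) (List.Forall₂.cons
      (pr_zz_of_pt _ (pr_pt_of_wd _ (hp l) hq1ne hl)) List.Forall₂.nil))
  have hzz : XX (upK E K) [(D.up E).sg, (D.up E).zz q1] =
      Module.finrank F E * XX K [D.sg, D.zz q] := by
    rw [hq1, up_sg, up_zz]
    exact XX_up K [D.sg, D.zz q]
  have h8 := heq l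
  rw [hXX, hzz, hsg] at h8
  have h9 : Module.finrank F E * ((d + 1) * XX K [D.sg, D.zz q]) =
      Module.finrank F E * XX K [D.sg, D.sg] := by
    rw [← h8]
    ring
  exact Nat.eq_of_mul_eq_mul_left hfr h9

end Pool.Agent.Lib.MP_1e3e9c_agU
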