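import Mathlib
import Pool.Agent.Lib.MP_1e3e9c_agU.E5
import Pool.Agent.Lib.MP_1e3e9c_agU.E2

/-!
# MP_1e3e9c_ag, project U, leaf F6: the mean is not constant

Suppose equality for all `q`. Cut by `sg`: `Ω`, `C`, `κ` as in `mean_le` (leaf F2), `FF κ 1`,
`XX K [sg, z] = ht κ (up z)` (`XX_perm`, `XX_ht`). There is `x ∈ F` not algebraic over `κ` (otherwise
`Ω = F(C)` would be algebraic over `κ`, which contains the `C`, but `trdeg Ω/κ = 1`); `exists_place`: a
place `V` of `Ω/κ` and (`x`) an element `w ∈ F` with `ord V w > 0`. Put `q = (1, 0)`, `q_N = (1, w^N)`: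
`wd q q_N = w^N`. By `dd_sum` for `D.up Ω` over `κ` (with `up_pt`, `ht_zz`)
`∑ deg V' dd V' q q_N = (d+1) (ht (pt q) + ht (pt q_N)) - ∑_m ht (pt (p m))
  = XX [sg,sg] + XX [sg,sg] - XX [sg,sg]` (`XX_sg` for `l = [sg]`). All terms are `≥ 0` (`dd_nonneg`), so
`dd V q q_N ≤ XX [sg, sg]` for all `N` (`deg_pos`, `dd_fin`, `finsum`). But
`dd V q q_N = (d+1)² N ord V w - (d+1) (al V (pt q) + al V (pt q_N)) + nu V`; choose `i` with
`c i 0 ≠ 0`: `pt q_N i = c i 0 + w^N (...)` has order `ord V (c i 0)` for all large `N`, so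
`al V (pt q_N) ≤ ord V (c i 0)`: `dd V q q_N → ∞`. Contradiction.
-/

set_option autoImplicit false

namespace Pool.Agent.Lib.MP_1e3e9c_agU

open IsLocalRing Pool.Agent.Lib.MP_b197b4_ntK

variable {k F : Type} [Field k] [CharZero k] [Field F] [CharZero F] {n d r : ℕ}
  {I : Ideal (MvPolynomial (Fin (n + 1) × Fin (d + 1 + 1)) k)} {φ : k →+* F} {K : Subfield F}

/-! ### Values near a zero of the parameter -/

private theorem F6_ord_neg {Ω : Type} [Field Ω] {V : ValuationSubring Ω}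
    (hV : IsDiscreteValuationRing V) {x : Ω} (hx : x ≠ 0) : ord V (-x) = ord V x := by
  have h1 : ord V (-1 : Ω) = 0 := by
    have h := ord_mul hV (x := (-1 : Ω)) (y := -1) (neg_ne_zero.2 one_ne_zero)
      (neg_ne_zero.2 one_ne_zero)
    rw [neg_mul_neg, one_mul, ord_one V hV] at h
    omega
  have h2 : -x = (-1) * x := by ring
  rw [h2, ord_mul hV (neg_ne_zero.2 one_ne_zero) hx, h1, zero_add]

/-- The order of `∑ a j w ^ (N j)` for large `N`. -/
private theorem F6_ev {Ω : Type} [Field Ω] {V : ValuationSubring Ω}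
    (hV : IsDiscreteValuationRing V) {D : ℕ} (a : Fin (D + 1) → Ω) (h0 : a 0 ≠ 0) {w : Ω}
    (hw : 0 < ord V w) (hw0 : w ≠ 0) : ∃ N₁ : ℕ, ∀ N : ℕ, N₁ ≤ N →
      ev a ![1, w ^ N] ≠ 0 ∧ ord V (ev a ![1, w ^ N]) ≤ ord V (a 0) := by
  refine ⟨(ord V (a 0) + 1 + ∑ j, |ord V (a j)|).toNat, fun N hN => ?_⟩
  have hN1 : ord V (a 0) + 1 + ∑ j, |ord V (a j)| ≤ N := Int.toNat_le.1 hN
  have hev : ev a ![1, w ^ N] = a 0 + ∑ j : Fin D, a j.succ * (w ^ N) ^ (j.succ : ℕ) := by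
    unfold ev
    rw [Fin.sum_univ_succ]
    simp
  have hS : ∑ j : Fin D, a j.succ * (w ^ N) ^ (j.succ : ℕ) ≠ 0 →
      ord V (a 0) + 1 ≤ ord V (∑ j : Fin D, a j.succ * (w ^ N) ^ (j.succ : ℕ)) := by
    intro hne
    refine le_ord_sum hV _ _ (fun j _ hj => ?_) hne
    have ha : a j.succ ≠ 0 := left_ne_zero_of_mul hj
    have hwN : w ^ N ≠ 0 := pow_ne_zero _ hw0
    rw [ord_mul hV ha (pow_ne_zero _ hwN), ord_pow hV hwN, ord_pow hV hw0]
    have h1 : |ord V (a j.succ)| ≤ ∑ j, |ord V (a j)| :=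
      Finset.single_le_sum (f := fun j => |ord V (a j)|) (fun i _ => abs_nonneg _)
        (Finset.mem_univ _)
    have h2 : -|ord V (a j.succ)| ≤ ord V (a j.succ) := neg_abs_le _
    have h3 : (N : ℤ) ≤ ((j.succ : ℕ) : ℤ) * ((N : ℤ) * ord V w) := by
      have e1 : (N : ℤ) ≤ (N : ℤ) * ord V w := by nlinarith
      have e2 : (1 : ℤ) ≤ ((j.succ : ℕ) : ℤ) := by
        rw [Fin.val_succ]
        push_cast
        omega
      nlinarith
    linarith
  by_contra hcon
  have hx : ev a ![1, w ^ N] ≠ 0 → ord V (a 0) + 1 ≤ ord V (ev a ![1, w ^ N]) := by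
    intro h
    by_contra h'
    exact hcon ⟨h, by omega⟩
  have hy : -(∑ j : Fin D, a j.succ * (w ^ N) ^ (j.succ : ℕ)) ≠ 0 →
      ord V (a 0) + 1 ≤ ord V (-(∑ j : Fin D, a j.succ * (w ^ N) ^ (j.succ : ℕ))) := by
    intro h
    have h' := neg_ne_zero.1 h
    rw [F6_ord_neg hV h']
    exact hS h'
  have hsum : ev a ![1, w ^ N] + -(∑ j : Fin D, a j.succ * (w ^ N) ^ (j.succ : ℕ)) = a 0 := by
    rw [hev]
    ring
  have h1 := le_ord_add hV hx hy (by rw [hsum]; exact h0)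
  rw [hsum] at h1
  omega

omit [CharZero F] in
/-- There is an element of `F` which is not algebraic over the field of constants of the cut. -/
private theorem F6_trans {Ω μ ι : Type} [Field Ω] [Algebra F Ω] [Fintype ι] {C : μ × Bool × ι → Ω}
    (hC : Gn F C) (β : μ → ι → F) (S : Set μ) (h1 : FF (cb K C β S) 1) :
    ∃ x : F, ¬ IsAlgebraic (cb K C β S) (algebraMap F Ω x) := by
  by_contra hcon
  push Not at hcon
  let A : IntermediateField (cb K C β S) Ω := algebraicClosure (cb K C β S) Ω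
  let B : IntermediateField F Ω := Subfield.toIntermediateField A.toSubfield
    (fun x => mem_algebraicClosure_iff.2 (hcon x))
  have hB : ∀ x : Ω, x ∈ B := by
    intro x
    have h2 : IntermediateField.adjoin F (Set.range C) ≤ B := by
      rw [IntermediateField.adjoin_le_iff]
      rintro _ ⟨q, rfl⟩
      have h3 : C q ∈ cb K C β S :=
        Subfield.subset_closure (Or.inl (Or.inr ⟨q, rfl⟩))
      exact mem_algebraicClosure_iff.2 (isAlgebraic_algebraMap (⟨C q, h3⟩ : cb K C β S))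
    rw [hC.2] at h2
    exact h2 IntermediateField.mem_top
  have halg : Algebra.IsAlgebraic (cb K C β S) Ω := ⟨fun x => mem_algebraicClosure_iff.1 (hB x)⟩
  have h4 := h1.2
  rw [trdeg_eq_zero_iff.2 halg] at h4
  norm_num at h4

theorem not_const_mean (hI : Fam r I) (hφ : ∀ a, φ a ∈ K) (D : Dat I φ) (hF : FF K 2)
    (hpos : 0 < XX K [D.sg, D.sg]) :
    ∃ q : Fin 2 → F, q ≠ 0 ∧ (d + 1) * XX K [D.sg, D.zz q] ≠ XX K [D.sg, D.sg] := by
  by_contra hcon
  push Not at hcon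
  -- the generic cut
  let ι := Fin (d + 1) → Fin (n + 1)
  let Ω := GF F (Unit × Bool × ι)
  let C : Unit × Bool × ι → Ω := gc F (Unit × Bool × ι)
  have hC : Gn F C := gn_gc F (Unit × Bool × ι)
  let β : Unit → ι → F := fun _ => D.sg
  have hs : [()].Nodup := List.nodup_singleton ()
  have h1 : FF (cb K C β {i | i ∈ [()]}) 1 :=
    FF_cb hC β [()] hs (e := 1) hF [D.sg] rfl hpos
  set κ := cb K C β {i | i ∈ [()]} with hκ
  have : CharZero Ω := charZero_of_injective_algebraMap (algebraMap F Ω).injective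
  have hφκ : ∀ a, ((algebraMap F Ω).comp φ) a ∈ κ := fun a =>
    Subfield.subset_closure (Or.inl (Or.inl ⟨φ a, hφ a, rfl⟩))
  -- heights
  have hht : ∀ q : Fin 2 → F, q ≠ 0 →
      ht κ ((D.up Ω).pt fun a => algebraMap F Ω (q a)) = XX K [D.sg, D.zz q] := by
    intro q hq
    have h2 := XX_ht hC β [()] hs h1 (zz_ne D hq)
    have h3 : XX K (D.zz q :: [()].map β) = XX K [D.sg, D.zz q] :=
      XX_perm K (List.Perm.swap _ _ _)
    rw [h3] at h2
    rw [h2, ← ht_zz, up_zz]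
  -- a place
  obtain ⟨w, hw⟩ := F6_trans hC β {i | i ∈ [()]} h1
  obtain ⟨V, hV, hVw⟩ := exists_place h1 hw
  have hw0 : w ≠ 0 := by
    rintro rfl
    apply hw
    rw [map_zero]
    exact isAlgebraic_zero
  have hW0 : algebraMap F Ω w ≠ 0 := (map_ne_zero (algebraMap F Ω)).2 hw0
  -- the points
  have hq1 : (![1, 0] : Fin 2 → F) ≠ 0 := fun h => one_ne_zero (congrFun h 0)
  have hq2 : ∀ N : ℕ, (![1, w ^ N] : Fin 2 → F) ≠ 0 := fun N h => one_ne_zero (congrFun h 0)
  have hsum : ∀ N : ℕ, ∑ᶠ (V : ValuationSubring Ω) (_ : Dv κ V), (deg κ V : ℤ) *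
      (D.up Ω).dd V (fun a => algebraMap F Ω ((![1, 0] : Fin 2 → F) a))
        (fun a => algebraMap F Ω ((![1, w ^ N] : Fin 2 → F) a)) =
      (XX K [D.sg, D.sg] : ℤ) := by
    intro N
    have hwd : wd (fun a => algebraMap F Ω ((![1, 0] : Fin 2 → F) a))
        (fun a => algebraMap F Ω ((![1, w ^ N] : Fin 2 → F) a)) ≠ 0 := by
      unfold wd
      simp [hw0]
    rw [dd_sum h1 (D.up Ω) hwd, hht _ hq1, hht _ (hq2 N)]
    have h4 : ∀ l, ht κ ((D.up Ω).pt ((D.up Ω).p l)) = XX K [D.sg, D.zz (D.p l)] :=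
      fun l => hht (D.p l) (D.pne l)
    rw [Finset.sum_congr rfl (fun l _ => h4 l)]
    have h5 := XX_sg D [D.sg] hF
    have h6 : ∑ l, (XX K [D.sg, D.zz (D.p l)] : ℤ) = (XX K [D.sg, D.sg] : ℤ) := by
      rw [h5]
      push_cast
      refine Finset.sum_congr rfl fun l _ => ?_
      rw [XX_perm K (List.Perm.swap (D.sg) (D.zz (D.p l)) [])]
    rw [h6]
    have h7 : ((d : ℤ) + 1) * (XX K [D.sg, D.zz ![1, 0]] : ℤ) = (XX K [D.sg, D.sg] : ℤ) := by
      exact_mod_cast hcon _ hq1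
    have h8 : ((d : ℤ) + 1) * (XX K [D.sg, D.zz ![1, w ^ N]] : ℤ) = (XX K [D.sg, D.sg] : ℤ) := by
      exact_mod_cast hcon _ (hq2 N)
    rw [mul_add, h7, h8]
    ring
  -- the local term is bounded
  have hbd : ∀ N : ℕ, (D.up Ω).dd V (fun a => algebraMap F Ω ((![1, 0] : Fin 2 → F) a))
        (fun a => algebraMap F Ω ((![1, w ^ N] : Fin 2 → F) a)) ≤ (XX K [D.sg, D.sg] : ℤ) := by
    intro N
    have hwd : wd (fun a => algebraMap F Ω ((![1, 0] : Fin 2 → F) a))
        (fun a => algebraMap F Ω ((![1, w ^ N] : Fin 2 → F) a)) ≠ 0 := by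
      unfold wd
      simp [hw0]
    have hfin := dd_fin h1 (D.up Ω) hwd
    have hnn : ∀ V', Dv κ V' → 0 ≤ (D.up Ω).dd V'
        (fun a => algebraMap F Ω ((![1, 0] : Fin 2 → F) a))
        (fun a => algebraMap F Ω ((![1, w ^ N] : Fin 2 → F) a)) := fun V' hV' =>
      dd_nonneg hI (D.up Ω) hV'.1 (fun a => hV'.2 _ (hφκ a)) hwd
    classical
    rw [← hsum N]
    have h3 : ∀ V' : ValuationSubring Ω, (∑ᶠ (_ : Dv κ V'), (deg κ V' : ℤ) *
        (D.up Ω).dd V' (fun a => algebraMap F Ω ((![1, 0] : Fin 2 → F) a))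
        (fun a => algebraMap F Ω ((![1, w ^ N] : Fin 2 → F) a))) =
        if Dv κ V' then (deg κ V' : ℤ) *
        (D.up Ω).dd V' (fun a => algebraMap F Ω ((![1, 0] : Fin 2 → F) a))
        (fun a => algebraMap F Ω ((![1, w ^ N] : Fin 2 → F) a)) else 0 := fun V' =>
      finsum_eq_if
    rw [finsum_congr h3]
    have h4 := single_le_finsum V (f := fun V' : ValuationSubring Ω => if Dv κ V' then
        (deg κ V' : ℤ) *
        (D.up Ω).dd V' (fun a => algebraMap F Ω ((![1, 0] : Fin 2 → F) a))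
        (fun a => algebraMap F Ω ((![1, w ^ N] : Fin 2 → F) a)) else 0) ?_ ?_
    · refine le_trans ?_ h4
      rw [if_pos hV]
      have h5 : (1 : ℤ) ≤ (deg κ V : ℤ) := by exact_mod_cast deg_pos h1 hV
      have h6 := hnn V hV
      nlinarith
    · refine hfin.subset fun V' hV' => ?_
      rw [Function.mem_support] at hV'
      by_cases h : Dv κ V'
      · rw [if_pos h] at hV'
        exact ⟨h, right_ne_zero_of_mul hV'⟩
      · rw [if_neg h] at hV'
        exact absurd rfl hV'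
    · intro V'
      by_cases h : Dv κ V'
      · rw [if_pos h]
        exact mul_nonneg (Int.natCast_nonneg _) (hnn V' h)
      · rw [if_neg h]
  -- the local term is not bounded
  obtain ⟨i, hi⟩ := D.bpf.ev_ne hq1
  have hi0 : D.c i 0 ≠ 0 := by
    intro h
    apply hi
    unfold ev
    rw [Fin.sum_univ_succ, h]
    simp
  obtain ⟨N₁, hN₁⟩ := F6_ev hV.1 (fun j => algebraMap F Ω (D.c i j))
    ((map_ne_zero (algebraMap F Ω)).2 hi0) hVw hW0
  obtain ⟨T, hT⟩ : ∃ T : ℤ, T = (XX K [D.sg, D.sg] : ℤ) + ((d : ℤ) + 1) *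
      (al V ((D.up Ω).pt fun a => algebraMap F Ω ((![1, 0] : Fin 2 → F) a)) +
        ord V (algebraMap F Ω (D.c i 0))) - (D.up Ω).nu V := ⟨_, rfl⟩
  have hfinal := hbd (N₁ + (T + 1).toNat)
  set N := N₁ + (T + 1).toNat with hN
  obtain ⟨hne, hle⟩ := hN₁ N (by omega)
  have hvec : (fun a => algebraMap F Ω ((![1, w ^ N] : Fin 2 → F) a)) =
      ![1, (algebraMap F Ω w) ^ N] := by
    funext a
    fin_cases a
    · simp
    · simp
  have hal : al V ((D.up Ω).pt fun a => algebraMap F Ω ((![1, w ^ N] : Fin 2 → F) a)) ≤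
      ord V (algebraMap F Ω (D.c i 0)) := by
    rw [hvec]
    refine le_trans (al_le (j := i) ?_) hle
    exact hne
  have hwd2 : wd (fun a => algebraMap F Ω ((![1, 0] : Fin 2 → F) a))
      (fun a => algebraMap F Ω ((![1, w ^ N] : Fin 2 → F) a)) = (algebraMap F Ω w) ^ N := by
    unfold wd
    simp
  unfold Dat.dd at hfinal
  rw [hwd2, ord_pow hV.1 hW0] at hfinal
  have hNT : T + 1 ≤ (N : ℤ) := by
    rw [hN]
    push_cast
    have := Int.self_le_toNat (T + 1)
    omega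
  have hd1 : (1 : ℤ) ≤ ((d : ℤ) + 1) := by omega
  have hord : (N : ℤ) ≤ (N : ℤ) * ord V (algebraMap F Ω w) := by nlinarith
  have hN0 : (0 : ℤ) ≤ (N : ℤ) := Int.natCast_nonneg _
  have h9 : (N : ℤ) * ord V (algebraMap F Ω w) ≤
      ((d : ℤ) + 1) ^ 2 * ((N : ℤ) * ord V (algebraMap F Ω w)) :=
    le_mul_of_one_le_left (by linarith) (one_le_pow₀ hd1)
  have h10 : ((d : ℤ) + 1) *
      (al V ((D.up Ω).pt fun a => algebraMap F Ω ((![1, 0] : Fin 2 → F) a)) +
        al V ((D.up Ω).pt fun a => algebraMap F Ω ((![1, w ^ N] : Fin 2 → F) a))) ≤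
      ((d : ℤ) + 1) *
      (al V ((D.up Ω).pt fun a => algebraMap F Ω ((![1, 0] : Fin 2 → F) a)) +
        ord V (algebraMap F Ω (D.c i 0))) :=
    mul_le_mul_of_nonneg_left (by linarith) (by linarith)
  linarith

end Pool.Agent.Lib.MP_1e3e9c_agU
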