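import Mathlib
import Pool.Agent.Lib.MP_1e3e9c_agU.F5
import Pool.Agent.Lib.MP_1e3e9c_agU.F6
import Pool.Agent.Lib.MP_1e3e9c_agU.F7

/-!
# MP_1e3e9c_ag, project U, leaf F8: a constant point on every surface

`not_const_mean` gives `q` without equality, `const_mean` then `E`, `q'` with
`XX (upK E K) [sg, zz q'] = 0` (for `D.up E`); `con_of_XX_zero` over `E` (`FF_up`, `XX_up`, `up_sg`:
`XX (upK E K) [sg, sg] > 0`; `sg_ne`, `zz_ne`), `con_zz`.
-/

set_option autoImplicit false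

namespace Pool.Agent.Lib.MP_1e3e9c_agU

open IsLocalRing Pool.Agent.Lib.MP_b197b4_ntK

variable {k F : Type} [Field k] [CharZero k] [Field F] [CharZero F] {n d r : ℕ}
  {I : Ideal (MvPolynomial (Fin (n + 1) × Fin (d + 1 + 1)) k)} {φ : k →+* F} {K : Subfield F}

theorem surf (hI : Fam r I) (hφ : ∀ a, φ a ∈ K) (D : Dat I φ) (hF : FF K 2)
    (hk : ∀ q : Fin 2 → F, q ≠ 0 → D.kap K [] q = 0) (hpos : 0 < XX K [D.sg, D.sg]) :
    ∃ (E : Type) (_ : Field E) (_ : Algebra F E) (_ : FiniteDimensional F E) (q' : Fin 2 → E),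
      q' ≠ 0 ∧ Con (upK E K) ((D.up E).pt q') := by
  obtain ⟨q, hq, hne⟩ := not_const_mean hI hφ D hF hpos
  rcases const_mean hI hφ D hF hk hpos q hq with ⟨E, i1, i2, i3, q', hq', h0⟩ | h
  · refine ⟨E, i1, i2, i3, q', hq', ?_⟩
    have : CharZero E := charZero_of_injective_algebraMap (algebraMap F E).injective
    have h1 : 0 < XX (upK E K) [(D.up E).sg, (D.up E).sg] := by
      have h2 := XX_up (E := E) K [D.sg, D.sg]
      rw [up_sg]
      rw [List.map_cons, List.map_cons, List.map_nil] at h2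
      rw [h2]
      exact Nat.mul_pos Module.finrank_pos hpos
    exact (con_zz (D.up E) q').1 (con_of_XX_zero (FF_up hF) (sg_ne _) (zz_ne _ hq') h1 h0)
  · exact absurd h hne

end Pool.Agent.Lib.MP_1e3e9c_agU
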