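import Mathlib
import Pool.Agent.Lib.MP_1e3e9c_agU.E9
import Pool.Agent.Lib.MP_1e3e9c_agU.F8
import Pool.Agent.Lib.MP_1e3e9c_agU.Defs3

/-!
# MP_1e3e9c_ag, project U, leaf G3: a constant point on each generic surface

`κ = cb K C β {i | i ∈ s}`: `FF κ 2` (`FF_cb` with `l = [zz (p a), zz (p b)]`, `hpos`).
`kap = 0` over `κ`: for `q` from `F²` by `kap_cut` (`l = []`) it is
`D.kap K (s.map β) q = 0` (`ladder hI r`, `List.map_map`, `few_of` as hypothesis `hfew`), and
`kap_indep` for `D.up Ω` over `κ` (`l = []`) gives it for all `q` in `Ω²`.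
`XX κ [sg, sg] > 0`: `XX_sg` twice and `XX_perm`: it is `∑_m ∑_m' XX κ [zz (p m), zz (p m')]`, and the term
for `a`, `b` is `XX K (zz (p a) :: zz (p b) :: s.map β) > 0` (`XX_tower`, `up_zz`). `surf` for `D.up Ω`
over `κ`: `E`, `q'`. `E` is algebraic over `Ω` and `A` is algebraically closed: `E → A` over `Ω`
(`IsAlgClosed.lift`); `q` = the image of `q'`; `Con` is preserved.
-/

set_option autoImplicit false

namespace Pool.Agent.Lib.MP_1e3e9c_agU

open IsLocalRing Pool.Agent.Lib.MP_b197b4_ntK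

variable {k F : Type} [Field k] [CharZero k] [Field F] [CharZero F] {n d r : ℕ}
  {I : Ideal (MvPolynomial (Fin (n + 1) × Fin (d + 1 + 1)) k)} {φ : k →+* F} {K : Subfield F}

private theorem G3_alg {Ω E A : Type} [Field Ω] [Field E] [Field A] [Algebra Ω E] [Algebra Ω A]
    (κ : Subfield Ω) (σ : E →ₐ[Ω] A) {x : E} (hx : IsAlgebraic (upK E κ) x) :
    IsAlgebraic (upK A κ) (σ x) := by
  have hmem : ∀ y : upK E κ, σ (y : E) ∈ upK A κ := by
    rintro ⟨_, y, hy, rfl⟩
    refine ⟨y, hy, ?_⟩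
    exact (σ.commutes y).symm
  let τ : upK E κ →+* upK A κ := ((σ : E →+* A).comp (upK E κ).subtype).codRestrict (upK A κ) hmem
  obtain ⟨p, hp, hpx⟩ := hx
  refine ⟨p.map τ, (Polynomial.map_ne_zero_iff τ.injective).2 hp, ?_⟩
  rw [Polynomial.aeval_def, Polynomial.eval₂_map]
  have h1 : (algebraMap (upK A κ) A).comp τ = (σ : E →+* A).comp (algebraMap (upK E κ) E) := by
    ext y
    rfl
  rw [h1]
  rw [Polynomial.aeval_def] at hpx
  have h2 := Polynomial.hom_eval₂ p (algebraMap (upK E κ) E) (σ : E →+* A) x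
  rw [hpx, map_zero] at h2
  exact h2.symm

theorem pair_point (hI : Fam r I) (hφ : ∀ a, φ a ∈ K) (D : Dat I φ) (hfew : D.few r)
    {Ω μ : Type} [Field Ω] [Algebra F Ω] [Finite μ]
    {C : μ × Bool × (Fin (d + 1) → Fin (n + 1)) → Ω} (hC : Gn F C) (lb : μ → Fin (d + 1))
    (s : List μ) (hs : s.Nodup) (hF : FF K (s.length + 2)) (hr : r ≤ s.length + 1)
    (a b : Fin (d + 1))
    (hpos : 0 < XX K (D.zz (D.p a) :: D.zz (D.p b) :: s.map fun i => D.zz (D.p (lb i))))
    (A : Type) [Field A] [IsAlgClosed A] [Algebra Ω A] [Algebra F A] [IsScalarTower F Ω A] :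
    ∃ q : Fin 2 → A, q ≠ 0 ∧
      Con (upK A (cb K C (fun i => D.zz (D.p (lb i))) {i | i ∈ s})) (ptA A D.c q) := by
  classical
  have : CharZero Ω := charZero_of_injective_algebraMap (algebraMap F Ω).injective
  set β : μ → (Fin (d + 1) → Fin (n + 1)) → F := fun i => D.zz (D.p (lb i)) with hβ
  set κ : Subfield Ω := cb K C β {i | i ∈ s} with hκ
  have hFκ : FF κ 2 := by
    refine FF_cb (e := 2) hC β s hs ?_ [D.zz (D.p a), D.zz (D.p b)] rfl hpos
    rw [add_comm]
    exact hF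
  have hφ' : ∀ x, ((algebraMap F Ω).comp φ) x ∈ κ := fun x =>
    Subfield.subset_closure (Or.inl (Or.inl ⟨φ x, hφ x, rfl⟩))
  have hk0 : ∀ q : Fin 2 → F, q ≠ 0 → D.kap K (s.map β) q = 0 := by
    intro q hq
    have h1 := ladder hI r F φ K hφ D (s.map lb) (by rw [List.length_map]; exact hF)
      (by rw [List.length_map]; exact hr) hfew q hq
    rw [List.map_map] at h1
    exact h1
  have hk : ∀ q : Fin 2 → Ω, q ≠ 0 → (D.up Ω).kap κ [] q = 0 := by
    intro q hq
    have hnil : ∀ w ∈ ([] : List ((Fin (d + 1) → Fin (n + 1)) → Ω)), w ≠ 0 := by simp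
    rw [kap_indep hI hφ' (D.up Ω) [] hnil hFκ hq ((D.up Ω).pne 0)]
    have h1 := kap_cut (K := K) D hC β s hs [] (D.p 0)
    rw [List.nil_append, hk0 (D.p 0) (D.pne 0)] at h1
    exact h1
  have hterm : 0 < XX κ [(D.up Ω).zz ((D.up Ω).p a), (D.up Ω).zz ((D.up Ω).p b)] := by
    have h1 := XX_tower K hC β s hs [D.zz (D.p a), D.zz (D.p b)]
    have h2 : [D.zz (D.p a), D.zz (D.p b)].map (up Ω) =
        [(D.up Ω).zz ((D.up Ω).p a), (D.up Ω).zz ((D.up Ω).p b)] := by
      rw [List.map_cons, List.map_cons, List.map_nil, ← up_zz, ← up_zz]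
      rfl
    rw [h2] at h1
    rw [hκ, h1]
    exact hpos
  have hpos2 : 0 < XX κ [(D.up Ω).sg, (D.up Ω).sg] := by
    have hsw : ∀ x y : (Fin (d + 1) → Fin (n + 1)) → Ω, XX κ [x, y] = XX κ [y, x] := fun x y =>
      XX_perm κ (List.Perm.swap y x [])
    rw [XX_sg (D.up Ω) [(D.up Ω).sg] hFκ]
    refine lt_of_lt_of_le ?_ (Finset.single_le_sum
      (f := fun m => XX κ [(D.up Ω).zz ((D.up Ω).p m), (D.up Ω).sg])
      (fun m _ => Nat.zero_le _) (Finset.mem_univ b))
    change 0 < XX κ [(D.up Ω).zz ((D.up Ω).p b), (D.up Ω).sg]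
    rw [hsw, XX_sg (D.up Ω) [(D.up Ω).zz ((D.up Ω).p b)] hFκ]
    exact lt_of_lt_of_le hterm (Finset.single_le_sum
      (f := fun m => XX κ [(D.up Ω).zz ((D.up Ω).p m), (D.up Ω).zz ((D.up Ω).p b)])
      (fun m _ => Nat.zero_le _) (Finset.mem_univ a))
  obtain ⟨E, i1, i2, i3, q', hq', hcon⟩ := surf hI hφ' (D.up Ω) hFκ hk hpos2
  have i4 : Algebra.IsAlgebraic Ω E := Algebra.IsAlgebraic.of_finite Ω E
  let σ : E →ₐ[Ω] A := IsAlgClosed.lift
  refine ⟨fun x => σ (q' x), ?_, ?_⟩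
  · intro h0
    apply hq'
    funext x
    have h1 := congrFun h0 x
    exact (map_eq_zero σ).1 h1
  · have hpt : ∀ i, ptA A D.c (fun x => σ (q' x)) i = σ (((D.up Ω).up E).pt q' i) := by
      intro i
      have h1 := ev_map (σ : E →+* A) (((D.up Ω).up E).c i) q'
      refine Eq.trans ?_ h1.symm
      unfold ptA
      congr 1
      funext j
      change algebraMap F A (D.c i j) = σ (algebraMap Ω E (algebraMap F Ω (D.c i j)))
      rw [σ.commutes, ← IsScalarTower.algebraMap_apply]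
    intro i j hj
    rw [hpt] at hj
    rw [hpt, hpt, ← map_div₀]
    refine G3_alg κ σ (hcon i j ?_)
    intro h0
    apply hj
    rw [h0, map_zero]

end Pool.Agent.Lib.MP_1e3e9c_agU
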