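import Mathlib
import Pool.Agent.Lib.MP_1e3e9c_agU.C9
import Pool.Agent.Lib.MP_1e3e9c_agU.C10
import Pool.Agent.Lib.MP_1e3e9c_agU.E2
import Pool.Agent.Lib.MP_1e3e9c_agU.Defs3

/-!
# MP_1e3e9c_ag, project U, leaf G4: constant points on generic curves are unique

`κ = cb K C β {i | i ∈ s}`: `FF κ 1` (`FF_cb` with `l = [zz (p m)]`). Multiply `q`, `q'` by scalars: one
coordinate is `1`, the other one is algebraic over `Ω`; let `E` be the subfield of `A` generated over
`Ω` by the coordinates, finite over `Ω` (`IntermediateField.adjoin`). Suppose `wd q q' ≠ 0`. The datum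
`D.up E` (or `(D.up Ω).up E`) over `upK E κ`, `FF (upK E κ) 1` (`FF_up`), the parameters `q`, `q'` in
`E²`, `Con` descends from `A` to `E`. `two_const`: `ht (pt (p m)) = 0` over `upK E κ`. But it is
`[E : Ω] ht κ (up Ω (pt (p m)))` (`ht_up`), `= [E : Ω] XX K (zz (p m) :: s.map β) > 0` (`XX_ht`, `ht_zz`,
`up_zz`): contradiction.
-/

set_option autoImplicit false

namespace Pool.Agent.Lib.MP_1e3e9c_agU

open IsLocalRing Pool.Agent.Lib.MP_b197b4_ntK

variable {k F : Type} [Field k] [CharZero k] [Field F] [CharZero F] {n d r : ℕ}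
  {I : Ideal (MvPolynomial (Fin (n + 1) × Fin (d + 1 + 1)) k)} {φ : k →+* F} {K : Subfield F}

/-- The case of a finite extension. -/
private theorem G4_fin (hI : Fam r I) (hφ : ∀ a, φ a ∈ K) (D : Dat I φ) {Ω μ : Type} [Field Ω]
    [Algebra F Ω] [Finite μ] {C : μ × Bool × (Fin (d + 1) → Fin (n + 1)) → Ω} (hC : Gn F C)
    (β : μ → (Fin (d + 1) → Fin (n + 1)) → F) (s : List μ) (hs : s.Nodup)
    (hF : FF K (s.length + 1)) (m : Fin (d + 1))
    (hpos : 0 < XX K (D.zz (D.p m) :: s.map β)) (E : Type) [Field E] [Algebra Ω E]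
    [FiniteDimensional Ω E] (q q' : Fin 2 → E)
    (hc : Con (upK E (cb K C β {i | i ∈ s})) (((D.up Ω).up E).pt q))
    (hc' : Con (upK E (cb K C β {i | i ∈ s})) (((D.up Ω).up E).pt q')) : wd q q' = 0 := by
  by_contra hw
  have hΩ0 : CharZero Ω := charZero_of_injective_algebraMap (algebraMap F Ω).injective
  have hE0 : CharZero E := charZero_of_injective_algebraMap (algebraMap Ω E).injective
  have h1 : FF (cb K C β {i | i ∈ s}) 1 :=
    FF_cb hC β s hs (by rw [Nat.add_comm]; exact hF) [D.zz (D.p m)] rfl hpos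
  have h2 : FF (upK E (cb K C β {i | i ∈ s})) 1 := FF_up h1
  have hφ2 : ∀ a, ((algebraMap Ω E).comp ((algebraMap F Ω).comp φ)) a ∈
      upK E (cb K C β {i | i ∈ s}) := by
    intro a
    refine Subfield.mem_map.2 ⟨algebraMap F Ω (φ a), ?_, rfl⟩
    exact Subfield.subset_closure (Or.inl (Or.inl ⟨φ a, hφ a, rfl⟩))
  have h3 := two_const hI hφ2 h2 ((D.up Ω).up E) hw hc hc' m
  have h4 : ((D.up Ω).up E).pt (((D.up Ω).up E).p m) = up E ((D.up Ω).pt ((D.up Ω).p m)) :=
    up_pt (D.up Ω) E ((D.up Ω).p m)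
  have h5 : (D.up Ω).pt ((D.up Ω).p m) ≠ 0 := pt_ne (D.up Ω) ((D.up Ω).pne m)
  rw [h4, ht_up h1 h5] at h3
  have h6 : (Module.finrank Ω E : ℤ) ≠ 0 := by
    exact_mod_cast (Module.finrank_pos (R := Ω) (M := E)).ne'
  have h7 : ht (cb K C β {i | i ∈ s}) ((D.up Ω).pt ((D.up Ω).p m)) = 0 :=
    (mul_eq_zero.1 h3).resolve_left h6
  have h8 : up Ω (D.zz (D.p m)) = (D.up Ω).zz ((D.up Ω).p m) := (up_zz D Ω (D.p m)).symm
  have h9 := XX_ht hC β s hs h1 (zz_ne D (D.pne m))
  rw [h8, ht_zz, h7] at h9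
  have h10 : XX K (D.zz (D.p m) :: s.map β) = 0 := by exact_mod_cast h9
  omega

/-- Being algebraic over the image of a subfield descends. -/
private theorem G4_desc {Ω E A : Type} [Field Ω] [Field E] [Field A] [Algebra Ω E] [Algebra Ω A]
    (g : E →+* A) (hg : ∀ x, g (algebraMap Ω E x) = algebraMap Ω A x) (κ : Subfield Ω) (x : E)
    (h : IsAlgebraic (upK A κ) (g x)) : IsAlgebraic (upK E κ) x := by
  have hm : ∀ y ∈ upK E κ, g y ∈ upK A κ := by
    intro y hy
    obtain ⟨z, hz, rfl⟩ := Subfield.mem_map.1 hy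
    exact Subfield.mem_map.2 ⟨z, hz, (hg z).symm⟩
  refine IsAlgebraic.of_ringHom_of_comp_eq (g.restrict (upK E κ) (upK A κ) hm) g h ?_
    g.injective ?_
  · rintro ⟨y, hy⟩
    obtain ⟨z, hz, rfl⟩ := Subfield.mem_map.1 hy
    exact ⟨⟨algebraMap Ω E z, Subfield.mem_map.2 ⟨z, hz, rfl⟩⟩, Subtype.ext (hg z)⟩
  · ext y
    rfl

theorem uniq (hI : Fam r I) (hφ : ∀ a, φ a ∈ K) (D : Dat I φ) {Ω μ : Type} [Field Ω]
    [Algebra F Ω] [Finite μ] {C : μ × Bool × (Fin (d + 1) → Fin (n + 1)) → Ω} (hC : Gn F C)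
    (β : μ → (Fin (d + 1) → Fin (n + 1)) → F) (s : List μ) (hs : s.Nodup)
    (hβ : ∀ i ∈ s, β i ≠ 0) (hF : FF K (s.length + 1)) (m : Fin (d + 1))
    (hpos : 0 < XX K (D.zz (D.p m) :: s.map β)) (A : Type) [Field A] [Algebra Ω A] [Algebra F A]
    [IsScalarTower F Ω A] [Algebra.IsAlgebraic Ω A] (q q' : Fin 2 → A) (hq : q ≠ 0) (hq' : q' ≠ 0)
    (hc : Con (upK A (cb K C β {i | i ∈ s})) (ptA A D.c q))
    (hc' : Con (upK A (cb K C β {i | i ∈ s})) (ptA A D.c q')) : wd q q' = 0 := by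
  obtain ⟨S, hS, hSf⟩ : ∃ S : Set A, (∀ a, q a ∈ S ∧ q' a ∈ S) ∧ S.Finite :=
    ⟨Set.range q ∪ Set.range q', fun a => ⟨Or.inl ⟨a, rfl⟩, Or.inr ⟨a, rfl⟩⟩,
      (Set.finite_range q).union (Set.finite_range q')⟩
  have hSfin : Finite S := hSf
  have hfd : FiniteDimensional Ω (IntermediateField.adjoin Ω S) :=
    IntermediateField.finiteDimensional_adjoin fun x _ =>
      (Algebra.IsAlgebraic.isAlgebraic x).isIntegral
  obtain ⟨q1, hq1⟩ : ∃ q1 : Fin 2 → IntermediateField.adjoin Ω S, ∀ a, (q1 a : A) = q a :=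
    ⟨fun a => ⟨q a, IntermediateField.subset_adjoin Ω S (hS a).1⟩, fun a => rfl⟩
  obtain ⟨q2, hq2⟩ : ∃ q2 : Fin 2 → IntermediateField.adjoin Ω S, ∀ a, (q2 a : A) = q' a :=
    ⟨fun a => ⟨q' a, IntermediateField.subset_adjoin Ω S (hS a).2⟩, fun a => rfl⟩
  have hpt : ∀ (x : Fin 2 → IntermediateField.adjoin Ω S) (y : Fin 2 → A),
      (∀ a, (x a : A) = y a) → ∀ i,
      algebraMap (IntermediateField.adjoin Ω S) A
        (((D.up Ω).up (IntermediateField.adjoin Ω S)).pt x i) = ptA A D.c y i := by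
    intro x y hxy i
    show algebraMap (IntermediateField.adjoin Ω S) A
      (ev (fun j => algebraMap Ω (IntermediateField.adjoin Ω S) (algebraMap F Ω (D.c i j))) x) =
      ev (fun j => algebraMap F A (D.c i j)) y
    rw [ev_map]
    have e1 : (fun j => algebraMap (IntermediateField.adjoin Ω S) A
        (algebraMap Ω (IntermediateField.adjoin Ω S) (algebraMap F Ω (D.c i j)))) =
        fun j => algebraMap F A (D.c i j) := by
      funext j
      rw [IsScalarTower.algebraMap_apply F Ω A]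
      rfl
    have e2 : (fun a => algebraMap (IntermediateField.adjoin Ω S) A (x a)) = y := by
      funext a
      exact hxy a
    rw [e1, e2]
  have hcon : ∀ (x : Fin 2 → IntermediateField.adjoin Ω S) (y : Fin 2 → A),
      (∀ a, (x a : A) = y a) → Con (upK A (cb K C β {i | i ∈ s})) (ptA A D.c y) →
      Con (upK (IntermediateField.adjoin Ω S) (cb K C β {i | i ∈ s}))
        (((D.up Ω).up (IntermediateField.adjoin Ω S)).pt x) := by
    intro x y hxy h i j hj
    apply G4_desc (Ω := Ω) (algebraMap (IntermediateField.adjoin Ω S) A) (fun z => rfl)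
    rw [map_div₀, hpt x y hxy, hpt x y hxy]
    apply h i j
    rw [← hpt x y hxy]
    intro h0
    exact hj ((map_eq_zero _).1 h0)
  have hfin := G4_fin hI hφ D hC β s hs hF m hpos (IntermediateField.adjoin Ω S) q1 q2
    (hcon q1 q hq1 hc) (hcon q2 q' hq2 hc')
  have h1 := congrArg (algebraMap (IntermediateField.adjoin Ω S) A) hfin
  unfold wd at h1 ⊢
  rw [map_zero, map_sub, map_mul, map_mul] at h1
  rw [← hq1, ← hq1, ← hq2, ← hq2]
  exact h1

end Pool.Agent.Lib.MP_1e3e9c_agU
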