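import Mathlib
import Pool.Agent.Lib.MP_1e3e9c_agU.G3
import Pool.Agent.Lib.MP_1e3e9c_agU.G4
import Pool.Agent.Lib.MP_1e3e9c_agU.G5

/-!
# MP_1e3e9c_ag, project U, leaf G6: a point which is constant over `K(C)`

`β i = zz (p (lb i))`, `κ S = cb K C β S`. For `i ≠ i'` in `Fin m` let `s` be the list of the other
indices (length `m - 2`): `pair_point` (`hpos`, `XX_perm`: the list `β i :: β i' :: s.map β` is a
permutation) gives `q_(ii')` with `Con (κ {j ≠ i, i'})`. Let `q = q_(01)`. Claim: `Con (κ {j ≠ i}) (pt q)`
for every `i`: for `i = 0, 1` because `κ {j ≠ 0, 1} ⊆ κ {j ≠ i}`; for `i ≥ 2` compare with `q_(0i)`: both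
are constant over `κ {j ≠ 0}`, so proportional by `uniq` (`s` = all `j ≠ 0`, the point `lb 0`), and
`pt (q_(0i))` is constant over `κ {j ≠ 0, i} ⊆ κ {j ≠ i}`. The `gu C β i`, `i : Fin m`, are algebraically
independent over `κ ∅` (`ind_of_pos`, `l = []`), also in `A`. For every ratio `x` of coordinates of
`pt q`: `x` is algebraic over `κ ∅ (u_j, j ≠ i)` for every `i`: `alg_all`.
-/

set_option autoImplicit false

namespace Pool.Agent.Lib.MP_1e3e9c_agU

open IsLocalRing Pool.Agent.Lib.MP_b197b4_ntK

private theorem g6_mono {A : Type} [Field A] {K K' : Subfield A} (h : K ≤ K') {x : A}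
    (hx : IsAlgebraic K x) : IsAlgebraic K' x := by
  obtain ⟨p, hp, hpx⟩ := hx
  refine ⟨p.map (Subfield.inclusion h), ?_, ?_⟩
  · exact (Polynomial.map_ne_zero_iff (Subfield.inclusion h).injective).2 hp
  · rw [Polynomial.aeval_def, Polynomial.eval₂_map]
    exact hpx

private theorem g6_con_mono {A ι : Type} [Field A] {K K' : Subfield A} (h : K ≤ K') {z : ι → A}
    (hz : Con K z) : Con K' z := fun i j hj => g6_mono h (hz i j hj)

private theorem g6_con_pr {A ι : Type} [Field A] {K : Subfield A} {z z' : ι → A} (h : Pr z z')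
    (hz : Con K z') : Con K z := by
  obtain ⟨a, ha, hz'⟩ := h
  intro i j hj
  have h1 := hz i j (by rw [hz']; exact mul_ne_zero ha hj)
  rwa [hz', hz', mul_div_mul_left _ _ ha] at h1

private theorem g6_cb_mono {F Ω μ ι : Type} [Field F] [Field Ω] [Algebra F Ω] [Fintype ι]
    (K : Subfield F) (C : μ × Bool × ι → Ω) (β : μ → ι → F) {S S' : Set μ} (h : S ⊆ S') :
    cb K C β S ≤ cb K C β S' :=
  Subfield.closure_mono (Set.union_subset_union_right _ (Set.image_mono h))

private theorem g6_up_mono {Ω A : Type} [Field Ω] [Field A] [Algebra Ω A] {K K' : Subfield Ω}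
    (h : K ≤ K') : upK A K ≤ upK A K' := by
  rintro _ ⟨x, hx, rfl⟩
  exact ⟨x, h hx, rfl⟩

private theorem g6_closure {F Ω μ ι A : Type} [Field F] [Field Ω] [Algebra F Ω] [Fintype ι] [Field A]
    [Algebra Ω A] (K : Subfield F) (C : μ × Bool × ι → Ω) (β : μ → ι → F) (S : Set μ) :
    upK A (cb K C β S) ≤ Subfield.closure ((upK A (cb K C β ∅) : Set A) ∪
      (fun i => algebraMap Ω A (gu C β i)) '' S) := by
  unfold upK cb
  rw [RingHom.map_field_closure, Subfield.closure_le]
  rintro _ ⟨y, hy, rfl⟩
  rcases hy with hy | hy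
  · refine Subfield.subset_closure (Or.inl ?_)
    exact ⟨y, Subfield.subset_closure (Or.inl hy), rfl⟩
  · obtain ⟨i, hi, rfl⟩ := hy
    exact Subfield.subset_closure (Or.inr ⟨i, hi, rfl⟩)

private theorem g6_ind {Ω A μ : Type} [Field Ω] [Field A] [Algebra Ω A] (K : Subfield Ω) {v : μ → Ω}
    (hv : AlgebraicIndependent K v) :
    AlgebraicIndependent (upK A K) (fun i => algebraMap Ω A (v i)) := by
  let f : K →+* upK A K := ((algebraMap Ω A).comp K.subtype).codRestrict (upK A K) (fun x => ⟨x, x.2, rfl⟩)
  have hf : Function.Surjective f := by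
    rintro ⟨_, x, hx, rfl⟩
    exact ⟨⟨x, hx⟩, rfl⟩
  exact hv.ringHom_of_comp_eq f (algebraMap Ω A) hf (algebraMap Ω A).injective rfl

variable {k F : Type} [Field k] [CharZero k] [Field F] [CharZero F] {n d r : ℕ}
  {I : Ideal (MvPolynomial (Fin (n + 1) × Fin (d + 1 + 1)) k)} {φ : k →+* F} {K : Subfield F}

theorem common_point (hI : Fam r I) (hφ : ∀ a, φ a ∈ K) (D : Dat I φ) (hfew : D.few r)
    {m : ℕ} (hm : 2 ≤ m) (hr : r + 1 ≤ m) (hF : FF K m) (lb : Fin m → Fin (d + 1))
    (hpos : 0 < XX K (List.ofFn fun i => D.zz (D.p (lb i)))) {Ω : Type} [Field Ω] [Algebra F Ω]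
    {C : Fin m × Bool × (Fin (d + 1) → Fin (n + 1)) → Ω} (hC : Gn F C)
    (A : Type) [Field A] [IsAlgClosed A] [Algebra Ω A] [Algebra F A] [IsScalarTower F Ω A]
    [Algebra.IsAlgebraic Ω A] :
    ∃ q : Fin 2 → A, q ≠ 0 ∧
      Con (upK A (cb K C (fun i => D.zz (D.p (lb i))) ∅)) (ptA A D.c q) := by
  set β : Fin m → (Fin (d + 1) → Fin (n + 1)) → F := fun i => D.zz (D.p (lb i)) with hβ
  have hβ0 : ∀ i, β i ≠ 0 := fun i => zz_ne D (D.pne _)
  have hL : (List.ofFn fun i => D.zz (D.p (lb i))) = (List.finRange m).map β := List.ofFn_eq_map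
  rw [hL] at hpos
  -- the point for a pair
  have hpair : ∀ i i' : Fin m, i ≠ i' → ∃ q : Fin 2 → A, q ≠ 0 ∧
      Con (upK A (cb K C β {j | j ≠ i ∧ j ≠ i'})) (ptA A D.c q) := by
    intro i i' hii
    set s := (List.finRange m).filter (fun j => decide (j ≠ i ∧ j ≠ i')) with hs
    have hsn : s.Nodup := (List.nodup_finRange m).filter _
    have hmem : ∀ j, j ∈ s ↔ j ≠ i ∧ j ≠ i' := by
      intro j
      simp [hs]
    have hperm : (List.finRange m).Perm (i :: i' :: s) := by
      refine (List.perm_ext_iff_of_nodup (List.nodup_finRange m) ?_).2 ?_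
      · refine List.nodup_cons.2 ⟨?_, List.nodup_cons.2 ⟨?_, hsn⟩⟩
        · rw [List.mem_cons, hmem]
          rintro (h | h)
          · exact hii h
          · exact h.1 rfl
        · rw [hmem]
          exact fun h => h.2 rfl
      · intro j
        rw [List.mem_cons, List.mem_cons, hmem]
        constructor
        · intro _
          by_cases h1 : j = i
          · exact Or.inl h1
          · by_cases h2 : j = i'
            · exact Or.inr (Or.inl h2)
            · exact Or.inr (Or.inr ⟨h1, h2⟩)
        · intro _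
          exact List.mem_finRange j
    have hlen : m = s.length + 2 := by
      have := hperm.length_eq
      simpa using this
    have hpos' : 0 < XX K (β i :: β i' :: s.map β) := by
      have h1 := XX_perm K (hperm.map β)
      rw [List.map_cons, List.map_cons] at h1
      rw [← h1]
      exact hpos
    have hset : {j | j ≠ i ∧ j ≠ i'} = {j | j ∈ s} := by
      ext j
      exact (hmem j).symm
    rw [hset]
    exact pair_point hI hφ D hfew hC lb s hsn (by rw [← hlen]; exact hF) (by omega) (lb i) (lb i')
      hpos' A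
  have h0 : 0 < m := by omega
  have h1 : 1 < m := by omega
  let i0 : Fin m := ⟨0, h0⟩
  let i1 : Fin m := ⟨1, h1⟩
  have h01 : i0 ≠ i1 := by
    intro h
    have := congrArg Fin.val h
    simp [i0, i1] at this
  obtain ⟨q, hq, hqc⟩ := hpair i0 i1 h01
  -- the claim
  have hclaim : ∀ i, Con (upK A (cb K C β {j | j ≠ i})) (ptA A D.c q) := by
    intro i
    by_cases hi0 : i = i0
    · subst hi0
      exact g6_con_mono (g6_up_mono (g6_cb_mono K C β fun j hj => hj.1)) hqc
    · by_cases hi1 : i = i1
      · subst hi1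
        exact g6_con_mono (g6_up_mono (g6_cb_mono K C β fun j hj => hj.2)) hqc
      · obtain ⟨q', hq', hqc'⟩ := hpair i0 i (Ne.symm hi0)
        set s := (List.finRange m).filter (fun j => decide (j ≠ i0)) with hs
        have hsn : s.Nodup := (List.nodup_finRange m).filter _
        have hmem : ∀ j, j ∈ s ↔ j ≠ i0 := by
          intro j
          simp [hs]
        have hperm : (List.finRange m).Perm (i0 :: s) := by
          refine (List.perm_ext_iff_of_nodup (List.nodup_finRange m) ?_).2 ?_
          · refine List.nodup_cons.2 ⟨?_, hsn⟩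
            rw [hmem]
            exact fun h => h rfl
          · intro j
            rw [List.mem_cons, hmem]
            constructor
            · intro _
              by_cases h1 : j = i0
              · exact Or.inl h1
              · exact Or.inr h1
            · intro _
              exact List.mem_finRange j
        have hlen : m = s.length + 1 := by
          have := hperm.length_eq
          simpa using this
        have hpos' : 0 < XX K (D.zz (D.p (lb i0)) :: s.map β) := by
          have h1 := XX_perm K (hperm.map β)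
          rw [List.map_cons] at h1
          rw [← h1]
          exact hpos
        have hset : {j | j ≠ i0} = {j | j ∈ s} := by
          ext j
          exact (hmem j).symm
        have e1 : Con (upK A (cb K C β {j | j ∈ s})) (ptA A D.c q) := by
          rw [← hset]
          exact g6_con_mono (g6_up_mono (g6_cb_mono K C β fun j hj => hj.1)) hqc
        have e2 : Con (upK A (cb K C β {j | j ∈ s})) (ptA A D.c q') := by
          rw [← hset]
          exact g6_con_mono (g6_up_mono (g6_cb_mono K C β fun j hj => hj.1)) hqc'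
        have hw := uniq hI hφ D hC β s hsn (fun j _ => hβ0 j) (by rw [← hlen]; exact hF) (lb i0) hpos' A
          q q' hq hq' e1 e2
        have hpr : Pr (ptA A D.c q) (ptA A D.c q') := pr_pt_of_wd (D.up A) hq hq' hw
        exact g6_con_pr hpr (g6_con_mono (g6_up_mono (g6_cb_mono K C β fun j hj => hj.2)) hqc')
  -- algebraic independence
  have hind : AlgebraicIndependent (cb K C β ∅) (gu C β) := by
    have h2 := ind_of_pos hF hC β (List.finRange m) (List.nodup_finRange m) [] (by simp)
      (by rw [List.nil_append]; exact hpos)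
    exact h2.comp (fun i : Fin m => (⟨i, List.mem_finRange i⟩ : {i // i ∈ List.finRange m}))
      (fun a b hab => congrArg Subtype.val hab)
  have hindA := g6_ind (A := A) (cb K C β ∅) hind
  refine ⟨q, hq, fun a b hb => ?_⟩
  have : Nonempty (Fin m) := ⟨i0⟩
  refine alg_all (upK A (cb K C β ∅)) hindA (fun i => ?_) inferInstance
  exact g6_mono (g6_closure K C β {j | j ≠ i}) (hclaim i a b hb)

end Pool.Agent.Lib.MP_1e3e9c_agU
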