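import Mathlib
import Pool.Agent.Lib.MP_1e3e9c_agU.G6

/-!
# MP_1e3e9c_ag, project U, leaf G7: a point which is constant over `k`

`K = φ.fieldRange`, `ι = Fin (d+1) → Fin (n+1)`. `Ω = GF F (Fin m × Bool × ι)`, `A` its algebraic
closure, `q` from `common_point`. `Ω₂ = GF F ((Fin m ⊕ Fin m) × Bool × ι)`, `A₂` its algebraic closure,
`C₂ = gc F _`. Two `F`-homomorphisms `Ω → Ω₂`: `C (i,b,j) ↦ C₂ (inl i,b,j)` and `↦ C₂ (inr i,b,j)`
(fields of fractions of polynomial rings), extended to `θ₁, θ₂ : A → A₂` (`IsAlgClosed.lift`), over `F`.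
`q₁ = θ₁ q`, `q₂ = θ₂ q`: the ratios of `pt (q_a)` are algebraic over `K(C₂ ∘ inl)`, `K(C₂ ∘ inr)`, both
contained in `cb K C₂ β₂ ∅ ⊆ cb K C₂ β₂ {i | i ∈ s}`, `β₂ = zz (p (lb ·))` on both copies, `s` = the list
of the `inl j`, `j ≠ 0`. `uniq` (with `m := lb 0`; `hpos` after `XX_perm`): `wd q₁ q₂ = 0`. So for a
ratio `x` of coordinates of `pt q` (in `A`): `θ₁ x = θ₂ x`, algebraic over `K(C₂ ∘ inl)` and over
`K(C₂ ∘ inr)`; `C₂` is algebraically independent over `K`: `alg_inter` gives `θ₁ x` algebraic over `K`,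
so `x` is, and `K ≅ k` is algebraically closed: `x ∈ φ(k)`. Choose `j` with `pt q j ≠ 0`
(`D.bpf`), `y i` = the ratio of `pt q i` and `a = pt q j`.
-/

set_option autoImplicit false

namespace Pool.Agent.Lib.MP_1e3e9c_agU

open IsLocalRing Pool.Agent.Lib.MP_b197b4_ntK

/-- Transfer of algebraicity. -/
private theorem G7_alg {R R' A A' : Type} [Field R] [Field R'] [Field A] [Field A'] [Algebra R A]
    [Algebra R' A'] (f : R →+* R') (θ : A →+* A')
    (h : ∀ x, θ (algebraMap R A x) = algebraMap R' A' (f x)) {x : A} (hx : IsAlgebraic R x) :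
    IsAlgebraic R' (θ x) := by
  obtain ⟨p, hp, hpx⟩ := hx
  refine ⟨p.map f, (Polynomial.map_ne_zero_iff f.injective).2 hp, ?_⟩
  have h1 : θ.comp (algebraMap R A) = (algebraMap R' A').comp f := RingHom.ext h
  rw [Polynomial.aeval_def, Polynomial.eval₂_map, ← h1, ← Polynomial.hom_eval₂,
    ← Polynomial.aeval_def, hpx, map_zero]

/-- Elements algebraic over two independent extensions of an algebraically closed field. -/
private theorem G7_const {k A T : Type} [Field k] [IsAlgClosed k] [Field A] [Algebra k A]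
    {v : T → A} (hv : AlgebraicIndependent k v) (S₁ S₂ : Set T) (hS : S₁ ∩ S₂ = ∅) {z : A}
    (h₁ : IsAlgebraic (IntermediateField.adjoin k (v '' S₁)) z)
    (h₂ : IsAlgebraic (IntermediateField.adjoin k (v '' S₂)) z) : ∃ y : k, algebraMap k A y = z := by
  have h := alg_inter hv S₁ S₂ h₁ h₂
  rw [hS, Set.image_empty, IntermediateField.adjoin_empty] at h
  have h3 : Algebra.IsAlgebraic k (⊥ : IntermediateField k A) := ⟨fun x => by
    obtain ⟨y, hy⟩ := IntermediateField.mem_bot.1 x.2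
    have h4 : x = algebraMap k (⊥ : IntermediateField k A) y := Subtype.ext hy.symm
    rw [h4]
    exact isAlgebraic_algebraMap y⟩
  have h5 : IsAlgebraic k z := h.restrictScalars k
  have h6 : IsIntegral k z := h5.isIntegral
  exact minpoly.mem_range_of_degree_eq_one k z
    (IsAlgClosed.degree_eq_one_of_irreducible k (minpoly.irreducible h6))

/-- Renaming of the generic coefficients. -/
private theorem G7_ren (F : Type) [Field F] {σ τ : Type} (ρ : σ → τ) (hρ : Function.Injective ρ) :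
    ∃ ψ : GF F σ →+* GF F τ, (∀ x : F, ψ (algebraMap F (GF F σ) x) = algebraMap F (GF F τ) x) ∧
      ∀ q, ψ (gc F σ q) = gc F τ (ρ q) := by
  let g : MvPolynomial σ F →+* GF F τ :=
    (algebraMap (MvPolynomial τ F) (GF F τ)).comp (MvPolynomial.rename ρ).toRingHom
  have hg : Function.Injective g :=
    (IsFractionRing.injective (MvPolynomial τ F) (GF F τ)).comp (MvPolynomial.rename_injective ρ hρ)
  refine ⟨IsFractionRing.lift hg, fun x => ?_, fun q => ?_⟩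
  · rw [IsScalarTower.algebraMap_apply F (MvPolynomial σ F) (GF F σ),
      IsScalarTower.algebraMap_apply F (MvPolynomial τ F) (GF F τ),
      IsFractionRing.lift_algebraMap]
    change algebraMap (MvPolynomial τ F) (GF F τ) (MvPolynomial.rename ρ (MvPolynomial.C x)) = _
    rw [MvPolynomial.rename_C]
    rfl
  · unfold gc
    rw [IsFractionRing.lift_algebraMap]
    change algebraMap (MvPolynomial τ F) (GF F τ) (MvPolynomial.rename ρ (MvPolynomial.X q)) = _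
    rw [MvPolynomial.rename_X]

/-- Extension to the algebraic closure. -/
private theorem G7_ext {Ω A A₂ : Type} [Field Ω] [Field A] [Field A₂] [Algebra Ω A]
    [Algebra.IsAlgebraic Ω A] [IsAlgClosed A₂] (ψ : Ω →+* A₂) :
    ∃ θ : A →+* A₂, ∀ x, θ (algebraMap Ω A x) = ψ x := by
  let _ := ψ.toAlgebra
  exact ⟨(IsAlgClosed.lift : A →ₐ[Ω] A₂).toRingHom, fun x =>
    (IsAlgClosed.lift : A →ₐ[Ω] A₂).commutes x⟩

/-- The field of constants of the cut goes to `E` if its generators do. -/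
private theorem G7_cb {F Ω μ ι A : Type} [Field F] [Field Ω] [Algebra F Ω] [Fintype ι] [Field A]
    (K : Subfield F) (C : μ × Bool × ι → Ω) (β : μ → ι → F) (χ : Ω →+* A) (E : Subfield A)
    (h1 : ∀ a ∈ K, χ (algebraMap F Ω a) ∈ E) (h2 : ∀ q, χ (C q) ∈ E) :
    ∀ w ∈ cb K C β ∅, χ w ∈ E := by
  have h3 : cb K C β ∅ ≤ E.comap χ := by
    unfold cb
    rw [Subfield.closure_le]
    rintro w ((⟨a, ha, rfl⟩ | ⟨q, rfl⟩) | ⟨i, hi, rfl⟩)
    · exact h1 a ha
    · exact h2 q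
    · exact absurd hi (Set.notMem_empty i)
  exact fun w hw => h3 hw

private theorem G7_pt {F A A₂ : Type} [Field F] [Field A] [Field A₂] [Algebra F A] [Algebra F A₂]
    (θ : A →+* A₂) (h : ∀ x : F, θ (algebraMap F A x) = algebraMap F A₂ x) {n D : ℕ}
    (c : Fin (n + 1) → Fin (D + 1) → F) (q : Fin 2 → A) :
    ptA A₂ c (fun a => θ (q a)) = fun i => θ (ptA A c q i) := by
  funext i
  unfold ptA ev
  simp only [map_sum, map_mul, map_pow, h]

private theorem G7_con {A A₂ : Type} [Field A] [Field A₂] {κ : Subfield A} {κ₂ : Subfield A₂}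
    (θ : A →+* A₂) (h : ∀ x ∈ κ, θ x ∈ κ₂) {x : A} (hx : IsAlgebraic κ x) :
    IsAlgebraic κ₂ (θ x) :=
  G7_alg ((θ.comp κ.subtype).codRestrict κ₂ (fun x => h x.1 x.2)) θ (fun _ => rfl) hx

private theorem G7_conI {k A A₂ : Type} [Field k] [Field A] [Field A₂] [Algebra k A₂]
    {κ : Subfield A} {E : IntermediateField k A₂}
    (θ : A →+* A₂) (h : ∀ x ∈ κ, θ x ∈ E) {x : A} (hx : IsAlgebraic κ x) :
    IsAlgebraic E (θ x) :=
  G7_alg ((θ.comp κ.subtype).codRestrict E (fun x => h x.1 x.2)) θ (fun _ => rfl) hx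

theorem const_point {k F : Type} [Field k] [CharZero k] [IsAlgClosed k] [Field F] [CharZero F]
    {n d r : ℕ} {I : Ideal (MvPolynomial (Fin (n + 1) × Fin (d + 1 + 1)) k)} {φ : k →+* F}
    (hI : Fam r I) (D : Dat I φ) (hfew : D.few r)
    {m : ℕ} (hm : 2 ≤ m) (hr : r + 1 ≤ m) (hF : FF φ.fieldRange m) (lb : Fin m → Fin (d + 1))
    (hpos : 0 < XX φ.fieldRange (List.ofFn fun i => D.zz (D.p (lb i)))) :
    ∃ (A : Type) (_ : Field A) (_ : Algebra F A) (q : Fin 2 → A) (y : Fin (n + 1) → k) (a : A),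
      q ≠ 0 ∧ y ≠ 0 ∧ ∀ i, ptA A D.c q i = a * algebraMap F A (φ (y i)) := by
  have hφ : ∀ a, φ a ∈ φ.fieldRange := fun a => ⟨a, rfl⟩
  obtain ⟨m', rfl⟩ : ∃ m', m = m' + 1 := ⟨m - 1, by omega⟩
  -- the two generic extensions
  let ι := Fin (d + 1) → Fin (n + 1)
  let Ω := GF F (Fin (m' + 1) × Bool × ι)
  let A := AlgebraicClosure Ω
  let Ω₂ := GF F ((Fin (m' + 1) ⊕ Fin (m' + 1)) × Bool × ι)
  let A₂ := AlgebraicClosure Ω₂
  let C : Fin (m' + 1) × Bool × ι → Ω := gc F (Fin (m' + 1) × Bool × ι)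
  let C₂ : (Fin (m' + 1) ⊕ Fin (m' + 1)) × Bool × ι → Ω₂ :=
    gc F ((Fin (m' + 1) ⊕ Fin (m' + 1)) × Bool × ι)
  have hC : Gn F C := gn_gc F _
  have hC₂ : Gn F C₂ := gn_gc F _
  obtain ⟨q, hq, hcon⟩ := common_point hI hφ D hfew hm hr hF lb hpos hC A
  -- the two embeddings
  let ρ₁ : Fin (m' + 1) × Bool × ι → (Fin (m' + 1) ⊕ Fin (m' + 1)) × Bool × ι :=
    fun t => (Sum.inl t.1, t.2)
  let ρ₂ : Fin (m' + 1) × Bool × ι → (Fin (m' + 1) ⊕ Fin (m' + 1)) × Bool × ι :=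
    fun t => (Sum.inr t.1, t.2)
  have hρ₁ : Function.Injective ρ₁ := by
    rintro ⟨a, b⟩ ⟨a', b'⟩ h
    have h1 := Sum.inl_injective (congrArg Prod.fst h)
    have h2 := congrArg Prod.snd h
    exact Prod.ext h1 h2
  have hρ₂ : Function.Injective ρ₂ := by
    rintro ⟨a, b⟩ ⟨a', b'⟩ h
    have h1 := Sum.inr_injective (congrArg Prod.fst h)
    have h2 := congrArg Prod.snd h
    exact Prod.ext h1 h2
  obtain ⟨ψ₁, hψ₁, hψ₁'⟩ := G7_ren F ρ₁ hρ₁
  obtain ⟨ψ₂, hψ₂, hψ₂'⟩ := G7_ren F ρ₂ hρ₂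
  obtain ⟨θ₁, hθ₁⟩ := G7_ext (A := A) ((algebraMap Ω₂ A₂).comp ψ₁)
  obtain ⟨θ₂, hθ₂⟩ := G7_ext (A := A) ((algebraMap Ω₂ A₂).comp ψ₂)
  have hF₁ : ∀ x : F, θ₁ (algebraMap F A x) = algebraMap F A₂ x := by
    intro x
    rw [IsScalarTower.algebraMap_apply F Ω A, hθ₁, RingHom.comp_apply, hψ₁,
      ← IsScalarTower.algebraMap_apply F Ω₂ A₂]
  have hF₂ : ∀ x : F, θ₂ (algebraMap F A x) = algebraMap F A₂ x := by
    intro x
    rw [IsScalarTower.algebraMap_apply F Ω A, hθ₂, RingHom.comp_apply, hψ₂,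
      ← IsScalarTower.algebraMap_apply F Ω₂ A₂]
  have hpt₁ := G7_pt θ₁ hF₁ D.c q
  have hpt₂ := G7_pt θ₂ hF₂ D.c q
  -- the marked points of the double extension
  let β₂ : Fin (m' + 1) ⊕ Fin (m' + 1) → ι → F := fun i => D.zz (D.p (lb (Sum.elim id id i)))
  let s : List (Fin (m' + 1) ⊕ Fin (m' + 1)) := List.ofFn fun i : Fin m' => Sum.inl i.succ
  have hs : s.Nodup := List.nodup_ofFn.2 fun i j h => Fin.succ_injective _ (Sum.inl_injective h)
  have hlen : s.length = m' := List.length_ofFn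
  have hlist : List.ofFn (fun i => D.zz (D.p (lb i))) = D.zz (D.p (lb 0)) :: s.map β₂ := by
    rw [List.ofFn_succ, List.map_ofFn]
    rfl
  have hk₁ : ∀ x ∈ upK A (cb φ.fieldRange C (fun i => D.zz (D.p (lb i))) ∅),
      θ₁ x ∈ upK A₂ (cb φ.fieldRange C₂ β₂ {i | i ∈ s}) := by
    rintro _ ⟨w, hw, rfl⟩
    have h1 : θ₁ (algebraMap Ω A w) = algebraMap Ω₂ A₂ (ψ₁ w) := hθ₁ w
    rw [h1]
    refine ⟨ψ₁ w, G7_cb φ.fieldRange C _ ψ₁ _ (fun a ha => ?_) (fun t => ?_) w hw, rfl⟩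
    · rw [hψ₁]
      exact Subfield.subset_closure (Or.inl (Or.inl ⟨a, ha, rfl⟩))
    · rw [hψ₁']
      exact Subfield.subset_closure (Or.inl (Or.inr ⟨ρ₁ t, rfl⟩))
  have hk₂ : ∀ x ∈ upK A (cb φ.fieldRange C (fun i => D.zz (D.p (lb i))) ∅),
      θ₂ x ∈ upK A₂ (cb φ.fieldRange C₂ β₂ {i | i ∈ s}) := by
    rintro _ ⟨w, hw, rfl⟩
    have h1 : θ₂ (algebraMap Ω A w) = algebraMap Ω₂ A₂ (ψ₂ w) := hθ₂ w
    rw [h1]
    refine ⟨ψ₂ w, G7_cb φ.fieldRange C _ ψ₂ _ (fun a ha => ?_) (fun t => ?_) w hw, rfl⟩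
    · rw [hψ₂]
      exact Subfield.subset_closure (Or.inl (Or.inl ⟨a, ha, rfl⟩))
    · rw [hψ₂']
      exact Subfield.subset_closure (Or.inl (Or.inr ⟨ρ₂ t, rfl⟩))
  have hq₁ : (fun a => θ₁ (q a)) ≠ 0 := by
    intro h
    apply hq
    funext a
    exact (map_eq_zero θ₁).1 (congrFun h a)
  have hq₂ : (fun a => θ₂ (q a)) ≠ 0 := by
    intro h
    apply hq
    funext a
    exact (map_eq_zero θ₂).1 (congrFun h a)
  have hcon₁ : Con (upK A₂ (cb φ.fieldRange C₂ β₂ {i | i ∈ s}))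
      (ptA A₂ D.c fun a => θ₁ (q a)) := by
    intro i j hj
    rw [hpt₁] at hj ⊢
    have h2 := G7_con θ₁ hk₁ (hcon i j ((map_ne_zero θ₁).1 hj))
    rwa [map_div₀] at h2
  have hcon₂ : Con (upK A₂ (cb φ.fieldRange C₂ β₂ {i | i ∈ s}))
      (ptA A₂ D.c fun a => θ₂ (q a)) := by
    intro i j hj
    rw [hpt₂] at hj ⊢
    have h2 := G7_con θ₂ hk₂ (hcon i j ((map_ne_zero θ₂).1 hj))
    rwa [map_div₀] at h2
  have hwd := uniq hI hφ D hC₂ β₂ s hs (fun i _ => zz_ne D (D.pne _)) (by rw [hlen]; exact hF)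
    (lb 0) (by rw [← hlist]; exact hpos) A₂ _ _ hq₁ hq₂ hcon₁ hcon₂
  obtain ⟨b, hb, hb'⟩ := pr_pt_of_wd (D.up A₂) hq₁ hq₂ hwd
  have hb'' : ∀ j, θ₂ (ptA A D.c q j) = b * θ₁ (ptA A D.c q j) := by
    intro j
    have h1 := congrFun hpt₁ j
    have h2 := congrFun hpt₂ j
    rw [← h1, ← h2]
    exact hb' j
  -- the base field
  let _ : Algebra k F := φ.toAlgebra
  have hkA : ∀ a : k, algebraMap F A₂ (φ a) = algebraMap k A₂ a := fun a =>
    (IsScalarTower.algebraMap_apply k F A₂ a).symm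
  let v : (Fin (m' + 1) ⊕ Fin (m' + 1)) × Bool × ι → A₂ := fun t => algebraMap Ω₂ A₂ (C₂ t)
  have hvF : AlgebraicIndependent F v :=
    hC₂.1.map' (f := IsScalarTower.toAlgHom F Ω₂ A₂) (algebraMap Ω₂ A₂).injective
  have hv : AlgebraicIndependent k v := hvF.restrictScalars φ.injective
  have hS : Set.range ρ₁ ∩ Set.range ρ₂ = ∅ := by
    ext t
    constructor
    · rintro ⟨⟨a, ha⟩, ⟨a', ha'⟩⟩
      have h1 := congrArg Prod.fst (ha.trans ha'.symm)
      exact absurd h1 Sum.inl_ne_inr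
    · intro h
      exact absurd h (Set.notMem_empty t)
  have hm₁ : ∀ x ∈ upK A (cb φ.fieldRange C (fun i => D.zz (D.p (lb i))) ∅),
      θ₁ x ∈ IntermediateField.adjoin k (v '' Set.range ρ₁) := by
    rintro _ ⟨w, hw, rfl⟩
    have h1 : θ₁ (algebraMap Ω A w) = (algebraMap Ω₂ A₂).comp ψ₁ w := hθ₁ w
    rw [h1]
    refine G7_cb φ.fieldRange C _ ((algebraMap Ω₂ A₂).comp ψ₁)
      (IntermediateField.adjoin k (v '' Set.range ρ₁)).toSubfield ?_ (fun t => ?_) w hw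
    · rintro _ ⟨a, rfl⟩
      have h2 : (algebraMap Ω₂ A₂).comp ψ₁ (algebraMap F Ω (φ a)) = algebraMap k A₂ a := by
        rw [RingHom.comp_apply, hψ₁, ← IsScalarTower.algebraMap_apply F Ω₂ A₂, hkA]
      rw [h2]
      exact (IntermediateField.adjoin k (v '' Set.range ρ₁)).algebraMap_mem a
    · rw [RingHom.comp_apply, hψ₁']
      exact IntermediateField.subset_adjoin _ _ ⟨ρ₁ t, ⟨t, rfl⟩, rfl⟩
  have hm₂ : ∀ x ∈ upK A (cb φ.fieldRange C (fun i => D.zz (D.p (lb i))) ∅),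
      θ₂ x ∈ IntermediateField.adjoin k (v '' Set.range ρ₂) := by
    rintro _ ⟨w, hw, rfl⟩
    have h1 : θ₂ (algebraMap Ω A w) = (algebraMap Ω₂ A₂).comp ψ₂ w := hθ₂ w
    rw [h1]
    refine G7_cb φ.fieldRange C _ ((algebraMap Ω₂ A₂).comp ψ₂)
      (IntermediateField.adjoin k (v '' Set.range ρ₂)).toSubfield ?_ (fun t => ?_) w hw
    · rintro _ ⟨a, rfl⟩
      have h2 : (algebraMap Ω₂ A₂).comp ψ₂ (algebraMap F Ω (φ a)) = algebraMap k A₂ a := by
        rw [RingHom.comp_apply, hψ₂, ← IsScalarTower.algebraMap_apply F Ω₂ A₂, hkA]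
      rw [h2]
      exact (IntermediateField.adjoin k (v '' Set.range ρ₂)).algebraMap_mem a
    · rw [RingHom.comp_apply, hψ₂']
      exact IntermediateField.subset_adjoin _ _ ⟨ρ₂ t, ⟨t, rfl⟩, rfl⟩
  -- the ratios are in `k`
  obtain ⟨j, hj⟩ := D.bpf A (algebraMap F A) q hq
  have hj' : ptA A D.c q j ≠ 0 := hj
  have key : ∀ i, ∃ y : k, ptA A D.c q i / ptA A D.c q j = algebraMap F A (φ y) := by
    intro i
    have h0 := hcon i j hj'
    have h1 := G7_conI θ₁ hm₁ h0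
    have h2 := G7_conI θ₂ hm₂ h0
    have h3 : θ₂ (ptA A D.c q i / ptA A D.c q j) = θ₁ (ptA A D.c q i / ptA A D.c q j) := by
      rw [map_div₀, map_div₀, hb'', hb'', mul_div_mul_left _ _ hb]
    rw [h3] at h2
    obtain ⟨y, hy⟩ := G7_const hv _ _ hS h1 h2
    refine ⟨y, θ₁.injective ?_⟩
    rw [hF₁, hkA]
    exact hy.symm
  choose y hy using key
  refine ⟨A, inferInstance, inferInstance, q, y, ptA A D.c q j, hq, ?_, fun i => ?_⟩
  · intro h0
    have h1 := hy j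
    rw [h0, Pi.zero_apply, map_zero, map_zero, div_self hj'] at h1
    exact one_ne_zero h1
  · rw [← hy i, mul_div_cancel₀ _ hj']

end Pool.Agent.Lib.MP_1e3e9c_agU
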