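import Mathlib
import Pool.Agent.Lib.MP_1e3e9c_agU.G0d
import Pool.Agent.Lib.MP_1e3e9c_agU.G1a
import Pool.Agent.Lib.MP_1e3e9c_agU.G1b
import Pool.Agent.Lib.MP_1e3e9c_agU.G1c
import Pool.Agent.Lib.MP_1e3e9c_agU.G1d
import Pool.Agent.Lib.MP_1e3e9c_agU.G1e
import Pool.Agent.Lib.MP_1e3e9c_agU.G2b
import Pool.Agent.Lib.MP_1e3e9c_agU.G2c
import Pool.Agent.Lib.MP_1e3e9c_agU.G7
import Pool.Agent.Lib.MP_1e3e9c_agU.G8
import Pool.Agent.Lib.MP_1e3e9c_agU.G10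

/-!
# MP_1e3e9c_ag, project U: unsplit families of rational curves
-/

set_option autoImplicit false

namespace Pool.Agent.Lib.MP_1e3e9c_agU

/-- **Unsplit families.** Either a curve of the family lies in the hyperplane `x_0 = 0` or all curves
of the family pass through one point outside this hyperplane. -/
theorem unsplit {k : Type} [Field k] [IsAlgClosed k] [CharZero k] {n d r : ℕ}
    (I : Ideal (MvPolynomial (Fin (n + 1) × Fin (d + 1 + 1)) k)) (hp : I.IsPrime)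
    (halt : ∀ c : Fin (n + 1) → Fin (d + 1 + 1) → k, Mem (RingHom.id k) I c → c ≠ 0 →
      (∀ x : Fin 2 → k, x ≠ 0 → ∃ i, ev (c i) x ≠ 0) ∨ Cst c)
    (hact : ∀ (c c' : Fin (n + 1) → Fin (d + 1 + 1) → k) (g : Matrix (Fin 2) (Fin 2) k),
      Mem (RingHom.id k) I c → g.det ≠ 0 → (∀ i x, ev (c' i) x = ev (c i) (g.mulVec x)) →
      Mem (RingHom.id k) I c')
    (hbpf : ∃ c : Fin (n + 1) → Fin (d + 1 + 1) → k, Mem (RingHom.id k) I c ∧
      ∀ x : Fin 2 → k, x ≠ 0 → ∃ i, ev (c i) x ≠ 0)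
    (hrts : ∀ c : Fin (n + 1) → Fin (d + 1 + 1) → k, Mem (RingHom.id k) I c →
      (∀ x : Fin 2 → k, x ≠ 0 → ∃ i, ev (c i) x ≠ 0) → c 0 ≠ 0 →
      ∀ p : Fin (r + 1) → Fin 2 → k, (∀ l, p l ≠ 0) → (∀ l, ev (c 0) (p l) = 0) →
        ∃ l l', l ≠ l' ∧ wd (p l) (p l') = 0)
    (hdim : ((r + 5 : ℕ) : WithBot ℕ∞) ≤
      ringKrullDim (MvPolynomial (Fin (n + 1) × Fin (d + 1 + 1)) k ⧸ I)) :
    (∃ c : Fin (n + 1) → Fin (d + 1 + 1) → k, Mem (RingHom.id k) I c ∧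
      (∀ x : Fin 2 → k, x ≠ 0 → ∃ i, ev (c i) x ≠ 0) ∧ c 0 = 0) ∨
    ∃ y : Fin (n + 1) → k, y 0 ≠ 0 ∧ ∀ c : Fin (n + 1) → Fin (d + 1 + 1) → k,
      Mem (RingHom.id k) I c → ∃ x : Fin 2 → k, x ≠ 0 ∧ ∃ b : k, ∀ i, ev (c i) x = b * y i := by
  by_cases hz : ∃ c : Fin (n + 1) → Fin (d + 1 + 1) → k, Mem (RingHom.id k) I c ∧
      (∀ x : Fin 2 → k, x ≠ 0 → ∃ i, ev (c i) x ≠ 0) ∧ c 0 = 0
  · exact Or.inl hz
  right
  have hH : Hyp r I :=
    { alt := halt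
      act := hact
      zer := fun c hc hb h0 => hz ⟨c, hc, hb, h0⟩
      rts := fun c hc hb p hp0 hp1 => hrts c hc hb (fun h0 => hz ⟨c, hc, hb, h0⟩) p hp0 hp1 }
  have hI : Fam r I := fam_of hH
  obtain ⟨c₀, hm₀, hb₀⟩ := hbpf
  obtain ⟨L, fL, _, φL, c, g, hm, hb, hN, hg⟩ :=
    exists_norm hI hp c₀ hm₀ (bpf_of_algClosed hb₀)
  obtain ⟨F, fF, cF, φ, D, m, hF, hN', hG, hA⟩ := exists_dat hI φL c g hm hb hN hg
  have hE : Eff φ D.c := eff_of hI D hN' hA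
  have hrm : r + 1 ≤ m := le_trdeg D.c hF hG hE hdim
  have hfew : D.few r := few_of hI D
  have hr1 : 1 ≤ r := few_pos D hfew
  have hset : {y : F | ∃ l i j, D.pt (D.p l) j ≠ 0 ∧ y = D.pt (D.p l) i / D.pt (D.p l) j} =
      {y : F | ∃ l i j, D.zz (D.p l) j ≠ 0 ∧ y = D.zz (D.p l) i / D.zz (D.p l) j} := by
    ext y
    constructor
    · rintro ⟨l, i, j, h1, h2⟩
      exact ⟨l, fun _ => i, fun _ => j, h1, h2⟩
    · rintro ⟨l, i, j, h1, h2⟩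
      exact ⟨l, i 0, j 0, h1, h2⟩
  obtain ⟨l, hl, hpos⟩ := exists_list m F φ.fieldRange hF (fun l => D.zz (D.p l))
    (fun l => zz_ne D (D.pne l)) (by
      intro x
      have h1 := gen_ratios hI D hF hE x
      rw [hset] at h1
      exact h1)
  subst hl
  obtain ⟨A, fA, aA, q, y, a, hq, hy, h⟩ := const_point hI D hfew (by omega) hrm hF l.get (by
      have h2 : (List.ofFn fun i => D.zz (D.p (l.get i))) = l.map fun l => D.zz (D.p l) := by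
        have h3 := List.map_ofFn (f := l.get) (g := fun l => D.zz (D.p l))
        rw [List.ofFn_get] at h3
        exact h3.symm
      rw [h2]
      exact hpos)
  have hy0 : y 0 ≠ 0 := y0_ne hI D hfew l hF (by omega) hpos A q hq y a h
  exact ⟨y, hy0, fun c' hc' => all_through φ D.c hG A q hq y hy a h c' hc'⟩

end Pool.Agent.Lib.MP_1e3e9c_agU
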