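import Mathlib
import Pool.Agent.Lib.MP_1e3e9c_agU.DefsV
import Pool.Agent.Lib.MP_1e3e9c_agU.FmB

/-!
# MP_1e3e9c_ag, project U, leaf Ver1: composition with forms of degree `e + 1`

`vt_ev`: `H` homogeneous of degree `g = e + 1`, `D = d + 1`: `∑_j c_ij x_0^(D-j) x_1^j` is the
homogenisation of `dh c i`, and `H(f(x))` that of `H(dh c)` in degree `D g = (d+1) e + d + 1` (for
`x_0 ≠ 0` divide by `x_0`; both sides are polynomials in `x_0`; or expand `H` in monomials).
`vt_map`: naturality of `aeval` and `coeff`. `vt_mem`: `vt_map` for the evaluation at `c`.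
`vt_bpf`: `H = x_i x_i^e`. `vt_cst`: for `f = v l^D`, `H(f) = H(v) l^(D g)` (`ev_ext`, binomial theorem).
`vt_act`: `ev_act`, `ev_ext`.
`sep`: choose `j` with `x_j ≠ 0`: `x_j^(e+1) = b y_j^(e+1)`, so `b, y_j ≠ 0`, `x_i x_j^e = b y_i y_j^e`:
`x_i / x_j = y_i / y_j`.
-/

set_option autoImplicit false

namespace Pool.Agent.Lib.MP_1e3e9c_agU

variable {k : Type} [Field k] [CharZero k] {n d e : ℕ} {G : MvPolynomial (Fin (n + 1)) k}

/-! ### Auxiliary statements -/

private theorem Ver1_eval_mul {R : Type} [CommRing R] {σ : Type} {H : MvPolynomial σ R} {g : ℕ}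
    (hH : H.IsHomogeneous g) (a : R) (z : σ → R) :
    MvPolynomial.eval (fun i => a * z i) H = a ^ g * MvPolynomial.eval z H := by
  rw [MvPolynomial.eval_eq, MvPolynomial.eval_eq, Finset.mul_sum]
  refine Finset.sum_congr rfl fun m hm => ?_
  have h1 : ∏ i ∈ m.support, (a * z i) ^ m i = a ^ g * ∏ i ∈ m.support, z i ^ m i := by
    simp_rw [mul_pow]
    rw [Finset.prod_mul_distrib, Finset.prod_pow_eq_pow_sum]
    congr 2
    have h2 := hH (MvPolynomial.mem_support_iff.1 hm)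
    rw [← h2, Finsupp.weight_apply, Finsupp.sum]
    simp
  rw [h1]
  ring

private theorem Ver1_ev {L : Type} [Field L] {N : ℕ} {P : Polynomial L} (hP : P.natDegree ≤ N)
    {x : Fin 2 → L} (hx : x 0 ≠ 0) :
    ev (fun j : Fin (N + 1) => P.coeff (j : ℕ)) x = x 0 ^ N * P.eval (x 1 / x 0) := by
  rw [Polynomial.eval_eq_sum_range' (Nat.lt_succ_of_le hP), ev,
    Fin.sum_univ_eq_sum_range (fun j => P.coeff j * x 0 ^ (N - j) * x 1 ^ j) (N + 1),
    Finset.mul_sum]
  refine Finset.sum_congr rfl fun j hj => ?_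
  have hj' : j ≤ N := Nat.lt_succ_iff.1 (Finset.mem_range.1 hj)
  rw [div_pow]
  have h1 : x 0 ^ N = x 0 ^ (N - j) * x 0 ^ j := by
    rw [← pow_add, Nat.sub_add_cancel hj']
  rw [h1]
  have h2 : x 0 ^ j ≠ 0 := pow_ne_zero _ hx
  field_simp

private theorem Ver1_dh_deg {A : Type} [CommRing A] {n D : ℕ} (c : Fin (n + 1) → Fin (D + 1) → A)
    (i : Fin (n + 1)) : (dh c i).natDegree ≤ D := by
  refine Polynomial.natDegree_sum_le_of_forall_le _ _ fun j _ => ?_
  refine (Polynomial.natDegree_C_mul_X_pow_le _ _).trans ?_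
  exact Nat.lt_succ_iff.1 j.2

private theorem Ver1_dh_coeff {A : Type} [CommRing A] {n D : ℕ}
    (c : Fin (n + 1) → Fin (D + 1) → A) (i : Fin (n + 1)) (j : Fin (D + 1)) :
    (dh c i).coeff (j : ℕ) = c i j := by
  unfold dh
  rw [Polynomial.finsetSum_coeff, Finset.sum_eq_single j]
  · rw [Polynomial.coeff_C_mul, Polynomial.coeff_X_pow, if_pos rfl, mul_one]
  · intro l _ hl
    rw [Polynomial.coeff_C_mul, Polynomial.coeff_X_pow, if_neg, mul_zero]
    intro h
    exact hl (Fin.ext h.symm)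
  · intro h
    exact absurd (Finset.mem_univ _) h

private theorem Ver1_dh_ev {L : Type} [Field L] {n D : ℕ} (c : Fin (n + 1) → Fin (D + 1) → L)
    (i : Fin (n + 1)) {x : Fin 2 → L} (hx : x 0 ≠ 0) :
    ev (c i) x = x 0 ^ D * (dh c i).eval (x 1 / x 0) := by
  rw [← Ver1_ev (Ver1_dh_deg c i) hx]
  congr 1
  funext j
  rw [Ver1_dh_coeff]

private theorem Ver1_eval_aeval {K : Type} [Field K] {σ : Type} (H : MvPolynomial σ K)
    (f : σ → Polynomial K) (y : K) :
    (MvPolynomial.aeval f H).eval y = MvPolynomial.eval (fun i => (f i).eval y) H := by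
  have h1 := MvPolynomial.map_aeval f (Polynomial.evalRingHom y) H
  have h2 : (Polynomial.evalRingHom y).comp (algebraMap K (Polynomial K)) = RingHom.id K := by
    ext a
    simp
  rw [h2] at h1
  exact h1

private theorem Ver1_num (d e : ℕ) : (e + 1) * (d + 1) = (d + 1) * e + d + 1 := by ring

private theorem Ver1_cst {L : Type} [Field L] (N : ℕ) (v a b : L) (x : Fin 2 → L) :
    ev (fun j : Fin (N + 1) => v * (Nat.choose N j : L) * a ^ (N - (j : ℕ)) * b ^ (j : ℕ)) x =
      v * (a * x 0 + b * x 1) ^ N := by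
  rw [add_comm (a * x 0), add_pow, ev,
    Fin.sum_univ_eq_sum_range (fun j => v * (Nat.choose N j : L) * a ^ (N - j) * b ^ j *
      x 0 ^ (N - j) * x 1 ^ j) (N + 1), Finset.mul_sum]
  refine Finset.sum_congr rfl fun j _ => ?_
  rw [mul_pow, mul_pow]
  ring

/-! ### The leaf -/

theorem hs_hom (hG : G.IsHomogeneous (e + 1)) (t) : (hs G e t).IsHomogeneous (e + 1) := by
  refine Fin.cases hG (fun t => ?_) t
  have h1 := (MvPolynomial.isHomogeneous_X k (finProdFinEquiv.symm t).1).mul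
    ((MvPolynomial.isHomogeneous_X k (finProdFinEquiv.symm t).2).pow e)
  have h2 : 1 + 1 * e = e + 1 := by ring
  rw [h2] at h1
  exact h1

private theorem Ver1_deg (hG : G.IsHomogeneous (e + 1)) (c : Fin (n + 1) → Fin (d + 1 + 1) → k)
    (t) : (MvPolynomial.aeval (dh c) (hs G e t)).natDegree ≤ (d + 1) * e + d + 1 := by
  rw [← Ver1_num]
  exact MvPolynomial.aeval_natDegree_le _ (hs_hom hG t).totalDegree_le _
    (fun i => Ver1_dh_deg c i)

private theorem Ver1_vt_ev (hG : G.IsHomogeneous (e + 1)) (c : Fin (n + 1) → Fin (d + 1 + 1) → k)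
    (t) (x : Fin 2 → k) (hx : x 0 ≠ 0) :
    ev (vt G e c t) x = MvPolynomial.eval (fun i => ev (c i) x) (hs G e t) := by
  have h1 : (fun i => ev (c i) x) = fun i => x 0 ^ (d + 1) * (dh c i).eval (x 1 / x 0) :=
    funext fun i => Ver1_dh_ev c i hx
  rw [h1, Ver1_eval_mul (hs_hom hG t), ← pow_mul, ← Ver1_eval_aeval]
  have h2 : (d + 1) * (e + 1) = (d + 1) * e + d + 1 := by ring
  rw [h2]
  exact Ver1_ev (Ver1_deg hG c t) hx

theorem vt_ev (hG : G.IsHomogeneous (e + 1)) (c : Fin (n + 1) → Fin (d + 1 + 1) → k) (t)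
    (x : Fin 2 → k) :
    ev (vt G e c t) x = MvPolynomial.eval (fun i => ev (c i) x) (hs G e t) := by
  set A : Polynomial k := ∑ j : Fin ((d + 1) * e + d + 1 + 1), Polynomial.C (vt G e c t j) *
    Polynomial.X ^ ((d + 1) * e + d + 1 - (j : ℕ)) * Polynomial.C (x 1) ^ (j : ℕ) with hA
  set B : Polynomial k := MvPolynomial.aeval (fun i => ∑ j : Fin (d + 1 + 1),
    Polynomial.C (c i j) * Polynomial.X ^ (d + 1 - (j : ℕ)) * Polynomial.C (x 1) ^ (j : ℕ))
    (hs G e t) with hB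
  have hAe : ∀ s : k, A.eval s = ev (vt G e c t) ![s, x 1] := by
    intro s
    rw [hA, Polynomial.eval_finsetSum, ev]
    refine Finset.sum_congr rfl fun j _ => ?_
    simp
  have hBe : ∀ s : k, B.eval s = MvPolynomial.eval (fun i => ev (c i) ![s, x 1]) (hs G e t) := by
    intro s
    rw [hB, Ver1_eval_aeval]
    congr 1
    congr 1
    funext i
    rw [Polynomial.eval_finsetSum, ev]
    refine Finset.sum_congr rfl fun j _ => ?_
    simp
  have hAB : A = B := by
    refine Polynomial.eq_of_infinite_eval_eq A B ?_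
    refine Set.Infinite.mono (s := {0}ᶜ) ?_ (Set.finite_singleton (0 : k)).infinite_compl
    intro s hs
    have hs' : s ≠ 0 := hs
    rw [Set.mem_ofPred_eq, hAe, hBe]
    exact Ver1_vt_ev hG c t ![s, x 1] (by simpa using hs')
  have hx : x = ![x 0, x 1] := by
    funext a
    fin_cases a <;> rfl
  have h1 := hAe (x 0)
  have h2 := hBe (x 0)
  rw [← hx] at h1 h2
  rw [← h1, ← h2, hAB]

theorem vt_map {A B : Type} [CommRing A] [CommRing B] [Algebra k A] [Algebra k B]
    (θ : A →ₐ[k] B) (c : Fin (n + 1) → Fin (d + 1 + 1) → A) (t j) :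
    θ (vt G e c t j) = vt G e (fun i j => θ (c i j)) t j := by
  unfold vt
  have h1 : (MvPolynomial.aeval (dh fun i j => θ (c i j)) (hs G e t) : Polynomial B) =
      Polynomial.mapAlgHom θ (MvPolynomial.aeval (dh c) (hs G e t)) := by
    rw [MvPolynomial.comp_aeval_apply]
    congr 1
    congr 1
    funext i
    unfold dh
    rw [map_sum]
    refine Finset.sum_congr rfl fun l _ => ?_
    simp
  rw [h1]
  simp [Polynomial.coeff_map]

theorem vt_mem {I : Ideal (MvPolynomial (Fin (n + 1) × Fin (d + 1 + 1)) k)}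
    {c : Fin (n + 1) → Fin (d + 1 + 1) → k} (hc : Mem (RingHom.id k) I c) :
    Mem (RingHom.id k) (I.comap (vh G e)) (vt G e c) := by
  intro P hP
  have h1 := hc _ (Ideal.mem_comap.1 hP)
  have h2 : MvPolynomial.eval₂ (RingHom.id k) (fun q : Fin (n + 1) × Fin (d + 1 + 1) => c q.1 q.2)
      (vh G e P) = MvPolynomial.aeval (fun q : Fin (n + 1) × Fin (d + 1 + 1) => c q.1 q.2)
        (vh (d := d) G e P) := rfl
  rw [h2] at h1
  unfold vh at h1
  rw [MvPolynomial.comp_aeval_apply] at h1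
  have h3 : (fun i : Fin ((n + 1) * (n + 1) + 1) × Fin ((d + 1) * e + d + 1 + 1) =>
      (MvPolynomial.aeval fun q : Fin (n + 1) × Fin (d + 1 + 1) => c q.1 q.2)
        (vt G e (fun (i : Fin (n + 1)) (j : Fin (d + 1 + 1)) =>
          (MvPolynomial.X (i, j) : MvPolynomial (Fin (n + 1) × Fin (d + 1 + 1)) k)) i.1 i.2)) =
      fun q => vt G e c q.1 q.2 := by
    funext q
    rw [vt_map]
    simp
  rw [h3] at h1
  exact h1

theorem vt_zero (hG : G.IsHomogeneous (e + 1)) :
    vt G e (0 : Fin (n + 1) → Fin (d + 1 + 1) → k) = 0 := by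
  funext t j
  have h1 : dh (0 : Fin (n + 1) → Fin (d + 1 + 1) → k) = 0 := by
    funext i
    simp [dh]
  unfold vt
  rw [h1, MvPolynomial.aeval_zero]
  have h2 : MvPolynomial.constantCoeff (hs G e t) = 0 := by
    rw [MvPolynomial.constantCoeff_eq]
    exact (hs_hom hG t).coeff_eq_zero (by simp)
  rw [h2]
  simp

theorem vt_bpf (hG : G.IsHomogeneous (e + 1)) {c : Fin (n + 1) → Fin (d + 1 + 1) → k}
    (hc : ∀ x : Fin 2 → k, x ≠ 0 → ∃ i, ev (c i) x ≠ 0) (x : Fin 2 → k) (hx : x ≠ 0) :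
    ∃ t, ev (vt G e c t) x ≠ 0 := by
  obtain ⟨i, hi⟩ := hc x hx
  refine ⟨Fin.succ (finProdFinEquiv (i, i)), ?_⟩
  rw [vt_ev hG]
  simp only [hs, Fin.cons_succ, Equiv.symm_apply_apply, map_mul, MvPolynomial.eval_X, map_pow]
  exact mul_ne_zero hi (pow_ne_zero _ hi)

theorem vt_cst (hG : G.IsHomogeneous (e + 1)) {c : Fin (n + 1) → Fin (d + 1 + 1) → k}
    (hc : Cst c) : Cst (vt G e c) := by
  obtain ⟨v, a, b, h⟩ := hc
  refine ⟨fun t => MvPolynomial.eval v (hs G e t), a, b, fun t => ?_⟩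
  have h1 : vt G e c t = fun j : Fin ((d + 1) * e + d + 1 + 1) =>
      MvPolynomial.eval v (hs G e t) * (Nat.choose ((d + 1) * e + d + 1) (j : ℕ) : k) * a ^ ((d + 1) * e + d + 1 - (j : ℕ)) *
        b ^ (j : ℕ) := by
    refine ev_ext fun x => ?_
    rw [Ver1_cst, vt_ev hG]
    have h2 : (fun i => ev (c i) x) = fun i => (a * x 0 + b * x 1) ^ (d + 1) * v i := by
      funext i
      have h3 : c i = fun j : Fin (d + 1 + 1) => v i * (Nat.choose (d + 1) j : k) *
          a ^ (d + 1 - (j : ℕ)) * b ^ (j : ℕ) := funext fun j => h i j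
      rw [h3, Ver1_cst]
      ring
    rw [h2, Ver1_eval_mul (hs_hom hG t), ← pow_mul]
    have h4 : (d + 1) * (e + 1) = (d + 1) * e + d + 1 := by ring
    rw [h4]
    ring
  intro j
  rw [h1]

theorem vt_act (hG : G.IsHomogeneous (e + 1)) (g : Matrix (Fin 2) (Fin 2) k)
    (c : Fin (n + 1) → Fin (d + 1 + 1) → k)
    (c' : Fin ((n + 1) * (n + 1) + 1) → Fin ((d + 1) * e + d + 1 + 1) → k)
    (h : ∀ t x, ev (c' t) x = ev (vt G e c t) (g.mulVec x)) :
    c' = vt G e (fun i => act g (c i)) := by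
  funext t
  refine ev_ext fun x => ?_
  rw [h, vt_ev hG, vt_ev hG]
  congr 1
  congr 1
  funext i
  rw [ev_act]

omit [CharZero k] in
theorem sep {x y : Fin (n + 1) → k} (hx : x ≠ 0) {b : k}
    (h : ∀ t, MvPolynomial.eval x (hs G e t) = b * MvPolynomial.eval y (hs G e t)) :
    ∃ a : k, ∀ i, x i = a * y i := by
  have h1 : ∀ i j, x i * x j ^ e = b * (y i * y j ^ e) := by
    intro i j
    have h2 := h (Fin.succ (finProdFinEquiv (i, j)))
    simpa only [hs, Fin.cons_succ, Equiv.symm_apply_apply, map_mul, MvPolynomial.eval_X,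
      map_pow] using h2
  obtain ⟨j, hj⟩ := Function.ne_iff.1 hx
  rw [Pi.zero_apply] at hj
  have h2 : b * (y j * y j ^ e) ≠ 0 := by
    rw [← h1 j j]
    exact mul_ne_zero hj (pow_ne_zero _ hj)
  have hb : b ≠ 0 := left_ne_zero_of_mul h2
  have hy : y j ≠ 0 := left_ne_zero_of_mul (right_ne_zero_of_mul h2)
  refine ⟨x j / y j, fun i => ?_⟩
  have h3 : x i * (x j * x j ^ e) = x j * (x i * x j ^ e) := by ring
  rw [h1 j j, h1 i j] at h3
  have h4 : (b * y j ^ e) * (x i * y j) = (b * y j ^ e) * (x j * y i) := by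
    calc (b * y j ^ e) * (x i * y j) = x i * (b * (y j * y j ^ e)) := by ring
      _ = x j * (b * (y i * y j ^ e)) := h3
      _ = _ := by ring
  have h5 : x i * y j = x j * y i :=
    mul_left_cancel₀ (mul_ne_zero hb (pow_ne_zero _ hy)) h4
  rw [div_mul_eq_mul_div, eq_div_iff hy, h5]

end Pool.Agent.Lib.MP_1e3e9c_agU
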