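import Mathlib
import Pool.Agent.Lib.MP_1e3e9c_agU.DefsV

/-!
# MP_1e3e9c_ag, project U, leaf Ver2: integrality, points, dimension
-/

set_option autoImplicit false

namespace Pool.Agent.Lib.MP_1e3e9c_agU

variable {k : Type} [Field k] {n d e : ℕ}

attribute [local instance] Polynomial.algebra

private theorem Ver2_coeff {A : Type} [CommRing A] {D : ℕ} (c : Fin (n + 1) → Fin (D + 1) → A)
    (i : Fin (n + 1)) (j : Fin (D + 1)) : (dh c i).coeff (j : ℕ) = c i j := by
  classical
  unfold dh
  rw [Polynomial.finsetSum_coeff, Finset.sum_eq_single j]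
  · rw [Polynomial.coeff_C_mul_X_pow, if_pos rfl]
  · intro j' _ hj
    rw [Polynomial.coeff_C_mul_X_pow, if_neg]
    exact fun h => hj (Fin.ext h.symm)
  · intro h
    exact absurd (Finset.mem_univ _) h

private theorem Ver2_deg {A : Type} [CommRing A] {D : ℕ} (c : Fin (n + 1) → Fin (D + 1) → A)
    (i : Fin (n + 1)) : (dh c i).natDegree ≤ D := by
  unfold dh
  refine Polynomial.natDegree_sum_le_of_forall_le _ _ fun j _ => ?_
  exact (Polynomial.natDegree_C_mul_X_pow_le _ _).trans (Nat.lt_succ_iff.1 j.2)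

private theorem Ver2_map {A B : Type} [CommRing A] [CommRing B] {D : ℕ} (f : A →+* B)
    (c : Fin (n + 1) → Fin (D + 1) → A) (i : Fin (n + 1)) :
    (dh c i).map f = dh (fun i j => f (c i j)) i := by
  unfold dh
  rw [Polynomial.map_sum]
  refine Finset.sum_congr rfl fun j _ => ?_
  rw [Polynomial.map_mul, Polynomial.map_C, Polynomial.map_pow, Polynomial.map_X]

/-- The form `x_i ^ (e + 1)`. -/
private theorem Ver2_hs (G : MvPolynomial (Fin (n + 1)) k) (i : Fin (n + 1)) :
    hs G e (Fin.succ (finProdFinEquiv (i, i))) = MvPolynomial.X i ^ (e + 1) := by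
  unfold hs
  rw [Fin.cons_succ, Equiv.symm_apply_apply, pow_succ']

private theorem Ver2_vh (G : MvPolynomial (Fin (n + 1)) k)
    (t : Fin ((n + 1) * (n + 1) + 1)) (j : Fin ((d + 1) * e + d + 1 + 1)) :
    vh (d := d) G e (MvPolynomial.X (t, j)) = vt G e
      (fun (i : Fin (n + 1)) (j : Fin (d + 1 + 1)) =>
        (MvPolynomial.X (i, j) : MvPolynomial (Fin (n + 1) × Fin (d + 1 + 1)) k)) t j := by
  unfold vh
  rw [MvPolynomial.aeval_X]

theorem vh_integral (G : MvPolynomial (Fin (n + 1)) k) :
    (vh (d := d) G e).toRingHom.IsIntegral := by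
  classical
  let A := MvPolynomial (Fin ((n + 1) * (n + 1) + 1) × Fin ((d + 1) * e + d + 1 + 1)) k
  let B := MvPolynomial (Fin (n + 1) × Fin (d + 1 + 1)) k
  let f : A →+* B := (vh (d := d) G e).toRingHom
  let _ : Algebra A B := f.toAlgebra
  let c : Fin (n + 1) → Fin (d + 1 + 1) → B := fun i j => MvPolynomial.X (i, j)
  have key : ∀ q : Fin (n + 1) × Fin (d + 1 + 1), IsIntegral A (MvPolynomial.X q : B) := by
    rintro ⟨i, j⟩
    have h1 : IsIntegral (Polynomial A) ((dh c i) ^ (e + 1)) := by
      let t : Fin ((n + 1) * (n + 1) + 1) := Fin.succ (finProdFinEquiv (i, i))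
      let g : Polynomial A := ∑ j : Fin ((d + 1) * e + d + 1 + 1),
        Polynomial.C (MvPolynomial.X (t, j)) * Polynomial.X ^ (j : ℕ)
      have h2 : g.map f = (dh c i) ^ (e + 1) := by
        have h3 : g.map f = ∑ j : Fin ((d + 1) * e + d + 1 + 1),
            Polynomial.C (((dh c i) ^ (e + 1)).coeff (j : ℕ)) * Polynomial.X ^ (j : ℕ) := by
          rw [Polynomial.map_sum]
          refine Finset.sum_congr rfl fun j _ => ?_
          rw [Polynomial.map_mul, Polynomial.map_C, Polynomial.map_pow, Polynomial.map_X]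
          have h4 : f (MvPolynomial.X (t, j)) = ((dh c i) ^ (e + 1)).coeff (j : ℕ) := by
            show vh (d := d) G e (MvPolynomial.X (t, j)) = _
            rw [Ver2_vh]
            show (MvPolynomial.aeval (dh c) (hs G e t)).coeff (j : ℕ) = _
            rw [Ver2_hs, map_pow, MvPolynomial.aeval_X]
          rw [h4]
        rw [h3]
        have h5 : ((dh c i) ^ (e + 1)).natDegree < (d + 1) * e + d + 1 + 1 := by
          refine lt_of_le_of_lt Polynomial.natDegree_pow_le ?_
          have h6 := Ver2_deg c i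
          have h7 : (e + 1) * (dh c i).natDegree ≤ (e + 1) * (d + 1) := Nat.mul_le_mul_left _ h6
          have h8 : (e + 1) * (d + 1) = (d + 1) * e + d + 1 := by ring
          omega
        rw [Fin.sum_univ_eq_sum_range (fun j => Polynomial.C (((dh c i) ^ (e + 1)).coeff j) *
          Polynomial.X ^ j)]
        exact (Polynomial.as_sum_range_C_mul_X_pow' _ h5).symm
      rw [← h2]
      exact isIntegral_algebraMap (R := Polynomial A) (A := Polynomial B) (x := g)
    have h3 : IsIntegral (Polynomial A) (dh c i) := IsIntegral.of_pow (Nat.succ_pos e) h1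
    have h4 := h3.coeff (j : ℕ)
    rw [Ver2_coeff] at h4
    exact h4
  intro x
  show IsIntegral A x
  induction x using MvPolynomial.induction_on with
  | C a =>
    have h1 : (MvPolynomial.C a : B) = f (MvPolynomial.C a) :=
      ((vh (d := d) G e).commutes a).symm
    rw [h1]
    exact isIntegral_algebraMap (R := A) (A := B)
  | add p q hp hq => exact hp.add hq
  | mul_X p q hp => exact hp.mul (key q)

/-- Evaluation of `vt`. -/
private theorem Ver2_eval (G : MvPolynomial (Fin (n + 1)) k) (c : Fin (n + 1) → Fin (d + 1 + 1) → k)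
    (t : Fin ((n + 1) * (n + 1) + 1)) (j : Fin ((d + 1) * e + d + 1 + 1)) :
    MvPolynomial.aeval (fun q : Fin (n + 1) × Fin (d + 1 + 1) => c q.1 q.2)
      (vt G e (fun (i : Fin (n + 1)) (j : Fin (d + 1 + 1)) =>
        (MvPolynomial.X (i, j) : MvPolynomial (Fin (n + 1) × Fin (d + 1 + 1)) k)) t j) =
      vt G e c t j := by
  let B := MvPolynomial (Fin (n + 1) × Fin (d + 1 + 1)) k
  let g : B →ₐ[k] k := MvPolynomial.aeval (fun q : Fin (n + 1) × Fin (d + 1 + 1) => c q.1 q.2)
  let X0 : Fin (n + 1) → Fin (d + 1 + 1) → B := fun i j => MvPolynomial.X (i, j)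
  have h1 : (Polynomial.mapAlgHom g).comp (MvPolynomial.aeval (dh X0)) =
      (MvPolynomial.aeval (dh c) : MvPolynomial (Fin (n + 1)) k →ₐ[k] Polynomial k) := by
    refine MvPolynomial.algHom_ext fun i => ?_
    rw [AlgHom.comp_apply, MvPolynomial.aeval_X, MvPolynomial.aeval_X]
    show (dh X0 i).map (g : B →+* k) = dh c i
    rw [Ver2_map]
    congr 1
    funext i j
    exact MvPolynomial.aeval_X _ _
  have h2 := congrArg (fun φ : MvPolynomial (Fin (n + 1)) k →ₐ[k] Polynomial k =>
    (φ (hs G e t)).coeff (j : ℕ)) h1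
  have h3 : (((MvPolynomial.aeval (dh X0)) (hs G e t)).map (g : B →+* k)).coeff (j : ℕ) =
    ((MvPolynomial.aeval (dh c)) (hs G e t)).coeff (j : ℕ) := h2
  rw [Polynomial.coeff_map] at h3
  exact h3

theorem vh_surj [IsAlgClosed k] (G : MvPolynomial (Fin (n + 1)) k)
    (I : Ideal (MvPolynomial (Fin (n + 1) × Fin (d + 1 + 1)) k))
    (c' : Fin ((n + 1) * (n + 1) + 1) → Fin ((d + 1) * e + d + 1 + 1) → k)
    (h : Mem (RingHom.id k) (I.comap (vh G e)) c') :
    ∃ c : Fin (n + 1) → Fin (d + 1 + 1) → k, Mem (RingHom.id k) I c ∧ c' = vt G e c := by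
  classical
  let A := MvPolynomial (Fin ((n + 1) * (n + 1) + 1) × Fin ((d + 1) * e + d + 1 + 1)) k
  let B := MvPolynomial (Fin (n + 1) × Fin (d + 1 + 1)) k
  let f : A →+* B := (vh (d := d) G e).toRingHom
  let ev : A →+* k := MvPolynomial.eval₂Hom (RingHom.id k) (fun q => c' q.1 q.2)
  have hev : Function.Surjective ev := fun a => ⟨MvPolynomial.C a, by
    show MvPolynomial.eval₂ (RingHom.id k) _ (MvPolynomial.C a) = a
    rw [MvPolynomial.eval₂_C]
    rfl⟩
  have hM : (RingHom.ker ev).IsMaximal := RingHom.ker_isMaximal_of_surjective ev hev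
  have hle : I.comap f ≤ RingHom.ker ev := fun P hP => h P hP
  let _ : Algebra A B := f.toAlgebra
  have hint : Algebra.IsIntegral A B := ⟨vh_integral (d := d) (e := e) G⟩
  obtain ⟨Q, hQ, hQp, hQc⟩ := Ideal.exists_ideal_over_prime_of_isIntegral (R := A) (S := B)
    (RingHom.ker ev) I hle
  have hQm : Q.IsMaximal := Ideal.isMaximal_of_isIntegral_of_isMaximal_comap (R := A) (S := B) Q
    (hQc ▸ hM)
  obtain ⟨x, hx⟩ := (MvPolynomial.isMaximal_iff_eq_vanishingIdeal_singleton (K := k)).1 hQm
  have hmem : ∀ p ∈ Q, MvPolynomial.aeval x p = 0 := fun p hp => by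
    rw [hx, MvPolynomial.mem_vanishingIdeal_iff] at hp
    exact hp x rfl
  refine ⟨fun i j => x (i, j), fun P hP => hmem P (hQ hP), ?_⟩
  funext t j
  have h1 : (MvPolynomial.X (t, j) - MvPolynomial.C (c' t j) : A) ∈ RingHom.ker ev := by
    rw [RingHom.mem_ker, map_sub, sub_eq_zero]
    have e1 : ev (MvPolynomial.X (t, j)) = c' t j := MvPolynomial.eval₂Hom_X' _ _ _
    have e2 : ev (MvPolynomial.C (c' t j)) = c' t j := MvPolynomial.eval₂Hom_C _ _ _
    rw [e1, e2]
  rw [← hQc] at h1
  have h2 : vh (d := d) G e (MvPolynomial.X (t, j) - MvPolynomial.C (c' t j)) ∈ Q := h1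
  have h3 := hmem _ h2
  rw [map_sub, map_sub, sub_eq_zero, Ver2_vh] at h3
  have h4 : MvPolynomial.aeval x (vh (d := d) G e (MvPolynomial.C (c' t j))) = c' t j := by
    have h5 : vh (d := d) G e (MvPolynomial.C (c' t j)) = MvPolynomial.C (c' t j) :=
      (vh (d := d) G e).commutes (c' t j)
    rw [h5, MvPolynomial.aeval_C]
    rfl
  rw [h4] at h3
  rw [← h3]
  exact Ver2_eval G (fun i j => x (i, j)) t j

/-- An injective integral homomorphism preserves the Krull dimension. -/
private theorem Ver2_dim {R S : Type} [CommRing R] [CommRing S] [Algebra R S]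
    [Algebra.IsIntegral R S] (hinj : Function.Injective (algebraMap R S)) :
    ringKrullDim R = ringKrullDim S := by
  classical
  refine le_antisymm ?_ ?_
  · have key : ∀ (m : ℕ) (p : LTSeries (PrimeSpectrum R)), p.length = m →
        ∃ q : LTSeries (PrimeSpectrum S), q.length = m ∧
          (PrimeSpectrum.comap (algebraMap R S)) (RelSeries.last q) = RelSeries.last p := by
      intro m
      induction m with
      | zero =>
        intro p hp
        obtain ⟨Q, -, h1, h2⟩ := Ideal.exists_ideal_over_prime_of_isIntegral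
          (S := S) (RelSeries.last p).asIdeal ⊥ (by
            rw [← RingHom.ker_eq_comap_bot, (RingHom.injective_iff_ker_eq_bot _).1 hinj]
            exact bot_le)
        exact ⟨RelSeries.singleton _ ⟨Q, h1⟩, rfl, PrimeSpectrum.ext h2⟩
      | succ m ih =>
        intro p hp
        obtain ⟨q, h1, h2⟩ := ih p.eraseLast (by
          rw [RelSeries.eraseLast_length, hp]
          rfl)
        have h3 : RelSeries.last p.eraseLast < RelSeries.last p :=
          RelSeries.eraseLast_last_rel_last p (by omega)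
        obtain ⟨Q, h4, h5, h6⟩ := Ideal.exists_ideal_over_prime_of_isIntegral
          (S := S) (RelSeries.last p).asIdeal (RelSeries.last q).asIdeal (by
            have h7 : ((RelSeries.last q).asIdeal).comap (algebraMap R S) =
              (RelSeries.last p.eraseLast).asIdeal := congrArg PrimeSpectrum.asIdeal h2
            rw [h7]
            exact h3.le)
        have h8 : RelSeries.last q < ⟨Q, h5⟩ := by
          refine lt_of_le_of_ne h4 fun h => ?_
          have h9 := congrArg (PrimeSpectrum.comap (algebraMap R S)) h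
          rw [h2] at h9
          have h10 : (PrimeSpectrum.comap (algebraMap R S)) ⟨Q, h5⟩ = RelSeries.last p :=
            PrimeSpectrum.ext h6
          rw [h10] at h9
          exact h3.ne h9
        refine ⟨RelSeries.snoc q ⟨Q, h5⟩ h8, ?_, ?_⟩
        · rw [RelSeries.snoc_length, h1]
        · rw [RelSeries.last_snoc]
          exact PrimeSpectrum.ext h6
    refine iSup_le fun p => ?_
    obtain ⟨q, h1, -⟩ := key p.length p rfl
    rw [← h1]
    exact Order.LTSeries.length_le_krullDim q
  · refine Order.krullDim_le_of_strictMono (PrimeSpectrum.comap (algebraMap R S)) ?_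
    intro P Q hPQ
    exact Ideal.IsIntegral.comap_lt_comap (I := P.asIdeal) (J := Q.asIdeal) hPQ

theorem vh_dim (G : MvPolynomial (Fin (n + 1)) k)
    (I : Ideal (MvPolynomial (Fin (n + 1) × Fin (d + 1 + 1)) k)) :
    ringKrullDim (MvPolynomial (Fin ((n + 1) * (n + 1) + 1) × Fin ((d + 1) * e + d + 1 + 1)) k ⧸
      I.comap (vh G e)) = ringKrullDim (MvPolynomial (Fin (n + 1) × Fin (d + 1 + 1)) k ⧸ I) := by
  let A := MvPolynomial (Fin ((n + 1) * (n + 1) + 1) × Fin ((d + 1) * e + d + 1 + 1)) k
  let B := MvPolynomial (Fin (n + 1) × Fin (d + 1 + 1)) k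
  let f : A →+* B := (vh (d := d) G e).toRingHom
  let g : A ⧸ I.comap f →+* B ⧸ I := Ideal.quotientMap I f le_rfl
  let _ : Algebra (A ⧸ I.comap f) (B ⧸ I) := g.toAlgebra
  have hint : Algebra.IsIntegral (A ⧸ I.comap f) (B ⧸ I) := by
    refine ⟨fun x => ?_⟩
    obtain ⟨y, rfl⟩ := Ideal.Quotient.mk_surjective x
    obtain ⟨p, hp, hy⟩ := vh_integral (d := d) (e := e) G y
    refine ⟨p.map (Ideal.Quotient.mk (I.comap f)), hp.map _, ?_⟩
    rw [Polynomial.eval₂_map]
    have h1 : (algebraMap (A ⧸ I.comap f) (B ⧸ I)).comp (Ideal.Quotient.mk (I.comap f)) =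
        (Ideal.Quotient.mk I).comp f := RingHom.ext fun a => rfl
    rw [h1, ← Polynomial.hom_eval₂, hy, map_zero]
  exact Ver2_dim (R := A ⧸ I.comap f) (S := B ⧸ I) (Ideal.quotientMap_injective)

end Pool.Agent.Lib.MP_1e3e9c_agU
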