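import Mathlib
import Pool.Agent.Lib.MP_1e3e9c_agU.Main
import Pool.Agent.Lib.MP_1e3e9c_agU.Ver1
import Pool.Agent.Lib.MP_1e3e9c_agU.Ver2

/-!
# MP_1e3e9c_ag, project U: hypersurface sections
-/

set_option autoImplicit false

namespace Pool.Agent.Lib.MP_1e3e9c_agU

theorem cst_ev {k : Type} [Field k] {n D : ℕ} {c : Fin (n + 1) → Fin (D + 1) → k}
    (v : Fin (n + 1) → k) (a b : k)
    (h : ∀ i (j : Fin (D + 1)), c i j = v i * (Nat.choose D j : k) * a ^ (D - (j : ℕ)) * b ^ (j : ℕ))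
    (x : Fin 2 → k) (i : Fin (n + 1)) : ev (c i) x = v i * (a * x 0 + b * x 1) ^ D := by
  rw [add_comm (a * x 0), add_pow]
  unfold ev
  rw [← Fin.sum_univ_eq_sum_range (fun m => (b * x 1) ^ m * (a * x 0) ^ (D - m) *
    (Nat.choose D m : k)) (D + 1), Finset.mul_sum]
  refine Finset.sum_congr rfl fun j _ => ?_
  rw [h, mul_pow, mul_pow]
  ring

/-- A constant tuple of positive degree has a zero. -/
theorem cst_zero {k : Type} [Field k] {n D : ℕ} {c : Fin (n + 1) → Fin (D + 1 + 1) → k}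
    (h : Cst c) : ∃ x : Fin 2 → k, x ≠ 0 ∧ ∀ i, ev (c i) x = 0 := by
  obtain ⟨v, a, b, h⟩ := h
  by_cases hab : a = 0 ∧ b = 0
  · refine ⟨![1, 0], fun h => by simpa using congrFun h 0, fun i => ?_⟩
    rw [cst_ev v a b h, hab.1, hab.2]
    simp
  · refine ⟨![b, -a], fun h => hab ?_, fun i => ?_⟩
    · have h0 := congrFun h 0
      have h1 := congrFun h 1
      simp at h0 h1
      exact ⟨h1, h0⟩
    · rw [cst_ev v a b h]
      simp [mul_comm]

/-- **Unsplit families, hypersurface sections.** -/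
theorem unsplit_section {k : Type} [Field k] [IsAlgClosed k] [CharZero k] {n d e r : ℕ}
    (I : Ideal (MvPolynomial (Fin (n + 1) × Fin (d + 1 + 1)) k)) (hp : I.IsPrime)
    (halt : ∀ c : Fin (n + 1) → Fin (d + 1 + 1) → k, Mem (RingHom.id k) I c → c ≠ 0 →
      (∀ x : Fin 2 → k, x ≠ 0 → ∃ i, ev (c i) x ≠ 0) ∨ Cst c)
    (hact : ∀ (c c' : Fin (n + 1) → Fin (d + 1 + 1) → k) (g : Matrix (Fin 2) (Fin 2) k),
      Mem (RingHom.id k) I c → g.det ≠ 0 → (∀ i x, ev (c' i) x = ev (c i) (g.mulVec x)) →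
      Mem (RingHom.id k) I c')
    (hbpf : ∃ c : Fin (n + 1) → Fin (d + 1 + 1) → k, Mem (RingHom.id k) I c ∧
      ∀ x : Fin 2 → k, x ≠ 0 → ∃ i, ev (c i) x ≠ 0)
    (G : MvPolynomial (Fin (n + 1)) k) (hG : G.IsHomogeneous (e + 1))
    (hrts : ∀ c : Fin (n + 1) → Fin (d + 1 + 1) → k, Mem (RingHom.id k) I c →
      (∀ x : Fin 2 → k, x ≠ 0 → ∃ i, ev (c i) x ≠ 0) →
      (∃ x : Fin 2 → k, MvPolynomial.eval (fun i => ev (c i) x) G ≠ 0) →
      ∀ p : Fin (r + 1) → Fin 2 → k, (∀ l, p l ≠ 0) →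
        (∀ l, MvPolynomial.eval (fun i => ev (c i) (p l)) G = 0) →
        ∃ l l', l ≠ l' ∧ wd (p l) (p l') = 0)
    (hdim : ((r + 5 : ℕ) : WithBot ℕ∞) ≤
      ringKrullDim (MvPolynomial (Fin (n + 1) × Fin (d + 1 + 1)) k ⧸ I)) :
    (∃ c : Fin (n + 1) → Fin (d + 1 + 1) → k, Mem (RingHom.id k) I c ∧
      (∀ x : Fin 2 → k, x ≠ 0 → ∃ i, ev (c i) x ≠ 0) ∧
      ∀ x : Fin 2 → k, MvPolynomial.eval (fun i => ev (c i) x) G = 0) ∨
    ∃ y : Fin (n + 1) → k, MvPolynomial.eval y G ≠ 0 ∧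
      ∀ c : Fin (n + 1) → Fin (d + 1 + 1) → k, Mem (RingHom.id k) I c →
        ∃ x : Fin 2 → k, x ≠ 0 ∧ ∃ b : k, ∀ i, ev (c i) x = b * y i := by
  have hG0 : hs G e 0 = G := by simp [hs]
  -- members of the new family
  have hlift : ∀ c', Mem (RingHom.id k) (I.comap (vh (d := d) G e)) c' →
      ∃ c : Fin (n + 1) → Fin (d + 1 + 1) → k, Mem (RingHom.id k) I c ∧ c' = vt G e c :=
    fun c' h => vh_surj G I c' h
  have hnb : ∀ c : Fin (n + 1) → Fin (d + 1 + 1) → k, Mem (RingHom.id k) I c →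
      (∀ x : Fin 2 → k, x ≠ 0 → ∃ t, ev (vt G e c t) x ≠ 0) →
      ∀ x : Fin 2 → k, x ≠ 0 → ∃ i, ev (c i) x ≠ 0 := by
    intro c hc hb
    by_cases h0 : c = 0
    · exfalso
      obtain ⟨t, ht⟩ := hb ![1, 0] (by intro h; simpa using congrFun h 0)
      rw [h0, vt_zero hG] at ht
      apply ht
      simp [ev]
    · rcases halt c hc h0 with h1 | h1
      · exact h1
      · exfalso
        obtain ⟨x, hx, hx'⟩ := cst_zero (vt_cst (e := e) hG h1)
        obtain ⟨t, ht⟩ := hb x hx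
        exact ht (hx' t)
  have hev0 : ∀ (c : Fin (n + 1) → Fin (d + 1 + 1) → k) (x : Fin 2 → k),
      ev (vt G e c 0) x = MvPolynomial.eval (fun i => ev (c i) x) G := by
    intro c x
    rw [vt_ev hG, hG0]
  obtain ⟨c₁, hm₁, hb₁⟩ := hbpf
  have main := unsplit (r := r) (I.comap (vh (d := d) G e)) (hp.comap _)
    (by
      intro c' hc' h0
      obtain ⟨c, hc, rfl⟩ := hlift c' hc'
      have hc0 : c ≠ 0 := by
        rintro rfl
        exact h0 (vt_zero hG)
      rcases halt c hc hc0 with h1 | h1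
      · exact Or.inl fun x hx => vt_bpf hG h1 x hx
      · exact Or.inr (vt_cst hG h1))
    (by
      intro c' c'' g hc' hg h
      obtain ⟨c, hc, rfl⟩ := hlift c' hc'
      rw [vt_act hG g c c'' h]
      exact vt_mem (hact c _ g hc hg fun i x => ev_act g (c i) x))
    ⟨vt G e c₁, vt_mem hm₁, fun x hx => vt_bpf hG hb₁ x hx⟩
    (by
      intro c' hc' hb h0 p hp0 hp1
      obtain ⟨c, hc, rfl⟩ := hlift c' hc'
      refine hrts c hc (hnb c hc hb) ?_ p hp0 fun l => by rw [← hev0]; exact hp1 l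
      by_contra hcon
      push_neg at hcon
      apply h0
      haveI : Infinite k := Infinite.of_injective _ (Nat.cast_injective (R := k))
      apply ev_ext
      intro x
      rw [hev0, hcon x]
      simp [ev])
    (by rw [vh_dim]; exact hdim)
  rcases main with ⟨c', hc', hb, h0⟩ | ⟨y', hy', h⟩
  · left
    obtain ⟨c, hc, rfl⟩ := hlift c' hc'
    refine ⟨c, hc, hnb c hc hb, fun x => ?_⟩
    rw [← hev0, h0]
    simp [ev]
  · right
    obtain ⟨x₁, hx₁, b₁, h₁⟩ := h _ (vt_mem (G := G) (e := e) hm₁)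
    have hb1 : b₁ ≠ 0 := by
      rintro rfl
      obtain ⟨t, ht⟩ := vt_bpf (e := e) hG hb₁ x₁ hx₁
      exact ht (by rw [h₁ t, zero_mul])
    have hH : ∀ t, MvPolynomial.eval (fun i => ev (c₁ i) x₁) (hs G e t) = b₁ * y' t := by
      intro t
      rw [← vt_ev hG]
      exact h₁ t
    refine ⟨fun i => ev (c₁ i) x₁, ?_, ?_⟩
    · have h2 := hH 0
      rw [hG0] at h2
      rw [h2]
      exact mul_ne_zero hb1 hy'
    · intro c hc
      by_cases hc0 : c = 0
      · refine ⟨![1, 0], by intro h; simpa using congrFun h 0, 0, fun i => ?_⟩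
        rw [hc0]
        simp [ev]
      rcases halt c hc hc0 with h3 | h3
      · obtain ⟨x, hx, b, hb⟩ := h _ (vt_mem (G := G) (e := e) hc)
        have hf : (fun i => ev (c i) x) ≠ 0 := by
          intro h4
          obtain ⟨i, hi⟩ := h3 x hx
          exact hi (congrFun h4 i)
        obtain ⟨a, ha⟩ := sep (G := G) (e := e) (y := fun i => ev (c₁ i) x₁) hf (b := b / b₁)
          (by
            intro t
            rw [hH t, ← vt_ev hG, hb t]
            field_simp)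
        exact ⟨x, hx, a, ha⟩
      · obtain ⟨x, hx, hx'⟩ := cst_zero h3
        exact ⟨x, hx, 0, fun i => by rw [hx' i, zero_mul]⟩

end Pool.Agent.Lib.MP_1e3e9c_agU
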