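import Mathlib
import Pool.Agent.Lib.MP_1e3e9c_agU.Sec

/-!
# MP_1e3e9c_ag, project U: the final statements
-/

set_option autoImplicit false

namespace Pool.Agent.Lib.MP_1e3e9c_agU

/-- `c` is a zero of all elements of `I`. -/
def Zer {k : Type} [Field k] {n D : ℕ} (I : Ideal (MvPolynomial (Fin (n + 1) × Fin (D + 1)) k))
    (c : Fin (n + 1) → Fin (D + 1) → k) : Prop :=
  ∀ P ∈ I, MvPolynomial.eval (fun q : Fin (n + 1) × Fin (D + 1) => c q.1 q.2) P = 0

/-- The point `(f_0(x), ..., f_n(x))`, where `f_i` is the binary form with coefficients `c i`. -/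
def cur {k : Type} [Field k] {n D : ℕ} (c : Fin (n + 1) → Fin (D + 1) → k) (x : Fin 2 → k) :
    Fin (n + 1) → k := fun i => ∑ j : Fin (D + 1), c i j * x 0 ^ (D - (j : ℕ)) * x 1 ^ (j : ℕ)

/-- `f` defines a morphism from the projective line: the `f_i` have no common zero. -/
def Mor {k : Type} [Field k] {n D : ℕ} (c : Fin (n + 1) → Fin (D + 1) → k) : Prop :=
  ∀ x : Fin 2 → k, x ≠ 0 → cur c x ≠ 0

/-- The zero set of the prime ideal `I` is an unsplit family of rational curves. -/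
structure Unsplit {k : Type} [Field k] {n D : ℕ}
    (I : Ideal (MvPolynomial (Fin (n + 1) × Fin (D + 1)) k)) : Prop where
  prime : I.IsPrime
  mor : ∃ c, Zer I c ∧ Mor c
  act : ∀ (c c' : Fin (n + 1) → Fin (D + 1) → k) (g : Matrix (Fin 2) (Fin 2) k), Zer I c →
    g.det ≠ 0 → (∀ x, cur c' x = cur c (g.mulVec x)) → Zer I c'
  alt : ∀ c : Fin (n + 1) → Fin (D + 1) → k, Zer I c → c ≠ 0 → Mor c ∨
    ∃ (v : Fin (n + 1) → k) (a b : k), ∀ x i, cur c x i = (a * x 0 + b * x 1) ^ D * v i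

theorem zer_iff {k : Type} [Field k] {n D : ℕ}
    (I : Ideal (MvPolynomial (Fin (n + 1) × Fin (D + 1)) k))
    (c : Fin (n + 1) → Fin (D + 1) → k) : Zer I c ↔ Mem (RingHom.id k) I c := Iff.rfl

theorem mor_iff {k : Type} [Field k] {n D : ℕ} (c : Fin (n + 1) → Fin (D + 1) → k) :
    Mor c ↔ ∀ x : Fin 2 → k, x ≠ 0 → ∃ i, ev (c i) x ≠ 0 := by
  unfold Mor
  refine forall_congr' fun x => forall_congr' fun _ => ?_
  rw [Function.ne_iff]
  rfl

theorem hom_smul {k : Type} [Field k] {n e : ℕ} {G : MvPolynomial (Fin (n + 1)) k}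
    (hG : G.IsHomogeneous e) (a : k) (y : Fin (n + 1) → k) :
    MvPolynomial.eval (a • y) G = a ^ e * MvPolynomial.eval y G := by
  rw [MvPolynomial.eval_eq, MvPolynomial.eval_eq, Finset.mul_sum]
  refine Finset.sum_congr rfl fun m hm => ?_
  have h1 : m.degree = e := hG.degree_eq_sum_deg_support hm |>.symm
  simp only [Pi.smul_apply, smul_eq_mul, mul_pow, Finset.prod_mul_distrib, Finset.prod_pow_eq_pow_sum]
  rw [show ∑ i ∈ m.support, m i = e from h1]
  ring

/-- More than `r` points among the zeros contradict the bound. -/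
theorem pigeon {k : Type} [Field k] {n D e r : ℕ} (G : MvPolynomial (Fin (n + 1)) k)
    (hG : G.IsHomogeneous e) (c : Fin (n + 1) → Fin (D + 1) → k)
    (hr : Set.encard {P : Projectivization k (Fin 2 → k) |
      MvPolynomial.eval (cur c P.rep) G = 0} ≤ r)
    (p : Fin (r + 1) → Fin 2 → k) (hp : ∀ l, p l ≠ 0)
    (h0 : ∀ l, MvPolynomial.eval (fun i => ev (c i) (p l)) G = 0) :
    ∃ l l', l ≠ l' ∧ wd (p l) (p l') = 0 := by
  by_contra hcon
  push Not at hcon
  have hinj : Function.Injective fun l => Projectivization.mk k (p l) (hp l) := by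
    intro l l' h
    by_contra hne
    apply hcon l l' hne
    rw [Projectivization.mk_eq_mk_iff'] at h
    obtain ⟨a, ha⟩ := h
    unfold wd
    rw [← ha]
    simp only [Pi.smul_apply, smul_eq_mul]
    ring
  have hsub : Set.range (fun l => Projectivization.mk k (p l) (hp l)) ⊆
      {P : Projectivization k (Fin 2 → k) | MvPolynomial.eval (cur c P.rep) G = 0} := by
    rintro _ ⟨l, rfl⟩
    obtain ⟨a, ha⟩ := Projectivization.exists_smul_eq_mk_rep k (p l) (hp l)
    have h1 : cur c (Projectivization.mk k (p l) (hp l)).rep =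
        ((a : k) ^ D) • fun i => ev (c i) (p l) := by
      rw [← ha]
      funext i
      exact ev_scale (a : k) (c i) (p l)
    change MvPolynomial.eval _ G = 0
    rw [h1]
    rw [hom_smul hG, h0 l, mul_zero]
  have h3 := Set.encard_le_encard hsub
  rw [← Set.image_univ, hinj.encard_image, Set.encard_univ] at h3
  have h4 := h3.trans hr
  rw [ENat.card_eq_coe_fintype_card, Fintype.card_fin, Nat.cast_le] at h4
  omega

/-- **Unsplit families, final form.** -/
theorem unsplit_final {k : Type} [Field k] [IsAlgClosed k] [CharZero k] {n D e r : ℕ}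
    (hD : 1 ≤ D) (he : 1 ≤ e) (I : Ideal (MvPolynomial (Fin (n + 1) × Fin (D + 1)) k))
    (hI : Unsplit I) (G : MvPolynomial (Fin (n + 1)) k) (hG : G.IsHomogeneous e)
    (hr : ∀ c, Zer I c → Mor c → (∃ x, MvPolynomial.eval (cur c x) G ≠ 0) →
      Set.encard {P : Projectivization k (Fin 2 → k) |
        MvPolynomial.eval (cur c P.rep) G = 0} ≤ r)
    (hdim : ((r + 1 + 4 : ℕ) : WithBot ℕ∞) ≤
      ringKrullDim (MvPolynomial (Fin (n + 1) × Fin (D + 1)) k ⧸ I)) :
    (∃ c, Zer I c ∧ Mor c ∧ ∀ x, MvPolynomial.eval (cur c x) G = 0) ∨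
    ∃ y, MvPolynomial.eval y G ≠ 0 ∧
      ∀ c, Zer I c → Mor c → ∃ x, x ≠ 0 ∧ ∃ b : k, cur c x = b • y := by
  obtain ⟨d, rfl⟩ : ∃ d, D = d + 1 := ⟨D - 1, by omega⟩
  obtain ⟨e, rfl⟩ : ∃ e', e = e' + 1 := ⟨e - 1, by omega⟩
  obtain ⟨c₀, hc₀, hm₀⟩ := hI.mor
  rcases unsplit_section (r := r) I hI.prime
    (by
      intro c hc h0
      rcases hI.alt c hc h0 with h | ⟨v, a, b, h⟩
      · exact Or.inl ((mor_iff c).1 h)
      · right
        refine ⟨v, a, b, fun i j => ?_⟩
        haveI : Infinite k := Infinite.of_injective _ (Nat.cast_injective (R := k))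
        have h1 : c i = fun j : Fin (d + 1 + 1) =>
            v i * (Nat.choose (d + 1) j : k) * a ^ (d + 1 - (j : ℕ)) * b ^ (j : ℕ) := by
          apply ev_ext
          intro x
          have h2 := h x i
          have h3 := cst_ev (c := fun i (j : Fin (d + 1 + 1)) =>
            v i * (Nat.choose (d + 1) j : k) * a ^ (d + 1 - (j : ℕ)) * b ^ (j : ℕ)) v a b
            (fun _ _ => rfl) x i
          rw [h3, mul_comm]
          exact h2
        rw [h1])
    (fun c c' g hc hg h => hI.act c c' g hc hg fun x => funext fun i => h i x)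
    ⟨c₀, hc₀, (mor_iff c₀).1 hm₀⟩ G hG
    (fun c hc hb hx p hp h0 => pigeon G hG c (hr c hc ((mor_iff c).2 hb) hx) p hp h0)
    hdim with ⟨c, hc, hb, h⟩ | ⟨y, hy, h⟩
  · exact Or.inl ⟨c, hc, (mor_iff c).2 hb, h⟩
  · refine Or.inr ⟨y, hy, fun c hc _ => ?_⟩
    obtain ⟨x, hx, b, hb⟩ := h c hc
    exact ⟨x, hx, b, funext hb⟩

end Pool.Agent.Lib.MP_1e3e9c_agU
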