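import Mathlib
import Pool.Agent.Lib.MP_1e3e9c_agU.Fin

/-!
# MP_1e3e9c_ag, project U, leaf Bro: holomorphic maps

`F z = cur c (1, z)`. If `F z = a(z) F 0` for all `z`, then with `v = F 0` (`≠ 0`, say `v_j ≠ 0`) the form
`v_j f_i - v_i f_j` vanishes at all `(1, z)`, so it is `0`; `f_j` has a zero `x ≠ 0` (`D ≥ 1`, `ℂ`
algebraically closed), and there all `f_i` vanish: contradiction.
-/

set_option autoImplicit false

namespace Pool.Agent.Lib.MP_1e3e9c_agU

/-- Every holomorphic map from `ℂ` to the common zero set in `P^n` of the forms in `S` is constant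
(`F` = homogeneous coordinates: entire functions without common zero). -/
def Brody {n : ℕ} (S : Set (MvPolynomial (Fin (n + 1)) ℂ)) : Prop :=
  ∀ F : ℂ → Fin (n + 1) → ℂ, (∀ i, Differentiable ℂ fun z => F z i) → (∀ z, F z ≠ 0) →
    (∀ z, ∀ P ∈ S, MvPolynomial.eval (F z) P = 0) → ∀ z, ∃ a : ℂ, F z = a • F 0

private theorem Bro_coeff {D : ℕ} (a : Fin (D + 1) → ℂ) (i : Fin (D + 1)) :
    (∑ j : Fin (D + 1), Polynomial.C (a j) * Polynomial.X ^ (j : ℕ)).coeff (i : ℕ) = a i := by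
  rw [Polynomial.finsetSum_coeff, Finset.sum_eq_single i]
  · rw [Polynomial.coeff_C_mul_X_pow, if_pos rfl]
  · intro j _ hj
    rw [Polynomial.coeff_C_mul_X_pow, if_neg fun h => hj (Fin.ext h.symm)]
  · intro h
    exact absurd (Finset.mem_univ i) h

private theorem Bro_eval {D : ℕ} (a : Fin (D + 1) → ℂ) (z : ℂ) :
    (∑ j : Fin (D + 1), Polynomial.C (a j) * Polynomial.X ^ (j : ℕ)).eval z =
      ∑ j : Fin (D + 1), a j * z ^ (j : ℕ) := by
  rw [Polynomial.eval_finsetSum]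
  refine Finset.sum_congr rfl fun j _ => ?_
  rw [Polynomial.eval_mul, Polynomial.eval_C, Polynomial.eval_pow, Polynomial.eval_X]

private theorem Bro_cur {n D : ℕ} (c : Fin (n + 1) → Fin (D + 1) → ℂ) (z : ℂ) (i : Fin (n + 1)) :
    cur c ![1, z] i = ∑ j : Fin (D + 1), c i j * z ^ (j : ℕ) := by
  unfold cur
  refine Finset.sum_congr rfl fun j _ => ?_
  show c i j * (1 : ℂ) ^ (D - (j : ℕ)) * z ^ (j : ℕ) = c i j * z ^ (j : ℕ)
  rw [one_pow, mul_one]

theorem not_brody {n D : ℕ} (hD : 1 ≤ D) (S : Set (MvPolynomial (Fin (n + 1)) ℂ))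
    (c : Fin (n + 1) → Fin (D + 1) → ℂ) (hc : Mor c)
    (h : ∀ x, ∀ P ∈ S, MvPolynomial.eval (cur c x) P = 0) : ¬ Brody S := by
  intro hB
  have hne : ∀ z : ℂ, (![1, z] : Fin 2 → ℂ) ≠ 0 := by
    intro z h0
    have h1 := congrFun h0 0
    exact one_ne_zero h1
  have hB' := hB (fun z => cur c ![1, z]) (fun i => by
    have e : (fun z : ℂ => cur c ![1, z] i) = fun z => ∑ j : Fin (D + 1), c i j * z ^ (j : ℕ) :=
      funext fun z => Bro_cur c z i
    rw [e]
    fun_prop) (fun z => hc _ (hne z)) (fun z P hP => h _ P hP)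
  have hv : cur c ![1, 0] ≠ 0 := hc _ (hne 0)
  obtain ⟨v, hv0⟩ : ∃ v, v = cur c ![1, 0] := ⟨_, rfl⟩
  rw [← hv0] at hv
  obtain ⟨j0, hj0⟩ := Function.ne_iff.1 hv
  have hj0' : v j0 ≠ 0 := hj0
  have hrel : ∀ i j, v j0 * c i j = v i * c j0 j := by
    intro i j
    have h1 : (∑ j : Fin (D + 1), Polynomial.C (v j0 * c i j - v i * c j0 j) *
        Polynomial.X ^ (j : ℕ)) = 0 := by
      refine Polynomial.funext fun z => ?_
      rw [Bro_eval, Polynomial.eval_zero]
      obtain ⟨a, ha⟩ := hB' z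
      have ha' : cur c ![1, z] = a • v := by rw [hv0]; exact ha
      have h2 := congrFun ha' i
      have h3 := congrFun ha' j0
      rw [Bro_cur, Pi.smul_apply, smul_eq_mul] at h2 h3
      have h4 : ∑ j : Fin (D + 1), (v j0 * c i j - v i * c j0 j) * z ^ (j : ℕ) =
          v j0 * (∑ j : Fin (D + 1), c i j * z ^ (j : ℕ)) -
            v i * ∑ j : Fin (D + 1), c j0 j * z ^ (j : ℕ) := by
        rw [Finset.mul_sum, Finset.mul_sum, ← Finset.sum_sub_distrib]
        exact Finset.sum_congr rfl fun j _ => by ring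
      rw [h4, h2, h3]
      ring
    have h5 := Bro_coeff (fun j => v j0 * c i j - v i * c j0 j) j
    rw [h1, Polynomial.coeff_zero] at h5
    exact (sub_eq_zero.1 h5.symm)
  obtain ⟨x, hx, hx0⟩ : ∃ x : Fin 2 → ℂ, x ≠ 0 ∧ cur c x j0 = 0 := by
    by_cases hD0 : c j0 (Fin.last D) = 0
    · refine ⟨![0, 1], fun h0 => one_ne_zero (congrFun h0 1), ?_⟩
      unfold cur
      refine Finset.sum_eq_zero fun j _ => ?_
      show c j0 j * (0 : ℂ) ^ (D - (j : ℕ)) * 1 ^ (j : ℕ) = 0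
      by_cases hj : j = Fin.last D
      · rw [hj, hD0, zero_mul, zero_mul]
      · have h6 : D - (j : ℕ) ≠ 0 := by
          have h7 : (j : ℕ) ≠ D := fun h8 => hj (Fin.ext h8)
          have h9 := j.2
          omega
        rw [zero_pow h6, mul_zero, zero_mul]
    · have h6 : (∑ j : Fin (D + 1), Polynomial.C (c j0 j) * Polynomial.X ^ (j : ℕ)).degree ≠ 0 := by
        intro h7
        have h8 := Bro_coeff (fun j => c j0 j) (Fin.last D)
        rw [Polynomial.coeff_eq_zero_of_degree_lt] at h8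
        · exact hD0 h8.symm
        · rw [h7, Fin.val_last]
          exact_mod_cast hD
      obtain ⟨z, hz⟩ := IsAlgClosed.exists_root _ h6
      refine ⟨![1, z], hne z, ?_⟩
      rw [Bro_cur, ← Bro_eval]
      exact hz
  refine hc x hx (funext fun i => ?_)
  have h7 : v j0 * cur c x i = v i * cur c x j0 := by
    unfold cur
    rw [Finset.mul_sum, Finset.mul_sum]
    refine Finset.sum_congr rfl fun j _ => ?_
    calc v j0 * (c i j * x 0 ^ (D - (j : ℕ)) * x 1 ^ (j : ℕ))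
        = (v j0 * c i j) * (x 0 ^ (D - (j : ℕ)) * x 1 ^ (j : ℕ)) := by ring
      _ = (v i * c j0 j) * (x 0 ^ (D - (j : ℕ)) * x 1 ^ (j : ℕ)) := by rw [hrel i j]
      _ = v i * (c j0 j * x 0 ^ (D - (j : ℕ)) * x 1 ^ (j : ℕ)) := by ring
  rw [hx0, mul_zero] at h7
  exact (mul_eq_zero.1 h7).resolve_left hj0'

end Pool.Agent.Lib.MP_1e3e9c_agU
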