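import Mathlib
import Pool.Agent.Lib.MP_1e3e9c_agU.A9
import Pool.Agent.Lib.MP_1e3e9c_agU.E3
import Pool.Agent.Lib.MP_1e3e9c_agU.C9
import Pool.Agent.Lib.MP_1e3e9c_agU.G1e

/-!
# MP_1e3e9c_ag, project U, leaf E10: the second ladder (one zero of `f_0` gives a constant point)

`con_rd`: the quotients of the coordinates of `z` are algebraic over `K ⊆ V`, so they are in `V`
(`ord_alg` or integrally closed) and their residues are algebraic over `resS K V`; `rd V z` is the
residue of a multiple of `z` (`rd_spec`).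
`ladder0`: induction on `s` (compare `ladder`, leaf E9, and `kapR_zero`, leaf E8). `few 0` is impossible
(`few_pos`). Step `s + 1`: `l = m₁ :: l'`, `FF K (l'.length + 1)`; let `X_j = XX K (zz (p j) :: zz l')`.
`X_j = 0` if `p j` is proportional to `p m₀` (`XX_con`, `XX_pr`, `con_zz`). Let `p j` not be proportional
to `p m₀`. `dd_XR` for the list `zz l'` and `q = p m₀`, `q' = p j`:
`∑_v XR K v (zz l') dd v (p m₀) (p j) = (d+1) (0 + X_j) - ∑_m X_m`. The left side is `0`: where
`dd v ≠ 0` it is positive (`dd_nonneg`), and then `XR K v (zz l') = 0`: if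
`FF (resS K v) l'.length` take the residue datum `D'` (`exists_resDat`) over `E`, over the field
`upK E (resS K v)` (`FF_up`): it has at most `s` distinct zeros (`p m₀` and `p j` become proportional),
the point of `p m₀` is constant (`con_rd`, `con_up`), so the induction hypothesis gives
`XX (upK E (resS K v)) (zz' l') = 0`, and this is `[E : residue field] XX (resS K v) (..)`
(`XX_up`, `XX_pr`, `rd_zz`). So `(d+1) X_j = T`, `T = ∑_m X_m`, for all `j` not proportional to `m₀`,
and `X_j = 0` for the others: summing over `j`: `(d+1) T = n₁ T` with `n₁ ≤ d`: `T = 0`.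
-/

set_option autoImplicit false

namespace Pool.Agent.Lib.MP_1e3e9c_agU

open IsLocalRing Pool.Agent.Lib.MP_b197b4_ntK

/-- The residue of an algebraic element. -/
private theorem E10_alg {F : Type} [Field F] {K : Subfield F} {V : ValuationSubring F}
    (hV : Dv K V) {x : F} (hx : IsAlgebraic K x) :
    x ∈ V ∧ IsAlgebraic (resS K V) (res V x) := by
  obtain ⟨p, hp, hr⟩ := hx.isIntegral
  let e : K →+* V := K.subtype.codRestrict V.toSubring fun a => hV.2 a a.2
  have hxV : x ∈ V := by
    have h2 : IsIntegral V x := by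
      refine ⟨p.map e, hp.map e, ?_⟩
      rw [Polynomial.eval₂_map]
      exact hr
    obtain ⟨y, hy⟩ := IsIntegrallyClosed.isIntegral_iff.1 h2
    rw [← hy]
    exact y.2
  refine ⟨hxV, ?_⟩
  let f : K →+* resS K V := RingHom.codRestrict ((residue V).comp e) (resS K V) fun a =>
    Subfield.subset_closure ⟨a, a.2, res_of_mem (hV.2 a a.2)⟩
  have h3 : Polynomial.eval₂ e ⟨x, hxV⟩ p = 0 := by
    apply Subtype.ext
    have h4 : ((Polynomial.eval₂ e ⟨x, hxV⟩ p : V) : F) = Polynomial.eval₂ (algebraMap K F) x p :=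
      Polynomial.hom_eval₂ p e V.subtype _
    rw [h4, hr]
    rfl
  have h5 : IsIntegral (resS K V) (res V x) := by
    refine ⟨p.map f, hp.map f, ?_⟩
    rw [Polynomial.eval₂_map]
    have h6 : residue V (Polynomial.eval₂ e ⟨x, hxV⟩ p) = Polynomial.eval₂
        ((algebraMap (resS K V) (ResidueField V)).comp f) (res V x) p := by
      refine (Polynomial.hom_eval₂ p e (residue V) _).trans ?_
      rw [res_of_mem hxV]
      rfl
    rw [← h6, h3, map_zero]
  exact h5.isAlgebraic

theorem con_rd {F ι : Type} [Field F] [CharZero F] [Fintype ι] {K : Subfield F}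
    {V : ValuationSubring F} (hV : Dv K V) {z : ι → F} (hz : z ≠ 0) (hc : Con K z) :
    Con (resS K V) (rd V z) := by
  obtain ⟨-, a, ha, -, h2, h3⟩ := rd_spec hV.1 hz
  intro i j hj
  have hj' : res V (a * z j) ≠ 0 := by
    rw [← h3]
    exact hj
  have hval : V.valuation (a * z j) = 1 := (res_ne_zero_iff (h2 j)).1 hj'
  have hzj : z j ≠ 0 := by
    rintro h0
    rw [h0, mul_zero, map_zero] at hval
    exact zero_ne_one hval
  rw [h3, h3, ← res_div (h2 i) hval, mul_div_mul_left _ _ ha]
  exact (E10_alg hV (hc i j hzj)).2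

variable {k : Type} [Field k] [CharZero k] {n d r : ℕ}
  {I : Ideal (MvPolynomial (Fin (n + 1) × Fin (d + 1 + 1)) k)}

/-- The statement of the second ladder for at most `s` distinct zeros. -/
def Lad0 (I : Ideal (MvPolynomial (Fin (n + 1) × Fin (d + 1 + 1)) k)) (s : ℕ) : Prop :=
  ∀ (F : Type) [Field F] [CharZero F] (φ : k →+* F) (K : Subfield F), (∀ a, φ a ∈ K) →
    ∀ (D : Dat I φ) (l : List (Fin (d + 1))), FF K l.length → s ≤ l.length → D.few s →
      ∀ m₀ : Fin (d + 1), Con K (D.pt (D.p m₀)) → XX K (l.map fun m => D.zz (D.p m)) = 0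

private theorem E10_symm {F : Type} [Field F] {p q : Fin 2 → F} (h : wd p q = 0) :
    wd q p = 0 := by
  unfold wd at h ⊢
  linear_combination -h

private theorem E10_trans {F : Type} [Field F] {p q r : Fin 2 → F} (hq : q ≠ 0) (h : wd p q = 0)
    (h' : wd q r = 0) : wd p r = 0 := by
  unfold wd at h h' ⊢
  have h0 : q 0 ≠ 0 ∨ q 1 ≠ 0 := by
    by_contra hcon
    push Not at hcon
    apply hq
    funext a
    fin_cases a
    · exact hcon.1
    · exact hcon.2
  rcases h0 with h0 | h0
  · apply mul_left_cancel₀ h0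
    linear_combination p 0 * h' + r 0 * h
  · apply mul_left_cancel₀ h0
    linear_combination p 1 * h' + r 1 * h

private theorem E10_conpr {F ι : Type} [Field F] {K : Subfield F} {z z' : ι → F} (h : Con K z)
    (hp : Pr z z') : Con K z' := by
  obtain ⟨a, ha, e⟩ := hp
  intro i j hj
  have hzj : z j ≠ 0 := by
    intro h0
    apply hj
    rw [e, h0, mul_zero]
  rw [e, e, mul_div_mul_left _ _ ha]
  exact h i j hzj

private theorem E10_res (hI : Fam r I) {s : ℕ} (hL : Lad0 I s) {F : Type} [Field F] [CharZero F]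
    {φ : k →+* F} {K : Subfield F} (hφ : ∀ a, φ a ∈ K) (D : Dat I φ) (l : List (Fin (d + 1)))
    (hs : s ≤ l.length) (hfew : D.few (s + 1)) {v : ValuationSubring F} (hv : Dv K v)
    (i j : Fin (d + 1)) (hij : wd (D.p i) (D.p j) ≠ 0) (hd : 0 < D.dd v (D.p i) (D.p j))
    (m₀ : Fin (d + 1)) (hc : Con K (D.pt (D.p m₀))) :
    XR K v (l.map fun m => D.zz (D.p m)) = 0 := by
  classical
  by_cases hFF : FF (resS K v) l.length
  swap
  · unfold XR
    rw [if_neg]
    rw [List.length_map]
    exact hFF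
  have hφv : ∀ a, φ a ∈ v := fun a => hv.2 _ (hφ a)
  obtain ⟨E, iE, iA, iD, D', g1, g2, g3⟩ := exists_resDat hI D hv.1 hφv
  have hK' : FF (upK E (resS K v)) l.length := FF_up hFF
  have hφ' : ∀ a, ((algebraMap (ResidueField v) E).comp (resk φ v hφv)) a ∈
      upK E (resS K v) := by
    intro a
    refine ⟨resk φ v hφv a, ?_, rfl⟩
    have h1 : resk φ v hφv a = res v (φ a) := by
      rw [res_of_mem (hφv a)]
      rfl
    rw [h1]
    exact Subfield.subset_closure ⟨φ a, hφ a, rfl⟩
  have : CharZero E := charZero_of_injective_ringHom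
    ((algebraMap (ResidueField v) E).comp (resk φ v hφv)).injective
  have : CharZero (ResidueField v) := charZero_of_injective_ringHom (resk φ v hφv).injective
  have hfew' : D'.few s := by
    obtain ⟨S, hS, hS2⟩ := hfew
    obtain ⟨mi, hmi, wi⟩ := hS2 i
    obtain ⟨mj, hmj, wj⟩ := hS2 j
    have hne : mj ≠ mi := by
      rintro rfl
      exact hij (E10_trans (D.pne _) wi (E10_symm wj))
    have h2 := g2 i j hij hd
    have h4 : wd (D'.p mi) (D'.p mj) = 0 :=
      E10_trans (D'.pne i) (E10_symm (g3 _ _ wi)) (E10_trans (D'.pne j) h2 (g3 _ _ wj))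
    refine ⟨S.erase mi, ?_, ?_⟩
    · rw [Finset.card_erase_of_mem hmi]
      omega
    · intro a
      obtain ⟨m, hm, wm⟩ := hS2 a
      by_cases hmm : m = mi
      · refine ⟨mj, Finset.mem_erase.2 ⟨hne, hmj⟩, ?_⟩
        rw [hmm] at wm
        exact E10_trans (D'.pne mi) (g3 _ _ wm) h4
      · exact ⟨m, Finset.mem_erase.2 ⟨hmm, hm⟩, g3 _ _ wm⟩
  have hcon' : Con (upK E (resS K v)) (D'.pt (D'.p m₀)) :=
    E10_conpr (con_up.2 (con_rd hv (pt_ne D (D.pne m₀)) hc)) (g1 m₀)
  have hX := hL E _ (upK E (resS K v)) hφ' D' l hK' hs hfew' m₀ hcon'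
  have hpr : ∀ a, Pr (up E (rd v (D.zz (D.p a)))) (D'.zz (D'.p a)) := by
    intro a
    obtain ⟨x, hx, hx2⟩ := rd_zz D hv.1 (D.pne a)
    obtain ⟨y, hy, hy2⟩ := g1 a
    have hax : algebraMap (ResidueField v) E x ≠ 0 :=
      fun h => hx ((map_eq_zero (algebraMap (ResidueField v) E)).1 h)
    refine ⟨y / algebraMap (ResidueField v) E x, div_ne_zero hy hax, ?_⟩
    intro σ
    have h1 : D'.zz (D'.p a) σ = D'.pt (D'.p a) (σ 0) := rfl
    rw [h1, hy2 (σ 0)]
    have h2 : up E (rd v (D.zz (D.p a))) σ = algebraMap (ResidueField v) E x *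
        up E (rd v (D.pt (D.p a))) (σ 0) := by
      unfold up
      rw [hx2 σ, map_mul]
    rw [h2]
    field_simp
  have hXX : XX (upK E (resS K v)) (l.map fun m => D'.zz (D'.p m)) =
        Module.finrank (ResidueField v) E * XR K v (l.map fun m => D.zz (D.p m)) := by
    have hxr : XR K v (l.map fun m => D.zz (D.p m)) =
        XX (resS K v) ((l.map fun m => D.zz (D.p m)).map (rd v)) := by
      unfold XR
      rw [if_pos]
      rw [List.length_map]
      exact hFF
    rw [hxr, ← XX_up]
    symm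
    apply XX_pr
    rw [List.map_map, List.map_map, List.forall₂_map_left_iff, List.forall₂_map_right_iff,
      List.forall₂_same]
    intro m _
    exact hpr m
  rw [hX] at hXX
  exact (Nat.mul_eq_zero.1 hXX.symm).resolve_left Module.finrank_pos.ne'

theorem ladder0 (hI : Fam r I) (s : ℕ) : Lad0 I s := by
  classical
  induction s with
  | zero =>
    intro F _ _ φ K hφ D l hF hs hfew m₀ hc
    exact absurd (few_pos D hfew) (by omega)
  | succ s ih =>
    intro F _ _ φ K hφ D l hF hs hfew m₀ hc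
    match l, hs, hF with
    | [], hs, _ =>
      rw [List.length_nil] at hs
      omega
    | m₁ :: l', hs, hF =>
      rw [List.length_cons] at hs hF
      set L : List ((Fin (d + 1) → Fin (n + 1)) → F) := l'.map fun m => D.zz (D.p m) with hL
      have hLl : L.length = l'.length := by rw [hL, List.length_map]
      have hF3 : FF K (L.length + 1) := by
        rw [hLl]
        exact hF
      have hl : ∀ w ∈ L, w ≠ 0 := by
        intro w hw
        obtain ⟨m, -, rfl⟩ := List.mem_map.mp hw
        exact zz_ne D (D.pne m)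
      have h0 : XX K (D.zz (D.p m₀) :: L) = 0 := XX_con L hF3 ((con_zz D (D.p m₀)).2 hc)
      have hj0 : ∀ j, wd (D.p m₀) (D.p j) = 0 → XX K (D.zz (D.p j) :: L) = 0 := by
        intro j hj
        rw [← h0]
        exact XX_pr K (List.Forall₂.cons
          (pr_zz_of_pt D (pr_pt_of_wd D (D.pne j) (D.pne m₀) (E10_symm hj)))
          (List.forall₂_same.mpr fun z _ => Pr.refl z))
      have hj1 : ∀ j, wd (D.p m₀) (D.p j) ≠ 0 →
          ((d : ℤ) + 1) * (XX K (D.zz (D.p j) :: L) : ℤ) =
            ∑ m, (XX K (D.zz (D.p m) :: L) : ℤ) := by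
        intro j hj
        have h1 := dd_XR D L hl hF3 (D.pne m₀) (D.pne j) hj
        have h2 : ∑ᶠ (v : ValuationSubring F) (_ : Dv K v),
            (XR K v L : ℤ) * D.dd v (D.p m₀) (D.p j) = 0 := by
          apply finsum_eq_zero_of_forall_eq_zero
          intro v
          rw [finsum_eq_if]
          split_ifs with hv
          swap
          · rfl
          rcases (dd_nonneg hI D hv.1 (fun a => hv.2 _ (hφ a)) hj).eq_or_lt with h3 | h3
          · rw [← h3, mul_zero]
          · rw [hL, E10_res hI ih hφ D l' (by omega) hfew hv m₀ j hj h3 m₀ hc, Nat.cast_zero,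
              zero_mul]
        rw [h2, h0, Nat.cast_zero, zero_add] at h1
        linarith
      have hnn : ∀ j, 0 ≤ (XX K (D.zz (D.p j) :: L) : ℤ) := fun j => Int.natCast_nonneg _
      have hT0 : 0 ≤ ∑ m, (XX K (D.zz (D.p m) :: L) : ℤ) := Finset.sum_nonneg fun j _ => hnn j
      have hle : ∀ j, ((d : ℤ) + 1) * (XX K (D.zz (D.p j) :: L) : ℤ) ≤
          ∑ m, (XX K (D.zz (D.p m) :: L) : ℤ) := by
        intro j
        by_cases hj : wd (D.p m₀) (D.p j) = 0
        · rw [hj0 j hj, Nat.cast_zero, mul_zero]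
          exact hT0
        · exact (hj1 j hj).le
      have hsum : ((d : ℤ) + 1) * ∑ m, (XX K (D.zz (D.p m) :: L) : ℤ) ≤
          (d : ℤ) * ∑ m, (XX K (D.zz (D.p m) :: L) : ℤ) := by
        obtain ⟨T, hT⟩ : ∃ T : ℤ, T = ∑ m, (XX K (D.zz (D.p m) :: L) : ℤ) := ⟨_, rfl⟩
        have e1 : ((d : ℤ) + 1) * ∑ m, (XX K (D.zz (D.p m) :: L) : ℤ) =
            ∑ m, ((d : ℤ) + 1) * (XX K (D.zz (D.p m) :: L) : ℤ) := Finset.mul_sum _ _ _
        rw [e1, ← Finset.add_sum_erase _ _ (Finset.mem_univ m₀), h0, Nat.cast_zero, mul_zero,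
          zero_add, ← hT]
        have e2 : ∑ m ∈ Finset.univ.erase m₀, ((d : ℤ) + 1) * (XX K (D.zz (D.p m) :: L) : ℤ) ≤
            ∑ m ∈ Finset.univ.erase m₀, T := by
          apply Finset.sum_le_sum
          intro j _
          rw [hT]
          exact hle j
        refine e2.trans (le_of_eq ?_)
        rw [Finset.sum_const, Finset.card_erase_of_mem (Finset.mem_univ m₀), Finset.card_univ,
          Fintype.card_fin, Nat.add_sub_cancel, nsmul_eq_mul]
      have hT : ∑ m, (XX K (D.zz (D.p m) :: L) : ℤ) = 0 := by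
        apply le_antisymm _ hT0
        linarith
      have h4 := (Finset.sum_eq_zero_iff_of_nonneg fun j _ => hnn j).1 hT m₁ (Finset.mem_univ m₁)
      exact_mod_cast h4

end Pool.Agent.Lib.MP_1e3e9c_agU
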