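import Mathlib
import Pool.Agent.Lib.MP_1e3e9c_agU.E10
import Pool.Agent.Lib.MP_1e3e9c_agU.Defs3

/-!
# MP_1e3e9c_ag, project U, leaf G10: the common point is not on the hyperplane

Suppose `y 0 = 0`. Then `f_0(q) = 0` over `A`, so by `D.fac` `wd (p m) q = 0` for some `m`, `q = b p m`
(`wd_eq_zero_iff`), `b ≠ 0`, and `b^(d+1) pt (p m) i = a φ(y i)` in `A`. So the quotients of the
coordinates of `pt (p m)` are in `φ(k)`: `Con φ.fieldRange (pt (p m))`. `ladder0 hI r` contradicts
`hpos`.
-/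

set_option autoImplicit false

namespace Pool.Agent.Lib.MP_1e3e9c_agU

open IsLocalRing Pool.Agent.Lib.MP_b197b4_ntK

theorem y0_ne {k F : Type} [Field k] [CharZero k] [Field F] [CharZero F] {n d r : ℕ}
    {I : Ideal (MvPolynomial (Fin (n + 1) × Fin (d + 1 + 1)) k)} {φ : k →+* F}
    (hI : Fam r I) (D : Dat I φ) (hfew : D.few r) (l : List (Fin (d + 1)))
    (hF : FF φ.fieldRange l.length) (hr : r ≤ l.length)
    (hpos : 0 < XX φ.fieldRange (l.map fun m => D.zz (D.p m))) (A : Type) [Field A] [Algebra F A]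
    (q : Fin 2 → A) (hq : q ≠ 0) (y : Fin (n + 1) → k) (a : A)
    (h : ∀ i, ptA A D.c q i = a * algebraMap F A (φ (y i))) : y 0 ≠ 0 := by
  intro h0
  -- the point is a zero of `f_0`
  have h1 : ptA A D.c q 0 = 0 := by rw [h 0, h0, map_zero, map_zero, mul_zero]
  have h2 : algebraMap F A D.e * ∏ l, wd (fun a => algebraMap F A (D.p l a)) q = 0 := by
    rw [← D.fac A (algebraMap F A) q]
    exact h1
  have he : algebraMap F A D.e ≠ 0 := (map_ne_zero (algebraMap F A)).2 D.ene
  obtain ⟨m, -, hm⟩ := Finset.prod_eq_zero_iff.1 ((mul_eq_zero.1 h2).resolve_left he)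
  have hpm : (fun a => algebraMap F A (D.p m a)) ≠ 0 := by
    intro h3
    apply D.pne m
    funext a
    exact (map_eq_zero (algebraMap F A)).1 (congrFun h3 a)
  obtain ⟨b, hb⟩ := (wd_eq_zero_iff hpm q).1 hm
  have hb0 : b ≠ 0 := by
    rintro rfl
    apply hq
    funext i
    rw [hb i, zero_mul]
    rfl
  -- the point of `p m`
  have hpt : ∀ i, ptA A D.c q i = b ^ (d + 1) * algebraMap F A (D.pt (D.p m) i) := by
    intro i
    have h3 : q = fun i => b * algebraMap F A (D.p m i) := funext hb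
    have h4 : ev (fun j => algebraMap F A (D.c i j)) (fun i => algebraMap F A (D.p m i)) =
        algebraMap F A (D.pt (D.p m) i) := by
      unfold Dat.pt ev
      simp only [map_sum, map_mul, map_pow]
    unfold ptA
    rw [h3, ev_scale, h4]
  have hbd : b ^ (d + 1) ≠ 0 := pow_ne_zero _ hb0
  have hcon : Con φ.fieldRange (D.pt (D.p m)) := by
    intro i j hj
    have e1 : b ^ (d + 1) * algebraMap F A (D.pt (D.p m) i) = a * algebraMap F A (φ (y i)) := by
      rw [← hpt i, h i]
    have e2 : b ^ (d + 1) * algebraMap F A (D.pt (D.p m) j) = a * algebraMap F A (φ (y j)) := by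
      rw [← hpt j, h j]
    have hj' : algebraMap F A (D.pt (D.p m) j) ≠ 0 := (map_ne_zero (algebraMap F A)).2 hj
    have hne : a * algebraMap F A (φ (y j)) ≠ 0 := by
      rw [← e2]
      exact mul_ne_zero hbd hj'
    have ha : a ≠ 0 := left_ne_zero_of_mul hne
    have hy : algebraMap F A (φ (y j)) ≠ 0 := right_ne_zero_of_mul hne
    have e3 : D.pt (D.p m) i / D.pt (D.p m) j = φ (y i / y j) := by
      apply (algebraMap F A).injective
      rw [map_div₀, map_div₀, map_div₀, ← mul_div_mul_left _ _ hbd, e1, e2,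
        mul_div_mul_left _ _ ha]
    rw [e3]
    exact isAlgebraic_algebraMap (⟨φ (y i / y j), ⟨y i / y j, rfl⟩⟩ : φ.fieldRange)
  have h5 := ladder0 hI r F φ φ.fieldRange (fun a => ⟨a, rfl⟩) D l hF hr hfew m hcon
  omega

end Pool.Agent.Lib.MP_1e3e9c_agU
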