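import Mathlib
import Pool.Agent.Lib.MP_1e3e9c_agU.Fin

/-!
# MP_1e3e9c_ag, project U, leaf Lin: the family of all lines of projective space

`unsplit_final` for `D = 1`, `I = ⊥`, `r = e`. `Unsplit ⊥`: prime (domain); `cur c x = x_0 u + x_1 w`,
`u i = c i 0`, `w i = c i 1`: if `u`, `w` are linearly independent it has no zero, otherwise
`u = a v`, `w = b v`. A nonzero binary form (here `x ↦ G(x_0 u + x_1 w)`, homogeneous of degree `e`)
has at most `e` zeros. Dimension: `MvPolynomial.ringKrullDim` of a polynomial ring over a field in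
`2 (n + 1)` variables is `2 (n + 1) ≥ e + 5`. The second alternative of `unsplit_final` is
impossible: for every `y ≠ 0` there is a line which does not contain `y` (`n ≥ 2`).
-/

set_option autoImplicit false

namespace Pool.Agent.Lib.MP_1e3e9c_agU

private theorem Lin_cur {k : Type} [Field k] {n : ℕ} (c : Fin (n + 1) → Fin (1 + 1) → k)
    (x : Fin 2 → k) (i : Fin (n + 1)) : cur c x i = c i 0 * x 0 + c i 1 * x 1 := by
  unfold cur
  rw [Fin.sum_univ_two]
  simp

theorem unsplit_lines {k : Type} [Field k] [IsAlgClosed k] {n : ℕ} (hn : 1 ≤ n) :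
    Unsplit (⊥ : Ideal (MvPolynomial (Fin (n + 1) × Fin (1 + 1)) k)) := by
  have hz : ∀ c : Fin (n + 1) → Fin (1 + 1) → k,
      Zer (⊥ : Ideal (MvPolynomial (Fin (n + 1) × Fin (1 + 1)) k)) c := by
    intro c P hP
    rw [Ideal.mem_bot] at hP
    rw [hP, map_zero]
  refine ⟨Ideal.isPrime_bot, ?_, fun c c' g _ _ _ => hz c', ?_⟩
  · obtain ⟨i0, i1, h01⟩ : ∃ i0 i1 : Fin (n + 1), i0 ≠ i1 := by
      refine ⟨⟨0, by omega⟩, ⟨1, by omega⟩, ?_⟩
      intro h
      simp at h
    refine ⟨fun i j => if j = 0 then (if i = i0 then 1 else 0) else (if i = i1 then 1 else 0),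
      hz _, ?_⟩
    intro x hx h
    apply hx
    have h0 := congrFun h i0
    have h1 := congrFun h i1
    rw [Lin_cur] at h0 h1
    simp [h01, h01.symm] at h0 h1
    funext j
    fin_cases j
    · exact h0
    · exact h1
  · intro c _ _
    by_cases hm : Mor c
    · exact Or.inl hm
    · right
      unfold Mor at hm
      push Not at hm
      obtain ⟨x, hx, h⟩ := hm
      have hi : ∀ i, c i 0 * x 0 + c i 1 * x 1 = 0 := by
        intro i
        rw [← Lin_cur, h]
        rfl
      by_cases h0 : x 0 = 0
      · have h1 : x 1 ≠ 0 := by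
          intro h1
          apply hx
          funext j
          fin_cases j
          · exact h0
          · exact h1
        refine ⟨fun i => c i 0, 1, 0, fun y i => ?_⟩
        have h2 := hi i
        rw [h0, mul_zero, zero_add, mul_eq_zero, or_iff_left h1] at h2
        rw [Lin_cur, h2]
        ring
      · refine ⟨fun i => c i 1, - (x 1 / x 0), 1, fun y i => ?_⟩
        have h2 : c i 0 = - (x 1 / x 0) * c i 1 := by
          field_simp
          linear_combination hi i
        rw [Lin_cur, h2]
        ring

open Polynomial in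
/-- the polynomial `s ↦ G(α + s β)` -/
private theorem Lin_poly {k : Type} [Field k] {n e : ℕ} (G : MvPolynomial (Fin (n + 1)) k)
    (hG : G.IsHomogeneous e) (α β : Fin (n + 1) → k) :
    ∃ q : k[X], q.natDegree ≤ e ∧
      ∀ s, q.eval s = MvPolynomial.eval (fun i => α i + s * β i) G := by
  refine ⟨MvPolynomial.aeval (fun i => C (α i) + C (β i) * X) G, ?_, ?_⟩
  · have h := MvPolynomial.aeval_natDegree_le G hG.totalDegree_le
      (fun i => C (α i) + C (β i) * X) (n := 1) (by
        intro i
        refine (natDegree_add_le _ _).trans (max_le ?_ ?_)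
        · rw [natDegree_C]
          exact Nat.zero_le _
        · exact (natDegree_C_mul_le _ _).trans natDegree_X_le)
    rwa [mul_one] at h
  · intro s
    clear hG
    induction G using MvPolynomial.induction_on with
    | C a => simp
    | add p q hp hq => simp only [map_add, eval_add, hp, hq]
    | mul_X p i hp =>
      rw [map_mul, map_mul, eval_mul, hp, MvPolynomial.aeval_X, MvPolynomial.eval_X]
      simp only [eval_add, eval_mul, eval_C, eval_X]
      ring

/-- the number of zeros on a line -/
private theorem Lin_count {k : Type} [Field k] [CharZero k] {n e : ℕ} (he : 1 ≤ e)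
    (G : MvPolynomial (Fin (n + 1)) k) (hG : G.IsHomogeneous e)
    (c : Fin (n + 1) → Fin (1 + 1) → k) (hx : ∃ x, MvPolynomial.eval (cur c x) G ≠ 0) :
    Set.encard {P : Projectivization k (Fin 2 → k) |
        MvPolynomial.eval (cur c P.rep) G = 0} ≤ e := by
  classical
  have hinf : Infinite k := Infinite.of_injective _ (Nat.cast_injective (R := k))
  obtain ⟨z, hz⟩ := hx
  have hz0 : z ≠ 0 := by
    intro h
    apply hz
    have h1 : cur c z = (0 : k) • cur c z := by
      funext i
      rw [Pi.smul_apply, Lin_cur, h]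
      simp
    rw [h1, hom_smul hG, zero_pow (by omega), zero_mul]
  obtain ⟨w, hw⟩ : ∃ w : Fin 2 → k, wd z w ≠ 0 := by
    by_cases h0 : z 0 = 0
    · refine ⟨![1, 0], ?_⟩
      unfold wd
      intro h1
      apply hz0
      funext j
      fin_cases j
      · exact h0
      · simpa using h1
    · refine ⟨![0, 1], ?_⟩
      unfold wd
      simpa using h0
  have hlin : ∀ (a b : k) (u v : Fin 2 → k), cur c (a • u + b • v) =
      fun i => a * cur c u i + b * cur c v i := by
    intro a b u v
    funext i
    simp only [Lin_cur, Pi.add_apply, Pi.smul_apply, smul_eq_mul]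
    ring
  have hlin1 : ∀ (s : k) (u v : Fin 2 → k), cur c (u + s • v) =
      fun i => cur c u i + s * cur c v i := by
    intro s u v
    have h1 := hlin 1 s u v
    rw [one_smul] at h1
    rw [h1]
    funext i
    rw [one_mul]
  -- a second point where the form does not vanish
  obtain ⟨z', hz', hd⟩ : ∃ z' : Fin 2 → k, MvPolynomial.eval (cur c z') G ≠ 0 ∧
      wd z z' ≠ 0 := by
    obtain ⟨q, -, hq⟩ := Lin_poly G hG (cur c z) (cur c w)
    have hq0 : q ≠ 0 := by
      intro h
      have h1 := hq 0
      rw [h, Polynomial.eval_zero] at h1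
      apply hz
      rw [show cur c z = fun i => cur c z i + 0 * cur c w i from by
        funext i
        rw [zero_mul, add_zero]]
      exact h1.symm
    have hXq : (Polynomial.X * q : Polynomial k) ≠ 0 := mul_ne_zero Polynomial.X_ne_zero hq0
    obtain ⟨s, hs⟩ : ∃ s, Polynomial.eval s (Polynomial.X * q) ≠ 0 := by
      by_contra hcon
      push Not at hcon
      exact hXq (Polynomial.funext fun s => by rw [hcon s, Polynomial.eval_zero])
    rw [Polynomial.eval_mul, Polynomial.eval_X] at hs
    have hs0 : s ≠ 0 := left_ne_zero_of_mul hs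
    have hqs : q.eval s ≠ 0 := right_ne_zero_of_mul hs
    refine ⟨z + s • w, ?_, ?_⟩
    · rw [hlin1, ← hq]
      exact hqs
    · have h1 : wd z (z + s • w) = s * wd z w := by
        unfold wd
        simp only [Pi.add_apply, Pi.smul_apply, smul_eq_mul]
        ring
      rw [h1]
      exact mul_ne_zero hs0 hw
  obtain ⟨q, hqd, hq⟩ := Lin_poly G hG (cur c z) (cur c z')
  have hq0 : q ≠ 0 := by
    intro h
    have h1 := hq 0
    rw [h, Polynomial.eval_zero] at h1
    apply hz
    rw [show cur c z = fun i => cur c z i + 0 * cur c z' i from by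
      funext i
      rw [zero_mul, add_zero]]
    exact h1.symm
  have hne : ∀ s : k, z + s • z' ≠ 0 := by
    intro s h
    apply hd
    have h0 := congrFun h 0
    have h1 := congrFun h 1
    simp only [Pi.add_apply, Pi.smul_apply, smul_eq_mul, Pi.zero_apply] at h0 h1
    unfold wd
    have e0 : z 0 = - (s * z' 0) := by linear_combination h0
    have e1 : z 1 = - (s * z' 1) := by linear_combination h1
    rw [e0, e1]
    ring
  have hsub : {P : Projectivization k (Fin 2 → k) | MvPolynomial.eval (cur c P.rep) G = 0} ⊆
      (fun s : k => Projectivization.mk k (z + s • z') (hne s)) '' (q.roots.toFinset : Set k) := by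
    intro P hP
    change MvPolynomial.eval (cur c P.rep) G = 0 at hP
    set p := P.rep with hp
    obtain ⟨a, b, hab⟩ : ∃ a b : k, p = a • z + b • z' := by
      refine ⟨wd p z' / wd z z', wd z p / wd z z', ?_⟩
      funext j
      simp only [Pi.add_apply, Pi.smul_apply, smul_eq_mul]
      have hd' := hd
      unfold wd at hd' ⊢
      fin_cases j
      · simp only [Fin.zero_eta, Fin.isValue]
        rw [div_mul_eq_mul_div, div_mul_eq_mul_div, ← add_div, eq_div_iff hd']
        ring
      · simp only [Fin.mk_one, Fin.isValue]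
        rw [div_mul_eq_mul_div, div_mul_eq_mul_div, ← add_div, eq_div_iff hd']
        ring
    have ha : a ≠ 0 := by
      intro ha
      rw [ha, zero_smul, zero_add] at hab
      have hb : b ≠ 0 := by
        intro hb
        rw [hb, zero_smul] at hab
        exact P.rep_nonzero hab
      have h1 : cur c p = b • cur c z' := by
        rw [hab]
        funext i
        simp only [Lin_cur, Pi.smul_apply, smul_eq_mul]
        ring
      rw [h1, hom_smul hG] at hP
      exact mul_ne_zero (pow_ne_zero _ hb) hz' hP
    have hpa : p = a • (z + (b / a) • z') := by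
      rw [hab, smul_add, smul_smul, mul_div_cancel₀ _ ha]
    have hroot : q.eval (b / a) = 0 := by
      have h1 : cur c p = a • cur c (z + (b / a) • z') := by
        conv_lhs => rw [hpa]
        funext i
        simp only [Lin_cur, Pi.smul_apply, Pi.add_apply, smul_eq_mul]
        ring
      rw [h1, hom_smul hG, mul_eq_zero, or_iff_right (pow_ne_zero _ ha), hlin1, ← hq] at hP
      exact hP
    refine ⟨b / a, ?_, ?_⟩
    · rw [Finset.mem_coe, Multiset.mem_toFinset, Polynomial.mem_roots hq0]
      exact hroot
    · have h2 : Projectivization.mk k (z + (b / a) • z') (hne _) =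
          Projectivization.mk k P.rep P.rep_nonzero := by
        rw [Projectivization.mk_eq_mk_iff']
        refine ⟨a⁻¹, ?_⟩
        rw [← hp, hpa, smul_smul, inv_mul_cancel₀ ha, one_smul]
      change Projectivization.mk k (z + (b / a) • z') (hne _) = P
      rw [h2, Projectivization.mk_rep]
  refine (Set.encard_le_encard hsub).trans ((Set.encard_image_le _ _).trans ?_)
  rw [Set.encard_coe_eq_coe_finsetCard]
  have h3 : q.roots.toFinset.card ≤ e :=
    (Multiset.toFinset_card_le _).trans ((Polynomial.card_roots' q).trans hqd)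
  exact_mod_cast h3

/-- Every hypersurface of degree `e ≤ 2 n - 3` in `P^n` contains a line. -/
theorem lines {k : Type} [Field k] [IsAlgClosed k] [CharZero k] {n e : ℕ} (he : 1 ≤ e)
    (hn : e + 3 ≤ 2 * n) (G : MvPolynomial (Fin (n + 1)) k) (hG : G.IsHomogeneous e) :
    ∃ c : Fin (n + 1) → Fin (1 + 1) → k, Mor c ∧
      ∀ x, MvPolynomial.eval (cur c x) G = 0 := by
  classical
  have hdim : ((e + 1 + 4 : ℕ) : WithBot ℕ∞) ≤
      ringKrullDim (MvPolynomial (Fin (n + 1) × Fin (1 + 1)) k ⧸
        (⊥ : Ideal (MvPolynomial (Fin (n + 1) × Fin (1 + 1)) k))) := by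
    rw [ringKrullDim_eq_of_ringEquiv (RingEquiv.quotientBot _)]
    refine le_trans ?_ (ringKrullDim_add_natCard_le_ringKrullDim_mvPolynomial
      (R := k) (Fin (n + 1) × Fin (1 + 1)))
    rw [ringKrullDim_eq_zero_of_field, zero_add, Nat.card_eq_fintype_card, Fintype.card_prod,
      Fintype.card_fin, Fintype.card_fin]
    exact_mod_cast (by omega : e + 1 + 4 ≤ (n + 1) * (1 + 1))
  rcases unsplit_final (r := e) le_rfl he (⊥ : Ideal (MvPolynomial (Fin (n + 1) × Fin (1 + 1)) k))
    (unsplit_lines (by omega)) G hG (fun c _ _ hx => Lin_count he G hG c hx) hdim with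
    ⟨c, _, hm, h⟩ | ⟨y, hy, h⟩
  · exact ⟨c, hm, h⟩
  · exfalso
    have hy0 : y ≠ 0 := by
      intro h0
      apply hy
      have h1 : y = (0 : k) • y := by rw [h0, smul_zero]
      rw [h1, hom_smul hG, zero_pow (by omega), zero_mul]
    obtain ⟨i0, hi0⟩ := Function.ne_iff.1 hy0
    have hcard : 1 < (Finset.univ.erase i0).card := by
      rw [Finset.card_erase_of_mem (Finset.mem_univ _), Finset.card_univ, Fintype.card_fin]
      omega
    obtain ⟨i1, h1, i2, h2, h12⟩ := Finset.one_lt_card.1 hcard
    have h1' : i1 ≠ i0 := Finset.ne_of_mem_erase h1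
    have h2' : i2 ≠ i0 := Finset.ne_of_mem_erase h2
    let c : Fin (n + 1) → Fin (1 + 1) → k := fun i j =>
      if j = 0 then (if i = i1 then 1 else 0) else (if i = i2 then 1 else 0)
    have hc : ∀ x i, cur c x i = (if i = i1 then x 0 else 0) + (if i = i2 then x 1 else 0) := by
      intro x i
      rw [Lin_cur]
      simp [c]
    have hm : Mor c := by
      intro x hx h0
      apply hx
      have e1 := congrFun h0 i1
      have e2 := congrFun h0 i2
      rw [hc] at e1 e2
      simp [h12, h12.symm] at e1 e2
      funext j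
      fin_cases j
      · exact e1
      · exact e2
    have hz : Zer (⊥ : Ideal (MvPolynomial (Fin (n + 1) × Fin (1 + 1)) k)) c := by
      intro P hP
      rw [Ideal.mem_bot] at hP
      rw [hP, map_zero]
    obtain ⟨x, hx, b, hb⟩ := h c hz hm
    have h3 := congrFun hb i0
    rw [hc, if_neg h1'.symm, if_neg h2'.symm, add_zero, Pi.smul_apply, smul_eq_mul] at h3
    have hb0 : b = 0 := by
      rcases mul_eq_zero.1 h3.symm with h4 | h4
      · exact h4
      · exact absurd h4 hi0
    rw [hb0, zero_smul] at hb
    exact hm x hx hb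

end Pool.Agent.Lib.MP_1e3e9c_agU
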